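import Pool.Agent.Helper87.RG.R0

/-!
# Project REG, block R3: the mean value formula for functions with bounded complex Hessian ((0.2), (7.4))

`mean_formula`. PROOF. Let `u_ε = Phi u · ε`. For small `ε` it is smooth near the compact ellipsoid `z + h A (closed ball)` (contained in `shr Ω ε`), `hasDerivAt_M` and the fundamental theorem give `M (hA) u_ε z - u_ε z = ∫_0^h 2 r M1 (rA) (DA A u_ε) z dr` (`M (0 A) u_ε z = u_ε z` since `∫ ρ = 1`). `DA A u_ε = sA A (hess u_ε)` (`DA_eq_sA`), `hess u_ε → H` a.e. and bounded near the ellipsoid (`BH.hess_Phi`, `BH.ae_tendsto`, `BH.bdd`).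
For fixed `r > 0` the map `η ↦ z + r A η` preserves null sets, so `M1 (rA) (sA A (hess u_ε)) z → M1 (rA) (sA A ∘ H) z` by dominated convergence, then dominated convergence in `r`. On the left `u_ε → u` uniformly on the ellipsoid (`u` is continuous).
`ellIn_mono`: smaller ellipsoids. `vA_le`, `le_vA`: bounds: `∫_0^h 2 r (∫ ρ₁) m dr = a h² m`, `ρ₁ ≥ 0`, `ρ₁ = 0` outside the unit ball.
-/

set_option autoImplicit false

namespace Pool.Agent.Helper87.RG

open MeasureTheory Set Filter Topology Metric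
open Helper29.AM
open scoped ComplexOrder

variable {n : ℕ}

theorem ellIn_mono {A : Lin n} {h h' : ℝ} {z : V n} {Ω : Set (V n)} (hz : ellIn A h z Ω) (h0 : 0 ≤ h') (hh : h' ≤ h) :
    ellIn A h' z Ω := by
  intro η hη
  rcases eq_or_lt_of_le (h0.trans hh) with h1 | h1
  · have h2 : h' = h := le_antisymm hh (by rw [← h1]; exact h0)
    rw [h2]
    exact hz η hη
  · have h2 := hz (((h' / h : ℝ) : ℂ) • η) (by
      rw [norm_smul, Complex.norm_real, Real.norm_of_nonneg (by positivity)]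
      calc h' / h * ‖η‖ ≤ 1 * 1 := mul_le_mul ((div_le_one h1).2 hh) hη (norm_nonneg _) zero_le_one
        _ = 1 := one_mul 1)
    have h3 : ((h : ℂ) • A) (((h' / h : ℝ) : ℂ) • η) = ((h' : ℂ) • A) η := by
      rw [map_smul]
      show ((h' / h : ℝ) : ℂ) • ((h : ℂ) • A η) = (h' : ℂ) • A η
      rw [smul_smul, ← Complex.ofReal_mul, div_mul_cancel₀ _ h1.ne']
    rwa [h3] at h2

theorem aff41 {T : Lin n} (hT : T.det ≠ 0) (z : V n) {p : V n → Prop} (hp : ∀ᵐ y, p y) :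
    ∀ᵐ η : V n, p (z + T η) := by
  let g : V n ≃L[ℂ] V n := ContinuousLinearMap.toContinuousLinearEquivOfDetNeZero T hT
  let gR : V n ≃L[ℝ] V n := g.restrictScalars ℝ
  have hg : ∀ η, gR η = T η := fun η => rfl
  let f : V n ≃ₜ V n := gR.toHomeomorph.trans (Homeomorph.addLeft z)
  have hf : ∀ η, f η = z + T η := fun η => rfl
  have hmap : Measure.map f volume = ENNReal.ofReal |(LinearMap.det (gR : V n →ₗ[ℝ] V n))⁻¹| • (volume : Measure (V n)) := by
    have h1 : (f : V n → V n) = (fun x => z + x) ∘ gR := rfl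
    rw [h1, ← Measure.map_map (measurable_const_add z) gR.continuous.measurable]
    have h2 := Measure.map_linearMap_addHaar_eq_smul_addHaar (volume : Measure (V n))
      (f := (gR : V n →ₗ[ℝ] V n)) (LinearEquiv.isUnit_det' gR.toLinearEquiv).ne_zero
    have h3 : ((gR : V n →ₗ[ℝ] V n) : V n → V n) = gR := rfl
    rw [h3] at h2
    rw [h2, Measure.map_smul, map_add_left_eq_self]
  have h1 : ∀ᵐ y ∂(Measure.map f volume), p y := by
    rw [hmap]
    exact Measure.ae_smul_measure hp _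
  exact ae_of_ae_map f.continuous.aemeasurable h1

theorem det_smul41 {A : Lin n} (hA : A.det ≠ 0) {r : ℝ} (hr : r ≠ 0) : ((r : ℂ) • A).det ≠ 0 := by
  rw [ContinuousLinearMap.det, ContinuousLinearMap.toLinearMap_smul, LinearMap.det_smul]
  exact mul_ne_zero (pow_ne_zero _ (by exact_mod_cast hr)) hA

private theorem lf_abs41 {H : Mat n} {C : ℝ} (hH : ∀ j k, ‖H j k‖ ≤ C) (v : V n) :
    |lf H v| ≤ C * ∑ j, ∑ k, ‖v j‖ * ‖v k‖ := by
  unfold lf
  refine (Complex.abs_re_le_norm _).trans ?_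
  rw [Finset.mul_sum]
  refine (norm_sum_le _ _).trans (Finset.sum_le_sum fun j _ => ?_)
  rw [Finset.mul_sum]
  refine (norm_sum_le _ _).trans (Finset.sum_le_sum fun k _ => ?_)
  rw [norm_mul, norm_mul, RCLike.norm_conj, mul_assoc]
  exact mul_le_mul_of_nonneg_right (hH j k) (by positivity)

theorem sA_abs41 (A : Lin n) : ∃ B : ℝ, 0 ≤ B ∧ ∀ (H : Mat n) (C : ℝ), (∀ j k, ‖H j k‖ ≤ C) → |sA A H| ≤ C * B := by
  refine ⟨∑ l : Fin n, ∑ j, ∑ k, ‖(A (e l)) j‖ * ‖(A (e l)) k‖, by positivity, fun H C hH => ?_⟩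
  unfold sA
  rw [Finset.mul_sum]
  exact (Finset.abs_sum_le_sum_abs _ _).trans (Finset.sum_le_sum fun l _ => lf_abs41 hH _)

theorem sA_meas41 (A : Lin n) {H : V n → Mat n} (hH : ∀ j k, Measurable fun z => H z j k) :
    Measurable fun z => sA A (H z) := by
  unfold sA lf
  refine Finset.measurable_fun_sum _ fun l _ => ?_
  refine Complex.measurable_re.comp ?_
  refine Finset.measurable_fun_sum _ fun j _ => ?_
  refine Finset.measurable_fun_sum _ fun k _ => ?_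
  exact ((hH j k).mul_const _).mul_const _

private theorem sA_tendsto41 (A : Lin n) {ι : Type*} {l : Filter ι} {K : ι → Mat n} {K' : Mat n}
    (h : ∀ j k, Tendsto (fun i => K i j k) l (𝓝 (K' j k))) :
    Tendsto (fun i => sA A (K i)) l (𝓝 (sA A K')) := by
  unfold sA lf
  refine tendsto_finsetSum _ fun l _ => ?_
  refine (Complex.continuous_re.tendsto _).comp ?_
  refine tendsto_finsetSum _ fun j _ => tendsto_finsetSum _ fun k _ => ?_
  exact ((h j k).mul_const _).mul_const _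

private theorem two_le41 : (2 : WithTop ℕ∞) ≤ ((⊤ : ℕ∞) : WithTop ℕ∞) := by
  have h : ((2 : ℕ∞) : WithTop ℕ∞) ≤ ((⊤ : ℕ∞) : WithTop ℕ∞) := WithTop.coe_le_coe.2 le_top
  exact h

private theorem M_zero41 (A : Lin n) (u : V n → ℝ) (z : V n) : M (((0 : ℝ) : ℂ) • A) u z = u z := by
  rw [M]
  have h1 : ∀ η : V n, rho η * u (z + (((0 : ℝ) : ℂ) • A) η) = rho η * u z := by
    intro η
    simp
  simp only [h1]
  rw [integral_mul_const, integral_rho, one_mul]

private theorem ftc41 {W : Set (V n)} (hW : IsOpen W) {v : V n → ℝ} (hv : ContDiffOn ℝ 2 v W) (A : Lin n)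
    {z : V n} {h : ℝ} (hh : 0 ≤ h) (hz : ellIn A h z W) :
    ContinuousOn (fun r : ℝ => 2 * r * M1 ((r : ℂ) • A) (DA A v) z) (Icc 0 h) ∧
      M ((h : ℂ) • A) v z - v z = ∫ r in (0 : ℝ)..h, 2 * r * M1 ((r : ℂ) • A) (DA A v) z := by
  have hd : ∀ r ∈ Icc (0 : ℝ) h, HasDerivAt (fun s : ℝ => M ((s : ℂ) • A) v z)
      (2 * r * M1 ((r : ℂ) • A) (DA A v) z) r := fun r hr =>
    hasDerivAt_M A hW hv (ellIn_mono hz hr.1 hr.2)
  have hO : IsOpen {r : ℝ | ∀ η : V n, ‖η‖ ≤ 1 → z + ((r : ℂ) • A) η ∈ W} := by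
    have h1 := isOpen_ell A hW
    exact h1.preimage (f := fun r : ℝ => (z, r)) (by fun_prop)
  have hC : ContDiffOn ℝ 1 (fun s : ℝ => M ((s : ℂ) • A) v z)
      {r : ℝ | ∀ η : V n, ‖η‖ ≤ 1 → z + ((r : ℂ) • A) η ∈ W} := by
    have h2 : ContDiffOn ℝ ((2 : ℕ∞) : WithTop ℕ∞) v W := hv
    have h1 := contDiffOn_M_joint A hW h2
    have h3 : ContDiffOn ℝ 1 (fun p : V n × ℝ => M ((p.2 : ℂ) • A) v p.1)
      {p | ∀ η : V n, ‖η‖ ≤ 1 → p.1 + ((p.2 : ℂ) • A) η ∈ W} := h1.of_le (by norm_num)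
    exact h3.comp (f := fun r : ℝ => (z, r)) (contDiffOn_const.prodMk contDiffOn_id) fun r hr => hr
  have hcd := hC.continuousOn_deriv_of_isOpen hO le_rfl
  have hcont : ContinuousOn (fun r : ℝ => 2 * r * M1 ((r : ℂ) • A) (DA A v) z) (Icc 0 h) := by
    refine (hcd.mono fun r hr => ?_).congr fun r hr => ?_
    · exact ellIn_mono hz hr.1 hr.2
    · exact ((hd r hr).deriv).symm
  refine ⟨hcont, ?_⟩
  rw [intervalIntegral.integral_eq_sub_of_hasDerivAt (f := fun s : ℝ => M ((s : ℂ) • A) v z)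
    (fun r hr => hd r (by rwa [uIcc_of_le hh] at hr)) ((hcont.mono (by rw [uIcc_of_le hh])).intervalIntegrable)]
  rw [M_zero41]

theorem geo41 {Ω : Set (V n)} (hΩ : IsOpen Ω) {A : Lin n} {z : V n} {h : ℝ} (hz : ellIn A h z Ω) :
    ∃ (K : Set (V n)) (δ : ℝ), 0 < δ ∧ IsCompact K ∧ ellIn A h z K ∧ IsCompact (cthickening δ K) ∧
      cthickening δ K ⊆ Ω := by
  have hc : Continuous fun η : V n => z + ((h : ℂ) • A) η := by fun_prop
  have hK : IsCompact ((fun η : V n => z + ((h : ℂ) • A) η) '' closedBall 0 1) :=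
    (isCompact_closedBall 0 1).image hc
  have hKΩ : (fun η : V n => z + ((h : ℂ) • A) η) '' closedBall 0 1 ⊆ Ω := by
    rintro _ ⟨η, hη, rfl⟩
    exact hz η (by simpa using hη)
  obtain ⟨δ, hδ, hδΩ⟩ := hK.exists_cthickening_subset_open hΩ hKΩ
  exact ⟨_, δ, hδ, hK, fun η hη => ⟨η, by simpa using hη, rfl⟩, hK.cthickening, hδΩ⟩

private theorem near41 {K : Set (V n)} {δ ε : ℝ} (_ : 0 ≤ ε) (hεδ : ε ≤ δ) {y : V n} (hy : y ∈ K) :
    y ∈ shr (cthickening δ K) ε :=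
  (closedBall_subset_closedBall hεδ).trans (closedBall_subset_cthickening hy δ)

private theorem shr_mono41 {U W : Set (V n)} (h : U ⊆ W) {ε : ℝ} : shr U ε ⊆ shr W ε := fun _ hy => Subset.trans hy h

private theorem det_sc41 {ε : ℝ} (hε : 0 < ε) : (sc ε : Lin n).det ≠ 0 := by
  rw [det_sc]
  exact pow_ne_zero _ (by exact_mod_cast hε.ne')

private theorem phi_abs41 {K' : Set (V n)} {u : V n → ℝ} {D : ℝ} (hD : ∀ y ∈ K', |u y| ≤ D) {ε : ℝ} (hε : 0 ≤ ε)
    {y : V n} (hy : y ∈ shr K' ε) : |Phi u y ε| ≤ D := by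
  rw [Phi, M]
  have h1 : ‖∫ η : V n, rho η * u (y + (sc ε : Lin n) η)‖ ≤ ∫ η : V n, rho η * D := by
    refine norm_integral_le_of_norm_le (rho_integrable.mul_const D) (Eventually.of_forall fun η => ?_)
    rw [norm_mul, Real.norm_of_nonneg (rho_nonneg η), Real.norm_eq_abs]
    rcases le_or_gt ‖η‖ 1 with h1 | h1
    · exact mul_le_mul_of_nonneg_left (hD _ ((mem_shr_iff hε).1 hy η h1)) (rho_nonneg η)
    · rw [rho_eq_zero h1.le, zero_mul, zero_mul]
  rwa [integral_mul_const, integral_rho, one_mul, Real.norm_eq_abs] at h1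

private theorem phi_tendsto41 {Ω : Set (V n)} (hΩ : IsOpen Ω) {u : V n → ℝ} (hu : ContinuousOn u Ω) {y : V n} (hy : y ∈ Ω) :
    Tendsto (fun ε => Phi u y ε) (𝓝[>] 0) (𝓝 (u y)) := by
  have hg : ContDiffOn ℝ ((0 : ℕ∞) : WithTop ℕ∞) u Ω := by
    exact contDiffOn_zero.2 hu
  have hj := (contDiffOn_M_joint (1 : Lin n) hΩ hg).continuousOn
  have hmem : (y, (0 : ℝ)) ∈ {p : V n × ℝ | ∀ η : V n, ‖η‖ ≤ 1 → p.1 + ((p.2 : ℂ) • (1 : Lin n)) η ∈ Ω} := by
    intro η _
    simpa using hy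
  have hc := hj.continuousAt ((isOpen_ell (1 : Lin n) hΩ).mem_nhds hmem)
  have hc2 : ContinuousAt (fun ε : ℝ => Phi u y ε) 0 := by
    have h3 : ContinuousAt (fun ε : ℝ => (y, ε)) 0 := by fun_prop
    exact ContinuousAt.comp (g := fun p : V n × ℝ => M ((p.2 : ℂ) • (1 : Lin n)) u p.1)
      (f := fun ε : ℝ => (y, ε)) hc h3
  have := hc2.tendsto
  rw [Phi_zero] at this
  exact this.mono_left nhdsWithin_le_nhds

private theorem MH_abs41 {K' : Set (V n)} {H : V n → Mat n} {C : ℝ} (hC : ∀ y ∈ K', ∀ j k, ‖H y j k‖ ≤ C) {ε : ℝ}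
    (hε : 0 ≤ ε) {y : V n} (hy : y ∈ shr K' ε) (j k : Fin n) : ‖MH (sc ε) H y j k‖ ≤ C := by
  rw [MH]
  have h1 : ‖∫ η : V n, (rho η : ℂ) * H (y + (sc ε : Lin n) η) j k‖ ≤ ∫ η : V n, rho η * C := by
    refine norm_integral_le_of_norm_le (rho_integrable.mul_const C) (Eventually.of_forall fun η => ?_)
    rw [norm_mul, Complex.norm_real, Real.norm_of_nonneg (rho_nonneg η)]
    rcases le_or_gt ‖η‖ 1 with h1 | h1
    · exact mul_le_mul_of_nonneg_left (hC _ ((mem_shr_iff hε).1 hy η h1) j k) (rho_nonneg η)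
    · rw [rho_eq_zero h1.le, zero_mul, zero_mul]
  rwa [integral_mul_const, integral_rho, one_mul] at h1

/-- the mollified function on the ellipsoid -/
private theorem moll41 {Ω : Set (V n)} (hΩ : IsOpen Ω) {u : V n → ℝ} {H : V n → Mat n} (hb : BH Ω u H)
    {K' : Set (V n)} (hK' : K' ⊆ Ω) {C B : ℝ} (hC : ∀ y ∈ K', ∀ j k, ‖H y j k‖ ≤ C) {A : Lin n}
    (hB : ∀ (H : Mat n) (C : ℝ), (∀ j k, ‖H j k‖ ≤ C) → |sA A H| ≤ C * B) {ε : ℝ} (hε : 0 < ε) {y : V n}
    (hy : y ∈ shr K' ε) :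
    DA A (fun y => Phi u y ε) y = sA A (hess (fun y => Phi u y ε) y) ∧ |DA A (fun y => Phi u y ε) y| ≤ C * B := by
  have hy' : y ∈ shr Ω ε := shr_mono41 hK' hy
  have h2 : ContDiffAt ℝ 2 (fun y => Phi u y ε) y :=
    (((contDiffOn_Phi_left hΩ hb.int hε).of_le two_le41).contDiffAt ((isOpen_shr hΩ ε).mem_nhds hy'))
  have h3 := DA_eq_sA h2 A
  refine ⟨h3, ?_⟩
  rw [h3, BH.hess_Phi hΩ hb hε hy']
  exact hB _ _ (MH_abs41 hC hε.le hy)

private theorem M1_tendsto41 {Ω : Set (V n)} (hΩ : IsOpen Ω) {u : V n → ℝ} {H : V n → Mat n} (hb : BH Ω u H)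
    {A : Lin n} (hA : A.det ≠ 0) {z : V n} {K : Set (V n)} {δ : ℝ} (hδ : 0 < δ) (hKΩ : cthickening δ K ⊆ Ω)
    {C B : ℝ} (hC : ∀ y ∈ cthickening δ K, ∀ j k, ‖H y j k‖ ≤ C)
    (hB : ∀ (H : Mat n) (C : ℝ), (∀ j k, ‖H j k‖ ≤ C) → |sA A H| ≤ C * B) {r : ℝ} (hr : 0 < r)
    (hz : ellIn A r z K) :
    Tendsto (fun ε => M1 ((r : ℂ) • A) (DA A (fun y => Phi u y ε)) z) (𝓝[>] 0)
      (𝓝 (M1 ((r : ℂ) • A) (fun y => sA A (H y)) z)) := by
  have hdet := det_smul41 hA hr.ne'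
  have hev : ∀ᶠ ε in 𝓝[>] (0 : ℝ), ε ∈ Ioo 0 δ := Ioo_mem_nhdsGT hδ
  unfold M1
  refine tendsto_integral_filter_of_dominated_convergence (fun η => rho1 η * (C * B)) ?_ ?_
    (rho1_integrable.mul_const _) ?_
  · filter_upwards [hev] with ε hε
    have hsm : ContDiffOn ℝ 2 (fun y => Phi u y ε) (shr Ω ε) :=
      (contDiffOn_Phi_left hΩ hb.int hε.1).of_le two_le41
    have hcD : ContinuousOn (DA A (fun y => Phi u y ε)) (shr Ω ε) := by
      unfold DA
      exact continuousOn_finsetSum _ fun l _ => continuousOn_lev (isOpen_shr hΩ ε) hsm _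
    have hloc := hcD.locallyIntegrableOn (isOpen_shr hΩ ε).measurableSet (μ := volume)
    exact (integrable_rho_mul hdet (isOpen_shr hΩ ε) hloc (z := z) fun η hη =>
      shr_mono41 hKΩ (near41 hε.1.le hε.2.le (hz η hη))).2.aestronglyMeasurable
  · filter_upwards [hev] with ε hε
    refine Eventually.of_forall fun η => ?_
    rw [norm_mul, Real.norm_of_nonneg (rho1_nonneg η), Real.norm_eq_abs]
    rcases le_or_gt ‖η‖ 1 with h1 | h1
    · exact mul_le_mul_of_nonneg_left (moll41 hΩ hb hKΩ hC hB hε.1 (near41 hε.1.le hε.2.le (hz η h1))).2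
        (rho1_nonneg η)
    · rw [rho1_eq_zero h1.le, zero_mul, zero_mul]
  · have h1 : ∀ᵐ y : V n, ∀ j k, y ∈ Ω →
        Tendsto (fun ε => hess (fun y => Phi u y ε) y j k) (𝓝[>] 0) (𝓝 (H y j k)) :=
      ae_all_iff.2 fun j => ae_all_iff.2 fun k => BH.ae_tendsto hΩ hb j k
    filter_upwards [aff41 hdet z h1] with η hη
    rcases le_or_gt ‖η‖ 1 with h2 | h2
    · refine Tendsto.const_mul _ ?_
      have h3 : z + ((r : ℂ) • A) η ∈ Ω := hKΩ (self_subset_cthickening K (hz η h2))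
      refine (sA_tendsto41 A fun j k => hη j k h3).congr' ?_
      filter_upwards [hev] with ε hε
      exact (moll41 hΩ hb hKΩ hC hB hε.1 (near41 hε.1.le hε.2.le (hz η h2))).1.symm
    · simp only [rho1_eq_zero h2.le, zero_mul]
      exact tendsto_const_nhds

private theorem M_tendsto41 {Ω : Set (V n)} (hΩ : IsOpen Ω) {u : V n → ℝ} (hint : LocallyIntegrableOn u Ω volume)
    (hu : ContinuousOn u Ω) {A : Lin n} (hA : A.det ≠ 0) {z : V n} {K : Set (V n)} {δ : ℝ} (hδ : 0 < δ)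
    (hKΩ : cthickening δ K ⊆ Ω) (hKc : IsCompact (cthickening δ K)) {r : ℝ} (hr : 0 < r) (hz : ellIn A r z K) :
    Tendsto (fun ε => M ((r : ℂ) • A) (fun y => Phi u y ε) z) (𝓝[>] 0) (𝓝 (M ((r : ℂ) • A) u z)) := by
  have hdet := det_smul41 hA hr.ne'
  have hev : ∀ᶠ ε in 𝓝[>] (0 : ℝ), ε ∈ Ioo 0 δ := Ioo_mem_nhdsGT hδ
  obtain ⟨D, hD⟩ : ∃ D : ℝ, ∀ y ∈ cthickening δ K, |u y| ≤ D := by
    obtain ⟨D, hD⟩ := hKc.exists_bound_of_continuousOn (hu.mono hKΩ)
    exact ⟨D, fun y hy => hD y hy⟩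
  unfold M
  refine tendsto_integral_filter_of_dominated_convergence (fun η => rho η * D) ?_ ?_
    (rho_integrable.mul_const _) ?_
  · filter_upwards [hev] with ε hε
    have hcD : ContinuousOn (fun y => Phi u y ε) (shr Ω ε) := (contDiffOn_Phi_left hΩ hint hε.1).continuousOn
    have hloc := hcD.locallyIntegrableOn (isOpen_shr hΩ ε).measurableSet (μ := volume)
    exact (integrable_rho_mul hdet (isOpen_shr hΩ ε) hloc (z := z) fun η hη =>
      shr_mono41 hKΩ (near41 hε.1.le hε.2.le (hz η hη))).1.aestronglyMeasurable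
  · filter_upwards [hev] with ε hε
    refine Eventually.of_forall fun η => ?_
    rw [norm_mul, Real.norm_of_nonneg (rho_nonneg η), Real.norm_eq_abs]
    rcases le_or_gt ‖η‖ 1 with h1 | h1
    · exact mul_le_mul_of_nonneg_left (phi_abs41 hD hε.1.le (near41 hε.1.le hε.2.le (hz η h1))) (rho_nonneg η)
    · rw [rho_eq_zero h1.le, zero_mul, zero_mul]
  · refine Eventually.of_forall fun η => ?_
    rcases le_or_gt ‖η‖ 1 with h2 | h2
    · exact Tendsto.const_mul _ (phi_tendsto41 hΩ hu (hKΩ (self_subset_cthickening K (hz η h2))))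
    · simp only [rho_eq_zero h2.le, zero_mul]
      exact tendsto_const_nhds

/-- bounds and measurability for the right hand side -/
theorem rhs41 {Ω : Set (V n)} {u : V n → ℝ} {H : V n → Mat n} (hb : BH Ω u H)
    (A : Lin n) {z : V n} {h : ℝ} (hh : 0 ≤ h) {K : Set (V n)} (hKΩ : K ⊆ Ω) (hK : IsCompact K)
    (hz : ellIn A h z K) :
    (∀ r ∈ Icc (0 : ℝ) h, Integrable fun η : V n => rho1 η * sA A (H (z + ((r : ℂ) • A) η))) ∧
      IntervalIntegrable (fun r : ℝ => 2 * r * M1 ((r : ℂ) • A) (fun y => sA A (H y)) z) volume 0 h := by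
  obtain ⟨C, hC⟩ := hb.bdd _ hKΩ hK
  obtain ⟨B, hB0, hB⟩ := sA_abs41 A
  have hm := sA_meas41 A hb.meas
  have hbd : ∀ r ∈ Icc (0 : ℝ) h, ∀ η : V n,
      ‖rho1 η * sA A (H (z + ((r : ℂ) • A) η))‖ ≤ rho1 η * (C * B) := by
    intro r hr η
    rw [norm_mul, Real.norm_of_nonneg (rho1_nonneg η), Real.norm_eq_abs]
    rcases le_or_gt ‖η‖ 1 with h1 | h1
    · exact mul_le_mul_of_nonneg_left (hB _ _ (hC _ (ellIn_mono hz hr.1 hr.2 η h1))) (rho1_nonneg η)
    · rw [rho1_eq_zero h1.le, zero_mul, zero_mul]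
  have hint : ∀ r ∈ Icc (0 : ℝ) h, Integrable fun η : V n => rho1 η * sA A (H (z + ((r : ℂ) • A) η)) := by
    intro r hr
    refine (rho1_integrable.mul_const (C * B)).mono' ?_ (Eventually.of_forall (hbd r hr))
    exact (rho1_contDiff.continuous.measurable.mul (hm.comp (by fun_prop))).aestronglyMeasurable
  refine ⟨hint, ?_⟩
  rw [intervalIntegrable_iff_integrableOn_Ioc_of_le hh]
  have hsm : StronglyMeasurable (fun p : ℝ × V n => rho1 p.2 * sA A (H (z + ((p.1 : ℂ) • A) p.2))) := by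
    have h1 : Continuous fun p : ℝ × V n => z + ((p.1 : ℂ) • A) p.2 := by
      have h2 : (fun p : ℝ × V n => z + ((p.1 : ℂ) • A) p.2) = fun p : ℝ × V n => z + (p.1 : ℂ) • A p.2 := rfl
      rw [h2]
      fun_prop
    exact ((rho1_contDiff.continuous.measurable.comp measurable_snd).mul (hm.comp h1.measurable)).stronglyMeasurable
  have hsm2 : StronglyMeasurable (fun r : ℝ => 2 * r * M1 ((r : ℂ) • A) (fun y => sA A (H y)) z) := by
    have h1 : StronglyMeasurable (fun r : ℝ => M1 ((r : ℂ) • A) (fun y => sA A (H y)) z) :=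
      hsm.integral_prod_right'
    exact ((measurable_const.mul measurable_id).mul h1.measurable).stronglyMeasurable
  refine Measure.integrableOn_of_bounded (M := 2 * h * (aa n * (C * B))) (by simp) hsm2.aestronglyMeasurable ?_
  refine (ae_restrict_iff' measurableSet_Ioc).2 (Eventually.of_forall fun r hr => ?_)
  rw [norm_mul, norm_mul, Real.norm_of_nonneg (zero_le_two), Real.norm_of_nonneg hr.1.le]
  refine mul_le_mul (mul_le_mul_of_nonneg_left hr.2 zero_le_two) ?_ (norm_nonneg _) (by positivity)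
  rw [M1, aa, ← integral_mul_const]
  exact norm_integral_le_of_norm_le (rho1_integrable.mul_const _)
    (Eventually.of_forall (hbd r ⟨hr.1.le, hr.2⟩))

theorem mean_formula {Ω : Set (V n)} (hΩ : IsOpen Ω) {u : V n → ℝ} {H : V n → Mat n} (hb : BH Ω u H)
    (hu : ContinuousOn u Ω) {A : Lin n} (hA : A.det ≠ 0) {z : V n} {h : ℝ} (hh : 0 ≤ h) (hz : ellIn A h z Ω) :
    M ((h : ℂ) • A) u z - u z = ∫ r in (0 : ℝ)..h, 2 * r * M1 ((r : ℂ) • A) (fun y => sA A (H y)) z := by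
  rcases hh.eq_or_lt with h0 | h0
  · rw [← h0, M_zero41, intervalIntegral.integral_same, sub_self]
  obtain ⟨K, δ, hδ, hKc, hzK, hK'c, hK'Ω⟩ := geo41 hΩ hz
  obtain ⟨C, hC⟩ := hb.bdd _ hK'Ω hK'c
  obtain ⟨B, hB0, hB⟩ := sA_abs41 A
  have hzΩ : z ∈ K := by
    have := hzK 0 (by simp)
    simpa using this
  have hev : ∀ᶠ ε in 𝓝[>] (0 : ℝ), ε ∈ Ioo 0 δ := Ioo_mem_nhdsGT hδ
  have hL : Tendsto (fun ε => M ((h : ℂ) • A) (fun y => Phi u y ε) z - Phi u z ε) (𝓝[>] 0)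
      (𝓝 (M ((h : ℂ) • A) u z - u z)) :=
    (M_tendsto41 hΩ hb.int hu hA hδ hK'Ω hK'c h0 hzK).sub
      (phi_tendsto41 hΩ hu (hK'Ω (self_subset_cthickening K hzΩ)))
  have hsm : ∀ ε ∈ Ioo (0 : ℝ) δ, ContDiffOn ℝ 2 (fun y => Phi u y ε) (shr Ω ε) := fun ε hε =>
    (contDiffOn_Phi_left hΩ hb.int hε.1).of_le two_le41
  have hE : ∀ ε ∈ Ioo (0 : ℝ) δ, ellIn A h z (shr Ω ε) := fun ε hε η hη =>
    shr_mono41 hK'Ω (near41 hε.1.le hε.2.le (hzK η hη))
  have hR : Tendsto (fun ε => ∫ r in (0 : ℝ)..h, 2 * r * M1 ((r : ℂ) • A) (DA A (fun y => Phi u y ε)) z) (𝓝[>] 0)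
      (𝓝 (∫ r in (0 : ℝ)..h, 2 * r * M1 ((r : ℂ) • A) (fun y => sA A (H y)) z)) := by
    refine intervalIntegral.tendsto_integral_filter_of_dominated_convergence
      (fun _ => 2 * h * (aa n * (C * B))) ?_ ?_ intervalIntegrable_const ?_
    · filter_upwards [hev] with ε hε
      have h1 := (ftc41 (isOpen_shr hΩ ε) (hsm ε hε) A hh (hE ε hε)).1
      rw [uIoc_of_le hh]
      exact (h1.mono Ioc_subset_Icc_self).aestronglyMeasurable measurableSet_Ioc
    · filter_upwards [hev] with ε hε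
      refine Eventually.of_forall fun r hr => ?_
      rw [uIoc_of_le hh] at hr
      rw [norm_mul, norm_mul, Real.norm_of_nonneg (zero_le_two), Real.norm_of_nonneg hr.1.le]
      refine mul_le_mul (mul_le_mul_of_nonneg_left hr.2 zero_le_two) ?_ (norm_nonneg _) (by positivity)
      rw [M1, aa, ← integral_mul_const]
      refine norm_integral_le_of_norm_le (rho1_integrable.mul_const _) (Eventually.of_forall fun η => ?_)
      rw [norm_mul, Real.norm_of_nonneg (rho1_nonneg η), Real.norm_eq_abs]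
      rcases le_or_gt ‖η‖ 1 with h1 | h1
      · exact mul_le_mul_of_nonneg_left (moll41 hΩ hb hK'Ω hC hB hε.1
          (near41 hε.1.le hε.2.le (ellIn_mono hzK hr.1.le hr.2 η h1))).2 (rho1_nonneg η)
      · rw [rho1_eq_zero h1.le, zero_mul, zero_mul]
    · refine Eventually.of_forall fun r hr => ?_
      rw [uIoc_of_le hh] at hr
      exact (M1_tendsto41 hΩ hb hA hδ hK'Ω hC hB hr.1 (ellIn_mono hzK hr.1.le hr.2)).const_mul _
  refine tendsto_nhds_unique hL (hR.congr' ?_)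
  filter_upwards [hev] with ε hε
  exact ((ftc41 (isOpen_shr hΩ ε) (hsm ε hε) A hh (hE ε hε)).2).symm

theorem int41 (h c : ℝ) : ∫ r in (0 : ℝ)..h, 2 * r * c = c * h ^ 2 := by
  rw [intervalIntegral.integral_mul_const, intervalIntegral.integral_const_mul, integral_id]
  ring

theorem vA_le {Ω : Set (V n)} (hΩ : IsOpen Ω) {u : V n → ℝ} {H : V n → Mat n} (hb : BH Ω u H)
    (hu : ContinuousOn u Ω) {A : Lin n} (hA : A.det ≠ 0) {z : V n} {h : ℝ} (hh : 0 < h) (hz : ellIn A h z Ω)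
    {U : Set (V n)} (hU : ellIn A h z U) {m : ℝ} (hm : ∀ᵐ y, y ∈ U → sA A (H y) ≤ m) : vA A h u z ≤ m := by
  obtain ⟨K, δ, hδ, hKc, hzK, hK'c, hK'Ω⟩ := geo41 hΩ hz
  obtain ⟨h1, h2⟩ := rhs41 hb A hh.le ((self_subset_cthickening K).trans hK'Ω) hKc hzK
  have haa := aa_pos (n := n)
  rw [vA, mean_formula hΩ hb hu hA hh.le hz, div_le_iff₀ (by positivity)]
  have h3 : ∫ r in (0 : ℝ)..h, 2 * r * (m * aa n) = m * (aa n * h ^ 2) := by
    rw [int41]
    ring
  rw [← h3]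
  refine intervalIntegral.integral_mono_on hh.le h2
    ((by fun_prop : Continuous fun r : ℝ => 2 * r * (m * aa n)).intervalIntegrable _ _) fun r hr => ?_
  rcases hr.1.eq_or_lt with h0 | h0
  · rw [← h0]
    simp
  refine mul_le_mul_of_nonneg_left ?_ (by positivity)
  rw [M1, aa, ← integral_const_mul]
  refine integral_mono_ae (h1 r hr) (rho1_integrable.const_mul m) ?_
  filter_upwards [aff41 (det_smul41 hA h0.ne') z hm] with η hη
  rcases le_or_gt ‖η‖ 1 with h4 | h4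
  · show rho1 η * sA A (H (z + ((r : ℂ) • A) η)) ≤ m * rho1 η
    rw [mul_comm m]
    exact mul_le_mul_of_nonneg_left (hη (ellIn_mono hU hr.1 hr.2 η h4)) (rho1_nonneg η)
  · simp only [rho1_eq_zero h4.le, zero_mul, mul_zero, le_refl]

theorem le_vA {Ω : Set (V n)} (hΩ : IsOpen Ω) {u : V n → ℝ} {H : V n → Mat n} (hb : BH Ω u H)
    (hu : ContinuousOn u Ω) {A : Lin n} (hA : A.det ≠ 0) {z : V n} {h : ℝ} (hh : 0 < h) (hz : ellIn A h z Ω)
    {U : Set (V n)} (hU : ellIn A h z U) {m : ℝ} (hm : ∀ᵐ y, y ∈ U → m ≤ sA A (H y)) : m ≤ vA A h u z := by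
  obtain ⟨K, δ, hδ, hKc, hzK, hK'c, hK'Ω⟩ := geo41 hΩ hz
  obtain ⟨h1, h2⟩ := rhs41 hb A hh.le ((self_subset_cthickening K).trans hK'Ω) hKc hzK
  have haa := aa_pos (n := n)
  rw [vA, mean_formula hΩ hb hu hA hh.le hz, le_div_iff₀ (by positivity)]
  have h3 : ∫ r in (0 : ℝ)..h, 2 * r * (m * aa n) = m * (aa n * h ^ 2) := by
    rw [int41]
    ring
  rw [← h3]
  refine intervalIntegral.integral_mono_on hh.le
    ((by fun_prop : Continuous fun r : ℝ => 2 * r * (m * aa n)).intervalIntegrable _ _) h2 fun r hr => ?_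
  rcases hr.1.eq_or_lt with h0 | h0
  · rw [← h0]
    simp
  refine mul_le_mul_of_nonneg_left ?_ (by positivity)
  rw [M1, aa, ← integral_const_mul]
  refine integral_mono_ae (rho1_integrable.const_mul m) (h1 r hr) ?_
  filter_upwards [aff41 (det_smul41 hA h0.ne') z hm] with η hη
  rcases le_or_gt ‖η‖ 1 with h4 | h4
  · show m * rho1 η ≤ rho1 η * sA A (H (z + ((r : ℂ) • A) η))
    rw [mul_comm m]
    exact mul_le_mul_of_nonneg_left (hη (ellIn_mono hU hr.1 hr.2 η h4)) (rho1_nonneg η)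
  · simp only [rho1_eq_zero h4.le, zero_mul, mul_zero, le_refl]

end Pool.Agent.Helper87.RG
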