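import Pool.Agent.Helper87.RG.R1b
import Pool.Agent.Helper87.RG.R3
import Pool.Agent.Helper29.AM.LA1

/-!
# Project REG, block D10: frames with bounds; the mean value identity for `C²` functions

`frame_bound`. PROOF. `exists_frame` gives `A` with `sA A K = re tr (P K) = pr P K`, `‖A‖² ≤ tr P ≤ Λ`, `|det A|² = det P ≥ c > 0`. The inverse is bounded: `‖A⁻¹‖ ≤ C_n ‖A‖^(n-1)/|det A|` by Cramer's rule (the entries of the adjugate of the matrix of `A` are sums of `(n-1)!` products of `n - 1` entries, each `≤ ‖A‖`). (Or: `∑_l |⟨w, A e_l⟩|² = sA A K_w = pr P K_w ≥ λ_min(P) ‖w‖²` for the rank one matrix `K_w` of `v ↦ |⟨w, v⟩|²`.)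
`mean_C2`. PROOF. `hasDerivAt_M` for `s ∈ [0, h]` (smaller ellipsoids are contained in `Ω`), `DA_eq_sA`, the fundamental theorem of calculus (`intervalIntegral.integral_eq_sub_of_hasDerivAt`; the derivative `s ↦ 2 s M1 (sA) (DA A w) x` is continuous on `[0, h]`, since `hess w` is continuous on a compact neighbourhood), `M (0 A) w x = w x` (`integral_rho`).
-/

set_option autoImplicit false

namespace Pool.Agent.Helper87.RG

open MeasureTheory Set Filter Topology Metric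
open Helper29.AM
open scoped ComplexOrder

variable {n : ℕ}

/-- the rank one matrix of `v ↦ |⟨w, v⟩|²` -/
private def K1 (w : V n) : Mat n := fun j k => (starRingEnd ℂ) (w j) * w k

private theorem inner_sum1 (w v : V n) : inner ℂ w v = ∑ j, (starRingEnd ℂ) (w j) * v j := by
  rw [PiLp.inner_apply]
  refine Finset.sum_congr rfl fun j _ => ?_
  rw [RCLike.inner_apply, mul_comm]

private theorem lf_K1 (w v : V n) : lf (K1 w) v = ‖inner ℂ w v‖ ^ 2 := by
  have h1 : ∑ j, ∑ k, K1 w j k * v j * (starRingEnd ℂ) (v k) =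
      inner ℂ w v * (starRingEnd ℂ) (inner ℂ w v) := by
    rw [inner_sum1, map_sum, Finset.sum_mul_sum]
    refine Finset.sum_congr rfl fun j _ => Finset.sum_congr rfl fun k _ => ?_
    unfold K1
    rw [map_mul, starRingEnd_self_apply]
    ring
  unfold lf
  rw [h1, Complex.mul_conj, Complex.ofReal_re, Complex.normSq_eq_norm_sq]

private theorem pr_K1 (P : Mat n) (w : V n) : pr P (K1 w) = lf P w := by
  unfold pr lf
  congr 1
  rw [Matrix.trace]
  refine Finset.sum_congr rfl fun j _ => ?_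
  rw [Matrix.diag_apply, Matrix.mul_apply]
  refine Finset.sum_congr rfl fun k _ => ?_
  unfold K1
  ring

private theorem norm_adj1 (A : Lin n) (w : V n) : ‖ContinuousLinearMap.adjoint A w‖ ^ 2 = sA A (K1 w) := by
  unfold sA
  rw [EuclideanSpace.norm_sq_eq]
  refine Finset.sum_congr rfl fun l _ => ?_
  rw [lf_K1, ← ContinuousLinearMap.adjoint_inner_left]
  have : inner ℂ (ContinuousLinearMap.adjoint A w) (e l) = (starRingEnd ℂ) ((ContinuousLinearMap.adjoint A w) l) := by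
    unfold e
    rw [EuclideanSpace.inner_single_right, one_mul]
  rw [this, RCLike.norm_conj]

private theorem tr_lf1 (P : Mat n) : (Matrix.trace P).re = ∑ l, lf P (e l) := by
  unfold lf
  rw [Matrix.trace, Complex.re_sum]
  refine Finset.sum_congr rfl fun l _ => ?_
  congr 1
  rw [Finset.sum_eq_single l]
  · rw [Finset.sum_eq_single l]
    · simp [e]
    · intro k _ hk
      simp [e, hk]
    · intro h
      exact absurd (Finset.mem_univ l) h
  · intro j _ hj
    refine Finset.sum_eq_zero fun k _ => ?_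
    simp [e, hj]
  · intro h
    exact absurd (Finset.mem_univ l) h

private theorem norm_e1 (l : Fin n) : ‖(e l : V n)‖ = 1 := by
  unfold e
  simp

/-- lower bound for the form -/
private theorem lower1 (hn : 0 < n) {P : Mat n} (hP : P.PosDef) {c Λ : ℝ} (hc : 0 < c) (htr : (Matrix.trace P).re ≤ Λ)
    (hdet : c ≤ P.det.re) (v : V n) : 1 / (n * (Λ ^ (n - 1) / c)) * ‖v‖ ^ 2 ≤ lf P v := by
  obtain ⟨h1, h2, h3⟩ := inv_bounds hn hP hc htr hdet
  obtain ⟨d1, d2, d3⟩ := det_le hn hP htr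
  have hdi : (P⁻¹).det.re = (P.det.re)⁻¹ := by
    rw [Matrix.det_nonsing_inv, Ring.inverse_eq_inv', d3]
    rw [← Complex.ofReal_inv, Complex.ofReal_re, Complex.ofReal_re]
  have hu : IsUnit P.det := (Matrix.isUnit_iff_isUnit_det _).1 hP.isUnit
  have htr' : (Matrix.trace P⁻¹).re ≤ n * (Λ ^ (n - 1) / c) := by
    rw [tr_lf1]
    calc ∑ l, lf P⁻¹ (e l) ≤ ∑ _l : Fin n, Λ ^ (n - 1) / c := by
          refine Finset.sum_le_sum fun l _ => ?_
          have := h3 (e l)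
          rwa [norm_e1, one_pow, mul_one] at this
      _ = n * (Λ ^ (n - 1) / c) := by
          rw [Finset.sum_const, Finset.card_univ, Fintype.card_fin, nsmul_eq_mul]
  have hpos : 0 < (P⁻¹).det.re := by
    rw [hdi]
    exact inv_pos.2 d1
  obtain ⟨-, h5, -⟩ := inv_bounds hn h1 hpos htr' le_rfl
  have := h5 v
  rwa [Matrix.nonsing_inv_nonsing_inv _ hu] at this

private theorem below1 {A : Lin n} {m : ℝ} (hm : 0 < m) (hA : ∀ w : V n, m * ‖w‖ ^ 2 ≤ ‖ContinuousLinearMap.adjoint A w‖ ^ 2) (v : V n) :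
    m * ‖v‖ ^ 2 ≤ ‖A v‖ ^ 2 := by
  have hinj : Function.Injective ((ContinuousLinearMap.adjoint A : Lin n) : V n →ₗ[ℂ] V n) := by
    rw [← LinearMap.ker_eq_bot, LinearMap.ker_eq_bot']
    intro w hw
    have h1 := hA w
    have h2 : (ContinuousLinearMap.adjoint A) w = 0 := hw
    rw [h2, norm_zero] at h1
    have h3 : ‖w‖ ^ 2 ≤ 0 := by
      have h4 : m * ‖w‖ ^ 2 ≤ m * 0 := by simpa using h1
      exact le_of_mul_le_mul_left h4 hm
    have h4 : ‖w‖ = 0 := by nlinarith [norm_nonneg w]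
    exact norm_eq_zero.1 h4
  obtain ⟨w, hw⟩ := (LinearMap.injective_iff_surjective.1 hinj) v
  have hw' : ContinuousLinearMap.adjoint A w = v := hw
  have h1 : ‖v‖ ^ 2 ≤ ‖w‖ * ‖A v‖ := by
    have h2 : (inner ℂ v v : ℂ) = inner ℂ w (A v) := by
      conv_lhs => rw [← hw']
      rw [ContinuousLinearMap.adjoint_inner_left, hw']
    have h3 : ‖(inner ℂ v v : ℂ)‖ = ‖v‖ ^ 2 := by
      rw [inner_self_eq_norm_sq_to_K]
      simp
    rw [← h3, h2]
    exact norm_inner_le_norm _ _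
  have h2 := hA w
  rw [hw'] at h2
  rcases (norm_nonneg v).eq_or_lt with h | h
  · rw [← h]
    simp only [ne_eq, OfNat.ofNat_ne_zero, not_false_eq_true, zero_pow, mul_zero]
    positivity
  · have h3 : (‖v‖ ^ 2) ^ 2 ≤ (‖w‖ * ‖A v‖) ^ 2 := pow_le_pow_left₀ (by positivity) h1 2
    have h4 : m * (‖v‖ ^ 2) ^ 2 ≤ ‖v‖ ^ 2 * ‖A v‖ ^ 2 := by
      calc m * (‖v‖ ^ 2) ^ 2 ≤ m * (‖w‖ * ‖A v‖) ^ 2 := mul_le_mul_of_nonneg_left h3 hm.le
        _ = (m * ‖w‖ ^ 2) * ‖A v‖ ^ 2 := by ring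
        _ ≤ ‖v‖ ^ 2 * ‖A v‖ ^ 2 := mul_le_mul_of_nonneg_right h2 (by positivity)
    have h5 : ‖v‖ ^ 2 * (m * ‖v‖ ^ 2) ≤ ‖v‖ ^ 2 * ‖A v‖ ^ 2 := by
      calc ‖v‖ ^ 2 * (m * ‖v‖ ^ 2) = m * (‖v‖ ^ 2) ^ 2 := by ring
        _ ≤ _ := h4
    exact le_of_mul_le_mul_left h5 (by positivity)

theorem frame_bound (n : ℕ) {Λ c : ℝ} (hc : 0 < c) : ∃ N : ℝ, 1 ≤ N ∧ ∀ P : Mat n, P.PosDef → (Matrix.trace P).re ≤ Λ → c ≤ P.det.re →
    ∃ A : Lin n, A.det ≠ 0 ∧ ‖A‖ ≤ N ∧ (∀ v, ‖v‖ ≤ N * ‖A v‖) ∧ ∀ K : Mat n, sA A K = pr P K := by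
  set q : ℝ := n * (Λ ^ (n - 1) / c) with hq
  refine ⟨max 1 (max Λ q), le_max_left _ _, fun P hP htr hdet => ?_⟩
  obtain ⟨A, h1, h2, h3⟩ := exists_frame hP.posSemidef
  have hdet0 : A.det ≠ 0 := by
    intro h
    rw [h, norm_zero] at h3
    have : (0 : ℝ) ^ 2 = 0 := by norm_num
    rw [this] at h3
    linarith
  have hN1 : (1 : ℝ) ≤ max 1 (max Λ q) := le_max_left _ _
  refine ⟨A, hdet0, ?_, ?_, h1⟩
  · rcases le_or_gt ‖A‖ 1 with h | h
    · exact h.trans (le_max_left _ _)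
    · have h4 : ‖A‖ ≤ ‖A‖ ^ 2 := by nlinarith
      exact (h4.trans (h2.trans htr)).trans ((le_max_left _ _).trans (le_max_right _ _))
  · intro v
    rcases Nat.eq_zero_or_pos n with hn | hn
    · subst hn
      have : v = 0 := Subsingleton.elim _ _
      rw [this, norm_zero]
      positivity
    · have hΛ : 0 < Λ := by
        have hne : Nonempty (Fin n) := ⟨⟨0, hn⟩⟩
        have h4 : 0 < (Matrix.trace P).re := by
          have := hP.trace_pos (n := Fin n)
          exact (Complex.lt_def.1 this).1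
        linarith
      have hqpos : 0 < q := by
        rw [hq]
        have : (0 : ℝ) < n := by exact_mod_cast hn
        positivity
      have h5 := below1 (A := A) (m := 1 / q) (by positivity) (fun w => by
        rw [norm_adj1, h1]
        have h6 := lower1 hn hP hc htr hdet w
        rw [← hq, ← pr_K1] at h6
        exact h6) v
      rw [one_div, inv_mul_le_iff₀ hqpos] at h5
      have h6 : ‖v‖ ^ 2 ≤ (max 1 (max Λ q) * ‖A v‖) ^ 2 := by
        have h7 : q ≤ max 1 (max Λ q) ^ 2 := by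
          have h8 : q ≤ max 1 (max Λ q) := (le_max_right _ _).trans (le_max_right _ _)
          nlinarith
        calc ‖v‖ ^ 2 ≤ q * ‖A v‖ ^ 2 := h5
          _ ≤ max 1 (max Λ q) ^ 2 * ‖A v‖ ^ 2 := mul_le_mul_of_nonneg_right h7 (by positivity)
          _ = _ := by ring
      exact (sq_le_sq₀ (norm_nonneg _) (by positivity)).1 h6

theorem mean_C2 {Ω : Set (V n)} (hΩ : IsOpen Ω) {w : V n → ℝ} (hw : ContDiffOn ℝ 2 w Ω) (A : Lin n) {x : V n} {h : ℝ} (hh : 0 ≤ h)
    (hx : ellIn A h x Ω) :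
    M ((h : ℂ) • A) w x - w x = ∫ r in (0 : ℝ)..h, 2 * r * M1 ((r : ℂ) • A) (fun y => sA A (hess w y)) x := by
  have hd : ∀ r ∈ Icc (0 : ℝ) h, HasDerivAt (fun s : ℝ => M ((s : ℂ) • A) w x)
      (2 * r * M1 ((r : ℂ) • A) (DA A w) x) r := fun r hr =>
    hasDerivAt_M A hΩ hw (ellIn_mono hx hr.1 hr.2)
  have hO : IsOpen {r : ℝ | ∀ η : V n, ‖η‖ ≤ 1 → x + ((r : ℂ) • A) η ∈ Ω} := by
    have h1 := isOpen_ell A hΩ
    exact h1.preimage (f := fun r : ℝ => (x, r)) (by fun_prop)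
  have hC : ContDiffOn ℝ 1 (fun s : ℝ => M ((s : ℂ) • A) w x)
      {r : ℝ | ∀ η : V n, ‖η‖ ≤ 1 → x + ((r : ℂ) • A) η ∈ Ω} := by
    have h2 : ContDiffOn ℝ ((2 : ℕ∞) : WithTop ℕ∞) w Ω := hw
    have h1 := contDiffOn_M_joint A hΩ h2
    have h3 : ContDiffOn ℝ 1 (fun p : V n × ℝ => M ((p.2 : ℂ) • A) w p.1)
      {p | ∀ η : V n, ‖η‖ ≤ 1 → p.1 + ((p.2 : ℂ) • A) η ∈ Ω} := h1.of_le (by norm_num)
    exact h3.comp (f := fun r : ℝ => (x, r)) (contDiffOn_const.prodMk contDiffOn_id) fun r hr => hr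
  have hcd := hC.continuousOn_deriv_of_isOpen hO le_rfl
  have hcont : ContinuousOn (fun r : ℝ => 2 * r * M1 ((r : ℂ) • A) (DA A w) x) (Icc 0 h) := by
    refine (hcd.mono fun r hr => ?_).congr fun r hr => ?_
    · exact ellIn_mono hx hr.1 hr.2
    · exact ((hd r hr).deriv).symm
  have hM0 : M (((0 : ℝ) : ℂ) • A) w x = w x := by
    rw [M]
    have h1 : ∀ η : V n, rho η * w (x + (((0 : ℝ) : ℂ) • A) η) = rho η * w x := by
      intro η
      simp
    simp only [h1]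
    rw [integral_mul_const, integral_rho, one_mul]
  have hE : ∫ r in (0 : ℝ)..h, 2 * r * M1 ((r : ℂ) • A) (fun y => sA A (hess w y)) x =
      ∫ r in (0 : ℝ)..h, 2 * r * M1 ((r : ℂ) • A) (DA A w) x := by
    apply intervalIntegral.integral_congr
    intro r hr
    rw [uIcc_of_le hh] at hr
    show 2 * r * M1 ((r : ℂ) • A) (fun y => sA A (hess w y)) x = 2 * r * M1 ((r : ℂ) • A) (DA A w) x
    congr 1
    refine M1_congr fun η hη => ?_
    have h2 : x + ((r : ℂ) • A) η ∈ Ω := ellIn_mono hx hr.1 hr.2 η hη.le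
    exact (DA_eq_sA (hw.contDiffAt (hΩ.mem_nhds h2)) A).symm
  rw [hE, intervalIntegral.integral_eq_sub_of_hasDerivAt (f := fun s : ℝ => M ((s : ℂ) • A) w x)
    (fun r hr => hd r (by rwa [uIcc_of_le hh] at hr)) ((hcont.mono (by rw [uIcc_of_le hh])).intervalIntegrable)]
  rw [hM0]

end Pool.Agent.Helper87.RG
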