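import Pool.Agent.Helper87.RG.D1a

/-!
# Project REG, block D1b: `CR` and `ContDiffOn`, Taylor's formula of order one

`CR.contDiffOn`: induction: `k = 0`: locally Hölder functions are continuous (`α > 0`); `k + 1`: `contDiffOn_succ_iff_fderiv_of_isOpen` and `contDiffOn_clm_apply` (a map into `E →L[ℝ] ℝ`, `E` finite dimensional, is `C^k` iff all its evaluations are).
`CR.of_contDiffOn`: `ContDiffOn ℝ (k+1) f U → CR α U k f` (`α ≤ 1`): `k = 0`: `C¹` functions are locally Lipschitz.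
`CR.contDiffOn_infty`: `contDiffOn_infty`. `CR.taylor`: `f` of class `CR α U 1`: locally `|f x - f x1 - f'(x1)(x - x1)| ≤ C |x - x1|^(1+α)`. PROOF. By a basis of `E`, `‖fderiv f y - fderiv f z‖ ≤ C ‖y - z‖^α` on a ball around `x0`; the mean value inequality for `y ↦ f y - f'(x1) y` on the ball of radius `‖x - x1‖` around `x1`... (or on the segment).
`CR.fderiv_bound`: `CR α U 0` functions are locally bounded, and `CR α U 1` functions have locally bounded derivative.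
-/

set_option autoImplicit false

open Set Metric

namespace Pool.Agent.Helper87.RG

variable {E : Type} [NormedAddCommGroup E] [NormedSpace ℝ E] [FiniteDimensional ℝ E] {α : ℝ} {U : Set E} {f : E → ℝ} {k : ℕ}

omit [FiniteDimensional ℝ E] in
private theorem continuousAt92 (hα : 0 < α) (hf : LHol α U f) {x : E} (hx : x ∈ U) : ContinuousAt f x := by
  obtain ⟨r, C, hr, -, h⟩ := hf x hx
  rw [ContinuousAt, tendsto_iff_dist_tendsto_zero]
  have h1 : Filter.Tendsto (fun y : E => C * ‖y - x‖ ^ α) (nhds x) (nhds 0) := by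
    have h2 : Filter.Tendsto (fun y : E => ‖y - x‖) (nhds x) (nhds 0) := by
      have h3 : Filter.Tendsto (fun y : E => ‖y - x‖) (nhds x) (nhds ‖x - x‖) :=
        ((continuous_id.sub continuous_const).norm).tendsto x
      simpa using h3
    have h4 := (h2.rpow_const (p := α) (Or.inr hα.le)).const_mul C
    rwa [Real.zero_rpow hα.ne', mul_zero] at h4
  refine squeeze_zero' (Filter.Eventually.of_forall fun y => dist_nonneg) ?_ h1
  filter_upwards [ball_mem_nhds x hr] with y hy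
  rw [Real.dist_eq]
  exact h y hy x (mem_ball_self hr)

theorem CR.contDiffOn (hα : 0 < α) (hU : IsOpen U) (hf : CR α U k f) : ContDiffOn ℝ k f U := by
  induction k generalizing f with
  | zero =>
    rw [Nat.cast_zero, contDiffOn_zero]
    exact fun x hx => (continuousAt92 hα hf hx).continuousWithinAt
  | succ k ih =>
    obtain ⟨h1, h2⟩ := hf
    rw [Nat.cast_succ, contDiffOn_succ_iff_fderiv_of_isOpen hU]
    refine ⟨h1, fun h => ?_, contDiffOn_clm_apply.2 fun v => ih (h2 v)⟩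
    exact absurd h (by simp)

private theorem rpow_le92 (hα1 : α ≤ 1) {t : ℝ} (ht0 : 0 ≤ t) (ht1 : t ≤ 1) : t ≤ t ^ α := by
  rcases ht0.eq_or_lt with h | h
  · rw [← h]
    exact Real.rpow_nonneg le_rfl α
  · calc t = t ^ (1 : ℝ) := (Real.rpow_one t).symm
      _ ≤ t ^ α := Real.rpow_le_rpow_of_exponent_ge h ht1 hα1

omit [FiniteDimensional ℝ E] in
private theorem lhol_of_c1_92 (hα1 : α ≤ 1) (hU : IsOpen U) (hf : ContDiffOn ℝ 1 f U) : LHol α U f := by
  intro x hx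
  obtain ⟨K, t, ht, hK⟩ := (hf.contDiffAt (hU.mem_nhds hx)).exists_lipschitzOnWith
  obtain ⟨r, hr, hrt⟩ := Metric.mem_nhds_iff.1 (Filter.inter_mem ht (hU.mem_nhds hx))
  have hsub : ball x (min r (1 / 2)) ⊆ ball x r := ball_subset_ball (min_le_left _ _)
  refine ⟨min r (1 / 2), K, lt_min hr (by norm_num), fun y hy => (hrt (hsub hy)).2, fun y hy z hz => ?_⟩
  have h1 := hK.dist_le_mul y (hrt (hsub hy)).1 z (hrt (hsub hz)).1
  rw [Real.dist_eq, dist_eq_norm] at h1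
  have h2 : ‖y - z‖ ≤ 1 := by
    have hy' := mem_ball.1 hy
    have hz' := mem_ball.1 hz
    have h3 := min_le_right r (1 / 2)
    have h4 := dist_triangle_right y z x
    rw [dist_eq_norm] at h4
    linarith
  exact h1.trans (mul_le_mul_of_nonneg_left (rpow_le92 hα1 (norm_nonneg _) h2) K.coe_nonneg)

theorem CR.of_contDiffOn (hα : 0 < α) (hα1 : α ≤ 1) (hU : IsOpen U) (hf : ContDiffOn ℝ (k + 1) f U) : CR α U k f := by
  induction k generalizing f with
  | zero =>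
    rw [Nat.cast_zero, zero_add] at hf
    exact lhol_of_c1_92 hα1 hU hf
  | succ k ih =>
    rw [contDiffOn_succ_iff_fderiv_of_isOpen hU] at hf
    obtain ⟨h1, -, h2⟩ := hf
    refine ⟨h1, fun v => ih ?_⟩
    rw [Nat.cast_succ] at h2
    exact contDiffOn_clm_apply.1 h2 v

theorem CR.contDiffOn_infty (hα : 0 < α) (hU : IsOpen U) (hf : ∀ k, CR α U k f) : ContDiffOn ℝ (⊤ : ℕ∞) f U :=
  _root_.contDiffOn_infty.2 fun n => (hf n).contDiffOn hα hU

theorem CR.of_contDiffOn_infty (hα : 0 < α) (hα1 : α ≤ 1) (hU : IsOpen U) (hf : ContDiffOn ℝ (⊤ : ℕ∞) f U) : CR α U k f := by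
  refine CR.of_contDiffOn hα hα1 hU ?_
  have h := _root_.contDiffOn_infty.1 hf (k + 1)
  rwa [Nat.cast_succ] at h

theorem CR.taylor (hα : 0 < α) (hα1 : α ≤ 1) (hU : IsOpen U) (hf : CR α U 1 f) {x0 : E} (hx : x0 ∈ U) :
    ∃ r C : ℝ, 0 < r ∧ 0 ≤ C ∧ ball x0 r ⊆ U ∧ (∀ x ∈ ball x0 r, ‖fderiv ℝ f x‖ ≤ C) ∧
      ∀ x ∈ ball x0 r, ∀ y ∈ ball x0 r, |f y - f x - fderiv ℝ f x (y - x)| ≤ C * ‖y - x‖ ^ (1 + α) := by
  obtain ⟨hd, hv⟩ := hf
  have hv' : ∀ i, LHol α U (fun x => fderiv ℝ f x (Module.finBasis ℝ E i)) := fun i => hv _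
  choose rr CC hrr hsub hho using fun i => hv' i x0 hx
  obtain ⟨C1, hC1, hop⟩ := (Module.finBasis ℝ E).exists_opNorm_le (F := ℝ)
  obtain ⟨R0, hR0, hR0U⟩ := Metric.isOpen_iff.1 hU x0 hx
  have hev : ∀ᶠ r in nhdsWithin (0 : ℝ) (Ioi 0), (∀ i, r ≤ rr i) ∧ r ≤ R0 ∧ r ≤ 1 / 2 ∧ 0 < r := by
    have h1 : ∀ a : ℝ, 0 < a → ∀ᶠ r in nhdsWithin (0 : ℝ) (Ioi 0), r ≤ a := fun a ha =>
      nhdsWithin_le_nhds (Iic_mem_nhds ha)
    exact (Filter.eventually_all.2 fun i => h1 _ (hrr i)).and ((h1 _ hR0).and ((h1 _ (by norm_num)).and self_mem_nhdsWithin))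
  obtain ⟨r, hri, hrR, hr2, hr⟩ := hev.exists
  obtain ⟨M, hM⟩ : ∃ M : ℝ, M = ∑ i, |CC i| := ⟨_, rfl⟩
  have hM0 : 0 ≤ M := by rw [hM]; exact Finset.sum_nonneg fun i _ => abs_nonneg _
  have hCM : ∀ i, CC i ≤ M := fun i => by
    rw [hM]
    exact (le_abs_self _).trans (Finset.single_le_sum (f := fun i => |CC i|) (fun i _ => abs_nonneg _) (Finset.mem_univ i))
  have hhol : ∀ x ∈ ball x0 r, ∀ y ∈ ball x0 r, ‖fderiv ℝ f y - fderiv ℝ f x‖ ≤ C1 * M * ‖y - x‖ ^ α := by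
    intro x hxb y hyb
    have hp : 0 ≤ ‖y - x‖ ^ α := Real.rpow_nonneg (norm_nonneg _) _
    have h1 : ∀ i, ‖(fderiv ℝ f y - fderiv ℝ f x) (Module.finBasis ℝ E i)‖ ≤ M * ‖y - x‖ ^ α := by
      intro i
      have h2 := hho i y (ball_subset_ball (hri i) hyb) x (ball_subset_ball (hri i) hxb)
      rw [ContinuousLinearMap.sub_apply, Real.norm_eq_abs]
      exact h2.trans (mul_le_mul_of_nonneg_right (hCM i) hp)
    have h3 := hop (u := fderiv ℝ f y - fderiv ℝ f x) (mul_nonneg hM0 hp) h1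
    rwa [← mul_assoc] at h3
  have hU' : ball x0 r ⊆ U := (ball_subset_ball hrR).trans hR0U
  have hB0 : 0 ≤ C1 * M := mul_nonneg hC1.le hM0
  refine ⟨r, C1 * M + ‖fderiv ℝ f x0‖, hr, add_nonneg hB0 (norm_nonneg _), hU', fun x hxb => ?_, fun x hxb y hyb => ?_⟩
  · have h1 := hhol x0 (mem_ball_self hr) x hxb
    have h2 : ‖x - x0‖ ^ α ≤ 1 := by
      apply Real.rpow_le_one (norm_nonneg _) _ hα.le
      have h3 := mem_ball.1 hxb
      rw [dist_eq_norm] at h3
      linarith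
    have h3 : ‖fderiv ℝ f x‖ ≤ ‖fderiv ℝ f x - fderiv ℝ f x0‖ + ‖fderiv ℝ f x0‖ := by
      have := norm_add_le (fderiv ℝ f x - fderiv ℝ f x0) (fderiv ℝ f x0)
      rwa [sub_add_cancel] at this
    have h4 : C1 * M * ‖x - x0‖ ^ α ≤ C1 * M := mul_le_of_le_one_right hB0 h2
    linarith
  · rcases eq_or_ne y x with hyx | hyx
    · rw [hyx]
      simp only [sub_self, map_zero, abs_zero, norm_zero]
      exact mul_nonneg (add_nonneg hB0 (norm_nonneg _)) (Real.rpow_nonneg le_rfl _)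
    have hpos : 0 < ‖y - x‖ := norm_pos_iff.2 (sub_ne_zero.2 hyx)
    have hseg : segment ℝ x y ⊆ ball x0 r := (convex_ball x0 r).segment_subset hxb hyb
    have h1 : ∀ z ∈ segment ℝ x y, HasFDerivWithinAt f (fderiv ℝ f z) (segment ℝ x y) z := fun z hz =>
      ((hd.differentiableAt (hU.mem_nhds (hU' (hseg hz)))).hasFDerivAt).hasFDerivWithinAt
    have h2 : ∀ z ∈ segment ℝ x y, ‖fderiv ℝ f z - fderiv ℝ f x‖ ≤ C1 * M * ‖y - x‖ ^ α := fun z hz =>
      (hhol x hxb z (hseg hz)).trans (mul_le_mul_of_nonneg_left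
        (Real.rpow_le_rpow (norm_nonneg _) (norm_sub_le_of_mem_segment hz) hα.le) hB0)
    have h3 := Convex.norm_image_sub_le_of_norm_hasFDerivWithin_le' h1 h2 (convex_segment x y)
      (left_mem_segment ℝ x y) (right_mem_segment ℝ x y)
    rw [Real.norm_eq_abs] at h3
    have h4 : ‖y - x‖ ^ (1 + α) = ‖y - x‖ ^ α * ‖y - x‖ := by
      rw [Real.rpow_add hpos, Real.rpow_one, mul_comm]
    rw [h4, ← mul_assoc]
    refine h3.trans (mul_le_mul_of_nonneg_right (mul_le_mul_of_nonneg_right ?_ (Real.rpow_nonneg (norm_nonneg _) _)) (norm_nonneg _))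
    linarith [norm_nonneg (fderiv ℝ f x0)]

theorem CR.hoelder (hα : 0 < α) (hU : IsOpen U) (hf : CR α U 0 f) {x0 : E} (hx : x0 ∈ U) :
    ∃ r C : ℝ, 0 < r ∧ 0 ≤ C ∧ ball x0 r ⊆ U ∧ (∀ x ∈ ball x0 r, |f x| ≤ C) ∧
      ∀ x ∈ ball x0 r, ∀ y ∈ ball x0 r, |f y - f x| ≤ C * ‖y - x‖ ^ α := by
  obtain ⟨r, C, hr, hrU, h⟩ := hf x0 hx
  have hsub : ball x0 (min r 1) ⊆ ball x0 r := ball_subset_ball (min_le_left _ _)
  refine ⟨min r 1, |C| + |f x0|, lt_min hr one_pos, by positivity, hsub.trans hrU, fun x hxb => ?_, fun x hxb y hyb => ?_⟩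
  · have h1 := h x (hsub hxb) x0 (mem_ball_self hr)
    have h2 : ‖x - x0‖ ^ α ≤ 1 := by
      apply Real.rpow_le_one (norm_nonneg _) _ hα.le
      have h3 := mem_ball.1 hxb
      rw [dist_eq_norm] at h3
      exact h3.le.trans (min_le_right _ _)
    have h3 : C * ‖x - x0‖ ^ α ≤ |C| :=
      (mul_le_mul_of_nonneg_right (le_abs_self C) (Real.rpow_nonneg (norm_nonneg _) _)).trans
        (mul_le_of_le_one_right (abs_nonneg C) h2)
    have h4 := abs_sub_abs_le_abs_sub (f x) (f x0)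
    linarith
  · have h1 := h y (hsub hyb) x (hsub hxb)
    refine h1.trans (mul_le_mul_of_nonneg_right ?_ (Real.rpow_nonneg (norm_nonneg _) _))
    linarith [le_abs_self C, abs_nonneg (f x0)]

end Pool.Agent.Helper87.RG
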