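import Mathlib

/-!
# Project REG (MP_5d2bda_an), part CD: the critical density lemma (definitions)

`E` is a finite dimensional real inner product space. `Ell q l L`: `q x` is a symmetric bilinear form on the dual of `E` with `l |ξ|² ≤ q x ξ ξ ≤ L |ξ|²`, measurable in `x` (the matrix `A` of the paper proof: `q x ξ η = A(x) ξ · η`).
`TestF R η`: nonnegative `C¹` test functions with compact support in the open ball of radius `R`. `WeakSub q v K R`: `∫ q(dv, dη) ≤ K ∫ η` for all these `η` (i.e. `-div(A ∇v) ≤ K` in the ball of radius `R`, in the weak sense).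
`Ell.abs_le`: `|q x ξ η| ≤ L |ξ| |η|`. `Ell.young`: `2 |q x ξ η| ≤ s q x ξ ξ + s⁻¹ q x η η`.
-/

set_option autoImplicit false

open MeasureTheory Set Metric

namespace Pool.Agent.Helper87.RG

section

variable {E : Type*} [NormedAddCommGroup E] [InnerProductSpace ℝ E] [FiniteDimensional ℝ E]
  [MeasurableSpace E] [BorelSpace E]

/-- measurable elliptic fields of symmetric bilinear forms on the dual space -/
structure Ell (q : E → (E →L[ℝ] ℝ) → (E →L[ℝ] ℝ) → ℝ) (l L : ℝ) : Prop where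
  meas : ∀ ξ η : E → (E →L[ℝ] ℝ), Measurable ξ → Measurable η → Measurable fun x => q x (ξ x) (η x)
  add : ∀ x ξ ξ' η, q x (ξ + ξ') η = q x ξ η + q x ξ' η
  smul : ∀ x (c : ℝ) ξ η, q x (c • ξ) η = c * q x ξ η
  symm : ∀ x ξ η, q x ξ η = q x η ξ
  lower : ∀ x ξ, l * ‖ξ‖ ^ 2 ≤ q x ξ ξ
  upper : ∀ x ξ, q x ξ ξ ≤ L * ‖ξ‖ ^ 2

/-- nonnegative `C¹` test functions with compact support in the ball of radius `R` -/
structure TestF (R : ℝ) (η : E → ℝ) : Prop where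
  smooth : ContDiff ℝ 1 η
  supp : HasCompactSupport η
  ball : tsupport η ⊆ ball 0 R
  nonneg : ∀ x, 0 ≤ η x

/-- weak inequality `-div (A ∇v) ≤ K` in the ball of radius `R` -/
def WeakSub (q : E → (E →L[ℝ] ℝ) → (E →L[ℝ] ℝ) → ℝ) (v : E → ℝ) (K R : ℝ) : Prop :=
  ∀ η : E → ℝ, TestF R η → ∫ x, q x (fderiv ℝ v x) (fderiv ℝ η x) ≤ K * ∫ x, η x

variable {q : E → (E →L[ℝ] ℝ) → (E →L[ℝ] ℝ) → ℝ} {l L : ℝ}

theorem Ell.add_right (hq : Ell q l L) (x : E) (ξ η η' : E →L[ℝ] ℝ) : q x ξ (η + η') = q x ξ η + q x ξ η' := by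
  rw [hq.symm, hq.add, hq.symm x η, hq.symm x η']

theorem Ell.smul_right (hq : Ell q l L) (x : E) (c : ℝ) (ξ η : E →L[ℝ] ℝ) : q x ξ (c • η) = c * q x ξ η := by
  rw [hq.symm, hq.smul, hq.symm x η]

theorem Ell.nonneg (hl : 0 < l) (hq : Ell q l L) (x : E) (ξ : E →L[ℝ] ℝ) : 0 ≤ q x ξ ξ :=
  (by positivity : (0 : ℝ) ≤ l * ‖ξ‖ ^ 2).trans (hq.lower x ξ)

theorem Ell.neg (hq : Ell q l L) (x : E) (ξ η : E →L[ℝ] ℝ) : q x (-ξ) η = - q x ξ η := by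
  have h1 := hq.smul x (-1) ξ η
  have h2 : (-1 : ℝ) • ξ = -ξ := neg_one_smul ℝ ξ
  rw [h2] at h1
  linarith

theorem Ell.neg_right (hq : Ell q l L) (x : E) (ξ η : E →L[ℝ] ℝ) : q x ξ (-η) = - q x ξ η := by
  rw [hq.symm, hq.neg, hq.symm]

theorem Ell.zero (hq : Ell q l L) (x : E) (η : E →L[ℝ] ℝ) : q x 0 η = 0 := by
  have := hq.smul x 0 0 η
  simpa using this

theorem Ell.zero_right (hq : Ell q l L) (x : E) (ξ : E →L[ℝ] ℝ) : q x ξ 0 = 0 := by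
  rw [hq.symm, hq.zero]

/-- Young's inequality for the form `q x` -/
theorem Ell.young (hl : 0 < l) (hq : Ell q l L) (x : E) (ξ η : E →L[ℝ] ℝ) {s : ℝ} (hs : 0 < s) :
    2 * |q x ξ η| ≤ s * q x ξ ξ + s⁻¹ * q x η η := by
  have key : ∀ ξ η : E →L[ℝ] ℝ, 2 * q x ξ η ≤ s * q x ξ ξ + s⁻¹ * q x η η := by
    intro ξ η
    have h1 := hq.nonneg hl x (s • ξ - η)
    rw [sub_eq_add_neg, hq.add, hq.add_right, hq.add_right, hq.smul, hq.smul, hq.smul_right, hq.neg, hq.neg,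
      hq.neg_right, hq.neg_right, hq.symm x η (s • ξ), hq.smul] at h1
    have h2 : 0 ≤ s⁻¹ * (s * (s * q x ξ ξ) + s * -q x ξ η + (-(s * q x ξ η) + - -q x η η)) :=
      mul_nonneg (by positivity) h1
    have h3 : s⁻¹ * (s * (s * q x ξ ξ) + s * -q x ξ η + (-(s * q x ξ η) + - -q x η η))
        = s * q x ξ ξ - 2 * q x ξ η + s⁻¹ * q x η η := by
      field_simp
      ring
    linarith
  rcases abs_cases (q x ξ η) with ⟨h, -⟩ | ⟨h, -⟩
  · rw [h]; exact key ξ η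
  · rw [h]
    have h1 := key (-ξ) η
    rw [hq.neg, hq.neg, hq.neg_right] at h1
    linarith

theorem Ell.abs_le (hl : 0 < l) (hq : Ell q l L) (x : E) (ξ η : E →L[ℝ] ℝ) : |q x ξ η| ≤ L * ‖ξ‖ * ‖η‖ := by
  rcases eq_or_ne ξ 0 with rfl | hξ
  · simp [hq.zero]
  rcases eq_or_ne η 0 with rfl | hη
  · simp [hq.zero_right]
  have hξ' : 0 < ‖ξ‖ := norm_pos_iff.2 hξ
  have hη' : 0 < ‖η‖ := norm_pos_iff.2 hη
  have h1 := hq.young hl x ξ η (s := ‖η‖ / ‖ξ‖) (by positivity)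
  have h2 := mul_le_mul_of_nonneg_left (hq.upper x ξ) (by positivity : 0 ≤ ‖η‖ / ‖ξ‖)
  have h3 := mul_le_mul_of_nonneg_left (hq.upper x η) (by positivity : 0 ≤ (‖η‖ / ‖ξ‖)⁻¹)
  have h4 : ‖η‖ / ‖ξ‖ * (L * ‖ξ‖ ^ 2) = L * ‖ξ‖ * ‖η‖ := by field_simp
  have h5 : (‖η‖ / ‖ξ‖)⁻¹ * (L * ‖η‖ ^ 2) = L * ‖ξ‖ * ‖η‖ := by field_simp
  linarith

end

end Pool.Agent.Helper87.RG
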