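import Pool.Agent.Helper29.AM.GS5
import Pool.Agent.Helper29.AM.Mean2
import Pool.Agent.Helper29.AM.LA2
import Pool.Agent.Helper29.AM.Lev
import Pool.Agent.Helper87.RG.CD0

/-!
# Project REG (MP_5d2bda_an, section 7): definitions for the Evans - Krylov part

`dz ξ j = ∂_j` of a real functional; `qf C ξ η = Re ∑ C_{kj} ξ_j conj(η_k)`; `pr P K = Re tr (P K)`; `nK K = ∑ |K_jk|`; `vA A h u = (M (hA) u - u)/(a h²)`.
`RegLoc x0 R u κ H c Λ B`: the local situation: `u` of class `C¹` on the ball, with bounded complex Hessian `H` (`BH`), `H` positive definite with `tr H ≤ Λ`, `det H ≥ c` EVERYWHERE, `log det H = κ` a.e., `κ` Lipschitz, `M (hA) κ - κ ≥ - B ‖A‖² h²`.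
`ER H`: the points `z` at which `H z` is an essential value of `H` at `z`.
-/

set_option autoImplicit false

namespace Pool.Agent.Helper87.RG

open MeasureTheory Set Filter Topology Metric
open Helper29.AM
open scoped ComplexOrder

variable {n : ℕ}

/-- complex components `∂_j` of a real functional -/
noncomputable def dz (ξ : V n →L[ℝ] ℝ) (j : Fin n) : ℂ :=
  ((ξ (e j) : ℂ) - Complex.I * (ξ (Complex.I • e j) : ℂ)) / 2

/-- the form `Re ∑ C_{kj} ξ_j conj(η_k)` -/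
noncomputable def qf (C : Mat n) (ξ η : V n →L[ℝ] ℝ) : ℝ :=
  (∑ j, ∑ k, C k j * dz ξ j * (starRingEnd ℂ) (dz η k)).re

/-- the pairing `Re tr (P K)` -/
noncomputable def pr (P K : Mat n) : ℝ := (Matrix.trace (P * K)).re

/-- the size of a matrix -/
noncomputable def nK (K : Mat n) : ℝ := ∑ j, ∑ k, ‖K j k‖

/-- normalised difference of the mean over an ellipsoid and the function -/
noncomputable def vA (A : Lin n) (h : ℝ) (u : V n → ℝ) (z : V n) : ℝ :=
  (M ((h : ℂ) • A) u z - u z) / (aa n * h ^ 2)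

/-- the closed ellipsoid `z + h A (closed unit ball)` is contained in `Ω` -/
def ellIn (A : Lin n) (h : ℝ) (z : V n) (Ω : Set (V n)) : Prop :=
  ∀ η : V n, ‖η‖ ≤ 1 → z + ((h : ℂ) • A) η ∈ Ω

/-- the local situation of the Evans - Krylov theorem -/
structure RegLoc (x0 : V n) (R : ℝ) (u κ : V n → ℝ) (H : V n → Mat n) (c Λ B : ℝ) : Prop where
  hn : 0 < n
  hR : 0 < R
  hc : 0 < c
  hB : 0 ≤ B
  bh : BH (ball x0 R) u H
  c1 : ContDiffOn ℝ 1 u (ball x0 R)
  pd : ∀ z, (H z).PosDef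
  tr : ∀ z, (Matrix.trace (H z)).re ≤ Λ
  det : ∀ z, c ≤ (H z).det.re
  eq : ∀ᵐ z, z ∈ ball x0 R → Real.log (H z).det.re = κ z
  cont : ContinuousOn κ (ball x0 R)
  lip : ∀ y ∈ ball x0 R, ∀ z ∈ ball x0 R, |κ y - κ z| ≤ B * ‖y - z‖
  mean : ∀ (A : Lin n) (z : V n) (h : ℝ), 0 < h → A.det ≠ 0 → ellIn A h z (ball x0 R) →
    -(B * ‖A‖ ^ 2 * h ^ 2) ≤ M ((h : ℂ) • A) κ z - κ z

/-- the points at which the value of `H` is an essential value -/
def ER (H : V n → Mat n) : Set (V n) :=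
  {z | ∀ ε > 0, ∀ r > 0, 0 < volume {y | y ∈ ball z r ∧ nK (H y - H z) < ε}}

end Pool.Agent.Helper87.RG
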