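import Pool.Agent.Helper87.RG.R1a

/-!
# Project REG, block R2: the adjugate of the complex Hessian is divergence free; integration by parts for smooth functions

For `f : V n → ℂ` let `∂_j f = (f'(e_j) - i f'(i e_j))/2`. For smooth `u` with positive definite `h = hess u` (`h_{jk} = ∂_j ∂_{k̄} u`) on an open set: `∂_l h_{jk} = ∂_j h_{lk}` (third derivatives commute).
`piola`: `∑_j ∂_j (adj(h)_{kj}) = 0` for every `k`. PROOF. `adj(h) = det(h) h⁻¹`, `∂_j det(h) = det(h) ∑_{p,q} (h⁻¹)_{qp} ∂_j h_{pq}`, `∂_j (h⁻¹)_{kj} = -∑_{p,q} (h⁻¹)_{kp} (∂_j h_{pq}) (h⁻¹)_{qj}`. So `det(h)⁻¹ ∑_j ∂_j (adj(h)_{kj}) = ∑_{j,p,q} (h⁻¹)_{qp} (∂_j h_{pq}) (h⁻¹)_{kj} - ∑_{j,p,q} (h⁻¹)_{kp} (∂_j h_{pq}) (h⁻¹)_{qj}`;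
exchange the names `j, p` in the first sum and use `∂_p h_{jq} = ∂_j h_{pq}`: the two sums are equal. (Mathlib: derivative of the inverse in a normed algebra or `HasFDerivAt.inv`..; for the determinant Jacobi's formula; alternatively prove it for the polynomial identity by expanding the determinant.)
`ibp_smooth`. PROOF. `F_j := η ∑_k adj(h)_{kj} conj(∂_k v)` is `C¹` with compact support in `Ω` (extended by zero), so `∫ ∂_j F_j = 0` (integral of a directional derivative of a compactly supported `C¹` function, Mathlib: `integral_fderiv_smul_eq_neg..`/`integral_mul_fderiv_eq_neg_fderiv_mul_of_integrable`). Sum over `j`, `piola` and `∂_j conj(∂_k v) = v_{jk}` (`v` real): `0 = ∫ ∑ adj(h)_{kj} (∂_j η) conj(∂_k v) + ∫ η ∑ adj(h)_{kj} v_{jk}`; real parts.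
-/

set_option autoImplicit false

namespace Pool.Agent.Helper87.RG

open MeasureTheory Set Filter Topology Metric
open Helper29.AM
open scoped ComplexOrder

variable {n : ℕ}

/-- complex derivatives `∂_j` of complex valued functions -/
noncomputable def dzc (f : V n → ℂ) (z : V n) (j : Fin n) : ℂ :=
  (fderiv ℝ f z (e j) - Complex.I * fderiv ℝ f z (Complex.I • e j)) / 2

/-! ### derivative of the adjugate -/

private theorem jacobi21 {h : V n → Mat n} {z : V n}
    (hd : ∀ j k, DifferentiableAt ℝ (fun y => h y j k) z) :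
    DifferentiableAt ℝ (fun y => (h y).det) z ∧ ∀ v : V n, fderiv ℝ (fun y => (h y).det) z v =
      ∑ i, ∑ p, (h z).adjugate i p * fderiv ℝ (fun y => h y p i) z v := by
  have hσ : ∀ σ : Equiv.Perm (Fin n), HasFDerivAt (fun y => ∏ i, h y (σ i) i)
      (∑ i, (∏ j ∈ Finset.univ.erase i, h z (σ j) j) • fderiv ℝ (fun y => h y (σ i) i) z) z :=
    fun σ => HasFDerivAt.finsetProd fun i _ => (hd (σ i) i).hasFDerivAt
  have hdet : HasFDerivAt (fun y => (h y).det)
      (∑ σ : Equiv.Perm (Fin n), (((Equiv.Perm.sign σ : ℤ) : ℂ)) •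
        ∑ i, (∏ j ∈ Finset.univ.erase i, h z (σ j) j) • fderiv ℝ (fun y => h y (σ i) i) z) z := by
    simp only [Matrix.det_apply']
    exact HasFDerivAt.fun_sum fun σ _ => (hσ σ).const_mul _
  refine ⟨hdet.differentiableAt, fun v => ?_⟩
  rw [hdet.fderiv]
  have h1 : ∀ i, ∑ p, (h z).adjugate i p * fderiv ℝ (fun y => h y p i) z v =
      ∑ σ : Equiv.Perm (Fin n), (((Equiv.Perm.sign σ : ℤ) : ℂ)) *
        ((∏ j ∈ Finset.univ.erase i, h z (σ j) j) * fderiv ℝ (fun y => h y (σ i) i) z v) := by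
    intro i
    have h2 : ∑ p, (h z).adjugate i p * fderiv ℝ (fun y => h y p i) z v =
        ((h z).updateCol i (fun p => fderiv ℝ (fun y => h y p i) z v)).det := by
      rw [← Matrix.cramer_apply, Matrix.cramer_eq_adjugate_mulVec]
      rfl
    rw [h2, Matrix.det_apply']
    refine Finset.sum_congr rfl fun σ _ => ?_
    congr 1
    rw [← Finset.mul_prod_erase Finset.univ _ (Finset.mem_univ i), mul_comm]
    congr 1
    · refine Finset.prod_congr rfl fun j hj => ?_
      rw [Matrix.updateCol_ne (Finset.ne_of_mem_erase hj)]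
    · rw [Matrix.updateCol_self]
  simp only [h1]
  rw [Finset.sum_comm, _root_.sum_apply]
  refine Finset.sum_congr rfl fun σ _ => ?_
  rw [_root_.smul_apply, _root_.sum_apply, smul_eq_mul, Finset.mul_sum]
  refine Finset.sum_congr rfl fun i _ => ?_
  rw [_root_.smul_apply, smul_eq_mul]

private theorem adjd21 {h : V n → Mat n} {z : V n}
    (hd : ∀ j k, DifferentiableAt ℝ (fun y => h y j k) z) (k j : Fin n) :
    DifferentiableAt ℝ (fun y => (h y).adjugate k j) z := by
  simp only [Matrix.adjugate_apply]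
  refine (jacobi21 fun a b => ?_).1
  by_cases hj : a = j
  · subst hj
    simp only [Matrix.updateRow_self]
    exact differentiableAt_const _
  · simp only [Matrix.updateRow_ne hj]
    exact hd a b

private theorem adj_deriv21 {h : V n → Mat n} {z : V n}
    (hd : ∀ j k, DifferentiableAt ℝ (fun y => h y j k) z) (k j' : Fin n) (v : V n) :
    (h z).det * fderiv ℝ (fun y => (h y).adjugate k j') z v =
      ∑ p, ∑ m, ((h z).adjugate m p * (h z).adjugate k j' - (h z).adjugate k p * (h z).adjugate m j') *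
        fderiv ℝ (fun y => h y p m) z v := by
  have key : ∀ m, ∑ j, (fderiv ℝ (fun y => (h y).adjugate k j) z v * h z j m +
      (h z).adjugate k j * fderiv ℝ (fun y => h y j m) z v) =
      fderiv ℝ (fun y => (h y).det) z v * (1 : Mat n) k m := by
    intro m
    have e1 : (fun y => ∑ j, (h y).adjugate k j * h y j m) = fun y => (h y).det * (1 : Mat n) k m := by
      funext y
      have := congrFun (congrFun (Matrix.adjugate_mul (h y)) k) m
      rw [Matrix.mul_apply, Matrix.smul_apply, smul_eq_mul] at this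
      exact this
    have e2 : HasFDerivAt (fun y => ∑ j, (h y).adjugate k j * h y j m)
        (∑ j, ((h z).adjugate k j • fderiv ℝ (fun y => h y j m) z +
          h z j m • fderiv ℝ (fun y => (h y).adjugate k j) z)) z :=
      HasFDerivAt.fun_sum fun j _ => (adjd21 hd k j).hasFDerivAt.mul (hd j m).hasFDerivAt
    have e3 : HasFDerivAt (fun y => (h y).det * (1 : Mat n) k m)
        ((1 : Mat n) k m • fderiv ℝ (fun y => (h y).det) z) z :=
      (jacobi21 hd).1.hasFDerivAt.mul_const _
    rw [e1] at e2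
    have e4 := congrArg (fun L : V n →L[ℝ] ℂ => L v) (e2.unique e3)
    simp only [_root_.sum_apply, _root_.add_apply,
      _root_.smul_apply, smul_eq_mul] at e4
    rw [mul_comm _ ((1 : Mat n) k m), ← e4]
    refine Finset.sum_congr rfl fun j _ => ?_
    ring
  have h1 : (h z).det * fderiv ℝ (fun y => (h y).adjugate k j') z v =
      ∑ m, (∑ j, fderiv ℝ (fun y => (h y).adjugate k j) z v * h z j m) * (h z).adjugate m j' := by
    simp only [Finset.sum_mul]
    rw [Finset.sum_comm]
    have e1 : ∀ j, ∑ m, fderiv ℝ (fun y => (h y).adjugate k j) z v * h z j m * (h z).adjugate m j' =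
        fderiv ℝ (fun y => (h y).adjugate k j) z v * ((h z).det * (1 : Mat n) j j') := by
      intro j
      have := congrFun (congrFun (Matrix.mul_adjugate (h z)) j) j'
      rw [Matrix.mul_apply, Matrix.smul_apply, smul_eq_mul] at this
      rw [← this, Finset.mul_sum]
      refine Finset.sum_congr rfl fun m _ => ?_
      ring
    simp only [e1, Matrix.one_apply]
    simp only [mul_ite, mul_one, mul_zero, Finset.sum_ite_eq', Finset.mem_univ, if_true]
    ring
  have h2 : ∀ m, ∑ j, fderiv ℝ (fun y => (h y).adjugate k j) z v * h z j m =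
      fderiv ℝ (fun y => (h y).det) z v * (1 : Mat n) k m -
        ∑ j, (h z).adjugate k j * fderiv ℝ (fun y => h y j m) z v := by
    intro m
    rw [← key m, Finset.sum_add_distrib]
    ring
  rw [h1]
  simp only [h2, sub_mul]
  rw [Finset.sum_sub_distrib]
  have h3 : ∑ m, fderiv ℝ (fun y => (h y).det) z v * (1 : Mat n) k m * (h z).adjugate m j' =
      fderiv ℝ (fun y => (h y).det) z v * (h z).adjugate k j' := by
    simp only [Matrix.one_apply, mul_ite, mul_one, mul_zero, ite_mul, zero_mul, Finset.sum_ite_eq,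
      Finset.mem_univ, if_true]
  rw [h3, (jacobi21 hd).2 v]
  have h4 : (∑ i, ∑ p, (h z).adjugate i p * fderiv ℝ (fun y => h y p i) z v) * (h z).adjugate k j' =
      ∑ p, ∑ m, (h z).adjugate m p * (h z).adjugate k j' * fderiv ℝ (fun y => h y p m) z v := by
    rw [Finset.sum_comm, Finset.sum_mul]
    refine Finset.sum_congr rfl fun p _ => ?_
    rw [Finset.sum_mul]
    refine Finset.sum_congr rfl fun m _ => ?_
    ring
  have h5 : ∑ m, (∑ j, (h z).adjugate k j * fderiv ℝ (fun y => h y j m) z v) * (h z).adjugate m j' =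
      ∑ p, ∑ m, (h z).adjugate k p * (h z).adjugate m j' * fderiv ℝ (fun y => h y p m) z v := by
    simp only [Finset.sum_mul]
    rw [Finset.sum_comm]
    refine Finset.sum_congr rfl fun p _ => Finset.sum_congr rfl fun m _ => ?_
    ring
  rw [h4, h5]
  simp only [← Finset.sum_sub_distrib]

private theorem adj_dzc21 {h : V n → Mat n} {z : V n}
    (hd : ∀ j k, DifferentiableAt ℝ (fun y => h y j k) z) (k j l : Fin n) :
    (h z).det * dzc (fun y => (h y).adjugate k j) z l =
      ∑ p, ∑ m, ((h z).adjugate m p * (h z).adjugate k j - (h z).adjugate k p * (h z).adjugate m j) *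
        dzc (fun y => h y p m) z l := by
  unfold dzc
  have h1 := adj_deriv21 hd k j (e l)
  have h2 := adj_deriv21 hd k j (Complex.I • e l)
  have h3 : (h z).det * ((fderiv ℝ (fun y => (h y).adjugate k j) z (e l) -
      Complex.I * fderiv ℝ (fun y => (h y).adjugate k j) z (Complex.I • e l)) / 2) =
      ((h z).det * fderiv ℝ (fun y => (h y).adjugate k j) z (e l) -
      Complex.I * ((h z).det * fderiv ℝ (fun y => (h y).adjugate k j) z (Complex.I • e l))) / 2 := by
    ring
  rw [h3, h1, h2, Finset.mul_sum, ← Finset.sum_sub_distrib, Finset.sum_div]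
  refine Finset.sum_congr rfl fun p _ => ?_
  rw [Finset.mul_sum, ← Finset.sum_sub_distrib, Finset.sum_div]
  refine Finset.sum_congr rfl fun m _ => ?_
  ring

/-! ### third derivatives -/

private theorem third21 {u : V n → ℝ} {z : V n} (hu : ContDiffAt ℝ 3 u z) (a b : V n) :
    HasFDerivAt (fun y => D2 u y a b) (fderiv ℝ (fun y => D2 u y a b) z) z ∧
    ∀ c, fderiv ℝ (fun y => D2 u y a b) z c = fderiv ℝ (fderiv ℝ (fderiv ℝ u)) z c a b := by
  have h1 : ContDiffAt ℝ 2 (fderiv ℝ u) z := hu.fderiv_right (by norm_num)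
  have h2 : ContDiffAt ℝ 1 (fderiv ℝ (fderiv ℝ u)) z := h1.fderiv_right (by norm_num)
  have h3 : DifferentiableAt ℝ (fderiv ℝ (fderiv ℝ u)) z := h2.differentiableAt (by norm_num)
  have h4 : HasFDerivAt (fun y => D2 u y a b) _ z :=
    (h3.hasFDerivAt.clm_apply (hasFDerivAt_const a z)).clm_apply (hasFDerivAt_const b z)
  refine ⟨h4.differentiableAt.hasFDerivAt, fun c => ?_⟩
  rw [h4.fderiv]
  simp

private theorem third_symm21 {u : V n → ℝ} {z : V n} (hu : ContDiffAt ℝ 3 u z) (a b c : V n) :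
    fderiv ℝ (fun y => D2 u y a b) z c = fderiv ℝ (fun y => D2 u y c b) z a := by
  have h1 : ContDiffAt ℝ 2 (fderiv ℝ u) z := hu.fderiv_right (by norm_num)
  have h2 := h1.isSymmSndFDerivAt (by simp)
  rw [(third21 hu a b).2, (third21 hu c b).2, h2 c a]

private theorem fderiv_hess21 {u : V n → ℝ} {z : V n} (hu : ContDiffAt ℝ 3 u z) (j k : Fin n) (c : V n) :
    fderiv ℝ (fun y => hess u y j k) z c =
      ((fderiv ℝ (fun y => D2 u y (e j) (e k)) z c : ℂ) +
        fderiv ℝ (fun y => D2 u y (Complex.I • e j) (Complex.I • e k)) z c +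
        (fderiv ℝ (fun y => D2 u y (e j) (Complex.I • e k)) z c -
          fderiv ℝ (fun y => D2 u y (Complex.I • e j) (e k)) z c) * Complex.I) / 4 := by
  have hre : ∀ a b : V n, HasFDerivAt (fun y => ((D2 u y a b : ℝ) : ℂ))
      (Complex.ofRealCLM.comp (fderiv ℝ (fun y => D2 u y a b) z)) z := fun a b =>
    Complex.ofRealCLM.hasFDerivAt.comp z (third21 hu a b).1
  have h1 := (((hre (e j) (e k)).add (hre (Complex.I • e j) (Complex.I • e k))).add
    (((hre (e j) (Complex.I • e k)).sub (hre (Complex.I • e j) (e k))).mul_const Complex.I)).mul_const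
    ((4 : ℂ)⁻¹)
  have h2 : (fun y => hess u y j k) = fun y => (((D2 u y (e j) (e k) : ℝ) : ℂ) +
      ((D2 u y (Complex.I • e j) (Complex.I • e k) : ℝ) : ℂ) +
      (((D2 u y (e j) (Complex.I • e k) : ℝ) : ℂ) - ((D2 u y (Complex.I • e j) (e k) : ℝ) : ℂ)) *
        Complex.I) * (4 : ℂ)⁻¹ := by
    funext y
    unfold hess
    push_cast
    ring
  rw [h2]
  refine (congrArg (fun L : V n →L[ℝ] ℂ => L c) h1.fderiv).trans ?_
  simp only [_root_.add_apply, _root_.smul_apply,
    _root_.sub_apply, ContinuousLinearMap.comp_apply, Complex.ofRealCLM_apply,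
    smul_eq_mul]
  ring

private theorem dzc_hess_symm21 {u : V n → ℝ} {z : V n} (hu : ContDiffAt ℝ 3 u z) (j k l : Fin n) :
    dzc (fun y => hess u y j k) z l = dzc (fun y => hess u y l k) z j := by
  unfold dzc
  rw [fderiv_hess21 hu, fderiv_hess21 hu, fderiv_hess21 hu, fderiv_hess21 hu]
  rw [third_symm21 hu (e l) (e k) (e j), third_symm21 hu (Complex.I • e l) (Complex.I • e k) (e j),
    third_symm21 hu (e l) (Complex.I • e k) (e j), third_symm21 hu (Complex.I • e l) (e k) (e j),
    third_symm21 hu (e l) (e k) (Complex.I • e j),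
    third_symm21 hu (Complex.I • e l) (Complex.I • e k) (Complex.I • e j),
    third_symm21 hu (e l) (Complex.I • e k) (Complex.I • e j),
    third_symm21 hu (Complex.I • e l) (e k) (Complex.I • e j)]
  have hI := Complex.I_mul_I
  linear_combination ((-1 / 8 : ℂ) * ((fderiv ℝ (fun y => D2 u y (e j) (Complex.I • e k)) z (Complex.I • e l) : ℂ) -
      fderiv ℝ (fun y => D2 u y (Complex.I • e j) (e k)) z (Complex.I • e l)) +
      (1 / 8 : ℂ) * ((fderiv ℝ (fun y => D2 u y (Complex.I • e j) (Complex.I • e k)) z (e l) : ℂ) -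
      fderiv ℝ (fun y => D2 u y (Complex.I • e j) (e k)) z (Complex.I • e l))) * hI

theorem piola {Ω : Set (V n)} (hΩ : IsOpen Ω) {u : V n → ℝ} (hu : ContDiffOn ℝ (⊤ : ℕ∞) u Ω)
    (hpd : ∀ z ∈ Ω, (hess u z).PosDef) {z : V n} (hz : z ∈ Ω) (k : Fin n) :
    ∑ j, dzc (fun y => (hess u y).adjugate k j) z j = 0 := by
  have hu' : ContDiffAt ℝ (⊤ : ℕ∞) u z := hu.contDiffAt (hΩ.mem_nhds hz)
  have hu3 : ContDiffAt ℝ 3 u z := contDiffAt_infty.1 hu' 3
  have hd : ∀ j k, DifferentiableAt ℝ (fun y => hess u y j k) z := fun j k =>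
    ((contDiffOn_hess hΩ hu j k).contDiffAt (hΩ.mem_nhds hz)).differentiableAt (by simp)
  have hdet : (hess u z).det ≠ 0 := (hpd z hz).det_pos.ne'
  have h1 : (hess u z).det * ∑ j, dzc (fun y => (hess u y).adjugate k j) z j = 0 := by
    rw [Finset.mul_sum]
    simp only [adj_dzc21 hd, sub_mul, Finset.sum_sub_distrib]
    rw [sub_eq_zero]
    conv_rhs => rw [Finset.sum_comm]
    refine Finset.sum_congr rfl fun j _ => Finset.sum_congr rfl fun p _ =>
      Finset.sum_congr rfl fun m _ => ?_
    rw [dzc_hess_symm21 hu3 p m j]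
    ring
  exact (mul_eq_zero.1 h1).resolve_left hdet

/-! ### integration by parts -/

private theorem contDiffOn_det21 {Ω : Set (V n)} {M : V n → Mat n}
    (hM : ∀ j k, ContDiffOn ℝ (⊤ : ℕ∞) (fun z => M z j k) Ω) :
    ContDiffOn ℝ (⊤ : ℕ∞) (fun z => (M z).det) Ω := by
  simp only [Matrix.det_apply']
  refine ContDiffOn.sum fun σ _ => ?_
  refine contDiffOn_const.mul ?_
  exact contDiffOn_prod fun i _ => hM _ _

private theorem contDiffOn_adj21 {Ω : Set (V n)} {M : V n → Mat n}
    (hM : ∀ j k, ContDiffOn ℝ (⊤ : ℕ∞) (fun z => M z j k) Ω) (i j : Fin n) :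
    ContDiffOn ℝ (⊤ : ℕ∞) (fun z => (M z).adjugate i j) Ω := by
  simp only [Matrix.adjugate_apply]
  refine contDiffOn_det21 fun a b => ?_
  by_cases h : a = j
  · subst h
    simp only [Matrix.updateRow_self]
    exact contDiffOn_const
  · simp only [Matrix.updateRow_ne h]
    exact hM a b

/-- `conj (∂_k v)` -/
private noncomputable def W21 (v : V n → ℝ) (k : Fin n) (y : V n) : ℂ :=
  ((fderiv ℝ v y (e k) : ℂ) + Complex.I * (fderiv ℝ v y (Complex.I • e k) : ℂ)) / 2

private theorem W_eq21 (v : V n → ℝ) (k : Fin n) (y : V n) :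
    (starRingEnd ℂ) (dz (fderiv ℝ v y) k) = W21 v k y := by
  unfold dz W21
  rw [map_div₀, map_sub, map_mul, Complex.conj_ofReal, Complex.conj_ofReal, Complex.conj_I]
  have : (starRingEnd ℂ) 2 = 2 := Complex.conj_ofReal 2
  rw [this]
  ring

private theorem W_smooth21 {Ω : Set (V n)} (hΩ : IsOpen Ω) {v : V n → ℝ}
    (hv : ContDiffOn ℝ (⊤ : ℕ∞) v Ω) (k : Fin n) : ContDiffOn ℝ (⊤ : ℕ∞) (W21 v k) Ω := by
  unfold W21
  have h1 : ContDiffOn ℝ (⊤ : ℕ∞) (fderiv ℝ v) Ω := hv.fderiv_of_isOpen hΩ (by simp)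
  have hre : ∀ w : V n, ContDiffOn ℝ (⊤ : ℕ∞) (fun y => ((fderiv ℝ v y w : ℝ) : ℂ)) Ω := fun w =>
    Complex.ofRealCLM.contDiff.comp_contDiffOn (h1.clm_apply contDiffOn_const)
  exact ((hre _).add (contDiffOn_const.mul (hre _))).div_const 2

private theorem W_deriv21 {v : V n → ℝ} {z : V n} (hv : ContDiffAt ℝ 2 v z) (j k : Fin n) :
    dzc (W21 v k) z j = hess v z j k := by
  have h1 : ContDiffAt ℝ 1 (fderiv ℝ v) z := hv.fderiv_right (by norm_num)
  have h2 : HasFDerivAt (fderiv ℝ v) (fderiv ℝ (fderiv ℝ v) z) z :=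
    (h1.differentiableAt (by norm_num)).hasFDerivAt
  have hre : ∀ w : V n, HasFDerivAt (fun y => ((fderiv ℝ v y w : ℝ) : ℂ))
      (Complex.ofRealCLM.comp ((ContinuousLinearMap.apply ℝ ℝ w).comp (fderiv ℝ (fderiv ℝ v) z))) z := by
    intro w
    have h3 : HasFDerivAt (⇑(ContinuousLinearMap.apply ℝ ℝ w : (V n →L[ℝ] ℝ) →L[ℝ] ℝ))
        (ContinuousLinearMap.apply ℝ ℝ w) (fderiv ℝ v z) := ContinuousLinearMap.hasFDerivAt _
    have h4 := HasFDerivAt.comp (f := fderiv ℝ v) z h3 h2
    exact Complex.ofRealCLM.hasFDerivAt.comp z h4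
  have h5 : HasFDerivAt (W21 v k) _ z :=
    ((hre (e k)).add ((hre (Complex.I • e k)).const_mul Complex.I)).mul_const ((2 : ℂ)⁻¹)
  have h6 : ∀ c : V n, fderiv ℝ (W21 v k) z c =
      ((D2 v z c (e k) : ℂ) + Complex.I * (D2 v z c (Complex.I • e k) : ℂ)) / 2 := by
    intro c
    rw [h5.fderiv]
    simp only [_root_.add_apply, _root_.smul_apply, ContinuousLinearMap.comp_apply,
      Complex.ofRealCLM_apply, smul_eq_mul, ContinuousLinearMap.apply_apply]
    unfold D2
    ring
  unfold dzc hess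
  rw [h6, h6]
  push_cast
  linear_combination ((-1 / 4 : ℂ) * (D2 v z (Complex.I • e j) (Complex.I • e k) : ℂ)) * Complex.I_mul_I

private theorem dzc_mul21 {f g : V n → ℂ} {z : V n} (hf : DifferentiableAt ℝ f z)
    (hg : DifferentiableAt ℝ g z) (l : Fin n) :
    dzc (fun y => f y * g y) z l = dzc f z l * g z + f z * dzc g z l := by
  unfold dzc
  rw [(hf.hasFDerivAt.fun_mul hg.hasFDerivAt).fderiv]
  simp only [_root_.add_apply, _root_.smul_apply, smul_eq_mul]
  ring

private theorem dzc_sum21 {f : Fin n → V n → ℂ} {z : V n} (hf : ∀ k, DifferentiableAt ℝ (f k) z)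
    (l : Fin n) : dzc (fun y => ∑ k, f k y) z l = ∑ k, dzc (f k) z l := by
  unfold dzc
  rw [(HasFDerivAt.fun_sum fun k _ => (hf k).hasFDerivAt).fderiv]
  simp only [_root_.sum_apply]
  rw [Finset.mul_sum, ← Finset.sum_sub_distrib, Finset.sum_div]

theorem ibp_smooth {Ω : Set (V n)} (hΩ : IsOpen Ω) {u v η : V n → ℝ} (hu : ContDiffOn ℝ (⊤ : ℕ∞) u Ω)
    (hv : ContDiffOn ℝ (⊤ : ℕ∞) v Ω) (hpd : ∀ z ∈ Ω, (hess u z).PosDef) (hη : ContDiff ℝ 1 η)
    (hηc : HasCompactSupport η) (hηs : tsupport η ⊆ Ω) :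
    ∫ z, η z * pr (hess u z).adjugate (hess v z) = -∫ z, qf (hess u z).adjugate (fderiv ℝ v z) (fderiv ℝ η z) := by
  set K := tsupport η with hK
  have hKc : IsCompact K := hηc
  have hint : ∀ a b : V n → ℂ, Continuous a → (∀ z ∉ K, a z = 0) → ContinuousOn b Ω →
      Integrable (fun z => a z * b z) := by
    intro a b ha ha0 hb
    have h1 : IntegrableOn (fun z => a z * b z) K :=
      (ha.continuousOn.mul (hb.mono hηs)).integrableOn_compact hKc
    refine (integrableOn_iff_integrable_of_support_subset ?_).1 h1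
    intro z hz
    by_contra h
    refine hz ?_
    change a z * b z = 0
    rw [ha0 z h, zero_mul]
  -- the test function as a complex function
  set ηc : V n → ℂ := fun z => (η z : ℂ) with hηcdef
  have hcη : ContDiff ℝ 1 ηc := Complex.ofRealCLM.contDiff.comp hη
  have hη0 : ∀ z ∉ K, ηc z = 0 := by
    intro z hz
    rw [hηcdef]
    simp only
    rw [image_eq_zero_of_notMem_tsupport hz, Complex.ofReal_zero]
  have hdη : ∀ z, HasFDerivAt ηc (Complex.ofRealCLM.comp (fderiv ℝ η z)) z := fun z =>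
    Complex.ofRealCLM.hasFDerivAt.comp z ((hη.differentiable (by norm_num)) z).hasFDerivAt
  have hdη0 : ∀ z ∉ K, fderiv ℝ η z = 0 := by
    intro z hz
    have h1 : η =ᶠ[𝓝 z] fun _ => (0 : ℝ) := by
      filter_upwards [(isClosed_tsupport η).isOpen_compl.mem_nhds hz] with y hy
      exact image_eq_zero_of_notMem_tsupport hy
    rw [h1.fderiv_eq, fderiv_fun_const]
    rfl
  have hdηc0 : ∀ z ∉ K, ∀ w, fderiv ℝ ηc z w = 0 := by
    intro z hz w
    rw [(hdη z).fderiv, hdη0 z hz]
    simp
  have hdηcont : ∀ w, Continuous fun z => fderiv ℝ ηc z w := fun w =>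
    (hcη.continuous_fderiv (by norm_num)).clm_apply continuous_const
  -- the fields
  have hadj : ∀ k j, ContDiffOn ℝ (⊤ : ℕ∞) (fun y => (hess u y).adjugate k j) Ω :=
    fun k j => contDiffOn_adj21 (contDiffOn_hess hΩ hu) k j
  set G : Fin n → V n → ℂ := fun j y => ∑ k, (hess u y).adjugate k j * W21 v k y with hG
  have hGs : ∀ j, ContDiffOn ℝ (⊤ : ℕ∞) (G j) Ω := fun j =>
    ContDiffOn.sum fun k _ => (hadj k j).mul (W_smooth21 hΩ hv k)
  have hGc : ∀ j, ContinuousOn (G j) Ω := fun j => (hGs j).continuousOn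
  have hGdc : ∀ j w, ContinuousOn (fun z => fderiv ℝ (G j) z w) Ω := fun j w =>
    ((hGs j).continuousOn_fderiv_of_isOpen hΩ (by simp)).clm_apply continuousOn_const
  have hGd : ∀ j, ∀ z ∈ Ω, DifferentiableAt ℝ (G j) z := fun j z hz =>
    ((hGs j).contDiffAt (hΩ.mem_nhds hz)).differentiableAt (by simp)
  -- the divergence
  have hdiv : ∀ z ∈ Ω, ∑ j, dzc (G j) z j = Matrix.trace ((hess u z).adjugate * hess v z) := by
    intro z hz
    have hza : ∀ k j, DifferentiableAt ℝ (fun y => (hess u y).adjugate k j) z := fun k j =>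
      ((hadj k j).contDiffAt (hΩ.mem_nhds hz)).differentiableAt (by simp)
    have hzW : ∀ k, DifferentiableAt ℝ (W21 v k) z := fun k =>
      ((W_smooth21 hΩ hv k).contDiffAt (hΩ.mem_nhds hz)).differentiableAt (by simp)
    have hv2 : ContDiffAt ℝ 2 v z := contDiffAt_infty.1 (hv.contDiffAt (hΩ.mem_nhds hz)) 2
    have h1 : ∀ j, dzc (G j) z j = ∑ k, (dzc (fun y => (hess u y).adjugate k j) z j * W21 v k z +
        (hess u z).adjugate k j * hess v z j k) := by
      intro j
      rw [hG]
      simp only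
      rw [dzc_sum21 (f := fun k y => (hess u y).adjugate k j * W21 v k y)
        (fun k => (hza k j).mul (hzW k)) j]
      refine Finset.sum_congr rfl fun k _ => ?_
      rw [dzc_mul21 (hza k j) (hzW k), W_deriv21 hv2]
    simp only [h1]
    rw [Finset.sum_comm]
    simp only [Finset.sum_add_distrib, ← Finset.sum_mul]
    have h2 : ∀ k, (∑ j, dzc (fun y => (hess u y).adjugate k j) z j) = 0 := fun k =>
      piola hΩ hu hpd hz k
    simp only [h2, zero_mul, Finset.sum_const_zero, zero_add]
    rfl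
  -- integration by parts
  have hibp : ∀ j w, ∫ z, ηc z * fderiv ℝ (G j) z w = -∫ z, fderiv ℝ ηc z w * G j z := by
    intro j w
    have h1 := integral_smul_fderiv_eq_neg_fderiv_smul_of_integrable (μ := (volume : Measure (V n)))
      (f := ηc) (g := G j) (v := w) ?_ ?_ ?_ ?_ ?_
    · simpa only [smul_eq_mul] using h1
    · exact hint _ _ (hdηcont w) (fun z hz => hdηc0 z hz w) (hGc j)
    · exact hint _ _ hcη.continuous hη0 (hGdc j w)
    · exact hint _ _ hcη.continuous hη0 (hGc j)
    · exact fun x _ => (hdη x).differentiableAt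
    · intro x hx
      refine hGd j x (hηs ?_)
      refine closure_minimal ?_ (isClosed_tsupport η) hx
      intro y hy
      by_contra h
      exact hy (hη0 y h)
  have hibp2 : ∀ j, ∫ z, ηc z * dzc (G j) z j = -∫ z, dzc ηc z j * G j z := by
    intro j
    have h1 : ∫ z, ηc z * dzc (G j) z j = ((1 / 2 : ℂ) * ∫ z, ηc z * fderiv ℝ (G j) z (e j)) -
        (Complex.I / 2) * ∫ z, ηc z * fderiv ℝ (G j) z (Complex.I • e j) := by
      rw [← integral_const_mul, ← integral_const_mul, ← integral_sub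
        ((hint _ _ hcη.continuous hη0 (hGdc j _)).const_mul _)
        ((hint _ _ hcη.continuous hη0 (hGdc j _)).const_mul _)]
      refine integral_congr_ae (Eventually.of_forall fun z => ?_)
      simp only [dzc]
      ring
    have h2 : ∫ z, dzc ηc z j * G j z = ((1 / 2 : ℂ) * ∫ z, fderiv ℝ ηc z (e j) * G j z) -
        (Complex.I / 2) * ∫ z, fderiv ℝ ηc z (Complex.I • e j) * G j z := by
      rw [← integral_const_mul, ← integral_const_mul, ← integral_sub
        ((hint _ _ (hdηcont _) (fun z hz => hdηc0 z hz _) (hGc j)).const_mul _)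
        ((hint _ _ (hdηcont _) (fun z hz => hdηc0 z hz _) (hGc j)).const_mul _)]
      refine integral_congr_ae (Eventually.of_forall fun z => ?_)
      simp only [dzc]
      ring
    rw [h1, h2, hibp, hibp]
    ring
  have hi1 : ∀ j, Integrable fun z => ηc z * dzc (G j) z j := fun j =>
    hint _ _ hcη.continuous hη0 (by
      unfold dzc
      exact ((hGdc j _).sub (continuousOn_const.mul (hGdc j _))).div_const 2)
  have hi2 : ∀ j, Integrable fun z => dzc ηc z j * G j z := fun j =>
    hint _ _ (by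
      unfold dzc
      exact ((hdηcont _).sub (continuous_const.mul (hdηcont _))).div_const 2)
      (fun z hz => by
        unfold dzc
        rw [hdηc0 z hz, hdηc0 z hz]
        simp) (hGc j)
  have hsum : ∫ z, ∑ j, ηc z * dzc (G j) z j = -∫ z, ∑ j, dzc ηc z j * G j z := by
    rw [integral_finsetSum _ fun j _ => hi1 j, integral_finsetSum _ fun j _ => hi2 j,
      ← Finset.sum_neg_distrib]
    exact Finset.sum_congr rfl fun j _ => hibp2 j
  have hre := congrArg Complex.re hsum
  rw [Complex.neg_re] at hre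
  have hI1 : (∫ z, ∑ j, ηc z * dzc (G j) z j).re = ∫ z, (∑ j, ηc z * dzc (G j) z j).re :=
    (Complex.reCLM.integral_comp_comm (integrable_finsetSum _ fun j _ => hi1 j)).symm
  have hI2 : (∫ z, ∑ j, dzc ηc z j * G j z).re = ∫ z, (∑ j, dzc ηc z j * G j z).re :=
    (Complex.reCLM.integral_comp_comm (integrable_finsetSum _ fun j _ => hi2 j)).symm
  rw [hI1, hI2] at hre
  have hl : ∀ z, (∑ j, ηc z * dzc (G j) z j).re = η z * pr (hess u z).adjugate (hess v z) := by
    intro z
    rw [← Finset.mul_sum]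
    by_cases hz : z ∈ K
    · rw [hdiv z (hηs hz), hηcdef]
      simp only
      rw [Complex.re_ofReal_mul]
      rfl
    · rw [hη0 z hz, image_eq_zero_of_notMem_tsupport hz]
      simp
  have hr : ∀ z, (∑ j, dzc ηc z j * G j z).re =
      qf (hess u z).adjugate (fderiv ℝ v z) (fderiv ℝ η z) := by
    intro z
    have hd : ∀ j, dzc ηc z j = dz (fderiv ℝ η z) j := by
      intro j
      unfold dzc dz
      rw [(hdη z).fderiv]
      rfl
    by_cases hz : z ∈ K
    · have hherm : (hess u z).adjugate.IsHermitian := by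
        have h1 := (hpd z (hηs hz)).isHermitian
        unfold Matrix.IsHermitian at h1 ⊢
        rw [Matrix.adjugate_conjTranspose, h1]
      rw [qf_symm hherm]
      unfold qf
      congr 1
      refine Finset.sum_congr rfl fun j _ => ?_
      rw [hd, hG]
      simp only
      rw [Finset.mul_sum]
      refine Finset.sum_congr rfl fun k _ => ?_
      rw [W_eq21]
      ring
    · have h0 : ∀ j, dz (0 : V n →L[ℝ] ℝ) j = 0 := by
        intro j
        unfold dz
        simp
      unfold qf
      simp only [hd, hdη0 z hz, h0]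
      simp
  simp only [hl, hr] at hre
  exact hre

end Pool.Agent.Helper87.RG
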