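import Pool.Agent.Helper87.RG.R1b
import Pool.Agent.Helper87.RG.R2
import Pool.Agent.Helper87.RG.R3

/-!
# Project REG, block R5a: the weak form of the equation for `vA` ((7.3))

`weak_id`. PROOF. Let `Ω' = {z | ellIn A h z (ball x0 R)}` (open, contains the compact `tsupport η`; `Ω' ⊆ ball x0 R` as `ρ`-ellipsoids contain their centre). `u_ε = Phi u · ε`, `v_ε = (M (hA) u - u_ε)/(a h²)`; on a neighbourhood of `tsupport η` both are smooth for small `ε`, `hess u_ε = MH (sc ε) H` (`BH.hess_Phi`) is positive definite (an average of positive definite matrices), `hess v_ε = (MH (hA) H - hess u_ε)/(a h²)` (`BH.hess_mollify`).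
`ibp_smooth`: `∫ η pr (adj (hess u_ε)) (hess v_ε) = -∫ qf (adj (hess u_ε)) (dv_ε, dη)`. As `ε → 0`: `hess u_ε → H` a.e. (`BH.ae_tendsto`) and all matrices are bounded, `d u_ε (z) = ∫ ρ(ζ) du(z + ε ζ) dζ → du(z)`, bounded on `tsupport η`. Dominated convergence on both sides.
-/

set_option autoImplicit false

namespace Pool.Agent.Helper87.RG

open MeasureTheory Set Filter Topology Metric
open Helper29.AM
open scoped ComplexOrder

variable {n : ℕ}

section tools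

variable {s : Set (V n)} {Ψ : V n → V n → ℝ}

private lemma cd_at66 {k : WithTop ℕ∞} (hs : IsOpen s)
    (hΨ : ContDiffOn ℝ k (fun q : V n × V n => Ψ q.1 q.2) (s ×ˢ univ)) {p : V n} (hp : p ∈ s) (η : V n) :
    ContDiffAt ℝ k (fun q : V n × V n => Ψ q.1 q.2) (p, η) :=
  hΨ.contDiffAt ((hs.prod isOpen_univ).mem_nhds ⟨hp, mem_univ _⟩)

private lemma cont66 {k : WithTop ℕ∞} (hs : IsOpen s)
    (hΨ : ContDiffOn ℝ k (fun q : V n × V n => Ψ q.1 q.2) (s ×ˢ univ)) {p : V n} (hp : p ∈ s) :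
    Continuous (Ψ p) := by
  rw [continuous_iff_continuousAt]
  intro η
  have h1 := (cd_at66 hs hΨ hp η).continuousAt
  exact ContinuousAt.comp (f := fun η : V n => (p, η)) h1 (by fun_prop)

private lemma fd_part66 (hs : IsOpen s)
    (hΨ : ContDiffOn ℝ 1 (fun q : V n × V n => Ψ q.1 q.2) (s ×ˢ univ)) {p : V n} (hp : p ∈ s) (η : V n) :
    HasFDerivAt (fun q => Ψ q η) ((fderiv ℝ (fun q : V n × V n => Ψ q.1 q.2) (p, η)).comp
      (ContinuousLinearMap.inl ℝ (V n) (V n))) p := by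
  have h1 := ((cd_at66 hs hΨ hp η).differentiableAt (by norm_num)).hasFDerivAt
  have h2 : HasFDerivAt (fun q : V n => (q, η)) (ContinuousLinearMap.inl ℝ (V n) (V n)) p :=
    hasFDerivAt_prodMk_left p η
  exact HasFDerivAt.comp (f := fun q : V n => (q, η)) p h1 h2

private lemma fd_cont66 (hs : IsOpen s)
    (hΨ : ContDiffOn ℝ 1 (fun q : V n × V n => Ψ q.1 q.2) (s ×ˢ univ)) {q : V n × V n} (hq : q.1 ∈ s) :
    ContinuousAt (fderiv ℝ (fun q : V n × V n => Ψ q.1 q.2)) q :=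
  ((hΨ.fderiv_of_isOpen (m := 0) (hs.prod isOpen_univ) (by norm_num)).continuousOn).continuousAt
    ((hs.prod isOpen_univ).mem_nhds ⟨hq, mem_univ _⟩)

private lemma fd_zero66 (hs : IsOpen s) (h0 : ∀ p ∈ s, ∀ η : V n, 1 < ‖η‖ → Ψ p η = 0) {p : V n} (hp : p ∈ s)
    {η : V n} (hη : 1 < ‖η‖) : fderiv ℝ (fun q => Ψ q η) p = 0 := by
  have h1 : (fun q => Ψ q η) =ᶠ[𝓝 p] fun _ => 0 := by
    filter_upwards [hs.mem_nhds hp] with q hq
    exact h0 q hq η hη
  rw [h1.fderiv_eq]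
  simp

private lemma fd_cont'66 (hs : IsOpen s)
    (hΨ : ContDiffOn ℝ 1 (fun q : V n × V n => Ψ q.1 q.2) (s ×ˢ univ)) {p : V n} (hp : p ∈ s) :
    Continuous fun η => fderiv ℝ (fun q => Ψ q η) p := by
  have h1 : (fun η => fderiv ℝ (fun q => Ψ q η) p) = fun η =>
      (fderiv ℝ (fun q : V n × V n => Ψ q.1 q.2) (p, η)).comp (ContinuousLinearMap.inl ℝ (V n) (V n)) := by
    funext η
    exact (fd_part66 hs hΨ hp η).fderiv
  rw [h1, continuous_iff_continuousAt]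
  intro η
  have h2 : ContinuousAt (fun η : V n => fderiv ℝ (fun q : V n × V n => Ψ q.1 q.2) (p, η)) η :=
    ContinuousAt.comp (f := fun η : V n => (p, η)) (fd_cont66 hs hΨ (q := (p, η)) hp) (by fun_prop)
  exact h2.clm_comp continuousAt_const

private lemma cpt66 {E : Type} [NormedAddCommGroup E] {g : V n → E} (h : ∀ η : V n, 1 < ‖η‖ → g η = 0) :
    HasCompactSupport g :=
  HasCompactSupport.intro (isCompact_closedBall (0 : V n) 1) fun η hη => h η (by
    rw [mem_closedBall_zero_iff] at hη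
    exact lt_of_not_ge hη)

private lemma tool_fd66 (hs : IsOpen s)
    (hΨ : ContDiffOn ℝ 1 (fun q : V n × V n => Ψ q.1 q.2) (s ×ˢ univ))
    (h0 : ∀ p ∈ s, ∀ η : V n, 1 < ‖η‖ → Ψ p η = 0) {p : V n} (hp : p ∈ s) :
    Integrable (fun η => fderiv ℝ (fun q => Ψ q η) p) ∧
      HasFDerivAt (fun p => ∫ η, Ψ p η) (∫ η, fderiv ℝ (fun q => Ψ q η) p) p := by
  have hcont := fd_cont'66 hs hΨ hp
  have hint : Integrable (fun η => fderiv ℝ (fun q => Ψ q η) p) :=
    hcont.integrable_of_hasCompactSupport (cpt66 fun η hη => fd_zero66 hs h0 hp hη)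
  refine ⟨hint, ?_⟩
  obtain ⟨C, hC⟩ : ∃ C, ∀ η ∈ Metric.closedBall (0 : V n) 1, ‖fderiv ℝ (fun q => Ψ q η) p‖ ≤ C :=
    (isCompact_closedBall (0 : V n) 1).exists_bound_of_continuousOn hcont.continuousOn
  have hC0 : 0 ≤ C := (norm_nonneg _).trans (hC 0 (by simp))
  have hev : ∀ᶠ x in 𝓝 p, ∀ η ∈ Metric.closedBall (0 : V n) 1, ‖(fderiv ℝ (fun q : V n × V n => Ψ q.1 q.2) (x, η)).comp
      (ContinuousLinearMap.inl ℝ (V n) (V n))‖ < C + 1 := by
    refine (isCompact_closedBall (0 : V n) 1).eventually_forall_of_forall_eventually fun η hη => ?_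
    have h1 : ContinuousAt (fun z : V n × V n => ‖(fderiv ℝ (fun q : V n × V n => Ψ q.1 q.2) z).comp
        (ContinuousLinearMap.inl ℝ (V n) (V n))‖) (p, η) :=
      ((fd_cont66 hs hΨ (q := (p, η)) hp).clm_comp continuousAt_const).norm
    have h2 : ‖(fderiv ℝ (fun q : V n × V n => Ψ q.1 q.2) (p, η)).comp
        (ContinuousLinearMap.inl ℝ (V n) (V n))‖ < C + 1 := by
      rw [← (fd_part66 hs hΨ hp η).fderiv]
      linarith [hC η hη]
    exact h1.eventually (gt_mem_nhds h2)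
  refine hasFDerivAt_integral_of_dominated_of_fderiv_le (𝕜 := ℝ) (μ := (volume : Measure (V n)))
    (F := Ψ) (F' := fun x η => fderiv ℝ (fun q => Ψ q η) x) (x₀ := p)
    (s := {x | x ∈ s ∧ ∀ η ∈ Metric.closedBall (0 : V n) 1, ‖(fderiv ℝ (fun q : V n × V n => Ψ q.1 q.2) (x, η)).comp
      (ContinuousLinearMap.inl ℝ (V n) (V n))‖ < C + 1})
    (bound := (Metric.closedBall (0 : V n) 1).indicator fun _ => C + 1) ?_ ?_ ?_ ?_ ?_ ?_ ?_
  · filter_upwards [hs.mem_nhds hp, hev] with x hx hx'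
    exact ⟨hx, hx'⟩
  · filter_upwards [hs.mem_nhds hp] with x hx
    exact (cont66 hs hΨ hx).aestronglyMeasurable
  · exact (cont66 hs hΨ hp).integrable_of_hasCompactSupport (cpt66 (h0 p hp))
  · exact hcont.aestronglyMeasurable
  · refine Filter.Eventually.of_forall fun η x hx => ?_
    by_cases hη : η ∈ Metric.closedBall (0 : V n) 1
    · rw [Set.indicator_of_mem hη, (fd_part66 hs hΨ hx.1 η).fderiv]
      exact (hx.2 η hη).le
    · rw [Set.indicator_of_notMem hη]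
      rw [mem_closedBall_zero_iff] at hη
      rw [fd_zero66 hs h0 hx.1 (lt_of_not_ge hη), norm_zero]
  · rw [integrable_indicator_iff measurableSet_closedBall]
    exact integrableOn_const (measure_closedBall_lt_top.ne)
  · refine Filter.Eventually.of_forall fun η x hx => ?_
    exact (fd_part66 hs hΨ hx.1 η).differentiableAt.hasFDerivAt

end tools

private lemma joint66 {s Ω : Set (V n)} {u : V n → ℝ} (hΩ : IsOpen Ω) (hu : ContDiffOn ℝ 1 u Ω)
    (T : Lin n) (hcΩ : ∀ p ∈ s, ∀ η : V n, ‖η‖ ≤ 1 → p + T η ∈ Ω) :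
    ContDiffOn ℝ 1 (fun q : V n × V n => rho q.2 * u (q.1 + T q.2)) (s ×ˢ univ) := by
  have hk : (1 : WithTop ℕ∞) ≤ (⊤ : ℕ∞) := by
    have h : ((1 : ℕ∞) : WithTop ℕ∞) ≤ ((⊤ : ℕ∞) : WithTop ℕ∞) := WithTop.coe_le_coe.2 le_top
    exact h
  have hc : ContDiff ℝ 1 (fun q : V n × V n => q.1 + T q.2) :=
    contDiff_fst.add ((T.restrictScalars ℝ).contDiff.comp contDiff_snd)
  rintro ⟨p, η⟩ hq
  apply ContDiffAt.contDiffWithinAt
  rcases le_or_gt ‖η‖ 1 with hη | hη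
  · have h1 : ContDiffAt ℝ 1 u (p + T η) := hu.contDiffAt (hΩ.mem_nhds (hcΩ p hq.1 η hη))
    have h3 : ContDiffAt ℝ 1 (fun q : V n × V n => rho q.2) (p, η) :=
      ((rho_contDiff.of_le hk).contDiffAt).comp (p, η) contDiffAt_snd
    exact h3.mul (ContDiffAt.comp (f := fun q : V n × V n => q.1 + T q.2) (p, η) h1 hc.contDiffAt)
  · have h1 : (fun q : V n × V n => rho q.2 * u (q.1 + T q.2)) =ᶠ[𝓝 (p, η)] fun _ => 0 := by
      have h2 : ∀ᶠ q : V n × V n in 𝓝 (p, η), 1 < ‖q.2‖ :=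
        (continuous_snd.norm.continuousAt (x := (p, η))).eventually (lt_mem_nhds hη)
      filter_upwards [h2] with q hq'
      rw [rho_eq_zero hq'.le, zero_mul]
    exact contDiffAt_const.congr_of_eventuallyEq h1

/-- the derivative of a mean is the mean of the derivatives -/
private lemma fdM66 {s Ω : Set (V n)} (hs : IsOpen s) (hΩ : IsOpen Ω) {u : V n → ℝ} (hu : ContDiffOn ℝ 1 u Ω)
    (T : Lin n) (hsΩ : ∀ p ∈ s, ∀ η : V n, ‖η‖ ≤ 1 → p + T η ∈ Ω) {z : V n} (hz : z ∈ s) :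
    Integrable (fun ζ => rho ζ • fderiv ℝ u (z + T ζ)) ∧
      HasFDerivAt (M T u) (∫ ζ, rho ζ • fderiv ℝ u (z + T ζ)) z := by
  obtain ⟨h1, h2⟩ := tool_fd66 (Ψ := fun z η => rho η * u (z + T η)) hs (joint66 hΩ hu T hsΩ)
    (fun p _ η hη => by rw [rho_eq_zero hη.le, zero_mul]) hz
  have h3 : (fun η => fderiv ℝ (fun q => rho η * u (q + T η)) z) = fun ζ => rho ζ • fderiv ℝ u (z + T ζ) := by
    funext η
    rcases le_or_gt ‖η‖ 1 with hη | hη
    · have h4 : DifferentiableAt ℝ (fun q => u (q + T η)) z := by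
        have h5 : DifferentiableAt ℝ u (z + T η) :=
          (hu.contDiffAt (hΩ.mem_nhds (hsΩ z hz η hη))).differentiableAt (by norm_num)
        exact DifferentiableAt.comp (f := fun q : V n => q + T η) z h5 (by fun_prop)
      rw [fderiv_const_mul h4, fderiv_comp_add_right]
    · rw [rho_eq_zero hη.le, zero_smul]
      simp
  rw [h3] at h1
  refine ⟨h1, ?_⟩
  have h5 : (∫ η, fderiv ℝ (fun q => rho η * u (q + T η)) z) = ∫ ζ, rho ζ • fderiv ℝ u (z + T ζ) :=
    congrArg (fun f => ∫ ζ, f ζ) h3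
  rw [← h5]
  exact h2

theorem isOpen_ellIn (A : Lin n) (h : ℝ) {Ω : Set (V n)} (hΩ : IsOpen Ω) : IsOpen {z | ellIn A h z Ω} := by
  have h1 := (isOpen_ell A hΩ).preimage (f := fun z : V n => (z, h)) (by fun_prop)
  exact h1

theorem fderiv_M {Ω : Set (V n)} (hΩ : IsOpen Ω) {u : V n → ℝ} (hu : ContDiffOn ℝ 1 u Ω) (A : Lin n) {h : ℝ} {z : V n}
    (hz : ellIn A h z Ω) (w : V n) :
    fderiv ℝ (M ((h : ℂ) • A) u) z w = ∫ ζ, rho ζ * fderiv ℝ u (z + ((h : ℂ) • A) ζ) w := by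
  obtain ⟨h1, h2⟩ := fdM66 (isOpen_ellIn A h hΩ) hΩ hu ((h : ℂ) • A) (fun p hp => hp) (z := z) hz
  rw [h2.fderiv, ContinuousLinearMap.integral_apply h1]
  rfl

theorem contDiffOn_vA {Ω : Set (V n)} (hΩ : IsOpen Ω) {u : V n → ℝ} (hu : ContDiffOn ℝ 1 u Ω) (A : Lin n) (h : ℝ) :
    ContDiffOn ℝ 1 (vA A h u) {z | ellIn A h z Ω} := by
  have h1 : ContDiffOn ℝ 1 (M ((h : ℂ) • A) u) {z | ellIn A h z Ω} :=
    contDiffOn_M_of_contDiffOn (k := 1) ((h : ℂ) • A) hΩ hu
  have h2 : ContDiffOn ℝ 1 u {z | ellIn A h z Ω} := hu.mono fun z hz => by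
    have := hz 0 (by simp)
    simpa using this
  exact (h1.sub h2).div_const _

private lemma int_MH66 {H : V n → Mat n} (hm : ∀ j k, Measurable fun z => H z j k) {Λ : ℝ}
    (hb : ∀ z j k, ‖H z j k‖ ≤ Λ) (T : Lin n) (z : V n) (j k : Fin n) :
    Integrable (fun ζ => (rho ζ : ℂ) * H (z + T ζ) j k) := by
  refine Integrable.mono' (rho_integrable.mul_const Λ) ?_ (Eventually.of_forall fun ζ => ?_)
  · have h1 : Measurable fun ζ : V n => H (z + T ζ) j k := (hm j k).comp (by fun_prop)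
    exact ((Complex.measurable_ofReal.comp rho_contDiff.continuous.measurable).mul h1).aestronglyMeasurable
  · rw [norm_mul, Complex.norm_real, Real.norm_of_nonneg (rho_nonneg ζ)]
    exact mul_le_mul_of_nonneg_left (hb _ _ _) (rho_nonneg ζ)

private lemma norm_MH66 {H : V n → Mat n} {Λ : ℝ}
    (hb : ∀ z j k, ‖H z j k‖ ≤ Λ) (T : Lin n) (z : V n) (j k : Fin n) : ‖MH T H z j k‖ ≤ Λ := by
  have h1 : ‖MH T H z j k‖ ≤ ∫ ζ : V n, rho ζ * Λ := by
    refine norm_integral_le_of_norm_le (rho_integrable.mul_const Λ) (Eventually.of_forall fun ζ => ?_)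
    rw [norm_mul, Complex.norm_real, Real.norm_of_nonneg (rho_nonneg ζ)]
    exact mul_le_mul_of_nonneg_left (hb _ _ _) (rho_nonneg ζ)
  rwa [integral_mul_const, integral_rho, one_mul] at h1

private lemma posDef_MH66 {H : V n → Mat n} (hm : ∀ j k, Measurable fun z => H z j k) {Λ : ℝ}
    (hb : ∀ z j k, ‖H z j k‖ ≤ Λ) (hpd : ∀ z, (H z).PosDef) (T : Lin n) (z : V n) : (MH T H z).PosDef := by
  refine Matrix.PosDef.of_dotProduct_mulVec_pos ?_ fun x hx => ?_
  · ext j k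
    rw [Matrix.conjTranspose_apply]
    show (starRingEnd ℂ) (∫ ζ, (rho ζ : ℂ) * H (z + T ζ) k j) = ∫ ζ, (rho ζ : ℂ) * H (z + T ζ) j k
    rw [← integral_conj]
    refine integral_congr_ae (Eventually.of_forall fun ζ => ?_)
    show (starRingEnd ℂ) ((rho ζ : ℂ) * H (z + T ζ) k j) = _
    rw [map_mul, Complex.conj_ofReal]
    congr 1
    exact (hpd _).isHermitian.apply j k
  · set g : V n → ℝ := fun ζ => (star x ⬝ᵥ ((H (z + T ζ)).mulVec x)).re with hg
    have hgpos : ∀ ζ, 0 < g ζ := fun ζ => (Complex.lt_def.1 ((hpd (z + T ζ)).dotProduct_mulVec_pos hx)).1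
    have hgc : ∀ ζ, star x ⬝ᵥ ((H (z + T ζ)).mulVec x) = (g ζ : ℂ) := by
      intro ζ
      have h1 := (Complex.lt_def.1 ((hpd (z + T ζ)).dotProduct_mulVec_pos hx)).2
      apply Complex.ext
      · simp [hg]
      · simpa using h1.symm
    have hi : ∀ j k, Integrable (fun ζ => star x j * ((rho ζ : ℂ) * H (z + T ζ) j k) * x k) := fun j k =>
      ((int_MH66 hm hb T z j k).const_mul _).mul_const _
    have h1 : star x ⬝ᵥ ((MH T H z).mulVec x) = ∫ ζ, ((rho ζ * g ζ : ℝ) : ℂ) := by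
      have h2 : ∀ ζ, ((rho ζ * g ζ : ℝ) : ℂ) = ∑ j, ∑ k, star x j * ((rho ζ : ℂ) * H (z + T ζ) j k) * x k := by
        intro ζ
        rw [Complex.ofReal_mul, ← hgc ζ]
        simp only [dotProduct, Matrix.mulVec, Finset.mul_sum]
        refine Finset.sum_congr rfl fun j _ => Finset.sum_congr rfl fun k _ => ?_
        ring
      simp only [h2]
      rw [integral_finsetSum _ fun j _ => integrable_finsetSum _ fun k _ => hi j k]
      simp only [dotProduct, Matrix.mulVec, Finset.mul_sum]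
      refine Finset.sum_congr rfl fun j _ => ?_
      rw [integral_finsetSum _ fun k _ => hi j k]
      refine Finset.sum_congr rfl fun k _ => ?_
      rw [integral_mul_const, integral_const_mul]
      show star x j * (MH T H z j k * x k) = star x j * MH T H z j k * x k
      ring
    have hint : Integrable (fun ζ => rho ζ * g ζ) := by
      have h2 : Integrable (fun ζ => ∑ j, ∑ k, star x j * ((rho ζ : ℂ) * H (z + T ζ) j k) * x k) :=
        integrable_finsetSum _ fun j _ => integrable_finsetSum _ fun k _ => hi j k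
      have h3 := h2.re
      refine h3.congr (Eventually.of_forall fun ζ => ?_)
      show (∑ j, ∑ k, star x j * ((rho ζ : ℂ) * H (z + T ζ) j k) * x k).re = rho ζ * g ζ
      have h4 : (∑ j, ∑ k, star x j * ((rho ζ : ℂ) * H (z + T ζ) j k) * x k) = ((rho ζ * g ζ : ℝ) : ℂ) := by
        rw [Complex.ofReal_mul, ← hgc ζ]
        simp only [dotProduct, Matrix.mulVec, Finset.mul_sum]
        refine Finset.sum_congr rfl fun j _ => Finset.sum_congr rfl fun k _ => ?_
        ring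
      rw [h4, Complex.ofReal_re]
    rw [h1, integral_complex_ofReal]
    have h5 : 0 < ∫ ζ, rho ζ * g ζ := by
      rw [integral_pos_iff_support_of_nonneg (fun ζ => mul_nonneg (rho_nonneg ζ) (hgpos ζ).le) hint]
      refine lt_of_lt_of_le (measure_ball_pos volume (0 : V n) one_pos) (measure_mono fun ζ hζ => ?_)
      rw [Function.mem_support]
      exact (mul_pos (rho_pos (mem_ball_zero_iff.1 hζ)) (hgpos ζ)).ne'
    exact_mod_cast h5

private lemma cont_pr66 : Continuous fun p : Mat n × Mat n => pr p.1.adjugate p.2 := by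
  unfold pr
  exact Complex.continuous_re.comp ((continuous_fst.matrix_adjugate.matrix_mul continuous_snd).matrix_trace)

private lemma cont_dz66 (j : Fin n) : Continuous fun ξ : V n →L[ℝ] ℝ => dz ξ j := by
  unfold dz
  fun_prop

private lemma cont_qf66 : Continuous fun p : Mat n × (V n →L[ℝ] ℝ) × (V n →L[ℝ] ℝ) =>
    qf p.1.adjugate p.2.1 p.2.2 := by
  unfold qf
  refine Complex.continuous_re.comp (continuous_finsetSum _ fun j _ => continuous_finsetSum _ fun k _ => ?_)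
  refine ((Continuous.matrix_elem continuous_fst.matrix_adjugate k j).mul
    ((cont_dz66 j).comp (continuous_fst.comp continuous_snd))).mul ?_
  exact Complex.continuous_conj.comp ((cont_dz66 k).comp (continuous_snd.comp continuous_snd))

private def Bd66 (n : ℕ) (Λ : ℝ) : Set (Mat n) := {P | ∀ j k, ‖P j k‖ ≤ Λ}

private lemma compact_Bd66 (Λ : ℝ) : IsCompact (Bd66 n Λ) := by
  have h1 : Bd66 n Λ = Set.pi Set.univ fun _ : Fin n => Set.pi Set.univ fun _ : Fin n => Metric.closedBall (0 : ℂ) Λ := by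
    ext P
    exact ⟨fun h j _ k _ => mem_closedBall_zero_iff.2 (h j k),
      fun h j k => mem_closedBall_zero_iff.1 (h j (mem_univ j) k (mem_univ k))⟩
  rw [h1]
  exact isCompact_univ_pi fun _ => isCompact_univ_pi fun _ => isCompact_closedBall _ _

private lemma pr_smul66 (P X Y : Mat n) (s : ℝ) :
    pr P ((s : ℂ) • X + ((-s : ℝ) : ℂ) • Y) = s * pr P (X - Y) := by
  unfold pr
  rw [Matrix.mul_add, Matrix.mul_smul, Matrix.mul_smul, Matrix.trace_add, Matrix.trace_smul, Matrix.trace_smul,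
    Matrix.mul_sub, Matrix.trace_sub, smul_eq_mul, smul_eq_mul, Complex.add_re, Complex.re_ofReal_mul,
    Complex.re_ofReal_mul, Complex.sub_re]
  ring

private lemma two_le66 : (2 : WithTop ℕ∞) ≤ ((⊤ : ℕ∞) : WithTop ℕ∞) := by
  have h : ((2 : ℕ∞) : WithTop ℕ∞) ≤ ((⊤ : ℕ∞) : WithTop ℕ∞) := WithTop.coe_le_coe.2 le_top
  exact h

private lemma D_norm66 {S : Set (V n)} {u : V n → ℝ} {C : ℝ} (hC : ∀ y ∈ S, ‖fderiv ℝ u y‖ ≤ C) {z : V n} {ε : ℝ}
    (hz : ∀ ζ : V n, ‖ζ‖ ≤ 1 → z + (sc ε : Lin n) ζ ∈ S) :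
    ‖∫ ζ : V n, rho ζ • fderiv ℝ u (z + (sc ε : Lin n) ζ)‖ ≤ C := by
  have h1 : ‖∫ ζ : V n, rho ζ • fderiv ℝ u (z + (sc ε : Lin n) ζ)‖ ≤ ∫ ζ : V n, rho ζ * C := by
    refine norm_integral_le_of_norm_le (rho_integrable.mul_const C) (Eventually.of_forall fun ζ => ?_)
    rw [norm_smul, Real.norm_of_nonneg (rho_nonneg ζ)]
    rcases le_or_gt ‖ζ‖ 1 with h | h
    · exact mul_le_mul_of_nonneg_left (hC _ (hz ζ h)) (rho_nonneg ζ)
    · rw [rho_eq_zero h.le, zero_mul, zero_mul]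
  rwa [integral_mul_const, integral_rho, one_mul] at h1

private lemma D_tends66 {Ω : Set (V n)} (hΩ : IsOpen Ω) {u : V n → ℝ} (hu : ContDiffOn ℝ 1 u Ω) {z : V n} (hz : z ∈ Ω) :
    Tendsto (fun ε : ℝ => ∫ ζ : V n, rho ζ • fderiv ℝ u (z + (sc ε : Lin n) ζ)) (𝓝[>] 0) (𝓝 (fderiv ℝ u z)) := by
  have hc : ContinuousAt (fderiv ℝ u) z :=
    (hu.continuousOn_fderiv_of_isOpen hΩ le_rfl).continuousAt (hΩ.mem_nhds hz)
  rw [Metric.tendsto_nhds]
  intro e he
  obtain ⟨r, hr, hr2⟩ := Metric.continuousAt_iff.1 hc (e / 2) (by positivity)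
  obtain ⟨δ, hδ, hδ2⟩ := Metric.isOpen_iff.1 hΩ z hz
  have hmin : 0 < min r δ := lt_min hr hδ
  filter_upwards [Ioo_mem_nhdsGT hmin] with ε hε
  have hball : ∀ ζ : V n, ‖ζ‖ ≤ 1 → dist (z + (sc ε : Lin n) ζ) z ≤ ε := by
    intro ζ hζ
    rw [dist_eq_norm, add_sub_cancel_left, sc_apply, norm_smul, Complex.norm_real, Real.norm_of_nonneg hε.1.le]
    calc ε * ‖ζ‖ ≤ ε * 1 := mul_le_mul_of_nonneg_left hζ hε.1.le
      _ = ε := mul_one ε
  have hzs : z ∈ shr Ω ε := fun y hy => hδ2 (lt_of_le_of_lt hy (hε.2.trans_le (min_le_right _ _)))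
  obtain ⟨h1, -⟩ := fdM66 (isOpen_shr hΩ ε) hΩ hu (sc ε) (fun p hp => (mem_shr_iff hε.1.le).1 hp) hzs
  have h2 : (∫ ζ : V n, rho ζ • fderiv ℝ u z) = fderiv ℝ u z := by
    rw [integral_smul_const, integral_rho, one_smul]
  rw [dist_eq_norm]
  have h3 : (∫ ζ : V n, rho ζ • fderiv ℝ u (z + (sc ε : Lin n) ζ)) - fderiv ℝ u z
      = ∫ ζ : V n, (rho ζ • fderiv ℝ u (z + (sc ε : Lin n) ζ) - rho ζ • fderiv ℝ u z) := by
    rw [integral_sub h1 (rho_integrable.smul_const _), h2]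
  rw [h3]
  have h4 : ‖∫ ζ : V n, (rho ζ • fderiv ℝ u (z + (sc ε : Lin n) ζ) - rho ζ • fderiv ℝ u z)‖
      ≤ ∫ ζ : V n, rho ζ * (e / 2) := by
    refine norm_integral_le_of_norm_le (rho_integrable.mul_const _) (Eventually.of_forall fun ζ => ?_)
    rw [← smul_sub, norm_smul, Real.norm_of_nonneg (rho_nonneg ζ)]
    rcases le_or_gt ‖ζ‖ 1 with h | h
    · refine mul_le_mul_of_nonneg_left ?_ (rho_nonneg ζ)
      rw [← dist_eq_norm]
      exact (hr2 ((hball ζ h).trans_lt (hε.2.trans_le (min_le_left _ _)))).le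
    · rw [rho_eq_zero h.le, zero_mul, zero_mul]
  rw [integral_mul_const, integral_rho, one_mul] at h4
  linarith

/-- dominated convergence for continuous functions of bounded convergent data -/
private lemma dct66 {Y : Type} [TopologicalSpace Y] {Φ : Y → ℝ} (hΦ : Continuous Φ) {S : Set Y} (hS : IsCompact S)
    {K : Set (V n)} (hK : IsCompact K) {f : ℝ → V n → Y} {f0 : V n → Y}
    (hc : ∀ᶠ ε in 𝓝[>] (0 : ℝ), ContinuousOn (f ε) K) (hm : ∀ᶠ ε in 𝓝[>] (0 : ℝ), ∀ z ∈ K, f ε z ∈ S)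
    (hl : ∀ᵐ z ∂(volume.restrict K), Tendsto (fun ε => f ε z) (𝓝[>] 0) (𝓝 (f0 z))) :
    Tendsto (fun ε => ∫ z in K, Φ (f ε z)) (𝓝[>] 0) (𝓝 (∫ z in K, Φ (f0 z))) := by
  obtain ⟨B, hB⟩ := hS.exists_bound_of_continuousOn hΦ.continuousOn
  refine tendsto_integral_filter_of_dominated_convergence (fun _ => B) ?_ ?_ ?_ ?_
  · filter_upwards [hc] with ε hε
    exact (hΦ.comp_continuousOn hε).aestronglyMeasurable hK.measurableSet
  · filter_upwards [hm] with ε hε
    rw [ae_restrict_iff' hK.measurableSet]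
    exact Eventually.of_forall fun z hz => hB _ (hε z hz)
  · exact integrableOn_const hK.measure_lt_top.ne
  · filter_upwards [hl] with z hz
    exact (hΦ.tendsto _).comp hz

theorem weak_id {x0 : V n} {R : ℝ} {u κ : V n → ℝ} {H : V n → Mat n} {c Λ B : ℝ} (hl : RegLoc x0 R u κ H c Λ B)
    {A : Lin n} (hA : A.det ≠ 0) {h : ℝ} (hh : 0 < h) {η : V n → ℝ} (hη : ContDiff ℝ 1 η) (hηc : HasCompactSupport η)
    (hηs : ∀ z ∈ tsupport η, ellIn A h z (ball x0 R)) :
    ∫ z, qf (H z).adjugate (fderiv ℝ (vA A h u) z) (fderiv ℝ η z)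
      = -∫ z, η z * (pr (H z).adjugate (MH ((h : ℂ) • A) H z - H z) / (aa n * h ^ 2)) := by
  obtain ⟨Ω, hΩdef⟩ : ∃ Ω, Ω = ball x0 R := ⟨_, rfl⟩
  have hΩ : IsOpen Ω := by rw [hΩdef]; exact isOpen_ball
  have hbh : BH Ω u H := by rw [hΩdef]; exact hl.bh
  have hc1 : ContDiffOn ℝ 1 u Ω := by rw [hΩdef]; exact hl.c1
  rw [← hΩdef] at hηs
  have hb : ∀ z j k, ‖H z j k‖ ≤ Λ := fun z j k => (norm_entry_le (hl.pd z).posSemidef j k).trans (hl.tr z)
  have hm := hl.bh.meas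
  have hT : ((h : ℂ) • A).det ≠ 0 := by
    rw [ContinuousLinearMap.det, ContinuousLinearMap.toLinearMap_smul, LinearMap.det_smul]
    exact mul_ne_zero (pow_ne_zero _ (by exact_mod_cast hh.ne')) hA
  have hΩ' : IsOpen {z | ellIn A h z Ω} := isOpen_ellIn A h hΩ
  have hMsm : ContDiffOn ℝ (⊤ : ℕ∞) (M ((h : ℂ) • A) u) {z | ellIn A h z Ω} := by
    have h1 := contDiffOn_M hA hΩ hbh.int
    have h2 : ContDiffOn ℝ (⊤ : ℕ∞) (fun z : V n => (z, h)) {z | ellIn A h z Ω} :=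
      (contDiff_id.prodMk contDiff_const).contDiffOn
    exact h1.comp h2 (fun z hz => ⟨hh, hz⟩)
  have hMh : ∀ z ∈ {z | ellIn A h z Ω}, hess (M ((h : ℂ) • A) u) z = MH ((h : ℂ) • A) H z := fun z hz =>
    hbh.hess_mollify hΩ hT hz
  obtain ⟨T, hTdef⟩ : ∃ T : Lin n, T = (h : ℂ) • A := ⟨_, rfl⟩
  rw [← hTdef] at hT hMsm hMh ⊢
  obtain ⟨Ω', hΩ'def⟩ : ∃ Ω', Ω' = {z | ellIn A h z Ω} := ⟨_, rfl⟩
  have hΩ'Ω : Ω' ⊆ Ω := by
    intro z hz
    rw [hΩ'def] at hz
    simpa using hz 0 (by simp)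
  rw [← hΩ'def] at hΩ' hMsm hMh
  obtain ⟨s, hs⟩ : ∃ s : ℝ, s = (aa n * h ^ 2)⁻¹ := ⟨_, rfl⟩
  obtain ⟨K, hKdef⟩ : ∃ K, K = tsupport η := ⟨_, rfl⟩
  have hK : IsCompact K := by rw [hKdef]; exact hηc
  have hKΩ' : K ⊆ Ω' := by
    intro z hz
    rw [hΩ'def]
    rw [hKdef] at hz
    exact hηs z hz
  have hη0 : ∀ z, z ∉ K → η z = 0 := fun z hz => by
    rw [hKdef] at hz
    exact image_eq_zero_of_notMem_tsupport hz
  have hdη0 : ∀ z, z ∉ K → fderiv ℝ η z = 0 := fun z hz => by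
    rw [hKdef] at hz
    have h1 : η =ᶠ[𝓝 z] fun _ => (0 : ℝ) := notMem_tsupport_iff_eventuallyEq.1 hz
    rw [h1.fderiv_eq]
    simp
  have hvA : ∀ z ∈ Ω', fderiv ℝ (vA A h u) z = s • fderiv ℝ (M T u) z + (-s) • fderiv ℝ u z := by
    intro z hz
    have h1 : DifferentiableAt ℝ (M T u) z := (hMsm.contDiffAt (hΩ'.mem_nhds hz)).differentiableAt (by norm_num)
    have h2 : DifferentiableAt ℝ u z := (hc1.contDiffAt (hΩ.mem_nhds (hΩ'Ω hz))).differentiableAt (by norm_num)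
    have h3 : vA A h u = fun z => s * M T u z + (-s) * u z := by
      funext y
      rw [vA, hs, hTdef]
      ring
    rw [h3, fderiv_fun_add (h1.const_mul s) (h2.const_mul (-s)), fderiv_const_mul h1, fderiv_const_mul h2]
  obtain ⟨δ, hδ, hδΩ⟩ := hK.exists_cthickening_subset_open hΩ (hKΩ'.trans hΩ'Ω)
  have hKb : ∀ ε, ε ≤ δ → ∀ z ∈ K, closedBall z ε ⊆ cthickening δ K := fun ε h1 z hz =>
    (closedBall_subset_closedBall h1).trans (closedBall_subset_cthickening hz δ)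
  have hKs : ∀ ε, ε ≤ δ → K ⊆ shr Ω ε := fun ε h1 z hz => (hKb ε h1 z hz).trans hδΩ
  have hPsm : ∀ ε, 0 < ε → ContDiffOn ℝ (⊤ : ℕ∞) (fun z => Phi u z ε) (shr Ω ε) := fun ε h0 =>
    contDiffOn_Phi_left hΩ hbh.int h0
  have hPh : ∀ ε, 0 < ε → ∀ z ∈ shr Ω ε, hess (fun y => Phi u y ε) z = MH (sc ε) H z := fun ε h0 z hz =>
    hbh.hess_Phi hΩ h0 hz
  have hPd : ∀ ε, 0 < ε → ∀ z ∈ shr Ω ε, HasFDerivAt (fun y => Phi u y ε)
      (∫ ζ : V n, rho ζ • fderiv ℝ u (z + (sc ε : Lin n) ζ)) z := fun ε h0 z hz =>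
    (fdM66 (isOpen_shr hΩ ε) hΩ hc1 (sc ε) (fun p hp => (mem_shr_iff h0.le).1 hp) hz).2
  have hW : ∀ ε, IsOpen (Ω' ∩ shr Ω ε) := fun ε => hΩ'.inter (isOpen_shr hΩ ε)
  have hKW : ∀ ε, ε ≤ δ → K ⊆ Ω' ∩ shr Ω ε := fun ε h1 z hz => ⟨hKΩ' hz, hKs ε h1 hz⟩
  have hvsm : ∀ ε, 0 < ε → ContDiffOn ℝ (⊤ : ℕ∞) (fun z => s * M T u z + (-s) * Phi u z ε) (Ω' ∩ shr Ω ε) :=
    fun ε h0 => (contDiffOn_const.mul (hMsm.mono inter_subset_left)).add
      (contDiffOn_const.mul ((hPsm ε h0).mono inter_subset_right))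
  have hvd : ∀ ε, 0 < ε → ∀ z ∈ Ω' ∩ shr Ω ε, fderiv ℝ (fun z => s * M T u z + (-s) * Phi u z ε) z
      = s • fderiv ℝ (M T u) z + (-s) • ∫ ζ : V n, rho ζ • fderiv ℝ u (z + (sc ε : Lin n) ζ) := by
    intro ε h0 z hz
    have h1 : DifferentiableAt ℝ (M T u) z := (hMsm.contDiffAt (hΩ'.mem_nhds hz.1)).differentiableAt (by norm_num)
    have h2 := hPd ε h0 z hz.2
    rw [fderiv_fun_add (h1.const_mul s) (h2.differentiableAt.const_mul (-s)), fderiv_const_mul h1,
      fderiv_const_mul h2.differentiableAt, h2.fderiv]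
  have hvh : ∀ ε, 0 < ε → ∀ z ∈ Ω' ∩ shr Ω ε, hess (fun z => s * M T u z + (-s) * Phi u z ε) z
      = (s : ℂ) • MH T H z + ((-s : ℝ) : ℂ) • MH (sc ε) H z := by
    intro ε h0 z hz
    have h1 : ContDiffAt ℝ 2 (M T u) z := (hMsm.contDiffAt (hΩ'.mem_nhds hz.1)).of_le two_le66
    have h2 : ContDiffAt ℝ 2 (fun y => Phi u y ε) z :=
      ((hPsm ε h0).contDiffAt ((isOpen_shr hΩ ε).mem_nhds hz.2)).of_le two_le66
    rw [hess_add (contDiffAt_const.mul h1) (contDiffAt_const.mul h2), hess_const_mul s h1, hess_const_mul (-s) h2,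
      hMh z hz.1, hPh ε h0 z hz.2]
  -- the integrands
  set F : ℝ → V n → ℝ := fun ε z => η z * (s * pr (hess (fun y => Phi u y ε) z).adjugate
    (MH T H z - hess (fun y => Phi u y ε) z)) with hF
  set G : ℝ → V n → ℝ := fun ε z => qf (hess (fun y => Phi u y ε) z).adjugate
    (fderiv ℝ (fun z => s * M T u z + (-s) * Phi u z ε) z) (fderiv ℝ η z) with hG
  have hFG : ∀ ε, 0 < ε → ε ≤ δ → ∫ z in K, F ε z = -∫ z in K, G ε z := by
    intro ε h0 h1
    have h2 := ibp_smooth (hW ε) ((hPsm ε h0).mono inter_subset_right) (hvsm ε h0)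
      (fun z hz => by
        rw [hPh ε h0 z hz.2]
        exact posDef_MH66 hm hb hl.pd _ _) hη hηc (by rw [← hKdef]; exact hKW ε h1)
    have h3 : ∫ z in K, F ε z = ∫ z, η z * pr (hess (fun y => Phi u y ε) z).adjugate
        (hess (fun z => s * M T u z + (-s) * Phi u z ε) z) := by
      have h31 := setIntegral_eq_integral_of_forall_compl_eq_zero (μ := volume) (s := K)
        (f := fun z => η z * pr (hess (fun y => Phi u y ε) z).adjugate
          (hess (fun z => s * M T u z + (-s) * Phi u z ε) z)) fun z hz => by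
            show η z * _ = 0
            rw [hη0 z hz, zero_mul]
      rw [← h31]
      refine setIntegral_congr_fun hK.measurableSet fun z hz => ?_
      have h4 := hKW ε h1 hz
      show η z * (s * pr (hess (fun y => Phi u y ε) z).adjugate (MH T H z - hess (fun y => Phi u y ε) z)) = _
      rw [hvh ε h0 z h4, pr_smul66, hPh ε h0 z h4.2]
    have h5 : ∫ z in K, G ε z = ∫ z, G ε z :=
      setIntegral_eq_integral_of_forall_compl_eq_zero (s := K) fun z hz => by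
        show qf _ _ (fderiv ℝ η z) = 0
        rw [hdη0 z hz]
        simp [qf, dz]
    rw [h3, h5, h2]
  -- bounds
  obtain ⟨C1, hC1⟩ : ∃ C, ∀ y ∈ cthickening δ K, ‖fderiv ℝ u y‖ ≤ C :=
    hK.cthickening.exists_bound_of_continuousOn
      ((hc1.continuousOn_fderiv_of_isOpen hΩ le_rfl).mono hδΩ)
  obtain ⟨C2, hC2⟩ : ∃ C, ∀ y ∈ K, ‖fderiv ℝ (M T u) y‖ ≤ C :=
    hK.exists_bound_of_continuousOn
      ((hMsm.continuousOn_fderiv_of_isOpen hΩ' (by norm_num)).mono hKΩ')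
  obtain ⟨C3, hC3⟩ : ∃ C, ∀ y ∈ K, ‖fderiv ℝ η y‖ ≤ C :=
    hK.exists_bound_of_continuousOn (hη.continuous_fderiv one_ne_zero).continuousOn
  obtain ⟨C4, hC4⟩ : ∃ C, ∀ y ∈ K, ‖η y‖ ≤ C := hK.exists_bound_of_continuousOn hη.continuous.continuousOn
  have hev : ∀ᶠ ε in 𝓝[>] (0 : ℝ), 0 < ε ∧ ε ≤ δ := by
    filter_upwards [Ioo_mem_nhdsGT hδ] with ε hε
    exact ⟨hε.1, hε.2.le⟩
  have hcP : ∀ ε, 0 < ε → ε ≤ δ → ContinuousOn (fun z => hess (fun y => Phi u y ε) z) K := by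
    intro ε h0 h1
    refine continuousOn_pi.2 fun j => continuousOn_pi.2 fun k => ?_
    exact (continuousOn_hess (isOpen_shr hΩ ε) ((hPsm ε h0).of_le two_le66) j k).mono (hKs ε h1)
  have hcM : ContinuousOn (fun z => MH T H z) K := by
    have h1 : ContinuousOn (fun z => hess (M T u) z) K := continuousOn_pi.2 fun j => continuousOn_pi.2 fun k =>
      (continuousOn_hess hΩ' (hMsm.of_le two_le66) j k).mono hKΩ'
    exact h1.congr fun z hz => (hMh z (hKΩ' hz)).symm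
  have hae : ∀ᵐ z ∂(volume.restrict K), Tendsto (fun ε => hess (fun y => Phi u y ε) z) (𝓝[>] 0) (𝓝 (H z)) := by
    rw [ae_restrict_iff' hK.measurableSet]
    have h1 : ∀ᵐ z, ∀ j k, z ∈ Ω → Tendsto (fun ε => hess (fun y => Phi u y ε) z j k) (𝓝[>] 0) (𝓝 (H z j k)) :=
      ae_all_iff.2 fun j => ae_all_iff.2 fun k => hbh.ae_tendsto hΩ j k
    filter_upwards [h1] with z hz hzK
    exact tendsto_pi_nhds.2 fun j => tendsto_pi_nhds.2 fun k => hz j k (hΩ'Ω (hKΩ' hzK))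
  have hlimF : Tendsto (fun ε => ∫ z in K, F ε z) (𝓝[>] 0)
      (𝓝 (∫ z in K, η z * (s * pr (H z).adjugate (MH T H z - H z)))) := by
    refine dct66 (Φ := fun p : ℝ × Mat n × Mat n => p.1 * (s * pr p.2.1.adjugate p.2.2))
      (S := closedBall (0 : ℝ) C4 ×ˢ Bd66 n Λ ×ˢ Bd66 n (Λ + Λ))
      (f := fun ε z => (η z, hess (fun y => Phi u y ε) z, MH T H z - hess (fun y => Phi u y ε) z))
      (f0 := fun z => (η z, H z, MH T H z - H z))
      (continuous_fst.mul (continuous_const.mul (cont_pr66.comp continuous_snd)))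
      ((isCompact_closedBall _ _).prod ((compact_Bd66 Λ).prod (compact_Bd66 (Λ + Λ)))) hK ?_ ?_ ?_
    · filter_upwards [hev] with ε hε
      exact hη.continuous.continuousOn.prodMk ((hcP ε hε.1 hε.2).prodMk (hcM.sub (hcP ε hε.1 hε.2)))
    · filter_upwards [hev] with ε hε
      intro z hz
      refine ⟨mem_closedBall_zero_iff.2 (hC4 z hz), ?_, ?_⟩
      · show hess (fun y => Phi u y ε) z ∈ Bd66 n Λ
        rw [hPh ε hε.1 z (hKs ε hε.2 hz)]
        exact fun j k => norm_MH66 hb _ _ _ _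
      · show MH T H z - hess (fun y => Phi u y ε) z ∈ Bd66 n (Λ + Λ)
        rw [hPh ε hε.1 z (hKs ε hε.2 hz)]
        exact fun j k => (norm_sub_le _ _).trans (add_le_add (norm_MH66 hb _ _ _ _) (norm_MH66 hb _ _ _ _))
    · filter_upwards [hae] with z hz
      exact tendsto_const_nhds.prodMk_nhds (hz.prodMk_nhds (tendsto_const_nhds.sub hz))
  have hlimG : Tendsto (fun ε => ∫ z in K, G ε z) (𝓝[>] 0)
      (𝓝 (∫ z in K, qf (H z).adjugate (s • fderiv ℝ (M T u) z + (-s) • fderiv ℝ u z) (fderiv ℝ η z))) := by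
    refine dct66 (Φ := fun p : Mat n × (V n →L[ℝ] ℝ) × (V n →L[ℝ] ℝ) => qf p.1.adjugate p.2.1 p.2.2)
      (S := Bd66 n Λ ×ˢ (closedBall (0 : V n →L[ℝ] ℝ) (|s| * C2 + |s| * C1) ×ˢ closedBall (0 : V n →L[ℝ] ℝ) C3))
      (f := fun ε z => (hess (fun y => Phi u y ε) z, fderiv ℝ (fun z => s * M T u z + (-s) * Phi u z ε) z,
        fderiv ℝ η z))
      (f0 := fun z => (H z, s • fderiv ℝ (M T u) z + (-s) • fderiv ℝ u z, fderiv ℝ η z)) cont_qf66
      ((compact_Bd66 Λ).prod ((isCompact_closedBall _ _).prod (isCompact_closedBall _ _))) hK ?_ ?_ ?_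
    · filter_upwards [hev] with ε hε
      have h1 : ContinuousOn (fderiv ℝ (fun z => s * M T u z + (-s) * Phi u z ε)) K :=
        ((hvsm ε hε.1).continuousOn_fderiv_of_isOpen (hW ε) (by norm_num)).mono (hKW ε hε.2)
      exact (hcP ε hε.1 hε.2).prodMk (h1.prodMk (hη.continuous_fderiv one_ne_zero).continuousOn)
    · filter_upwards [hev] with ε hε
      intro z hz
      refine ⟨?_, ?_, mem_closedBall_zero_iff.2 (hC3 z hz)⟩
      · show hess (fun y => Phi u y ε) z ∈ Bd66 n Λ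
        rw [hPh ε hε.1 z (hKs ε hε.2 hz)]
        exact fun j k => norm_MH66 hb _ _ _ _
      · show fderiv ℝ (fun z => s * M T u z + (-s) * Phi u z ε) z ∈ _
        rw [mem_closedBall_zero_iff, hvd ε hε.1 z (hKW ε hε.2 hz)]
        refine (norm_add_le _ _).trans (add_le_add ?_ ?_)
        · rw [norm_smul, Real.norm_eq_abs]
          exact mul_le_mul_of_nonneg_left (hC2 z hz) (abs_nonneg _)
        · rw [norm_smul, Real.norm_eq_abs, abs_neg]
          refine mul_le_mul_of_nonneg_left (D_norm66 hC1 fun ζ hζ => hKb ε hε.2 z hz ?_) (abs_nonneg _)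
          rw [mem_closedBall, dist_eq_norm, add_sub_cancel_left, sc_apply, norm_smul, Complex.norm_real,
            Real.norm_of_nonneg hε.1.le]
          calc ε * ‖ζ‖ ≤ ε * 1 := mul_le_mul_of_nonneg_left hζ hε.1.le
            _ = ε := mul_one ε
    · filter_upwards [hae, ae_restrict_mem hK.measurableSet] with z hz hzK
      have h1 : Tendsto (fun ε => fderiv ℝ (fun z => s * M T u z + (-s) * Phi u z ε) z) (𝓝[>] 0)
          (𝓝 (s • fderiv ℝ (M T u) z + (-s) • fderiv ℝ u z)) := by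
        have h2 := D_tends66 hΩ hc1 (hΩ'Ω (hKΩ' hzK))
        refine Tendsto.congr' ?_ (tendsto_const_nhds.add (h2.const_smul (-s)))
        filter_upwards [hev] with ε hε
        exact (hvd ε hε.1 z (hKW ε hε.2 hzK)).symm
      exact hz.prodMk_nhds (h1.prodMk_nhds tendsto_const_nhds)
  have hfin : ∫ z in K, η z * (s * pr (H z).adjugate (MH T H z - H z))
      = -∫ z in K, qf (H z).adjugate (s • fderiv ℝ (M T u) z + (-s) • fderiv ℝ u z) (fderiv ℝ η z) := by
    refine tendsto_nhds_unique hlimF (hlimG.neg.congr' ?_)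
    filter_upwards [hev] with ε hε
    exact (hFG ε hε.1 hε.2).symm
  have hL : ∫ z, qf (H z).adjugate (fderiv ℝ (vA A h u) z) (fderiv ℝ η z)
      = ∫ z in K, qf (H z).adjugate (s • fderiv ℝ (M T u) z + (-s) • fderiv ℝ u z) (fderiv ℝ η z) := by
    rw [← setIntegral_eq_integral_of_forall_compl_eq_zero (s := K) fun z hz => by
      rw [hdη0 z hz]
      simp [qf, dz]]
    refine setIntegral_congr_fun hK.measurableSet fun z hz => ?_
    show qf _ (fderiv ℝ (vA A h u) z) _ = _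
    rw [hvA z (hKΩ' hz)]
  have hR : ∫ z, η z * (pr (H z).adjugate (MH T H z - H z) / (aa n * h ^ 2))
      = ∫ z in K, η z * (s * pr (H z).adjugate (MH T H z - H z)) := by
    rw [← setIntegral_eq_integral_of_forall_compl_eq_zero (s := K) fun z hz => by rw [hη0 z hz, zero_mul]]
    refine setIntegral_congr_fun hK.measurableSet fun z hz => ?_
    show η z * (_ / _) = _
    rw [hs]
    ring
  rw [hL, hR, hfin, neg_neg]

end Pool.Agent.Helper87.RG
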