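import Pool.Agent.Helper87.RG.D2
import Pool.Agent.Helper87.RG.R0
import Pool.Agent.Helper87.RG.R5a

/-!
# Project REG, block D8: from the right side to the means

`mean_bound1`. PROOF. For `0 ≤ r ≤ t`, `‖η‖ ≤ 1`: `‖x + rAη - x1‖ ≤ (1+N) t`, so `|M1 (rA) f x - a c0| = |∫ ρ₁(η)(f(x + rAη) - c0) dη| ≤ a C ((1+N)t)^s`. `r ↦ M1 (rA) f x` is continuous on `[0, t]` (dominated convergence; `f` is continuous on the closed ball), and `∫_0^t 2r dr = t²`.
`mean_bound2`. PROOF. Let `f̃ y = f y - c0 - l (y - x1)`, `B = A⁻¹`, `‖B e‖ ≤ N ‖e‖`, `0 < τ` with `τ ‖e‖ ≤ t`, `w_τ y = (w(y + τe) - w y)/τ`. The mean value identity at `x + τe` and at `x` gives `M (tA) w_τ x - w_τ x = ∫_0^t 2r (M1 (rA) f (x + τe) - M1 (rA) f x)/τ dr`,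
and `M1 (rA) f (x + τe) - M1 (rA) f x = a τ l(e) + D_r`, `D_r = M1 (rA) f̃ (x + τe) - M1 (rA) f̃ x` (`ρ₁` is even, `∫ ρ₁ = a`). CASE `τ N ‖e‖ ≤ r`: translation gives `D_r = ∫ (ρ₁(η - (τ/r) B e) - ρ₁(η)) f̃(x + rAη) dη`, the kernel is `≤ L (τ/r) N ‖e‖` (`rho1_lip`) and vanishes for `‖η‖ > 2`, `|f̃| ≤ C ((1+2N)t)^(1+s)` there: `|D_r|/τ ≤ C' C t^(1+s)/r`.
CASE `r < τ N ‖e‖`: `|D_r| ≤ 2 a C ((2+N)t)^(1+s)`, `1/τ ≤ N ‖e‖/r`: the same bound. So `|M (tA) w_τ x - w_τ x - a t² l(e)| ≤ ∫_0^t 2r · C' C t^(1+s)/r dr = 2 C' C t^(2+s)`. Let `τ → 0+`: `w_τ → fderiv w · e` uniformly on the compact ellipsoid (`w` is `C¹` on the ball), so `M (tA) w_τ x → M (tA) (fderiv w · e) x`.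
(All points `x + τe + rAη`, `‖η‖ ≤ 1`, and `x + rAη`, `‖η‖ ≤ 2`, are within `(2+2N) t < ρ` of `x1`.)
-/

set_option autoImplicit false

namespace Pool.Agent.Helper87.RG

open MeasureTheory Set Filter Topology Metric
open Helper29.AM

variable {n : ℕ}

private theorem ext61 {x1 : V n} {R : ℝ} {f : V n → ℝ} (hf : ContinuousOn f (closedBall x1 R)) :
    ∃ g : V n → ℝ, Continuous g ∧ ∀ y ∈ closedBall x1 R, g y = f y := by
  obtain ⟨g, hg⟩ := ContinuousMap.exists_restrict_eq (Y := ℝ) (isClosed_closedBall (x := x1) (ε := R))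
    ⟨(closedBall x1 R).domRestrict f, hf.domRestrict⟩
  refine ⟨g, g.continuous, fun y hy => ?_⟩
  exact congrArg (fun φ : C(closedBall x1 R, ℝ) => φ ⟨y, hy⟩) hg

private theorem T_apply61 (A : Lin n) (r : ℝ) (η : V n) : ((r : ℂ) • A) η = (r : ℂ) • A η := rfl

private theorem T_norm61 {A : Lin n} {N r : ℝ} (hA : ‖A‖ ≤ N) (hr : 0 ≤ r) (η : V n) :
    ‖((r : ℂ) • A) η‖ ≤ r * (N * ‖η‖) := by
  rw [T_apply61, norm_smul, Complex.norm_real, Real.norm_of_nonneg hr]
  exact mul_le_mul_of_nonneg_left ((A.le_opNorm η).trans (mul_le_mul_of_nonneg_right hA (norm_nonneg _))) hr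

private theorem cont_joint61 (A : Lin n) {g : V n → ℝ} (hg : Continuous g) (z : V n) :
    Continuous fun p : ℝ × V n => rho1 p.2 * g (z + ((p.1 : ℂ) • A) p.2) := by
  have h1 : Continuous fun p : ℝ × V n => z + ((p.1 : ℂ) • A) p.2 := by
    have h2 : Continuous fun p : ℝ × V n => (p.1 : ℂ) • A p.2 :=
      (Complex.continuous_ofReal.comp continuous_fst).smul (A.continuous.comp continuous_snd)
    exact continuous_const.add h2
  exact (rho1_contDiff.continuous.comp continuous_snd).mul (hg.comp h1)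

private theorem cont_M1_61 (A : Lin n) {g : V n → ℝ} (hg : Continuous g) (z : V n) :
    Continuous fun r : ℝ => M1 ((r : ℂ) • A) g z := by
  have h1 : (fun r : ℝ => M1 ((r : ℂ) • A) g z) = fun r : ℝ => ∫ η in closedBall (0 : V n) 1,
      rho1 η * g (z + ((r : ℂ) • A) η) := by
    funext r
    unfold M1
    refine (setIntegral_eq_integral_of_forall_compl_eq_zero fun η hη => ?_).symm
    rw [mem_closedBall_zero_iff, not_le] at hη
    rw [rho1_eq_zero hη.le, zero_mul]
  rw [h1]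
  exact continuous_parametric_integral_of_continuous (f := fun (r : ℝ) (η : V n) => rho1 η * g (z + ((r : ℂ) • A) η))
    (cont_joint61 A hg z) (isCompact_closedBall _ _)

private theorem int_rho61 {g : V n → ℝ} (hg : Continuous g) : Integrable fun η => rho1 η * g η :=
  (rho1_contDiff.continuous.mul hg).integrable_of_hasCompactSupport
    (rho1_hasCompactSupport.mul_right)

private theorem int_two61 (t : ℝ) : ∫ r in (0 : ℝ)..t, 2 * r = t ^ 2 := by
  rw [intervalIntegral.integral_const_mul, integral_id]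
  ring

theorem mean_bound1 {s N C c0 : ℝ} (hs : 0 < s) (hN : 0 ≤ N) (hC : 0 ≤ C) {A : Lin n} (hA : ‖A‖ ≤ N) {f w : V n → ℝ} {x1 x : V n}
    {t : ℝ} (ht : 0 < t) (hx : ‖x - x1‖ ≤ t) (hf : ContinuousOn f (closedBall x1 ((1 + N) * t)))
    (hb : ∀ y : V n, ‖y - x1‖ ≤ (1 + N) * t → |f y - c0| ≤ C * ‖y - x1‖ ^ s)
    (hm : M ((t : ℂ) • A) w x - w x = ∫ r in (0 : ℝ)..t, 2 * r * M1 ((r : ℂ) • A) f x) :
    |M ((t : ℂ) • A) w x - w x - t ^ 2 * (aa n * c0)| ≤ aa n * C * (1 + N) ^ s * t ^ (2 + s) := by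
  obtain ⟨g, hg, hgf⟩ := ext61 hf
  have hell : ∀ r ∈ Icc (0 : ℝ) t, ∀ η : V n, ‖η‖ ≤ 1 → ‖x + ((r : ℂ) • A) η - x1‖ ≤ (1 + N) * t := by
    intro r hr η hη
    have h1 : x + ((r : ℂ) • A) η - x1 = (x - x1) + ((r : ℂ) • A) η := by abel
    have h2 := T_norm61 hA hr.1 η
    have h3 : r * (N * ‖η‖) ≤ t * (N * 1) :=
      mul_le_mul hr.2 (mul_le_mul_of_nonneg_left hη hN) (by positivity) ht.le
    rw [h1]
    refine (norm_add_le _ _).trans ?_
    linarith
  have hfg : ∀ r ∈ Icc (0 : ℝ) t, M1 ((r : ℂ) • A) f x = M1 ((r : ℂ) • A) g x := by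
    intro r hr
    refine M1_congr fun η hη => ?_
    refine (hgf _ ?_).symm
    rw [mem_closedBall, dist_eq_norm]
    exact hell r hr η hη.le
  set K := C * ((1 + N) * t) ^ s with hK
  have hbd : ∀ r ∈ Icc (0 : ℝ) t, |M1 ((r : ℂ) • A) g x - aa n * c0| ≤ aa n * K := by
    intro r hr
    have hc1 : Continuous fun η => g (x + ((r : ℂ) • A) η) := by fun_prop
    have h1 : M1 ((r : ℂ) • A) g x - aa n * c0 = ∫ η : V n, rho1 η * (g (x + ((r : ℂ) • A) η) - c0) := by
      have h2 : (fun η : V n => rho1 η * (g (x + ((r : ℂ) • A) η) - c0)) =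
          fun η => rho1 η * g (x + ((r : ℂ) • A) η) - rho1 η * c0 := by
        funext η
        ring
      rw [h2, integral_sub (int_rho61 hc1) (rho1_integrable.mul_const c0), integral_mul_const]
      rfl
    have h3 : aa n * K = ∫ η : V n, rho1 η * K := by
      rw [integral_mul_const]
      rfl
    rw [h1, h3, ← Real.norm_eq_abs]
    refine norm_integral_le_of_norm_le (rho1_integrable.mul_const K) (Eventually.of_forall fun η => ?_)
    rcases le_or_gt 1 ‖η‖ with hη | hη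
    · rw [rho1_eq_zero hη, zero_mul, zero_mul, norm_zero]
    · rw [norm_mul, Real.norm_of_nonneg (rho1_nonneg η)]
      refine mul_le_mul_of_nonneg_left ?_ (rho1_nonneg η)
      have h4 := hell r hr η hη.le
      have h5 := hb _ h4
      rw [hgf _ (by rw [mem_closedBall, dist_eq_norm]; exact h4), Real.norm_eq_abs]
      refine h5.trans ?_
      exact mul_le_mul_of_nonneg_left (Real.rpow_le_rpow (norm_nonneg _) h4 hs.le) hC
  have hcg := cont_M1_61 A hg x
  have e1 : (∫ r in (0 : ℝ)..t, 2 * r * M1 ((r : ℂ) • A) f x) = ∫ r in (0 : ℝ)..t, 2 * r * M1 ((r : ℂ) • A) g x := by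
    refine intervalIntegral.integral_congr fun r hr => ?_
    rw [uIcc_of_le ht.le] at hr
    simp only [hfg r hr]
  have e2 : M ((t : ℂ) • A) w x - w x - t ^ 2 * (aa n * c0) =
      ∫ r in (0 : ℝ)..t, 2 * r * (M1 ((r : ℂ) • A) g x - aa n * c0) := by
    have h2 : (fun r : ℝ => 2 * r * (M1 ((r : ℂ) • A) g x - aa n * c0)) =
        fun r : ℝ => 2 * r * M1 ((r : ℂ) • A) g x - 2 * r * (aa n * c0) := by
      funext r
      ring
    rw [hm, e1, h2, intervalIntegral.integral_sub, intervalIntegral.integral_mul_const, int_two61]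
    · exact ((continuous_const.mul continuous_id).mul hcg).intervalIntegrable _ _
    · exact (by fun_prop : Continuous fun r : ℝ => 2 * r * (aa n * c0)).intervalIntegrable _ _
  have e3 : |∫ r in (0 : ℝ)..t, 2 * r * (M1 ((r : ℂ) • A) g x - aa n * c0)| ≤ ∫ r in (0 : ℝ)..t, 2 * r * (aa n * K) := by
    rw [← Real.norm_eq_abs]
    refine intervalIntegral.norm_integral_le_of_norm_le ht.le ?_
      ((by fun_prop : Continuous fun r : ℝ => 2 * r * (aa n * K)).intervalIntegrable _ _)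
    refine Eventually.of_forall fun r hr => ?_
    rw [norm_mul, Real.norm_of_nonneg (by linarith [hr.1] : (0 : ℝ) ≤ 2 * r), Real.norm_eq_abs]
    exact mul_le_mul_of_nonneg_left (hbd r ⟨hr.1.le, hr.2⟩) (by linarith [hr.1])
  rw [e2]
  refine e3.trans (le_of_eq ?_)
  rw [intervalIntegral.integral_mul_const, int_two61, hK, Real.mul_rpow (by linarith) ht.le, Real.rpow_add ht,
    Real.rpow_two]
  ring

private theorem line61 {F : V n → ℝ} {x : V n} (hF : DifferentiableAt ℝ F x) (e : V n) :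
    Tendsto (fun τ : ℝ => (F (x + τ • e) - F x) / τ) (𝓝[>] 0) (𝓝 (fderiv ℝ F x e)) := by
  have h1 : HasDerivAt (fun τ : ℝ => F (x + τ • e)) (fderiv ℝ F x e) 0 :=
    (hF.hasFDerivAt.hasLineDerivAt e)
  rw [hasDerivAt_iff_tendsto_slope_zero] at h1
  have h2 := h1.mono_left (nhdsGT_le_nhdsNE (0 : ℝ))
  refine h2.congr fun τ => ?_
  rw [zero_add, zero_smul, add_zero, smul_eq_mul]
  ring

/-- the bound for the difference of the means at `x + τ e` and `x` -/
private theorem D_bound61 {s N L : ℝ} (hs : 0 < s) (hN : 1 ≤ N) (hL : 0 ≤ L)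
    (hlip : ∀ η y : V n, |rho1 (η + y) - rho1 η| ≤ L * ‖y‖) {A : Lin n} (hA : ‖A‖ ≤ N) {C t : ℝ} (hC : 0 ≤ C) (ht : 0 < t)
    {x1 x : V n} (hx : ‖x - x1‖ ≤ t) {G : V n → ℝ} (hG : Continuous G)
    (hb : ∀ y : V n, ‖y - x1‖ ≤ (2 + 2 * N) * t → |G y| ≤ C * ‖y - x1‖ ^ (1 + s)) {e v0 : V n} (hv : A v0 = e)
    (hv' : ‖v0‖ ≤ N * ‖e‖) {τ r : ℝ} (hτ : 0 < τ) (hτt : τ * ‖e‖ ≤ t) (hr : 0 < r) (hrt : r ≤ t) :
    |2 * r * (M1 ((r : ℂ) • A) G (x + τ • e) - M1 ((r : ℂ) • A) G x)| ≤
      τ * (2 * (L * N * ‖e‖ * (1 + 2 * N) ^ (1 + s) * volume.real (closedBall (0 : V n) 2) +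
        2 * aa n * N * ‖e‖ * (2 + N) ^ (1 + s)) * C * t ^ (1 + s)) := by
  set T : Lin n := (r : ℂ) • A with hT
  have hs1 : 0 ≤ 1 + s := by linarith
  have hvol : 0 ≤ volume.real (closedBall (0 : V n) 2) := measureReal_nonneg
  have haa := aa_pos (n := n)
  have he := norm_nonneg e
  have hTn : ∀ η : V n, ‖T η‖ ≤ r * (N * ‖η‖) := T_norm61 hA hr.le
  have hE1 : 0 ≤ L * N * ‖e‖ * (1 + 2 * N) ^ (1 + s) * volume.real (closedBall (0 : V n) 2) * C * t ^ (1 + s) := by
    have : 0 ≤ (1 + 2 * N) ^ (1 + s) := Real.rpow_nonneg (by linarith) _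
    have h2 : 0 ≤ t ^ (1 + s) := Real.rpow_nonneg ht.le _
    positivity
  have hE2 : 0 ≤ 2 * aa n * N * ‖e‖ * (2 + N) ^ (1 + s) * C * t ^ (1 + s) := by
    have : 0 ≤ (2 + N) ^ (1 + s) := Real.rpow_nonneg (by linarith) _
    have h2 : 0 ≤ t ^ (1 + s) := Real.rpow_nonneg ht.le _
    positivity
  rcases le_or_gt (τ / r * ‖v0‖) 1 with hcase | hcase
  · -- the translation
    set a : V n := (τ / r) • v0 with ha
    have han : ‖a‖ = τ / r * ‖v0‖ := by
      rw [ha, norm_smul, Real.norm_of_nonneg (by positivity)]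
    have hTa : T a = τ • e := by
      have h1 : a = ((τ / r : ℝ) : ℂ) • v0 := by rw [ha, Complex.coe_smul]
      rw [hT, T_apply61, h1, map_smul, hv, smul_smul, ← Complex.ofReal_mul, Complex.coe_smul]
      congr 1
      field_simp
    have h1 : M1 T G (x + τ • e) = ∫ η : V n, rho1 (η - a) * G (x + T η) := by
      have h2 := integral_sub_right_eq_self (μ := (volume : Measure (V n))) (fun η => rho1 η * G (x + T (η + a))) a
      have h3 : (fun η : V n => rho1 (η - a) * G (x + T (η - a + a))) = fun η => rho1 (η - a) * G (x + T η) := by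
        funext η
        rw [sub_add_cancel]
      rw [h3] at h2
      rw [h2]
      unfold M1
      refine integral_congr_ae (Eventually.of_forall fun η => ?_)
      show rho1 η * G (x + τ • e + T η) = rho1 η * G (x + T (η + a))
      rw [map_add, hTa]
      congr 2
      abel
    have hcG : Continuous fun η => G (x + T η) := by fun_prop
    have hi1 : Integrable fun η : V n => rho1 (η - a) * G (x + T η) := by
      refine Continuous.integrable_of_hasCompactSupport ?_ ?_
      · exact (rho1_contDiff.continuous.comp (continuous_id.sub continuous_const)).mul hcG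
      · refine HasCompactSupport.mul_right ?_
        exact rho1_hasCompactSupport.comp_homeomorph (Homeomorph.subRight a)
    have h2 : M1 T G (x + τ • e) - M1 T G x = ∫ η in closedBall (0 : V n) 2, (rho1 (η - a) - rho1 η) * G (x + T η) := by
      have h3 : M1 T G (x + τ • e) - M1 T G x = ∫ η : V n, (rho1 (η - a) - rho1 η) * G (x + T η) := by
        have h4 : (fun η : V n => (rho1 (η - a) - rho1 η) * G (x + T η)) =
            fun η => rho1 (η - a) * G (x + T η) - rho1 η * G (x + T η) := by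
          funext η
          ring
        rw [h4, integral_sub hi1 (int_rho61 hcG), h1]
        rfl
      rw [h3]
      refine (setIntegral_eq_integral_of_forall_compl_eq_zero fun η hη => ?_).symm
      rw [mem_closedBall_zero_iff, not_le] at hη
      have h5 : 1 ≤ ‖η - a‖ := by
        have h6 := norm_sub_norm_le η a
        rw [han] at h6
        linarith
      rw [rho1_eq_zero h5, rho1_eq_zero (by linarith : (1 : ℝ) ≤ ‖η‖), sub_zero, zero_mul]
    have h3 : |M1 T G (x + τ • e) - M1 T G x| ≤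
        (L * (τ / r * (N * ‖e‖)) * (C * ((1 + 2 * N) * t) ^ (1 + s))) * volume.real (closedBall (0 : V n) 2) := by
      rw [h2, ← Real.norm_eq_abs]
      refine norm_setIntegral_le_of_norm_le_const measure_closedBall_lt_top fun η hη => ?_
      rw [mem_closedBall_zero_iff] at hη
      rw [norm_mul, Real.norm_eq_abs, Real.norm_eq_abs]
      have h4 : |rho1 (η - a) - rho1 η| ≤ L * (τ / r * (N * ‖e‖)) := by
        have h5 := hlip η (-a)
        rw [norm_neg, han, ← sub_eq_add_neg] at h5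
        refine h5.trans (mul_le_mul_of_nonneg_left ?_ hL)
        exact mul_le_mul_of_nonneg_left hv' (by positivity)
      have h6 : ‖x + T η - x1‖ ≤ (1 + 2 * N) * t := by
        have h7 : x + T η - x1 = (x - x1) + T η := by abel
        have h8 : r * (N * ‖η‖) ≤ t * (N * 2) :=
          mul_le_mul hrt (mul_le_mul_of_nonneg_left hη (by linarith)) (by positivity) ht.le
        rw [h7]
        refine (norm_add_le _ _).trans ?_
        linarith [hTn η]
      have h9 : |G (x + T η)| ≤ C * ((1 + 2 * N) * t) ^ (1 + s) := by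
        refine (hb _ (h6.trans (by nlinarith))).trans ?_
        exact mul_le_mul_of_nonneg_left (Real.rpow_le_rpow (norm_nonneg _) h6 hs1) hC
      exact mul_le_mul h4 h9 (abs_nonneg _) (by positivity)
    rw [abs_mul, abs_of_nonneg (by linarith : (0 : ℝ) ≤ 2 * r)]
    refine (mul_le_mul_of_nonneg_left h3 (by linarith)).trans ?_
    have h10 : 2 * r * ((L * (τ / r * (N * ‖e‖)) * (C * ((1 + 2 * N) * t) ^ (1 + s))) * volume.real (closedBall (0 : V n) 2)) =
        τ * (2 * (L * N * ‖e‖ * (1 + 2 * N) ^ (1 + s) * volume.real (closedBall (0 : V n) 2) * C * t ^ (1 + s))) := by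
      rw [Real.mul_rpow (by linarith) ht.le]
      field_simp
    rw [h10]
    refine mul_le_mul_of_nonneg_left ?_ hτ.le
    nlinarith
  · -- small `r`
    have hr2 : r < τ * (N * ‖e‖) := by
      have h1 : r < τ * ‖v0‖ := by
        rw [div_mul_eq_mul_div, lt_div_iff₀ hr, one_mul] at hcase
        exact hcase
      exact h1.trans_le (mul_le_mul_of_nonneg_left hv' hτ.le)
    have hpt : ∀ z : V n, ‖z - x1‖ ≤ 2 * t → |M1 T G z| ≤ aa n * (C * ((2 + N) * t) ^ (1 + s)) := by
      intro z hz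
      have h3 : aa n * (C * ((2 + N) * t) ^ (1 + s)) = ∫ η : V n, rho1 η * (C * ((2 + N) * t) ^ (1 + s)) := by
        rw [integral_mul_const]
        rfl
      rw [h3, ← Real.norm_eq_abs]
      refine norm_integral_le_of_norm_le (rho1_integrable.mul_const _) (Eventually.of_forall fun η => ?_)
      rcases le_or_gt 1 ‖η‖ with hη | hη
      · rw [rho1_eq_zero hη, zero_mul, zero_mul, norm_zero]
      · rw [norm_mul, Real.norm_of_nonneg (rho1_nonneg η)]
        refine mul_le_mul_of_nonneg_left ?_ (rho1_nonneg η)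
        have h6 : ‖z + T η - x1‖ ≤ (2 + N) * t := by
          have h7 : z + T η - x1 = (z - x1) + T η := by abel
          have h8 : r * (N * ‖η‖) ≤ t * (N * 1) :=
            mul_le_mul hrt (mul_le_mul_of_nonneg_left hη.le (by linarith)) (by positivity) ht.le
          rw [h7]
          refine (norm_add_le _ _).trans ?_
          linarith [hTn η]
        rw [Real.norm_eq_abs]
        refine (hb _ (h6.trans (by nlinarith))).trans ?_
        exact mul_le_mul_of_nonneg_left (Real.rpow_le_rpow (norm_nonneg _) h6 hs1) hC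
    have h1 : ‖x + τ • e - x1‖ ≤ 2 * t := by
      have h7 : x + τ • e - x1 = (x - x1) + τ • e := by abel
      rw [h7]
      refine (norm_add_le _ _).trans ?_
      rw [norm_smul, Real.norm_of_nonneg hτ.le]
      linarith
    have h2 := hpt _ h1
    have h3 := hpt x (by linarith)
    have h4 : |M1 T G (x + τ • e) - M1 T G x| ≤ 2 * (aa n * (C * ((2 + N) * t) ^ (1 + s))) := by
      have := abs_sub (M1 T G (x + τ • e)) (M1 T G x)
      linarith
    rw [abs_mul, abs_of_nonneg (by linarith : (0 : ℝ) ≤ 2 * r)]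
    have h5 : 0 ≤ 2 * (aa n * (C * ((2 + N) * t) ^ (1 + s))) := (abs_nonneg _).trans h4
    refine (mul_le_mul (by linarith : 2 * r ≤ 2 * (τ * (N * ‖e‖))) h4 (abs_nonneg _) (by positivity)).trans ?_
    have h10 : 2 * (τ * (N * ‖e‖)) * (2 * (aa n * (C * ((2 + N) * t) ^ (1 + s)))) =
        τ * (2 * (2 * aa n * N * ‖e‖ * (2 + N) ^ (1 + s) * C * t ^ (1 + s))) := by
      rw [Real.mul_rpow (by linarith) ht.le]
      ring
    rw [h10]
    refine mul_le_mul_of_nonneg_left ?_ hτ.le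
    nlinarith

theorem mean_bound2 {s N : ℝ} (hs : 0 < s) (hN : 1 ≤ N) (e : V n) : ∃ C1 : ℝ, 0 ≤ C1 ∧
    ∀ (A : Lin n) (f w : V n → ℝ) (x1 : V n) (c0 C ρ : ℝ) (l : V n →L[ℝ] ℝ), A.det ≠ 0 → ‖A‖ ≤ N → (∀ v, ‖v‖ ≤ N * ‖A v‖) →
      0 ≤ C → 0 < ρ → ContDiffOn ℝ 1 w (ball x1 ρ) → ContinuousOn f (ball x1 ρ) →
      (∀ y ∈ ball x1 ρ, |f y - c0 - l (y - x1)| ≤ C * ‖y - x1‖ ^ (1 + s)) →
      (∀ (x : V n) (t : ℝ), 0 ≤ t → ellIn A t x (ball x1 ρ) →
        M ((t : ℂ) • A) w x - w x = ∫ r in (0 : ℝ)..t, 2 * r * M1 ((r : ℂ) • A) f x) →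
      ∀ t : ℝ, 0 < t → (2 + 2 * N) * t < ρ → ∀ x : V n, ‖x - x1‖ ≤ t →
        |M ((t : ℂ) • A) (fun y => fderiv ℝ w y e) x - fderiv ℝ w x e - t ^ 2 * (aa n * l e)| ≤ C1 * C * t ^ (2 + s) := by
  obtain ⟨L, hL, hlip⟩ := rho1_lip (n := n)
  have haa := aa_pos (n := n)
  have he := norm_nonneg e
  have hvol : 0 ≤ volume.real (closedBall (0 : V n) 2) := measureReal_nonneg
  refine ⟨2 * (L * N * ‖e‖ * (1 + 2 * N) ^ (1 + s) * volume.real (closedBall (0 : V n) 2) +
        2 * aa n * N * ‖e‖ * (2 + N) ^ (1 + s)), ?_, ?_⟩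
  · have h1 : 0 ≤ (1 + 2 * N) ^ (1 + s) := Real.rpow_nonneg (by linarith) _
    have h2 : 0 ≤ (2 + N) ^ (1 + s) := Real.rpow_nonneg (by linarith) _
    positivity
  intro A f w x1 c0 C ρ l hdet hA hA' hC hρ hw hf hb hm t ht htρ x hx
  set K1 := 2 * (L * N * ‖e‖ * (1 + 2 * N) ^ (1 + s) * volume.real (closedBall (0 : V n) 2) +
        2 * aa n * N * ‖e‖ * (2 + N) ^ (1 + s)) with hK1
  have hN0 : 0 ≤ N := by linarith
  -- the vector `A⁻¹ e`
  obtain ⟨v0, hv0⟩ : ∃ v0, A v0 = e := by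
    refine ⟨(ContinuousLinearMap.toContinuousLinearEquivOfDetNeZero A hdet).symm e, ?_⟩
    exact (ContinuousLinearMap.toContinuousLinearEquivOfDetNeZero A hdet).apply_symm_apply e
  have hv0' : ‖v0‖ ≤ N * ‖e‖ := by
    have := hA' v0
    rwa [hv0] at this
  -- the continuous extension
  have hsub : closedBall x1 ((2 + 2 * N) * t) ⊆ ball x1 ρ := closedBall_subset_ball htρ
  obtain ⟨g, hg, hgf⟩ := ext61 (hf.mono hsub)
  set G : V n → ℝ := fun y => g y - c0 - l (y - x1) with hGdef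
  have hG : Continuous G := by fun_prop
  have hGb : ∀ y : V n, ‖y - x1‖ ≤ (2 + 2 * N) * t → |G y| ≤ C * ‖y - x1‖ ^ (1 + s) := by
    intro y hy
    have hy' : y ∈ closedBall x1 ((2 + 2 * N) * t) := by
      rw [mem_closedBall, dist_eq_norm]
      exact hy
    have h1 := hb y (hsub hy')
    rw [hGdef]
    simp only
    rw [hgf y hy']
    exact h1
  have hell : ∀ z : V n, ‖z - x1‖ ≤ 2 * t → ∀ r : ℝ, 0 ≤ r → r ≤ t → ∀ η : V n, ‖η‖ ≤ 1 →
      ‖z + ((r : ℂ) • A) η - x1‖ ≤ (2 + 2 * N) * t := by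
    intro z hz r hr hrt η hη
    have h1 : z + ((r : ℂ) • A) η - x1 = (z - x1) + ((r : ℂ) • A) η := by abel
    have h2 := T_norm61 hA hr η
    have h3 : r * (N * ‖η‖) ≤ t * (N * 1) :=
      mul_le_mul hrt (mul_le_mul_of_nonneg_left hη hN0) (by positivity) ht.le
    rw [h1]
    refine (norm_add_le _ _).trans ?_
    nlinarith
  have hfg : ∀ z : V n, ‖z - x1‖ ≤ 2 * t → (∫ r in (0 : ℝ)..t, 2 * r * M1 ((r : ℂ) • A) f z) =
      ∫ r in (0 : ℝ)..t, 2 * r * M1 ((r : ℂ) • A) g z := by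
    intro z hz
    refine intervalIntegral.integral_congr fun r hr => ?_
    rw [uIcc_of_le ht.le] at hr
    congr 1
    refine M1_congr fun η hη => (hgf _ ?_).symm
    rw [mem_closedBall, dist_eq_norm]
    exact hell z hz r hr.1 hr.2 η hη.le
  have hmz : ∀ z : V n, ‖z - x1‖ ≤ 2 * t → M ((t : ℂ) • A) w z - w z =
      ∫ r in (0 : ℝ)..t, 2 * r * M1 ((r : ℂ) • A) g z := by
    intro z hz
    rw [← hfg z hz]
    refine hm z t ht.le fun η hη => ?_
    rw [mem_ball, dist_eq_norm]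
    exact (hell z hz t ht.le le_rfl η hη).trans_lt htρ
  -- the estimate for small `τ > 0`
  have hest : ∀ τ : ℝ, 0 < τ → τ * ‖e‖ ≤ t →
      |(M ((t : ℂ) • A) w (x + τ • e) - M ((t : ℂ) • A) w x) / τ - (w (x + τ • e) - w x) / τ - t ^ 2 * (aa n * l e)| ≤
        K1 * C * t ^ (2 + s) := by
    intro τ hτ hτt
    have hz : ‖x + τ • e - x1‖ ≤ 2 * t := by
      have h7 : x + τ • e - x1 = (x - x1) + τ • e := by abel
      rw [h7]
      refine (norm_add_le _ _).trans ?_
      rw [norm_smul, Real.norm_of_nonneg hτ.le]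
      linarith
    have h1 := hmz _ hz
    have h2 := hmz x (by linarith)
    have hdiff : ∀ r : ℝ, M1 ((r : ℂ) • A) g (x + τ • e) - M1 ((r : ℂ) • A) g x - aa n * (τ * l e) =
        M1 ((r : ℂ) • A) G (x + τ • e) - M1 ((r : ℂ) • A) G x := by
      intro r
      set T : Lin n := (r : ℂ) • A with hT
      have i1 : Integrable fun η : V n => rho1 η * g (x + τ • e + T η) := int_rho61 (by fun_prop)
      have i2 : Integrable fun η : V n => rho1 η * g (x + T η) := int_rho61 (by fun_prop)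
      have i3 : Integrable fun η : V n => rho1 η * G (x + τ • e + T η) := int_rho61 (by fun_prop)
      have i4 : Integrable fun η : V n => rho1 η * G (x + T η) := int_rho61 (by fun_prop)
      have i5 : Integrable fun η : V n => rho1 η * g (x + τ • e + T η) - rho1 η * g (x + T η) := i1.sub i2
      have e1 : M1 T g (x + τ • e) - M1 T g x - aa n * (τ * l e) =
          ∫ η : V n, (rho1 η * g (x + τ • e + T η) - rho1 η * g (x + T η) - rho1 η * (τ * l e)) := by
        rw [integral_sub i5 (rho1_integrable.mul_const _), integral_sub i1 i2, integral_mul_const]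
        rfl
      have e2 : M1 T G (x + τ • e) - M1 T G x =
          ∫ η : V n, (rho1 η * G (x + τ • e + T η) - rho1 η * G (x + T η)) := by
        rw [integral_sub i3 i4]
        rfl
      rw [e1, e2]
      refine integral_congr_ae (Eventually.of_forall fun η => ?_)
      simp only [hGdef]
      have h3 : x + τ • e + T η - x1 = (x + T η - x1) + τ • e := by abel
      rw [h3, map_add l, map_smul, smul_eq_mul]
      ring
    have c1 := cont_M1_61 A hg (x + τ • e)
    have c2 := cont_M1_61 A hg x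
    have e1 : (M ((t : ℂ) • A) w (x + τ • e) - M ((t : ℂ) • A) w x) - (w (x + τ • e) - w x) - τ * (t ^ 2 * (aa n * l e)) =
        ∫ r in (0 : ℝ)..t, 2 * r * (M1 ((r : ℂ) • A) G (x + τ • e) - M1 ((r : ℂ) • A) G x) := by
      have h3 : (fun r : ℝ => 2 * r * (M1 ((r : ℂ) • A) G (x + τ • e) - M1 ((r : ℂ) • A) G x)) =
          fun r : ℝ => (2 * r * M1 ((r : ℂ) • A) g (x + τ • e) - 2 * r * M1 ((r : ℂ) • A) g x) - 2 * r * (aa n * (τ * l e)) := by
        funext r
        rw [← hdiff r]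
        ring
      have j1 : IntervalIntegrable (fun r : ℝ => 2 * r * M1 ((r : ℂ) • A) g (x + τ • e)) volume 0 t :=
        ((continuous_const.mul continuous_id).mul c1).intervalIntegrable _ _
      have j2 : IntervalIntegrable (fun r : ℝ => 2 * r * M1 ((r : ℂ) • A) g x) volume 0 t :=
        ((continuous_const.mul continuous_id).mul c2).intervalIntegrable _ _
      have j3 : IntervalIntegrable (fun r : ℝ => 2 * r * (aa n * (τ * l e))) volume 0 t :=
        (by fun_prop : Continuous fun r : ℝ => 2 * r * (aa n * (τ * l e))).intervalIntegrable _ _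
      rw [h3, intervalIntegral.integral_sub (j1.sub j2) j3, intervalIntegral.integral_sub j1 j2, ← h1, ← h2,
        intervalIntegral.integral_mul_const, int_two61]
      ring
    have e2 : |∫ r in (0 : ℝ)..t, 2 * r * (M1 ((r : ℂ) • A) G (x + τ • e) - M1 ((r : ℂ) • A) G x)| ≤
        (τ * (K1 * C * t ^ (1 + s))) * |t - 0| := by
      rw [← Real.norm_eq_abs]
      refine intervalIntegral.norm_integral_le_of_norm_le_const fun r hr => ?_
      rw [uIoc_of_le ht.le] at hr
      rw [Real.norm_eq_abs]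
      exact D_bound61 hs hN hL hlip hA hC ht hx hG hGb hv0 hv0' hτ hτt hr.1 hr.2
    have e3 : (M ((t : ℂ) • A) w (x + τ • e) - M ((t : ℂ) • A) w x) / τ - (w (x + τ • e) - w x) / τ - t ^ 2 * (aa n * l e) =
        τ⁻¹ * ((M ((t : ℂ) • A) w (x + τ • e) - M ((t : ℂ) • A) w x) - (w (x + τ • e) - w x) - τ * (t ^ 2 * (aa n * l e))) := by
      field_simp
    rw [e3, e1, abs_mul, abs_of_pos (inv_pos.2 hτ)]
    refine (mul_le_mul_of_nonneg_left e2 (inv_pos.2 hτ).le).trans (le_of_eq ?_)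
    have h4 : t ^ (2 + s) = t ^ (1 + s) * t := by
      rw [← Real.rpow_add_one ht.ne']
      congr 1
      ring
    rw [sub_zero, abs_of_pos ht, h4]
    field_simp
  -- the limit
  have hxell : ellIn A t x (ball x1 ρ) := by
    intro η hη
    rw [mem_ball, dist_eq_norm]
    exact (hell x (by linarith) t ht.le le_rfl η hη).trans_lt htρ
  have hxb : x ∈ ball x1 ρ := by
    rw [mem_ball, dist_eq_norm]
    nlinarith
  have l1 : Tendsto (fun τ : ℝ => (M ((t : ℂ) • A) w (x + τ • e) - M ((t : ℂ) • A) w x) / τ) (𝓝[>] 0)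
      (𝓝 (M ((t : ℂ) • A) (fun y => fderiv ℝ w y e) x)) := by
    have h1 : ContDiffOn ℝ 1 (M ((t : ℂ) • A) w) {z | ellIn A t z (ball x1 ρ)} :=
      contDiffOn_M_of_contDiffOn (k := 1) ((t : ℂ) • A) isOpen_ball hw
    have h2 : DifferentiableAt ℝ (M ((t : ℂ) • A) w) x :=
      (h1.contDiffAt ((isOpen_ellIn A t isOpen_ball).mem_nhds hxell)).differentiableAt (by norm_num)
    have h3 := line61 h2 e
    rw [fderiv_M isOpen_ball hw A hxell e] at h3
    exact h3
  have l2 : Tendsto (fun τ : ℝ => (w (x + τ • e) - w x) / τ) (𝓝[>] 0) (𝓝 (fderiv ℝ w x e)) :=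
    line61 ((hw.contDiffAt (isOpen_ball.mem_nhds hxb)).differentiableAt (by norm_num)) e
  have l3 := ((l1.sub l2).sub_const (t ^ 2 * (aa n * l e))).abs
  refine le_of_tendsto l3 ?_
  have hev : ∀ᶠ τ : ℝ in 𝓝[>] 0, τ < t / (‖e‖ + 1) :=
    (gt_mem_nhds (by positivity : (0 : ℝ) < t / (‖e‖ + 1))).filter_mono nhdsWithin_le_nhds
  filter_upwards [self_mem_nhdsWithin, hev] with τ hτ hτ2
  refine hest τ hτ ?_
  rw [lt_div_iff₀ (by positivity)] at hτ2
  nlinarith [mem_Ioi.1 hτ]

end Pool.Agent.Helper87.RG
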