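import Pool.Agent.Helper87.RG.D7
import Pool.Agent.Helper87.RG.D8

/-!
# Project REG, block D9: the Schauder theorems PS1, PS2

Assembly of `CR_two_of_mean` with `mean_bound1` (PS1), `mean_bound2` (PS2; applied to `fun x => fderiv ℝ w x e`, which is continuous on `U`).
PROOF. Let `x0 ∈ U` and `r, C, N` be as in the hypothesis; we may assume `C ≥ 0`, `N ≥ 1`. The radius for `CR_two_of_mean` is `r' = r/(4 (1 + N))`: for `x1 ∈ ball x0 r'`, `0 < t ≤ r'`, `‖x - x1‖ ≤ t`: everything takes place in `closedBall x1 ((2 + 2N) t) ⊆ ball x1 r ⊆ ball x0 (2 r)`; `ellIn A t x (ball x0 (2r))`. `c0` is replaced by `aa n * c0` (PS1), `aa n * l e` (PS2, use the data on `ball x1 r`).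
-/

set_option autoImplicit false

namespace Pool.Agent.Helper87.RG

open MeasureTheory Set Filter Topology Metric
open Helper29.AM

private theorem ball_sub86 {n : ℕ} {x0 x1 x : V n} {r N t : ℝ} (hN : 1 ≤ N) (hr : 0 < r)
    (hx1 : x1 ∈ ball x0 (r / (4 * (1 + N)))) (ht : t ≤ r / (4 * (1 + N))) (hx : ‖x - x1‖ ≤ (1 + N) * t) :
    x ∈ ball x0 (2 * r) ∧ x ∈ ball x1 r := by
  have h4 : 0 < 4 * (1 + N) := by linarith
  have h1 : (1 + N) * t ≤ r / 4 := by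
    calc (1 + N) * t ≤ (1 + N) * (r / (4 * (1 + N))) := mul_le_mul_of_nonneg_left ht (by linarith)
      _ = r / 4 := by
        field_simp
  have h2 : r / (4 * (1 + N)) ≤ r / 4 := by
    apply div_le_div_of_nonneg_left hr.le (by norm_num)
    linarith
  rw [mem_ball, dist_eq_norm] at hx1 ⊢
  rw [mem_ball, dist_eq_norm]
  constructor
  · calc ‖x - x0‖ = ‖(x - x1) + (x1 - x0)‖ := by rw [sub_add_sub_cancel]
      _ ≤ ‖x - x1‖ + ‖x1 - x0‖ := norm_add_le _ _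
      _ < 2 * r := by linarith
  · linarith

private theorem ell_sub86 {n : ℕ} {x0 x1 x : V n} {r N t : ℝ} {A : Lin n} (hN : 1 ≤ N) (hr : 0 < r)
    (hx1 : x1 ∈ ball x0 (r / (4 * (1 + N)))) (ht0 : 0 < t) (ht : t ≤ r / (4 * (1 + N))) (hx : ‖x - x1‖ ≤ t) (hA : ‖A‖ ≤ N) :
    ellIn A t x (ball x0 (2 * r)) := by
  intro η hη
  refine (ball_sub86 hN hr hx1 ht ?_).1
  have h1 : ‖((t : ℂ) • A) η‖ ≤ t * N := by
    rw [smul_apply, norm_smul, Complex.norm_real, Real.norm_of_nonneg ht0.le]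
    apply mul_le_mul_of_nonneg_left _ ht0.le
    calc ‖A η‖ ≤ ‖A‖ * ‖η‖ := A.le_opNorm η
      _ ≤ N * 1 := mul_le_mul hA hη (norm_nonneg _) (by linarith)
      _ = N := mul_one N
  calc ‖x + ((t : ℂ) • A) η - x1‖ = ‖(x - x1) + ((t : ℂ) • A) η‖ := by
        congr 1
        abel
    _ ≤ ‖x - x1‖ + ‖((t : ℂ) • A) η‖ := norm_add_le _ _
    _ ≤ (1 + N) * t := by linarith

theorem PS1 {n : ℕ} {s : ℝ} (hs : 0 < s) (hs1 : s < 1) {U : Set (V n)} (hU : IsOpen U) {w : V n → ℝ} (hw : ContinuousOn w U)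
    (h : ∀ x0 ∈ U, ∃ r C N : ℝ, 0 < r ∧ ball x0 (2 * r) ⊆ U ∧ ∀ x1 ∈ ball x0 r, ∃ (A : Lin n) (f : V n → ℝ) (c0 : ℝ),
      A.det ≠ 0 ∧ ‖A‖ ≤ N ∧ (∀ v, ‖v‖ ≤ N * ‖A v‖) ∧ ContinuousOn f (ball x0 (2 * r)) ∧
      (∀ y ∈ ball x0 (2 * r), |f y - c0| ≤ C * ‖y - x1‖ ^ s) ∧
      ∀ (x : V n) (t : ℝ), 0 ≤ t → ellIn A t x (ball x0 (2 * r)) →
        M ((t : ℂ) • A) w x - w x = ∫ r in (0 : ℝ)..t, 2 * r * M1 ((r : ℂ) • A) f x) : CR s U 2 w := by
  refine CR_two_of_mean hs hs1 hU hw fun x0 hx0 => ?_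
  obtain ⟨r, C, N, hr, hrU, hd⟩ := h x0 hx0
  obtain ⟨N', hN'⟩ : ∃ N', N' = max N 1 := ⟨_, rfl⟩
  obtain ⟨C', hC'⟩ : ∃ C', C' = max C 0 := ⟨_, rfl⟩
  have hN1 : 1 ≤ N' := by rw [hN']; exact le_max_right _ _
  have hNN : N ≤ N' := by rw [hN']; exact le_max_left _ _
  have hC0 : 0 ≤ C' := by rw [hC']; exact le_max_right _ _
  have hCC : C ≤ C' := by rw [hC']; exact le_max_left _ _
  have h4 : 0 < 4 * (1 + N') := by linarith
  have hr' : 0 < r / (4 * (1 + N')) := div_pos hr h4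
  refine ⟨r / (4 * (1 + N')), aa n * C' * (1 + N') ^ s, N', hr', fun x1 hx1 => ?_⟩
  have hx1' : x1 ∈ ball x0 r := by
    refine ball_subset_ball ?_ hx1
    apply div_le_self hr.le
    linarith
  obtain ⟨A, f, c0, hdet, hA, hAv, hf, hfb, hm⟩ := hd x1 hx1'
  refine ⟨A, aa n * c0, hdet, hA.trans hNN, fun v => (hAv v).trans (mul_le_mul_of_nonneg_right hNN (norm_nonneg _)),
    fun t ht0 ht x hx => ?_⟩
  refine mean_bound1 (f := f) hs (by linarith) hC0 (hA.trans hNN) ht0 hx ?_ ?_ ?_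
  · exact hf.mono fun y hy => (ball_sub86 hN1 hr hx1 ht (by rwa [mem_closedBall, dist_eq_norm] at hy)).1
  · intro y hy
    exact (hfb y (ball_sub86 hN1 hr hx1 ht hy).1).trans
      (mul_le_mul_of_nonneg_right hCC (Real.rpow_nonneg (norm_nonneg _) _))
  · exact hm x t ht0.le (ell_sub86 hN1 hr hx1 ht0 ht hx (hA.trans hNN))

theorem PS2 {n : ℕ} {s : ℝ} (hs : 0 < s) (hs1 : s < 1) {U : Set (V n)} (hU : IsOpen U) {w : V n → ℝ} (hw : ContDiffOn ℝ 1 w U)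
    (h : ∀ x0 ∈ U, ∃ r C N : ℝ, 0 < r ∧ ball x0 (2 * r) ⊆ U ∧ ∀ x1 ∈ ball x0 r, ∃ (A : Lin n) (f : V n → ℝ) (c0 : ℝ)
      (l : V n →L[ℝ] ℝ), A.det ≠ 0 ∧ ‖A‖ ≤ N ∧ (∀ v, ‖v‖ ≤ N * ‖A v‖) ∧ ContinuousOn f (ball x0 (2 * r)) ∧
      (∀ y ∈ ball x0 (2 * r), |f y - c0 - l (y - x1)| ≤ C * ‖y - x1‖ ^ (1 + s)) ∧
      ∀ (x : V n) (t : ℝ), 0 ≤ t → ellIn A t x (ball x0 (2 * r)) →
        M ((t : ℂ) • A) w x - w x = ∫ r in (0 : ℝ)..t, 2 * r * M1 ((r : ℂ) • A) f x) (e : V n) :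
    CR s U 2 fun x => fderiv ℝ w x e := by
  have hw' : ContinuousOn (fun x => fderiv ℝ w x e) U :=
    (hw.continuousOn_fderiv_of_isOpen hU le_rfl).clm_apply continuousOn_const
  refine CR_two_of_mean hs hs1 hU hw' fun x0 hx0 => ?_
  obtain ⟨r, C, N, hr, hrU, hd⟩ := h x0 hx0
  obtain ⟨N', hN'⟩ : ∃ N', N' = max N 1 := ⟨_, rfl⟩
  obtain ⟨C', hC'⟩ : ∃ C', C' = max C 0 := ⟨_, rfl⟩
  have hN1 : 1 ≤ N' := by rw [hN']; exact le_max_right _ _
  have hNN : N ≤ N' := by rw [hN']; exact le_max_left _ _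
  have hC0 : 0 ≤ C' := by rw [hC']; exact le_max_right _ _
  have hCC : C ≤ C' := by rw [hC']; exact le_max_left _ _
  have h4 : 0 < 4 * (1 + N') := by linarith
  have hr' : 0 < r / (4 * (1 + N')) := div_pos hr h4
  obtain ⟨C1, hC1, hmb⟩ := mean_bound2 (n := n) hs hN1 e
  refine ⟨r / (4 * (1 + N')), C1 * C', N', hr', fun x1 hx1 => ?_⟩
  have hx1' : x1 ∈ ball x0 r := by
    refine ball_subset_ball ?_ hx1
    apply div_le_self hr.le
    linarith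
  obtain ⟨A, f, c0, l, hdet, hA, hAv, hf, hfb, hm⟩ := hd x1 hx1'
  have hbb : ball x1 r ⊆ ball x0 (2 * r) := by
    intro y hy
    rw [mem_ball, dist_eq_norm] at hy hx1' ⊢
    calc ‖y - x0‖ = ‖(y - x1) + (x1 - x0)‖ := by rw [sub_add_sub_cancel]
      _ ≤ ‖y - x1‖ + ‖x1 - x0‖ := norm_add_le _ _
      _ < 2 * r := by linarith
  refine ⟨A, aa n * l e, hdet, hA.trans hNN, fun v => (hAv v).trans (mul_le_mul_of_nonneg_right hNN (norm_nonneg _)),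
    fun t ht0 ht x hx => ?_⟩
  refine hmb A f w x1 c0 C' r l hdet (hA.trans hNN)
    (fun v => (hAv v).trans (mul_le_mul_of_nonneg_right hNN (norm_nonneg _))) hC0 hr (hw.mono (hbb.trans hrU))
    (hf.mono hbb) ?_ ?_ t ht0 ?_ x hx
  · intro y hy
    exact (hfb y (hbb hy)).trans (mul_le_mul_of_nonneg_right hCC (Real.rpow_nonneg (norm_nonneg _) _))
  · intro x' t' ht' hel
    exact hm x' t' ht' fun η hη => hbb (hel η hη)
  · calc (2 + 2 * N') * t ≤ (2 + 2 * N') * (r / (4 * (1 + N'))) := mul_le_mul_of_nonneg_left ht (by linarith)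
      _ = r / 2 := by
        field_simp
        ring
      _ < r := by linarith

end Pool.Agent.Helper87.RG
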