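import Pool.Agent.Helper87.RG.R11
import Pool.Agent.Helper87.RG.D9
import Pool.Agent.Helper87.RG.D10
import Pool.Agent.Helper87.RG.D1b

/-!
# Project REG, block D11: the solution is of class `C^(2,α)`

`hess_eq_of_BH`. PROOF. For `z ∈ Ω` and small `ε`: `hess (Phi w · ε) z = MH (sc ε) (hess w) z` (`hess_M`, `w` is `C²`) `→ hess w z` (`hess w` is continuous on `Ω`, `∫ ρ = 1`); `BH.ae_tendsto`: the limit is `H z` for a.e. `z`.
`start`. PROOF. `hoelder_rep` gives `α0, C, H'`; `α = min α0 (1/2)` (on the ball `‖y - z‖ ≤ R`, so the `α0`-Hölder inequality implies the `α`-Hölder one with the constant `C R^(α0-α)`). Let `U = ball x0 (R/2)`. `PS1` for `w = u` on `U` with `A = 1` for all `x1` (`A.det = 1`, `N = 1`), `f y = sA 1 (H' y)`, `c0 = sA 1 (H' x1)`: `|f y - c0| ≤ n · nK (H' y - H' x1)` (`abs_sA_sub_le`) `≤ n C ‖y - x1‖^α`. The mean value identity: `mean_formula` for `(ball x0 R, u, H)` (`RegLoc.bh`, `RegLoc.c1`), and `sA 1 (H y) = sA 1 (H' y)` for a.e. `y ∈ U`, so the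 two `M1 (r·1)` agree for `r > 0` (the map `η ↦ x + rη` preserves null sets; there is `M_congr_ae` for `M`, the proof for `M1` is the same).
So `CR α U 2 u`; `hess u` is continuous on `U`, `hess u = H` a.e. on `U` (`hess_eq_of_BH`, `BH.mono`), so `hess u = H'` a.e. on `U` and then everywhere on `U` (both are continuous on `U`). `Real.log (H' z).det.re = κ z` and `det > 0`, real (positive definite).
-/

set_option autoImplicit false

namespace Pool.Agent.Helper87.RG

open MeasureTheory Set Filter Topology Metric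
open Helper29.AM
open scoped ComplexOrder

section Private50

variable {n : ℕ}

private theorem mem_shr_ev50 {Ω : Set (V n)} (hΩ : IsOpen Ω) {z : V n} (hz : z ∈ Ω) :
    ∀ᶠ t in 𝓝[>] (0 : ℝ), 0 < t ∧ z ∈ shr Ω t := by
  obtain ⟨r, hr, hrb⟩ := Metric.nhds_basis_closedBall.mem_iff.1 (hΩ.mem_nhds hz)
  filter_upwards [Ioo_mem_nhdsGT hr] with t ht
  exact ⟨ht.1, (closedBall_subset_closedBall ht.2.le).trans hrb⟩

private theorem MH_phi50 {Ω : Set (V n)} (hΩ : IsOpen Ω) {F : V n → Mat n} {j k : Fin n}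
    (hF : ContinuousOn (fun y => F y j k) Ω) {t : ℝ} (ht : 0 < t) {z : V n} (hz : z ∈ shr Ω t) :
    (MH (sc t) F z j k).re = Phi (fun y => (F y j k).re) z t ∧ (MH (sc t) F z j k).im = Phi (fun y => (F y j k).im) z t := by
  have hT : (sc t : Lin n).det ≠ 0 := by
    rw [det_sc]
    exact pow_ne_zero _ (by exact_mod_cast ht.ne')
  have hz' := (mem_shr_iff ht.le).1 hz
  have h1 : ContinuousOn (fun y => (F y j k).re) Ω := Complex.continuous_re.comp_continuousOn hF
  have h2 : ContinuousOn (fun y => (F y j k).im) Ω := Complex.continuous_im.comp_continuousOn hF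
  have i1 := (integrable_rho_mul hT hΩ (h1.locallyIntegrableOn hΩ.measurableSet) hz').1
  have i2 := (integrable_rho_mul hT hΩ (h2.locallyIntegrableOn hΩ.measurableSet) hz').1
  have hi : Integrable (fun η : V n => (rho η : ℂ) * F (z + (sc t : Lin n) η) j k) := by
    refine Integrable.re_im_iff.1 ⟨?_, ?_⟩
    · refine i1.congr (Eventually.of_forall fun η => ?_)
      simp
    · refine i2.congr (Eventually.of_forall fun η => ?_)
      simp
  constructor
  · have h3 := integral_re hi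
    have h4 : (MH (sc t) F z j k).re = RCLike.re (∫ η : V n, (rho η : ℂ) * F (z + (sc t : Lin n) η) j k) := rfl
    rw [h4, ← h3]
    unfold Phi M
    refine integral_congr_ae (Eventually.of_forall fun η => ?_)
    simp
  · have h3 := integral_im hi
    have h4 : (MH (sc t) F z j k).im = RCLike.im (∫ η : V n, (rho η : ℂ) * F (z + (sc t : Lin n) η) j k) := rfl
    rw [h4, ← h3]
    unfold Phi M
    refine integral_congr_ae (Eventually.of_forall fun η => ?_)
    simp

/-- the affine homeomorphism `η ↦ z + T η` changes the volume by a constant -/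
private theorem aff50 {T : Lin n} (hT : T.det ≠ 0) (z : V n) :
    ∃ (f : V n ≃ₜ V n) (c : ENNReal), (∀ η, f η = z + T η) ∧ c ≠ ⊤ ∧
      Measure.map f volume = c • (volume : Measure (V n)) := by
  let g : V n ≃L[ℂ] V n := ContinuousLinearMap.toContinuousLinearEquivOfDetNeZero T hT
  let gR : V n ≃L[ℝ] V n := g.restrictScalars ℝ
  have hg : ∀ η, gR η = T η := fun η => rfl
  refine ⟨gR.toHomeomorph.trans (Homeomorph.addLeft z),
    ENNReal.ofReal |LinearMap.det (gR.symm : V n →ₗ[ℝ] V n)|, fun η => rfl, ENNReal.ofReal_ne_top, ?_⟩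
  ext s hs
  rw [Measure.map_apply (Homeomorph.continuous _).measurable hs, Measure.smul_apply, smul_eq_mul]
  have h1 : (gR.toHomeomorph.trans (Homeomorph.addLeft z)) ⁻¹' s = gR ⁻¹' ((fun y => z + y) ⁻¹' s) := rfl
  rw [h1, Measure.addHaar_preimage_continuousLinearEquiv, measure_preimage_add]

private theorem M1_congr_ae50 {T : Lin n} (hT : T.det ≠ 0) {Ω : Set (V n)} {u v : V n → ℝ}
    (h : ∀ᵐ z, z ∈ Ω → u z = v z) {z : V n} (hz : ∀ η : V n, ‖η‖ ≤ 1 → z + T η ∈ Ω) :
    M1 T u z = M1 T v z := by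
  obtain ⟨f, c, hf, hc, hmap⟩ := aff50 hT z
  have h1 : ∀ᵐ y ∂(Measure.map f volume), y ∈ Ω → u y = v y := by
    rw [hmap]
    exact Measure.ae_smul_measure h c
  have h2 : ∀ᵐ η : V n, f η ∈ Ω → u (f η) = v (f η) := ae_of_ae_map f.continuous.aemeasurable h1
  unfold M1
  refine integral_congr_ae ?_
  filter_upwards [h2] with η hη
  by_cases h3 : ‖η‖ ≤ 1
  · rw [hf] at hη
    rw [hη (hz η h3)]
  · rw [rho1_eq_zero (le_of_lt (not_le.1 h3)), zero_mul, zero_mul]

private theorem contHol50 {F : Type} [NormedAddCommGroup F] {f : V n → F} {U : Set (V n)} {K α : ℝ} (hα : 0 < α)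
    (h : ∀ y ∈ U, ∀ z ∈ U, ‖f y - f z‖ ≤ K * ‖y - z‖ ^ α) : ContinuousOn f U := by
  intro z hz
  rw [ContinuousWithinAt, tendsto_iff_norm_sub_tendsto_zero]
  have h1 : Tendsto (fun y : V n => K * ‖y - z‖ ^ α) (𝓝[U] z) (𝓝 0) := by
    have h2 : Tendsto (fun y : V n => ‖y - z‖) (𝓝[U] z) (𝓝 0) := by
      have h3 : Continuous fun y : V n => ‖y - z‖ := by fun_prop
      have h4 := (h3.tendsto z).mono_left (nhdsWithin_le_nhds (s := U))
      rwa [sub_self, norm_zero] at h4
    have h3 := (h2.rpow_const (p := α) (Or.inr hα.le)).const_mul K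
    rwa [Real.zero_rpow hα.ne', mul_zero] at h3
  refine squeeze_zero' (Eventually.of_forall fun y => norm_nonneg _) ?_ h1
  filter_upwards [self_mem_nhdsWithin] with y hy
  exact h y hy z hz

private theorem rpow_le50 {α α0 R t : ℝ} (hα : 0 < α) (hαα : α ≤ α0) (ht : 0 ≤ t) (htR : t ≤ R) :
    t ^ α0 ≤ R ^ (α0 - α) * t ^ α := by
  rcases ht.eq_or_lt with h | h
  · rw [← h, Real.zero_rpow (by linarith), Real.zero_rpow hα.ne', mul_zero]
  · have h1 : t ^ α0 = t ^ (α0 - α) * t ^ α := by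
      rw [← Real.rpow_add h]
      congr 1
      ring
    rw [h1]
    exact mul_le_mul_of_nonneg_right (Real.rpow_le_rpow ht htR (by linarith)) (by positivity)

private theorem entry50 (K : Mat n) (j k : Fin n) : ‖K j k‖ ≤ nK K := by
  unfold nK
  calc ‖K j k‖ ≤ ∑ k, ‖K j k‖ :=
        Finset.single_le_sum (f := fun k => ‖K j k‖) (fun k _ => norm_nonneg _) (Finset.mem_univ k)
    _ ≤ ∑ j, ∑ k, ‖K j k‖ :=
        Finset.single_le_sum (f := fun j => ∑ k, ‖K j k‖) (fun j _ => Finset.sum_nonneg fun k _ => norm_nonneg _)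
          (Finset.mem_univ j)

private theorem nK_nonneg50 (K : Mat n) : 0 ≤ nK K :=
  Finset.sum_nonneg fun _ _ => Finset.sum_nonneg fun _ _ => norm_nonneg _

end Private50

theorem hess_eq_of_BH {n : ℕ} {Ω : Set (V n)} (hΩ : IsOpen Ω) {w : V n → ℝ} {H : V n → Mat n} (hw : ContDiffOn ℝ 2 w Ω)
    (hb : BH Ω w H) : ∀ᵐ z, z ∈ Ω → hess w z = H z := by
  have key : ∀ j k, ∀ᵐ z, z ∈ Ω → hess w z j k = H z j k := by
    intro j k
    have hF : ContinuousOn (fun y => hess w y j k) Ω := continuousOn_hess hΩ hw j k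
    have h1 : ContinuousOn (fun y => (hess w y j k).re) Ω := Complex.continuous_re.comp_continuousOn hF
    have h2 : ContinuousOn (fun y => (hess w y j k).im) Ω := Complex.continuous_im.comp_continuousOn hF
    filter_upwards [ae_tendsto_Phi hΩ (h1.locallyIntegrableOn hΩ.measurableSet),
      ae_tendsto_Phi hΩ (h2.locallyIntegrableOn hΩ.measurableSet), hb.ae_tendsto hΩ j k] with z a1 a2 a3 hz
    have b1 := a1 hz
    have b2 := a2 hz
    have b3 := a3 hz
    have hev : ∀ᶠ t in 𝓝[>] (0 : ℝ), (hess (fun y => Phi w y t) z j k).re = Phi (fun y => (hess w y j k).re) z t ∧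
        (hess (fun y => Phi w y t) z j k).im = Phi (fun y => (hess w y j k).im) z t := by
      filter_upwards [mem_shr_ev50 hΩ hz] with t ht
      have h3 : hess (fun y => Phi w y t) z = MH (sc t) (hess w) z :=
        hess_M (sc t) hΩ hw ((mem_shr_iff ht.1.le).1 ht.2)
      rw [h3]
      exact MH_phi50 hΩ hF ht.1 ht.2
    have c1 : Tendsto (fun t => Phi (fun y => (hess w y j k).re) z t) (𝓝[>] 0) (𝓝 (H z j k).re) :=
      ((Complex.continuous_re.tendsto _).comp b3).congr' (hev.mono fun t ht => ht.1)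
    have c2 : Tendsto (fun t => Phi (fun y => (hess w y j k).im) z t) (𝓝[>] 0) (𝓝 (H z j k).im) :=
      ((Complex.continuous_im.tendsto _).comp b3).congr' (hev.mono fun t ht => ht.2)
    exact Complex.ext (tendsto_nhds_unique b1 c1) (tendsto_nhds_unique b2 c2)
  have h4 : ∀ᵐ z, ∀ j k, z ∈ Ω → hess w z j k = H z j k := ae_all_iff.2 fun j => ae_all_iff.2 fun k => key j k
  filter_upwards [h4] with z h hz
  ext j k
  exact h j k hz

theorem start {n : ℕ} {x0 : V n} {R : ℝ} {u κ : V n → ℝ} {H : V n → Mat n} {c Λ B : ℝ} (hl : RegLoc x0 R u κ H c Λ B) :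
    ∃ α : ℝ, 0 < α ∧ α ≤ 1 / 2 ∧ CR α (ball x0 (R / 2)) 2 u ∧
      ∀ z ∈ ball x0 (R / 2), (hess u z).PosDef ∧ (hess u z).det.re = Real.exp (κ z) := by
  obtain ⟨α0, C, H', hα0, hα01, hC, hae, hhol, hprop⟩ := hoelder_rep hl
  have hR := hl.hR
  obtain ⟨α, hαdef⟩ : ∃ α, α = min α0 (1 / 2) := ⟨_, rfl⟩
  have hα : 0 < α := by
    rw [hαdef]
    exact lt_min hα0 (by norm_num)
  have hα2 : α ≤ 1 / 2 := by
    rw [hαdef]
    exact min_le_right _ _
  have hαα : α ≤ α0 := by
    rw [hαdef]
    exact min_le_left _ _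
  obtain ⟨U, hU⟩ : ∃ U, U = ball x0 (R / 2) := ⟨_, rfl⟩
  rw [← hU] at hae hhol hprop ⊢
  have hUo : IsOpen U := by
    rw [hU]
    exact isOpen_ball
  have hUR : U ⊆ ball x0 R := by
    rw [hU]
    exact ball_subset_ball (by linarith)
  obtain ⟨C1, hC1⟩ : ∃ C1, C1 = C * R ^ (α0 - α) := ⟨_, rfl⟩
  have hC10 : 0 ≤ C1 := by
    rw [hC1]
    positivity
  have hhol1 : ∀ y ∈ U, ∀ z ∈ U, nK (H' y - H' z) ≤ C1 * ‖y - z‖ ^ α := by
    intro y hy z hz
    refine (hhol y hy z hz).trans ?_
    rw [hC1, mul_assoc]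
    refine mul_le_mul_of_nonneg_left (rpow_le50 hα hαα (norm_nonneg _) ?_) hC
    rw [hU, mem_ball] at hy hz
    rw [← dist_eq_norm]
    have := dist_triangle_right y z x0
    linarith
  have hsA : ∀ y ∈ U, ∀ z ∈ U, |sA 1 (H' y) - sA 1 (H' z)| ≤ n * C1 * ‖y - z‖ ^ α := by
    intro y hy z hz
    have h1 := abs_sA_sub_le (1 : Lin n) (H' y) (H' z)
    have h2 : ‖(1 : Lin n)‖ ^ 2 ≤ 1 := by
      have h3 : ‖(1 : Lin n)‖ ≤ 1 := ContinuousLinearMap.norm_id_le
      have h4 := norm_nonneg (1 : Lin n)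
      nlinarith
    have h5 := nK_nonneg50 (H' y - H' z)
    have h6 := hhol1 y hy z hz
    have h7 : (0 : ℝ) ≤ n := Nat.cast_nonneg n
    calc |sA 1 (H' y) - sA 1 (H' z)| ≤ n * ‖(1 : Lin n)‖ ^ 2 * nK (H' y - H' z) := h1
      _ ≤ n * 1 * nK (H' y - H' z) := by gcongr
      _ ≤ n * 1 * (C1 * ‖y - z‖ ^ α) := by gcongr
      _ = n * C1 * ‖y - z‖ ^ α := by ring
  have hfc : ContinuousOn (fun y => sA 1 (H' y)) U := contHol50 hα fun y hy z hz => by
    rw [Real.norm_eq_abs]
    exact hsA y hy z hz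
  have hdet1 : (1 : Lin n).det ≠ 0 := by
    have h1 : (1 : Lin n).det = 1 := LinearMap.det_id
    rw [h1]
    exact one_ne_zero
  have hdett : ∀ t : ℝ, 0 < t → ((t : ℂ) • (1 : Lin n)).det ≠ 0 := by
    intro t ht
    have h1 : ((t : ℂ) • (1 : Lin n)).det = (t : ℂ) ^ n := det_sc t
    rw [h1]
    exact pow_ne_zero _ (by exact_mod_cast ht.ne')
  have huc : ContinuousOn u (ball x0 R) := hl.c1.continuousOn
  have hCR : CR α U 2 u := by
    refine PS1 hα (by linarith) hUo (huc.mono hUR) fun x hx => ?_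
    have hx' := hx
    rw [hU, mem_ball] at hx'
    refine ⟨(R / 2 - dist x x0) / 2, n * C1, 1, by linarith, ?_, fun x1 hx1 => ?_⟩
    · rw [hU]
      refine ball_subset_ball' ?_
      linarith
    · have hb : ball x (2 * ((R / 2 - dist x x0) / 2)) ⊆ U := by
        rw [hU]
        refine ball_subset_ball' ?_
        linarith
      have hx1U : x1 ∈ U := hb (ball_subset_ball (by linarith) hx1)
      refine ⟨1, fun y => sA 1 (H' y), sA 1 (H' x1), hdet1, ContinuousLinearMap.norm_id_le, fun v => ?_, hfc.mono hb,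
        fun y hy => hsA y (hb hy) x1 hx1U, fun y t ht hell => ?_⟩
      · rw [one_mul]
        exact le_rfl
      · have hell' : ellIn 1 t y (ball x0 R) := fun η hη => hUR (hb (hell η hη))
        rw [mean_formula isOpen_ball hl.bh huc hdet1 ht hell']
        refine intervalIntegral.integral_congr_ae ?_
        refine Eventually.of_forall fun r hr => ?_
        rw [uIoc_of_le ht] at hr
        congr 1
        refine M1_congr_ae50 (Ω := U) (hdett r hr.1) ?_ fun η hη => ?_
        · filter_upwards [hae] with z h hz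
          rw [h hz]
        · have h1 : ‖((r / t : ℝ) : ℂ) • η‖ ≤ 1 := by
            rw [norm_smul, Complex.norm_real, Real.norm_of_nonneg (div_nonneg hr.1.le ht)]
            have h2 : r / t ≤ 1 := div_le_one_of_le₀ hr.2 ht
            have h3 := norm_nonneg η
            have h4 : 0 ≤ r / t := div_nonneg hr.1.le ht
            nlinarith
          have h2 := hb (hell _ h1)
          have ht0 : (t : ℂ) ≠ 0 := by exact_mod_cast (hr.1.trans_le hr.2).ne'
          have h3 : ((t : ℂ) • (1 : Lin n)) (((r / t : ℝ) : ℂ) • η) = ((r : ℂ) • (1 : Lin n)) η := by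
            show (t : ℂ) • (((r / t : ℝ) : ℂ) • η) = (r : ℂ) • η
            rw [smul_smul]
            congr 1
            push_cast
            field_simp
          rw [h3] at h2
          exact h2
  refine ⟨α, hα, hα2, hCR, ?_⟩
  have hcd : ContDiffOn ℝ 2 u U := by
    have h1 := hCR.contDiffOn hα hUo
    exact_mod_cast h1
  have h1 := hess_eq_of_BH hUo hcd (hl.bh.mono hUo hUR)
  have h2 : ∀ z ∈ U, hess u z = H' z := by
    have h3 : ∀ j k, EqOn (fun z => hess u z j k) (fun z => H' z j k) U := by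
      intro j k
      refine Measure.eqOn_open_of_ae_eq (μ := volume) ?_ hUo (continuousOn_hess hUo hcd j k) ?_
      · refine (ae_restrict_iff' hUo.measurableSet).2 ?_
        filter_upwards [h1, hae] with z a1 a2 hz
        rw [a1 hz, a2 hz]
      · refine contHol50 hα (K := C1) fun y hy z hz => ?_
        have h4 := entry50 (H' y - H' z) j k
        exact h4.trans (hhol1 y hy z hz)
    intro z hz
    ext j k
    exact h3 j k hz
  intro z hz
  obtain ⟨q1, -, q3, q4⟩ := hprop z hz
  rw [h2 z hz]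
  refine ⟨q1, ?_⟩
  rw [← q4, Real.exp_log (by linarith [hl.hc])]

end Pool.Agent.Helper87.RG
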