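import Pool.Agent.Helper87.RG.D1c

/-!
# Project REG, block D10b: matrix valued Hölder functions; expansion of the determinant

`nK_add_le`, `nK_nonneg`, `abs_pr_le`: elementary. `nK_hoelder`, `nK_taylor`: entrywise (`CR.hoelder`, `CR.taylor` for the real and imaginary parts; finitely many entries: minimum of the radii, sum of the constants).
`det_expand`. PROOF. `X = K - K1`. `det (K1 + X)` is a polynomial in the entries of `X` with coefficients bounded in terms of `N`; `det (K1 + X) = ∑_S det(rows in S from X, the others from K1)` (multilinearity in the rows, `MultilinearMap.map_add_univ` for `Matrix.detRowAlternating`): `S = ∅`: `det K1`; `|S| = 1`: `∑_i det (K1.updateRow i (X i)) = tr (adj K1 · X)` (cofactor expansion, `Matrix.adjugate_apply`, `Matrix.det_updateRow..`); `|S| ≥ 2`: bounded by `n! · nK(X)^|S| N^(n-|S|) ≤ C nK(X)²` as `nK X ≤ 2N`.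
(Alternative: the smooth function `K ↦ det K` has bounded second derivatives on the convex ball `nK ≤ N`, and its first derivative is `X ↦ tr (adj K1 X)` (Jacobi).)
`fderiv_det`: Jacobi's formula; from `det_expand` with `K = H (z + t v)`, `t → 0`, or by another proof.
-/

set_option autoImplicit false

namespace Pool.Agent.Helper87.RG

open MeasureTheory Set Filter Topology Metric
open Helper29.AM
open scoped ComplexOrder

variable {n : ℕ}

theorem nK_nonneg (K : Mat n) : 0 ≤ nK K :=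
  Finset.sum_nonneg fun _ _ => Finset.sum_nonneg fun _ _ => norm_nonneg _

theorem nK_add_le (K L : Mat n) : nK (K + L) ≤ nK K + nK L := by
  unfold nK
  rw [← Finset.sum_add_distrib]
  refine Finset.sum_le_sum fun i _ => ?_
  rw [← Finset.sum_add_distrib]
  exact Finset.sum_le_sum fun j _ => norm_add_le _ _

private theorem entry_le_nK (K : Mat n) (i j : Fin n) : ‖K i j‖ ≤ nK K := by
  unfold nK
  refine le_trans ?_ (Finset.single_le_sum (f := fun i => ∑ k, ‖K i k‖)
    (fun _ _ => Finset.sum_nonneg fun _ _ => norm_nonneg _) (Finset.mem_univ i))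
  exact Finset.single_le_sum (f := fun k => ‖K i k‖) (fun _ _ => norm_nonneg _) (Finset.mem_univ j)

theorem abs_pr_le (P K : Mat n) : |pr P K| ≤ nK P * nK K := by
  unfold pr
  refine (Complex.abs_re_le_norm _).trans ?_
  unfold Matrix.trace
  refine (norm_sum_le _ _).trans ?_
  rw [show nK P * nK K = ∑ j, ∑ k, ‖P j k‖ * nK K by
    rw [nK, Finset.sum_mul]; exact Finset.sum_congr rfl fun j _ => Finset.sum_mul _ _ _]
  refine Finset.sum_le_sum fun j _ => ?_
  rw [Matrix.diag_apply, Matrix.mul_apply]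
  refine (norm_sum_le _ _).trans ?_
  refine Finset.sum_le_sum fun k _ => ?_
  rw [norm_mul]
  exact mul_le_mul_of_nonneg_left (entry_le_nK K k j) (norm_nonneg _)

private theorem unif_r {ι : Type} [Finite ι] {P : ι → ℝ → Prop}
    (hP : ∀ i, ∃ r, 0 < r ∧ ∀ s, 0 < s → s ≤ r → P i s) : ∃ r, 0 < r ∧ r ≤ 1 / 2 ∧ ∀ i, P i r := by
  have h1 : ∀ i, ∀ᶠ r in 𝓝[>] (0 : ℝ), P i r := by
    intro i
    obtain ⟨r, hr, h⟩ := hP i
    filter_upwards [Ioo_mem_nhdsGT hr] with s hs
    exact h s hs.1 hs.2.le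
  have h2 : ∀ᶠ r in 𝓝[>] (0 : ℝ), r ∈ Ioo (0 : ℝ) (1 / 2) := Ioo_mem_nhdsGT (by norm_num)
  obtain ⟨r, hr, h⟩ := (h2.and (eventually_all.2 h1)).exists
  exact ⟨r, hr.1, hr.2.le, h⟩

private theorem cc_hoelder {α : ℝ} (hα : 0 < α) {U : Set (V n)} (hU : IsOpen U) {f : V n → ℂ} (h : CC α U 0 f)
    {x0 : V n} (hx : x0 ∈ U) : ∃ r C : ℝ, 0 < r ∧ 0 ≤ C ∧ ball x0 r ⊆ U ∧ (∀ x ∈ ball x0 r, ‖f x‖ ≤ C) ∧
      ∀ x ∈ ball x0 r, ∀ y ∈ ball x0 r, ‖f y - f x‖ ≤ C * ‖y - x‖ ^ α := by
  obtain ⟨r1, C1, hr1, hC1, hb1, hf1, hd1⟩ := CR.hoelder hα hU h.1 hx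
  obtain ⟨r2, C2, hr2, hC2, hb2, hf2, hd2⟩ := CR.hoelder hα hU h.2 hx
  have i1 : ball x0 (min r1 r2) ⊆ ball x0 r1 := ball_subset_ball (min_le_left _ _)
  have i2 : ball x0 (min r1 r2) ⊆ ball x0 r2 := ball_subset_ball (min_le_right _ _)
  refine ⟨min r1 r2, C1 + C2, lt_min hr1 hr2, by positivity, i1.trans hb1, ?_, ?_⟩
  · intro x hx'
    exact (Complex.norm_le_abs_re_add_abs_im _).trans (add_le_add (hf1 x (i1 hx')) (hf2 x (i2 hx')))
  · intro x hx' y hy'
    refine (Complex.norm_le_abs_re_add_abs_im _).trans ?_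
    rw [add_mul, Complex.sub_re, Complex.sub_im]
    exact add_le_add (hd1 x (i1 hx') y (i1 hy')) (hd2 x (i2 hx') y (i2 hy'))

private theorem cc_taylor {α : ℝ} (hα : 0 < α) (hα1 : α ≤ 1) {U : Set (V n)} (hU : IsOpen U) {f : V n → ℂ}
    (h : CC α U 1 f) {x0 : V n} (hx : x0 ∈ U) : ∃ r C : ℝ, 0 < r ∧ 0 ≤ C ∧ ball x0 r ⊆ U ∧
      ∀ x ∈ ball x0 r, ∃ L : V n →ₗ[ℝ] ℂ, (∀ v, ‖L v‖ ≤ C * ‖v‖) ∧
        ∀ y ∈ ball x0 r, ‖f y - f x - L (y - x)‖ ≤ C * ‖y - x‖ ^ (1 + α) := by
  obtain ⟨r1, C1, hr1, hC1, hb1, hf1, hd1⟩ := CR.taylor hα hα1 hU h.1 hx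
  obtain ⟨r2, C2, hr2, hC2, hb2, hf2, hd2⟩ := CR.taylor hα hα1 hU h.2 hx
  have i1 : ball x0 (min r1 r2) ⊆ ball x0 r1 := ball_subset_ball (min_le_left _ _)
  have i2 : ball x0 (min r1 r2) ⊆ ball x0 r2 := ball_subset_ball (min_le_right _ _)
  refine ⟨min r1 r2, C1 + C2, lt_min hr1 hr2, by positivity, i1.trans hb1, ?_⟩
  intro x hx'
  refine ⟨(Complex.ofRealCLM.toLinearMap.comp (fderiv ℝ (fun x => (f x).re) x).toLinearMap) +
    ((LinearMap.mulRight ℝ Complex.I).comp
      (Complex.ofRealCLM.toLinearMap.comp (fderiv ℝ (fun x => (f x).im) x).toLinearMap)), ?_, ?_⟩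
  · intro v
    refine (Complex.norm_le_abs_re_add_abs_im _).trans ?_
    have e1 := ((fderiv ℝ (fun x => (f x).re) x).le_opNorm v).trans
      (mul_le_mul_of_nonneg_right (hf1 x (i1 hx')) (norm_nonneg v))
    have e2 := ((fderiv ℝ (fun x => (f x).im) x).le_opNorm v).trans
      (mul_le_mul_of_nonneg_right (hf2 x (i2 hx')) (norm_nonneg v))
    rw [Real.norm_eq_abs] at e1 e2
    rw [add_mul]
    refine add_le_add (le_trans (le_of_eq ?_) e1) (le_trans (le_of_eq ?_) e2) <;> simp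
  · intro y hy'
    refine (Complex.norm_le_abs_re_add_abs_im _).trans ?_
    rw [add_mul]
    refine add_le_add (le_trans (le_of_eq ?_) (hd1 x (i1 hx') y (i1 hy')))
      (le_trans (le_of_eq ?_) (hd2 x (i2 hx') y (i2 hy'))) <;> simp

theorem nK_hoelder {α : ℝ} (hα : 0 < α) {U : Set (V n)} (hU : IsOpen U) {H : V n → Mat n} (h : ∀ i j, CC α U 0 fun x => H x i j)
    {x0 : V n} (hx : x0 ∈ U) : ∃ r C : ℝ, 0 < r ∧ 0 ≤ C ∧ ball x0 r ⊆ U ∧ (∀ x ∈ ball x0 r, nK (H x) ≤ C) ∧
      ∀ x ∈ ball x0 r, ∀ y ∈ ball x0 r, nK (H y - H x) ≤ C * ‖y - x‖ ^ α := by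
  choose R C hR hC hb hf hd using fun i j => cc_hoelder hα hU (h i j) hx
  obtain ⟨r0, hr0, hb0⟩ := Metric.isOpen_iff.1 hU x0 hx
  obtain ⟨r, hr, -, hall⟩ := unif_r (ι := Option (Fin n × Fin n))
    (P := fun o s => Option.elim o (s ≤ r0) fun p => s ≤ R p.1 p.2) (by
      rintro (_ | ⟨i, j⟩)
      · exact ⟨r0, hr0, fun s _ hs => hs⟩
      · exact ⟨R i j, hR i j, fun s _ hs => hs⟩)
  have hr00 : r ≤ r0 := hall none
  have hrR : ∀ i j, ball x0 r ⊆ ball x0 (R i j) := fun i j => ball_subset_ball (hall (some (i, j)))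
  refine ⟨r, ∑ i, ∑ j, C i j, hr, Finset.sum_nonneg fun i _ => Finset.sum_nonneg fun j _ => hC i j,
    (ball_subset_ball hr00).trans hb0, ?_, ?_⟩
  · intro x hx'
    exact Finset.sum_le_sum fun i _ => Finset.sum_le_sum fun j _ => hf i j x (hrR i j hx')
  · intro x hx' y hy'
    rw [Finset.sum_mul]
    refine Finset.sum_le_sum fun i _ => ?_
    rw [Finset.sum_mul]
    exact Finset.sum_le_sum fun j _ => hd i j x (hrR i j hx') y (hrR i j hy')

theorem nK_taylor {α : ℝ} (hα : 0 < α) (hα1 : α ≤ 1) {U : Set (V n)} (hU : IsOpen U) {H : V n → Mat n}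
    (h : ∀ i j, CC α U 1 fun x => H x i j) {x0 : V n} (hx : x0 ∈ U) : ∃ r C : ℝ, 0 < r ∧ 0 ≤ C ∧ ball x0 r ⊆ U ∧
      (∀ x ∈ ball x0 r, ∀ y ∈ ball x0 r, nK (H y - H x) ≤ C * ‖y - x‖) ∧
      ∀ x ∈ ball x0 r, ∃ L : V n →ₗ[ℝ] Mat n, (∀ v, nK (L v) ≤ C * ‖v‖) ∧
        ∀ y ∈ ball x0 r, nK (H y - H x - L (y - x)) ≤ C * ‖y - x‖ ^ (1 + α) := by
  choose R C hR hC hb hL using fun i j => cc_taylor hα hα1 hU (h i j) hx
  obtain ⟨r0, hr0, hb0⟩ := Metric.isOpen_iff.1 hU x0 hx
  obtain ⟨r, hr, hrhalf, hall⟩ := unif_r (ι := Option (Fin n × Fin n))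
    (P := fun o s => Option.elim o (s ≤ r0) fun p => s ≤ R p.1 p.2) (by
      rintro (_ | ⟨i, j⟩)
      · exact ⟨r0, hr0, fun s _ hs => hs⟩
      · exact ⟨R i j, hR i j, fun s _ hs => hs⟩)
  have hr00 : r ≤ r0 := hall none
  have hrR : ∀ i j, ball x0 r ⊆ ball x0 (R i j) := fun i j => ball_subset_ball (hall (some (i, j)))
  have hS : 0 ≤ ∑ i, ∑ j, C i j := Finset.sum_nonneg fun i _ => Finset.sum_nonneg fun j _ => hC i j
  refine ⟨r, 2 * ∑ i, ∑ j, C i j, hr, by positivity, (ball_subset_ball hr00).trans hb0, ?_, ?_⟩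
  · intro x hx' y hy'
    rw [Finset.mul_sum, Finset.sum_mul]
    refine Finset.sum_le_sum fun i _ => ?_
    rw [Finset.mul_sum, Finset.sum_mul]
    refine Finset.sum_le_sum fun j _ => ?_
    obtain ⟨L, hL1, hL2⟩ := hL i j x (hrR i j hx')
    have e1 := hL1 (y - x)
    have e2 := hL2 y (hrR i j hy')
    have hd : ‖y - x‖ ≤ 1 := by
      have a1 := mem_ball.1 hx'
      have a2 := mem_ball.1 hy'
      rw [← dist_eq_norm]
      have := dist_triangle_right y x x0
      linarith
    have e3 : ‖y - x‖ ^ (1 + α) ≤ ‖y - x‖ := by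
      have := Real.rpow_le_rpow_of_exponent_ge' (norm_nonneg (y - x)) hd zero_le_one (by linarith : (1 : ℝ) ≤ 1 + α)
      rwa [Real.rpow_one] at this
    have e4 := mul_le_mul_of_nonneg_left e3 (hC i j)
    have e5 : ‖(H y - H x) i j‖ ≤ ‖H y i j - H x i j - L (y - x)‖ + ‖L (y - x)‖ := by
      have := norm_add_le (H y i j - H x i j - L (y - x)) (L (y - x))
      rwa [sub_add_cancel] at this
    calc ‖(H y - H x) i j‖ ≤ _ := e5
      _ ≤ C i j * ‖y - x‖ + C i j * ‖y - x‖ := add_le_add (e2.trans e4) e1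
      _ = 2 * C i j * ‖y - x‖ := by ring
  · intro x hx'
    choose L hL1 hL2 using fun i j => hL i j x (hrR i j hx')
    refine ⟨{ toFun := fun v => Matrix.of fun i j => L i j v
              map_add' := fun v w => by ext i j; simp
              map_smul' := fun c v => by ext i j; simp }, ?_, ?_⟩
    · intro v
      have e1 : nK (Matrix.of fun i j => L i j v) ≤ (∑ i, ∑ j, C i j) * ‖v‖ := by
        rw [Finset.sum_mul]
        refine Finset.sum_le_sum fun i _ => ?_
        rw [Finset.sum_mul]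
        exact Finset.sum_le_sum fun j _ => hL1 i j v
      refine e1.trans ?_
      have := mul_nonneg hS (norm_nonneg v)
      linarith
    · intro y hy'
      have e1 : nK (H y - H x - Matrix.of fun i j => L i j (y - x)) ≤ (∑ i, ∑ j, C i j) * ‖y - x‖ ^ (1 + α) := by
        rw [Finset.sum_mul]
        refine Finset.sum_le_sum fun i _ => ?_
        rw [Finset.sum_mul]
        exact Finset.sum_le_sum fun j _ => hL2 i j y (hrR i j hy')
      refine e1.trans ?_
      have := mul_nonneg hS (Real.rpow_nonneg (norm_nonneg (y - x)) (1 + α))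
      linarith

private theorem sum_det_updateRow (K1 X : Mat n) :
    ∑ i, (K1.updateRow i (X i)).det = Matrix.trace (K1.adjugate * X) := by
  have h1 : ∀ i, (K1.updateRow i (X i)).det = ∑ j, K1.adjugate j i * X i j := by
    intro i
    rw [← Matrix.cramer_transpose_apply, Matrix.cramer_eq_adjugate_mulVec, ← Matrix.adjugate_transpose]
    rfl
  simp only [h1, Matrix.trace, Matrix.diag_apply, Matrix.mul_apply]
  exact Finset.sum_comm

private theorem norm_det_le (K : Mat n) (b : Fin n → ℝ) (hb : ∀ i j, ‖K i j‖ ≤ b i) :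
    ‖K.det‖ ≤ (n.factorial : ℝ) * ∏ i, b i := by
  rw [Matrix.det_apply]
  refine (norm_sum_le _ _).trans ?_
  have h1 : ∀ σ ∈ (Finset.univ : Finset (Equiv.Perm (Fin n))),
      ‖Equiv.Perm.sign σ • ∏ i, K (σ i) i‖ ≤ ∏ i, b i := by
    intro σ _
    have h2 : ‖Equiv.Perm.sign σ • ∏ i, K (σ i) i‖ = ∏ i, ‖K (σ i) i‖ := by
      rcases Int.units_eq_one_or (Equiv.Perm.sign σ) with h | h <;> rw [h] <;> simp [norm_prod]
    rw [h2]
    calc ∏ i, ‖K (σ i) i‖ ≤ ∏ i, b (σ i) := Finset.prod_le_prod (fun _ _ => norm_nonneg _) fun i _ => hb _ _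
      _ = ∏ i, b i := Equiv.prod_comp σ b
  refine (Finset.sum_le_card_nsmul _ _ _ h1).trans ?_
  rw [Finset.card_univ, Fintype.card_perm, Fintype.card_fin, nsmul_eq_mul]

private theorem piece_bound {x M0 : ℝ} (hx : 0 ≤ x) (hxM : x ≤ M0) (hM : 1 ≤ M0) (s : Finset (Fin n)) (hs : 2 ≤ s.card) :
    ∏ i, (if i ∈ s then x else M0) ≤ x ^ 2 * M0 ^ n := by
  have hM0 : 0 ≤ M0 := zero_le_one.trans hM
  rw [Finset.prod_ite, Finset.prod_const, Finset.prod_const]
  have h1 : (Finset.univ.filter fun i => i ∈ s) = s := by ext; simp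
  have h2 : (Finset.univ.filter fun i => i ∉ s) = sᶜ := by ext; simp
  rw [h1, h2, Finset.card_compl, Fintype.card_fin]
  have hsn : s.card ≤ n := by simpa using Finset.card_le_univ s
  obtain ⟨k, hk⟩ := Nat.exists_eq_add_of_le hs
  rw [hk, pow_add, mul_assoc]
  refine mul_le_mul_of_nonneg_left ?_ (by positivity)
  calc x ^ k * M0 ^ (n - (2 + k)) ≤ M0 ^ k * M0 ^ (n - (2 + k)) := by gcongr
    _ = M0 ^ (k + (n - (2 + k))) := (pow_add _ _ _).symm
    _ ≤ M0 ^ n := pow_le_pow_right₀ hM (by omega)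

theorem det_expand (n : ℕ) (N : ℝ) : ∃ C : ℝ, 0 ≤ C ∧ ∀ K K1 : Mat n, nK K ≤ N → nK K1 ≤ N →
    |K.det.re - K1.det.re - pr K1.adjugate (K - K1)| ≤ C * nK (K - K1) ^ 2 := by
  set M0 : ℝ := 2 * |N| + 1 with hM0
  have hM1 : 1 ≤ M0 := by rw [hM0]; have := abs_nonneg N; linarith
  refine ⟨(2 : ℝ) ^ n * ((n.factorial : ℝ) * M0 ^ n), by positivity, ?_⟩
  intro K K1 hK hK1
  set X := K - K1 with hX
  have hXM : nK X ≤ M0 := by
    have h1 : nK X ≤ nK K + nK K1 := by
      have := nK_add_le K (-K1)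
      rw [← sub_eq_add_neg] at this
      refine this.trans (le_of_eq ?_)
      congr 1
      simp [nK]
    have := le_abs_self N
    rw [hM0]; linarith
  have hK1M : nK K1 ≤ M0 := by
    have := le_abs_self N
    have := abs_nonneg N
    rw [hM0]; linarith
  have hexp : K.det = ∑ s : Finset (Fin n), Matrix.det (fun i => if i ∈ s then X i else K1 i) := by
    have h1 := (Matrix.detRowAlternating (n := Fin n) (R := ℂ)).toMultilinearMap.map_add_univ X K1
    have h2 : K = X + K1 := by rw [hX, sub_add_cancel]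
    conv_lhs => rw [h2]
    exact h1
  have hfil : (Finset.univ.filter fun s : Finset (Fin n) => s.card ≤ 1) =
      insert ∅ (Finset.univ.map ⟨fun i : Fin n => ({i} : Finset (Fin n)), Finset.singleton_injective⟩) := by
    ext s
    simp only [Finset.mem_filter, Finset.mem_univ, true_and, Finset.mem_insert, Finset.mem_map,
      Function.Embedding.coeFn_mk]
    constructor
    · intro h
      rcases Nat.le_one_iff_eq_zero_or_eq_one.1 h with h | h
      · exact Or.inl (Finset.card_eq_zero.1 h)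
      · obtain ⟨a, ha⟩ := Finset.card_eq_one.1 h
        exact Or.inr ⟨a, ha.symm⟩
    · rintro (h | ⟨a, rfl⟩)
      · rw [h]; simp
      · simp
  have hsplit := Finset.sum_filter_add_sum_filter_not (Finset.univ : Finset (Finset (Fin n)))
    (fun s => s.card ≤ 1) (fun s => Matrix.det (fun i => if i ∈ s then X i else K1 i))
  rw [← hexp, hfil, Finset.sum_insert (by simp), Finset.sum_map] at hsplit
  have hs1 : Matrix.det (fun i => if i ∈ (∅ : Finset (Fin n)) then X i else K1 i) = K1.det := by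
    simp
  have hs2 : ∀ i : Fin n, Matrix.det (fun k => if k ∈ ({i} : Finset (Fin n)) then X k else K1 k) =
      (K1.updateRow i (X i)).det := by
    intro i
    congr 1
    ext k l
    by_cases hk : k = i
    · subst hk; simp
    · simp [hk]
  simp only [Function.Embedding.coeFn_mk] at hsplit
  rw [hs1, Finset.sum_congr rfl fun i _ => hs2 i, sum_det_updateRow] at hsplit
  have hrest : ‖∑ s ∈ (Finset.univ : Finset (Finset (Fin n))).filter (fun s => ¬ s.card ≤ 1),
      Matrix.det (fun i => if i ∈ s then X i else K1 i)‖ ≤ (2 : ℝ) ^ n * ((n.factorial : ℝ) * M0 ^ n) * nK X ^ 2 := by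
    refine (norm_sum_le _ _).trans ?_
    have hb : ∀ s ∈ (Finset.univ : Finset (Finset (Fin n))).filter (fun s => ¬ s.card ≤ 1),
        ‖Matrix.det (fun i => if i ∈ s then X i else K1 i)‖ ≤ (n.factorial : ℝ) * (nK X ^ 2 * M0 ^ n) := by
      intro s hs
      have hs' : 2 ≤ s.card := by
        have := (Finset.mem_filter.1 hs).2
        omega
      refine (norm_det_le _ (fun i => if i ∈ s then nK X else M0) ?_).trans ?_
      · intro i j
        by_cases hi : i ∈ s
        · simp only [hi, if_true]; exact entry_le_nK X i j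
        · simp only [hi, if_false]; exact (entry_le_nK K1 i j).trans hK1M
      · exact mul_le_mul_of_nonneg_left (piece_bound (nK_nonneg X) hXM hM1 s hs') (by positivity)
    refine (Finset.sum_le_card_nsmul _ _ _ hb).trans ?_
    rw [nsmul_eq_mul]
    have hcard : (((Finset.univ : Finset (Finset (Fin n))).filter (fun s => ¬ s.card ≤ 1)).card : ℝ) ≤ (2 : ℝ) ^ n := by
      have := Finset.card_filter_le (Finset.univ : Finset (Finset (Fin n))) (fun s => ¬ s.card ≤ 1)
      rw [Finset.card_univ, Fintype.card_finset, Fintype.card_fin] at this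
      exact_mod_cast this
    calc _ ≤ (2 : ℝ) ^ n * ((n.factorial : ℝ) * (nK X ^ 2 * M0 ^ n)) :=
          mul_le_mul_of_nonneg_right hcard (by positivity)
      _ = _ := by ring
  refine le_trans ?_ hrest
  have hre : K.det.re - K1.det.re - pr K1.adjugate X =
      (∑ s ∈ (Finset.univ : Finset (Finset (Fin n))).filter (fun s => ¬ s.card ≤ 1),
      Matrix.det (fun i => if i ∈ s then X i else K1 i)).re := by
    rw [← hsplit, Complex.add_re, Complex.add_re, pr]
    ring
  rw [hre]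
  exact Complex.abs_re_le_norm _

private theorem jacobi_sum (A D : Mat n) :
    ∑ σ : Equiv.Perm (Fin n), Equiv.Perm.sign σ • ∑ i, (∏ j ∈ Finset.univ.erase i, A (σ j) j) * D (σ i) i =
      Matrix.trace (A.adjugate * D) := by
  have h1 : ∀ i, (A.updateCol i (fun k => D k i)).det =
      ∑ σ : Equiv.Perm (Fin n), Equiv.Perm.sign σ • ((∏ j ∈ Finset.univ.erase i, A (σ j) j) * D (σ i) i) := by
    intro i
    rw [Matrix.det_apply]
    refine Finset.sum_congr rfl fun σ _ => ?_
    congr 1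
    rw [← Finset.prod_erase_mul _ _ (Finset.mem_univ i)]
    congr 1
    · refine Finset.prod_congr rfl fun j hj => ?_
      rw [Matrix.updateCol_ne (Finset.ne_of_mem_erase hj)]
    · rw [Matrix.updateCol_self]
  have h2 : ∀ i, (A.updateCol i (fun k => D k i)).det = ∑ k, A.adjugate i k * D k i := by
    intro i
    rw [← Matrix.cramer_apply, Matrix.cramer_eq_adjugate_mulVec]
    rfl
  simp only [Matrix.trace, Matrix.diag_apply, Matrix.mul_apply]
  rw [← Finset.sum_congr rfl fun i _ => h2 i, Finset.sum_congr rfl fun i _ => h1 i, Finset.sum_comm]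
  exact Finset.sum_congr rfl fun σ _ => Finset.smul_sum

theorem fderiv_det {H : V n → Mat n} {z : V n} (h : ∀ i j, DifferentiableAt ℝ (fun x => H x i j) z) (v : V n) :
    fderiv ℝ (fun x => (H x).det.re) z v = pr (H z).adjugate (fun i j => fderiv ℝ (fun x => H x i j) z v) := by
  have hline : ∀ i j, HasFDerivAt (fun x => H x i j) (fderiv ℝ (fun x => H x i j) z) z := fun i j => (h i j).hasFDerivAt
  have hdet : HasFDerivAt (fun x => (H x).det) (∑ σ : Equiv.Perm (Fin n), Equiv.Perm.sign σ •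
      ∑ i, (∏ j ∈ Finset.univ.erase i, H z (σ j) j) • fderiv ℝ (fun x => H x (σ i) i) z) z := by
    simp only [Matrix.det_apply]
    refine HasFDerivAt.fun_sum fun σ _ => ?_
    exact (HasFDerivAt.finsetProd fun i _ => hline (σ i) i).const_smul (Equiv.Perm.sign σ)
  have hre := (Complex.reCLM.hasFDerivAt.comp z hdet).fderiv
  have hfun : (fun x => (H x).det.re) = Complex.reCLM ∘ fun x => (H x).det := rfl
  have hj := jacobi_sum (H z) (fun i j => fderiv ℝ (fun x => H x i j) z v)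
  rw [hfun, hre]
  refine Eq.trans ?_ (congrArg Complex.re hj)
  rw [ContinuousLinearMap.comp_apply, Complex.reCLM_apply]
  refine congrArg Complex.re ?_
  simp

end Pool.Agent.Helper87.RG
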