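import Pool.Agent.Helper87.RG.D9
import Pool.Agent.Helper87.RG.D10
import Pool.Agent.Helper87.RG.D10b

/-!
# Project REG, block D12: the exponent can be doubled; the gain of one derivative

Common set-up: `x0 ∈ U`; `v` is `C²` on `U` (`CR.contDiffOn`), `hess v` is locally `g`-Hölder (`CR.hess`, `nK_hoelder`). `P(x) = (hess v x).adjugate` is positive definite (`adj_bounds`) and continuous, so on a compact ball around `x0`: `tr P ≤ Λ`, `det P ≥ c > 0` (compactness), `nK (hess v) ≤ N0`. `frame_bound`: for every `x1` near `x0` a frame `A` with `sA A K = pr (P x1) K`, bounds uniform in `x1`.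
`f y = sA A (hess v y)`; mean value identity: `mean_C2`. `f y - pr (P x1) (hess v x1) = pr (P x1) (hess v y - hess v x1) = F y - F x1 - E`, `|E| ≤ C nK (hess v y - hess v x1)² ≤ C' ‖y - x1‖^(2g)` (`det_expand`).
`doubling` (`g ≤ 1/2`): `|F y - F x1| ≤ L ‖y - x1‖` (`C¹`, small balls), and `‖y - x1‖ ≤ 1`: `|f y - c0| ≤ C'' ‖y - x1‖^β`, `β = 3g/2 ≤ 2g`, `β ≤ 3/4 < 1`. `PS1`.
`gain` (`1/2 < g < 1`): `|F y - F x1 - F'(x1)(y - x1)| ≤ L ‖y - x1‖²` (`F` is `C²`; Taylor), so with `c0 = pr (P x1) (hess v x1)`, `l = fderiv ℝ F x1`: `|f y - c0 - l (y - x1)| ≤ C'' ‖y - x1‖^(2g)`, `2g = 1 + (2g - 1)`. `PS2` with `w = v`.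
-/

set_option autoImplicit false

namespace Pool.Agent.Helper87.RG

open MeasureTheory Set Filter Topology Metric
open Helper29.AM
open scoped ComplexOrder

private theorem pr_sub52 {n : ℕ} (P K L : Mat n) : pr P (K - L) = pr P K - pr P L := by
  unfold pr
  rw [Matrix.mul_sub, Matrix.trace_sub, Complex.sub_re]

private theorem det_real52 {n : ℕ} {K : Mat n} (hK : K.PosDef) :
    0 < K.det.re ∧ K.det = ((K.det.re : ℝ) : ℂ) := by
  have hd : 0 < K.det := hK.det_pos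
  have h1 := Complex.lt_def.1 hd
  refine ⟨h1.1, Complex.ext (by simp) ?_⟩
  simpa using h1.2.symm

/-- the common local data of `doubling` and `gain` -/
private theorem common52 {n : ℕ} {U : Set (V n)} (hU : IsOpen U) {v F : V n → ℝ} {g : ℝ}
    (hg : 0 < g) (hg1 : g ≤ 1) (hv : CR g U 2 v) (hpd : ∀ z ∈ U, (hess v z).PosDef)
    (hdet : ∀ z ∈ U, (hess v z).det.re = F z) (hF : ContinuousOn F U) {x0 : V n} (hx0 : x0 ∈ U) :
    ∃ r0 C N : ℝ, 0 < r0 ∧ r0 ≤ 1 ∧ 0 ≤ C ∧ ball x0 r0 ⊆ U ∧ ∀ x1 ∈ ball x0 r0,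
      ∃ (A : Lin n) (f : V n → ℝ) (c0 : ℝ), A.det ≠ 0 ∧ ‖A‖ ≤ N ∧ (∀ w, ‖w‖ ≤ N * ‖A w‖) ∧
        ContinuousOn f U ∧
        (∀ y ∈ ball x0 r0, |f y - c0 - (F y - F x1)| ≤ C * ‖y - x1‖ ^ (2 * g)) ∧
        ∀ Ω : Set (V n), IsOpen Ω → Ω ⊆ U → ∀ (x : V n) (t : ℝ), 0 ≤ t → ellIn A t x Ω →
          M ((t : ℂ) • A) v x - v x = ∫ r in (0 : ℝ)..t, 2 * r * M1 ((r : ℂ) • A) f x := by
  have hH : ∀ i j, CC g U 0 fun z => hess v z i j := fun i j => CR.hess hg hg1 hU hv i j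
  have hP : ∀ i j, CC g U 0 fun z => (hess v z).adjugate i j :=
    fun i j => CC.adjugate hg hg1 hU hH i j
  have hv2 : ContDiffOn ℝ 2 v U := CR.contDiffOn (k := 2) hg hU hv
  obtain ⟨r1, C1, hr1, hC1, hs1, hb1, hh1⟩ := nK_hoelder hg hU hH hx0
  obtain ⟨r2, C2, hr2, hC2, hs2, hb2, -⟩ := nK_hoelder hg hU hP hx0
  have hF0 : 0 < F x0 := by
    rw [← hdet x0 hx0]
    exact (det_real52 (hpd x0 hx0)).1
  have hev : ∀ᶠ y in 𝓝 x0, F x0 / 2 < F y :=
    (hF.continuousAt (hU.mem_nhds hx0)).eventually (lt_mem_nhds (by linarith))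
  obtain ⟨r3, hr3, hb3⟩ := Metric.eventually_nhds_iff_ball.1 hev
  have hcpos : 0 < (F x0 / 2) ^ (n - 1) := pow_pos (by linarith) _
  obtain ⟨N, -, hN⟩ := frame_bound n (Λ := C2 * nK (1 : Mat n)) hcpos
  obtain ⟨C3, hC3, hexp⟩ := det_expand n C1
  refine ⟨min (min r1 r2) (min r3 1), C3 * C1 ^ 2, N, lt_min (lt_min hr1 hr2) (lt_min hr3 one_pos),
    (min_le_right _ _).trans (min_le_right _ _), by positivity,
    (ball_subset_ball ((min_le_left _ _).trans (min_le_left _ _))).trans hs1, ?_⟩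
  intro x1 hx1
  have h11 : x1 ∈ ball x0 r1 := ball_subset_ball ((min_le_left _ _).trans (min_le_left _ _)) hx1
  have h12 : x1 ∈ ball x0 r2 := ball_subset_ball ((min_le_left _ _).trans (min_le_right _ _)) hx1
  have h13 : x1 ∈ ball x0 r3 := ball_subset_ball ((min_le_right _ _).trans (min_le_left _ _)) hx1
  have hx1U : x1 ∈ U := hs1 h11
  obtain ⟨hd0, hd1⟩ := det_real52 (hpd x1 hx1U)
  have hadjpd : ((hess v x1).adjugate).PosDef := by
    have hd : 0 < (hess v x1).det := (hpd x1 hx1U).det_pos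
    have hu : IsUnit (hess v x1).det := isUnit_iff_ne_zero.2 hd.ne'
    have h1 : (hess v x1).adjugate = (hess v x1).det • (hess v x1)⁻¹ := by
      rw [Matrix.inv_def, smul_smul, Ring.mul_inverse_cancel _ hu, one_smul]
    rw [h1]
    exact (hpd x1 hx1U).inv.smul hd
  have htr : (Matrix.trace ((hess v x1).adjugate)).re ≤ C2 * nK (1 : Mat n) := by
    have h1 := abs_pr_le ((hess v x1).adjugate) (1 : Mat n)
    have h2 : pr ((hess v x1).adjugate) (1 : Mat n) = (Matrix.trace ((hess v x1).adjugate)).re := by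
      unfold pr
      rw [mul_one]
    rw [h2] at h1
    exact (le_abs_self _).trans (h1.trans (mul_le_mul_of_nonneg_right (hb2 x1 h12) (nK_nonneg _)))
  have hdd : (F x0 / 2) ^ (n - 1) ≤ ((hess v x1).adjugate).det.re := by
    rw [Matrix.det_adjugate, Fintype.card_fin, hd1, ← Complex.ofReal_pow, Complex.ofReal_re, hdet x1 hx1U]
    exact pow_le_pow_left₀ (by linarith) (hb3 x1 h13).le _
  obtain ⟨A, hA1, hA2, hA3, hA4⟩ := hN _ hadjpd htr hdd
  refine ⟨A, fun y => pr ((hess v x1).adjugate) (hess v y), pr ((hess v x1).adjugate) (hess v x1),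
    hA1, hA2, hA3, ?_, ?_, ?_⟩
  · have h1 : CR g U 0 fun y => pr ((hess v x1).adjugate) (hess v y) :=
      CC.pr hg hg1 hU (P := fun _ => (hess v x1).adjugate) (K := fun y => hess v y)
        (fun i j => CC.const hU hg _) hH
    exact (CR.contDiffOn (k := 0) hg hU h1).continuousOn
  · intro y hy
    have hy1 : y ∈ ball x0 r1 := ball_subset_ball ((min_le_left _ _).trans (min_le_left _ _)) hy
    have h1 := hexp (hess v y) (hess v x1) (hb1 y hy1) (hb1 x1 h11)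
    rw [hdet y (hs1 hy1), hdet x1 hx1U, pr_sub52] at h1
    have h2 : |pr ((hess v x1).adjugate) (hess v y) - pr ((hess v x1).adjugate) (hess v x1) -
        (F y - F x1)| = |F y - F x1 - (pr ((hess v x1).adjugate) (hess v y) -
          pr ((hess v x1).adjugate) (hess v x1))| := abs_sub_comm _ _
    simp only
    rw [h2]
    refine h1.trans ?_
    have h3 := hh1 x1 h11 y hy1
    have h4 : nK (hess v y - hess v x1) ^ 2 ≤ (C1 * ‖y - x1‖ ^ g) ^ 2 :=
      pow_le_pow_left₀ (nK_nonneg _) h3 2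
    have h5 : (C1 * ‖y - x1‖ ^ g) ^ 2 = C1 ^ 2 * ‖y - x1‖ ^ (2 * g) := by
      rw [mul_pow, ← Real.rpow_natCast (‖y - x1‖ ^ g) 2, ← Real.rpow_mul (norm_nonneg _), mul_comm g]
      norm_num
    calc C3 * nK (hess v y - hess v x1) ^ 2 ≤ C3 * (C1 ^ 2 * ‖y - x1‖ ^ (2 * g)) := by
          rw [← h5]
          exact mul_le_mul_of_nonneg_left h4 hC3
      _ = C3 * C1 ^ 2 * ‖y - x1‖ ^ (2 * g) := by ring
  · intro Ω hΩ hΩU x t ht hx
    have h1 := mean_C2 hΩ (hv2.mono hΩU) A ht hx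
    have h2 : (fun y => sA A (hess v y)) = fun y => pr ((hess v x1).adjugate) (hess v y) := by
      funext y
      exact hA4 _
    rw [h2] at h1
    exact h1

theorem doubling {n : ℕ} (hn : 0 < n) {U : Set (V n)} (hU : IsOpen U) {v F : V n → ℝ} {g : ℝ} (hg : 0 < g) (hg1 : g ≤ 1 / 2)
    (hv : CR g U 2 v) (hpd : ∀ z ∈ U, (hess v z).PosDef) (hdet : ∀ z ∈ U, (hess v z).det.re = F z) (hF : ContDiffOn ℝ 1 F U) :
    CR (3 / 2 * g) U 2 v := by
  have hg1' : g ≤ 1 := by linarith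
  refine PS1 (by linarith) (by linarith) hU (CR.contDiffOn (k := 2) hg hU hv).continuousOn ?_
  intro x0 hx0
  obtain ⟨r0, C, N, hr0, hr01, hC, hsub, hcom⟩ :=
    common52 hU hg hg1' hv hpd hdet hF.continuousOn hx0
  have hF1 : CR 1 U 0 F := CR.of_contDiffOn (k := 0) one_pos le_rfl hU (by simpa using hF)
  obtain ⟨rF, L, hrF, hL, -, -, hhF⟩ := CR.hoelder one_pos hU hF1 hx0
  have hrpos : 0 < min r0 rF / 4 := by positivity
  have hrr0 : min r0 rF / 4 ≤ r0 / 4 := by linarith [min_le_left r0 rF]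
  have hrrF : min r0 rF / 4 ≤ rF / 4 := by linarith [min_le_right r0 rF]
  have hb0 : ball x0 (2 * (min r0 rF / 4)) ⊆ ball x0 r0 := ball_subset_ball (by linarith)
  have hbF : ball x0 (2 * (min r0 rF / 4)) ⊆ ball x0 rF := ball_subset_ball (by linarith)
  refine ⟨min r0 rF / 4, L + C, N, hrpos, hb0.trans hsub, ?_⟩
  intro x1 hx1
  have hx12 : x1 ∈ ball x0 (2 * (min r0 rF / 4)) := ball_subset_ball (by linarith) hx1
  obtain ⟨A, f, c0, hA1, hA2, hA3, hf, hfb, hm⟩ := hcom x1 (hb0 hx12)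
  refine ⟨A, f, c0, hA1, hA2, hA3, hf.mono (hb0.trans hsub), ?_,
    hm _ isOpen_ball (hb0.trans hsub)⟩
  intro y hy
  have h1 := hfb y (hb0 hy)
  have h2 := hhF x1 (hbF hx12) y (hbF hy)
  rw [Real.rpow_one] at h2
  have hd : ‖y - x1‖ ≤ 1 := by
    have h3 : dist y x1 ≤ dist y x0 + dist x0 x1 := dist_triangle _ _ _
    rw [mem_ball] at hy hx1
    rw [dist_comm x0 x1] at h3
    rw [← dist_eq_norm]
    linarith
  have h4 : ‖y - x1‖ ≤ ‖y - x1‖ ^ (3 / 2 * g) := by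
    rcases eq_or_lt_of_le (norm_nonneg (y - x1)) with h0 | h0
    · rw [← h0]
      exact Real.rpow_nonneg le_rfl _
    · calc ‖y - x1‖ = ‖y - x1‖ ^ (1 : ℝ) := (Real.rpow_one _).symm
        _ ≤ _ := Real.rpow_le_rpow_of_exponent_ge h0 hd (by linarith)
  have h5 : ‖y - x1‖ ^ (2 * g) ≤ ‖y - x1‖ ^ (3 / 2 * g) :=
    Real.rpow_le_rpow_of_exponent_ge' (norm_nonneg _) hd (by linarith) (by linarith)
  calc |f y - c0| = |(f y - c0 - (F y - F x1)) + (F y - F x1)| := by ring_nf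
    _ ≤ |f y - c0 - (F y - F x1)| + |F y - F x1| := abs_add_le _ _
    _ ≤ C * ‖y - x1‖ ^ (2 * g) + L * ‖y - x1‖ := add_le_add h1 h2
    _ ≤ C * ‖y - x1‖ ^ (3 / 2 * g) + L * ‖y - x1‖ ^ (3 / 2 * g) :=
        add_le_add (mul_le_mul_of_nonneg_left h5 hC) (mul_le_mul_of_nonneg_left h4 hL)
    _ = (L + C) * ‖y - x1‖ ^ (3 / 2 * g) := by ring

theorem gain {n : ℕ} (hn : 0 < n) {U : Set (V n)} (hU : IsOpen U) {v F : V n → ℝ} {g : ℝ} (hg : 1 / 2 < g) (hg1 : g < 1)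
    (hv : CR g U 2 v) (hpd : ∀ z ∈ U, (hess v z).PosDef) (hdet : ∀ z ∈ U, (hess v z).det.re = F z) (hF : ContDiffOn ℝ 2 F U) :
    CR (2 * g - 1) U 3 v := by
  have hg0 : 0 < g := by linarith
  have hv2 : ContDiffOn ℝ 2 v U := CR.contDiffOn (k := 2) hg0 hU hv
  have hv1 : ContDiffOn ℝ 1 v U := hv2.of_le (by norm_num)
  refine ⟨hv1.differentiableOn (by norm_num), fun w => ?_⟩
  refine PS2 (by linarith) (by linarith) hU hv1 ?_ w
  intro x0 hx0
  obtain ⟨r0, C, N, hr0, hr01, hC, hsub, hcom⟩ :=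
    common52 hU hg0 hg1.le hv hpd hdet hF.continuousOn hx0
  have hF1 : CR 1 U 1 F := CR.of_contDiffOn (k := 1) one_pos le_rfl hU (by
    have h12 : (((1 : ℕ) : WithTop ℕ∞) + 1) = 2 := by norm_num
    rw [h12]
    exact hF)
  obtain ⟨rF, L, hrF, hL, -, -, hhF⟩ := CR.taylor one_pos le_rfl hU hF1 hx0
  have hrpos : 0 < min r0 rF / 4 := by positivity
  have hrr0 : min r0 rF / 4 ≤ r0 / 4 := by linarith [min_le_left r0 rF]
  have hrrF : min r0 rF / 4 ≤ rF / 4 := by linarith [min_le_right r0 rF]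
  have hb0 : ball x0 (2 * (min r0 rF / 4)) ⊆ ball x0 r0 := ball_subset_ball (by linarith)
  have hbF : ball x0 (2 * (min r0 rF / 4)) ⊆ ball x0 rF := ball_subset_ball (by linarith)
  refine ⟨min r0 rF / 4, L + C, N, hrpos, hb0.trans hsub, ?_⟩
  intro x1 hx1
  have hx12 : x1 ∈ ball x0 (2 * (min r0 rF / 4)) := ball_subset_ball (by linarith) hx1
  obtain ⟨A, f, c0, hA1, hA2, hA3, hf, hfb, hm⟩ := hcom x1 (hb0 hx12)
  refine ⟨A, f, c0, fderiv ℝ F x1, hA1, hA2, hA3, hf.mono (hb0.trans hsub), ?_,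
    hm _ isOpen_ball (hb0.trans hsub)⟩
  intro y hy
  have h1 := hfb y (hb0 hy)
  have h2 := hhF x1 (hbF hx12) y (hbF hy)
  have hd : ‖y - x1‖ ≤ 1 := by
    have h3 : dist y x1 ≤ dist y x0 + dist x0 x1 := dist_triangle _ _ _
    rw [mem_ball] at hy hx1
    rw [dist_comm x0 x1] at h3
    rw [← dist_eq_norm]
    linarith
  have h4 : ‖y - x1‖ ^ ((1 : ℝ) + 1) ≤ ‖y - x1‖ ^ (1 + (2 * g - 1)) :=
    Real.rpow_le_rpow_of_exponent_ge' (norm_nonneg _) hd (by linarith) (by linarith)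
  have h5 : ‖y - x1‖ ^ (2 * g) = ‖y - x1‖ ^ (1 + (2 * g - 1)) := by
    congr 1
    ring
  rw [h5] at h1
  calc |f y - c0 - fderiv ℝ F x1 (y - x1)| =
        |(f y - c0 - (F y - F x1)) + (F y - F x1 - fderiv ℝ F x1 (y - x1))| := by ring_nf
    _ ≤ |f y - c0 - (F y - F x1)| + |F y - F x1 - fderiv ℝ F x1 (y - x1)| := abs_add_le _ _
    _ ≤ C * ‖y - x1‖ ^ (1 + (2 * g - 1)) + L * ‖y - x1‖ ^ ((1 : ℝ) + 1) := add_le_add h1 h2
    _ ≤ C * ‖y - x1‖ ^ (1 + (2 * g - 1)) + L * ‖y - x1‖ ^ (1 + (2 * g - 1)) :=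
        add_le_add le_rfl (mul_le_mul_of_nonneg_left h4 hL)
    _ = (L + C) * ‖y - x1‖ ^ (1 + (2 * g - 1)) := by ring

end Pool.Agent.Helper87.RG
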