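import Pool.Agent.Helper87.RG.D14
import Pool.Agent.Helper87.RG.D12

/-!
# Project REG, block D15: the nonlinear equation, smoothness

`nonlinear_all`. PROOF. Induction over `m`: `v` is `CR (m+3)` on `U`. Step `m → m + 1`: let `e : V n`, `w = fderiv ℝ v · e` (`CR (m+2)`, so `CR 2`), `a z = (hess v z).adjugate`: entries `CC (m+1)` (`CR.hess`, `CC.adjugate`), positive definite (`adj_bounds`), `F z = (hess v z).det.re`: `CR (m+1)` (`CC.det`), `g z = F z * (τ * fderiv ℝ v z e + fderiv ℝ k z e)`: `CR (m+1)` (`k` is smooth: `CR.of_contDiffOn_infty`).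
On `U`: `pr (a z) (hess w z) = pr (a z) (∂_e hess v z)` (`hess_fderiv`) `= ∂_e (det hess v).re` (`fderiv_det`) `= ∂_e exp (τ v + k) = g z`. `linear_all` with `k = m`: `w` is `CR (m+3)` for every `e`, so `v` is `CR (m+4)`.
`smooth_of_CR`. PROOF. `F = exp (τ v + k)` is `C²` on `U` (`CR.contDiffOn`). Iterate `doubling`: let `j` be minimal with `(3/2)^j α > 1/2`; then `CR ((3/2)^j α) U 2 v` and `(3/2)^j α ≤ 3/4 < 1`. `gain`: `CR β U 3 v`, `β = 2g - 1 ∈ (0, 1)`. `nonlinear_all` for all `m`, `CR.le`, `CR.contDiffOn_infty`.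
-/

set_option autoImplicit false

namespace Pool.Agent.Helper87.RG

open MeasureTheory Set Filter Topology Metric
open Helper29.AM
open scoped ComplexOrder

theorem nonlinear_all {n : ℕ} (hn : 0 < n) {α : ℝ} (hα : 0 < α) (hα1 : α < 1) {U : Set (V n)} (hU : IsOpen U) {v k : V n → ℝ} {τ : ℝ}
    (hv : CR α U 3 v) (hpd : ∀ z ∈ U, (hess v z).PosDef) (hk : ContDiffOn ℝ (⊤ : ℕ∞) k U)
    (hdet : ∀ z ∈ U, (hess v z).det.re = Real.exp (τ * v z + k z)) (m : ℕ) : CR α U (m + 3) v := by
  have hα1' : α ≤ 1 := hα1.le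
  induction m with
  | zero => exact hv
  | succ m ih =>
    have hv3 : ContDiffOn ℝ 3 v U := by
      have h := CR.contDiffOn hα hU hv
      exact_mod_cast h
    have hkm : CR α U (m + 2) k := CR.of_contDiffOn_infty hα hα1' hU hk
    refine ⟨(CR.contDiffOn hα hU ih).differentiableOn (by simp), fun e => ?_⟩
    have hw : CR α U (m + 2) fun x => fderiv ℝ v x e := ih.2 e
    have hhess : ∀ i j, CC α U (m + 1) fun z => hess v z i j := fun i j =>
      CR.hess hα hα1' hU ih i j
    have hF : CR α U (m + 1) fun z => (hess v z).det.re := (CC.det hα hα1' hU hhess).1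
    have hg : CR α U (m + 1) fun z =>
        (hess v z).det.re * (τ * fderiv ℝ v z e + fderiv ℝ k z e) := by
      refine CR.mul hα hα1' hU hF (CR.add hU (CR.const_mul hU ?_ τ) (hkm.2 e))
      exact CR.le hα hα1' hU hw (by omega)
    refine linear_all hα hα1 hU m (CR.le hα hα1' hU hw (by omega))
      (a := fun z => (hess v z).adjugate) (fun i j => CC.adjugate hα hα1' hU hhess i j)
      (fun z hz => ?_) hg fun z hz => ?_
    · have h1 := hpd z hz
      have hdet1 := det_le hn h1 le_rfl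
      exact (adj_bounds hn h1 hdet1.1 le_rfl le_rfl).1
    · have hvat : ContDiffAt ℝ 3 v z := hv3.contDiffAt (hU.mem_nhds hz)
      have hent : ∀ i j, DifferentiableAt ℝ (fun x => hess v x i j) z := by
        intro i j
        have h1 : CC α U 1 fun z => hess v z i j := CR.hess hα hα1' hU hv i j
        have h2 := (h1.1.1.differentiableAt (hU.mem_nhds hz))
        have h3 := (h1.2.1.differentiableAt (hU.mem_nhds hz))
        have h4 : (fun x => hess v x i j) =
            fun x => (((hess v x i j).re : ℝ) : ℂ) + (((hess v x i j).im : ℝ) : ℂ) * Complex.I := by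
          funext x
          exact (Complex.re_add_im _).symm
        rw [h4]
        exact (Complex.ofRealCLM.differentiableAt.comp z h2).add
          ((Complex.ofRealCLM.differentiableAt.comp z h3).mul_const _)
      have h5 : hess (fun y => fderiv ℝ v y e) z =
          fun i j => fderiv ℝ (fun x => hess v x i j) z e := by
        funext i j
        exact (hess_fderiv hU hv3 hz e i j).symm
      rw [h5, ← fderiv_det hent e]
      have h6 : (fun x => (hess v x).det.re) =ᶠ[𝓝 z] fun x => Real.exp (τ * v x + k x) := by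
        filter_upwards [hU.mem_nhds hz] with x hx
        exact hdet x hx
      have hk1 : DifferentiableAt ℝ k z :=
        (hk.contDiffAt (hU.mem_nhds hz)).differentiableAt (by simp)
      have hv1 : DifferentiableAt ℝ v z := hvat.differentiableAt (by simp)
      have h7 : HasFDerivAt (fun x => Real.exp (τ * v x + k x))
          (Real.exp (τ * v z + k z) • (τ • fderiv ℝ v z + fderiv ℝ k z)) z :=
        ((hv1.hasFDerivAt.const_mul τ).add hk1.hasFDerivAt).exp
      rw [h6.fderiv_eq, h7.fderiv, hdet z hz]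
      rfl

theorem smooth_of_CR {n : ℕ} (hn : 0 < n) {α : ℝ} (hα : 0 < α) (hα1 : α ≤ 1 / 2) {U : Set (V n)} (hU : IsOpen U) {v k : V n → ℝ} {τ : ℝ}
    (hv : CR α U 2 v) (hpd : ∀ z ∈ U, (hess v z).PosDef) (hk : ContDiffOn ℝ (⊤ : ℕ∞) k U)
    (hdet : ∀ z ∈ U, (hess v z).det.re = Real.exp (τ * v z + k z)) : ContDiffOn ℝ (⊤ : ℕ∞) v U := by
  have hv2 : ContDiffOn ℝ 2 v U := by
    have h := CR.contDiffOn hα hU hv
    exact_mod_cast h
  have hk2 : ContDiffOn ℝ 2 k U := contDiffOn_infty.1 hk 2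
  have hF : ContDiffOn ℝ 2 (fun z => Real.exp (τ * v z + k z)) U :=
    ((contDiffOn_const.mul hv2).add hk2).exp
  have hit : ∀ j : ℕ, (∀ i < j, (3 / 2 : ℝ) ^ i * α ≤ 1 / 2) → CR ((3 / 2 : ℝ) ^ j * α) U 2 v := by
    intro j
    induction j with
    | zero =>
      intro _
      rw [pow_zero, one_mul]
      exact hv
    | succ j ih =>
      intro h
      have h1 := ih fun i hi => h i (by omega)
      have h2 := doubling hn hU (by positivity) (h j (by omega)) h1 hpd hdet
        (hF.of_le (by norm_num))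
      have h3 : (3 / 2 : ℝ) ^ (j + 1) * α = 3 / 2 * ((3 / 2 : ℝ) ^ j * α) := by ring
      rw [h3]
      exact h2
  have hex : ∃ j : ℕ, 1 / 2 < (3 / 2 : ℝ) ^ j * α := by
    obtain ⟨j, hj⟩ := pow_unbounded_of_one_lt (1 / 2 / α) (by norm_num : (1 : ℝ) < 3 / 2)
    exact ⟨j, by rwa [div_lt_iff₀ hα] at hj⟩
  classical
  have hj1 := Nat.find_spec hex
  have hj2 : ∀ i < Nat.find hex, (3 / 2 : ℝ) ^ i * α ≤ 1 / 2 := fun i hi =>
    not_lt.1 (Nat.find_min hex hi)
  have hj3 := hit _ hj2
  have hj4 : (3 / 2 : ℝ) ^ (Nat.find hex) * α < 1 := by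
    rcases Nat.eq_zero_or_pos (Nat.find hex) with h0 | h0
    · rw [h0, pow_zero]
      linarith
    · have h1 := hj2 (Nat.find hex - 1) (by omega)
      have h2 : (3 / 2 : ℝ) ^ (Nat.find hex) = 3 / 2 * (3 / 2 : ℝ) ^ (Nat.find hex - 1) := by
        conv_lhs => rw [← Nat.sub_add_cancel h0]
        rw [pow_succ]
        ring
      rw [h2]
      nlinarith
  have h3 := gain hn hU hj1 hj4 hj3 hpd hdet hF
  have h4 : 0 < 2 * ((3 / 2 : ℝ) ^ (Nat.find hex) * α) - 1 := by linarith
  have h5 : 2 * ((3 / 2 : ℝ) ^ (Nat.find hex) * α) - 1 < 1 := by linarith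
  refine CR.contDiffOn_infty h4 hU fun m => ?_
  exact CR.le h4 h5.le hU (nonlinear_all hn h4 h5 hU h3 hpd hk hdet m) (by omega)

end Pool.Agent.Helper87.RG
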