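import Pool.Agent.Helper87.RG.R0

/-!
# Project REG, block R13: functions with bounded complex Hessian are `C¹` ((7.1))

`exists_C1`. PROOF. Let `v` be the continuous representative (`BH.exists_continuous`), `w_t = Phi u · t` (smooth on `shr Ω t`). For `0 < s < t` and `z ∈ shr Ω (2t)`-ish: `Phi v z t - Phi v z s = ∫_s^t 2 r N_r(z) dr`, `N_r(z) = ∫ ρ₁(η) g(z + r η) dη`, `g = sA 1 ∘ H = tr H` (for smooth functions by `hasDerivAt_Phi`; in general apply it to `Phi u · ε` and let `ε → 0`, `BH.hess_Phi`, `BH.ae_tendsto`, or use `integral_mul_Phi`/`BH.weak` with the kernel). `N_r` is a convolution of the bounded function `g` with the kernel `r^(-2n) ρ₁(·/r)`, so `‖d N_r(z)‖ ≤ C/r · sup |g|`.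
Hence `‖d w_t(z) - d w_s(z)‖ ≤ ∫_s^t 2 r (C/r) sup|g| dr ≤ 2 C sup|g| (t - s)` on compact subsets: the derivatives `d w_t` converge locally uniformly as `t → 0`, and `w_t → v` locally uniformly: `v` is differentiable with continuous derivative `lim d w_t` (`hasFDerivAt_of_tendstoUniformlyOn`/`hasFDerivAt_of_tendstoLocallyUniformlyOn`).
-/

set_option autoImplicit false

namespace Pool.Agent.Helper87.RG

open MeasureTheory Set Filter Topology Metric
open Helper29.AM
open scoped ComplexOrder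

private theorem two_le_r13 : (1 : WithTop ℕ∞) ≤ ((⊤ : ℕ∞) : WithTop ℕ∞) := by
  show ((1 : ℕ∞) : WithTop ℕ∞) ≤ _
  exact WithTop.coe_le_coe.2 le_top

private theorem finrank_r13 {n : ℕ} : Module.finrank ℝ (V n) = 2 * n := by
  have h := Module.finrank_mul_finrank ℝ ℂ (V n)
  rw [Complex.finrank_real_complex] at h
  rw [← h]
  simp

private theorem Phi_ker_r13 {n : ℕ} (u : V n → ℝ) (x : V n) {s : ℝ} (hs : 0 < s) :
    Phi u x s = ∫ y, u y * (rho (s⁻¹ • (y - x)) / s ^ (2 * n)) := by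
  have h1 := Measure.integral_comp_smul (volume : Measure (V n))
    (fun y => u (x + y) * (rho (s⁻¹ • ((x + y) - x)) / s ^ (2 * n))) s
  rw [integral_add_left_eq_self (fun y => u y * (rho (s⁻¹ • (y - x)) / s ^ (2 * n))) x,
    finrank_r13, smul_eq_mul] at h1
  have hp : 0 < s ^ (2 * n) := pow_pos hs _
  have h2 : ∫ y, u y * (rho (s⁻¹ • (y - x)) / s ^ (2 * n)) = s ^ (2 * n) *
      ∫ η : V n, u (x + s • η) * (rho (s⁻¹ • ((x + s • η) - x)) / s ^ (2 * n)) := by
    rw [h1, abs_of_pos (inv_pos.2 hp), ← mul_assoc, mul_inv_cancel₀ hp.ne', one_mul]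
  rw [h2, ← integral_const_mul]
  unfold Phi M
  refine integral_congr_ae (Eventually.of_forall fun η => ?_)
  simp only
  have h3 : (sc s : Lin n) η = s • η := by rw [sc_apply]; exact Complex.coe_smul s η
  rw [h3, add_sub_cancel_left, smul_smul, inv_mul_cancel₀ hs.ne', one_smul]
  field_simp

/-- the mean at scale `t` of a function bounded by `B` is Lipschitz with constant `C B / t` -/
private theorem lip_r13 (n : ℕ) : ∃ C : ℝ, 0 ≤ C ∧ ∀ (f : V n → ℝ) (x h : V n) (t B : ℝ), 0 < t →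
    ‖h‖ ≤ t → ContinuousOn f (closedBall x (2 * t)) → (∀ y ∈ closedBall x (2 * t), |f y| ≤ B) →
    |Phi f (x + h) t - Phi f x t| ≤ C * B * ‖h‖ / t := by
  obtain ⟨L, hL⟩ := (rho_contDiff (n := n)).lipschitzWith_of_hasCompactSupport
    rho_hasCompactSupport (by simp)
  refine ⟨L * (2 ^ (2 * n) * volume.real (ball (0 : V n) 1)), by positivity,
    fun f x h t B ht hh hf hB => ?_⟩
  have hKm : MeasurableSet (closedBall x (2 * t)) := measurableSet_closedBall
  have hz : ∀ z : V n, ‖z - x‖ ≤ t → ∀ y, y ∉ closedBall x (2 * t) →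
      rho (t⁻¹ • (y - z)) = 0 := by
    intro z hz y hy
    apply rho_eq_zero
    rw [norm_smul, norm_inv, Real.norm_eq_abs, abs_of_pos ht, ← div_eq_inv_mul, le_div_iff₀ ht,
      one_mul]
    rw [mem_closedBall, not_le, dist_eq_norm] at hy
    have h1 : ‖y - x‖ ≤ ‖y - z‖ + ‖z - x‖ := by
      rw [← sub_add_sub_cancel y z x]
      exact norm_add_le _ _
    linarith
  have hcont : ∀ z : V n, Continuous fun y : V n => rho (t⁻¹ • (y - z)) / t ^ (2 * n) := by
    intro z
    have h1 : Continuous (rho : V n → ℝ) := rho_contDiff.continuous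
    have h2 : Continuous fun y : V n => t⁻¹ • (y - z) := by fun_prop
    exact (h1.comp h2).div_const _
  have hint : ∀ z : V n, ‖z - x‖ ≤ t →
      Integrable (fun y => f y * (rho (t⁻¹ • (y - z)) / t ^ (2 * n))) := by
    intro z hzx
    have h1 : IntegrableOn (fun y => f y * (rho (t⁻¹ • (y - z)) / t ^ (2 * n)))
        (closedBall x (2 * t)) volume :=
      (hf.mul (hcont z).continuousOn).integrableOn_compact (isCompact_closedBall x (2 * t))
    refine (integrableOn_iff_integrable_of_support_subset ?_).1 h1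
    intro y hy
    by_contra hno
    exact hy (by simp [hz z hzx y hno])
  have hx0 : ‖x - x‖ ≤ t := by simpa using ht.le
  have hxh : ‖x + h - x‖ ≤ t := by simpa using hh
  rw [Phi_ker_r13 f (x + h) ht, Phi_ker_r13 f x ht, ← integral_sub (hint _ hxh) (hint _ hx0),
    ← Real.norm_eq_abs]
  rw [← setIntegral_eq_integral_of_forall_compl_eq_zero (s := closedBall x (2 * t))
    (fun y hy => by simp only [hz _ hxh y hy, hz _ hx0 y hy, zero_div, mul_zero, sub_zero])]
  have hbound : ∀ y ∈ closedBall x (2 * t),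
      ‖f y * (rho (t⁻¹ • (y - (x + h))) / t ^ (2 * n)) - f y * (rho (t⁻¹ • (y - x)) / t ^ (2 * n))‖
        ≤ B * (L * (‖h‖ / t) / t ^ (2 * n)) := by
    intro y hy
    rw [← mul_sub, ← sub_div, norm_mul, norm_div, Real.norm_eq_abs, norm_pow, Real.norm_eq_abs t,
      abs_of_pos ht]
    have h1 := hL.dist_le_mul (t⁻¹ • (y - (x + h))) (t⁻¹ • (y - x))
    rw [dist_eq_norm, dist_eq_norm, ← smul_sub, norm_smul, norm_inv, Real.norm_eq_abs t,
      abs_of_pos ht, sub_sub_sub_cancel_left, sub_add_cancel_left, norm_neg] at h1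
    have hB0 : 0 ≤ B := (abs_nonneg _).trans (hB y hy)
    refine mul_le_mul (hB y hy) ?_ (by positivity) hB0
    refine div_le_div_of_nonneg_right (h1.trans (le_of_eq ?_)) (by positivity)
    rw [div_eq_inv_mul]
  refine (norm_setIntegral_le_of_norm_le_const measure_closedBall_lt_top hbound).trans
    (le_of_eq ?_)
  rw [Measure.addHaar_real_closedBall _ _ (by positivity : (0 : ℝ) ≤ 2 * t), finrank_r13, mul_pow]
  field_simp

theorem exists_C1 {n : ℕ} (hn : 0 < n) {Ω : Set (V n)} (hΩ : IsOpen Ω) {u : V n → ℝ} {H : V n → Mat n} (h : BH Ω u H) :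
    ∃ v : V n → ℝ, ContDiffOn ℝ 1 v Ω ∧ ∀ᵐ z, z ∈ Ω → u z = v z := by
  obtain ⟨v, hvc, hae, hlim, hK⟩ := h.exists_continuous hΩ
  obtain ⟨L, hL0, hL⟩ := lip_r13 n
  refine ⟨v, fun x₀ hx₀ => ContDiffAt.contDiffWithinAt ?_, hae⟩
  obtain ⟨ρ₀, hρ₀, hball⟩ := nhds_basis_closedBall.mem_iff.1 (hΩ.mem_nhds hx₀)
  obtain ⟨C, r₀, hr₀, hC⟩ := hK (closedBall x₀ ρ₀) hball (isCompact_closedBall _ _)
  have hC0 : 0 ≤ C := by
    have h1 := hC x₀ (mem_closedBall_self hρ₀.le) r₀ hr₀ le_rfl
    have h2 : 0 ≤ C * r₀ ^ 2 := h1.1.trans h1.2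
    exact nonneg_of_mul_nonneg_left h2 (by positivity)
  set R : ℝ := min (ρ₀ / 4) r₀ with hRd
  have hR : 0 < R := lt_min (by positivity) hr₀
  have hR4 : 4 * R ≤ ρ₀ := by
    have := min_le_left (ρ₀ / 4) r₀
    linarith
  set t : ℕ → ℝ := fun k => R / 2 ^ k with htd
  have ht : ∀ k, 0 < t k := fun k => by positivity
  have ht1 : ∀ k, t (k + 1) = t k / 2 := fun k => by
    simp only [htd, pow_succ]
    field_simp
  have htR : ∀ k, t k ≤ R := fun k =>
    div_le_self hR.le (one_le_pow₀ (by norm_num : (1 : ℝ) ≤ 2))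
  have htr : ∀ k, t k ≤ r₀ := fun k => (htR k).trans (min_le_right _ _)
  have htsum : Summable t := by
    have h1 : Summable fun k : ℕ => ((1 : ℝ) / 2) ^ k := summable_geometric_two
    refine (h1.mul_left R).congr fun k => ?_
    simp only [htd, one_div, inv_pow]
    rw [div_eq_mul_inv]
  have htlim : Tendsto t atTop (𝓝[>] 0) :=
    tendsto_nhdsWithin_iff.2 ⟨htsum.tendsto_atTop_zero, Eventually.of_forall ht⟩
  have hreg : ∀ z ∈ ball x₀ R, ∀ r ≤ 3 * R, closedBall z r ⊆ closedBall x₀ ρ₀ := by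
    intro z hz r hr
    refine closedBall_subset_closedBall' ?_
    have := mem_ball.1 hz
    linarith
  have hshr : ∀ z ∈ ball x₀ R, ∀ r ≤ 3 * R, z ∈ shr Ω r := fun z hz r hr =>
    (hreg z hz r hr).trans hball
  set W : ℕ → V n → ℝ := fun k z => Phi u z (t k) with hW
  have hWs : ∀ k, ContDiffOn ℝ (⊤ : ℕ∞) (W k) (shr Ω (t k)) := fun k =>
    contDiffOn_Phi_left hΩ h.int (ht k)
  have hsub : ∀ k, ball x₀ R ⊆ shr Ω (t k) := fun k z hz =>
    hshr z hz _ (by linarith [htR k])
  have hWat : ∀ k, ∀ z ∈ ball x₀ R, DifferentiableAt ℝ (W k) z := fun k z hz =>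
    ((hWs k).differentiableOn (by simp)).differentiableAt
      ((isOpen_shr hΩ _).mem_nhds (hsub k hz))
  have hWc : ∀ k, ContinuousOn (fderiv ℝ (W k)) (ball x₀ R) := fun k =>
    ((hWs k).mono (hsub k)).continuousOn_fderiv_of_isOpen isOpen_ball two_le_r13
  have hvW : ∀ k, ∀ z ∈ closedBall x₀ ρ₀, 0 ≤ W k z - v z ∧ W k z - v z ≤ C * t k ^ 2 :=
    fun k z hz => hC z hz (t k) (ht k) (htr k)
  have hvint : LocallyIntegrableOn v Ω volume := hvc.locallyIntegrableOn hΩ.measurableSet
  have hvPhi : ∀ k, ∀ z ∈ ball x₀ R, W k z = Phi v z (t k) := by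
    intro k z hz
    refine M_congr_ae ?_ hΩ hae ((mem_shr_iff (ht k).le).1 (hsub k hz))
    rw [det_sc]
    exact pow_ne_zero _ (by exact_mod_cast (ht k).ne')
  -- the decomposition
  have hdec : ∀ i j : ℕ, ∀ z ∈ ball x₀ R,
      Phi (fun y => v y - W i y) z (t j) = W j z - Phi (W i) z (t j) := by
    intro i j z hz
    have hz' : z ∈ shr (shr Ω (t i)) (t j) := by
      intro y hy
      refine Subset.trans (closedBall_subset_closedBall' (ε₂ := t i + t j) ?_)
        (hshr z hz (t i + t j) (by linarith [htR i, htR j]))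
      have := mem_closedBall.1 hy
      linarith
    have hO := isOpen_shr hΩ (t i)
    have hsΩ : shr Ω (t i) ⊆ Ω := fun y hy => hy (mem_closedBall_self (ht i).le)
    have hWi : LocallyIntegrableOn (W i) (shr Ω (t i)) volume :=
      (hWs i).continuousOn.locallyIntegrableOn hO.measurableSet
    have hvi : LocallyIntegrableOn (fun y => v y - W i y) (shr Ω (t i)) volume :=
      ((hvc.mono hsΩ).sub (hWs i).continuousOn).locallyIntegrableOn hO.measurableSet
    have h1 := Phi_add hO hvi hWi (ht j) hz'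
    simp only [sub_add_cancel] at h1
    rw [hvPhi j z hz]
    have h2 : Phi (fun y => v y) z (t j) = Phi v z (t j) := rfl
    rw [← h2, h1]
    ring
  have hdec2 : ∀ k, ∀ z ∈ ball x₀ R, W k z - W (k + 1) z =
      Phi (fun y => v y - W (k + 1) y) z (t k) - Phi (fun y => v y - W k y) z (t (k + 1)) := by
    intro k z hz
    rw [hdec (k + 1) k z hz, hdec k (k + 1) z hz]
    have h1 : Phi (W (k + 1)) z (t k) = Phi (W k) z (t (k + 1)) :=
      Phi_Phi_comm hΩ h.int (ht (k + 1)) (ht k)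
        (hshr z hz _ (by linarith [htR k, htR (k + 1)]))
    rw [h1]
    ring
  have hcv : ∀ i, ∀ z ∈ ball x₀ R, ∀ r ≤ 2 * R,
      ContinuousOn (fun y => v y - W i y) (closedBall z r) := by
    intro i z hz r hr
    refine (hvc.mono ((hreg z hz r (by linarith)).trans hball)).sub
      ((hWs i).continuousOn.mono fun y hy => ?_)
    refine Subset.trans (closedBall_subset_closedBall' (ε₂ := t i + r) ?_)
      (hshr z hz (t i + r) (by linarith [htR i]))
    have := mem_closedBall.1 hy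
    linarith
  have hbv : ∀ i, ∀ z ∈ ball x₀ R, ∀ r ≤ 2 * R, ∀ y ∈ closedBall z r,
      |v y - W i y| ≤ C * t i ^ 2 := by
    intro i z hz r hr y hy
    have h1 := hvW i y (hreg z hz r (by linarith) hy)
    rw [abs_sub_comm, abs_of_nonneg h1.1]
    exact h1.2
  set D : ℕ → V n → ℝ := fun k z => W k z - W (k + 1) z with hD
  have hlip : ∀ k, ∀ z ∈ ball x₀ R, ∀ᶠ y in 𝓝 z, ‖D k y - D k z‖ ≤ 3 * L * C * t k * ‖y - z‖ := by
    intro k z hz
    filter_upwards [isOpen_ball.mem_nhds hz, closedBall_mem_nhds z (ht (k + 1))] with y hy hyz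
    have hyn : ‖y - z‖ ≤ t (k + 1) := by rwa [mem_closedBall, dist_eq_norm] at hyz
    have htk : t (k + 1) ≤ t k := by rw [ht1]; linarith [ht k]
    have hyz' : z + (y - z) = y := by abel
    have e1 := hL (fun y => v y - W (k + 1) y) z (y - z) (t k) (C * t (k + 1) ^ 2) (ht k)
      (hyn.trans htk) (hcv (k + 1) z hz _ (by linarith [htR k]))
      (hbv (k + 1) z hz _ (by linarith [htR k]))
    have e2 := hL (fun y => v y - W k y) z (y - z) (t (k + 1)) (C * t k ^ 2) (ht (k + 1))
      hyn (hcv k z hz _ (by linarith [htR (k + 1)]))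
      (hbv k z hz _ (by linarith [htR (k + 1)]))
    rw [hyz'] at e1 e2
    have e3 : D k y - D k z =
        (Phi (fun y => v y - W (k + 1) y) y (t k) - Phi (fun y => v y - W (k + 1) y) z (t k)) -
        (Phi (fun y => v y - W k y) y (t (k + 1)) - Phi (fun y => v y - W k y) z (t (k + 1))) := by
      simp only [hD]
      rw [hdec2 k y hy, hdec2 k z hz]
      ring
    rw [e3, Real.norm_eq_abs]
    refine (abs_sub _ _).trans ?_
    have e4 : L * (C * t (k + 1) ^ 2) * ‖y - z‖ / t k = L * C * ‖y - z‖ * (t k / 4) := by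
      rw [ht1]
      have := (ht k).ne'
      field_simp
      norm_num
      ring
    have e5 : L * (C * t k ^ 2) * ‖y - z‖ / t (k + 1) = L * C * ‖y - z‖ * (2 * t k) := by
      rw [ht1]
      have := (ht k).ne'
      field_simp
    rw [e4] at e1
    rw [e5] at e2
    have e6 : 0 ≤ L * C * ‖y - z‖ * t k := by
      have := ht k
      positivity
    nlinarith
  have hDd : ∀ k, ∀ z ∈ ball x₀ R, HasFDerivAt (D k) (fderiv ℝ (D k) z) z := fun k z hz =>
    ((hWat k z hz).sub (hWat (k + 1) z hz)).hasFDerivAt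
  have hDb : ∀ k, ∀ z ∈ ball x₀ R, ‖fderiv ℝ (D k) z‖ ≤ 3 * L * C * t k := fun k z hz =>
    (hDd k z hz).le_of_lip' (by have := ht k; positivity) (hlip k z hz)
  have hDc : ∀ k, ContinuousOn (fderiv ℝ (D k)) (ball x₀ R) := by
    intro k
    refine ((hWc k).sub (hWc (k + 1))).congr fun z hz => ?_
    exact fderiv_sub (hWat k z hz) (hWat (k + 1) z hz)
  have hsumm : Summable fun k => 3 * L * C * t k := htsum.mul_left _
  have hBR : ∀ z ∈ ball x₀ R, z ∈ closedBall x₀ ρ₀ := fun z hz =>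
    hreg z hz 0 (by linarith) (mem_closedBall_self le_rfl)
  have hDs : ∀ z ∈ ball x₀ R, Summable fun k => D k z := by
    intro z hz
    refine Summable.of_norm_bounded (g := fun k => C * R * t k * 2) (by
      simpa [mul_assoc] using ((htsum.mul_right 2).mul_left (C * R))) fun k => ?_
    have h1 := hvW k z (hBR z hz)
    have h2 := hvW (k + 1) z (hBR z hz)
    have h3 : t (k + 1) ≤ t k := by rw [ht1]; linarith [ht k]
    have h4 : C * t k ^ 2 ≤ C * R * t k := by
      have := mul_le_mul_of_nonneg_left (htR k) (mul_nonneg hC0 (ht k).le)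
      nlinarith
    have h5 : C * t (k + 1) ^ 2 ≤ C * R * t k := by
      have h6 : t (k + 1) ^ 2 ≤ t k ^ 2 := pow_le_pow_left₀ (ht _).le h3 2
      exact (mul_le_mul_of_nonneg_left h6 hC0).trans h4
    rw [Real.norm_eq_abs, abs_le]
    simp only [hD]
    constructor <;> linarith [h1.1, h1.2, h2.1, h2.2, h4, h5, mul_nonneg (mul_nonneg hC0 hR.le) (ht k).le]
  have hDt : ∀ z ∈ ball x₀ R, ∑' k, D k z = W 0 z - v z := by
    intro z hz
    refine tendsto_nhds_unique (hDs z hz).hasSum.tendsto_sum_nat ?_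
    have h1 : (fun k => ∑ i ∈ Finset.range k, D i z) = fun k => W 0 z - W k z := by
      funext k
      exact Finset.sum_range_sub' (fun k => W k z) k
    rw [h1]
    exact tendsto_const_nhds.sub ((hlim z (hball (hBR z hz))).comp htlim)
  rw [contDiffAt_one_iff]
  refine ⟨fun z => fderiv ℝ (W 0) z - ∑' k, fderiv ℝ (D k) z, ball x₀ R, ball_mem_nhds x₀ hR,
    (hWc 0).sub (continuousOn_tsum hDc hsumm hDb), fun z hz => ?_⟩
  have h1 : HasFDerivAt (fun y => ∑' k, D k y) (∑' k, fderiv ℝ (D k) z) z :=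
    hasFDerivAt_tsum_of_isPreconnected hsumm isOpen_ball
      (convex_ball x₀ R).isPreconnected hDd hDb (mem_ball_self hR) (hDs x₀ (mem_ball_self hR)) hz
  refine ((hWat 0 z hz).hasFDerivAt.sub h1).congr_of_eventuallyEq ?_
  filter_upwards [isOpen_ball.mem_nhds hz] with y hy
  show v y = W 0 y - ∑' k, D k y
  rw [hDt y hy]
  ring

end Pool.Agent.Helper87.RG
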