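import Pool.Agent.Helper87.RG.R12
import Pool.Agent.Helper87.RG.R13
import Pool.Agent.Helper87.RG.D11
import Pool.Agent.Helper87.RG.D15

/-!
# Project REG: the regularity theorem (Theorem R of section 7), assembly
-/

set_option autoImplicit false

namespace Pool.Agent.Helper87.RG

open MeasureTheory Set Filter Topology Metric
open Helper29.AM
open scoped ComplexOrder

theorem regularity {n : ℕ} (hn : 0 < n) {O : Set (V n)} (hO : IsOpen O) {u : V n → ℝ}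
    {H : V n → Mat n} (h : BH O u H) {τ : ℝ} (hτ : 0 ≤ τ) {k : V n → ℝ}
    (hk : ContDiffOn ℝ (⊤ : ℕ∞) k O)
    (heq : ∀ᵐ z, z ∈ O → (H z).det = ((Real.exp (τ * u z + k z) : ℝ) : ℂ)) :
    ∃ u' : V n → ℝ, ContDiffOn ℝ (⊤ : ℕ∞) u' O ∧ ∀ᵐ z, z ∈ O → u z = u' z := by
  obtain ⟨v, hv1, huv⟩ := exists_C1 hn hO h
  refine ⟨v, ?_, huv⟩
  intro x0 hx0
  obtain ⟨R, c, Λ, B, H', hR, hsub, hl, hHH⟩ := exists_regLoc hn hO h hv1 huv hτ hk heq hx0
  obtain ⟨α, hα, hα1, hCR, hpd⟩ := start hl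
  have hsub2 : ball x0 (R / 2) ⊆ O := (ball_subset_ball (by linarith)).trans hsub
  have h1 : ContDiffOn ℝ (⊤ : ℕ∞) v (ball x0 (R / 2)) :=
    smooth_of_CR hn hα hα1 isOpen_ball hCR (fun z hz => (hpd z hz).1) (hk.mono hsub2) fun z hz => (hpd z hz).2
  have h2 : ball x0 (R / 2) ∈ 𝓝 x0 := isOpen_ball.mem_nhds (mem_ball_self (by linarith))
  exact (h1.contDiffAt h2).contDiffWithinAt

end Pool.Agent.Helper87.RG
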