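import Pool.Agent.Helper87.RG.CD0

/-!
# Project REG, block CD1: cutoff functions

`exists_cutoff`. There is an absolute constant `C` such that for `0 < r' < r` there is a smooth `ζ` with `0 ≤ ζ ≤ 1`, `ζ = 1` on the closed ball of radius `r'`, support in the closed ball of radius `r`, `‖dζ‖ ≤ C/(r - r')`.
PROOF. `ζ x = Real.smoothTransition ((r² - |x|²)/(r² - r'²))`. `Real.smoothTransition` is smooth, `0` on `(-∞, 0]`, `1` on `[1, ∞)`, so its derivative is continuous and vanishes outside `[0, 1]`: it is bounded by some `C0`. On the closed ball of radius `r`: `‖dζ‖ ≤ C0 · 2 |x|/(r² - r'²) ≤ C0 · 2 r/((r - r')(r + r')) ≤ 2 C0/(r - r')`; outside this ball `dζ = 0`.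
-/

set_option autoImplicit false

open MeasureTheory Set Metric

namespace Pool.Agent.Helper87.RG

private theorem smoothTransition_deriv_bdd26 : ∃ C0 : ℝ, 0 < C0 ∧ ∀ t, |deriv Real.smoothTransition t| ≤ C0 := by
  have hc : Continuous (deriv Real.smoothTransition) :=
    (Real.smoothTransition.contDiff (n := 1)).continuous_deriv (by norm_num)
  obtain ⟨C, hC⟩ := (isCompact_Icc (a := (0 : ℝ)) (b := 1)).exists_bound_of_continuousOn hc.continuousOn
  refine ⟨|C| + 1, by positivity, fun t => ?_⟩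
  by_cases h : t ∈ Icc (0 : ℝ) 1
  · have := hC t h
    rw [Real.norm_eq_abs] at this
    linarith [le_abs_self C]
  · have h1 : deriv Real.smoothTransition t = 0 := by
      rcases lt_or_ge t 0 with h0 | h0
      · have h2 : Real.smoothTransition =ᶠ[nhds t] fun _ => (0 : ℝ) := by
          filter_upwards [Iio_mem_nhds h0] with s hs
          exact Real.smoothTransition.zero_of_nonpos (le_of_lt hs)
        rw [h2.deriv_eq, deriv_const]
      · have h3 : 1 < t := by
          by_contra h4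
          exact h ⟨h0, not_lt.1 h4⟩
        have h2 : Real.smoothTransition =ᶠ[nhds t] fun _ => (1 : ℝ) := by
          filter_upwards [Ioi_mem_nhds h3] with s hs
          exact Real.smoothTransition.one_of_one_le (le_of_lt hs)
        rw [h2.deriv_eq, deriv_const]
    rw [h1, abs_zero]
    positivity

theorem exists_cutoff : ∃ C : ℝ, 0 < C ∧ ∀ (E : Type) [NormedAddCommGroup E] [InnerProductSpace ℝ E] [FiniteDimensional ℝ E],
    ∀ r' r : ℝ, 0 < r' → r' < r → ∃ ζ : E → ℝ, ContDiff ℝ (⊤ : ℕ∞) ζ ∧ HasCompactSupport ζ ∧ tsupport ζ ⊆ closedBall 0 r ∧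
      (∀ x, 0 ≤ ζ x) ∧ (∀ x, ζ x ≤ 1) ∧ (∀ x ∈ closedBall (0 : E) r', ζ x = 1) ∧ ∀ x, ‖fderiv ℝ ζ x‖ ≤ C / (r - r') := by
  obtain ⟨C0, hC0, hb⟩ := smoothTransition_deriv_bdd26
  refine ⟨2 * C0, by positivity, ?_⟩
  intro E _ _ _ r' r hr' hr
  have hr0 : 0 < r := hr'.trans hr
  have hd : 0 < r ^ 2 - r' ^ 2 := by nlinarith
  have hu : ContDiff ℝ (⊤ : ℕ∞) (fun x : E => (r ^ 2 - ‖x‖ ^ 2) / (r ^ 2 - r' ^ 2)) :=
    (contDiff_const.sub (contDiff_norm_sq ℝ)).div_const _
  have hζ : ContDiff ℝ (⊤ : ℕ∞) (fun x : E => Real.smoothTransition ((r ^ 2 - ‖x‖ ^ 2) / (r ^ 2 - r' ^ 2))) :=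
    Real.smoothTransition.contDiff.comp hu
  have hzero : ∀ x : E, x ∉ closedBall (0 : E) r → Real.smoothTransition ((r ^ 2 - ‖x‖ ^ 2) / (r ^ 2 - r' ^ 2)) = 0 := by
    intro x hx
    rw [mem_closedBall_zero_iff, not_le] at hx
    refine Real.smoothTransition.zero_of_nonpos (div_nonpos_of_nonpos_of_nonneg ?_ hd.le)
    nlinarith
  have hts : tsupport (fun x : E => Real.smoothTransition ((r ^ 2 - ‖x‖ ^ 2) / (r ^ 2 - r' ^ 2))) ⊆ closedBall 0 r := by
    refine closure_minimal ?_ isClosed_closedBall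
    intro x hx
    by_contra h
    exact hx (hzero x h)
  refine ⟨_, hζ, ?_, hts, fun x => Real.smoothTransition.nonneg _, fun x => Real.smoothTransition.le_one _, ?_, ?_⟩
  · exact (isCompact_closedBall (0 : E) r).of_isClosed_subset (isClosed_tsupport _) hts
  · intro x hx
    rw [mem_closedBall_zero_iff] at hx
    refine Real.smoothTransition.one_of_one_le ?_
    rw [le_div_iff₀ hd]
    have : ‖x‖ ^ 2 ≤ r' ^ 2 := by
      have := norm_nonneg x
      nlinarith
    linarith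
  · intro x
    by_cases hx : x ∈ closedBall (0 : E) r
    · have hx' : ‖x‖ ≤ r := mem_closedBall_zero_iff.1 hx
      have h1 : HasFDerivAt (fun x : E => (r ^ 2 - ‖x‖ ^ 2) / (r ^ 2 - r' ^ 2))
          ((r ^ 2 - r' ^ 2)⁻¹ • (-((2 : ℕ) • (innerSL ℝ x : E →L[ℝ] ℝ)) : E →L[ℝ] ℝ)) x := by
        have h2 := (hasStrictFDerivAt_norm_sq x).hasFDerivAt
        have h3 := (h2.const_sub (r ^ 2)).mul_const ((r ^ 2 - r' ^ 2)⁻¹)
        simpa only [div_eq_mul_inv] using h3
      have h2 : HasDerivAt Real.smoothTransition (deriv Real.smoothTransition ((r ^ 2 - ‖x‖ ^ 2) / (r ^ 2 - r' ^ 2)))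
          ((r ^ 2 - ‖x‖ ^ 2) / (r ^ 2 - r' ^ 2)) :=
        ((Real.smoothTransition.contDiff (n := 1)).differentiable (by norm_num) _).hasDerivAt
      have h3 := h2.comp_hasFDerivAt x h1
      have h4 : fderiv ℝ (fun x : E => Real.smoothTransition ((r ^ 2 - ‖x‖ ^ 2) / (r ^ 2 - r' ^ 2))) x =
          deriv Real.smoothTransition ((r ^ 2 - ‖x‖ ^ 2) / (r ^ 2 - r' ^ 2)) •
            ((r ^ 2 - r' ^ 2)⁻¹ • (-((2 : ℕ) • (innerSL ℝ x : E →L[ℝ] ℝ)) : E →L[ℝ] ℝ)) := h3.fderiv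
      rw [h4, norm_smul, norm_smul, norm_neg, Real.norm_eq_abs, Real.norm_eq_abs]
      have h5 : ‖(2 : ℕ) • (innerSL ℝ x : E →L[ℝ] ℝ)‖ ≤ 2 * r := by
        rw [two_nsmul]
        refine (norm_add_le _ _).trans ?_
        rw [innerSL_apply_norm]
        linarith
      have h6 : |(r ^ 2 - r' ^ 2)⁻¹| = (r ^ 2 - r' ^ 2)⁻¹ := abs_of_pos (inv_pos.2 hd)
      rw [h6]
      have h7 := hb ((r ^ 2 - ‖x‖ ^ 2) / (r ^ 2 - r' ^ 2))
      calc |deriv Real.smoothTransition ((r ^ 2 - ‖x‖ ^ 2) / (r ^ 2 - r' ^ 2))| * ((r ^ 2 - r' ^ 2)⁻¹ * ‖(2 : ℕ) • (innerSL ℝ x : E →L[ℝ] ℝ)‖)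
          ≤ C0 * ((r ^ 2 - r' ^ 2)⁻¹ * (2 * r)) := by
            refine mul_le_mul h7 ?_ (by positivity) hC0.le
            exact mul_le_mul_of_nonneg_left h5 (inv_pos.2 hd).le
        _ ≤ 2 * C0 / (r - r') := by
            rw [le_div_iff₀ (by linarith)]
            have h8 : (r ^ 2 - r' ^ 2)⁻¹ * (r - r') = (r + r')⁻¹ := by
              have h9 : r ^ 2 - r' ^ 2 = (r - r') * (r + r') := by ring
              rw [h9, mul_inv, mul_comm, ← mul_assoc, mul_inv_cancel₀ (by linarith), one_mul]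
            calc C0 * ((r ^ 2 - r' ^ 2)⁻¹ * (2 * r)) * (r - r') = 2 * C0 * (((r ^ 2 - r' ^ 2)⁻¹ * (r - r')) * r) := by ring
              _ = 2 * C0 * ((r + r')⁻¹ * r) := by rw [h8]
              _ ≤ 2 * C0 * 1 := by
                refine mul_le_mul_of_nonneg_left ?_ (by positivity)
                rw [inv_mul_le_iff₀ (by linarith)]
                linarith
              _ = 2 * C0 := mul_one _
    · have h1 : fderiv ℝ (fun x : E => Real.smoothTransition ((r ^ 2 - ‖x‖ ^ 2) / (r ^ 2 - r' ^ 2))) x = 0 := by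
        have h2 : x ∉ tsupport (fun x : E => Real.smoothTransition ((r ^ 2 - ‖x‖ ^ 2) / (r ^ 2 - r' ^ 2))) :=
          fun h => hx (hts h)
        have h3 := (notMem_tsupport_iff_eventuallyEq.1 h2)
        rw [h3.fderiv_eq]
        exact fderiv_const_apply (0 : ℝ)
      rw [h1, norm_zero]
      have : 0 < r - r' := by linarith
      positivity

end Pool.Agent.Helper87.RG
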