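import Pool.Agent.Helper87.RG.CD9

/-!
# Project REG, block CD10: the critical density lemma on balls of arbitrary centre and radius

`critical_density_scaled`: the function `v` is only `C¹` and bounded by `M` on an open set `U` which contains the closed ball of radius `2 r` around `x0`. PROOF. (i) Globalisation: let `χ` be a smooth function with compact support in `U`, `0 ≤ χ ≤ 1`, `χ = 1` on the closed ball of radius `2 r` around `x0` (`exists_contDiff_tsupport_subset` or a bump function). `v' = M - χ (M - v)` (extended by `M` outside `U`) is `C¹` on `E`, `v' ≤ M`, `v' = v` on the ball, so `fderiv v' = fderiv v` on the open ball of radius `2 r`.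
(ii) Scaling: `w x = v' (x0 + r x)`, `q̃ x = q (x0 + r x)`: `Ell q̃ l L`; for a test function `η` in `ball 0 2` let `η̃ y = η ((y - x0)/r)`: `d w x = r dv'(x0 + r x)`, `dη x = r dη̃(x0 + r x)`, so `∫ q̃ (dw, dη) = r² ∫ q(x0 + r x)(dv', dη̃) dx = r² r^(-d) ∫ q(dv', dη̃) ≤ r² K r^(-d) ∫ η̃ = r² K ∫ η`. `critical_density` with `K r²`.
-/

set_option autoImplicit false

open MeasureTheory Set Metric

namespace Pool.Agent.Helper87.RG

/-- globalisation of a `C¹` function bounded by `M` near a closed ball -/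
private theorem globalise30 {E : Type} [NormedAddCommGroup E] [InnerProductSpace ℝ E] [FiniteDimensional ℝ E]
    {v : E → ℝ} {x0 : E} {r M : ℝ} {U : Set E} (hr : 0 < r) (hU : IsOpen U) (hUb : closedBall x0 (2 * r) ⊆ U)
    (hv : ContDiffOn ℝ 1 v U) (hvM : ∀ x ∈ U, v x ≤ M) :
    ∃ v' : E → ℝ, ContDiff ℝ 1 v' ∧ (∀ x, v' x ≤ M) ∧ ∀ x ∈ closedBall x0 (2 * r), v' x = v x := by
  obtain ⟨δ, hδ, hδU⟩ := (isCompact_closedBall x0 (2 * r)).exists_cthickening_subset_open hU hUb
  have hsub : closedBall x0 (2 * r + δ) ⊆ U := by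
    refine Subset.trans ?_ hδU
    rw [cthickening_closedBall (by positivity) (by positivity), add_comm]
  obtain ⟨χ, hχ1, hχ2⟩ : ∃ χ : ContDiffBump x0, χ.rIn = 2 * r ∧ χ.rOut = 2 * r + δ :=
    ⟨⟨2 * r, 2 * r + δ, by positivity, by linarith⟩, rfl, rfl⟩
  have hts : tsupport (fun x => (χ : E → ℝ) x * (M - v x)) ⊆ U := by
    refine (closure_mono ?_).trans ((χ.tsupport_eq.le.trans (by rw [hχ2])).trans hsub)
    intro x hx
    exact left_ne_zero_of_mul hx
  refine ⟨fun x => M - (χ : E → ℝ) x * (M - v x), ?_, ?_, ?_⟩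
  · refine contDiff_const.sub (contDiff_iff_contDiffAt.2 fun x => ?_)
    by_cases hx : x ∈ tsupport (fun x => (χ : E → ℝ) x * (M - v x))
    · have h1 : ContDiffAt ℝ 1 v x := hv.contDiffAt (hU.mem_nhds (hts hx))
      exact χ.contDiff.contDiffAt.mul (contDiffAt_const.sub h1)
    · have h1 : (fun x => (χ : E → ℝ) x * (M - v x)) =ᶠ[nhds x] fun _ => 0 :=
        notMem_tsupport_iff_eventuallyEq.1 hx
      exact contDiffAt_const.congr_of_eventuallyEq h1
  · intro x
    by_cases hx : x ∈ U
    · have h1 := mul_nonneg (χ.nonneg' x) (sub_nonneg.2 (hvM x hx))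
      linarith
    · have h1 : (χ : E → ℝ) x * (M - v x) = 0 := by
        by_contra h0
        exact hx (hts (subset_tsupport _ h0))
      simp only [h1, sub_zero, le_refl]
  · intro x hx
    have h1 : (χ : E → ℝ) x = 1 := χ.one_of_mem_closedBall (by rwa [hχ1])
    simp only [h1]
    ring

theorem critical_density_scaled {E : Type} [NormedAddCommGroup E] [InnerProductSpace ℝ E] [FiniteDimensional ℝ E]
    [MeasurableSpace E] [BorelSpace E] (hd : 2 ≤ Module.finrank ℝ E) {l L th : ℝ} (hl : 0 < l) (hL : l ≤ L) (hth : 0 < th) :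
    ∃ c : ℝ, 0 < c ∧ c ≤ 1 ∧ ∀ (q : E → (E →L[ℝ] ℝ) → (E →L[ℝ] ℝ) → ℝ) (v : E → ℝ) (x0 : E) (r K M ε : ℝ) (U : Set E),
      Ell q l L → 0 < r → 0 ≤ K → 0 < ε → IsOpen U → closedBall x0 (2 * r) ⊆ U → ContDiffOn ℝ 1 v U → (∀ x ∈ U, v x ≤ M) →
      (∀ η : E → ℝ, ContDiff ℝ 1 η → HasCompactSupport η → tsupport η ⊆ ball x0 (2 * r) → (∀ x, 0 ≤ η x) →
        ∫ x, q x (fderiv ℝ v x) (fderiv ℝ η x) ≤ K * ∫ x, η x) →
      th * volume.real (ball x0 r) ≤ volume.real ({x | v x ≤ M - ε} ∩ ball x0 r) →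
      ∀ x ∈ ball x0 (r / 2), v x ≤ M - c * ε + K * r ^ 2 := by
  obtain ⟨c, hc0, hc1, hmain⟩ := critical_density (E := E) hd hl hL hth
  refine ⟨c, hc0, hc1, ?_⟩
  intro q v x0 r K M ε U hq hr hK hε hU hUb hv hvM hweak hvol x hx
  obtain ⟨v', hv'c, hv'M, hv'e⟩ := globalise30 hr hU hUb hv hvM
  have hrn : r ≠ 0 := hr.ne'
  have hfd : ∀ y ∈ ball x0 (2 * r), fderiv ℝ v' y = fderiv ℝ v y := by
    intro y hy
    refine Filter.EventuallyEq.fderiv_eq ?_
    filter_upwards [isOpen_ball.mem_nhds hy] with z hz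
    exact hv'e z (ball_subset_closedBall hz)
  have hinv : ∀ x : E, r⁻¹ • (x0 + r • x - x0) = x := by
    intro x
    rw [add_sub_cancel_left, smul_smul, inv_mul_cancel₀ hrn, one_smul]
  have hinv' : ∀ y : E, x0 + r • (r⁻¹ • (y - x0)) = y := by
    intro y
    rw [smul_smul, mul_inv_cancel₀ hrn, one_smul, add_sub_cancel]
  have hball : ∀ (x : E) (s : ℝ), x0 + r • x ∈ ball x0 (s * r) ↔ x ∈ ball (0 : E) s := by
    intro x s
    rw [mem_ball, mem_ball, dist_eq_norm, add_sub_cancel_left, norm_smul, Real.norm_eq_abs, abs_of_pos hr,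
      dist_zero_right, mul_comm]
    exact mul_lt_mul_iff_left₀ hr
  have hq' : Ell (fun x => q (x0 + r • x)) l L := by
    refine ⟨?_, fun x => hq.add _, fun x => hq.smul _, fun x => hq.symm _, fun x => hq.lower _, fun x => hq.upper _⟩
    intro ξ η hξ hη
    have hm1 : Measurable fun y : E => r⁻¹ • (y - x0) := by fun_prop
    have hm2 : Measurable fun y : E => x0 + r • y := by fun_prop
    have h1 := (hq.meas (fun y => ξ (r⁻¹ • (y - x0))) (fun y => η (r⁻¹ • (y - x0))) (hξ.comp hm1) (hη.comp hm1)).comp hm2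
    have h2 : (fun y => q (x0 + r • y) (ξ y) (η y)) =
        (fun y => q y (ξ (r⁻¹ • (y - x0))) (η (r⁻¹ • (y - x0)))) ∘ fun y => x0 + r • y := by
      funext y
      simp only [Function.comp_apply, hinv]
    rw [h2]
    exact h1
  have hder : ∀ (f : E → ℝ), ContDiff ℝ 1 f → ∀ x, fderiv ℝ (fun x => f (x0 + r • x)) x = r • fderiv ℝ f (x0 + r • x) := by
    intro f hf x
    have h1 : HasFDerivAt (fun x : E => x0 + r • x) (r • ContinuousLinearMap.id ℝ E) x :=
      ((hasFDerivAt_id x).const_smul r).const_add x0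
    have h2 := ((hf.differentiable one_ne_zero (x0 + r • x)).hasFDerivAt).comp x h1
    rw [show (fun x => f (x0 + r • x)) = f ∘ (fun x : E => x0 + r • x) from rfl, h2.fderiv]
    ext y
    simp
  have hw : WeakSub (fun x => q (x0 + r • x)) (fun x => v' (x0 + r • x)) (K * r ^ 2) 2 := by
    intro η hη
    have hηt : ContDiff ℝ 1 (fun y => η (r⁻¹ • (y - x0))) := hη.smooth.comp (by fun_prop)
    have hηs : ∀ x, η x = (fun y => η (r⁻¹ • (y - x0))) (x0 + r • x) := fun x => by simp only [hinv]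
    have hsub : Function.support (fun y => η (r⁻¹ • (y - x0))) ⊆ (fun x : E => x0 + r • x) '' (tsupport η) := by
      intro y hy
      exact ⟨r⁻¹ • (y - x0), subset_tsupport _ hy, hinv' y⟩
    have hcomp : IsCompact ((fun x : E => x0 + r • x) '' (tsupport η)) :=
      hη.supp.isCompact.image (by fun_prop)
    have htsub : tsupport (fun y => η (r⁻¹ • (y - x0))) ⊆ (fun x : E => x0 + r • x) '' (tsupport η) :=
      closure_minimal hsub hcomp.isClosed
    have h1 := hweak (fun y => η (r⁻¹ • (y - x0))) hηt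
      (hcomp.of_isClosed_subset (isClosed_tsupport _) htsub) (by
        intro y hy
        obtain ⟨x, hx, rfl⟩ := htsub hy
        exact (hball x 2).2 (hη.ball hx)) (fun y => hη.nonneg _)
    have h2 : ∀ x, (fun x => q (x0 + r • x)) x (fderiv ℝ (fun x => v' (x0 + r • x)) x) (fderiv ℝ η x) =
        r ^ 2 * (fun y => q y (fderiv ℝ v y) (fderiv ℝ (fun y => η (r⁻¹ • (y - x0))) y)) (x0 + r • x) := by
      intro x
      have h3 : fderiv ℝ η x = r • fderiv ℝ (fun y => η (r⁻¹ • (y - x0))) (x0 + r • x) := by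
        rw [← hder _ hηt x]
        congr 1
        funext x
        exact hηs x
      by_cases hx : x0 + r • x ∈ ball x0 (2 * r)
      · simp only
        rw [hder v' hv'c x, h3, hq.smul, hq.smul_right, hfd _ hx]
        ring
      · have h4 : fderiv ℝ (fun y => η (r⁻¹ • (y - x0))) (x0 + r • x) = 0 := by
          by_contra h0
          apply hx
          have h5 : x0 + r • x ∈ tsupport (fun y => η (r⁻¹ • (y - x0))) :=
            support_fderiv_subset ℝ h0
          obtain ⟨z, hz, hz'⟩ := htsub h5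
          simp only at hz'
          rw [← hz']
          exact (hball z 2).2 (hη.ball hz)
        simp only
        rw [h3, h4, smul_zero, hq.zero_right, hq.zero_right, mul_zero]
    have h5 : ∀ g : E → ℝ, ∫ x, g (x0 + r • x) = |(r ^ Module.finrank ℝ E)⁻¹| * ∫ x, g x := by
      intro g
      have h6 := Measure.integral_comp_smul (volume : Measure E) (fun y => g (x0 + y)) r
      rw [h6, integral_add_left_eq_self g x0, smul_eq_mul]
    calc ∫ x, (fun x => q (x0 + r • x)) x (fderiv ℝ (fun x => v' (x0 + r • x)) x) (fderiv ℝ η x)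
        = ∫ x, r ^ 2 * (fun y => q y (fderiv ℝ v y) (fderiv ℝ (fun y => η (r⁻¹ • (y - x0))) y)) (x0 + r • x) := by
          simp only [h2]
      _ = r ^ 2 * (|(r ^ Module.finrank ℝ E)⁻¹| *
            ∫ y, q y (fderiv ℝ v y) (fderiv ℝ (fun y => η (r⁻¹ • (y - x0))) y)) := by
          rw [integral_const_mul]
          exact congrArg (fun t => r ^ 2 * t)
            (h5 (fun y => q y (fderiv ℝ v y) (fderiv ℝ (fun y => η (r⁻¹ • (y - x0))) y)))
      _ ≤ r ^ 2 * (|(r ^ Module.finrank ℝ E)⁻¹| * (K * ∫ y, η (r⁻¹ • (y - x0)))) := by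
          gcongr
      _ = K * r ^ 2 * (|(r ^ Module.finrank ℝ E)⁻¹| * ∫ y, (fun y => η (r⁻¹ • (y - x0))) y) := by ring
      _ = K * r ^ 2 * ∫ x, η x := by
          rw [← h5]
          simp only [hinv]
  have hvolpre : ∀ (A : Set E), volume.real ((fun x : E => x0 + r • x) ⁻¹' A) =
      |(r ^ Module.finrank ℝ E)⁻¹| * volume.real A := by
    intro A
    have h1 : (fun x : E => x0 + r • x) ⁻¹' A = (fun x : E => r • x) ⁻¹' ((fun x : E => x0 + x) ⁻¹' A) := rfl
    rw [Measure.real, Measure.real, h1, Measure.addHaar_preimage_smul _ hrn, measure_preimage_add,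
      ENNReal.toReal_mul, ENNReal.toReal_ofReal (abs_nonneg _)]
  have hvol' : th * volume.real (ball (0 : E) 1) ≤
      volume.real ({x | (fun x => v' (x0 + r • x)) x ≤ M - ε} ∩ ball (0 : E) 1) := by
    have h1 : ball (0 : E) 1 = (fun x : E => x0 + r • x) ⁻¹' (ball x0 r) := by
      ext x
      have := hball x 1
      rw [one_mul] at this
      exact this.symm
    have h2 : {x | (fun x => v' (x0 + r • x)) x ≤ M - ε} ∩ ball (0 : E) 1 =
        (fun x : E => x0 + r • x) ⁻¹' ({x | v x ≤ M - ε} ∩ ball x0 r) := by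
      rw [h1, preimage_inter]
      ext x
      simp only [mem_inter_iff, mem_ofPred_eq, mem_preimage]
      refine and_congr_left fun hx => ?_
      rw [hv'e _ (ball_subset_closedBall (ball_subset_ball (by linarith) hx))]
    rw [h2, h1, hvolpre, hvolpre, mul_left_comm]
    exact mul_le_mul_of_nonneg_left hvol (abs_nonneg _)
  have h3 := hmain (fun x => q (x0 + r • x)) (fun x => v' (x0 + r • x)) (K * r ^ 2) M ε hq'
    (hv'c.comp (by fun_prop)) (by positivity) hε (fun x => hv'M _) hw hvol' (r⁻¹ • (x - x0)) (by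
      rw [← hball, hinv']
      have h4 : 1 / 2 * r = r / 2 := by ring
      rw [h4]
      exact hx)
  simp only [hinv'] at h3
  rwa [hv'e x (ball_subset_closedBall (ball_subset_ball (by linarith) hx))] at h3

end Pool.Agent.Helper87.RG
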