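import Pool.Agent.Helper87.RG.CD0

/-!
# Project REG, block CD2: the Sobolev inequality in the form which is used

`gns`: Mathlib's `MeasureTheory.lintegral_pow_le_pow_lintegral_fderiv` (exponent `p = χ = d/(d-1)`, the Hoelder conjugate of `d = finrank ℝ E`), rewritten with real integrals for nonnegative `f` (all integrands are continuous with compact support, hence integrable). `chi E = d/(d - 1)`.
`chi_gt`: `1 < χ ≤ 2` for `d ≥ 2`.
-/

set_option autoImplicit false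

open MeasureTheory Set Metric

namespace Pool.Agent.Helper87.RG

/-- the exponent `d/(d-1)` -/
noncomputable def chi (E : Type*) [NormedAddCommGroup E] [InnerProductSpace ℝ E] : ℝ :=
  (Module.finrank ℝ E : ℝ) / ((Module.finrank ℝ E : ℝ) - 1)

theorem chi_gt {E : Type} [NormedAddCommGroup E] [InnerProductSpace ℝ E] [FiniteDimensional ℝ E]
    (hd : 2 ≤ Module.finrank ℝ E) : 1 < chi E ∧ chi E ≤ 2 := by
  have h : (2 : ℝ) ≤ (Module.finrank ℝ E : ℝ) := by exact_mod_cast hd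
  have h1 : (0 : ℝ) < (Module.finrank ℝ E : ℝ) - 1 := by linarith
  rw [chi]
  constructor
  · rw [lt_div_iff₀ h1]
    linarith
  · rw [div_le_iff₀ h1]
    linarith

theorem gns {E : Type} [NormedAddCommGroup E] [InnerProductSpace ℝ E] [FiniteDimensional ℝ E]
    [MeasurableSpace E] [BorelSpace E] (hd : 2 ≤ Module.finrank ℝ E) :
    ∃ C : ℝ, 0 < C ∧ ∀ f : E → ℝ, ContDiff ℝ 1 f → HasCompactSupport f → (∀ x, 0 ≤ f x) →
      (∫ x, f x ^ chi E) ^ (chi E)⁻¹ ≤ C * ∫ x, ‖fderiv ℝ f x‖ := by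
  have hd' : (2 : ℝ) ≤ (Module.finrank ℝ E : ℝ) := by exact_mod_cast hd
  have hc1 := (chi_gt (E := E) hd).1
  have hp : Real.HolderConjugate (Module.finrank ℝ E) (chi E) :=
    Real.HolderConjugate.conjExponent (by linarith)
  set K := lintegralPowLePowLIntegralFDerivConst (volume : Measure E) (chi E) with hK
  have hp0 : (0 : ℝ) < chi E := by linarith
  refine ⟨(K : ℝ) ^ (chi E)⁻¹ + 1, by positivity, fun f hf hs h0 => ?_⟩
  have h1 := lintegral_pow_le_pow_lintegral_fderiv (volume : Measure E) hf hs hp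
  have hint : Integrable (fun x => fderiv ℝ f x) :=
    (hf.continuous_fderiv one_ne_zero).integrable_of_hasCompactSupport (hs.fderiv ℝ)
  have hfin : (∫⁻ x, ‖fderiv ℝ f x‖ₑ) ≠ ⊤ := hint.2.ne
  have hI2 : ∫ x, ‖fderiv ℝ f x‖ = (∫⁻ x, ‖fderiv ℝ f x‖ₑ).toReal :=
    integral_norm_eq_lintegral_enorm hint.1
  have hI1 : ∫ x, f x ^ chi E = (∫⁻ x, ‖f x‖ₑ ^ chi E).toReal := by
    rw [integral_eq_lintegral_of_nonneg_ae (Filter.Eventually.of_forall fun x => Real.rpow_nonneg (h0 x) _)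
      (hf.continuous.rpow_const fun x => Or.inr hp0.le).aestronglyMeasurable]
    congr 1
    refine lintegral_congr fun x => ?_
    rw [Real.enorm_eq_ofReal (h0 x), ENNReal.ofReal_rpow_of_nonneg (h0 x) hp0.le]
  have h2 : ∫ x, f x ^ chi E ≤ K * (∫ x, ‖fderiv ℝ f x‖) ^ chi E := by
    rw [hI1, hI2, ENNReal.toReal_rpow, ← ENNReal.coe_toReal K, ← ENNReal.toReal_mul]
    exact ENNReal.toReal_mono (ENNReal.mul_ne_top ENNReal.coe_ne_top
      (ENNReal.rpow_ne_top_of_nonneg hp0.le hfin)) h1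
  have h3 : 0 ≤ ∫ x, ‖fderiv ℝ f x‖ := integral_nonneg fun x => norm_nonneg _
  have h4 : 0 ≤ ∫ x, f x ^ chi E := integral_nonneg fun x => Real.rpow_nonneg (h0 x) _
  calc (∫ x, f x ^ chi E) ^ (chi E)⁻¹ ≤ (K * (∫ x, ‖fderiv ℝ f x‖) ^ chi E) ^ (chi E)⁻¹ :=
        Real.rpow_le_rpow h4 h2 (by positivity)
    _ = (K : ℝ) ^ (chi E)⁻¹ * ∫ x, ‖fderiv ℝ f x‖ := by
        rw [Real.mul_rpow K.coe_nonneg (by positivity), ← Real.rpow_mul h3, mul_inv_cancel₀ hp0.ne', Real.rpow_one]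
    _ ≤ ((K : ℝ) ^ (chi E)⁻¹ + 1) * ∫ x, ‖fderiv ℝ f x‖ := by
        nlinarith

end Pool.Agent.Helper87.RG
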