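import Pool.Agent.Helper87.RG.CD0

/-!
# Project REG, block CD3: Poincaré inequality for functions with a large zero set

`poincare`: `w ∈ C¹`, `w = 0` on a measurable `S ⊆ ball 0 1` with `th * |B_1| ≤ |S|`: `th ∫_(B_1) w² ≤ 2^(d+2) ∫_(B_1) ‖dw‖²`.
PROOF. For `x ∈ B = ball 0 1`, `y ∈ S`: `w x = w x - w y = -∫_0^1 dw(x + t (y - x)) (y - x) dt`, `‖y - x‖ ≤ 2`, so `w x ² ≤ 4 ∫_0^1 ‖dw((1-t) x + t y)‖² dt`. Integrate over `(x, y) ∈ B × S ⊆ B × B` (Tonelli, e.g. with `lintegral`): `|S| ∫_B w² ≤ 4 ∫_0^1 ∫_B ∫_B ‖dw((1-t) x + t y)‖² dx dy dt`.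
For `t ≤ 1/2` substitute `z = (1-t) x + t y ∈ B` for `x` (`y` fixed; `B` is convex): `∫_B ‖dw((1-t) x + t y)‖² dx ≤ (1-t)^(-d) ∫_B ‖dw z‖² dz ≤ 2^d ∫_B ‖dw‖²`; for `t ≥ 1/2` substitute for `y`. So `|S| ∫_B w² ≤ 4 · 2^d |B| ∫_B ‖dw‖²`, and `th |B| ≤ |S|`.
(`w` is `C¹` on the whole space; the closed ball may be used for integrability. `MeasureTheory.Measure.addHaar_preimage_smul`, `Measure.integral_comp_smul`, or `lintegral` versions for the substitution.)
-/

set_option autoImplicit false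

open MeasureTheory Set Metric

namespace Pool.Agent.Helper87.RG

section Private_h54

variable {E : Type} [NormedAddCommGroup E] [InnerProductSpace ℝ E] [FiniteDimensional ℝ E]
    [MeasurableSpace E] [BorelSpace E]

open scoped ENNReal

private theorem sub_h54 {g : E → ℝ≥0∞} (hg : Measurable g) {c : ℝ} (hc : 1 / 2 ≤ c) (z : E) :
    ∫⁻ x, g (c • x + z) ≤ 2 ^ Module.finrank ℝ E * ∫⁻ x, g x := by
  have hc0 : 0 < c := lt_of_lt_of_le (by norm_num) hc
  have h1 : ∫⁻ x, g (c • x + z) = ∫⁻ u, g (u + z) ∂(Measure.map (fun x => c • x) (volume : Measure E)) := by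
    rw [lintegral_map (by fun_prop) (measurable_const_smul c)]
  rw [h1, Measure.map_addHaar_smul _ hc0.ne', lintegral_smul_measure, lintegral_add_right_eq_self (fun u => g u) z,
    smul_eq_mul]
  gcongr
  have h2 : |(c ^ Module.finrank ℝ E)⁻¹| ≤ 2 ^ Module.finrank ℝ E := by
    rw [abs_of_pos (by positivity), ← inv_pow]
    exact pow_le_pow_left₀ (by positivity) ((inv_le_comm₀ hc0 (by norm_num)).mpr (by linarith)) _
  calc ENNReal.ofReal |(c ^ Module.finrank ℝ E)⁻¹| ≤ ENNReal.ofReal (2 ^ Module.finrank ℝ E) := ENNReal.ofReal_le_ofReal h2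
    _ = 2 ^ Module.finrank ℝ E := by rw [ENNReal.ofReal_pow (by norm_num)]; norm_num

private theorem conv_h54 {g : E → ℝ≥0∞} (hg : Measurable g) {a b : ℝ} (ha : 1 / 2 ≤ a) (hb : 0 ≤ b) (hab : a + b = 1)
    {y : E} (hy : y ∈ ball (0 : E) 1) :
    ∫⁻ x in ball (0 : E) 1, g (a • x + b • y) ≤ 2 ^ Module.finrank ℝ E * ∫⁻ x in ball (0 : E) 1, g x := by
  have hB : MeasurableSet (ball (0 : E) 1) := isOpen_ball.measurableSet
  rw [← lintegral_indicator hB, ← lintegral_indicator hB]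
  refine le_trans (lintegral_mono fun x => ?_) (sub_h54 (hg.indicator hB) ha (b • y))
  by_cases hx : x ∈ ball (0 : E) 1
  · have h1 : a • x + b • y ∈ ball (0 : E) 1 := convex_ball (0 : E) 1 hx hy (by linarith) hb hab
    rw [indicator_of_mem hx, indicator_of_mem h1]
  · rw [indicator_of_notMem hx]
    exact bot_le

private theorem jensen_h54 {h : ℝ → ℝ} (hh : Continuous h) :
    (∫ t in (0 : ℝ)..1, h t) ^ 2 ≤ ∫ t in (0 : ℝ)..1, h t ^ 2 := by
  set c := ∫ t in (0 : ℝ)..1, h t with hc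
  have h1 : 0 ≤ ∫ t in (0 : ℝ)..1, (h t - c) ^ 2 :=
    intervalIntegral.integral_nonneg (by norm_num) fun t _ => sq_nonneg _
  have h2 : ∫ t in (0 : ℝ)..1, (h t - c) ^ 2 = (∫ t in (0 : ℝ)..1, h t ^ 2) - c ^ 2 := by
    have h3 : (fun t => (h t - c) ^ 2) = fun t => (h t ^ 2 - 2 * c * h t) + c ^ 2 := by
      funext t
      ring
    rw [h3, intervalIntegral.integral_add, intervalIntegral.integral_sub, intervalIntegral.integral_const_mul, ← hc,
      intervalIntegral.integral_const]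
    · simp
      ring
    · exact (hh.pow 2).intervalIntegrable _ _
    · exact (continuous_const.mul hh).intervalIntegrable _ _
    · exact ((hh.pow 2).sub (continuous_const.mul hh)).intervalIntegrable _ _
    · exact continuous_const.intervalIntegrable _ _
  linarith

private theorem point_h54 {w : E → ℝ} (hw : ContDiff ℝ 1 w) {x y : E} (hx : x ∈ ball (0 : E) 1)
    (hy : y ∈ ball (0 : E) 1) (hwy : w y = 0) :
    w x ^ 2 ≤ 4 * ∫ t in (0 : ℝ)..1, ‖fderiv ℝ w ((1 - t) • x + t • y)‖ ^ 2 := by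
  have hd : Continuous (fderiv ℝ w) := hw.continuous_fderiv one_ne_zero
  have hpath : Continuous fun t : ℝ => (1 - t) • x + t • y := by fun_prop
  have h1 : ∫ t in (0 : ℝ)..1, fderiv ℝ w ((1 - t) • x + t • y) (y - x) = w y - w x := by
    have h2 : ∀ t ∈ uIcc (0 : ℝ) 1, HasDerivAt (fun t : ℝ => w ((1 - t) • x + t • y))
        (fderiv ℝ w ((1 - t) • x + t • y) (y - x)) t := by
      intro t _
      have h3 : HasDerivAt (fun t : ℝ => (1 - t) • x + t • y) (y - x) t := by
        have h4 : HasDerivAt (fun t : ℝ => (1 - t) • x) ((-1 : ℝ) • x) t :=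
          ((hasDerivAt_id t).const_sub 1).smul_const x
        have h5 : HasDerivAt (fun t : ℝ => t • y) ((1 : ℝ) • y) t := (hasDerivAt_id t).smul_const y
        have h6 := h4.add h5
        have h7 : (-1 : ℝ) • x + (1 : ℝ) • y = y - x := by
          rw [one_smul, neg_one_smul]
          abel
        rw [h7] at h6
        exact h6
      exact ((hw.differentiable one_ne_zero _).hasFDerivAt).comp_hasDerivAt t h3
    have h8 := intervalIntegral.integral_eq_sub_of_hasDerivAt h2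
      (Continuous.intervalIntegrable ((hd.comp hpath).clm_apply continuous_const) _ _)
    rw [h8]
    simp
  rw [hwy, zero_sub] at h1
  have hxy : ‖y - x‖ ≤ 2 := by
    rw [mem_ball_zero_iff] at hx hy
    calc ‖y - x‖ ≤ ‖y‖ + ‖x‖ := norm_sub_le _ _
      _ ≤ 2 := by linarith
  have hcn : Continuous fun t : ℝ => ‖fderiv ℝ w ((1 - t) • x + t • y)‖ := (hd.comp hpath).norm
  have h9 : |w x| ≤ 2 * ∫ t in (0 : ℝ)..1, ‖fderiv ℝ w ((1 - t) • x + t • y)‖ := by
    have h10 : |w x| = ‖∫ t in (0 : ℝ)..1, fderiv ℝ w ((1 - t) • x + t • y) (y - x)‖ := by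
      rw [h1, norm_neg, Real.norm_eq_abs]
    rw [h10, ← intervalIntegral.integral_const_mul]
    refine (intervalIntegral.norm_integral_le_integral_norm (by norm_num)).trans
      (intervalIntegral.integral_mono_on (by norm_num) ?_ ?_ fun t _ => ?_)
    · exact Continuous.intervalIntegrable ((hd.comp hpath).clm_apply continuous_const).norm _ _
    · exact (continuous_const.mul hcn).intervalIntegrable _ _
    · calc ‖fderiv ℝ w ((1 - t) • x + t • y) (y - x)‖ ≤ ‖fderiv ℝ w ((1 - t) • x + t • y)‖ * ‖y - x‖ :=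
            ContinuousLinearMap.le_opNorm _ _
        _ ≤ ‖fderiv ℝ w ((1 - t) • x + t • y)‖ * 2 := by gcongr
        _ = _ := mul_comm _ _
  have h11 := jensen_h54 hcn
  calc w x ^ 2 = |w x| ^ 2 := (sq_abs _).symm
    _ ≤ (2 * ∫ t in (0 : ℝ)..1, ‖fderiv ℝ w ((1 - t) • x + t • y)‖) ^ 2 := by gcongr
    _ = 4 * (∫ t in (0 : ℝ)..1, ‖fderiv ℝ w ((1 - t) • x + t • y)‖) ^ 2 := by ring
    _ ≤ _ := by gcongr

private theorem pointE_h54 {w : E → ℝ} (hw : ContDiff ℝ 1 w) {x y : E} (hx : x ∈ ball (0 : E) 1)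
    (hy : y ∈ ball (0 : E) 1) (hwy : w y = 0) :
    ENNReal.ofReal (w x ^ 2) ≤ 4 * ∫⁻ t in Ioc (0 : ℝ) 1, ENNReal.ofReal (‖fderiv ℝ w ((1 - t) • x + t • y)‖ ^ 2) := by
  have hd : Continuous (fderiv ℝ w) := hw.continuous_fderiv one_ne_zero
  have hpath : Continuous fun t : ℝ => (1 - t) • x + t • y := by fun_prop
  have hcn : Continuous fun t : ℝ => ‖fderiv ℝ w ((1 - t) • x + t • y)‖ ^ 2 := (hd.comp hpath).norm.pow 2
  have h1 := point_h54 hw hx hy hwy
  rw [intervalIntegral.integral_of_le (by norm_num)] at h1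
  have h2 : ENNReal.ofReal (∫ t in Ioc (0 : ℝ) 1, ‖fderiv ℝ w ((1 - t) • x + t • y)‖ ^ 2) =
      ∫⁻ t in Ioc (0 : ℝ) 1, ENNReal.ofReal (‖fderiv ℝ w ((1 - t) • x + t • y)‖ ^ 2) := by
    refine ofReal_integral_eq_lintegral_ofReal ?_ (Filter.Eventually.of_forall fun t => by positivity)
    exact (hcn.integrableOn_Icc).mono_set Ioc_subset_Icc_self
  rw [← h2]
  calc ENNReal.ofReal (w x ^ 2) ≤ ENNReal.ofReal (4 * ∫ t in Ioc (0 : ℝ) 1, ‖fderiv ℝ w ((1 - t) • x + t • y)‖ ^ 2) :=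
        ENNReal.ofReal_le_ofReal h1
    _ = _ := by rw [ENNReal.ofReal_mul (by norm_num)]; norm_num

private theorem double_h54 {g : E → ℝ≥0∞} (hg : Measurable g) {t : ℝ} (ht : t ∈ Ioc (0 : ℝ) 1) :
    ∫⁻ x in ball (0 : E) 1, ∫⁻ y in ball (0 : E) 1, g ((1 - t) • x + t • y) ≤
      volume (ball (0 : E) 1) * (2 ^ Module.finrank ℝ E * ∫⁻ x in ball (0 : E) 1, g x) := by
  have hB : MeasurableSet (ball (0 : E) 1) := isOpen_ball.measurableSet
  rcases le_total t (1 / 2) with h | h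
  · rw [lintegral_lintegral_swap]
    · calc ∫⁻ y in ball (0 : E) 1, ∫⁻ x in ball (0 : E) 1, g ((1 - t) • x + t • y)
          ≤ ∫⁻ _y in ball (0 : E) 1, (2 ^ Module.finrank ℝ E * ∫⁻ x in ball (0 : E) 1, g x) := by
            refine setLIntegral_mono' hB fun y hy => ?_
            exact conv_h54 hg (by linarith) ht.1.le (by ring) hy
        _ = _ := by rw [setLIntegral_const, mul_comm]
    · refine Measurable.aemeasurable ?_
      exact hg.comp (by fun_prop)
  · calc ∫⁻ x in ball (0 : E) 1, ∫⁻ y in ball (0 : E) 1, g ((1 - t) • x + t • y)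
          ≤ ∫⁻ _x in ball (0 : E) 1, (2 ^ Module.finrank ℝ E * ∫⁻ x in ball (0 : E) 1, g x) := by
            refine setLIntegral_mono' hB fun x hx => ?_
            have h1 := conv_h54 hg h (by linarith [ht.2] : (0 : ℝ) ≤ 1 - t) (by ring) hx
            refine le_trans (le_of_eq ?_) h1
            refine lintegral_congr fun y => ?_
            rw [add_comm]
        _ = _ := by rw [setLIntegral_const, mul_comm]

omit [InnerProductSpace ℝ E] [FiniteDimensional ℝ E] [BorelSpace E] in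
private theorem meas0_h54 {F : Type} [MeasurableSpace F] {g : E → ℝ≥0∞} (hg : Measurable g) {u : F → E}
    (hu : Measurable u) : Measurable fun p => g (u p) := hg.comp hu

private theorem meas1_h54 {g : E → ℝ≥0∞} (hg : Measurable g) (x : E) :
    Measurable (Function.uncurry fun (y : E) (t : ℝ) => g ((1 - t) • x + t • y)) := by
  have h1 : Measurable fun p : E × ℝ => (1 - p.2) • x + p.2 • p.1 := by fun_prop
  exact meas0_h54 hg h1

private theorem meas2_h54 {g : E → ℝ≥0∞} (hg : Measurable g) :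
    Measurable (Function.uncurry fun (x : E) (t : ℝ) => ∫⁻ y in ball (0 : E) 1, g ((1 - t) • x + t • y)) := by
  have h1 : Measurable fun p : (E × ℝ) × E => (1 - p.1.2) • p.1.1 + p.1.2 • p.2 := by fun_prop
  exact Measurable.lintegral_prod_right' (meas0_h54 hg h1)

private theorem meas3_h54 {g : E → ℝ≥0∞} (hg : Measurable g) :
    Measurable fun p : E × E => ∫⁻ t in Ioc (0 : ℝ) 1, g ((1 - t) • p.1 + t • p.2) := by
  have h1 : Measurable fun p : (E × E) × ℝ => (1 - p.2) • p.1.1 + p.2 • p.1.2 := by fun_prop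
  exact Measurable.lintegral_prod_right' (meas0_h54 hg h1)

private theorem poincareE_h54 {w : E → ℝ} (hw : ContDiff ℝ 1 w) {S : Set E} (hS : MeasurableSet S)
    (hSB : S ⊆ ball 0 1) (hw0 : ∀ x ∈ S, w x = 0) :
    volume S * ∫⁻ x in ball (0 : E) 1, ENNReal.ofReal (w x ^ 2) ≤
      4 * (volume (ball (0 : E) 1) * (2 ^ Module.finrank ℝ E *
        ∫⁻ x in ball (0 : E) 1, ENNReal.ofReal (‖fderiv ℝ w x‖ ^ 2))) := by
  have hB : MeasurableSet (ball (0 : E) 1) := isOpen_ball.measurableSet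
  have hd : Continuous (fderiv ℝ w) := hw.continuous_fderiv one_ne_zero
  set g : E → ℝ≥0∞ := fun z => ENNReal.ofReal (‖fderiv ℝ w z‖ ^ 2) with hgdef
  have hg : Measurable g := (ENNReal.continuous_ofReal.comp (hd.norm.pow 2)).measurable
  calc volume S * ∫⁻ x in ball (0 : E) 1, ENNReal.ofReal (w x ^ 2)
      = ∫⁻ x in ball (0 : E) 1, ∫⁻ _y in S, ENNReal.ofReal (w x ^ 2) := by
        have h1 : ∀ x, ∫⁻ _y in S, ENNReal.ofReal (w x ^ 2) = volume S * ENNReal.ofReal (w x ^ 2) := by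
          intro x
          rw [setLIntegral_const, mul_comm]
        simp_rw [h1]
        have h1' : Measurable fun x => ENNReal.ofReal (w x ^ 2) :=
          (ENNReal.continuous_ofReal.comp (hw.continuous.pow 2)).measurable
        exact (lintegral_const_mul _ h1').symm
    _ ≤ ∫⁻ x in ball (0 : E) 1, ∫⁻ y in S, 4 * ∫⁻ t in Ioc (0 : ℝ) 1, g ((1 - t) • x + t • y) := by
        refine setLIntegral_mono' hB fun x hx => setLIntegral_mono' hS fun y hy => ?_
        exact pointE_h54 hw hx (hSB hy) (hw0 y hy)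
    _ ≤ ∫⁻ x in ball (0 : E) 1, ∫⁻ y in ball (0 : E) 1, 4 * ∫⁻ t in Ioc (0 : ℝ) 1, g ((1 - t) • x + t • y) := by
        refine lintegral_mono fun x => lintegral_mono_set hSB
    _ = 4 * ∫⁻ t in Ioc (0 : ℝ) 1, ∫⁻ x in ball (0 : E) 1, ∫⁻ y in ball (0 : E) 1, g ((1 - t) • x + t • y) := by
        have h2 : Measurable fun p : E × E => ∫⁻ t in Ioc (0 : ℝ) 1, g ((1 - t) • p.1 + t • p.2) :=
          meas3_h54 hg
        have h3 : ∀ x, ∫⁻ y in ball (0 : E) 1, 4 * ∫⁻ t in Ioc (0 : ℝ) 1, g ((1 - t) • x + t • y) =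
            4 * ∫⁻ t in Ioc (0 : ℝ) 1, ∫⁻ y in ball (0 : E) 1, g ((1 - t) • x + t • y) := by
          intro x
          have h2' : Measurable fun y : E => ∫⁻ t in Ioc (0 : ℝ) 1, g ((1 - t) • x + t • y) :=
            Measurable.of_uncurry_left (f := fun x y => ∫⁻ t in Ioc (0 : ℝ) 1, g ((1 - t) • x + t • y)) h2
          have h5 : Measurable (Function.uncurry fun (y : E) (t : ℝ) => g ((1 - t) • x + t • y)) :=
            meas1_h54 hg x
          rw [lintegral_const_mul _ h2', lintegral_lintegral_swap h5.aemeasurable]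
        simp_rw [h3]
        have h6 : Measurable (Function.uncurry fun (x : E) (t : ℝ) => ∫⁻ y in ball (0 : E) 1, g ((1 - t) • x + t • y)) :=
          meas2_h54 hg
        have h7 : Measurable fun x : E => ∫⁻ t in Ioc (0 : ℝ) 1, ∫⁻ y in ball (0 : E) 1, g ((1 - t) • x + t • y) :=
          Measurable.lintegral_prod_right' h6
        rw [lintegral_const_mul _ h7, lintegral_lintegral_swap h6.aemeasurable]
    _ ≤ 4 * ∫⁻ _t in Ioc (0 : ℝ) 1, volume (ball (0 : E) 1) * (2 ^ Module.finrank ℝ E * ∫⁻ x in ball (0 : E) 1, g x) := by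
        gcongr 4 * ?_
        exact setLIntegral_mono' measurableSet_Ioc fun t ht => double_h54 hg ht
    _ = _ := by
        rw [setLIntegral_const, Real.volume_Ioc]
        simp

end Private_h54

theorem poincare {E : Type} [NormedAddCommGroup E] [InnerProductSpace ℝ E] [FiniteDimensional ℝ E]
    [MeasurableSpace E] [BorelSpace E] {w : E → ℝ} (hw : ContDiff ℝ 1 w) {S : Set E} (hS : MeasurableSet S)
    (hSB : S ⊆ ball 0 1) (hw0 : ∀ x ∈ S, w x = 0) {th : ℝ} (hth : 0 < th)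
    (hvol : th * volume.real (ball (0 : E) 1) ≤ volume.real S) :
    th * ∫ x in ball (0 : E) 1, w x ^ 2 ≤ 2 ^ (Module.finrank ℝ E + 2) * ∫ x in ball (0 : E) 1, ‖fderiv ℝ w x‖ ^ 2 := by
  have hd : Continuous (fderiv ℝ w) := hw.continuous_fderiv one_ne_zero
  have hint : ∀ {f : E → ℝ}, Continuous f → IntegrableOn f (ball (0 : E) 1) := by
    intro f hf
    exact (hf.continuousOn.integrableOn_compact (isCompact_closedBall (0 : E) 1)).mono_set ball_subset_closedBall
  have hI1 := hint (hw.continuous.pow 2)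
  have hI2 := hint (hd.norm.pow 2)
  have hE := poincareE_h54 hw hS hSB hw0
  have h1 : ∫⁻ x in ball (0 : E) 1, ENNReal.ofReal (w x ^ 2) = ENNReal.ofReal (∫ x in ball (0 : E) 1, w x ^ 2) :=
    (ofReal_integral_eq_lintegral_ofReal hI1 (Filter.Eventually.of_forall fun x => sq_nonneg _)).symm
  have h2 : ∫⁻ x in ball (0 : E) 1, ENNReal.ofReal (‖fderiv ℝ w x‖ ^ 2) =
      ENNReal.ofReal (∫ x in ball (0 : E) 1, ‖fderiv ℝ w x‖ ^ 2) :=
    (ofReal_integral_eq_lintegral_ofReal hI2 (Filter.Eventually.of_forall fun x => sq_nonneg _)).symm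
  rw [h1, h2] at hE
  have hBfin : volume (ball (0 : E) 1) ≠ ⊤ := measure_ball_lt_top.ne
  have hSfin : volume S ≠ ⊤ := (lt_of_le_of_lt (measure_mono hSB) measure_ball_lt_top).ne
  have h3 := ENNReal.toReal_mono (by finiteness) hE
  have hn1 : 0 ≤ ∫ x in ball (0 : E) 1, w x ^ 2 := integral_nonneg fun x => by positivity
  have hn2 : 0 ≤ ∫ x in ball (0 : E) 1, ‖fderiv ℝ w x‖ ^ 2 := integral_nonneg fun x => by positivity
  rw [ENNReal.toReal_mul, ENNReal.toReal_mul, ENNReal.toReal_mul, ENNReal.toReal_mul, ENNReal.toReal_ofReal hn1,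
    ENNReal.toReal_ofReal hn2, ENNReal.toReal_pow] at h3
  norm_num at h3
  have hBpos : 0 < volume.real (ball (0 : E) 1) :=
    ENNReal.toReal_pos (measure_ball_pos volume (0 : E) one_pos).ne' hBfin
  change volume.real S * _ ≤ 4 * (volume.real (ball (0 : E) 1) * _) at h3
  have h4 : volume.real (ball (0 : E) 1) * (th * ∫ x in ball (0 : E) 1, w x ^ 2) ≤
      volume.real (ball (0 : E) 1) * (2 ^ (Module.finrank ℝ E + 2) * ∫ x in ball (0 : E) 1, ‖fderiv ℝ w x‖ ^ 2) := by
    calc volume.real (ball (0 : E) 1) * (th * ∫ x in ball (0 : E) 1, w x ^ 2)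
        = (th * volume.real (ball (0 : E) 1)) * ∫ x in ball (0 : E) 1, w x ^ 2 := by ring
      _ ≤ volume.real S * ∫ x in ball (0 : E) 1, w x ^ 2 := by gcongr
      _ ≤ _ := h3
      _ = _ := by ring
  exact le_of_mul_le_mul_left h4 hBpos

end Pool.Agent.Helper87.RG
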