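import Pool.Agent.Helper87.RG.CD0

/-!
# Project REG, block CD4: the logarithm of a weak supersolution

`S ∈ C¹`, `S ≥ K > 0`, `∫ q(dS, dη) ≥ -K ∫ η` for the test functions `η` in the ball of radius `2` (here: `WeakSub q (fun x => -S x) K 2`). `Y = log (c0 / S)`, so `dY = -dS/S`.
`log_weak`: `∫ q(dY, dη) ≤ ∫ η`. PROOF. `η / S` is a test function, `d(η/S) = dη/S - η dS/S²`, so `∫ q(dS, dη)/S - ∫ η q(dS, dS)/S² ≥ -K ∫ η/S ≥ -∫ η` (`K/S ≤ 1`), i.e. `-∫ q(dY, dη) - ∫ η q(dY, dY) ≥ -∫ η`, and `q(dY, dY) ≥ 0`.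
`log_energy`: for `ζ ∈ C¹` with compact support in the ball of radius `2` (any sign): `∫ ζ² q(dY, dY) ≤ 2 ∫ ζ² + 4 ∫ q(dζ, dζ)`. PROOF. The same with `η = ζ²`: `∫ ζ² q(dY, dY) ≤ ∫ ζ² - 2 ∫ ζ q(dY, dζ) ≤ ∫ ζ² + ½ ∫ ζ² q(dY, dY) + 2 ∫ q(dζ, dζ)` (Cauchy - Schwarz for the nonnegative symmetric form `q x`, `2ab ≤ a²/2 + 2 b²`).
Integrability: all integrands are bounded (`‖q x‖` is bounded on account of `symm`, `lower`, `upper`, or use `|q x ξ η| ≤ L ‖ξ‖ ‖η‖`), measurable, and vanish outside a compact set.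
-/

set_option autoImplicit false

open MeasureTheory Set Metric

namespace Pool.Agent.Helper87.RG

variable {E : Type} [NormedAddCommGroup E] [InnerProductSpace ℝ E] [FiniteDimensional ℝ E]
  [MeasurableSpace E] [BorelSpace E]

theorem int_q {q : E → (E →L[ℝ] ℝ) → (E →L[ℝ] ℝ) → ℝ} {l L : ℝ} (hl : 0 < l) (hq : Ell q l L)
    {ξ η : E → (E →L[ℝ] ℝ)} (hξ : Continuous ξ) (hη : Continuous η) (hc : HasCompactSupport η) :
    Integrable (fun x => q x (ξ x) (η x)) := by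
  have hg : Integrable (fun x => L * ‖ξ x‖ * ‖η x‖) := by
    apply Continuous.integrable_of_hasCompactSupport
    · fun_prop
    · exact HasCompactSupport.mul_left hc.norm
  refine hg.mono' (hq.meas ξ η hξ.measurable hη.measurable).aestronglyMeasurable
    (Filter.Eventually.of_forall fun x => ?_)
  rw [Real.norm_eq_abs]
  exact hq.abs_le hl x _ _

theorem log_hasFDerivAt {S : E → ℝ} (hS : ContDiff ℝ 1 S) {c0 : ℝ} (hc0 : 0 < c0) (hS0 : ∀ x, 0 < S x) (x : E) :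
    HasFDerivAt (fun x => Real.log (c0 / S x)) (-((S x)⁻¹ • fderiv ℝ S x)) x := by
  have h1 : (fun x => Real.log (c0 / S x)) = fun x => Real.log c0 - Real.log (S x) := by
    funext y
    rw [Real.log_div hc0.ne' (hS0 y).ne']
  rw [h1]
  have h2 : HasFDerivAt S (fderiv ℝ S x) x := (hS.differentiable one_ne_zero x).hasFDerivAt
  exact (h2.log (hS0 x).ne').const_sub _

theorem log_fderiv {S : E → ℝ} (hS : ContDiff ℝ 1 S) {c0 : ℝ} (hc0 : 0 < c0) (hS0 : ∀ x, 0 < S x) (x : E) :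
    fderiv ℝ (fun x => Real.log (c0 / S x)) x = -((S x)⁻¹ • fderiv ℝ S x) :=
  (log_hasFDerivAt hS hc0 hS0 x).fderiv

theorem log_cont {S : E → ℝ} (hS : ContDiff ℝ 1 S) {c0 : ℝ} (hc0 : 0 < c0) (hS0 : ∀ x, 0 < S x) :
    Continuous (fun x => fderiv ℝ (fun x => Real.log (c0 / S x)) x) := by
  have h1 : (fun x => fderiv ℝ (fun x => Real.log (c0 / S x)) x) = fun x => -((S x)⁻¹ • fderiv ℝ S x) :=
    funext (log_fderiv hS hc0 hS0)
  rw [h1]
  exact ((hS.continuous.inv₀ fun x => (hS0 x).ne').smul (hS.continuous_fderiv one_ne_zero)).neg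

theorem log_core {q : E → (E →L[ℝ] ℝ) → (E →L[ℝ] ℝ) → ℝ} {l L : ℝ} (hl : 0 < l) (hq : Ell q l L) {S : E → ℝ} (hS : ContDiff ℝ 1 S) {K c0 : ℝ}
    (hK : 0 < K) (hc0 : 0 < c0) (hSK : ∀ x, K ≤ S x) (hw : WeakSub q (fun x => -S x) K 2) {η : E → ℝ} (hη : TestF 2 η) :
    (∫ x, q x (fderiv ℝ (fun x => Real.log (c0 / S x)) x) (fderiv ℝ η x)) +
      ∫ x, η x * q x (fderiv ℝ (fun x => Real.log (c0 / S x)) x) (fderiv ℝ (fun x => Real.log (c0 / S x)) x) ≤
    ∫ x, η x := by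
  have hS0 : ∀ x, 0 < S x := fun x => hK.trans_le (hSK x)
  have hSd : ∀ x, HasFDerivAt S (fderiv ℝ S x) x := fun x => (hS.differentiable one_ne_zero x).hasFDerivAt
  have hηd : ∀ x, HasFDerivAt η (fderiv ℝ η x) x := fun x => (hη.smooth.differentiable one_ne_zero x).hasFDerivAt
  have hφ : TestF 2 (fun x => η x * (S x)⁻¹) := by
    have hsub : tsupport (fun x => η x * (S x)⁻¹) ⊆ tsupport η := tsupport_mul_subset_left
    refine ⟨hη.smooth.mul (hS.inv fun x => (hS0 x).ne'), hη.supp.mul_right, hsub.trans hη.ball, fun x =>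
      mul_nonneg (hη.nonneg x) (inv_nonneg.2 (hS0 x).le)⟩
  have hφd : ∀ x, fderiv ℝ (fun x => η x * (S x)⁻¹) x =
      η x • (-(S x ^ 2)⁻¹ • fderiv ℝ S x) + (S x)⁻¹ • fderiv ℝ η x := by
    intro x
    have h1 : HasFDerivAt (fun x => (S x)⁻¹) (-(S x ^ 2)⁻¹ • fderiv ℝ S x) x :=
      (hasDerivAt_inv (hS0 x).ne').comp_hasFDerivAt x (hSd x)
    exact ((hηd x).mul h1).fderiv
  have hSn : ∀ x, fderiv ℝ (fun x => -S x) x = -fderiv ℝ S x := fun x => (hSd x).neg.fderiv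
  have key : ∀ x, q x (fderiv ℝ (fun x => -S x) x) (fderiv ℝ (fun x => η x * (S x)⁻¹) x) =
      q x (fderiv ℝ (fun x => Real.log (c0 / S x)) x) (fderiv ℝ η x) +
      η x * q x (fderiv ℝ (fun x => Real.log (c0 / S x)) x) (fderiv ℝ (fun x => Real.log (c0 / S x)) x) := by
    intro x
    have hx := (hS0 x).ne'
    rw [hSn, hφd, log_fderiv hS hc0 hS0]
    simp only [hq.add_right, hq.smul_right, hq.neg, hq.neg_right, hq.smul]
    field_simp
    ring
  have hYc := log_cont hS hc0 hS0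
  have hi1 : Integrable (fun x => q x (fderiv ℝ (fun x => Real.log (c0 / S x)) x) (fderiv ℝ η x)) :=
    int_q hl hq hYc (hη.smooth.continuous_fderiv one_ne_zero) (hη.supp.fderiv (𝕜 := ℝ))
  have hi2 : Integrable (fun x => η x *
      q x (fderiv ℝ (fun x => Real.log (c0 / S x)) x) (fderiv ℝ (fun x => Real.log (c0 / S x)) x)) := by
    have h1 := int_q hl hq (ξ := fun x => fderiv ℝ (fun x => Real.log (c0 / S x)) x)
      (η := fun x => η x • fderiv ℝ (fun x => Real.log (c0 / S x)) x) hYc (hη.smooth.continuous.smul hYc)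
      hη.supp.smul_right
    refine h1.congr (Filter.Eventually.of_forall fun x => ?_)
    exact hq.smul_right x _ _ _
  have h1 := hw _ hφ
  rw [integral_congr_ae (Filter.Eventually.of_forall key), integral_add hi1 hi2] at h1
  refine h1.trans ?_
  rw [← integral_const_mul]
  have hηi : Integrable η := hη.smooth.continuous.integrable_of_hasCompactSupport hη.supp
  refine integral_mono ?_ hηi fun x => ?_
  · exact (hφ.smooth.continuous.integrable_of_hasCompactSupport hφ.supp).const_mul _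
  · have h2 : K * (S x)⁻¹ ≤ 1 := by
      rw [← div_eq_mul_inv, div_le_one (hS0 x)]
      exact hSK x
    have h3 := mul_le_mul_of_nonneg_left h2 (hη.nonneg x)
    show K * (η x * (S x)⁻¹) ≤ η x
    calc K * (η x * (S x)⁻¹) = η x * (K * (S x)⁻¹) := by ring
      _ ≤ η x * 1 := h3
      _ = η x := mul_one _

theorem log_weak {q : E → (E →L[ℝ] ℝ) → (E →L[ℝ] ℝ) → ℝ} {l L : ℝ} (hl : 0 < l) (hq : Ell q l L) {S : E → ℝ} (hS : ContDiff ℝ 1 S) {K c0 : ℝ}
    (hK : 0 < K) (hc0 : 0 < c0) (hSK : ∀ x, K ≤ S x) (hw : WeakSub q (fun x => -S x) K 2) :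
    WeakSub q (fun x => Real.log (c0 / S x)) 1 2 := by
  intro η hη
  have h1 := log_core hl hq hS hK hc0 hSK hw hη
  have h2 : 0 ≤ ∫ x, η x * q x (fderiv ℝ (fun x => Real.log (c0 / S x)) x) (fderiv ℝ (fun x => Real.log (c0 / S x)) x) :=
    integral_nonneg fun x => mul_nonneg (hη.nonneg x) (hq.nonneg hl x _)
  rw [one_mul]
  linarith

theorem log_energy {q : E → (E →L[ℝ] ℝ) → (E →L[ℝ] ℝ) → ℝ} {l L : ℝ} (hl : 0 < l) (hq : Ell q l L) {S : E → ℝ} (hS : ContDiff ℝ 1 S) {K c0 : ℝ}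
    (hK : 0 < K) (hc0 : 0 < c0) (hSK : ∀ x, K ≤ S x) (hw : WeakSub q (fun x => -S x) K 2) {ζ : E → ℝ}
    (hζ : ContDiff ℝ 1 ζ) (hζc : HasCompactSupport ζ) (hζb : tsupport ζ ⊆ ball 0 2) :
    ∫ x, ζ x ^ 2 * q x (fderiv ℝ (fun x => Real.log (c0 / S x)) x) (fderiv ℝ (fun x => Real.log (c0 / S x)) x)
      ≤ 2 * (∫ x, ζ x ^ 2) + 4 * ∫ x, q x (fderiv ℝ ζ x) (fderiv ℝ ζ x) := by
  have hS0 : ∀ x, 0 < S x := fun x => hK.trans_le (hSK x)
  have hYc := log_cont hS hc0 hS0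
  have hζd : ∀ x, HasFDerivAt ζ (fderiv ℝ ζ x) x := fun x => (hζ.differentiable one_ne_zero x).hasFDerivAt
  have hsq : TestF 2 (fun x => ζ x ^ 2) := by
    have he : (fun x => ζ x ^ 2) = fun x => ζ x * ζ x := funext fun x => sq _
    have hsub : tsupport (fun x => ζ x ^ 2) ⊆ tsupport ζ := by
      rw [he]
      exact tsupport_mul_subset_left
    refine ⟨hζ.pow 2, ?_, hsub.trans hζb, fun x => sq_nonneg _⟩
    rw [he]
    exact hζc.mul_right
  have hsd : ∀ x, fderiv ℝ (fun x => ζ x ^ 2) x = (2 * ζ x) • fderiv ℝ ζ x := by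
    intro x
    have he : (fun x => ζ x ^ 2) = fun x => ζ x * ζ x := funext fun x => sq _
    rw [he]
    have h0 : fderiv ℝ (fun x => ζ x * ζ x) x = ζ x • fderiv ℝ ζ x + ζ x • fderiv ℝ ζ x :=
      ((hζd x).mul (hζd x)).fderiv
    rw [h0, ← add_smul, two_mul]
  have h1 := log_core hl hq hS hK hc0 hSK hw hsq
  set Y' : E → (E →L[ℝ] ℝ) := fun x => fderiv ℝ (fun x => Real.log (c0 / S x)) x with hY'
  have hi1 : Integrable (fun x => q x (Y' x) (fderiv ℝ (fun x => ζ x ^ 2) x)) :=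
    int_q hl hq hYc (hsq.smooth.continuous_fderiv one_ne_zero) (hsq.supp.fderiv (𝕜 := ℝ))
  have hi2 : Integrable (fun x => ζ x ^ 2 * q x (Y' x) (Y' x)) := by
    have h1 := int_q hl hq (ξ := Y') (η := fun x => ζ x ^ 2 • Y' x) hYc (hsq.smooth.continuous.smul hYc)
      hsq.supp.smul_right
    refine h1.congr (Filter.Eventually.of_forall fun x => ?_)
    exact hq.smul_right x _ _ _
  have hi3 : Integrable (fun x => q x (fderiv ℝ ζ x) (fderiv ℝ ζ x)) :=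
    int_q hl hq (hζ.continuous_fderiv one_ne_zero) (hζ.continuous_fderiv one_ne_zero) (hζc.fderiv (𝕜 := ℝ))
  have key : ∀ x, -((1 / 2) * (ζ x ^ 2 * q x (Y' x) (Y' x)) + 2 * q x (fderiv ℝ ζ x) (fderiv ℝ ζ x)) ≤
      q x (Y' x) (fderiv ℝ (fun x => ζ x ^ 2) x) := by
    intro x
    have h2 := hq.young hl x (ζ x • Y' x) (fderiv ℝ ζ x) (s := 1 / 2) (by norm_num)
    have h3 : q x (ζ x • Y' x) (fderiv ℝ ζ x) = ζ x * q x (Y' x) (fderiv ℝ ζ x) := hq.smul x _ _ _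
    have h4 : q x (ζ x • Y' x) (ζ x • Y' x) = ζ x ^ 2 * q x (Y' x) (Y' x) := by
      rw [hq.smul, hq.smul_right]
      ring
    have h5 : q x (Y' x) (fderiv ℝ (fun x => ζ x ^ 2) x) = 2 * (ζ x * q x (Y' x) (fderiv ℝ ζ x)) := by
      rw [hsd, hq.smul_right]
      ring
    rw [h3, h4] at h2
    rw [h5]
    have h6 := neg_abs_le (ζ x * q x (Y' x) (fderiv ℝ ζ x))
    have h7 : ((1 / 2 : ℝ))⁻¹ = 2 := by norm_num
    rw [h7] at h2
    linarith
  have hg : Integrable (fun x => -((1 / 2) * (ζ x ^ 2 * q x (Y' x) (Y' x)) + 2 * q x (fderiv ℝ ζ x) (fderiv ℝ ζ x))) :=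
    ((hi2.const_mul (1 / 2)).add (hi3.const_mul 2)).neg
  have h2 := integral_mono hg hi1 key
  have h3 : (∫ x, -((1 / 2) * (ζ x ^ 2 * q x (Y' x) (Y' x)) + 2 * q x (fderiv ℝ ζ x) (fderiv ℝ ζ x))) =
      -((1 / 2) * (∫ x, ζ x ^ 2 * q x (Y' x) (Y' x)) + 2 * ∫ x, q x (fderiv ℝ ζ x) (fderiv ℝ ζ x)) := by
    rw [integral_neg, integral_add (hi2.const_mul (1 / 2)) (hi3.const_mul 2), integral_const_mul, integral_const_mul]
  rw [h3] at h2
  have h5 : (∫ x, ζ x ^ 2 * q x (Y' x) (Y' x)) =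
    ∫ x, ζ x ^ 2 * q x (fderiv ℝ (fun x => Real.log (c0 / S x)) x) (fderiv ℝ (fun x => Real.log (c0 / S x)) x) := rfl
  linarith

end Pool.Agent.Helper87.RG
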