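import Pool.Agent.Helper87.RG.CD0

/-!
# Project REG, block CD5: convex functions of weak subsolutions

`GG y = ∫_0^y smoothTransition t dt`: smooth, convex, nondecreasing, `0` on `(-∞, 0]`, `≥ y - 1`, derivative in `[0, 1]`.
`comp_weak`: `Y ∈ C¹` weak subsolution (`WeakSub q Y 1 2`) ⇒ `GG ∘ Y + 1` weak subsolution. PROOF. With `g = smoothTransition`: `η (g ∘ Y)` is a test function, `d(η g(Y)) = g(Y) dη + η g'(Y) dY`, `d(GG ∘ Y) = g(Y) dY`, so `∫ q(d(GG ∘ Y), dη) = ∫ q(dY, d(η g(Y))) - ∫ η g'(Y) q(dY, dY) ≤ ∫ η g(Y) ≤ ∫ η` (`g' ≥ 0` as `g` is monotone; `0 ≤ g ≤ 1`).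
-/

set_option autoImplicit false

open MeasureTheory Set Metric

namespace Pool.Agent.Helper87.RG

variable {E : Type} [NormedAddCommGroup E] [InnerProductSpace ℝ E] [FiniteDimensional ℝ E]
  [MeasurableSpace E] [BorelSpace E]

/-- the convex function -/
noncomputable def GG (y : ℝ) : ℝ := ∫ t in (0 : ℝ)..y, Real.smoothTransition t

theorem hasDerivAt_GG (y : ℝ) : HasDerivAt GG (Real.smoothTransition y) y :=
  (Real.smoothTransition.continuous).integral_hasStrictDerivAt 0 y |>.hasDerivAt

theorem contDiff_GG : ContDiff ℝ (⊤ : ℕ∞) GG := by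
  rw [contDiff_infty_iff_deriv]
  have h : deriv GG = Real.smoothTransition := funext fun y => (hasDerivAt_GG y).deriv
  refine ⟨fun y => (hasDerivAt_GG y).differentiableAt, ?_⟩
  rw [h]
  exact Real.smoothTransition.contDiff

private theorem gg_mono : Monotone Real.smoothTransition := by
  intro a b hab
  unfold Real.smoothTransition
  have ha0 := expNegInvGlue.nonneg a
  have hb0 := expNegInvGlue.nonneg b
  have ha1 := expNegInvGlue.nonneg (1 - a)
  have hb1 := expNegInvGlue.nonneg (1 - b)
  have h1 : expNegInvGlue a ≤ expNegInvGlue b := expNegInvGlue.monotone hab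
  have h2 : expNegInvGlue (1 - b) ≤ expNegInvGlue (1 - a) := expNegInvGlue.monotone (by linarith)
  rw [div_le_div_iff₀ (Real.smoothTransition.pos_denom a) (Real.smoothTransition.pos_denom b)]
  have h3 : expNegInvGlue a * expNegInvGlue (1 - b) ≤ expNegInvGlue b * expNegInvGlue (1 - a) :=
    mul_le_mul h1 h2 hb1 hb0
  nlinarith

theorem GG_of_nonpos {y : ℝ} (hy : y ≤ 0) : GG y = 0 := by
  unfold GG
  rw [intervalIntegral.integral_symm, intervalIntegral.integral_congr (g := fun _ => (0 : ℝ))]
  · simp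
  · intro t ht
    rw [uIcc_of_le hy] at ht
    exact Real.smoothTransition.zero_of_nonpos ht.2

theorem GG_nonneg (y : ℝ) : 0 ≤ GG y := by
  rcases le_total y 0 with h | h
  · rw [GG_of_nonpos h]
  · exact intervalIntegral.integral_nonneg h fun t _ => Real.smoothTransition.nonneg t

theorem GG_ge (y : ℝ) : y - 1 ≤ GG y := by
  rcases le_total y 1 with h | h
  · exact (by linarith : y - 1 ≤ 0).trans (GG_nonneg y)
  · have hii : ∀ a b : ℝ, IntervalIntegrable Real.smoothTransition volume a b := fun a b =>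
      Real.smoothTransition.continuous.intervalIntegrable a b
    have h1 : GG y = GG 1 + ∫ t in (1 : ℝ)..y, Real.smoothTransition t :=
      (intervalIntegral.integral_add_adjacent_intervals (hii 0 1) (hii 1 y)).symm
    have h2 : ∫ t in (1 : ℝ)..y, Real.smoothTransition t = ∫ _t in (1 : ℝ)..y, (1 : ℝ) := by
      refine intervalIntegral.integral_congr fun t ht => ?_
      rw [uIcc_of_le h] at ht
      exact Real.smoothTransition.one_of_one_le ht.1
    rw [h1, h2, intervalIntegral.integral_const, smul_eq_mul, mul_one]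
    linarith [GG_nonneg 1]

theorem comp_weak {q : E → (E →L[ℝ] ℝ) → (E →L[ℝ] ℝ) → ℝ} {l L : ℝ} (hl : 0 < l) (hq : Ell q l L) {Y : E → ℝ} (hY : ContDiff ℝ 1 Y)
    (hw : WeakSub q Y 1 2) : WeakSub q (fun x => GG (Y x) + 1) 1 2 := by
  intro η hη
  have hYd : ∀ x, DifferentiableAt ℝ Y x := fun x => (hY.differentiable one_ne_zero) x
  have hηd : ∀ x, DifferentiableAt ℝ η x := fun x => (hη.smooth.differentiable one_ne_zero) x
  have hgd : ∀ y, DifferentiableAt ℝ Real.smoothTransition y := fun y =>
    (Real.smoothTransition.contDiff (n := 1)).differentiable one_ne_zero y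
  have hg0 := Real.smoothTransition.nonneg
  have hg1 := Real.smoothTransition.le_one
  have hg' : ∀ y, 0 ≤ deriv Real.smoothTransition y := fun y => gg_mono.deriv_nonneg
  -- test function
  set θ : E → ℝ := fun x => Real.smoothTransition (Y x) * η x with hθ
  have hθ1 : ContDiff ℝ 1 θ := ((Real.smoothTransition.contDiff (n := 1)).comp hY).mul hη.smooth
  have hsupp : Function.support θ ⊆ Function.support η := by
    intro x hx h0
    apply hx
    simp only [hθ]
    rw [show η x = 0 from h0, mul_zero]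
  have hθc : HasCompactSupport θ := hη.supp.mono hsupp
  have hθb : tsupport θ ⊆ ball 0 2 := (closure_mono hsupp).trans hη.ball
  have hθ0 : ∀ x, 0 ≤ θ x := fun x => mul_nonneg (hg0 _) (hη.nonneg x)
  have hmain := hw θ ⟨hθ1, hθc, hθb, hθ0⟩
  rw [one_mul] at hmain
  -- derivatives
  have hder : ∀ x, fderiv ℝ θ x = Real.smoothTransition (Y x) • fderiv ℝ η x
      + (η x * deriv Real.smoothTransition (Y x)) • fderiv ℝ Y x := by
    intro x
    have h1 : HasFDerivAt (fun x => Real.smoothTransition (Y x))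
        (deriv Real.smoothTransition (Y x) • fderiv ℝ Y x) x :=
      (hgd (Y x)).hasDerivAt.comp_hasFDerivAt x (hYd x).hasFDerivAt
    have h2 := h1.mul (hηd x).hasFDerivAt
    rw [HasFDerivAt.fderiv (f := θ) h2, smul_smul]
  have hderG : ∀ x, fderiv ℝ (fun x => GG (Y x) + 1) x = Real.smoothTransition (Y x) • fderiv ℝ Y x := by
    intro x
    exact (((hasDerivAt_GG (Y x)).comp_hasFDerivAt x (hYd x).hasFDerivAt).add_const 1).fderiv
  -- pointwise
  have hpt : ∀ x, q x (fderiv ℝ (fun x => GG (Y x) + 1) x) (fderiv ℝ η x)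
      ≤ q x (fderiv ℝ Y x) (fderiv ℝ θ x) := by
    intro x
    rw [hder, hderG, hq.smul, hq.add_right, hq.smul_right, hq.smul_right]
    have h1 : 0 ≤ η x * deriv Real.smoothTransition (Y x) * q x (fderiv ℝ Y x) (fderiv ℝ Y x) :=
      mul_nonneg (mul_nonneg (hη.nonneg x) (hg' _)) (hq.nonneg hl x _)
    linarith
  -- integrability
  have hcY : Continuous (fderiv ℝ Y) := hY.continuous_fderiv one_ne_zero
  have hcη : Continuous (fderiv ℝ η) := hη.smooth.continuous_fderiv one_ne_zero
  have hcθ : Continuous (fderiv ℝ θ) := hθ1.continuous_fderiv one_ne_zero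
  have key : ∀ u v : E → (E →L[ℝ] ℝ), Continuous u → Continuous v → HasCompactSupport v →
      Integrable (fun x => q x (u x) (v x)) := by
    intro u v hu hv hvc
    have hb : Integrable (fun x => L * ‖u x‖ * ‖v x‖) := by
      refine Continuous.integrable_of_hasCompactSupport ((continuous_const.mul hu.norm).mul hv.norm) ?_
      exact (hvc.norm).mul_left
    refine hb.mono' (hq.meas _ _ hu.measurable hv.measurable).aestronglyMeasurable ?_
    refine Filter.Eventually.of_forall fun x => ?_
    rw [Real.norm_eq_abs]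
    exact hq.abs_le hl x _ _
  have i1 : Integrable (fun x => q x (fderiv ℝ Y x) (fderiv ℝ θ x)) :=
    key _ _ hcY hcθ (hθc.fderiv ℝ)
  have i2 : Integrable (fun x => q x (fderiv ℝ (fun x => GG (Y x) + 1) x) (fderiv ℝ η x)) := by
    refine key _ _ ?_ hcη (hη.supp.fderiv ℝ)
    have : fderiv ℝ (fun x => GG (Y x) + 1) = fun x => Real.smoothTransition (Y x) • fderiv ℝ Y x :=
      funext hderG
    rw [this]
    exact (Real.smoothTransition.continuous.comp hY.continuous).smul hcY
  have i3 : Integrable η := hη.smooth.continuous.integrable_of_hasCompactSupport hη.supp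
  have i4 : Integrable θ := hθ1.continuous.integrable_of_hasCompactSupport hθc
  rw [one_mul]
  calc ∫ x, q x (fderiv ℝ (fun x => GG (Y x) + 1) x) (fderiv ℝ η x)
      ≤ ∫ x, q x (fderiv ℝ Y x) (fderiv ℝ θ x) := integral_mono i2 i1 hpt
    _ ≤ ∫ x, θ x := hmain
    _ ≤ ∫ x, η x := by
        refine integral_mono i4 i3 fun x => ?_
        simp only [hθ]
        have := mul_le_mul_of_nonneg_right (hg1 (Y x)) (hη.nonneg x)
        linarith

end Pool.Agent.Helper87.RG
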