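import Pool.Agent.Helper87.RG.CD0

/-!
# Project REG, block CD6: Caccioppoli inequality for powers

`w ∈ C¹`, `w ≥ 1`, `WeakSub q w 1 2`, `p ≥ 1` real, `ζ ∈ C¹` with compact support in the ball of radius `2`:
`l ∫ ζ² w^(2p-2) ‖dw‖² ≤ ∫ (2 ζ² + 4 L ‖dζ‖²) w^(2p)`.
PROOF. The test function `ζ² w^(2p-1)` (`C¹` since `w ≥ 1`) has derivative `2 ζ w^(2p-1) dζ + (2p-1) ζ² w^(2p-2) dw`. So `(2p-1) ∫ ζ² w^(2p-2) q(dw, dw) ≤ ∫ ζ² w^(2p-1) - 2 ∫ ζ w^(2p-1) q(dw, dζ)`, `w^(2p-1) ≤ w^(2p)`, and `2 |ζ w^(2p-1) q(dw, dζ)| ≤ ½ ζ² w^(2p-2) q(dw, dw) + 2 w^(2p) q(dζ, dζ)`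
(Cauchy - Schwarz for `q x`). As `2p - 1 - ½ ≥ ½`: `∫ ζ² w^(2p-2) q(dw, dw) ≤ 2 ∫ ζ² w^(2p) + 4 ∫ w^(2p) q(dζ, dζ)`; now `q(dw, dw) ≥ l ‖dw‖²`, `q(dζ, dζ) ≤ L ‖dζ‖²`. Integrability as in CD4.
-/

set_option autoImplicit false

open MeasureTheory Set Metric

namespace Pool.Agent.Helper87.RG

variable {E : Type} [NormedAddCommGroup E] [InnerProductSpace ℝ E] [FiniteDimensional ℝ E]
  [MeasurableSpace E] [BorelSpace E]

theorem caccioppoli {q : E → (E →L[ℝ] ℝ) → (E →L[ℝ] ℝ) → ℝ} {l L : ℝ} (hl : 0 < l) (hq : Ell q l L) {w : E → ℝ} (hw : ContDiff ℝ 1 w)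
    (hw1 : ∀ x, 1 ≤ w x) (hsub : WeakSub q w 1 2) {p : ℝ} (hp : 1 ≤ p) {ζ : E → ℝ}
    (hζ : ContDiff ℝ 1 ζ) (hζc : HasCompactSupport ζ) (hζb : tsupport ζ ⊆ ball 0 2) :
    l * ∫ x, ζ x ^ 2 * w x ^ (2 * p - 2) * ‖fderiv ℝ w x‖ ^ 2
      ≤ ∫ x, (2 * ζ x ^ 2 + 4 * L * ‖fderiv ℝ ζ x‖ ^ 2) * w x ^ (2 * p) := by
  have hw0 : ∀ x, 0 < w x := fun x => lt_of_lt_of_le one_pos (hw1 x)
  have hwne : ∀ x, w x ≠ 0 := fun x => (hw0 x).ne'
  have hwp : ∀ r : ℝ, ContDiff ℝ 1 fun x => w x ^ r := fun r => hw.rpow_const_of_ne hwne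
  have hcw : Continuous (fderiv ℝ w) := hw.continuous_fderiv one_ne_zero
  have hcζ : Continuous (fderiv ℝ ζ) := hζ.continuous_fderiv one_ne_zero
  have hζd : ∀ x, DifferentiableAt ℝ ζ x := fun x => (hζ.differentiable one_ne_zero) x
  have hwd : ∀ x, DifferentiableAt ℝ w x := fun x => (hw.differentiable one_ne_zero) x
  set η : E → ℝ := fun x => ζ x ^ 2 * w x ^ (2 * p - 1) with hη
  have hη1 : ContDiff ℝ 1 η := (hζ.pow 2).mul (hwp _)
  have hsupp : Function.support η ⊆ Function.support ζ := by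
    intro x hx h0
    apply hx
    simp only [hη]
    rw [show ζ x = 0 from h0]
    simp
  have hηc : HasCompactSupport η := hζc.mono hsupp
  have hηb : tsupport η ⊆ ball 0 2 := (closure_mono hsupp).trans hζb
  have hη0 : ∀ x, 0 ≤ η x := fun x => mul_nonneg (sq_nonneg _) (Real.rpow_nonneg (hw0 x).le _)
  have hmain := hsub η ⟨hη1, hηc, hηb, hη0⟩
  rw [one_mul] at hmain
  -- the derivative of the test function
  have hder : ∀ x, fderiv ℝ η x = (2 * ζ x * w x ^ (2 * p - 1)) • fderiv ℝ ζ x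
      + ((2 * p - 1) * (ζ x ^ 2 * w x ^ (2 * p - 2))) • fderiv ℝ w x := by
    intro x
    have h1 : HasFDerivAt (fun x => ζ x ^ 2) ((2 * ζ x) • fderiv ℝ ζ x) x := by
      have := (hζd x).hasFDerivAt.pow 2
      simpa [pow_one] using this
    have h2 : HasFDerivAt (fun x => w x ^ (2 * p - 1)) (((2 * p - 1) * w x ^ (2 * p - 1 - 1)) • fderiv ℝ w x) x :=
      (hwd x).hasFDerivAt.rpow_const (Or.inl (hwne x))
    have h3 := h1.mul h2
    have h4 : (2 * p - 1 - 1 : ℝ) = 2 * p - 2 := by ring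
    rw [h4] at h3
    rw [HasFDerivAt.fderiv (f := η) h3, smul_smul, smul_smul, add_comm]
    congr 2 <;> ring
  -- pointwise inequality
  have hpt : ∀ x, l * (ζ x ^ 2 * w x ^ (2 * p - 2) * ‖fderiv ℝ w x‖ ^ 2)
      ≤ 2 * q x (fderiv ℝ w x) (fderiv ℝ η x) + 4 * L * ‖fderiv ℝ ζ x‖ ^ 2 * w x ^ (2 * p) := by
    intro x
    have e1 : w x ^ (2 * p - 1) = w x ^ (2 * p - 2) * w x := by
      rw [← Real.rpow_add_one (hwne x)]
      congr 1
      ring
    have e2 : w x ^ (2 * p) = w x ^ (2 * p - 2) * (w x * w x) := by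
      rw [← mul_assoc, ← Real.rpow_add_one (hwne x), ← Real.rpow_add_one (hwne x)]
      congr 1
      ring
    have hW : 0 < w x ^ (2 * p - 2) := Real.rpow_pos_of_pos (hw0 x) _
    rw [hder, hq.add_right, hq.smul_right, hq.smul_right, e1, e2]
    set W := w x ^ (2 * p - 2)
    set a := q x (fderiv ℝ w x) (fderiv ℝ w x) with ha
    set b := q x (fderiv ℝ w x) (fderiv ℝ ζ x) with hb
    set c := q x (fderiv ℝ ζ x) (fderiv ℝ ζ x) with hc
    have hla : l * ‖fderiv ℝ w x‖ ^ 2 ≤ a := hq.lower x _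
    have hcu : c ≤ L * ‖fderiv ℝ ζ x‖ ^ 2 := hq.upper x _
    have ha0 : 0 ≤ a := hq.nonneg hl x _
    -- square of `ζ dw + 2 w dζ`
    have hsq : 0 ≤ q x (ζ x • fderiv ℝ w x + (2 * w x) • fderiv ℝ ζ x)
        (ζ x • fderiv ℝ w x + (2 * w x) • fderiv ℝ ζ x) := hq.nonneg hl x _
    rw [hq.add, hq.add_right, hq.add_right, hq.smul, hq.smul, hq.smul, hq.smul, hq.smul_right, hq.smul_right,
      hq.smul_right, hq.smul_right, hq.symm x (fderiv ℝ ζ x) (fderiv ℝ w x), ← ha, ← hb, ← hc] at hsq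
    have h5 : 0 ≤ W * (ζ x * (ζ x * a) + ζ x * (2 * w x * b) + (2 * w x * (ζ x * b) + 2 * w x * (2 * w x * c))) :=
      mul_nonneg hW.le hsq
    have h6 : ζ x ^ 2 * W * (l * ‖fderiv ℝ w x‖ ^ 2) ≤ ζ x ^ 2 * W * a :=
      mul_le_mul_of_nonneg_left hla (mul_nonneg (sq_nonneg _) hW.le)
    have h7 : W * (w x * w x) * c ≤ W * (w x * w x) * (L * ‖fderiv ℝ ζ x‖ ^ 2) :=
      mul_le_mul_of_nonneg_left hcu (mul_nonneg hW.le (mul_self_nonneg _))
    have h8 : 0 ≤ (p - 1) * (ζ x ^ 2 * W * a) :=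
      mul_nonneg (by linarith) (mul_nonneg (mul_nonneg (sq_nonneg _) hW.le) ha0)
    nlinarith [h5, h6, h7, h8]
  -- integrability
  have hcη : Continuous (fderiv ℝ η) := hη1.continuous_fderiv one_ne_zero
  have hηfc : HasCompactSupport (fderiv ℝ η) := hηc.fderiv ℝ
  have i1 : Integrable (fun x => q x (fderiv ℝ w x) (fderiv ℝ η x)) := by
    have hb : Integrable (fun x => L * ‖fderiv ℝ w x‖ * ‖fderiv ℝ η x‖) := by
      refine Continuous.integrable_of_hasCompactSupport ((continuous_const.mul hcw.norm).mul hcη.norm) ?_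
      exact (hηfc.norm).mul_left
    refine hb.mono' (hq.meas _ _ hcw.measurable hcη.measurable).aestronglyMeasurable ?_
    refine Filter.Eventually.of_forall fun x => ?_
    rw [Real.norm_eq_abs]
    exact hq.abs_le hl x _ _
  have i2 : Integrable η := hη1.continuous.integrable_of_hasCompactSupport hηc
  have hζfc : HasCompactSupport (fderiv ℝ ζ) := hζc.fderiv ℝ
  have hcp : Continuous fun x => w x ^ (2 * p) := (hwp _).continuous
  have i3 : Integrable (fun x => 4 * L * ‖fderiv ℝ ζ x‖ ^ 2 * w x ^ (2 * p)) := by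
    refine Continuous.integrable_of_hasCompactSupport ((continuous_const.mul (hcζ.norm.pow 2)).mul hcp) ?_
    refine hζfc.mono fun x hx h0 => hx ?_
    simp [h0]
  have i4 : Integrable (fun x => 2 * ζ x ^ 2 * w x ^ (2 * p)) := by
    refine Continuous.integrable_of_hasCompactSupport ((continuous_const.mul (hζ.continuous.pow 2)).mul hcp) ?_
    refine hζc.mono fun x hx h0 => hx ?_
    simp [h0]
  have i5 : Integrable (fun x => l * (ζ x ^ 2 * w x ^ (2 * p - 2) * ‖fderiv ℝ w x‖ ^ 2)) := by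
    refine Continuous.integrable_of_hasCompactSupport
      (continuous_const.mul (((hζ.continuous.pow 2).mul (hwp _).continuous).mul (hcw.norm.pow 2))) ?_
    refine hζc.mono fun x hx h0 => hx ?_
    simp [h0]
  calc l * ∫ x, ζ x ^ 2 * w x ^ (2 * p - 2) * ‖fderiv ℝ w x‖ ^ 2
      = ∫ x, l * (ζ x ^ 2 * w x ^ (2 * p - 2) * ‖fderiv ℝ w x‖ ^ 2) := (integral_const_mul _ _).symm
    _ ≤ ∫ x, (2 * q x (fderiv ℝ w x) (fderiv ℝ η x) + 4 * L * ‖fderiv ℝ ζ x‖ ^ 2 * w x ^ (2 * p)) :=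
        integral_mono i5 ((i1.const_mul 2).add i3) hpt
    _ = 2 * (∫ x, q x (fderiv ℝ w x) (fderiv ℝ η x)) + ∫ x, 4 * L * ‖fderiv ℝ ζ x‖ ^ 2 * w x ^ (2 * p) := by
        rw [integral_add (i1.const_mul 2) i3, integral_const_mul]
    _ ≤ 2 * (∫ x, η x) + ∫ x, 4 * L * ‖fderiv ℝ ζ x‖ ^ 2 * w x ^ (2 * p) := by linarith
    _ = ∫ x, (2 * η x + 4 * L * ‖fderiv ℝ ζ x‖ ^ 2 * w x ^ (2 * p)) := by
        rw [integral_add (i2.const_mul 2) i3, integral_const_mul]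
    _ ≤ ∫ x, (2 * ζ x ^ 2 * w x ^ (2 * p) + 4 * L * ‖fderiv ℝ ζ x‖ ^ 2 * w x ^ (2 * p)) := by
        refine integral_mono ((i2.const_mul 2).add i3) (i4.add i3) fun x => ?_
        have h1 : w x ^ (2 * p - 1) ≤ w x ^ (2 * p) :=
          Real.rpow_le_rpow_of_exponent_le (hw1 x) (by linarith)
        have h2 := mul_le_mul_of_nonneg_left h1 (sq_nonneg (ζ x))
        simp only [hη]
        linarith
    _ = ∫ x, (2 * ζ x ^ 2 + 4 * L * ‖fderiv ℝ ζ x‖ ^ 2) * w x ^ (2 * p) := by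
        refine integral_congr_ae (Filter.Eventually.of_forall fun x => ?_)
        simp only
        ring

end Pool.Agent.Helper87.RG
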