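import Pool.Agent.Helper87.RG.CD1
import Pool.Agent.Helper87.RG.CD2
import Pool.Agent.Helper87.RG.CD6

/-!
# Project REG, block CD7: the reverse Hölder inequality

`rev_hoelder`. PROOF. Let `ζ` be the cutoff function (`exists_cutoff`) for the radii `r' < r ≤ 1` (support in the closed ball of radius `r`, contained in the open ball of radius `2`), `f = ζ² w^(2p)`, `C¹` with compact support, `f ≥ 0`.
`‖df‖ ≤ 2 ζ ‖dζ‖ w^(2p) + 2 p ζ² w^(2p-1) ‖dw‖ ≤ (ζ² + ‖dζ‖²) w^(2p) + p (ζ² w^(2p) + ζ² w^(2p-2) ‖dw‖²)`. With `caccioppoli`: `∫ ‖df‖ ≤ C1 p ∫ (ζ² + ‖dζ‖²) w^(2p)`, `C1 = 2 + (2 + 4 L)/l` (`p ≥ 1`).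
`ζ² + ‖dζ‖² ≤ (1 + C0²)(r - r')⁻²` on the closed ball of radius `r` (`r - r' ≤ 1`), zero outside. `gns`: `(∫ f^χ)^(1/χ) ≤ C_S ∫ ‖df‖`, and `f^χ = w^(2 p χ)` on the ball of radius `r'`. (The closed and the open ball of radius `r` differ by a set of measure zero.)
-/

set_option autoImplicit false

open MeasureTheory Set Metric

namespace Pool.Agent.Helper87.RG

theorem rev_hoelder {E : Type} [NormedAddCommGroup E] [InnerProductSpace ℝ E] [FiniteDimensional ℝ E]
    [MeasurableSpace E] [BorelSpace E] (hd : 2 ≤ Module.finrank ℝ E) {l L : ℝ} (hl : 0 < l) (hL : l ≤ L) :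
    ∃ C : ℝ, 1 ≤ C ∧ ∀ (q : E → (E →L[ℝ] ℝ) → (E →L[ℝ] ℝ) → ℝ) (w : E → ℝ), Ell q l L → ContDiff ℝ 1 w → (∀ x, 1 ≤ w x) → WeakSub q w 1 2 →
      ∀ p r' r : ℝ, 1 ≤ p → 1 / 2 ≤ r' → r' < r → r ≤ 1 →
        (∫ x in ball (0 : E) r', w x ^ (2 * p * chi E)) ^ (chi E)⁻¹ ≤ C * p * ((r - r') ^ 2)⁻¹ * ∫ x in ball (0 : E) r, w x ^ (2 * p) := by
  obtain ⟨C0, hC0, hcut⟩ := exists_cutoff
  obtain ⟨CS, hCS, hgns⟩ := gns (E := E) hd
  obtain ⟨hχ1, -⟩ := chi_gt hd
  have hL0 : 0 < L := hl.trans_le hL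
  set C1 : ℝ := 2 + (2 + 4 * L) / l with hC1
  have hC1p : 0 < C1 := by positivity
  refine ⟨max 1 (CS * C1 * (1 + C0 ^ 2)), le_max_left _ _, ?_⟩
  intro q w hq hw hw1 hsub p r' r hp hr'0 hr'r hr1
  have hrr : 0 < r - r' := by linarith
  have hp0 : 0 < p := by linarith
  obtain ⟨ζ, hζs, hζc, hζt, hζ0, hζ1, hζe, hζd⟩ := hcut E r' r (by linarith) hr'r
  have hζ : ContDiff ℝ 1 ζ := hζs.of_le (by exact_mod_cast le_top)
  have hw0 : ∀ x, 0 < w x := fun x => lt_of_lt_of_le one_pos (hw1 x)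
  have hζb : tsupport ζ ⊆ ball 0 2 := hζt.trans (closedBall_subset_ball (by linarith))
  have hcac := caccioppoli hl hq hw hw1 hsub hp hζ hζc hζb
  have cζ : Continuous ζ := hζ.continuous
  have cw : Continuous w := hw.continuous
  have cdζ : Continuous (fderiv ℝ ζ) := hζ.continuous_fderiv one_ne_zero
  have cdw : Continuous (fderiv ℝ w) := hw.continuous_fderiv one_ne_zero
  have cws : ∀ s : ℝ, Continuous (fun x => w x ^ s) := fun s => cw.rpow_const (fun x => Or.inl (hw0 x).ne')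
  have hζc2 : HasCompactSupport (fun x => ζ x ^ 2) := hζc.comp_left (g := fun t : ℝ => t ^ 2) (by simp)
  have hdζc : HasCompactSupport (fun x => ‖fderiv ℝ ζ x‖ ^ 2) :=
    (hζc.fderiv (𝕜 := ℝ)).comp_left (g := fun t : E →L[ℝ] ℝ => ‖t‖ ^ 2) (by simp)
  have hfc : ContDiff ℝ 1 (fun x => ζ x ^ 2 * w x ^ (2 * p)) :=
    (hζ.pow 2).mul (hw.rpow_const_of_ne (fun x => (hw0 x).ne'))
  have hfs : HasCompactSupport (fun x => ζ x ^ 2 * w x ^ (2 * p)) := hζc2.mul_right
  have hf0 : ∀ x, 0 ≤ ζ x ^ 2 * w x ^ (2 * p) := fun x => mul_nonneg (sq_nonneg _) (Real.rpow_nonneg (hw0 x).le _)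
  have hg := hgns _ hfc hfs hf0
  -- integrability
  have iA : Integrable (fun x => ζ x ^ 2 * w x ^ (2 * p)) :=
    hfc.continuous.integrable_of_hasCompactSupport hfs
  have iB : Integrable (fun x => ‖fderiv ℝ ζ x‖ ^ 2 * w x ^ (2 * p)) :=
    ((cdζ.norm.pow 2).mul (cws _)).integrable_of_hasCompactSupport hdζc.mul_right
  have iD : Integrable (fun x => ζ x ^ 2 * w x ^ (2 * p - 2) * ‖fderiv ℝ w x‖ ^ 2) :=
    (((cζ.pow 2).mul (cws _)).mul (cdw.norm.pow 2)).integrable_of_hasCompactSupport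
      (HasCompactSupport.mul_right (HasCompactSupport.mul_right hζc2))
  have iF : Integrable (fun x => ‖fderiv ℝ (fun x => ζ x ^ 2 * w x ^ (2 * p)) x‖) :=
    ((hfc.continuous_fderiv one_ne_zero).integrable_of_hasCompactSupport (hfs.fderiv (𝕜 := ℝ))).norm
  set IA := ∫ x, ζ x ^ 2 * w x ^ (2 * p) with hIA
  set IB := ∫ x, ‖fderiv ℝ ζ x‖ ^ 2 * w x ^ (2 * p) with hIB
  set ID := ∫ x, ζ x ^ 2 * w x ^ (2 * p - 2) * ‖fderiv ℝ w x‖ ^ 2 with hID
  have hIA0 : 0 ≤ IA := integral_nonneg hf0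
  have hIB0 : 0 ≤ IB := integral_nonneg fun x => mul_nonneg (sq_nonneg _) (Real.rpow_nonneg (hw0 x).le _)
  -- the pointwise bound of the derivative
  have hpt : ∀ x, ‖fderiv ℝ (fun x => ζ x ^ 2 * w x ^ (2 * p)) x‖ ≤
      (1 + p) * (ζ x ^ 2 * w x ^ (2 * p)) + ‖fderiv ℝ ζ x‖ ^ 2 * w x ^ (2 * p) +
        p * (ζ x ^ 2 * w x ^ (2 * p - 2) * ‖fderiv ℝ w x‖ ^ 2) := by
    intro x
    have d1 : HasFDerivAt ζ (fderiv ℝ ζ x) x := (hζ.differentiable one_ne_zero x).hasFDerivAt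
    have d2 : HasFDerivAt w (fderiv ℝ w x) x := (hw.differentiable one_ne_zero x).hasFDerivAt
    have d3 : HasFDerivAt (fun x => ζ x * ζ x) (ζ x • fderiv ℝ ζ x + ζ x • fderiv ℝ ζ x) x := d1.mul d1
    have d4 : HasFDerivAt (fun x => w x ^ (2 * p)) ((2 * p * w x ^ (2 * p - 1)) • fderiv ℝ w x) x :=
      d2.rpow_const (Or.inl (hw0 x).ne')
    have d5 : HasFDerivAt (fun x => ζ x * ζ x * w x ^ (2 * p))
      ((ζ x * ζ x) • ((2 * p * w x ^ (2 * p - 1)) • fderiv ℝ w x) + w x ^ (2 * p) • (ζ x • fderiv ℝ ζ x + ζ x • fderiv ℝ ζ x)) x :=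
      d3.mul d4
    have e : (fun x => ζ x ^ 2 * w x ^ (2 * p)) = fun x => ζ x * ζ x * w x ^ (2 * p) := by
      funext y
      rw [sq]
    rw [e, d5.fderiv]
    have hwp : 0 < w x ^ (2 * p) := Real.rpow_pos_of_pos (hw0 x) _
    have e1 : w x ^ (2 * p - 1) = w x ^ p * w x ^ (p - 1) := by
      rw [← Real.rpow_add (hw0 x)]
      congr 1
      ring
    have e2 : w x ^ (2 * p) = w x ^ p * w x ^ p := by
      rw [← Real.rpow_add (hw0 x)]
      congr 1
      ring
    have e3 : w x ^ (2 * p - 2) = w x ^ (p - 1) * w x ^ (p - 1) := by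
      rw [← Real.rpow_add (hw0 x)]
      congr 1
      ring
    have ha : 0 < w x ^ p := Real.rpow_pos_of_pos (hw0 x) _
    have hb : 0 < w x ^ (p - 1) := Real.rpow_pos_of_pos (hw0 x) _
    calc _ ≤ ‖(ζ x * ζ x) • ((2 * p * w x ^ (2 * p - 1)) • fderiv ℝ w x)‖ +
          ‖w x ^ (2 * p) • (ζ x • fderiv ℝ ζ x + ζ x • fderiv ℝ ζ x)‖ := norm_add_le _ _
      _ = ζ x * ζ x * (2 * p * w x ^ (2 * p - 1)) * ‖fderiv ℝ w x‖ + w x ^ (2 * p) * (2 * ζ x * ‖fderiv ℝ ζ x‖) := by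
        rw [norm_smul, norm_smul, norm_smul, ← add_smul, norm_smul, Real.norm_of_nonneg (mul_nonneg (hζ0 x) (hζ0 x)),
          Real.norm_of_nonneg (mul_nonneg (by linarith) (Real.rpow_nonneg (hw0 x).le _)), Real.norm_of_nonneg hwp.le,
          Real.norm_of_nonneg (by have := hζ0 x; linarith)]
        ring
      _ ≤ _ := by
        rw [e1, e2, e3]
        set a := w x ^ p with hadef
        set b := w x ^ (p - 1) with hbdef
        set D := ‖fderiv ℝ w x‖ with hD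
        set Z := ‖fderiv ℝ ζ x‖ with hZ
        have hz := hζ0 x
        have k1 : 0 ≤ p * (ζ x ^ 2 * (a - b * D) ^ 2) := by positivity
        have k2 : 0 ≤ (a * a) * (ζ x - Z) ^ 2 := by positivity
        nlinarith [k1, k2]
  have iAB : Integrable (fun x => (1 + p) * (ζ x ^ 2 * w x ^ (2 * p)) + ‖fderiv ℝ ζ x‖ ^ 2 * w x ^ (2 * p)) :=
    (iA.const_mul _).add iB
  have hint : ∫ x, ‖fderiv ℝ (fun x => ζ x ^ 2 * w x ^ (2 * p)) x‖ ≤ (1 + p) * IA + IB + p * ID := by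
    calc _ ≤ ∫ x, ((1 + p) * (ζ x ^ 2 * w x ^ (2 * p)) + ‖fderiv ℝ ζ x‖ ^ 2 * w x ^ (2 * p) +
        p * (ζ x ^ 2 * w x ^ (2 * p - 2) * ‖fderiv ℝ w x‖ ^ 2)) :=
          integral_mono iF (iAB.add (iD.const_mul _)) hpt
      _ = _ := by
        rw [integral_add iAB (iD.const_mul _), integral_add (iA.const_mul _) iB,
          integral_const_mul, integral_const_mul]
  have hcac' : l * ID ≤ 2 * IA + 4 * L * IB := by
    refine hcac.trans (le_of_eq ?_)
    rw [hIA, hIB, ← integral_const_mul, ← integral_const_mul, ← integral_add (iA.const_mul _) (iB.const_mul _)]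
    congr 1
    funext x
    ring
  have hIDb : ID ≤ (2 * IA + 4 * L * IB) / l := by
    rw [le_div_iff₀ hl]
    linarith
  have hsum : (1 + p) * IA + IB + p * ID ≤ C1 * p * (IA + IB) := by
    have k1 : p * ID ≤ p * ((2 + 4 * L) / l * (IA + IB)) := by
      apply mul_le_mul_of_nonneg_left _ (by linarith)
      refine hIDb.trans ?_
      rw [div_mul_eq_mul_div]
      apply div_le_div_of_nonneg_right _ hl.le
      nlinarith [mul_nonneg hL0.le hIA0]
    have k2 : C1 * p * (IA + IB) = 2 * p * (IA + IB) + p * ((2 + 4 * L) / l * (IA + IB)) := by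
      rw [hC1]
      ring
    rw [k2]
    nlinarith [mul_nonneg (sub_nonneg.2 hp) hIA0, mul_nonneg (sub_nonneg.2 hp) hIB0]
  -- the integrals over the ball
  have hball : ∫ x in ball (0 : E) r, w x ^ (2 * p) = ∫ x in closedBall (0 : E) r, w x ^ (2 * p) := by
    apply setIntegral_congr_set
    apply Filter.EventuallyEq.symm
    rw [← ball_union_sphere]
    exact union_ae_eq_left_of_ae_eq_empty (ae_eq_empty.2 (Measure.addHaar_sphere_of_ne_zero volume 0 (by linarith)))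
  have icl : IntegrableOn (fun x => w x ^ (2 * p)) (closedBall (0 : E) r) :=
    (cws _).continuousOn.integrableOn_compact (isCompact_closedBall _ _)
  have hAB : IA + IB ≤ (1 + C0 ^ 2) * ((r - r') ^ 2)⁻¹ * ∫ x in ball (0 : E) r, w x ^ (2 * p) := by
    rw [hball, ← integral_const_mul, ← integral_indicator isClosed_closedBall.measurableSet, hIA, hIB, ← integral_add iA iB]
    apply integral_mono (iA.add iB) ((integrable_indicator_iff isClosed_closedBall.measurableSet).2 (icl.const_mul _))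
    intro x
    rw [Pi.add_apply]
    by_cases hx : x ∈ closedBall (0 : E) r
    · rw [indicator_of_mem hx]
      have k1 : ζ x ^ 2 ≤ ((r - r') ^ 2)⁻¹ := by
        have k2 : ζ x ^ 2 ≤ 1 := pow_le_one₀ (hζ0 x) (hζ1 x)
        have k3 : (1 : ℝ) ≤ ((r - r') ^ 2)⁻¹ := by
          rw [one_le_inv₀ (by positivity)]
          apply pow_le_one₀ hrr.le
          linarith
        linarith
      have k4 : ‖fderiv ℝ ζ x‖ ^ 2 ≤ C0 ^ 2 * ((r - r') ^ 2)⁻¹ := by
        have k5 := pow_le_pow_left₀ (norm_nonneg _) (hζd x) 2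
        rw [div_pow, div_eq_mul_inv] at k5
        exact k5
      rw [← add_mul]
      apply mul_le_mul_of_nonneg_right _ (Real.rpow_nonneg (hw0 x).le _)
      linarith
    · rw [indicator_of_notMem hx]
      have hx' : x ∉ tsupport ζ := fun h => hx (hζt h)
      have z1 : ζ x = 0 := image_eq_zero_of_notMem_tsupport hx'
      have z2 : fderiv ℝ ζ x = 0 := by
        by_contra h
        exact hx' (support_fderiv_subset ℝ h)
      rw [z1, z2]
      simp
  -- the left side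
  have hleft : ∫ x in ball (0 : E) r', w x ^ (2 * p * chi E) ≤ ∫ x, (ζ x ^ 2 * w x ^ (2 * p)) ^ chi E := by
    have hcf : Continuous (fun x => (ζ x ^ 2 * w x ^ (2 * p)) ^ chi E) :=
      hfc.continuous.rpow_const (fun x => Or.inr (by linarith))
    have hcs : HasCompactSupport (fun x => (ζ x ^ 2 * w x ^ (2 * p)) ^ chi E) :=
      hfs.comp_left (g := fun t : ℝ => t ^ chi E) (Real.zero_rpow (by linarith))
    rw [← integral_indicator measurableSet_ball]
    apply integral_mono_of_nonneg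
    · filter_upwards with x
      exact indicator_nonneg (fun y _ => Real.rpow_nonneg (hw0 y).le _) x
    · exact hcf.integrable_of_hasCompactSupport hcs
    · filter_upwards with x
      by_cases hx : x ∈ ball (0 : E) r'
      · rw [indicator_of_mem hx, hζe x (ball_subset_closedBall hx), one_pow, one_mul,
          ← Real.rpow_mul (hw0 x).le]
      · rw [indicator_of_notMem hx]
        exact Real.rpow_nonneg (hf0 x) _
  have hnn : 0 ≤ ∫ x in ball (0 : E) r', w x ^ (2 * p * chi E) :=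
    integral_nonneg fun x => Real.rpow_nonneg (hw0 x).le _
  have hI0 : 0 ≤ ∫ x in ball (0 : E) r, w x ^ (2 * p) :=
    integral_nonneg fun x => Real.rpow_nonneg (hw0 x).le _
  calc _ ≤ (∫ x, (ζ x ^ 2 * w x ^ (2 * p)) ^ chi E) ^ (chi E)⁻¹ :=
        Real.rpow_le_rpow hnn hleft (by rw [inv_nonneg]; linarith)
    _ ≤ CS * ∫ x, ‖fderiv ℝ (fun x => ζ x ^ 2 * w x ^ (2 * p)) x‖ := hg
    _ ≤ CS * (C1 * p * ((1 + C0 ^ 2) * ((r - r') ^ 2)⁻¹ * ∫ x in ball (0 : E) r, w x ^ (2 * p))) := by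
        apply mul_le_mul_of_nonneg_left _ hCS.le
        refine (hint.trans hsum).trans ?_
        exact mul_le_mul_of_nonneg_left hAB (by positivity)
    _ = (CS * C1 * (1 + C0 ^ 2)) * p * ((r - r') ^ 2)⁻¹ * ∫ x in ball (0 : E) r, w x ^ (2 * p) := by ring
    _ ≤ _ := by
        gcongr
        exact le_max_right _ _

end Pool.Agent.Helper87.RG
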