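import Pool.Agent.Helper87.RG.CD0

/-!
# Project REG, block CD8: Moser iteration

`moser`: `w` continuous, `w ≥ 1`, with the reverse Hölder inequalities of CD7 (constants `C ≥ 1`, `1 < χ ≤ 2`) satisfies `w x ≤ C' (∫_(B_1) w²)^(1/2)` on the ball of radius `1/2`, `C'` depends on `C`, `χ` only.
PROOF. `p_k = χ^k`, `r_k = 1/2 + 2^(-k-1)`, `r_k - r_(k+1) = 2^(-k-2)`. `N_k = (∫_(B_(r_k)) w^(2 p_k))^(1/(2 p_k)) > 0`. `N_(k+1) = ((∫_(B_(r_(k+1))) w^(2 p_k χ))^(1/χ))^(1/(2 p_k)) ≤ (C χ^k 4^(k+2))^(1/(2 χ^k)) N_k ≤ (16 C · 8^k)^(χ^(-k)/2) N_k`.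
So `log N_k ≤ log N_0 + ∑_(j<k) (χ^(-j)/2)(log (16 C) + j log 8) ≤ log N_0 + C''`, the series converges (`χ > 1`). Let `x0` be in the open ball of radius `1/2` and `0 < t < w x0`: on a small ball `B'` around `x0`, contained in the ball of radius `1/2`, `w ≥ t`, so `N_k ≥ t |B'|^(1/(2 p_k)) → t`. Hence `t ≤ e^(C'') N_0` for all `t < w x0`.
-/

set_option autoImplicit false

open MeasureTheory Set Metric

namespace Pool.Agent.Helper87.RG

private theorem int46 {E : Type} [NormedAddCommGroup E] [InnerProductSpace ℝ E] [FiniteDimensional ℝ E]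
    [MeasurableSpace E] [BorelSpace E] {w : E → ℝ} (hw : Continuous w) (h1 : ∀ x, 1 ≤ w x) (a r : ℝ) :
    IntegrableOn (fun x => w x ^ a) (ball (0 : E) r) := by
  have hc : Continuous fun x => w x ^ a :=
    hw.rpow_const fun x => Or.inl (by linarith [h1 x] : w x ≠ 0)
  exact (hc.continuousOn.integrableOn_compact (isCompact_closedBall (0 : E) r)).mono_set ball_subset_closedBall

private theorem low46 {E : Type} [NormedAddCommGroup E] [InnerProductSpace ℝ E] [FiniteDimensional ℝ E]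
    [MeasurableSpace E] [BorelSpace E] {w : E → ℝ} (hw : Continuous w) (h1 : ∀ x, 1 ≤ w x) {a r t : ℝ}
    (ha : 0 ≤ a) (ht : 0 ≤ t) {s : Set E} (hs : s ⊆ ball (0 : E) r) (hsm : MeasurableSet s)
    (hts : ∀ x ∈ s, t ≤ w x) : t ^ a * (volume s).toReal ≤ ∫ x in ball (0 : E) r, w x ^ a := by
  have hint := int46 hw h1 a r
  have hfin : volume s ≠ ⊤ := (lt_of_le_of_lt (measure_mono hs) measure_ball_lt_top).ne
  calc t ^ a * (volume s).toReal = ∫ _ in s, t ^ a := by
        rw [setIntegral_const, smul_eq_mul, mul_comm]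
        rfl
    _ ≤ ∫ x in s, w x ^ a :=
        setIntegral_mono_on (integrableOn_const hfin) (hint.mono_set hs) hsm
          fun x hx => Real.rpow_le_rpow ht (hts x hx) ha
    _ ≤ ∫ x in ball (0 : E) r, w x ^ a := by
        refine setIntegral_mono_set hint (Filter.Eventually.of_forall fun x => ?_) hs.eventuallyLE
        exact Real.rpow_nonneg (by linarith [h1 x]) _

private theorem pos46 {E : Type} [NormedAddCommGroup E] [InnerProductSpace ℝ E] [FiniteDimensional ℝ E]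
    [MeasurableSpace E] [BorelSpace E] {w : E → ℝ} (hw : Continuous w) (h1 : ∀ x, 1 ≤ w x) {a r : ℝ}
    (ha : 0 ≤ a) (hr : 0 < r) : 0 < ∫ x in ball (0 : E) r, w x ^ a := by
  have h := low46 hw h1 (t := 1) ha zero_le_one (Subset.refl (ball (0 : E) r)) measurableSet_ball fun x _ => h1 x
  rw [Real.one_rpow, one_mul] at h
  exact lt_of_lt_of_le (ENNReal.toReal_pos (measure_ball_pos volume 0 hr).ne' measure_ball_lt_top.ne) h

theorem moser {C χ : ℝ} (hC : 1 ≤ C) (hχ : 1 < χ) (hχ2 : χ ≤ 2) : ∃ C' : ℝ, 0 < C' ∧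
    ∀ (E : Type) [NormedAddCommGroup E] [InnerProductSpace ℝ E] [FiniteDimensional ℝ E] [MeasurableSpace E] [BorelSpace E]
      (w : E → ℝ), Continuous w → (∀ x, 1 ≤ w x) →
      (∀ p r' r : ℝ, 1 ≤ p → 1 / 2 ≤ r' → r' < r → r ≤ 1 →
        (∫ x in ball (0 : E) r', w x ^ (2 * p * χ)) ^ χ⁻¹ ≤ C * p * ((r - r') ^ 2)⁻¹ * ∫ x in ball (0 : E) r, w x ^ (2 * p)) →
      ∀ x ∈ ball (0 : E) (1 / 2), w x ≤ C' * (∫ x in ball (0 : E) 1, w x ^ (2 : ℝ)) ^ (1 / 2 : ℝ) := by
  have hχ0 : 0 < χ := by linarith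
  set q : ℝ := χ⁻¹ with hq
  have hq0 : 0 < q := inv_pos.2 hχ0
  have hq1 : q < 1 := inv_lt_one_of_one_lt₀ hχ
  set L : ℝ := Real.log (16 * C) with hL
  have hL0 : 0 ≤ L := Real.log_nonneg (by linarith)
  have h8 : 0 ≤ Real.log 8 := Real.log_nonneg (by norm_num)
  set b : ℕ → ℝ := fun k => q ^ k * (L + k * Real.log 8) with hb
  have hb0 : ∀ k, 0 ≤ b k := fun k => by
    have : 0 ≤ (k : ℝ) * Real.log 8 := by positivity
    exact mul_nonneg (by positivity) (by linarith)
  have hbs : Summable b := by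
    have e1 : Summable fun k : ℕ => q ^ k * L := (summable_geometric_of_lt_one hq0.le hq1).mul_right L
    have e2 : Summable fun k : ℕ => ((k : ℝ) ^ 1 * q ^ k) * Real.log 8 :=
      (summable_pow_mul_geometric_of_norm_lt_one 1 (by rwa [Real.norm_of_nonneg hq0.le])).mul_right _
    refine (e1.add e2).congr fun k => ?_
    rw [hb]
    ring
  set S : ℝ := ∑' k, b k with hS
  refine ⟨Real.exp (S / 2), Real.exp_pos _, ?_⟩
  intro E _ _ _ _ _ w hw h1 H x0 hx0
  set rr : ℕ → ℝ := fun k => 1 / 2 + (1 / 2) ^ (k + 1) with hrr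
  have hrr_gt : ∀ k, 1 / 2 < rr k := fun k => by
    have : (0 : ℝ) < (1 / 2) ^ (k + 1) := by positivity
    simp only [hrr]
    linarith
  have hrr_le : ∀ k, rr k ≤ 1 := fun k => by
    have : ((1 : ℝ) / 2) ^ (k + 1) ≤ 1 / 2 := by
      rw [pow_succ]
      have : ((1 : ℝ) / 2) ^ k ≤ 1 := pow_le_one₀ (by norm_num) (by norm_num)
      linarith
    simp only [hrr]
    linarith
  have hrr_d : ∀ k, rr k - rr (k + 1) = (1 / 2) ^ (k + 2) := fun k => by
    simp only [hrr]
    ring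
  set I : ℕ → ℝ := fun k => ∫ x in ball (0 : E) (rr k), w x ^ (2 * χ ^ k) with hI
  have hpk : ∀ k : ℕ, (1 : ℝ) ≤ χ ^ k := fun k => one_le_pow₀ hχ.le
  have hI0 : ∀ k, 0 < I k := fun k =>
    pos46 hw h1 (by have := hpk k; positivity) (by have := hrr_gt k; linarith)
  have hstep : ∀ k, q ^ (k + 1) * Real.log (I (k + 1)) ≤ q ^ k * Real.log (I k) + b k := by
    intro k
    have h2 := H (χ ^ k) (rr (k + 1)) (rr k) (hpk k) (hrr_gt (k + 1)).le (by
      have := hrr_d k
      have h3 : (0 : ℝ) < (1 / 2) ^ (k + 2) := by positivity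
      linarith) (hrr_le k)
    have e1 : 2 * χ ^ k * χ = 2 * χ ^ (k + 1) := by ring
    rw [e1, hrr_d] at h2
    have e2 : (((1 / 2 : ℝ) ^ (k + 2)) ^ 2)⁻¹ = 16 * 4 ^ k := by
      rw [← pow_mul, ← inv_pow]
      norm_num
      rw [mul_comm (k + 2) 2, pow_mul, pow_add]
      norm_num
      ring
    rw [e2] at h2
    have h3 : Real.log (I (k + 1) ^ q) ≤ Real.log (C * χ ^ k * (16 * 4 ^ k) * I k) :=
      Real.log_le_log (Real.rpow_pos_of_pos (hI0 _) _) h2
    rw [Real.log_rpow (hI0 _), Real.log_mul (by positivity) (hI0 k).ne'] at h3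
    have h4 : Real.log (C * χ ^ k * (16 * 4 ^ k)) ≤ L + k * Real.log 8 := by
      have e3 : L + k * Real.log 8 = Real.log (16 * C * 8 ^ k) := by
        rw [Real.log_mul (by positivity) (by positivity), Real.log_pow]
      rw [e3]
      refine Real.log_le_log (by positivity) ?_
      have e4 : (8 : ℝ) ^ k = 2 ^ k * 4 ^ k := by
        rw [← mul_pow]
        norm_num
      have e5 : χ ^ k ≤ 2 ^ k := pow_le_pow_left₀ hχ0.le hχ2 k
      rw [e4]
      have e6 : (0 : ℝ) < 4 ^ k := by positivity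
      have e7 : 0 < C := by linarith
      calc C * χ ^ k * (16 * 4 ^ k) = (16 * C * 4 ^ k) * χ ^ k := by ring
        _ ≤ (16 * C * 4 ^ k) * 2 ^ k := mul_le_mul_of_nonneg_left e5 (by positivity)
        _ = _ := by ring
    have h5 : q ^ k * (q * Real.log (I (k + 1))) ≤ q ^ k * (L + k * Real.log 8 + Real.log (I k)) :=
      mul_le_mul_of_nonneg_left (by linarith) (by positivity)
    calc q ^ (k + 1) * Real.log (I (k + 1)) = q ^ k * (q * Real.log (I (k + 1))) := by ring
      _ ≤ _ := h5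
      _ = _ := by
        rw [hb]
        ring
  have hsum : ∀ k, q ^ k * Real.log (I k) ≤ Real.log (I 0) + ∑ j ∈ Finset.range k, b j := by
    intro k
    induction k with
    | zero => simp
    | succ k ih =>
      rw [Finset.sum_range_succ]
      linarith [hstep k]
  have hbound : ∀ k, q ^ k * Real.log (I k) ≤ Real.log (I 0) + S := fun k =>
    (hsum k).trans (add_le_add le_rfl (hbs.sum_le_tsum _ fun j _ => hb0 j))
  have hI00 : I 0 = ∫ x in ball (0 : E) 1, w x ^ (2 : ℝ) := by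
    simp only [hI, hrr]
    norm_num
  rw [← hI00]
  set B : ℝ := Real.exp (S / 2) * I 0 ^ (1 / 2 : ℝ) with hB
  have hB0 : 0 < B := mul_pos (Real.exp_pos _) (Real.rpow_pos_of_pos (hI0 0) _)
  have hlogB : 2 * Real.log B = Real.log (I 0) + S := by
    rw [hB, Real.log_mul (Real.exp_pos _).ne' (Real.rpow_pos_of_pos (hI0 0) _).ne', Real.log_exp,
      Real.log_rpow (hI0 0)]
    ring
  by_contra hcon
  push Not at hcon
  set t : ℝ := (B + w x0) / 2 with ht
  have ht1 : B < t := by rw [ht]; linarith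
  have ht2 : t < w x0 := by rw [ht]; linarith
  have ht0 : 0 < t := hB0.trans ht1
  have hopen : IsOpen (ball (0 : E) (1 / 2) ∩ {x | t < w x}) :=
    isOpen_ball.inter (isOpen_lt continuous_const hw)
  obtain ⟨ρ, hρ, hsub⟩ := Metric.isOpen_iff.1 hopen x0 ⟨hx0, ht2⟩
  set V : ℝ := (volume (ball x0 ρ)).toReal with hV
  have hV0 : 0 < V := ENNReal.toReal_pos (measure_ball_pos volume x0 hρ).ne' measure_ball_lt_top.ne
  have hlow : ∀ k, 2 * Real.log t + q ^ k * Real.log V ≤ Real.log (I 0) + S := by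
    intro k
    have h2 : t ^ (2 * χ ^ k) * V ≤ I k := low46 hw h1 (by have := hpk k; positivity) ht0.le
      (fun x hx => ball_subset_ball (hrr_gt k).le (hsub hx).1) measurableSet_ball fun x hx => (hsub hx).2.le
    have h3 := Real.log_le_log (mul_pos (Real.rpow_pos_of_pos ht0 _) hV0) h2
    rw [Real.log_mul (Real.rpow_pos_of_pos ht0 _).ne' hV0.ne', Real.log_rpow ht0] at h3
    have h4 : q ^ k * (2 * χ ^ k * Real.log t + Real.log V) ≤ q ^ k * Real.log (I k) :=
      mul_le_mul_of_nonneg_left h3 (by positivity)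
    have e : q ^ k * χ ^ k = 1 := by
      rw [← mul_pow, hq, inv_mul_cancel₀ hχ0.ne', one_pow]
    calc 2 * Real.log t + q ^ k * Real.log V = q ^ k * (2 * χ ^ k * Real.log t + Real.log V) := by
          linear_combination (-2 * Real.log t) * e
      _ ≤ _ := h4
      _ ≤ _ := hbound k
  have hlim : Filter.Tendsto (fun k : ℕ => 2 * Real.log t + q ^ k * Real.log V) Filter.atTop
      (nhds (2 * Real.log t + 0 * Real.log V)) :=
    ((tendsto_pow_atTop_nhds_zero_of_lt_one hq0.le hq1).mul_const _).const_add _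
  have h6 := le_of_tendsto' hlim hlow
  rw [zero_mul, add_zero, ← hlogB] at h6
  have h7 := Real.log_lt_log hB0 ht1
  linarith

end Pool.Agent.Helper87.RG
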