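import Pool.Agent.Helper87.RG.CD3
import Pool.Agent.Helper87.RG.CD4
import Pool.Agent.Helper87.RG.CD5
import Pool.Agent.Helper87.RG.CD7
import Pool.Agent.Helper87.RG.CD8

/-!
# Project REG, block CD9: the critical density lemma

`critical_density` ((7.2) of the paper proof). Assembly of CD1 - CD8.
-/

set_option autoImplicit false

open MeasureTheory Set Metric

namespace Pool.Agent.Helper87.RG

theorem WeakSub.mono {E : Type} [NormedAddCommGroup E] [InnerProductSpace ℝ E] [FiniteDimensional ℝ E]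
    [MeasurableSpace E] [BorelSpace E] {q : E → (E →L[ℝ] ℝ) → (E →L[ℝ] ℝ) → ℝ} {v : E → ℝ} {K K' R : ℝ}
    (h : WeakSub q v K R) (hK : K ≤ K') : WeakSub q v K' R := fun η hη =>
  (h η hη).trans (mul_le_mul_of_nonneg_right hK (integral_nonneg hη.nonneg))

/-- the case `K > 0` -/
theorem critical_density_pos {E : Type} [NormedAddCommGroup E] [InnerProductSpace ℝ E] [FiniteDimensional ℝ E]
    [MeasurableSpace E] [BorelSpace E] (hd : 2 ≤ Module.finrank ℝ E) {l L th : ℝ} (hl : 0 < l) (hL : l ≤ L) (hth : 0 < th) :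
    ∃ c : ℝ, 0 < c ∧ c ≤ 1 ∧ ∀ (q : E → (E →L[ℝ] ℝ) → (E →L[ℝ] ℝ) → ℝ) (v : E → ℝ) (K M ε : ℝ), Ell q l L → ContDiff ℝ 1 v →
      0 < K → 0 < ε → (∀ x, v x ≤ M) → WeakSub q v K 2 →
      th * volume.real (ball (0 : E) 1) ≤ volume.real ({x | v x ≤ M - ε} ∩ ball (0 : E) 1) →
      ∀ x ∈ ball (0 : E) (1 / 2), v x ≤ M - c * ε + K := by
  obtain ⟨C0, hC0, hcut⟩ := exists_cutoff
  obtain ⟨ζ, hζ1, hζ2, hζ3, hζ4, hζ5, hζ6, hζ7⟩ := hcut E 1 (3 / 2) one_pos (by norm_num)
  obtain ⟨C1, hC1, hrev⟩ := rev_hoelder (E := E) hd hl hL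
  obtain ⟨hχ1, hχ2⟩ := chi_gt hd
  obtain ⟨C2, hC2, hmos⟩ := moser hC1 hχ1 hχ2
  have hL0 : 0 < L := hl.trans_le hL
  have hζc : ContDiff ℝ 1 ζ := hζ1.of_le (by exact_mod_cast le_top)
  have hζb : tsupport ζ ⊆ ball 0 2 := hζ3.trans (closedBall_subset_ball (by norm_num))
  -- the constants
  set V1 : ℝ := volume.real (ball (0 : E) 1) with hV1
  set CE : ℝ := 2 * (∫ x, ζ x ^ 2) + 4 * (L * ∫ x, ‖fderiv ℝ ζ x‖ ^ 2) with hCE
  set CQ : ℝ := 2 * (2 ^ (Module.finrank ℝ E + 2) * (CE / l) / th) + 2 * V1 with hCQ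
  set CW : ℝ := C2 * CQ ^ (1 / 2 : ℝ) with hCW
  refine ⟨Real.exp (-|CW|), Real.exp_pos _, Real.exp_le_one_iff.2 (by simp), ?_⟩
  intro q v K M ε hq hv hK hε hvM hw hvol x hx
  -- the functions
  set S : E → ℝ := fun x => M - v x + K with hS
  have hSc : ContDiff ℝ 1 S := (contDiff_const.sub hv).add contDiff_const
  have hSK : ∀ x, K ≤ S x := fun x => by
    have := hvM x
    simp only [hS]
    linarith
  have hSpos : ∀ x, 0 < S x := fun x => hK.trans_le (hSK x)
  have hwS : WeakSub q (fun x => -S x) K 2 := by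
    intro η hη
    have h1 : ∀ x, fderiv ℝ (fun x => -S x) x = fderiv ℝ v x := by
      intro x
      have h2 : (fun x => -S x) = fun x => v x - (M + K) := by
        funext x
        simp only [hS]
        ring
      rw [h2, fderiv_sub_const]
    simp only [h1]
    exact hw η hη
  have hεK : 0 < ε + K := by linarith
  set Y : E → ℝ := fun x => Real.log ((ε + K) / S x) with hY
  have hYc : ContDiff ℝ 1 Y :=
    (contDiff_const.div hSc fun x => (hSpos x).ne').log fun x => (div_pos hεK (hSpos x)).ne'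
  have hYw : WeakSub q Y 1 2 := log_weak hl hq hSc hK hεK hSK hwS
  have hYe := log_energy hl hq hSc hK hεK hSK hwS hζc hζ2 hζb
  have hww := comp_weak hl hq hYc hYw
  set w : E → ℝ := fun x => GG (Y x) with hwdef
  have hwc : ContDiff ℝ 1 w := (contDiff_GG.of_le (by exact_mod_cast le_top)).comp hYc
  have hw0 : ∀ x, 0 ≤ w x := fun x => GG_nonneg _
  -- the derivative of `w`
  have hdw : ∀ x, ‖fderiv ℝ w x‖ ≤ ‖fderiv ℝ Y x‖ := by
    intro x
    have h1 : HasFDerivAt w (Real.smoothTransition (Y x) • fderiv ℝ Y x) x :=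
      (hasDerivAt_GG (Y x)).comp_hasFDerivAt x (hYc.differentiable one_ne_zero x).hasFDerivAt
    rw [h1.fderiv, norm_smul, Real.norm_eq_abs, abs_of_nonneg (Real.smoothTransition.nonneg _)]
    exact mul_le_of_le_one_left (norm_nonneg _) (Real.smoothTransition.le_one _)
  have hcomp : IsCompact (closedBall (0 : E) 1) := isCompact_closedBall _ _
  have hfYc : Continuous fun x => fderiv ℝ Y x := hYc.continuous_fderiv one_ne_zero
  have hfwc : Continuous fun x => fderiv ℝ w x := hwc.continuous_fderiv one_ne_zero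
  have hint : ∀ f : E → ℝ, Continuous f → IntegrableOn f (ball (0 : E) 1) := fun f hf =>
    (hf.continuousOn.integrableOn_compact hcomp).mono_set ball_subset_closedBall
  -- energy bound on the unit ball
  have hE1 : l * ∫ x in ball (0 : E) 1, ‖fderiv ℝ w x‖ ^ 2 ≤ CE := by
    have h1 : ∫ x, q x (fderiv ℝ ζ x) (fderiv ℝ ζ x) ≤ L * ∫ x, ‖fderiv ℝ ζ x‖ ^ 2 := by
      rw [← integral_const_mul]
      have hζf : Continuous fun x => fderiv ℝ ζ x := hζc.continuous_fderiv one_ne_zero
      have hζs : HasCompactSupport fun x => ‖fderiv ℝ ζ x‖ ^ 2 := by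
        have := (hζ2.fderiv (𝕜 := ℝ)).norm
        exact this.comp_left (g := fun y : ℝ => y ^ 2) (by simp)
      have hi : Integrable fun x => L * ‖fderiv ℝ ζ x‖ ^ 2 :=
        ((hζf.norm.pow 2).integrable_of_hasCompactSupport hζs).const_mul L
      refine integral_mono_of_nonneg (Filter.Eventually.of_forall fun x => hq.nonneg hl x _) hi
        (Filter.Eventually.of_forall fun x => hq.upper x _)
    have h2 : l * ∫ x in ball (0 : E) 1, ‖fderiv ℝ w x‖ ^ 2
        ≤ ∫ x, ζ x ^ 2 * q x (fderiv ℝ Y x) (fderiv ℝ Y x) := by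
      have hm : Measurable fun x => ζ x ^ 2 * q x (fderiv ℝ Y x) (fderiv ℝ Y x) :=
        ((hζc.continuous.measurable).pow_const 2).mul (hq.meas _ _ hfYc.measurable hfYc.measurable)
      have hi : Integrable fun x => ζ x ^ 2 * q x (fderiv ℝ Y x) (fderiv ℝ Y x) := by
        have hb : Integrable fun x => ζ x ^ 2 * (L * ‖fderiv ℝ Y x‖ ^ 2) := by
          refine Continuous.integrable_of_hasCompactSupport ?_ ?_
          · exact (hζc.continuous.pow 2).mul (continuous_const.mul (hfYc.norm.pow 2))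
          · have : HasCompactSupport fun x => ζ x ^ 2 := hζ2.comp_left (g := fun y : ℝ => y ^ 2) (by simp)
            exact this.mul_right
        refine hb.mono' hm.aestronglyMeasurable (Filter.Eventually.of_forall fun x => ?_)
        rw [Real.norm_eq_abs, abs_of_nonneg (mul_nonneg (sq_nonneg _) (hq.nonneg hl x _))]
        exact mul_le_mul_of_nonneg_left (hq.upper x _) (sq_nonneg _)
      rw [← integral_const_mul]
      calc ∫ x in ball (0 : E) 1, l * ‖fderiv ℝ w x‖ ^ 2
          ≤ ∫ x in ball (0 : E) 1, ζ x ^ 2 * q x (fderiv ℝ Y x) (fderiv ℝ Y x) := by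
            refine setIntegral_mono_on (hint _ (continuous_const.mul (hfwc.norm.pow 2))) hi.integrableOn
              measurableSet_ball fun x hx => ?_
            have hz : ζ x = 1 := hζ6 x (ball_subset_closedBall hx)
            rw [hz, one_pow, one_mul]
            have h3 : ‖fderiv ℝ w x‖ ^ 2 ≤ ‖fderiv ℝ Y x‖ ^ 2 := by
              exact pow_le_pow_left₀ (norm_nonneg _) (hdw x) 2
            exact (mul_le_mul_of_nonneg_left h3 hl.le).trans (hq.lower x _)
        _ ≤ ∫ x, ζ x ^ 2 * q x (fderiv ℝ Y x) (fderiv ℝ Y x) :=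
            setIntegral_le_integral hi (Filter.Eventually.of_forall fun x =>
              mul_nonneg (sq_nonneg _) (hq.nonneg hl x _))
    calc l * ∫ x in ball (0 : E) 1, ‖fderiv ℝ w x‖ ^ 2
        ≤ ∫ x, ζ x ^ 2 * q x (fderiv ℝ Y x) (fderiv ℝ Y x) := h2
      _ ≤ 2 * (∫ x, ζ x ^ 2) + 4 * ∫ x, q x (fderiv ℝ ζ x) (fderiv ℝ ζ x) := hYe
      _ ≤ CE := by rw [hCE]; linarith
  -- Poincaré
  have hzero : ∀ x ∈ {x | v x ≤ M - ε} ∩ ball (0 : E) 1, w x = 0 := by
    rintro x ⟨hx1, -⟩
    have h1 : ε + K ≤ S x := by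
      simp only [mem_setOf_eq] at hx1
      simp only [hS]
      linarith
    apply GG_of_nonpos
    simp only [hY]
    exact Real.log_nonpos (div_nonneg hεK.le (hSpos x).le) ((div_le_one (hSpos x)).2 h1)
  have hmeas : MeasurableSet ({x | v x ≤ M - ε} ∩ ball (0 : E) 1) :=
    (measurableSet_le hv.continuous.measurable measurable_const).inter measurableSet_ball
  have hP := poincare hwc hmeas inter_subset_right hzero hth hvol
  have hw2 : ∫ x in ball (0 : E) 1, w x ^ 2 ≤ 2 ^ (Module.finrank ℝ E + 2) * (CE / l) / th := by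
    rw [le_div_iff₀ hth, mul_comm]
    refine hP.trans (mul_le_mul_of_nonneg_left ?_ (by positivity))
    rw [le_div_iff₀ hl, mul_comm]
    exact hE1
  -- the `L²` norm of `w + 1`
  have hQ : ∫ x in ball (0 : E) 1, (w x + 1) ^ (2 : ℝ) ≤ CQ := by
    have h1 : ∀ x, (w x + 1) ^ (2 : ℝ) ≤ 2 * w x ^ 2 + 2 := by
      intro x
      rw [Real.rpow_two]
      nlinarith [sq_nonneg (w x - 1)]
    have h2 : ∫ x in ball (0 : E) 1, (w x + 1) ^ (2 : ℝ) ≤ ∫ x in ball (0 : E) 1, (2 * w x ^ 2 + 2) := by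
      refine setIntegral_mono (hint _ ?_) (hint _ ?_) h1
      · exact (hwc.continuous.add continuous_const).rpow_const fun x => Or.inr (by norm_num)
      · exact (continuous_const.mul (hwc.continuous.pow 2)).add continuous_const
    have h3 : ∫ x in ball (0 : E) 1, (2 * w x ^ 2 + 2) = 2 * (∫ x in ball (0 : E) 1, w x ^ 2) + 2 * V1 := by
      have h4 : IntegrableOn (fun x => 2 * w x ^ 2) (ball (0 : E) 1) :=
        hint _ (continuous_const.mul (hwc.continuous.pow 2))
      have h5 : IntegrableOn (fun _ : E => (2 : ℝ)) (ball (0 : E) 1) := hint _ continuous_const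
      rw [integral_add h4 h5, integral_const_mul, setIntegral_const, smul_eq_mul, ← hV1]
      ring
    rw [h3] at h2
    rw [hCQ]
    linarith
  -- Moser
  have hM := hmos E (fun x => w x + 1) (hwc.continuous.add continuous_const) (fun x => by
    have := hw0 x
    linarith) (fun p r' r hp hr' hr hr1 => hrev q _ hq (hwc.add contDiff_const) (fun x => by
    have := hw0 x
    linarith) hww p r' r hp hr' hr hr1) x hx
  have hQ0 : 0 ≤ ∫ x in ball (0 : E) 1, (w x + 1) ^ (2 : ℝ) :=
    integral_nonneg fun x => Real.rpow_nonneg (by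
      have := hw0 x
      linarith) _
  have hwx : w x + 1 ≤ CW := by
    refine hM.trans ?_
    exact mul_le_mul_of_nonneg_left (Real.rpow_le_rpow hQ0 hQ (by norm_num)) hC2.le
  have hYx : Y x ≤ CW := by
    have := GG_ge (Y x)
    have h2 : w x = GG (Y x) := rfl
    linarith
  -- conclusion
  have h1 : (ε + K) / S x ≤ Real.exp CW := by
    rw [← Real.log_le_iff_le_exp (div_pos hεK (hSpos x))]
    exact hYx
  have h2 : (ε + K) * Real.exp (-|CW|) ≤ S x := by
    rw [div_le_iff₀ (hSpos x)] at h1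
    have h3 : (ε + K) * Real.exp (-|CW|) ≤ Real.exp CW * S x * Real.exp (-|CW|) :=
      mul_le_mul_of_nonneg_right h1 (Real.exp_pos _).le
    refine h3.trans ?_
    have h4 : Real.exp CW * S x * Real.exp (-|CW|) = S x * Real.exp (CW - |CW|) := by
      rw [sub_eq_add_neg, Real.exp_add]
      ring
    rw [h4]
    exact mul_le_of_le_one_right (hSpos x).le (Real.exp_le_one_iff.2 (by linarith [le_abs_self CW]))
  have h3 : ε * Real.exp (-|CW|) ≤ (ε + K) * Real.exp (-|CW|) :=
    mul_le_mul_of_nonneg_right (by linarith) (Real.exp_pos _).le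
  simp only [hS] at h2
  linarith

/-- **Critical density lemma.** -/
theorem critical_density {E : Type} [NormedAddCommGroup E] [InnerProductSpace ℝ E] [FiniteDimensional ℝ E]
    [MeasurableSpace E] [BorelSpace E] (hd : 2 ≤ Module.finrank ℝ E) {l L th : ℝ} (hl : 0 < l) (hL : l ≤ L) (hth : 0 < th) :
    ∃ c : ℝ, 0 < c ∧ c ≤ 1 ∧ ∀ (q : E → (E →L[ℝ] ℝ) → (E →L[ℝ] ℝ) → ℝ) (v : E → ℝ) (K M ε : ℝ), Ell q l L → ContDiff ℝ 1 v →
      0 ≤ K → 0 < ε → (∀ x, v x ≤ M) → WeakSub q v K 2 →
      th * volume.real (ball (0 : E) 1) ≤ volume.real ({x | v x ≤ M - ε} ∩ ball (0 : E) 1) →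
      ∀ x ∈ ball (0 : E) (1 / 2), v x ≤ M - c * ε + K := by
  obtain ⟨c, hc, hc1, h⟩ := critical_density_pos (E := E) hd hl hL hth
  refine ⟨c, hc, hc1, ?_⟩
  intro q v K M ε hq hv hK hε hvM hw hvol x hx
  refine le_of_forall_pos_le_add fun δ hδ => ?_
  have := h q v (K + δ) M ε hq hv (by linarith) hε hvM (hw.mono (by linarith)) hvol x hx
  linarith

end Pool.Agent.Helper87.RG
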