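import Mathlib

/-!
# Project REG (MP_5d2bda_an, section 7), part D: Hölder classes of real functions

`LHol α U f`: `f` is locally `α`-Hölder continuous on (the open set) `U`.
`CR α U k f`: `f` is `k` times differentiable on `U` (directional derivatives), all partial derivatives of order `k` are locally `α`-Hölder continuous (the class `C^(k,α)_loc(U)`).
`CC α U k f`: the same for complex valued functions (real and imaginary part).
-/

set_option autoImplicit false

open Set Metric

namespace Pool.Agent.Helper87.RG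

variable {E : Type} [NormedAddCommGroup E] [NormedSpace ℝ E]

/-- locally `α`-Hölder continuous -/
def LHol (α : ℝ) (U : Set E) (f : E → ℝ) : Prop :=
  ∀ x ∈ U, ∃ r C : ℝ, 0 < r ∧ ball x r ⊆ U ∧ ∀ y ∈ ball x r, ∀ z ∈ ball x r, |f y - f z| ≤ C * ‖y - z‖ ^ α

/-- the class `C^(k,α)_loc(U)` -/
def CR (α : ℝ) (U : Set E) : ℕ → (E → ℝ) → Prop
  | 0, f => LHol α U f
  | k + 1, f => DifferentiableOn ℝ f U ∧ ∀ v : E, CR α U k fun x => fderiv ℝ f x v

/-- the class `C^(k,α)_loc(U)` of complex valued functions -/
def CC (α : ℝ) (U : Set E) (k : ℕ) (f : E → ℂ) : Prop :=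
  CR α U k (fun x => (f x).re) ∧ CR α U k (fun x => (f x).im)

end Pool.Agent.Helper87.RG
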