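import Pool.Agent.Helper87.RG.D9
import Pool.Agent.Helper87.RG.D10
import Pool.Agent.Helper87.RG.D10b

/-!
# Project REG, block D13: linear equations, the gain of one derivative

`linear_gain`. PROOF. By `PS2` (`w` is `C²`). Let `x0 ∈ U`. `a` is continuous and positive definite, so near `x0`: `tr a ≤ Λ`, `det a ≥ c > 0`; `frame_bound`: for `x1` near `x0` a frame `A` with `sA A K = pr (a x1) K`, with uniform bounds. `f y = sA A (hess w y)`, mean value identity: `mean_C2`. With `nK_taylor` for `a` (`L = L_(x1)`), `nK_hoelder` for `hess w` (`CR.hess`) and `CR.taylor` for `g`: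
`f y = pr (a x1) (hess w y) = g y - pr (a y - a x1) (hess w y) = g y - pr (L (y - x1)) (hess w x1) - pr (a y - a x1 - L(y - x1)) (hess w x1) - pr (a y - a x1) (hess w y - hess w x1)`, so `|f y - g x1 - (fderiv ℝ g x1 (y - x1) - pr (L (y - x1)) (hess w x1))| ≤ C ‖y - x1‖^(1+α)`.
`l v = fderiv ℝ g x1 v - pr (L v) (hess w x1)` (linear, continuous since finite dimensional: `LinearMap.toContinuousLinearMap`). So `CR α U 2 (fderiv w · e)` for every `e`, and `w` is differentiable: `CR α U 3 w`.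
-/

set_option autoImplicit false

namespace Pool.Agent.Helper87.RG

open MeasureTheory Set Filter Topology Metric
open Helper29.AM
open scoped ComplexOrder

private theorem pr_subr36 {n : ℕ} (P K L : Mat n) : pr P (K - L) = pr P K - pr P L := by
  unfold pr
  rw [Matrix.mul_sub, Matrix.trace_sub, Complex.sub_re]

private theorem pr_subl36 {n : ℕ} (P Q K : Mat n) : pr (P - Q) K = pr P K - pr Q K := by
  unfold pr
  rw [Matrix.sub_mul, Matrix.trace_sub, Complex.sub_re]

private theorem pr_addl36 {n : ℕ} (P Q K : Mat n) : pr (P + Q) K = pr P K + pr Q K := by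
  unfold pr
  rw [Matrix.add_mul, Matrix.trace_add, Complex.add_re]

private theorem pr_smull36 {n : ℕ} (c : ℝ) (P K : Mat n) : pr (c • P) K = c * pr P K := by
  unfold pr
  rw [Matrix.smul_mul, Matrix.trace_smul, Complex.real_smul, Complex.re_ofReal_mul]

/-- the linear form `v ↦ pr (L v) K` -/
private noncomputable def ll36 {n : ℕ} (L : V n →ₗ[ℝ] Mat n) (K : Mat n) : V n →L[ℝ] ℝ :=
  LinearMap.toContinuousLinearMap
    { toFun := fun v => pr (L v) K
      map_add' := fun v v' => by rw [map_add, pr_addl36]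
      map_smul' := fun c v => by rw [map_smul, pr_smull36]; rfl }

private theorem ll36_apply {n : ℕ} (L : V n →ₗ[ℝ] Mat n) (K : Mat n) (v : V n) :
    ll36 L K v = pr (L v) K := rfl

private theorem det_pos36 {n : ℕ} {K : Mat n} (hK : K.PosDef) : 0 < K.det.re :=
  (Complex.lt_def.1 hK.det_pos).1

theorem linear_gain {n : ℕ} {α : ℝ} (hα : 0 < α) (hα1 : α < 1) {U : Set (V n)} (hU : IsOpen U) {w g : V n → ℝ} {a : V n → Mat n}
    (hw : CR α U 2 w) (ha : ∀ i j, CC α U 1 fun x => a x i j) (hpd : ∀ z ∈ U, (a z).PosDef) (hg : CR α U 1 g)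
    (heq : ∀ z ∈ U, pr (a z) (hess w z) = g z) : CR α U 3 w := by
  have hα1' : α ≤ 1 := hα1.le
  have hw2 : ContDiffOn ℝ 2 w U := CR.contDiffOn (k := 2) hα hU hw
  have hw1 : ContDiffOn ℝ 1 w U := hw2.of_le (by norm_num)
  have hH : ∀ i j, CC α U 0 fun z => hess w z i j := fun i j => CR.hess hα hα1' hU hw i j
  have ha0 : ∀ i j, CC α U 0 fun z => a z i j := fun i j =>
    ⟨CR.of_succ hα hα1' hU (ha i j).1, CR.of_succ hα hα1' hU (ha i j).2⟩
  have hdetc : ContinuousOn (fun z => (a z).det.re) U :=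
    (CR.contDiffOn (k := 0) hα hU (CC.det hα hα1' hU ha0).1).continuousOn
  refine ⟨hw1.differentiableOn (by norm_num), fun v => ?_⟩
  refine PS2 hα hα1 hU hw1 ?_ v
  intro x0 hx0
  obtain ⟨r1, C1, hr1, hC1, hs1, hb1, hh1⟩ := nK_hoelder hα hU hH hx0
  obtain ⟨r2, C2, hr2, hC2, hs2, hh2, hL2⟩ := nK_taylor hα hα1' hU ha hx0
  obtain ⟨r3, C3, hr3, hC3, hs3, hb3, -⟩ := nK_hoelder hα hU ha0 hx0
  obtain ⟨r5, C5, hr5, hC5, hs5, -, hh5⟩ := CR.taylor hα hα1' hU hg hx0
  have hd0 : 0 < (a x0).det.re := det_pos36 (hpd x0 hx0)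
  have hev : ∀ᶠ y in 𝓝 x0, (a x0).det.re / 2 < (a y).det.re :=
    (hdetc.continuousAt (hU.mem_nhds hx0)).eventually (lt_mem_nhds (by linarith))
  obtain ⟨r4, hr4, hb4⟩ := Metric.eventually_nhds_iff_ball.1 hev
  have hcpos : 0 < (a x0).det.re / 2 := by linarith
  obtain ⟨N, -, hN⟩ := frame_bound n (Λ := C3 * nK (1 : Mat n)) hcpos
  obtain ⟨ρ, hρ⟩ : ∃ ρ, ρ = min (min r1 r2) (min r3 (min r4 r5)) := ⟨_, rfl⟩
  have hρ0 : 0 < ρ := by
    rw [hρ]
    exact lt_min (lt_min hr1 hr2) (lt_min hr3 (lt_min hr4 hr5))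
  have i1 : ball x0 ρ ⊆ ball x0 r1 :=
    ball_subset_ball (by rw [hρ]; exact (min_le_left _ _).trans (min_le_left _ _))
  have i2 : ball x0 ρ ⊆ ball x0 r2 :=
    ball_subset_ball (by rw [hρ]; exact (min_le_left _ _).trans (min_le_right _ _))
  have i3 : ball x0 ρ ⊆ ball x0 r3 :=
    ball_subset_ball (by rw [hρ]; exact (min_le_right _ _).trans (min_le_left _ _))
  have i4 : ball x0 ρ ⊆ ball x0 r4 :=
    ball_subset_ball (by
      rw [hρ]
      exact (min_le_right _ _).trans ((min_le_right _ _).trans (min_le_left _ _)))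
  have i5 : ball x0 ρ ⊆ ball x0 r5 :=
    ball_subset_ball (by
      rw [hρ]
      exact (min_le_right _ _).trans ((min_le_right _ _).trans (min_le_right _ _)))
  have hbr : ball x0 (2 * (ρ / 4)) ⊆ ball x0 ρ := ball_subset_ball (by linarith)
  refine ⟨ρ / 4, C5 + 2 * C1 * C2, N, by positivity, (hbr.trans i1).trans hs1, ?_⟩
  intro x1 hx1
  have hx1ρ : x1 ∈ ball x0 ρ := ball_subset_ball (by linarith) hx1
  have hx1U : x1 ∈ U := hs1 (i1 hx1ρ)
  have htr : (Matrix.trace (a x1)).re ≤ C3 * nK (1 : Mat n) := by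
    have h1 := abs_pr_le (a x1) (1 : Mat n)
    have h2 : pr (a x1) (1 : Mat n) = (Matrix.trace (a x1)).re := by
      unfold pr
      rw [mul_one]
    rw [h2] at h1
    exact (le_abs_self _).trans (h1.trans (mul_le_mul_of_nonneg_right (hb3 x1 (i3 hx1ρ)) (nK_nonneg _)))
  obtain ⟨A, hA1, hA2, hA3, hA4⟩ := hN _ (hpd x1 hx1U) htr (hb4 x1 (i4 hx1ρ)).le
  obtain ⟨L, -, hL⟩ := hL2 x1 (i2 hx1ρ)
  refine ⟨A, fun y => pr (a x1) (hess w y), g x1, fderiv ℝ g x1 - ll36 L (hess w x1), hA1, hA2, hA3, ?_, ?_, ?_⟩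
  · have h1 : CR α U 0 fun y => pr (a x1) (hess w y) :=
      CC.pr hα hα1' hU (P := fun _ => a x1) (K := fun y => hess w y)
        (fun i j => CC.const hU hα _) hH
    exact ((CR.contDiffOn (k := 0) hα hU h1).continuousOn).mono ((hbr.trans i1).trans hs1)
  · intro y hy
    have hyρ : y ∈ ball x0 ρ := hbr hy
    have hyU : y ∈ U := hs1 (i1 hyρ)
    have e1 := hh5 x1 (i5 hx1ρ) y (i5 hyρ)
    have e2 := hh2 x1 (i2 hx1ρ) y (i2 hyρ)
    have e3 := hh1 x1 (i1 hx1ρ) y (i1 hyρ)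
    have e4 := hL y (i2 hyρ)
    have e5 := hb1 x1 (i1 hx1ρ)
    have f1 := abs_pr_le (a y - a x1) (hess w y - hess w x1)
    have f2 := abs_pr_le (a y - a x1 - L (y - x1)) (hess w x1)
    have g1 : nK (a y - a x1) * nK (hess w y - hess w x1) ≤ C1 * C2 * ‖y - x1‖ ^ (1 + α) := by
      have h0 : ‖y - x1‖ ^ (1 + α) = ‖y - x1‖ * ‖y - x1‖ ^ α := by
        rcases eq_or_lt_of_le (norm_nonneg (y - x1)) with h | h
        · rw [← h, Real.zero_rpow (by linarith), zero_mul]
        · rw [Real.rpow_add h, Real.rpow_one]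
      calc nK (a y - a x1) * nK (hess w y - hess w x1)
          ≤ (C2 * ‖y - x1‖) * (C1 * ‖y - x1‖ ^ α) :=
            mul_le_mul e2 e3 (nK_nonneg _) (by positivity)
        _ = C1 * C2 * ‖y - x1‖ ^ (1 + α) := by
            rw [h0]
            ring
    have g2 : nK (a y - a x1 - L (y - x1)) * nK (hess w x1) ≤ C1 * C2 * ‖y - x1‖ ^ (1 + α) := by
      calc nK (a y - a x1 - L (y - x1)) * nK (hess w x1)
          ≤ (C2 * ‖y - x1‖ ^ (1 + α)) * C1 := mul_le_mul e4 e5 (nK_nonneg _) (by positivity)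
        _ = C1 * C2 * ‖y - x1‖ ^ (1 + α) := by ring
    have key : pr (a x1) (hess w y) - g x1 - (fderiv ℝ g x1 - ll36 L (hess w x1)) (y - x1) =
        (g y - g x1 - fderiv ℝ g x1 (y - x1)) - pr (a y - a x1) (hess w y - hess w x1)
          - pr (a y - a x1 - L (y - x1)) (hess w x1) := by
      rw [ContinuousLinearMap.sub_apply, ll36_apply, ← heq y hyU]
      simp only [pr_subl36, pr_subr36]
      ring
    show |pr (a x1) (hess w y) - g x1 - (fderiv ℝ g x1 - ll36 L (hess w x1)) (y - x1)| ≤ _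
    rw [key]
    have a1 := abs_sub (g y - g x1 - fderiv ℝ g x1 (y - x1) - pr (a y - a x1) (hess w y - hess w x1))
      (pr (a y - a x1 - L (y - x1)) (hess w x1))
    have a2 := abs_sub (g y - g x1 - fderiv ℝ g x1 (y - x1)) (pr (a y - a x1) (hess w y - hess w x1))
    have hfin : C5 * ‖y - x1‖ ^ (1 + α) + C1 * C2 * ‖y - x1‖ ^ (1 + α) +
        C1 * C2 * ‖y - x1‖ ^ (1 + α) = (C5 + 2 * C1 * C2) * ‖y - x1‖ ^ (1 + α) := by ring
    linarith
  · intro x t ht hx
    have h1 := mean_C2 isOpen_ball (hw2.mono ((hbr.trans i1).trans hs1)) A ht hx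
    have h2 : (fun y => sA A (hess w y)) = fun y => pr (a x1) (hess w y) := by
      funext y
      exact hA4 _
    rw [h2] at h1
    exact h1

end Pool.Agent.Helper87.RG
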