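import Pool.Agent.Helper87.RG.D13

/-!
# Project REG, block D14: linear equations, higher regularity

`hess_fderiv`: third derivatives commute: `w` is `C³` on the open set `U`: `∂_e (hess w)_ij = (hess (∂_e w))_ij` (each `D2 w z a b = fderiv (fun y => fderiv w y b) z a` near `z`; `∂_e ∂_a ∂_b w = ∂_a ∂_b ∂_e w` by two applications of the symmetry of second derivatives, `ContDiffAt.isSymmSndFDerivAt`).
`linear_all`. PROOF. Induction over `k`, generalising `w` and `g`. `k = 0`: `linear_gain`. `k + 1`: `a, g` are of class `CR (k+2)`, so of class `CR 1` and `CR (k+1)` (`CR.le`). By `linear_gain`, `w` is `CR 3`, by the induction hypothesis `w` is `CR (k+3)`. For `e : V n` let `w_e = fderiv ℝ w · e` (`CR 2`), `g_e z = fderiv ℝ g z e - pr (∂_e a z) (hess w z)`, `(∂_e a z)_ij = fderiv ℝ (a · i j) z e`. Differentiating `pr (a z) (hess w z) = g z` along `e`: `pr (a z) (hess w_e z) = g_e z` on `U` (`hess_fderiv`; `pr` is a finite sum of products).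
`∂_e a` is `CC (k+1)`, `hess w` is `CC (k+1)` (`CR.hess`), `fderiv g · e` is `CR (k+1)`, so `g_e` is `CR (k+1)` (`CC.pr`). The induction hypothesis for `w_e, g_e`: `w_e` is `CR (k+3)` for every `e`, so `w` is `CR (k+4)`.
-/

set_option autoImplicit false

namespace Pool.Agent.Helper87.RG

open MeasureTheory Set Filter Topology Metric
open Helper29.AM
open scoped ComplexOrder

section third29

variable {n : ℕ} {w : V n → ℝ} {z : V n}

private theorem F2_29 (hw : ContDiffAt ℝ 3 w z) : ContDiffAt ℝ 2 (fderiv ℝ w) z :=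
  hw.fderiv_right (by norm_num)

private theorem dF_29 (hw : ContDiffAt ℝ 3 w z) :
    DifferentiableAt ℝ (fderiv ℝ (fderiv ℝ w)) z := by
  have h1 : ContDiffAt ℝ 1 (fderiv ℝ (fderiv ℝ w)) z := (F2_29 hw).fderiv_right (by norm_num)
  exact h1.differentiableAt (by norm_num)

private theorem hasD2_29 (hw : ContDiffAt ℝ 3 w z) (a b : V n) :
    HasFDerivAt (fun y => D2 w y a b)
      ((ContinuousLinearMap.apply ℝ ℝ b).comp ((ContinuousLinearMap.apply ℝ (V n →L[ℝ] ℝ) a).comp
        (fderiv ℝ (fderiv ℝ (fderiv ℝ w)) z))) z := by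
  have h1 := (dF_29 hw).hasFDerivAt
  have h2 : HasFDerivAt (fun y => fderiv ℝ (fderiv ℝ w) y a)
      ((ContinuousLinearMap.apply ℝ (V n →L[ℝ] ℝ) a).comp
        (fderiv ℝ (fderiv ℝ (fderiv ℝ w)) z)) z :=
    HasFDerivAt.comp z (g := fun L : V n →L[ℝ] (V n →L[ℝ] ℝ) => L a)
      (ContinuousLinearMap.apply ℝ (V n →L[ℝ] ℝ) a).hasFDerivAt h1
  exact (ContinuousLinearMap.apply ℝ ℝ b).hasFDerivAt.comp z h2

private theorem sym12_29 (hw : ContDiffAt ℝ 3 w z) (e a : V n) :
    fderiv ℝ (fderiv ℝ (fderiv ℝ w)) z e a = fderiv ℝ (fderiv ℝ (fderiv ℝ w)) z a e := by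
  have h := (F2_29 hw).isSymmSndFDerivAt (by simp)
  exact h e a

private theorem sym23_29 (hw : ContDiffAt ℝ 3 w z) (e a b : V n) :
    fderiv ℝ (fderiv ℝ (fderiv ℝ w)) z e a b = fderiv ℝ (fderiv ℝ (fderiv ℝ w)) z e b a := by
  have h1 := hasD2_29 hw a b
  have h2 := hasD2_29 hw b a
  have h3 : (fun y => D2 w y a b) =ᶠ[𝓝 z] fun y => D2 w y b a := by
    filter_upwards [hw.eventually (by simp)] with y hy
    exact D2_symm (hy.of_le (by norm_num)) a b
  have h4 := h1.unique (h2.congr_of_eventuallyEq h3)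
  have h5 := congrArg (fun L => L e) h4
  exact h5

theorem D2_fderiv29 (hw : ContDiffAt ℝ 3 w z) (e a b : V n) :
    fderiv ℝ (fun y => D2 w y a b) z e = D2 (fun y => fderiv ℝ w y e) z a b := by
  rw [(hasD2_29 hw a b).fderiv]
  have h1 : fderiv ℝ (fun y => fderiv ℝ w y e) =ᶠ[𝓝 z]
      fun y => (ContinuousLinearMap.apply ℝ ℝ e).comp (fderiv ℝ (fderiv ℝ w) y) := by
    filter_upwards [hw.eventually (by simp)] with y hy
    have h2 : DifferentiableAt ℝ (fderiv ℝ w) y :=
      ((F2_29 hy).of_le (by norm_num : (1 : WithTop ℕ∞) ≤ 2)).differentiableAt (by norm_num)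
    have h3 : HasFDerivAt (fun y => fderiv ℝ w y e)
        ((ContinuousLinearMap.apply ℝ ℝ e).comp (fderiv ℝ (fderiv ℝ w) y)) y :=
      (ContinuousLinearMap.apply ℝ ℝ e).hasFDerivAt.comp y h2.hasFDerivAt
    exact h3.fderiv
  have h3 : HasFDerivAt (fun y => (ContinuousLinearMap.apply ℝ ℝ e).comp (fderiv ℝ (fderiv ℝ w) y))
      ((ContinuousLinearMap.compL ℝ (V n) (V n →L[ℝ] ℝ) ℝ (ContinuousLinearMap.apply ℝ ℝ e)).comp
        (fderiv ℝ (fderiv ℝ (fderiv ℝ w)) z)) z :=
    HasFDerivAt.comp z (g := fun L : V n →L[ℝ] (V n →L[ℝ] ℝ) =>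
      (ContinuousLinearMap.apply ℝ ℝ e).comp L)
      ((ContinuousLinearMap.compL ℝ (V n) (V n →L[ℝ] ℝ) ℝ
        (ContinuousLinearMap.apply ℝ ℝ e)).hasFDerivAt) (dF_29 hw).hasFDerivAt
  show _ = fderiv ℝ (fderiv ℝ fun y => fderiv ℝ w y e) z a b
  rw [h1.fderiv_eq, h3.fderiv]
  show fderiv ℝ (fderiv ℝ (fderiv ℝ w)) z e a b = fderiv ℝ (fderiv ℝ (fderiv ℝ w)) z a b e
  rw [sym12_29 hw, sym23_29 hw]

end third29

private theorem hess_has29 {n : ℕ} {w : V n → ℝ} {z : V n} (hc : ContDiffAt ℝ 3 w z) (i j : Fin n) :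
    ∃ L : V n →L[ℝ] ℂ, HasFDerivAt (fun y => hess w y i j) L z ∧
      ∀ e, L e = hess (fun y => fderiv ℝ w y e) z i j := by
  have hd : ∀ a b, DifferentiableAt ℝ (fun y => D2 w y a b) z := fun a b =>
    (hasD2_29 hc a b).differentiableAt
  have hof : ∀ f : V n → ℝ, DifferentiableAt ℝ f z →
      HasFDerivAt (fun y => ((f y : ℝ) : ℂ)) (Complex.ofRealCLM.comp (fderiv ℝ f z)) z := fun f hf =>
    (Complex.ofRealCLM.hasFDerivAt).comp z hf.hasFDerivAt
  have h1 := hof (fun y => D2 w y (Helper29.AM.e i) (Helper29.AM.e j) +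
    D2 w y (Complex.I • Helper29.AM.e i) (Complex.I • Helper29.AM.e j)) ((hd _ _).add (hd _ _))
  have h2 := hof (fun y => D2 w y (Helper29.AM.e i) (Complex.I • Helper29.AM.e j) -
    D2 w y (Complex.I • Helper29.AM.e i) (Helper29.AM.e j)) ((hd _ _).sub (hd _ _))
  have h3 := (h1.add (h2.mul_const Complex.I)).mul_const (4⁻¹ : ℂ)
  have h4 : (fun y => hess w y i j) = fun y =>
      (((D2 w y (Helper29.AM.e i) (Helper29.AM.e j) +
        D2 w y (Complex.I • Helper29.AM.e i) (Complex.I • Helper29.AM.e j) : ℝ) : ℂ) +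
      ((D2 w y (Helper29.AM.e i) (Complex.I • Helper29.AM.e j) -
        D2 w y (Complex.I • Helper29.AM.e i) (Helper29.AM.e j) : ℝ) : ℂ) * Complex.I) * 4⁻¹ := by
    funext y
    simp only [hess, div_eq_mul_inv]
  rw [h4]
  refine ⟨_, h3, fun e => ?_⟩
  have hE : ∀ a b, fderiv ℝ (fun y => D2 w y a b) z e = D2 (fun y => fderiv ℝ w y e) z a b :=
    D2_fderiv29 hc e
  have h6 : fderiv ℝ (fun y => D2 w y (Helper29.AM.e i) (Helper29.AM.e j) +
      D2 w y (Complex.I • Helper29.AM.e i) (Complex.I • Helper29.AM.e j)) z e =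
      D2 (fun y => fderiv ℝ w y e) z (Helper29.AM.e i) (Helper29.AM.e j) +
      D2 (fun y => fderiv ℝ w y e) z (Complex.I • Helper29.AM.e i) (Complex.I • Helper29.AM.e j) := by
    rw [fderiv_fun_add (hd _ _) (hd _ _), add_apply, hE, hE]
  have h7 : fderiv ℝ (fun y => D2 w y (Helper29.AM.e i) (Complex.I • Helper29.AM.e j) -
      D2 w y (Complex.I • Helper29.AM.e i) (Helper29.AM.e j)) z e =
      D2 (fun y => fderiv ℝ w y e) z (Helper29.AM.e i) (Complex.I • Helper29.AM.e j) -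
      D2 (fun y => fderiv ℝ w y e) z (Complex.I • Helper29.AM.e i) (Helper29.AM.e j) := by
    rw [fderiv_fun_sub (hd _ _) (hd _ _), sub_apply, hE, hE]
  simp only [hess, div_eq_mul_inv]
  rw [← h6, ← h7]
  simp [mul_comm]
  ring

theorem hess_fderiv {n : ℕ} {U : Set (V n)} (hU : IsOpen U) {w : V n → ℝ} (hw : ContDiffOn ℝ 3 w U) {z : V n} (hz : z ∈ U) (e : V n)
    (i j : Fin n) : fderiv ℝ (fun y => hess w y i j) z e = hess (fun y => fderiv ℝ w y e) z i j := by
  obtain ⟨L, h1, h2⟩ := hess_has29 (hw.contDiffAt (hU.mem_nhds hz)) i j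
  rw [h1.fderiv, h2]

private theorem CC_le29 {n : ℕ} {α : ℝ} (hα : 0 < α) (hα1 : α ≤ 1) {U : Set (V n)} (hU : IsOpen U) {m k : ℕ}
    {f : V n → ℂ} (hf : CC α U m f) (hkm : k ≤ m) : CC α U k f :=
  ⟨CR.le hα hα1 hU hf.1 hkm, CR.le hα hα1 hU hf.2 hkm⟩

private theorem pr_eq29 {n : ℕ} (P K : Mat n) : pr P K = (∑ i, ∑ j, P i j * K j i).re := by
  simp only [pr, Matrix.trace, Matrix.diag, Matrix.mul_apply]

theorem linear_all {n : ℕ} {α : ℝ} (hα : 0 < α) (hα1 : α < 1) {U : Set (V n)} (hU : IsOpen U) {w g : V n → ℝ} {a : V n → Mat n} (k : ℕ)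
    (hw : CR α U 2 w) (ha : ∀ i j, CC α U (k + 1) fun x => a x i j) (hpd : ∀ z ∈ U, (a z).PosDef) (hg : CR α U (k + 1) g)
    (heq : ∀ z ∈ U, pr (a z) (hess w z) = g z) : CR α U (k + 3) w := by
  induction k generalizing w g with
  | zero => exact linear_gain hα hα1 hU hw ha hpd hg heq
  | succ k ih =>
    have hα1' : α ≤ 1 := hα1.le
    have h3 : CR α U 3 w := linear_gain hα hα1 hU hw (fun i j => CC_le29 hα hα1' hU (ha i j) (by omega)) hpd
      (CR.le hα hα1' hU hg (by omega)) heq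
    have hwk : CR α U (k + 3) w := ih hw (fun i j => CC_le29 hα hα1' hU (ha i j) (by omega))
      (CR.le hα hα1' hU hg (by omega)) heq
    have hc3 : ContDiffOn ℝ 3 w U := CR.contDiffOn (k := 3) hα hU h3
    refine ⟨h3.1, fun e => ?_⟩
    have hA' : ∀ i j, CC α U (k + 1) fun z =>
        (((fderiv ℝ (fun y => (a y i j).re) z e : ℝ) : ℂ) +
          ((fderiv ℝ (fun y => (a y i j).im) z e : ℝ) : ℂ) * Complex.I) := fun i j =>
      CC.add hU (CC.ofReal hU hα ((ha i j).1.2 e))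
        (CC.mul hα hα1' hU (CC.ofReal hU hα ((ha i j).2.2 e)) (CC.const hU hα Complex.I))
    have hH : ∀ i j, CC α U (k + 1) fun z => hess w z i j := fun i j =>
      CR.hess (k := k + 1) hα hα1' hU hwk i j
    have hP : CR α U (k + 1) fun z => pr (fun i j => (((fderiv ℝ (fun y => (a y i j).re) z e : ℝ) : ℂ) +
          ((fderiv ℝ (fun y => (a y i j).im) z e : ℝ) : ℂ) * Complex.I)) (hess w z) :=
      CC.pr hα hα1' hU hA' hH
    have hge : CR α U (k + 1) fun z => fderiv ℝ g z e +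
        (-1) * pr (fun i j => (((fderiv ℝ (fun y => (a y i j).re) z e : ℝ) : ℂ) +
          ((fderiv ℝ (fun y => (a y i j).im) z e : ℝ) : ℂ) * Complex.I)) (hess w z) :=
      CR.add hU (hg.2 e) (CR.const_mul hU hP (-1))
    refine ih (w := fun y => fderiv ℝ w y e) (h3.2 e)
      (fun i j => CC_le29 hα hα1' hU (ha i j) (by omega)) hge fun z hz => ?_
    -- differentiate the equation
    have hA : ∀ i j, ∃ L : V n →L[ℝ] ℂ, HasFDerivAt (fun y => a y i j) L z ∧
        L e = (((fderiv ℝ (fun y => (a y i j).re) z e : ℝ) : ℂ) +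
          ((fderiv ℝ (fun y => (a y i j).im) z e : ℝ) : ℂ) * Complex.I) := by
      intro i j
      have h1 : DifferentiableAt ℝ (fun y => (a y i j).re) z :=
        (ha i j).1.1.differentiableAt (hU.mem_nhds hz)
      have h2 : DifferentiableAt ℝ (fun y => (a y i j).im) z :=
        (ha i j).2.1.differentiableAt (hU.mem_nhds hz)
      have h4 : HasFDerivAt (fun y => (((a y i j).re : ℝ) : ℂ))
          (Complex.ofRealCLM.comp (fderiv ℝ (fun y => (a y i j).re) z)) z :=
        (Complex.ofRealCLM.hasFDerivAt).comp z h1.hasFDerivAt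
      have h5 : HasFDerivAt (fun y => (((a y i j).im : ℝ) : ℂ))
          (Complex.ofRealCLM.comp (fderiv ℝ (fun y => (a y i j).im) z)) z :=
        (Complex.ofRealCLM.hasFDerivAt).comp z h2.hasFDerivAt
      have h6 := h4.add (h5.mul_const Complex.I)
      have h7 : (fun y => a y i j) = fun y => (((a y i j).re : ℝ) : ℂ) + (((a y i j).im : ℝ) : ℂ) * Complex.I := by
        funext y
        exact (Complex.re_add_im _).symm
      rw [h7]
      exact ⟨_, h6, by simp [mul_comm]⟩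
    choose AL hAL hALe using hA
    choose KL hKL hKLe using fun i j => hess_has29 (hc3.contDiffAt (hU.mem_nhds hz)) i j
    have hF := HasFDerivAt.fun_sum (u := Finset.univ) fun i _ =>
      HasFDerivAt.fun_sum (u := Finset.univ) fun j _ => (hAL i j).mul (hKL j i)
    have hR : HasFDerivAt (fun y => (∑ i, ∑ j, a y i j * hess w y j i).re)
        (Complex.reCLM.comp (∑ i, ∑ j, (a z i j • KL j i + hess w z j i • AL i j))) z :=
      (Complex.reCLM.hasFDerivAt).comp z hF
    have hEv : (fun y => (∑ i, ∑ j, a y i j * hess w y j i).re) =ᶠ[𝓝 z] g := by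
      filter_upwards [hU.mem_nhds hz] with y hy
      rw [← pr_eq29, heq y hy]
    have h8 := hEv.fderiv_eq (𝕜 := ℝ)
    rw [hR.fderiv] at h8
    have h9 := congrArg (fun L => L e) h8
    have h10 : (Complex.reCLM.comp (∑ i, ∑ j, (a z i j • KL j i + hess w z j i • AL i j))) e =
        (∑ i, ∑ j, (a z i j * KL j i e + hess w z j i * AL i j e)).re := by
      simp [ContinuousLinearMap.sum_apply]
    simp only at h9
    rw [h10] at h9
    rw [← h9, pr_eq29, pr_eq29]
    simp only [hKLe, hALe, Finset.sum_add_distrib, Complex.add_re]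
    have h11 : ∀ i j, hess w z j i * (((fderiv ℝ (fun y => (a y i j).re) z e : ℝ) : ℂ) +
          ((fderiv ℝ (fun y => (a y i j).im) z e : ℝ) : ℂ) * Complex.I) =
        (((fderiv ℝ (fun y => (a y i j).re) z e : ℝ) : ℂ) +
          ((fderiv ℝ (fun y => (a y i j).im) z e : ℝ) : ℂ) * Complex.I) * hess w z j i := fun i j =>
      mul_comm _ _
    simp only [h11]
    ring

end Pool.Agent.Helper87.RG
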