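import Pool.Agent.Helper87.RG.D0

/-!
# Project REG, block D1a: closure properties of the classes `CR`

All by induction over `k` (generalising `f`), the case `k = 0` by the definition of `LHol` (shrink the ball; on a small ball `‖y - z‖ < 1`).
`CR.mono`: smaller open sets. `CR.congr`: functions which agree on the open set `U` (`fderiv` agrees on `U`: `Filter.EventuallyEq.fderiv_eq`). `CR.of_local`: a function which is `CR` near every point of `U`.
`CR.anti`: smaller exponent: `t ^ α ≤ t ^ β` for `0 < β ≤ α`, `0 ≤ t < 1`. `CR.of_succ`: `CR (k+1) → CR k`: for `k = 0`: `fderiv ℝ f · v` is locally Hölder for all `v`, hence (basis of the finite dimensional `E`) `‖fderiv ℝ f ·‖` is locally bounded, `f` is locally Lipschitz (mean value inequality on balls), hence locally Hölder as `α ≤ 1`.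
`CR.le`: `CR m → CR k` for `k ≤ m`. `CR.add`, `CR.const`, `CR.const_mul`. `CR.mul`: product rule: `fderiv (f g) x v = f x * fderiv g x v + g x * fderiv f x v`; use `of_succ`; `k = 0`: locally bounded and Hölder.
`CR.contDiffOn`: `CR k → ContDiffOn ℝ k` (`k = 0`: continuous; `contDiffOn_succ_iff_fderiv_of_isOpen` and `contDiffOn_clm_apply`). `CR.of_contDiffOn`: `C^∞ → CR k` (`C¹` functions are locally Lipschitz). `CR.of_C`: `ContDiffOn ℝ (k+1)` implies `CR k`. `CR.infty`: `∀ k, CR k → C^∞`.
-/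

set_option autoImplicit false

open Set Metric

namespace Pool.Agent.Helper87.RG

variable {E : Type} [NormedAddCommGroup E] [NormedSpace ℝ E] {α : ℝ} {U W : Set E} {f g : E → ℝ} {k : ℕ}

theorem CR.mono (hf : CR α U k f) (hW : IsOpen W) (hWU : W ⊆ U) : CR α W k f := by
  induction k generalizing f with
  | zero =>
    intro x hx
    obtain ⟨r, C, hr, hrU, h⟩ := hf x (hWU hx)
    obtain ⟨r', hr', hrW⟩ := Metric.isOpen_iff.1 hW x hx
    refine ⟨min r r', C, lt_min hr hr', (ball_subset_ball (min_le_right _ _)).trans hrW, ?_⟩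
    intro y hy z hz
    exact h y (ball_subset_ball (min_le_left _ _) hy) z (ball_subset_ball (min_le_left _ _) hz)
  | succ k ih => exact ⟨hf.1.mono hWU, fun v => ih (hf.2 v)⟩

theorem CR.congr (hU : IsOpen U) (hf : CR α U k f) (h : ∀ x ∈ U, f x = g x) : CR α U k g := by
  induction k generalizing f g with
  | zero =>
    intro x hx
    obtain ⟨r, C, hr, hrU, h'⟩ := hf x hx
    refine ⟨r, C, hr, hrU, ?_⟩
    intro y hy z hz
    rw [← h y (hrU hy), ← h z (hrU hz)]
    exact h' y hy z hz
  | succ k ih =>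
    refine ⟨hf.1.congr fun x hx => (h x hx).symm, fun v => ih (hf.2 v) ?_⟩
    intro x hx
    have h1 : f =ᶠ[nhds x] g := by
      filter_upwards [hU.mem_nhds hx] with y hy using h y hy
    simp only [h1.fderiv_eq]

theorem CR.of_local (h : ∀ x ∈ U, ∃ W ⊆ U, IsOpen W ∧ x ∈ W ∧ CR α W k f) : CR α U k f := by
  induction k generalizing f with
  | zero =>
    intro x hx
    obtain ⟨W, hWU, hW, hxW, hf⟩ := h x hx
    obtain ⟨r, C, hr, hrU, h'⟩ := hf x hxW
    exact ⟨r, C, hr, hrU.trans hWU, h'⟩
  | succ k ih =>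
    refine ⟨?_, fun v => ih ?_⟩
    · intro x hx
      obtain ⟨W, hWU, hW, hxW, hf⟩ := h x hx
      exact ((hf.1 x hxW).differentiableAt (hW.mem_nhds hxW)).differentiableWithinAt
    · intro x hx
      obtain ⟨W, hWU, hW, hxW, hf⟩ := h x hx
      exact ⟨W, hWU, hW, hxW, hf.2 v⟩

theorem CR.anti {β : ℝ} (hf : CR α U k f) (hβ : 0 < β) (hβα : β ≤ α) : CR β U k f := by
  induction k generalizing f with
  | zero =>
    intro x hx
    obtain ⟨r, C, hr, hrU, h'⟩ := hf x hx
    refine ⟨min r (1 / 2), |C|, lt_min hr (by norm_num), (ball_subset_ball (min_le_left _ _)).trans hrU, ?_⟩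
    intro y hy z hz
    have h1 := h' y (ball_subset_ball (min_le_left _ _) hy) z (ball_subset_ball (min_le_left _ _) hz)
    have hy2 : dist y x < 1 / 2 := lt_of_lt_of_le (mem_ball.1 hy) (min_le_right _ _)
    have hz2 : dist z x < 1 / 2 := lt_of_lt_of_le (mem_ball.1 hz) (min_le_right _ _)
    have h3 : ‖y - z‖ < 1 := by
      rw [← dist_eq_norm]
      have := dist_triangle_right y z x
      linarith
    rcases (norm_nonneg (y - z)).eq_or_lt with h0 | h0
    · have : y = z := by
        rw [← sub_eq_zero]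
        exact norm_eq_zero.1 h0.symm
      subst this
      simp only [sub_self, abs_zero]
      positivity
    · have h4 : ‖y - z‖ ^ α ≤ ‖y - z‖ ^ β := Real.rpow_le_rpow_of_exponent_ge h0 h3.le hβα
      have h5 : 0 ≤ ‖y - z‖ ^ α := by positivity
      calc |f y - f z| ≤ C * ‖y - z‖ ^ α := h1
        _ ≤ |C| * ‖y - z‖ ^ α := mul_le_mul_of_nonneg_right (le_abs_self C) h5
        _ ≤ |C| * ‖y - z‖ ^ β := mul_le_mul_of_nonneg_left h4 (abs_nonneg C)
  | succ k ih => exact ⟨hf.1, fun v => ih (hf.2 v)⟩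

theorem CR.const (hU : IsOpen U) (hα : 0 < α) (c : ℝ) : CR α U k fun _ => c := by
  induction k generalizing c with
  | zero =>
    intro x hx
    obtain ⟨r, hr, hrU⟩ := Metric.isOpen_iff.1 hU x hx
    refine ⟨r, 0, hr, hrU, ?_⟩
    intro y _ z _
    simp
  | succ k ih =>
    refine ⟨differentiableOn_const c, fun v => ?_⟩
    have h1 : (fun x : E => fderiv ℝ (fun _ : E => c) x v) = fun _ => (0 : ℝ) := by
      funext x
      simp
    rw [h1]
    exact ih 0

theorem CR.add (hU : IsOpen U) (hf : CR α U k f) (hg : CR α U k g) : CR α U k fun x => f x + g x := by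
  induction k generalizing f g with
  | zero =>
    intro x hx
    obtain ⟨r, C, hr, hrU, h1⟩ := hf x hx
    obtain ⟨r', C', hr', hrU', h2⟩ := hg x hx
    refine ⟨min r r', C + C', lt_min hr hr', (ball_subset_ball (min_le_left _ _)).trans hrU, ?_⟩
    intro y hy z hz
    have h3 := h1 y (ball_subset_ball (min_le_left _ _) hy) z (ball_subset_ball (min_le_left _ _) hz)
    have h4 := h2 y (ball_subset_ball (min_le_right _ _) hy) z (ball_subset_ball (min_le_right _ _) hz)
    have h5 : f y + g y - (f z + g z) = (f y - f z) + (g y - g z) := by ring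
    have h6 : |f y + g y - (f z + g z)| ≤ C * ‖y - z‖ ^ α + C' * ‖y - z‖ ^ α := by
      rw [h5]
      exact (abs_add_le _ _).trans (add_le_add h3 h4)
    calc |f y + g y - (f z + g z)| ≤ C * ‖y - z‖ ^ α + C' * ‖y - z‖ ^ α := h6
      _ = (C + C') * ‖y - z‖ ^ α := by ring
  | succ k ih =>
    refine ⟨hf.1.add hg.1, fun v => CR.congr hU (ih (hf.2 v) (hg.2 v)) ?_⟩
    intro x hx
    have hfx : DifferentiableAt ℝ f x := (hf.1 x hx).differentiableAt (hU.mem_nhds hx)
    have hgx : DifferentiableAt ℝ g x := (hg.1 x hx).differentiableAt (hU.mem_nhds hx)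
    have h1 := (hfx.hasFDerivAt.add hgx.hasFDerivAt).fderiv
    have h2 : fderiv ℝ (fun x => f x + g x) x = fderiv ℝ f x + fderiv ℝ g x := h1
    rw [h2]
    rfl

theorem CR.const_mul (hU : IsOpen U) (hf : CR α U k f) (c : ℝ) : CR α U k fun x => c * f x := by
  induction k generalizing f with
  | zero =>
    intro x hx
    obtain ⟨r, C, hr, hrU, h1⟩ := hf x hx
    refine ⟨r, |c| * C, hr, hrU, ?_⟩
    intro y hy z hz
    have h3 := h1 y hy z hz
    have h5 : c * f y - c * f z = c * (f y - f z) := by ring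
    rw [h5, abs_mul, mul_assoc]
    exact mul_le_mul_of_nonneg_left h3 (abs_nonneg c)
  | succ k ih =>
    refine ⟨hf.1.const_mul c, fun v => CR.congr hU (ih (hf.2 v)) ?_⟩
    intro x hx
    have hfx : DifferentiableAt ℝ f x := (hf.1 x hx).differentiableAt (hU.mem_nhds hx)
    have h1 := (hfx.hasFDerivAt.const_mul c).fderiv
    have h2 : fderiv ℝ (fun x => c * f x) x = c • fderiv ℝ f x := h1
    rw [h2]
    rfl

private theorem LHol.continuousOn (hα : 0 < α) (hf : LHol α U f) : ContinuousOn f U := by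
  intro x hx
  obtain ⟨r, C, hr, hrU, h⟩ := hf x hx
  apply ContinuousAt.continuousWithinAt
  rw [Metric.continuousAt_iff]
  intro ε hε
  have h1 : Filter.Tendsto (fun t : ℝ => |C| * t ^ α) (nhds 0) (nhds 0) := by
    have h2 : Filter.Tendsto (fun t : ℝ => |C| * t ^ α) (nhds 0) (nhds (|C| * (0 : ℝ) ^ α)) :=
      ((Real.continuousAt_rpow_const 0 α (Or.inr hα.le)).const_mul _).tendsto
    rwa [Real.zero_rpow hα.ne', mul_zero] at h2
  obtain ⟨δ, hδ, h3⟩ := Metric.tendsto_nhds_nhds.1 h1 ε hε
  refine ⟨min δ r, lt_min hδ hr, ?_⟩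
  intro y hy
  have hy1 : dist y x < δ := lt_of_lt_of_le hy (min_le_left _ _)
  have hy2 : dist y x < r := lt_of_lt_of_le hy (min_le_right _ _)
  have h4 := h y (mem_ball.2 hy2) x (mem_ball_self hr)
  have h5 : dist (dist y x) 0 < δ := by
    rw [Real.dist_eq, sub_zero, abs_of_nonneg dist_nonneg]
    exact hy1
  have h6 := h3 h5
  rw [Real.dist_eq, sub_zero, abs_of_nonneg (by positivity)] at h6
  rw [Real.dist_eq]
  calc |f y - f x| ≤ C * ‖y - x‖ ^ α := h4
    _ ≤ |C| * ‖y - x‖ ^ α := mul_le_mul_of_nonneg_right (le_abs_self C) (by positivity)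
    _ = |C| * dist y x ^ α := by rw [dist_eq_norm]
    _ < ε := h6

variable [FiniteDimensional ℝ E]

theorem CR.of_succ (hα : 0 < α) (hα1 : α ≤ 1) (hU : IsOpen U) (hf : CR α U (k + 1) f) : CR α U k f := by
  induction k generalizing f with
  | zero =>
    have hc1 : ContDiffOn ℝ 1 f U := by
      have h0 : ContDiffOn ℝ (0 + 1) f U := by
        rw [contDiffOn_succ_iff_fderiv_of_isOpen hU]
        refine ⟨hf.1, by simp, ?_⟩
        rw [contDiffOn_zero, continuousOn_clm_apply]
        intro v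
        exact LHol.continuousOn hα (hf.2 v)
      simpa using h0
    intro x hx
    obtain ⟨K, t, ht, hK⟩ := (hc1.contDiffAt (hU.mem_nhds hx)).exists_lipschitzOnWith
    obtain ⟨r, hr, hrt⟩ := Metric.mem_nhds_iff.1 (Filter.inter_mem ht (hU.mem_nhds hx))
    refine ⟨min r (1 / 2), K, lt_min hr (by norm_num), fun y hy => (hrt (ball_subset_ball (min_le_left _ _) hy)).2, ?_⟩
    intro y hy z hz
    have hy1 := (hrt (ball_subset_ball (min_le_left _ _) hy)).1
    have hz1 := (hrt (ball_subset_ball (min_le_left _ _) hz)).1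
    have hy2 : dist y x < 1 / 2 := lt_of_lt_of_le (mem_ball.1 hy) (min_le_right _ _)
    have hz2 : dist z x < 1 / 2 := lt_of_lt_of_le (mem_ball.1 hz) (min_le_right _ _)
    have h3 : ‖y - z‖ < 1 := by
      rw [← dist_eq_norm]
      have := dist_triangle_right y z x
      linarith
    have h4 : |f y - f z| ≤ K * ‖y - z‖ := by
      have := hK.dist_le_mul y hy1 z hz1
      rwa [Real.dist_eq, dist_eq_norm] at this
    refine h4.trans (mul_le_mul_of_nonneg_left ?_ K.2)
    rcases (norm_nonneg (y - z)).eq_or_lt with h0 | h0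
    · rw [← h0]
      exact Real.rpow_nonneg le_rfl α
    · calc ‖y - z‖ = ‖y - z‖ ^ (1 : ℝ) := (Real.rpow_one _).symm
        _ ≤ ‖y - z‖ ^ α := Real.rpow_le_rpow_of_exponent_ge h0 h3.le hα1
  | succ k ih => exact ⟨hf.1, fun v => ih (hf.2 v)⟩

theorem CR.le (hα : 0 < α) (hα1 : α ≤ 1) (hU : IsOpen U) {m : ℕ} (hf : CR α U m f) (hkm : k ≤ m) : CR α U k f := by
  induction m, hkm using Nat.le_induction with
  | base => exact hf
  | succ m hkm ih => exact ih (CR.of_succ hα hα1 hU hf)

theorem CR.mul (hα : 0 < α) (hα1 : α ≤ 1) (hU : IsOpen U) (hf : CR α U k f) (hg : CR α U k g) :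
    CR α U k fun x => f x * g x := by
  induction k generalizing f g with
  | zero =>
    intro x hx
    obtain ⟨r, C, hr, hrU, h1⟩ := hf x hx
    obtain ⟨r', C', hr', hrU', h2⟩ := hg x hx
    have hbf : ∀ y ∈ ball x r, |f y| ≤ |f x| + |C| * r ^ α := by
      intro y hy
      have h3 := h1 y hy x (mem_ball_self hr)
      have h4 : ‖y - x‖ ^ α ≤ r ^ α := Real.rpow_le_rpow (norm_nonneg _) (mem_ball_iff_norm.1 hy).le hα.le
      have h5 : C * ‖y - x‖ ^ α ≤ |C| * r ^ α :=
        (mul_le_mul_of_nonneg_right (le_abs_self C) (by positivity)).trans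
          (mul_le_mul_of_nonneg_left h4 (abs_nonneg C))
      have h6 := abs_sub_abs_le_abs_sub (f y) (f x)
      linarith
    have hbg : ∀ y ∈ ball x r', |g y| ≤ |g x| + |C'| * r' ^ α := by
      intro y hy
      have h3 := h2 y hy x (mem_ball_self hr')
      have h4 : ‖y - x‖ ^ α ≤ r' ^ α := Real.rpow_le_rpow (norm_nonneg _) (mem_ball_iff_norm.1 hy).le hα.le
      have h5 : C' * ‖y - x‖ ^ α ≤ |C'| * r' ^ α :=
        (mul_le_mul_of_nonneg_right (le_abs_self C') (by positivity)).trans
          (mul_le_mul_of_nonneg_left h4 (abs_nonneg C'))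
      have h6 := abs_sub_abs_le_abs_sub (g y) (g x)
      linarith
    set A := |f x| + |C| * r ^ α with hA
    set B := |g x| + |C'| * r' ^ α with hB
    refine ⟨min r r', A * |C'| + B * |C|, lt_min hr hr', (ball_subset_ball (min_le_left _ _)).trans hrU, ?_⟩
    intro y hy z hz
    have hy1 := ball_subset_ball (min_le_left r r') hy
    have hy2 := ball_subset_ball (min_le_right r r') hy
    have hz1 := ball_subset_ball (min_le_left r r') hz
    have hz2 := ball_subset_ball (min_le_right r r') hz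
    have ht : 0 ≤ ‖y - z‖ ^ α := by positivity
    have h3 : |f y - f z| ≤ |C| * ‖y - z‖ ^ α :=
      (h1 y hy1 z hz1).trans (mul_le_mul_of_nonneg_right (le_abs_self C) ht)
    have h4 : |g y - g z| ≤ |C'| * ‖y - z‖ ^ α :=
      (h2 y hy2 z hz2).trans (mul_le_mul_of_nonneg_right (le_abs_self C') ht)
    have h5 : f y * g y - f z * g z = f y * (g y - g z) + g z * (f y - f z) := by ring
    have hA0 : 0 ≤ A := by positivity
    have hB0 : 0 ≤ B := by positivity
    calc |f y * g y - f z * g z| = |f y * (g y - g z) + g z * (f y - f z)| := by rw [h5]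
      _ ≤ |f y * (g y - g z)| + |g z * (f y - f z)| := abs_add_le _ _
      _ = |f y| * |g y - g z| + |g z| * |f y - f z| := by rw [abs_mul, abs_mul]
      _ ≤ A * (|C'| * ‖y - z‖ ^ α) + B * (|C| * ‖y - z‖ ^ α) :=
          add_le_add (mul_le_mul (hbf y hy1) h4 (abs_nonneg _) hA0)
            (mul_le_mul (hbg z hz2) h3 (abs_nonneg _) hB0)
      _ = (A * |C'| + B * |C|) * ‖y - z‖ ^ α := by ring
  | succ k ih =>
    refine ⟨hf.1.mul hg.1, fun v => CR.congr hU
      (CR.add hU (ih (CR.of_succ hα hα1 hU hf) (hg.2 v)) (ih (CR.of_succ hα hα1 hU hg) (hf.2 v))) ?_⟩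
    intro x hx
    have hfx : DifferentiableAt ℝ f x := (hf.1 x hx).differentiableAt (hU.mem_nhds hx)
    have hgx : DifferentiableAt ℝ g x := (hg.1 x hx).differentiableAt (hU.mem_nhds hx)
    have h1 := (hfx.hasFDerivAt.mul hgx.hasFDerivAt).fderiv
    have h2 : fderiv ℝ (fun x => f x * g x) x = f x • fderiv ℝ g x + g x • fderiv ℝ f x := h1
    rw [h2]
    rfl

theorem CR.sum {ι : Type} (hα : 0 < α) (hα1 : α ≤ 1) (hU : IsOpen U) (s : Finset ι) {F : ι → E → ℝ}
    (h : ∀ i ∈ s, CR α U k (F i)) : CR α U k fun x => ∑ i ∈ s, F i x := by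
  classical
  induction s using Finset.induction_on with
  | empty =>
    simp only [Finset.sum_empty]
    exact CR.const hU hα 0
  | insert i s hi ih =>
    have h1 : (fun x => ∑ j ∈ insert i s, F j x) = fun x => F i x + ∑ j ∈ s, F j x := by
      funext x
      rw [Finset.sum_insert hi]
    rw [h1]
    exact CR.add hU (h i (Finset.mem_insert_self i s)) (ih fun j hj => h j (Finset.mem_insert_of_mem hj))

end Pool.Agent.Helper87.RG
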