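import Pool.Agent.Helper87.RG.D1b
import Pool.Agent.Helper87.RG.R0

/-!
# Project REG, block D1c: complex valued functions, determinants, adjugates, Hessians

`CC.add`, `CC.mul` (real and imaginary parts of a product), `CC.sum`, `CC.prod` (Finset induction), `CC.det` (`Matrix.det_apply`: a sum of products with signs), `CC.adjugate` (`Matrix.adjugate_apply`: a determinant of `updateRow`, whose entries are entries of `H` or constants).
`CR.D2`: `v` of class `CR (k+2)`: `z ↦ D2 v z a b` is `CR k`: `v` is `C²` (`CR.contDiffOn`), so `D2 v z a b = fderiv (fun y => fderiv v y b) z a` on `U` (`fderiv` of the evaluation at `b`), and this is `CR k` by definition. `CR.hess`: `hess v z j k` is a linear combination of such functions.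
`CR.pr`: `pr (P z) (K z) = Re ∑ P_jk K_kj`.
-/

set_option autoImplicit false

open Set Metric

namespace Pool.Agent.Helper87.RG

open Helper29.AM

section

variable {E : Type} [NormedAddCommGroup E] [NormedSpace ℝ E] [FiniteDimensional ℝ E] {α : ℝ} {U : Set E} {f g : E → ℂ} {k : ℕ}

theorem CC.congr (hU : IsOpen U) (hf : CC α U k f) (h : ∀ x ∈ U, f x = g x) : CC α U k g := by
  exact ⟨CR.congr hU hf.1 fun x hx => by rw [h x hx], CR.congr hU hf.2 fun x hx => by rw [h x hx]⟩

theorem CC.const (hU : IsOpen U) (hα : 0 < α) (c : ℂ) : CC α U k fun _ => c := by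
  exact ⟨CR.const hU hα c.re, CR.const hU hα c.im⟩

theorem CC.ofReal {h : E → ℝ} (hU : IsOpen U) (hα : 0 < α) (hh : CR α U k h) : CC α U k fun x => (h x : ℂ) := by
  exact ⟨CR.congr hU hh fun x _ => by simp, CR.congr hU (CR.const hU hα 0) fun x _ => by simp⟩

theorem CC.add (hU : IsOpen U) (hf : CC α U k f) (hg : CC α U k g) : CC α U k fun x => f x + g x := by
  exact ⟨CR.congr hU (CR.add hU hf.1 hg.1) fun x _ => by simp,
    CR.congr hU (CR.add hU hf.2 hg.2) fun x _ => by simp⟩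

theorem CC.mul (hα : 0 < α) (hα1 : α ≤ 1) (hU : IsOpen U) (hf : CC α U k f) (hg : CC α U k g) :
    CC α U k fun x => f x * g x := by
  refine ⟨CR.congr hU (CR.add hU (CR.mul hα hα1 hU hf.1 hg.1)
    (CR.const_mul hU (CR.mul hα hα1 hU hf.2 hg.2) (-1))) fun x _ => ?_,
    CR.congr hU (CR.add hU (CR.mul hα hα1 hU hf.1 hg.2) (CR.mul hα hα1 hU hf.2 hg.1)) fun x _ => ?_⟩
  · rw [Complex.mul_re]; ring
  · rw [Complex.mul_im]

theorem CC.sum {ι : Type} (hα : 0 < α) (hα1 : α ≤ 1) (hU : IsOpen U) (s : Finset ι) {F : ι → E → ℂ}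
    (h : ∀ i ∈ s, CC α U k (F i)) : CC α U k fun x => ∑ i ∈ s, F i x := by
  refine ⟨CR.congr hU (CR.sum hα hα1 hU s fun i hi => (h i hi).1) fun x _ => ?_,
    CR.congr hU (CR.sum hα hα1 hU s fun i hi => (h i hi).2) fun x _ => ?_⟩
  · rw [Complex.re_sum]
  · rw [Complex.im_sum]

theorem CC.prod {ι : Type} (hα : 0 < α) (hα1 : α ≤ 1) (hU : IsOpen U) (s : Finset ι) {F : ι → E → ℂ}
    (h : ∀ i ∈ s, CC α U k (F i)) : CC α U k fun x => ∏ i ∈ s, F i x := by
  classical
  induction s using Finset.induction_on with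
  | empty =>
    exact CC.congr hU (CC.const hU hα 1) fun x _ => by simp
  | insert a s ha ih =>
    exact CC.congr hU (CC.mul hα hα1 hU (h a (Finset.mem_insert_self a s))
      (ih fun i hi => h i (Finset.mem_insert_of_mem hi))) fun x _ => by
        rw [Finset.prod_insert ha]

theorem CC.det (hα : 0 < α) (hα1 : α ≤ 1) (hU : IsOpen U) {n : ℕ} {H : E → Mat n} (h : ∀ i j, CC α U k fun x => H x i j) :
    CC α U k fun x => (H x).det := by
  refine CC.congr hU (CC.sum hα hα1 hU (Finset.univ : Finset (Equiv.Perm (Fin n)))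
    (F := fun σ x => (((Equiv.Perm.sign σ : ℤˣ) : ℤ) : ℂ) * ∏ i, H x (σ i) i) fun σ _ =>
      CC.mul hα hα1 hU (CC.const hU hα _) (CC.prod hα hα1 hU Finset.univ fun i _ => h (σ i) i)) fun x _ => ?_
  rw [Matrix.det_apply']

theorem CC.adjugate (hα : 0 < α) (hα1 : α ≤ 1) (hU : IsOpen U) {n : ℕ} {H : E → Mat n}
    (h : ∀ i j, CC α U k fun x => H x i j) (i j : Fin n) : CC α U k fun x => (H x).adjugate i j := by
  classical
  refine CC.congr hU (CC.det hα hα1 hU (H := fun x => (H x).updateRow j (Pi.single i 1)) fun a b => ?_)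
    fun x _ => by rw [Matrix.adjugate_apply]
  by_cases hab : a = j
  · subst hab
    exact CC.congr hU (CC.const hU hα ((Pi.single i 1 : Fin n → ℂ) b)) fun x _ => by
      rw [Matrix.updateRow_self]
  · exact CC.congr hU (h a b) fun x _ => by rw [Matrix.updateRow_ne hab]

theorem CC.pr (hα : 0 < α) (hα1 : α ≤ 1) (hU : IsOpen U) {n : ℕ} {P K : E → Mat n}
    (hP : ∀ i j, CC α U k fun x => P x i j) (hK : ∀ i j, CC α U k fun x => K x i j) :
    CR α U k fun x => pr (P x) (K x) := by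
  have h : CC α U k fun x => ∑ i, ∑ j, P x i j * K x j i :=
    CC.sum hα hα1 hU Finset.univ fun i _ => CC.sum hα hα1 hU Finset.univ fun j _ =>
      CC.mul hα hα1 hU (hP i j) (hK j i)
  refine CR.congr hU h.1 fun x _ => ?_
  simp only [RG.pr, Matrix.trace, Matrix.diag, Matrix.mul_apply]

end

variable {n : ℕ} {α : ℝ} {U : Set (V n)} {v : V n → ℝ} {k : ℕ}

theorem CR.D2 (hα : 0 < α) (hα1 : α ≤ 1) (hU : IsOpen U) (hv : CR α U (k + 2) v) (a b : V n) :
    CR α U k fun z => D2 v z a b := by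
  have h1 : CR α U k fun z => fderiv ℝ (fun y => fderiv ℝ v y b) z a := (hv.2 b).2 a
  refine CR.congr hU h1 fun z hz => ?_
  have hc : ContDiffAt ℝ ((k + 2 : ℕ) : WithTop ℕ∞) v z := (CR.contDiffOn hα hU hv).contDiffAt (hU.mem_nhds hz)
  have h2 : ContDiffAt ℝ 2 v z := hc.of_le (by
    have : (2 : ℕ) ≤ k + 2 := by omega
    exact_mod_cast this)
  have h3 : ContDiffAt ℝ 1 (fderiv ℝ v) z := h2.fderiv_right (m := 1) (by norm_num)
  have h4 : DifferentiableAt ℝ (fderiv ℝ v) z := h3.differentiableAt (by norm_num)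
  have h5 : HasFDerivAt (fun y => fderiv ℝ v y b)
      ((ContinuousLinearMap.apply ℝ ℝ b).comp (fderiv ℝ (fderiv ℝ v) z)) z :=
    (ContinuousLinearMap.apply ℝ ℝ b).hasFDerivAt.comp z h4.hasFDerivAt
  rw [h5.fderiv]
  rfl

theorem CR.hess (hα : 0 < α) (hα1 : α ≤ 1) (hU : IsOpen U) (hv : CR α U (k + 2) v) (i j : Fin n) :
    CC α U k fun z => hess v z i j := by
  have h1 := CR.D2 hα hα1 hU hv (e i) (e j)
  have h2 := CR.D2 hα hα1 hU hv (Complex.I • e i) (Complex.I • e j)
  have h3 := CR.D2 hα hα1 hU hv (e i) (Complex.I • e j)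
  have h4 := CR.D2 hα hα1 hU hv (Complex.I • e i) (e j)
  have h5 := CR.const_mul hU (CR.add hU h1 h2) (1 / 4)
  have h6 := CR.const_mul hU (CR.add hU h3 (CR.const_mul hU h4 (-1))) (1 / 4)
  refine CC.congr hU (CC.add hU (CC.ofReal hU hα h5)
    (CC.mul hα hα1 hU (CC.ofReal hU hα h6) (CC.const hU hα Complex.I))) fun z _ => ?_
  simp only [Helper29.AM.hess]
  push_cast
  ring

end Pool.Agent.Helper87.RG
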