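import Pool.Agent.Helper29.AM.Ker

/-!
# Project REG, block D2: Taylor bounds for the kernels

`rho_taylor`. PROOF. `ρ` is smooth with compact support, so `D²ρ := fderiv ℝ (fderiv ℝ rho)` is Lipschitz with some constant `C` (it is `C¹` with compact support: `ContDiff.lipschitzWith_of_hasCompactSupport` or a bound for the third derivative and the mean value inequality).
For fixed `η`: the map `y ↦ Dρ(η + y) - Dρ(η) - D²ρ(η) y` vanishes at `0` and its derivative `D²ρ(η + y) - D²ρ(η)` has norm `≤ C ‖y‖`, so on the ball of radius `‖y‖` the mean value inequality gives `‖..‖ ≤ C ‖y‖²`. The map `y ↦ ρ(η + y) - ρ(η) - Dρ(η) y - (1/2) D²ρ(η)(y, y)` vanishes at `0` and has the derivative `Dρ(η + y) - Dρ(η) - D²ρ(η) y` (second derivatives are symmetric), so it is `≤ C ‖y‖³` (`Convex.norm_image_sub_le_of_norm_hasFDerivWithin_le` on closed balls around `0`).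
`rho_deriv_bound`: bounds, supports and symmetry. `rho1_lip`: `ρ₁` is `C¹` with compact support.
-/

set_option autoImplicit false

namespace Pool.Agent.Helper87.RG

open MeasureTheory Set Filter Topology Metric
open Helper29.AM

section gen32

variable {E : Type} [NormedAddCommGroup E] [NormedSpace ℝ E] {f : E → ℝ}

private theorem bdd32 {F : Type} [NormedAddCommGroup F] {g : E → F} (hc : Continuous g)
    (hs : HasCompactSupport g) : ∃ C : ℝ, 0 ≤ C ∧ ∀ x, ‖g x‖ ≤ C := by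
  obtain ⟨C, hC⟩ := hs.exists_bound_of_continuous hc
  exact ⟨C, (norm_nonneg _).trans (hC 0), hC⟩

private theorem has32 {F : Type} [NormedAddCommGroup F] [NormedSpace ℝ F] {g : E → F}
    (hg : ContDiff ℝ (⊤ : ℕ∞) g) (x : E) : HasFDerivAt g (fderiv ℝ g x) x :=
  (hg.differentiable (by simp) x).hasFDerivAt

private theorem lip32 {F : Type} [NormedAddCommGroup F] [NormedSpace ℝ F] {g : E → F}
    (hg : ContDiff ℝ (⊤ : ℕ∞) g) (hs : HasCompactSupport g) :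
    ∃ C : ℝ, 0 ≤ C ∧ ∀ x y, ‖g (x + y) - g x‖ ≤ C * ‖y‖ := by
  obtain ⟨C, hC0, hC⟩ := bdd32 (contDiff_infty_iff_fderiv.1 hg).2.continuous (hs.fderiv ℝ)
  refine ⟨C, hC0, fun x y => ?_⟩
  have h := convex_univ.norm_image_sub_le_of_norm_hasFDerivWithin_le
    (fun x _ => (has32 hg x).hasFDerivWithinAt)
    (fun x _ => hC x) (mem_univ x) (mem_univ (x + y))
  rwa [add_sub_cancel_left] at h

private theorem taylor32 (hf : ContDiff ℝ (⊤ : ℕ∞) f) (hs : HasCompactSupport f) :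
    ∃ C : ℝ, 0 ≤ C ∧ ∀ η y : E,
      |f (η + y) - f η - fderiv ℝ f η y - (1 / 2) * fderiv ℝ (fderiv ℝ f) η y y| ≤ C * ‖y‖ ^ 3 := by
  have hf1 := (contDiff_infty_iff_fderiv.1 hf).2
  have hf2 := (contDiff_infty_iff_fderiv.1 hf1).2
  obtain ⟨C, hC0, h2⟩ := lip32 hf2 ((hs.fderiv ℝ).fderiv ℝ)
  refine ⟨C, hC0, fun η y => ?_⟩
  have symm : ∀ v w : E, fderiv ℝ (fderiv ℝ f) η v w = fderiv ℝ (fderiv ℝ f) η w v := fun v w =>
    second_derivative_symmetric (fun y => has32 hf y) (has32 hf1 η) v w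
  have hadd : ∀ z : E, HasFDerivAt (fun z : E => η + z) (ContinuousLinearMap.id ℝ E) z := fun z =>
    (hasFDerivAt_id z).const_add η
  -- first order
  have h1 : ∀ z : E, ‖fderiv ℝ f (η + z) - fderiv ℝ f η - fderiv ℝ (fderiv ℝ f) η z‖ ≤ C * ‖z‖ ^ 2 := by
    intro z
    have hd : ∀ x ∈ closedBall (0 : E) ‖z‖, HasFDerivWithinAt
        (fun x : E => fderiv ℝ f (η + x) - fderiv ℝ f η - fderiv ℝ (fderiv ℝ f) η x)
        (fderiv ℝ (fderiv ℝ f) (η + x) - fderiv ℝ (fderiv ℝ f) η) (closedBall 0 ‖z‖) x := by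
      intro x _
      have e1 : HasFDerivAt (fun x : E => fderiv ℝ f (η + x)) (fderiv ℝ (fderiv ℝ f) (η + x)) x := by
        have := (has32 hf1 (η + x)).comp x (hadd x)
        rwa [ContinuousLinearMap.comp_id] at this
      exact ((e1.sub_const _).sub (fderiv ℝ (fderiv ℝ f) η).hasFDerivAt).hasFDerivWithinAt
    have hb : ∀ x ∈ closedBall (0 : E) ‖z‖,
        ‖fderiv ℝ (fderiv ℝ f) (η + x) - fderiv ℝ (fderiv ℝ f) η‖ ≤ C * ‖z‖ := by
      intro x hx
      rw [mem_closedBall_zero_iff] at hx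
      exact (h2 η x).trans (mul_le_mul_of_nonneg_left hx hC0)
    have h := (convex_closedBall (0 : E) ‖z‖).norm_image_sub_le_of_norm_hasFDerivWithin_le hd hb
      (mem_closedBall_self (norm_nonneg z)) (by rw [mem_closedBall_zero_iff] : z ∈ closedBall (0 : E) ‖z‖)
    simp only [add_zero, map_zero, sub_zero, sub_self] at h
    calc _ ≤ C * ‖z‖ * ‖z‖ := h
      _ = C * ‖z‖ ^ 2 := by ring
  -- second order
  have hd : ∀ x ∈ closedBall (0 : E) ‖y‖, HasFDerivWithinAt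
      (fun x : E => f (η + x) - f η - fderiv ℝ f η x - (1 / 2) * fderiv ℝ (fderiv ℝ f) η x x)
      (fderiv ℝ f (η + x) - fderiv ℝ f η - fderiv ℝ (fderiv ℝ f) η x) (closedBall 0 ‖y‖) x := by
    intro x _
    have e1 : HasFDerivAt (fun x : E => f (η + x)) (fderiv ℝ f (η + x)) x := by
      have := (has32 hf (η + x)).comp x (hadd x)
      rwa [ContinuousLinearMap.comp_id] at this
    have e2 : HasFDerivAt (fun x : E => fderiv ℝ (fderiv ℝ f) η x x)
        ((fderiv ℝ (fderiv ℝ f) η x).comp (ContinuousLinearMap.id ℝ E) +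
          (fderiv ℝ (fderiv ℝ f) η).flip x) x :=
      (fderiv ℝ (fderiv ℝ f) η).hasFDerivAt.clm_apply (hasFDerivAt_id x)
    have e3 := ((e1.sub_const (f η)).sub (fderiv ℝ f η).hasFDerivAt).sub (e2.const_mul (1 / 2))
    refine (e3.congr_fderiv ?_).hasFDerivWithinAt
    ext w
    simp only [ContinuousLinearMap.sub_apply, ContinuousLinearMap.smul_apply, ContinuousLinearMap.add_apply,
      ContinuousLinearMap.comp_apply, ContinuousLinearMap.flip_apply, ContinuousLinearMap.id_apply, smul_eq_mul]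
    rw [symm w x]
    ring
  have hb : ∀ x ∈ closedBall (0 : E) ‖y‖,
      ‖fderiv ℝ f (η + x) - fderiv ℝ f η - fderiv ℝ (fderiv ℝ f) η x‖ ≤ C * ‖y‖ ^ 2 := by
    intro x hx
    rw [mem_closedBall_zero_iff] at hx
    refine (h1 x).trans (mul_le_mul_of_nonneg_left ?_ hC0)
    exact pow_le_pow_left₀ (norm_nonneg _) hx 2
  have h := (convex_closedBall (0 : E) ‖y‖).norm_image_sub_le_of_norm_hasFDerivWithin_le hd hb
    (mem_closedBall_self (norm_nonneg y)) (by rw [mem_closedBall_zero_iff] : y ∈ closedBall (0 : E) ‖y‖)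
  simp only [add_zero, map_zero, sub_zero, sub_self, mul_zero, Real.norm_eq_abs] at h
  calc _ ≤ C * ‖y‖ ^ 2 * ‖y‖ := h
    _ = C * ‖y‖ ^ 3 := by ring

/-- a continuous function which vanishes outside the closed unit ball vanishes outside the open one -/
private theorem clos32 {F : Type} [NormedAddCommGroup F] {g : E → F} (hg : Continuous g)
    (hz : ∀ x : E, 1 < ‖x‖ → g x = 0) (x : E) (hx : 1 ≤ ‖x‖) : g x = 0 := by
  have ht : Tendsto (fun k : ℕ => g ((1 + 1 / ((k : ℝ) + 1)) • x)) atTop (𝓝 (g ((1 + 0 : ℝ) • x))) := by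
    refine (hg.tendsto _).comp ?_
    exact (tendsto_const_nhds.add tendsto_one_div_add_atTop_nhds_zero_nat).smul_const x
  have h3 : ∀ k : ℕ, g ((1 + 1 / ((k : ℝ) + 1)) • x) = 0 := by
    intro k
    apply hz
    have h4 : (0 : ℝ) < 1 / ((k : ℝ) + 1) := by positivity
    rw [norm_smul, Real.norm_of_nonneg (by linarith)]
    nlinarith
  simp only [h3] at ht
  have h5 := tendsto_nhds_unique ht tendsto_const_nhds
  rw [add_zero, one_smul] at h5
  exact h5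

private theorem fd_zero32 {F : Type} [NormedAddCommGroup F] [NormedSpace ℝ F] {g : E → F}
    (hz : ∀ x : E, 1 < ‖x‖ → g x = 0) : ∀ x : E, 1 < ‖x‖ → fderiv ℝ g x = 0 := by
  intro x hx
  have h3 : g =ᶠ[𝓝 x] fun _ => 0 := by
    filter_upwards [(isOpen_lt continuous_const continuous_norm).mem_nhds hx] with y hy
    exact hz y hy
  rw [h3.fderiv_eq]
  simp

private theorem bound32 (hf : ContDiff ℝ (⊤ : ℕ∞) f) (hs : HasCompactSupport f)
    (hz : ∀ x : E, 1 ≤ ‖x‖ → f x = 0) : ∃ C : ℝ, 0 ≤ C ∧ ∀ η : E, |f η| ≤ C ∧ ‖fderiv ℝ f η‖ ≤ C ∧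
    ‖fderiv ℝ (fderiv ℝ f) η‖ ≤ C ∧
    (1 ≤ ‖η‖ → f η = 0 ∧ fderiv ℝ f η = 0 ∧ fderiv ℝ (fderiv ℝ f) η = 0) ∧
    ∀ v w : E, fderiv ℝ (fderiv ℝ f) η v w = fderiv ℝ (fderiv ℝ f) η w v := by
  have hf1 := (contDiff_infty_iff_fderiv.1 hf).2
  have hf2 := (contDiff_infty_iff_fderiv.1 hf1).2
  obtain ⟨C₀, h0, hC₀⟩ := bdd32 hf.continuous hs
  obtain ⟨C₁, h1, hC₁⟩ := bdd32 hf1.continuous (hs.fderiv ℝ)
  obtain ⟨C₂, h2, hC₂⟩ := bdd32 hf2.continuous ((hs.fderiv ℝ).fderiv ℝ)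
  have hz1 : ∀ x : E, 1 < ‖x‖ → fderiv ℝ f x = 0 := fd_zero32 fun x hx => hz x hx.le
  have hz2 : ∀ x : E, 1 < ‖x‖ → fderiv ℝ (fderiv ℝ f) x = 0 := fd_zero32 hz1
  refine ⟨max C₀ (max C₁ C₂), le_max_of_le_left h0, fun η => ⟨?_, ?_, ?_, fun hη => ⟨hz η hη, ?_, ?_⟩,
    fun v w => second_derivative_symmetric (fun y => has32 hf y) (has32 hf1 η) v w⟩⟩
  · exact (hC₀ η).trans (le_max_left _ _)
  · exact (hC₁ η).trans ((le_max_left _ _).trans (le_max_right _ _))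
  · exact (hC₂ η).trans ((le_max_right _ _).trans (le_max_right _ _))
  · exact clos32 hf1.continuous hz1 η hη
  · exact clos32 hf2.continuous hz2 η hη

end gen32

variable {n : ℕ}

theorem rho_taylor : ∃ C : ℝ, 0 ≤ C ∧ ∀ η y : V n,
    |rho (η + y) - rho η - fderiv ℝ rho η y - (1 / 2) * fderiv ℝ (fderiv ℝ rho) η y y| ≤ C * ‖y‖ ^ 3 :=
  taylor32 rho_contDiff rho_hasCompactSupport

theorem rho_deriv_bound : ∃ C : ℝ, 0 ≤ C ∧ ∀ η : V n, |rho η| ≤ C ∧ ‖fderiv ℝ (rho : V n → ℝ) η‖ ≤ C ∧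
    ‖fderiv ℝ (fderiv ℝ (rho : V n → ℝ)) η‖ ≤ C ∧
    (1 ≤ ‖η‖ → rho η = 0 ∧ fderiv ℝ (rho : V n → ℝ) η = 0 ∧ fderiv ℝ (fderiv ℝ (rho : V n → ℝ)) η = 0) ∧
    ∀ v w : V n, fderiv ℝ (fderiv ℝ (rho : V n → ℝ)) η v w = fderiv ℝ (fderiv ℝ (rho : V n → ℝ)) η w v :=
  bound32 rho_contDiff rho_hasCompactSupport fun _ h => rho_eq_zero h

theorem rho1_lip : ∃ C : ℝ, 0 ≤ C ∧ ∀ η y : V n, |rho1 (η + y) - rho1 η| ≤ C * ‖y‖ :=
  lip32 rho1_contDiff rho1_hasCompactSupport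

end Pool.Agent.Helper87.RG
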