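import Pool.Agent.Helper87.RG.D2
import Pool.Agent.Helper29.AM.MeanA

/-!
# Project REG, block D3: the mean of a bounded function is close to a quadratic polynomial

`mean_quad`. Let `A` be invertible, `‖v‖ ≤ N ‖A v‖` (i.e. `‖A⁻¹‖ ≤ N`), `0 < t`, `w` measurable with `|w| ≤ m` on `T (closedBall 0 1)`, `T = t A`. PROOF. Let `B = A⁻¹` (as a real linear map), `‖B‖ ≤ N`, `S = T⁻¹ = t⁻¹ B`. For every `v`, translation `η ↦ η - S v` gives `M T w v = ∫ ρ(η) w(v + Tη) dη = ∫ ρ(η - S v) w(Tη) dη`.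
Let `w̃(η) = w(Tη)`, `|w̃| ≤ m` on `closedBall 0 1`... attention: for `‖S v‖ ≤ 1` the kernel `η ↦ ρ(η - S v)` is supported in `closedBall 0 2`, so the bound for `w` is assumed on `T (closedBall 0 2)`. Put `a = ∫ ρ(η) w̃(η)`, `b v = -∫ Dρ(η)(S v) w̃(η)`, `c v v' = (1/2) ∫ D²ρ(η)(S v, S v') w̃(η)` (Bochner integrals with values in the duals, composed with `S`).
`rho_taylor` with `y = - S v`: the integrand of `M T w v - (a + b v + c v v)` is bounded by `C ‖S v‖³ m` on `closedBall 0 2` and vanishes outside (`‖S v‖ ≤ 1`: all terms vanish for `‖η‖ > 2`). So the difference is `≤ C vol(closedBall 0 2) m ‖S v‖³ ≤ C' m (N ‖v‖/t)³`. All integrands are bounded, measurable and with bounded support.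
-/

set_option autoImplicit false

namespace Pool.Agent.Helper87.RG

open MeasureTheory Set Filter Topology Metric
open Helper29.AM

variable {n : ℕ}

/-- integrability of a bounded function times a compactly supported kernel -/
private theorem int56 {F : Type} [NormedAddCommGroup F] [NormedSpace ℝ F] {w : V n → ℝ} (hw : Measurable w)
    {m : ℝ} (hm : ∀ η : V n, ‖η‖ ≤ 2 → |w η| ≤ m) {k : V n → F} (hk : Continuous k)
    (hk0 : ∀ η : V n, 2 < ‖η‖ → k η = 0) : Integrable fun η => w η • k η := by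
  have hc : HasCompactSupport k := HasCompactSupport.intro (isCompact_closedBall (0 : V n) 2) fun η hη => by
    refine hk0 η ?_
    rw [mem_closedBall_zero_iff, not_le] at hη
    exact hη
  have hi : Integrable k := hk.integrable_of_hasCompactSupport hc
  refine Integrable.mono' (hi.norm.const_mul m) (hw.aestronglyMeasurable.smul hk.aestronglyMeasurable)
    (Eventually.of_forall fun η => ?_)
  rw [norm_smul, Real.norm_eq_abs]
  by_cases h : ‖η‖ ≤ 2
  · exact mul_le_mul_of_nonneg_right (hm η h) (norm_nonneg _)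
  · rw [hk0 η (not_le.1 h), norm_zero, mul_zero, mul_zero]

private theorem cont1_56 : Continuous (fderiv ℝ (rho : V n → ℝ)) :=
  rho_contDiff.continuous_fderiv (by simp)

private theorem cont2_56 : Continuous (fderiv ℝ (fderiv ℝ (rho : V n → ℝ))) := by
  have h1 : ContDiff ℝ (⊤ : ℕ∞) (fderiv ℝ (rho : V n → ℝ)) :=
    rho_contDiff.fderiv_right (m := (⊤ : ℕ∞)) (by exact_mod_cast le_top)
  exact h1.continuous_fderiv (by simp)

theorem mean_quad (n : ℕ) : ∃ C : ℝ, 0 ≤ C ∧ ∀ (A : Lin n) (N t m : ℝ) (w : V n → ℝ), A.det ≠ 0 → 0 < N → (∀ v, ‖v‖ ≤ N * ‖A v‖) →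
    0 < t → Measurable w → (∀ η : V n, ‖η‖ ≤ 2 → |w (((t : ℂ) • A) η)| ≤ m) →
    ∃ (a : ℝ) (b : V n →L[ℝ] ℝ) (c : V n →L[ℝ] V n →L[ℝ] ℝ), (∀ v v', c v v' = c v' v) ∧
      ∀ v : V n, N * ‖v‖ ≤ t → |M ((t : ℂ) • A) w v - (a + b v + c v v)| ≤ C * m * (N * ‖v‖ / t) ^ 3 := by
  obtain ⟨C0, hC0, htay⟩ := rho_taylor (n := n)
  obtain ⟨C1, hC1, hder⟩ := rho_deriv_bound (n := n)
  set K : ℝ := (volume : Measure (V n)).real (closedBall 0 2) with hK
  have hK0 : 0 ≤ K := measureReal_nonneg
  refine ⟨C0 * K, mul_nonneg hC0 hK0, ?_⟩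
  intro A N t m w hA hN hAN ht hw hm
  set T : Lin n := (t : ℂ) • A with hT
  have htc : (t : ℂ) ≠ 0 := Complex.ofReal_ne_zero.2 ht.ne'
  have hTd : T.det ≠ 0 := by
    rw [hT, ContinuousLinearMap.det, ContinuousLinearMap.toLinearMap_smul, LinearMap.det_smul]
    exact mul_ne_zero (pow_ne_zero _ htc) hA
  let g : V n ≃L[ℂ] V n := ContinuousLinearMap.toContinuousLinearEquivOfDetNeZero T hTd
  let gR : V n ≃L[ℝ] V n := g.restrictScalars ℝ
  have hg : ∀ η, gR η = T η := fun η => rfl
  set S : V n →L[ℝ] V n := (gR.symm : V n →L[ℝ] V n) with hS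
  have hTS : ∀ v, T (S v) = v := fun v => by
    rw [← hg]
    exact gR.apply_symm_apply v
  have hSn : ∀ v, ‖S v‖ ≤ N * ‖v‖ / t := fun v => by
    refine (hAN (S v)).trans ?_
    rw [mul_div_assoc]
    refine mul_le_mul_of_nonneg_left ?_ hN.le
    rw [le_div_iff₀ ht]
    have h1 : ‖T (S v)‖ = ‖v‖ := by rw [hTS]
    have h2 : T (S v) = (t : ℂ) • A (S v) := rfl
    rw [h2, norm_smul, Complex.norm_real, Real.norm_of_nonneg ht.le] at h1
    linarith
  set w' : V n → ℝ := fun η => w (T η) with hw'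
  have hw'm : Measurable w' := hw.comp T.continuous.measurable
  have hm' : ∀ η : V n, ‖η‖ ≤ 2 → |w' η| ≤ m := hm
  have hm0 : 0 ≤ m := (abs_nonneg _).trans (hm' 0 (by rw [norm_zero]; norm_num))
  have hz0 : ∀ η : V n, 2 < ‖η‖ → rho η = 0 ∧ fderiv ℝ (rho : V n → ℝ) η = 0 ∧ fderiv ℝ (fderiv ℝ (rho : V n → ℝ)) η = 0 :=
    fun η hη => (hder η).2.2.2.1 (by linarith)
  have i0 : Integrable fun η => w' η * rho η := int56 hw'm hm' rho_contDiff.continuous fun η hη => (hz0 η hη).1
  have i1 : Integrable fun η => w' η • fderiv ℝ (rho : V n → ℝ) η := int56 hw'm hm' cont1_56 fun η hη => (hz0 η hη).2.1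
  have i2 : ∀ x, Integrable fun η => w' η • fderiv ℝ (fderiv ℝ (rho : V n → ℝ)) η x := fun x =>
    int56 hw'm hm' (cont2_56.clm_apply continuous_const) fun η hη => by rw [(hz0 η hη).2.2, _root_.zero_apply]
  set bL : V n →L[ℝ] ℝ := ∫ η, w' η • fderiv ℝ (rho : V n → ℝ) η with hbL
  let cLin : V n →ₗ[ℝ] (V n →L[ℝ] ℝ) :=
    { toFun := fun x => ∫ η, w' η • fderiv ℝ (fderiv ℝ (rho : V n → ℝ)) η x
      map_add' := fun x x' => by
        rw [← integral_add (i2 x) (i2 x')]
        refine integral_congr_ae (Eventually.of_forall fun η => ?_)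
        simp only [map_add, smul_add]
      map_smul' := fun r x => by
        rw [RingHom.id_apply, ← integral_smul]
        refine integral_congr_ae (Eventually.of_forall fun η => ?_)
        simp only [map_smul]
        rw [smul_comm] }
  let cL : V n →L[ℝ] V n →L[ℝ] ℝ := LinearMap.toContinuousLinearMap cLin
  have hb : ∀ x, bL x = ∫ η, w' η * fderiv ℝ (rho : V n → ℝ) η x := fun x => by
    rw [hbL, ContinuousLinearMap.integral_apply i1]
    rfl
  have hcc : ∀ x y, cL x y = ∫ η, w' η * fderiv ℝ (fderiv ℝ (rho : V n → ℝ)) η x y := fun x y => by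
    change (∫ η, w' η • fderiv ℝ (fderiv ℝ (rho : V n → ℝ)) η x) y = _
    rw [ContinuousLinearMap.integral_apply (i2 x)]
    rfl
  refine ⟨∫ η, w' η * rho η, -(bL.comp S), (1 / 2 : ℝ) • cL.bilinearComp S S, ?_, ?_⟩
  · intro v v'
    change (1 / 2 : ℝ) * cL (S v) (S v') = (1 / 2 : ℝ) * cL (S v') (S v)
    rw [hcc, hcc]
    congr 1
    refine integral_congr_ae (Eventually.of_forall fun η => ?_)
    change w' η * _ = w' η * _
    rw [(hder η).2.2.2.2]
  · intro v hv
    set y : V n := -(S v) with hy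
    have hyn : ‖y‖ ≤ N * ‖v‖ / t := by
      rw [hy, norm_neg]
      exact hSn v
    have hy1 : ‖y‖ ≤ 1 := hyn.trans (by
      rw [div_le_one ht]
      exact hv)
    have e1 : M T w v = ∫ η, w' η * rho (η + y) := by
      unfold M
      rw [← integral_add_right_eq_self (fun η => rho η * w (v + T η)) y]
      refine integral_congr_ae (Eventually.of_forall fun η => ?_)
      change rho (η + y) * w (v + T (η + y)) = w (T η) * rho (η + y)
      have h1 : v + T (η + y) = T η := by
        rw [map_add, hy, map_neg, hTS]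
        abel
      rw [h1, mul_comm]
    have e2 : (-(bL.comp S)) v = ∫ η, w' η * fderiv ℝ (rho : V n → ℝ) η y := by
      rw [← hb]
      change -(bL (S v)) = bL y
      rw [hy, map_neg]
    have e3 : ((1 / 2 : ℝ) • cL.bilinearComp S S) v v = ∫ η, w' η * ((1 / 2) * fderiv ℝ (fderiv ℝ (rho : V n → ℝ)) η y y) := by
      change (1 / 2 : ℝ) * cL (S v) (S v) = _
      have h1 : cL (S v) (S v) = cL y y := by
        rw [hy]
        simp
      rw [h1, hcc, ← integral_const_mul]
      refine integral_congr_ae (Eventually.of_forall fun η => ?_)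
      ring
    have j0 : Integrable fun η => w' η * rho (η + y) := by
      refine int56 hw'm hm' (rho_contDiff.continuous.comp (continuous_add_const y)) fun η hη => ?_
      refine rho_eq_zero ?_
      have h1 : ‖η‖ ≤ ‖η + y‖ + ‖y‖ := by
        have h2 := norm_sub_le (η + y) y
        rwa [add_sub_cancel_right] at h2
      linarith
    have j1 : Integrable fun η => w' η * fderiv ℝ (rho : V n → ℝ) η y := i1.apply_continuousLinearMap y
    have j2 : Integrable fun η => w' η * ((1 / 2) * fderiv ℝ (fderiv ℝ (rho : V n → ℝ)) η y y) := by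
      have h1 : Integrable fun η => w' η * fderiv ℝ (fderiv ℝ (rho : V n → ℝ)) η y y := (i2 y).apply_continuousLinearMap y
      refine (h1.const_mul (1 / 2)).congr (Eventually.of_forall fun η => ?_)
      ring
    have e4 : M T w v - ((∫ η, w' η * rho η) + (-(bL.comp S)) v + ((1 / 2 : ℝ) • cL.bilinearComp S S) v v) =
        ∫ η, w' η * (rho (η + y) - rho η - fderiv ℝ rho η y - (1 / 2) * fderiv ℝ (fderiv ℝ rho) η y y) := by
      have k1 : ∫ η, (w' η * rho (η + y) - w' η * rho η) = (∫ η, w' η * rho (η + y)) - ∫ η, w' η * rho η :=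
        integral_sub j0 i0
      have k2 : ∫ η, (w' η * rho (η + y) - w' η * rho η - w' η * fderiv ℝ (rho : V n → ℝ) η y) =
          (∫ η, (w' η * rho (η + y) - w' η * rho η)) - ∫ η, w' η * fderiv ℝ (rho : V n → ℝ) η y :=
        integral_sub (j0.sub i0) j1
      have k3 : ∫ η, (w' η * rho (η + y) - w' η * rho η - w' η * fderiv ℝ (rho : V n → ℝ) η y -
          w' η * ((1 / 2) * fderiv ℝ (fderiv ℝ (rho : V n → ℝ)) η y y)) =
          (∫ η, (w' η * rho (η + y) - w' η * rho η - w' η * fderiv ℝ (rho : V n → ℝ) η y)) -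
            ∫ η, w' η * ((1 / 2) * fderiv ℝ (fderiv ℝ (rho : V n → ℝ)) η y y) :=
        integral_sub ((j0.sub i0).sub j1) j2
      rw [e1, e2, e3, ← sub_sub, ← sub_sub, ← k1, ← k2, ← k3]
      refine integral_congr_ae (Eventually.of_forall fun η => ?_)
      change w' η * rho (η + y) - w' η * rho η - w' η * fderiv ℝ (rho : V n → ℝ) η y -
          w' η * ((1 / 2) * fderiv ℝ (fderiv ℝ (rho : V n → ℝ)) η y y) = w' η * (_ - _ - _ - _)
      ring
    rw [e4]
    have h5 : ‖∫ η, w' η * (rho (η + y) - rho η - fderiv ℝ rho η y - (1 / 2) * fderiv ℝ (fderiv ℝ rho) η y y)‖ ≤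
        ∫ η : V n, (closedBall (0 : V n) 2).indicator (fun _ => m * (C0 * ‖y‖ ^ 3)) η := by
      refine norm_integral_le_of_norm_le ((integrable_indicator_iff measurableSet_closedBall).2
        (integrableOn_const measure_closedBall_lt_top.ne)) (Eventually.of_forall fun η => ?_)
      by_cases h : ‖η‖ ≤ 2
      · rw [indicator_of_mem (mem_closedBall_zero_iff.2 h), norm_mul, Real.norm_eq_abs, Real.norm_eq_abs]
        exact mul_le_mul (hm' η h) (htay η y) (abs_nonneg _) hm0
      · have h1 := hz0 η (not_le.1 h)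
        have h2 : rho (η + y) = 0 := by
          refine rho_eq_zero ?_
          have h3 : ‖η‖ ≤ ‖η + y‖ + ‖y‖ := by
            have h2 := norm_sub_le (η + y) y
            rwa [add_sub_cancel_right] at h2
          rw [not_le] at h
          linarith
        rw [h2, h1.1, h1.2.1, h1.2.2]
        simp only [_root_.zero_apply, mul_zero, sub_zero, norm_zero]
        exact indicator_nonneg (fun _ _ => by positivity) _
    rw [Real.norm_eq_abs, integral_indicator measurableSet_closedBall, setIntegral_const, smul_eq_mul] at h5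
    refine h5.trans ?_
    rw [← hK]
    have h6 : ‖y‖ ^ 3 ≤ (N * ‖v‖ / t) ^ 3 := pow_le_pow_left₀ (norm_nonneg _) hyn 3
    calc K * (m * (C0 * ‖y‖ ^ 3)) = (C0 * K * m) * ‖y‖ ^ 3 := by ring
      _ ≤ C0 * K * m * (N * ‖v‖ / t) ^ 3 := mul_le_mul_of_nonneg_left h6 (by positivity)

end Pool.Agent.Helper87.RG
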