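import Mathlib

/-!
# Project REG, block D4: quadratic polynomials; limits of approximating quadratic polynomials (abstract)

`quad_coeff`. PROOF. `q v = a + b v + c v v`, `|q| ≤ M` for `‖v‖ ≤ δ`. `v = 0`: `|a| ≤ M`. `b v = (q v - q (-v))/2`: `|b v| ≤ M` for `‖v‖ ≤ δ`, so `‖b‖ ≤ M/δ` (scaling). `c v v = (q v + q (-v))/2 - a`: `|c v v| ≤ 2 M` for `‖v‖ ≤ δ`, so `|c v v| ≤ 2 M ‖v‖²/δ²`. Polarisation `4 c v w = c (v + w) (v + w) - c (v - w) (v - w)`: for `‖v‖, ‖w‖ ≤ 1`: `|c v w| ≤ (1/4)(2 · 2 M 4/δ²) = 4 M/δ²`, so `‖c‖ ≤ 4 M/δ²`.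
`quad_limit`. PROOF. `q_j v = a j + b j v + c j v v`. For `‖v‖ ≤ δ^(j+1)`: `|q_(j+1) v - q_j v| ≤ K δ^((j+1)(2+s)) + K δ^(j(2+s)) ≤ 2 K δ^(j(2+s))`. `quad_coeff` with the radius `δ^(j+1)`: `|a(j+1) - a j| ≤ 2K δ^(j(2+s))`, `‖b(j+1) - b j‖ ≤ 2K δ^(-1) δ^(j(1+s))`, `‖c(j+1) - c j‖ ≤ 8K δ^(-2) δ^(j s)`. As `δ^s < 1` these are summable, the sequences converge (completeness) to `a', b', c'` with
`|a' - a j| ≤ 2K δ^(j(2+s))/(1-δ^(2+s))`, `‖b' - b j‖ ≤ 2K δ^(-1) δ^(j(1+s))/(1-δ^(1+s))`, `‖c' - c j‖ ≤ 8K δ^(-2) δ^(js)/(1-δ^s)` (`cauchySeq_of_le_geometric`, `dist_le_of_le_geometric_of_tendsto`). `j = 0`: the bounds for `a', b', c'`. For `‖v‖ ≤ δ^j`: `|w v - q' v| ≤ C K δ^(j(2+s))`. For `0 < ‖v‖ ≤ 1` choose `j` with `δ^(j+1) < ‖v‖ ≤ δ^j`: `δ^(j(2+s)) ≤ δ^(-2-s) ‖v‖^(2+s)`. For `v = 0` let `j → ∞`.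
-/

set_option autoImplicit false

open Set Metric

namespace Pool.Agent.Helper87.RG

variable {E : Type} [NormedAddCommGroup E] [NormedSpace ℝ E]

private theorem quad_diag_h12 {a : ℝ} {b : E →L[ℝ] ℝ} {c : E →L[ℝ] E →L[ℝ] ℝ} {M δ : ℝ} (hδ : 0 < δ)
    (h : ∀ v : E, ‖v‖ ≤ δ → |a + b v + c v v| ≤ M) :
    |a| ≤ M ∧ (∀ v, |b v| ≤ M / δ * ‖v‖) ∧ ∀ v, |c v v| ≤ 2 * M / δ ^ 2 * ‖v‖ ^ 2 := by
  have ha : |a| ≤ M := by
    have h1 := h 0 (by simpa using hδ.le)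
    simpa using h1
  have h2 : ∀ v : E, ‖v‖ ≤ δ → |b v| ≤ M ∧ |c v v| ≤ 2 * M := by
    intro v hv
    have h3 := abs_le.1 (h v hv)
    have h4 := abs_le.1 (h (-v) (by rwa [norm_neg]))
    have h5 := abs_le.1 ha
    simp only [map_neg, neg_apply, neg_neg, ContinuousLinearMap.neg_apply] at h4
    constructor
    · rw [abs_le]
      constructor <;> linarith [h3.1, h3.2, h4.1, h4.2]
    · rw [abs_le]
      constructor <;> linarith [h3.1, h3.2, h4.1, h4.2, h5.1, h5.2]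
  refine ⟨ha, fun v => ?_, fun v => ?_⟩
  · by_cases hv : v = 0
    · simp [hv]
    have hv0 : 0 < ‖v‖ := norm_pos_iff.2 hv
    have h3 : ‖(δ / ‖v‖) • v‖ ≤ δ := by
      rw [norm_smul, Real.norm_of_nonneg (by positivity), div_mul_cancel₀ _ hv0.ne']
    have h4 := (h2 _ h3).1
    rw [map_smul, smul_eq_mul, abs_mul, abs_of_nonneg (by positivity : 0 ≤ δ / ‖v‖)] at h4
    rw [div_mul_eq_mul_div, div_le_iff₀ hv0] at h4
    rw [div_mul_eq_mul_div, le_div_iff₀ hδ]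
    linarith
  · by_cases hv : v = 0
    · simp [hv]
    have hv0 : 0 < ‖v‖ := norm_pos_iff.2 hv
    have h3 : ‖(δ / ‖v‖) • v‖ ≤ δ := by
      rw [norm_smul, Real.norm_of_nonneg (by positivity), div_mul_cancel₀ _ hv0.ne']
    have h4 := (h2 _ h3).2
    rw [map_smul, map_smul, ContinuousLinearMap.smul_apply, smul_eq_mul, smul_eq_mul, abs_mul,
      abs_mul, abs_of_nonneg (by positivity : 0 ≤ δ / ‖v‖)] at h4
    have h5 : δ / ‖v‖ * (δ / ‖v‖ * |c v v|) = |c v v| * δ ^ 2 / ‖v‖ ^ 2 := by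
      field_simp
    rw [h5, div_le_iff₀ (by positivity)] at h4
    rw [div_mul_eq_mul_div, le_div_iff₀ (by positivity)]
    linarith

theorem quad_coeff {a : ℝ} {b : E →L[ℝ] ℝ} {c : E →L[ℝ] E →L[ℝ] ℝ} (hc : ∀ v w, c v w = c w v) {M δ : ℝ} (hδ : 0 < δ)
    (h : ∀ v : E, ‖v‖ ≤ δ → |a + b v + c v v| ≤ M) : |a| ≤ M ∧ ‖b‖ ≤ M / δ ∧ ‖c‖ ≤ 4 * M / δ ^ 2 := by
  obtain ⟨ha, hb, hcc⟩ := quad_diag_h12 hδ h
  have hM : 0 ≤ M := (abs_nonneg a).trans ha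
  refine ⟨ha, ContinuousLinearMap.opNorm_le_bound _ (by positivity) fun v => ?_,
    ContinuousLinearMap.opNorm_le_bound₂ _ (by positivity) fun v w => ?_⟩
  · rw [Real.norm_eq_abs]
    exact hb v
  rw [Real.norm_eq_abs]
  by_cases hv : v = 0
  · simp [hv]
  by_cases hw : w = 0
  · simp [hw]
  have hv0 : 0 < ‖v‖ := norm_pos_iff.2 hv
  have hw0 : 0 < ‖w‖ := norm_pos_iff.2 hw
  obtain ⟨v', hv'⟩ : ∃ v' : E, v' = ‖v‖⁻¹ • v := ⟨_, rfl⟩
  obtain ⟨w', hw'⟩ : ∃ w' : E, w' = ‖w‖⁻¹ • w := ⟨_, rfl⟩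
  have hnv : ‖v'‖ = 1 := by
    rw [hv', norm_smul, norm_inv, norm_norm, inv_mul_cancel₀ hv0.ne']
  have hnw : ‖w'‖ = 1 := by
    rw [hw', norm_smul, norm_inv, norm_norm, inv_mul_cancel₀ hw0.ne']
  have h1 : c v w = ‖v‖ * ‖w‖ * c v' w' := by
    rw [hv', hw', map_smul, map_smul, ContinuousLinearMap.smul_apply, smul_eq_mul, smul_eq_mul]
    field_simp
  have h2 : 4 * c v' w' = c (v' + w') (v' + w') - c (v' - w') (v' - w') := by
    simp only [map_add, map_sub, ContinuousLinearMap.add_apply, ContinuousLinearMap.sub_apply]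
    rw [hc w' v']
    ring
  have h3 : ‖v' + w'‖ ≤ 2 := (norm_add_le _ _).trans (by rw [hnv, hnw]; norm_num)
  have h4 : ‖v' - w'‖ ≤ 2 := (norm_sub_le _ _).trans (by rw [hnv, hnw]; norm_num)
  have h5 : ‖v' + w'‖ ^ 2 ≤ 4 := by nlinarith [norm_nonneg (v' + w')]
  have h6 : ‖v' - w'‖ ^ 2 ≤ 4 := by nlinarith [norm_nonneg (v' - w')]
  have hK : 0 ≤ 2 * M / δ ^ 2 := by positivity
  have h7 := (hcc (v' + w')).trans (mul_le_mul_of_nonneg_left h5 hK)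
  have h8 := (hcc (v' - w')).trans (mul_le_mul_of_nonneg_left h6 hK)
  have h9 : |c v' w'| ≤ 4 * M / δ ^ 2 := by
    have h10 : |4 * c v' w'| ≤ 2 * M / δ ^ 2 * 4 + 2 * M / δ ^ 2 * 4 := by
      rw [h2]
      exact (abs_sub _ _).trans (add_le_add h7 h8)
    rw [abs_mul, abs_of_pos (by norm_num : (0 : ℝ) < 4)] at h10
    have h11 : 2 * M / δ ^ 2 * 4 + 2 * M / δ ^ 2 * 4 = 4 * (4 * M / δ ^ 2) := by ring
    rw [h11] at h10
    linarith
  rw [h1, abs_mul, abs_of_pos (by positivity : 0 < ‖v‖ * ‖w‖)]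
  calc ‖v‖ * ‖w‖ * |c v' w'| ≤ ‖v‖ * ‖w‖ * (4 * M / δ ^ 2) :=
        mul_le_mul_of_nonneg_left h9 (by positivity)
    _ = 4 * M / δ ^ 2 * ‖v‖ * ‖w‖ := by ring

theorem quad_limit {δ s : ℝ} (hδ : 0 < δ) (hδ1 : δ < 1) (hs : 0 < s) : ∃ C : ℝ, 0 ≤ C ∧
    ∀ (w : E → ℝ) (K : ℝ) (a : ℕ → ℝ) (b : ℕ → E →L[ℝ] ℝ) (c : ℕ → E →L[ℝ] E →L[ℝ] ℝ), 0 ≤ K → (∀ j v w, c j v w = c j w v) →
      a 0 = 0 → b 0 = 0 → c 0 = 0 →
      (∀ (j : ℕ) (v : E), ‖v‖ ≤ δ ^ j → |w v - (a j + b j v + c j v v)| ≤ K * (δ ^ j) ^ (2 + s)) →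
      ∃ (a' : ℝ) (b' : E →L[ℝ] ℝ) (c' : E →L[ℝ] E →L[ℝ] ℝ), |a'| ≤ C * K ∧ ‖b'‖ ≤ C * K ∧ ‖c'‖ ≤ C * K ∧
        (∀ v w, c' v w = c' w v) ∧ ∀ v : E, ‖v‖ ≤ 1 → |w v - (a' + b' v + c' v v)| ≤ C * K * ‖v‖ ^ (2 + s) := by
  have hθ0 : 0 < δ ^ s := Real.rpow_pos_of_pos hδ s
  have hθ1 : δ ^ s < 1 := Real.rpow_lt_one hδ.le hδ1 hs
  obtain ⟨θ, hθ⟩ : ∃ θ : ℝ, θ = δ ^ s := ⟨_, rfl⟩
  rw [← hθ] at hθ0 hθ1
  have e2 : ∀ j : ℕ, (δ ^ j) ^ (2 + s) = (δ ^ 2 * θ) ^ j := by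
    intro j
    rw [← Real.rpow_natCast δ j, ← Real.rpow_mul hδ.le, mul_comm, Real.rpow_mul hδ.le,
      Real.rpow_natCast, Real.rpow_add hδ, ← hθ]
    congr 2
    exact_mod_cast Real.rpow_natCast δ 2
  have h1θ : δ * θ < 1 := by nlinarith
  have h2θ : δ ^ 2 * θ < 1 := by nlinarith
  have hd0 : 0 < 1 - θ := by linarith
  have hd1 : 0 < 1 - δ * θ := by linarith
  have hd2 : 0 < 1 - δ ^ 2 * θ := by linarith
  obtain ⟨C0, hC0⟩ : ∃ C0 : ℝ, C0 = 1 + 2 / (1 - δ ^ 2 * θ) + 2 / δ / (1 - δ * θ) +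
    8 / δ ^ 2 / (1 - θ) := ⟨_, rfl⟩
  have p2 : 0 ≤ 2 / (1 - δ ^ 2 * θ) := by positivity
  have p1 : 0 ≤ 2 / δ / (1 - δ * θ) := by positivity
  have p0 : 0 ≤ 8 / δ ^ 2 / (1 - θ) := by positivity
  have hC0pos : 1 ≤ C0 := by rw [hC0]; linarith
  obtain ⟨D, hD⟩ : ∃ D : ℝ, D = (δ⁻¹) ^ (2 + s) := ⟨_, rfl⟩
  have hD1 : 1 ≤ D := by
    rw [hD]
    exact Real.one_le_rpow ((one_le_inv₀ hδ).2 hδ1.le) (by linarith)
  refine ⟨C0 * D, by positivity, fun w K a b c hK hc a0 b0 c0 hw => ?_⟩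
  have hstep : ∀ j : ℕ, |a (j + 1) - a j| ≤ 2 * K * (δ ^ 2 * θ) ^ j ∧
      ‖b (j + 1) - b j‖ ≤ 2 * K / δ * (δ * θ) ^ j ∧
      ‖c (j + 1) - c j‖ ≤ 8 * K / δ ^ 2 * θ ^ j := by
    intro j
    have h1 := quad_coeff (a := a (j + 1) - a j) (b := b (j + 1) - b j) (c := c (j + 1) - c j)
      (fun v w => by
        simp only [ContinuousLinearMap.sub_apply]
        rw [hc (j + 1) v w, hc j v w]) (M := 2 * K * (δ ^ 2 * θ) ^ j) (δ := δ ^ (j + 1))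
      (by positivity) (fun v hv => by
        have hv' : ‖v‖ ≤ δ ^ j := hv.trans (pow_le_pow_of_le_one hδ.le hδ1.le (Nat.le_succ j))
        have h2 := hw (j + 1) v hv
        have h3 := hw j v hv'
        rw [e2] at h2 h3
        have h4 : K * (δ ^ 2 * θ) ^ (j + 1) ≤ K * (δ ^ 2 * θ) ^ j :=
          mul_le_mul_of_nonneg_left (pow_le_pow_of_le_one (by positivity) h2θ.le (Nat.le_succ j)) hK
        have h2' := abs_le.1 (h2.trans h4)
        have h3' := abs_le.1 h3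
        simp only [ContinuousLinearMap.sub_apply]
        rw [abs_le]
        constructor <;> linarith [h2'.1, h2'.2, h3'.1, h3'.2])
    refine ⟨h1.1, h1.2.1.trans (le_of_eq ?_), h1.2.2.trans (le_of_eq ?_)⟩
    · rw [pow_succ δ j, mul_pow, mul_pow, ← pow_mul]
      field_simp
      ring
    · rw [pow_succ δ j, mul_pow, ← pow_mul]
      field_simp
      ring
  have ha1 : ∀ j, dist (a j) (a (j + 1)) ≤ 2 * K * (δ ^ 2 * θ) ^ j := fun j => by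
    rw [dist_comm, Real.dist_eq]
    exact (hstep j).1
  have hb1 : ∀ j, dist (b j) (b (j + 1)) ≤ 2 * K / δ * (δ * θ) ^ j := fun j => by
    rw [dist_comm, dist_eq_norm]
    exact (hstep j).2.1
  have hc1 : ∀ j, dist (c j) (c (j + 1)) ≤ 8 * K / δ ^ 2 * θ ^ j := fun j => by
    rw [dist_comm]
    exact (dist_eq_norm (c (j + 1)) (c j)).trans_le (hstep j).2.2
  obtain ⟨a', ha'⟩ := cauchySeq_tendsto_of_complete (cauchySeq_of_le_geometric _ _ h2θ ha1)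
  obtain ⟨b', hb'⟩ := cauchySeq_tendsto_of_complete (cauchySeq_of_le_geometric _ _ h1θ hb1)
  obtain ⟨c', hc'⟩ := cauchySeq_tendsto_of_complete (cauchySeq_of_le_geometric _ _ hθ1 hc1)
  have ha2 : ∀ j, |a j - a'| ≤ 2 / (1 - δ ^ 2 * θ) * K * (δ ^ 2 * θ) ^ j := fun j => by
    have h1 := dist_le_of_le_geometric_of_tendsto _ _ h2θ ha1 ha' j
    rw [Real.dist_eq] at h1
    exact h1.trans (le_of_eq (by ring))
  have hb2 : ∀ j, ‖b j - b'‖ ≤ 2 / δ / (1 - δ * θ) * K * (δ * θ) ^ j := fun j => by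
    have h1 := dist_le_of_le_geometric_of_tendsto _ _ h1θ hb1 hb' j
    rw [dist_eq_norm] at h1
    exact h1.trans (le_of_eq (by ring))
  have hc2 : ∀ j, ‖c j - c'‖ ≤ 8 / δ ^ 2 / (1 - θ) * K * θ ^ j := fun j => by
    have h1 := dist_le_of_le_geometric_of_tendsto _ _ hθ1 hc1 hc' j
    exact ((dist_eq_norm (c j) c').symm.trans_le h1).trans (le_of_eq (by ring))
  have hCK : C0 * K ≤ C0 * D * K := by
    have : C0 * K * 1 ≤ C0 * K * D := mul_le_mul_of_nonneg_left hD1 (by positivity)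
    linarith
  have hball : ∀ (j : ℕ) (v : E), ‖v‖ ≤ δ ^ j →
      |w v - (a' + b' v + c' v v)| ≤ C0 * K * (δ ^ 2 * θ) ^ j := by
    intro j v hv
    have h1 := hw j v hv
    rw [e2] at h1
    have h2 := ha2 j
    have h3 : |(b j - b') v| ≤ 2 / δ / (1 - δ * θ) * K * (δ ^ 2 * θ) ^ j := by
      calc |(b j - b') v| ≤ ‖b j - b'‖ * ‖v‖ := (b j - b').le_opNorm v
        _ ≤ (2 / δ / (1 - δ * θ) * K * (δ * θ) ^ j) * δ ^ j :=
          mul_le_mul (hb2 j) hv (norm_nonneg _) (by positivity)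
        _ = 2 / δ / (1 - δ * θ) * K * (δ ^ 2 * θ) ^ j := by
          rw [mul_pow, mul_pow, ← pow_mul]
          ring
    have h4 : |(c j - c') v v| ≤ 8 / δ ^ 2 / (1 - θ) * K * (δ ^ 2 * θ) ^ j := by
      calc |(c j - c') v v| ≤ ‖c j - c'‖ * ‖v‖ * ‖v‖ := (c j - c').le_opNorm₂ v v
        _ ≤ (8 / δ ^ 2 / (1 - θ) * K * θ ^ j) * δ ^ j * δ ^ j :=
          mul_le_mul (mul_le_mul (hc2 j) hv (norm_nonneg _) (by positivity)) hv (norm_nonneg _)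
            (by positivity)
        _ = 8 / δ ^ 2 / (1 - θ) * K * (δ ^ 2 * θ) ^ j := by
          rw [mul_pow, ← pow_mul]
          ring
    have h5 : C0 * K * (δ ^ 2 * θ) ^ j = K * (δ ^ 2 * θ) ^ j +
        2 / (1 - δ ^ 2 * θ) * K * (δ ^ 2 * θ) ^ j +
        2 / δ / (1 - δ * θ) * K * (δ ^ 2 * θ) ^ j +
        8 / δ ^ 2 / (1 - θ) * K * (δ ^ 2 * θ) ^ j := by
      rw [hC0]
      ring
    rw [h5]
    simp only [ContinuousLinearMap.sub_apply] at h3 h4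
    have h1' := abs_le.1 h1
    have h2' := abs_le.1 h2
    have h3' := abs_le.1 h3
    have h4' := abs_le.1 h4
    rw [abs_le]
    constructor <;> linarith [h1'.1, h1'.2, h2'.1, h2'.2, h3'.1, h3'.2, h4'.1, h4'.2]
  have hsym : ∀ v w, c' v w = c' w v := by
    intro v u
    have h1 : Filter.Tendsto (fun j => c j v u) Filter.atTop (nhds (c' v u)) :=
      (((ContinuousLinearMap.apply ℝ ℝ u).continuous.tendsto _).comp
        (((ContinuousLinearMap.apply ℝ (E →L[ℝ] ℝ) v).continuous.tendsto _).comp hc'))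
    have h2 : Filter.Tendsto (fun j => c j u v) Filter.atTop (nhds (c' u v)) :=
      (((ContinuousLinearMap.apply ℝ ℝ v).continuous.tendsto _).comp
        (((ContinuousLinearMap.apply ℝ (E →L[ℝ] ℝ) u).continuous.tendsto _).comp hc'))
    refine tendsto_nhds_unique h1 ?_
    simpa only [hc _ v u] using h2
  refine ⟨a', b', c', ?_, ?_, ?_, hsym, fun v hv => ?_⟩
  · have h1 := ha2 0
    rw [a0, zero_sub, abs_neg, pow_zero, mul_one] at h1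
    refine (h1.trans ?_).trans hCK
    apply mul_le_mul_of_nonneg_right _ hK
    rw [hC0]
    linarith
  · have h1 := hb2 0
    rw [b0, zero_sub, norm_neg, pow_zero, mul_one] at h1
    refine (h1.trans ?_).trans hCK
    apply mul_le_mul_of_nonneg_right _ hK
    rw [hC0]
    linarith
  · have h1 := hc2 0
    have h10 : ‖c'‖ ≤ 8 / δ ^ 2 / (1 - θ) * K := by
      have h11 : c 0 - c' = -c' := by rw [c0]; exact zero_sub c'
      have h12 : ‖c 0 - c'‖ = ‖c'‖ := (congrArg norm h11).trans (norm_neg c')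
      rw [pow_zero, mul_one] at h1
      exact h12.symm.trans_le h1
    refine (h10.trans ?_).trans hCK
    apply mul_le_mul_of_nonneg_right _ hK
    rw [hC0]
    linarith
  · by_cases hv0 : v = 0
    · have h2s : (2 + s) ≠ 0 := by linarith
      rw [hv0, norm_zero, Real.zero_rpow h2s, mul_zero]
      have h1 : Filter.Tendsto (fun j : ℕ => C0 * K * (δ ^ 2 * θ) ^ j) Filter.atTop (nhds 0) := by
        have h2 := (tendsto_pow_atTop_nhds_zero_of_lt_one (by positivity) h2θ).const_mul (C0 * K)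
        simpa using h2
      exact ge_of_tendsto' h1 fun j => hball j 0 (by rw [norm_zero]; positivity)
    · have hvp : 0 < ‖v‖ := norm_pos_iff.2 hv0
      obtain ⟨j, hj1, hj2⟩ := exists_nat_pow_near_of_lt_one hvp hv hδ hδ1
      have h1 := hball j v hj2
      have h2 : (δ ^ 2 * θ) ^ j ≤ D * ‖v‖ ^ (2 + s) := by
        rw [← e2, hD, ← Real.mul_rpow (by positivity) (by positivity)]
        apply Real.rpow_le_rpow (by positivity) _ (by linarith)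
        rw [pow_succ] at hj1
        rw [inv_mul_eq_div, le_div_iff₀ hδ]
        exact hj1.le
      calc |w v - (a' + b' v + c' v v)| ≤ C0 * K * (δ ^ 2 * θ) ^ j := h1
        _ ≤ C0 * K * (D * ‖v‖ ^ (2 + s)) := mul_le_mul_of_nonneg_left h2 (by positivity)
        _ = C0 * D * K * ‖v‖ ^ (2 + s) := by ring

end Pool.Agent.Helper87.RG
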