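import Pool.Agent.Helper87.RG.D0
import Pool.Agent.Helper87.RG.D4

/-!
# Project REG, block D5: the converse of Taylor's theorem (order two)

`CR_two_of_quad`. PROOF. For `x1 ∈ ball x0 r` let `a, b, c` be the given coefficients (`a(x1)`, `b(x1)`, `c(x1)` by choice). `v = 0`: `a(x1) = w x1` (the right side is `0` as `0^(2+s) = 0`). `|w(x1+v) - w x1 - b(x1) v| ≤ ‖c‖ ‖v‖² + C ‖v‖^(2+s)`: `w` is differentiable at `x1` with derivative `b(x1)` (`HasFDerivAt`, little o). So `fderiv w = b` on the ball.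
Let `x1, x2 ∈ ball x0 (r/4)`, `δ = ‖x2 - x1‖ > 0` (so `2δ ≤ r`). For `‖v‖ ≤ δ`: `w(x2 + v) = a1 + b1 (x2 - x1 + v) + c1 (x2-x1+v) (x2-x1+v) + O(C (2δ)^(2+s))` and `= a2 + b2 v + c2 v v + O(C δ^(2+s))`. The difference is a quadratic polynomial in `v` with the linear part `b1 + 2 c1 (x2 - x1) - b2` and the quadratic part `c1 - c2`, bounded by `C(2^(2+s)+1) δ^(2+s)` for `‖v‖ ≤ δ`. `quad_coeff`: `‖b2 - b1 - 2 c1 (x2 - x1)‖ ≤ C' δ^(1+s)`, `‖c2 - c1‖ ≤ C' δ^s`.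
So `b = fderiv w` is differentiable at `x1` with derivative `2 c(x1)`, in particular for every `v` the function `x ↦ fderiv w x v` is differentiable with the derivative `u ↦ 2 c(x) u v`, and `x ↦ 2 c(x) u v` is Hölder: `CR s U 2 w`. (Only balls around points of `U` are used: `LHol` with the radius `r/4`.)
-/

set_option autoImplicit false

open Set Metric

namespace Pool.Agent.Helper87.RG

variable {E : Type} [NormedAddCommGroup E] [NormedSpace ℝ E]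

private theorem hasFDerivAt_of_bound {F : Type} [NormedAddCommGroup F] [NormedSpace ℝ F] {f : E → F}
    {L : E →L[ℝ] F} {x : E} {r K t : ℝ} (hr : 0 < r) (ht : 0 < t)
    (h : ∀ v : E, ‖v‖ ≤ r → ‖f (x + v) - f x - L v‖ ≤ K * ‖v‖ ^ (1 + t)) : HasFDerivAt f L x := by
  rw [hasFDerivAt_iff_isLittleO_nhds_zero, Asymptotics.isLittleO_iff]
  intro c hc
  have h1 : ∀ᶠ v : E in nhds 0, ‖v‖ < r := by
    have := Metric.ball_mem_nhds (0 : E) hr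
    filter_upwards [this] with v hv
    simpa using hv
  have hcont : Continuous fun v : E => K * ‖v‖ ^ t :=
    continuous_const.mul (continuous_norm.rpow_const fun _ => Or.inr ht.le)
  have h2 : ∀ᶠ v : E in nhds 0, K * ‖v‖ ^ t < c := by
    have h3 : Filter.Tendsto (fun v : E => K * ‖v‖ ^ t) (nhds 0) (nhds (K * ‖(0 : E)‖ ^ t)) :=
      hcont.tendsto 0
    rw [norm_zero, Real.zero_rpow ht.ne', mul_zero] at h3
    exact h3.eventually (gt_mem_nhds hc)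
  filter_upwards [h1, h2] with v hv1 hv2
  refine (h v hv1.le).trans ?_
  rw [Real.rpow_add_of_nonneg (norm_nonneg v) zero_le_one ht.le, Real.rpow_one]
  calc K * (‖v‖ * ‖v‖ ^ t) = (K * ‖v‖ ^ t) * ‖v‖ := by ring
    _ ≤ c * ‖v‖ := mul_le_mul_of_nonneg_right hv2.le (norm_nonneg v)

private theorem zero_coeff {s : ℝ} (hs : 0 < s) {w : E → ℝ} {x1 : E} {r C a : ℝ} {b : E →L[ℝ] ℝ}
    {c : E →L[ℝ] E →L[ℝ] ℝ} (hr : 0 < r)
    (h : ∀ v : E, ‖v‖ ≤ r → |w (x1 + v) - (a + b v + c v v)| ≤ C * ‖v‖ ^ (2 + s)) : a = w x1 := by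
  have h0 := h 0 (by rw [norm_zero]; exact hr.le)
  rw [norm_zero, Real.zero_rpow (by positivity), mul_zero] at h0
  have := abs_nonpos_iff.mp h0
  simp only [add_zero, map_zero] at this
  linarith

private theorem first_deriv {s : ℝ} (hs : 0 < s) {w : E → ℝ} {x1 : E} {r C a : ℝ} {b : E →L[ℝ] ℝ}
    {c : E →L[ℝ] E →L[ℝ] ℝ} (hr : 0 < r) (hC : 0 ≤ C)
    (h : ∀ v : E, ‖v‖ ≤ r → |w (x1 + v) - (a + b v + c v v)| ≤ C * ‖v‖ ^ (2 + s)) :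
    HasFDerivAt w b x1 := by
  have ha := zero_coeff hs hr h
  refine hasFDerivAt_of_bound (r := r) (K := C * r ^ s + ‖c‖) (t := 1) hr one_pos ?_
  intro v hv
  have h1 := h v hv
  have h2 : |c v v| ≤ ‖c‖ * ‖v‖ * ‖v‖ := by
    simpa using c.le_opNorm₂ v v
  have h3 : ‖v‖ ^ (2 + s) = ‖v‖ ^ s * ‖v‖ ^ (1 + 1 : ℝ) := by
    rw [Real.rpow_add_of_nonneg (norm_nonneg v) (by norm_num) hs.le, mul_comm]
    norm_num
  have h4 : ‖v‖ ^ (1 + 1 : ℝ) = ‖v‖ * ‖v‖ := by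
    rw [show (1 + 1 : ℝ) = ((2 : ℕ) : ℝ) by norm_num, Real.rpow_natCast, sq]
  have h5 : ‖v‖ ^ s ≤ r ^ s := Real.rpow_le_rpow (norm_nonneg v) hv hs.le
  rw [Real.norm_eq_abs]
  have h6 : w (x1 + v) - w x1 - b v = (w (x1 + v) - (a + b v + c v v)) + c v v := by
    rw [ha]; ring
  rw [h6]
  refine (abs_add_le _ _).trans ?_
  have h7 : C * ‖v‖ ^ (2 + s) ≤ C * r ^ s * ‖v‖ ^ (1 + 1 : ℝ) := by
    rw [h3, ← mul_assoc]
    refine mul_le_mul_of_nonneg_right (mul_le_mul_of_nonneg_left h5 hC) (by positivity)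
  have h8 : ‖c‖ * ‖v‖ * ‖v‖ = ‖c‖ * ‖v‖ ^ (1 + 1 : ℝ) := by rw [h4]; ring
  calc |w (x1 + v) - (a + b v + c v v)| + |c v v| ≤ C * ‖v‖ ^ (2 + s) + ‖c‖ * ‖v‖ * ‖v‖ := add_le_add h1 h2
    _ ≤ C * r ^ s * ‖v‖ ^ (1 + 1 : ℝ) + ‖c‖ * ‖v‖ ^ (1 + 1 : ℝ) := by rw [h8]; exact add_le_add h7 le_rfl
    _ = (C * r ^ s + ‖c‖) * ‖v‖ ^ (1 + 1 : ℝ) := by ring

private theorem compare {s : ℝ} (hs : 0 < s) {w : E → ℝ} {x1 x2 : E} {r C a1 a2 : ℝ} {b1 b2 : E →L[ℝ] ℝ}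
    {c1 c2 : E →L[ℝ] E →L[ℝ] ℝ} (hC : 0 ≤ C) (hne : 0 < ‖x2 - x1‖) (hle : 2 * ‖x2 - x1‖ ≤ r)
    (hs1 : ∀ v v', c1 v v' = c1 v' v) (hs2 : ∀ v v', c2 v v' = c2 v' v)
    (h1 : ∀ v : E, ‖v‖ ≤ r → |w (x1 + v) - (a1 + b1 v + c1 v v)| ≤ C * ‖v‖ ^ (2 + s))
    (h2 : ∀ v : E, ‖v‖ ≤ r → |w (x2 + v) - (a2 + b2 v + c2 v v)| ≤ C * ‖v‖ ^ (2 + s)) :
    ‖b2 - b1 - (2 : ℝ) • c1 (x2 - x1)‖ ≤ 4 * C * (2 ^ (2 + s) + 1) * ‖x2 - x1‖ ^ (1 + s) ∧
      ‖c2 - c1‖ ≤ 4 * C * (2 ^ (2 + s) + 1) * ‖x2 - x1‖ ^ s := by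
  set δ := ‖x2 - x1‖ with hδ
  set e := x2 - x1 with he
  have hq : ∀ v : E, ‖v‖ ≤ δ →
      |(a1 + b1 e + c1 e e - a2) + (b1 + (2 : ℝ) • c1 e - b2) v + (c1 - c2) v v|
        ≤ C * (2 ^ (2 + s) + 1) * δ ^ (2 + s) := by
    intro v hv
    have hev : ‖e + v‖ ≤ 2 * δ := by
      refine (norm_add_le _ _).trans ?_
      linarith
    have h3 := h1 (e + v) (hev.trans hle)
    have h4 := h2 v (by linarith)
    have hx : x1 + (e + v) = x2 + v := by rw [he]; abel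
    rw [hx] at h3
    have h5 : ‖e + v‖ ^ (2 + s) ≤ 2 ^ (2 + s) * δ ^ (2 + s) := by
      rw [← Real.mul_rpow (by norm_num) hne.le]
      exact Real.rpow_le_rpow (norm_nonneg _) hev (by positivity)
    have h6 : ‖v‖ ^ (2 + s) ≤ δ ^ (2 + s) := Real.rpow_le_rpow (norm_nonneg _) hv (by positivity)
    have h7 : (a1 + b1 e + c1 e e - a2) + (b1 + (2 : ℝ) • c1 e - b2) v + (c1 - c2) v v
        = (w (x2 + v) - (a2 + b2 v + c2 v v)) - (w (x2 + v) - (a1 + b1 (e + v) + c1 (e + v) (e + v))) := by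
      simp only [map_add, ContinuousLinearMap.add_apply, ContinuousLinearMap.sub_apply,
        ContinuousLinearMap.smul_apply, smul_eq_mul]
      rw [hs1 v e]
      ring
    rw [h7]
    refine (abs_sub _ _).trans ?_
    calc |w (x2 + v) - (a2 + b2 v + c2 v v)| + |w (x2 + v) - (a1 + b1 (e + v) + c1 (e + v) (e + v))|
        ≤ C * ‖v‖ ^ (2 + s) + C * ‖e + v‖ ^ (2 + s) := add_le_add h4 h3
      _ ≤ C * δ ^ (2 + s) + C * (2 ^ (2 + s) * δ ^ (2 + s)) :=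
        add_le_add (mul_le_mul_of_nonneg_left h6 hC) (mul_le_mul_of_nonneg_left h5 hC)
      _ = C * (2 ^ (2 + s) + 1) * δ ^ (2 + s) := by ring
  have hsym : ∀ v w, (c1 - c2) v w = (c1 - c2) w v := by
    intro v w
    simp only [ContinuousLinearMap.sub_apply]
    rw [hs1 v w, hs2 v w]
  obtain ⟨-, hb, hc⟩ := quad_coeff hsym hne hq
  have hδ1 : δ ^ (2 + s) / δ = δ ^ (1 + s) := by
    rw [show (2 + s : ℝ) = (1 + s) + 1 by ring, Real.rpow_add_one hne.ne', mul_div_assoc,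
      div_self hne.ne', mul_one]
  have hδ2 : δ ^ (2 + s) / δ ^ 2 = δ ^ s := by
    rw [show (2 + s : ℝ) = s + (2 : ℕ) by push_cast; ring, Real.rpow_add_natCast hne.ne', mul_div_assoc,
      div_self (pow_ne_zero 2 hne.ne'), mul_one]
  have hp : 0 ≤ C * (2 ^ (2 + s) + 1) * δ ^ (1 + s) := by positivity
  constructor
  · have h8 : b2 - b1 - (2 : ℝ) • c1 e = -(b1 + (2 : ℝ) • c1 e - b2) := by abel
    rw [h8, norm_neg]
    refine hb.trans ?_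
    rw [mul_div_assoc, hδ1]
    linarith
  · have h9 : ‖c2 - c1‖ = ‖c1 - c2‖ := norm_sub_rev c2 c1
    rw [h9]
    refine hc.trans ?_
    rw [show 4 * (C * (2 ^ (2 + s) + 1) * δ ^ (2 + s)) / δ ^ 2
      = 4 * C * (2 ^ (2 + s) + 1) * (δ ^ (2 + s) / δ ^ 2) by ring, hδ2]

private theorem norm_self_sub_self (c : E →L[ℝ] E →L[ℝ] ℝ) : ‖c - c‖ = 0 := by
  have h : c - c = 0 := by ext; simp
  rw [h]
  exact ContinuousLinearMap.opNorm_zero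

/-- the local data -/
private theorem localData {s : ℝ} (hs : 0 < s) {U : Set E} (hU : IsOpen U) {w : E → ℝ}
    (h : ∀ x0 ∈ U, ∃ r C : ℝ, 0 < r ∧ ∀ x1 ∈ ball x0 r, ∃ (a : ℝ) (b : E →L[ℝ] ℝ) (c : E →L[ℝ] E →L[ℝ] ℝ),
      ‖c‖ ≤ C ∧ (∀ v v', c v v' = c v' v) ∧ ∀ v : E, ‖v‖ ≤ r → |w (x1 + v) - (a + b v + c v v)| ≤ C * ‖v‖ ^ (2 + s))
    {x0 : E} (hx0 : x0 ∈ U) :
    ∃ (ρ C : ℝ) (c : E → E →L[ℝ] E →L[ℝ] ℝ), 0 < ρ ∧ 0 ≤ C ∧ ball x0 ρ ⊆ U ∧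
      (∀ x1 ∈ ball x0 ρ, DifferentiableAt ℝ w x1 ∧
        ∀ v : E, HasFDerivAt (fun x => fderiv ℝ w x v) ((2 : ℝ) • (c x1).flip v) x1) ∧
      ∀ x1 ∈ ball x0 ρ, ∀ x2 ∈ ball x0 ρ, ‖c x1 - c x2‖ ≤ C * ‖x1 - x2‖ ^ s := by
  classical
  obtain ⟨r, C, hr, hx⟩ := h x0 hx0
  obtain ⟨ρ0, hρ0, hsub⟩ := Metric.isOpen_iff.mp hU x0 hx0
  choose a b c hc1 hc2 hc3 using hx
  have hC : 0 ≤ C := le_trans (norm_nonneg (c x0 (mem_ball_self hr))) (hc1 x0 (mem_ball_self hr))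
  set ρ := min ρ0 (r / 4) with hρ
  have hρpos : 0 < ρ := lt_min hρ0 (by positivity)
  have hρr : ρ ≤ r / 4 := min_le_right _ _
  have hin : ∀ x ∈ ball x0 ρ, x ∈ ball x0 r := fun x hx =>
    ball_subset_ball (hρr.trans (by linarith)) hx
  let B : E → E →L[ℝ] ℝ := fun x => if hx : x ∈ ball x0 r then b x hx else 0
  let D : E → E →L[ℝ] E →L[ℝ] ℝ := fun x => if hx : x ∈ ball x0 r then c x hx else 0
  have hBe : ∀ x (hx : x ∈ ball x0 r), B x = b x hx := fun x hx => dif_pos hx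
  have hDe : ∀ x (hx : x ∈ ball x0 r), D x = c x hx := fun x hx => dif_pos hx
  have hder : ∀ x ∈ ball x0 ρ, HasFDerivAt w (B x) x := by
    intro x hx
    rw [hBe x (hin x hx)]
    exact first_deriv hs hr hC (hc3 x (hin x hx))
  have hcmp : ∀ x1 ∈ ball x0 ρ, ∀ x2 ∈ ball x0 ρ, x1 ≠ x2 →
      ‖B x2 - B x1 - (2 : ℝ) • D x1 (x2 - x1)‖ ≤ 4 * C * (2 ^ (2 + s) + 1) * ‖x2 - x1‖ ^ (1 + s) ∧
      ‖D x2 - D x1‖ ≤ 4 * C * (2 ^ (2 + s) + 1) * ‖x2 - x1‖ ^ s := by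
    intro x1 hx1 x2 hx2 hne
    rw [hBe x1 (hin x1 hx1), hBe x2 (hin x2 hx2), hDe x1 (hin x1 hx1), hDe x2 (hin x2 hx2)]
    have hd : ‖x2 - x1‖ ≤ 2 * ρ := by
      rw [← dist_eq_norm]
      refine (dist_triangle x2 x0 x1).trans ?_
      have h1 := mem_ball.mp hx2
      have h2 := mem_ball'.mp hx1
      linarith
    exact compare hs hC (norm_pos_iff.mpr (sub_ne_zero.mpr hne.symm)) (by linarith)
      (hc2 x1 (hin x1 hx1)) (hc2 x2 (hin x2 hx2)) (hc3 x1 (hin x1 hx1)) (hc3 x2 (hin x2 hx2))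
  refine ⟨ρ, 4 * C * (2 ^ (2 + s) + 1), D, hρpos, by positivity,
    (ball_subset_ball (min_le_left _ _)).trans hsub, ?_, ?_⟩
  · intro x1 hx1
    refine ⟨(hder x1 hx1).differentiableAt, fun v => ?_⟩
    obtain ⟨η, hη, hηsub⟩ := Metric.isOpen_iff.mp isOpen_ball x1 hx1
    have hev : (fun x => fderiv ℝ w x v) =ᶠ[nhds x1] fun x => B x v := by
      filter_upwards [isOpen_ball.mem_nhds hx1] with x hx
      rw [(hder x hx).fderiv]
    refine HasFDerivAt.congr_of_eventuallyEq ?_ hev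
    refine hasFDerivAt_of_bound (r := η / 2) (K := 4 * C * (2 ^ (2 + s) + 1) * ‖v‖) (t := s)
      (by positivity) hs ?_
    intro y hy
    by_cases hy0 : y = 0
    · subst hy0
      simp only [add_zero, sub_self, map_zero, norm_zero]
      positivity
    have hmem : x1 + y ∈ ball x0 ρ := by
      apply hηsub
      rw [mem_ball, dist_eq_norm, add_sub_cancel_left]
      linarith
    have hne : x1 ≠ x1 + y := fun h => hy0 (by simpa using h.symm)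
    have h1 := (hcmp x1 hx1 (x1 + y) hmem hne).1
    rw [add_sub_cancel_left] at h1
    have h2 : B (x1 + y) v - B x1 v - ((2 : ℝ) • (D x1).flip v) y
        = (B (x1 + y) - B x1 - (2 : ℝ) • D x1 y) v := by
      simp only [ContinuousLinearMap.sub_apply, ContinuousLinearMap.smul_apply,
        ContinuousLinearMap.flip_apply]
    rw [h2]
    refine (ContinuousLinearMap.le_opNorm _ _).trans ?_
    calc ‖B (x1 + y) - B x1 - (2 : ℝ) • D x1 y‖ * ‖v‖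
        ≤ 4 * C * (2 ^ (2 + s) + 1) * ‖y‖ ^ (1 + s) * ‖v‖ := mul_le_mul_of_nonneg_right h1 (norm_nonneg v)
      _ = 4 * C * (2 ^ (2 + s) + 1) * ‖v‖ * ‖y‖ ^ (1 + s) := by ring
  · intro x1 hx1 x2 hx2
    by_cases hne : x2 = x1
    · subst hne
      have h0 : ‖D x2 - D x2‖ = 0 := norm_self_sub_self (D x2)
      rw [h0]
      positivity
    · exact (hcmp x2 hx2 x1 hx1 hne).2

theorem CR_two_of_quad {s : ℝ} (hs : 0 < s) {U : Set E} (hU : IsOpen U) {w : E → ℝ}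
    (h : ∀ x0 ∈ U, ∃ r C : ℝ, 0 < r ∧ ∀ x1 ∈ ball x0 r, ∃ (a : ℝ) (b : E →L[ℝ] ℝ) (c : E →L[ℝ] E →L[ℝ] ℝ),
      ‖c‖ ≤ C ∧ (∀ v v', c v v' = c v' v) ∧ ∀ v : E, ‖v‖ ≤ r → |w (x1 + v) - (a + b v + c v v)| ≤ C * ‖v‖ ^ (2 + s)) :
    CR s U 2 w := by
  refine ⟨fun x hx => ?_, fun v => ⟨fun x hx => ?_, fun u x hx => ?_⟩⟩
  · obtain ⟨ρ, C, c, hρ, -, -, h1, -⟩ := localData hs hU h hx
    exact (h1 x (mem_ball_self hρ)).1.differentiableWithinAt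
  · obtain ⟨ρ, C, c, hρ, -, -, h1, -⟩ := localData hs hU h hx
    exact ((h1 x (mem_ball_self hρ)).2 v).differentiableAt.differentiableWithinAt
  · obtain ⟨ρ, C, c, hρ, hC, hsub, h1, h2⟩ := localData hs hU h hx
    refine ⟨ρ, 2 * C * ‖u‖ * ‖v‖, hρ, hsub, fun y hy z hz => ?_⟩
    show |(fderiv ℝ (fun x => (fderiv ℝ w x) v) y) u - (fderiv ℝ (fun x => (fderiv ℝ w x) v) z) u| ≤ _
    rw [((h1 y hy).2 v).fderiv, ((h1 z hz).2 v).fderiv]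
    have h3 : ((2 : ℝ) • (c y).flip v) u - ((2 : ℝ) • (c z).flip v) u = 2 * ((c y - c z) u v) := by
      simp only [ContinuousLinearMap.smul_apply, ContinuousLinearMap.flip_apply,
        ContinuousLinearMap.sub_apply, smul_eq_mul]
      ring
    rw [h3, abs_mul, abs_two]
    have h4 : |(c y - c z) u v| ≤ ‖c y - c z‖ * ‖u‖ * ‖v‖ := by
      simpa using (c y - c z).le_opNorm₂ u v
    calc 2 * |(c y - c z) u v| ≤ 2 * (‖c y - c z‖ * ‖u‖ * ‖v‖) := by linarith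
      _ ≤ 2 * ((C * ‖y - z‖ ^ s) * ‖u‖ * ‖v‖) := by
        have := h2 y hy z hz
        gcongr
      _ = 2 * C * ‖u‖ * ‖v‖ * ‖y - z‖ ^ s := by ring

end Pool.Agent.Helper87.RG
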