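import Pool.Agent.Helper87.RG.D3
import Pool.Agent.Helper87.RG.D4

/-!
# Project REG, block D6: Campanato's theorem for the means, unit scale (the pointwise Schauder estimate)

`campanato_unit`. PROOF. `C3` the constant of `mean_quad`. `ε = 1/(2N)`. Choose `δ ∈ (0, 1)` with `δ ≤ ε/N`-ish (`δ ≤ 1/(2 N²)`, so that `N δ ≤ ε`, and `δ ≤ ε`) and `C3 (N/ε)³ δ^(1-s) ≤ 1/2`; `K' = max 1 (2 (2 + ...)δ^(-2-s)) K`, precisely `K' ≥ K` and `K ε^(2+s) ≤ K ≤ K' δ^(2+s)/2`; take `K' = 2 δ^(-2-s) K`.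
CLAIM: there are quadratic polynomials `q_j = (a_j, b_j, c_j)` (symmetric `c_j`), `q_0 = 0`, with `|w v - q_j v| ≤ K' (δ^j)^(2+s)` for `‖v‖ ≤ δ^j`. `j = 0`: `|w| ≤ K ≤ K'`. STEP. Let `τ = δ^j`, `w_j = w - q_j`, `t = ε τ ≤ 1/(2N)`, `T = t A`. `‖T η‖ ≤ t N ‖η‖ ≤ τ` for `‖η‖ ≤ 2`, so `|w_j(Tη)| ≤ K' τ^(2+s) =: m`. `mean_quad` for `w_j`: there is a quadratic polynomial `q` with `|M T w_j v - q v| ≤ C3 m (N‖v‖/t)³ ≤ C3 m (N δ/ε)³` for `‖v‖ ≤ δ τ` (`N δ τ ≤ t`).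
On the other hand `M T w_j v - w_j v = (M T w v - w v) - (M T q_j v - q_j v)`, and `M T q_j v - q_j v = ∫ ρ(η) (b_j (Tη) + 2 c_j v (Tη) + c_j (Tη)(Tη)) dη = ∫ ρ(η) c_j (Tη)(Tη) dη =: κ` does not depend on `v` (`ρ` is even, `∫ ρ = 1`). So `|M T w_j v - w_j v - (t² c0 - κ)| ≤ K t^(2+s)` for `‖v‖ ≤ t`.
Hence for `‖v‖ ≤ δ τ` (`≤ t`): `|w_j v - (q v - (t² c0 - κ))| ≤ C3 (Nδ/ε)³ K' τ^(2+s) + K t^(2+s) ≤ (1/2) δ^(2+s) K' τ^(2+s) + K τ^(2+s) ≤ K' (δ τ)^(2+s)`. Put `q_(j+1) = q_j + q - (t² c0 - κ)`. Construct the sequence by `exists_seq`-type recursion (e.g. `Nat.rec` on a subtype). `quad_limit` finishes (`K` replaced by `K'`).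
(`M T (w - q_j) = M T w - M T q_j`: integrability of `ρ(η) w(v + Tη)`: bounded for `‖v + Tη‖ ≤ 1`, measurable.)
-/

set_option autoImplicit false

namespace Pool.Agent.Helper87.RG

open MeasureTheory Set Filter Topology Metric
open Helper29.AM

private theorem int_h27 {n : ℕ} {g : V n → ℝ} (hg : Continuous g) : Integrable fun η : V n => rho η * g η :=
  (rho_contDiff.continuous.mul hg).integrable_of_hasCompactSupport rho_hasCompactSupport.mul_right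

private theorem M_quad_h27 {n : ℕ} (T : Lin n) (a : ℝ) (b : V n →L[ℝ] ℝ) (c : V n →L[ℝ] V n →L[ℝ] ℝ)
    (hc : ∀ v w, c v w = c w v) (v : V n) :
    M T (fun x => a + b x + c x x) v = (a + b v + c v v) + ∫ η : V n, rho η * c (T η) (T η) := by
  have hT : Continuous fun η : V n => T η := T.continuous
  have i1 : Integrable fun η : V n => rho η * (a + b v + c v v) := rho_integrable.mul_const _
  have i2 : Integrable fun η : V n => rho η * (b (T η) + 2 * c v (T η)) :=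
    int_h27 ((b.continuous.comp hT).add (continuous_const.mul ((c v).continuous.comp hT)))
  have i3 : Integrable fun η : V n => rho η * c (T η) (T η) :=
    int_h27 ((c.continuous.comp hT).clm_apply hT)
  have h0 : ∫ η : V n, rho η * (b (T η) + 2 * c v (T η)) = 0 := by
    have h1 : ∫ η : V n, rho (-η) * (b (T (-η)) + 2 * c v (T (-η))) =
        ∫ η : V n, rho η * (b (T η) + 2 * c v (T η)) :=
      integral_neg_eq_self (fun η : V n => rho η * (b (T η) + 2 * c v (T η))) volume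
    have h2 : ∀ η : V n, rho (-η) * (b (T (-η)) + 2 * c v (T (-η))) =
        -(rho η * (b (T η) + 2 * c v (T η))) := by
      intro η
      rw [rho_congr (norm_neg η)]
      simp only [map_neg]
      ring
    simp only [h2] at h1
    rw [integral_neg] at h1
    linarith
  have h3 : M T (fun x => a + b x + c x x) v = ∫ η : V n, ((rho η * (a + b v + c v v) +
      rho η * (b (T η) + 2 * c v (T η))) + rho η * c (T η) (T η)) := by
    unfold M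
    refine integral_congr_ae (Eventually.of_forall fun η => ?_)
    simp only [map_add, add_apply]
    rw [hc (T η) v]
    ring
  have k1 : ∫ η : V n, ((rho η * (a + b v + c v v) + rho η * (b (T η) + 2 * c v (T η))) + rho η * c (T η) (T η)) =
      (∫ η : V n, (rho η * (a + b v + c v v) + rho η * (b (T η) + 2 * c v (T η)))) +
        ∫ η : V n, rho η * c (T η) (T η) := integral_add (i1.add i2) i3
  have k2 : ∫ η : V n, (rho η * (a + b v + c v v) + rho η * (b (T η) + 2 * c v (T η))) =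
      (∫ η : V n, rho η * (a + b v + c v v)) + ∫ η : V n, rho η * (b (T η) + 2 * c v (T η)) := integral_add i1 i2
  rw [h3, k1, k2, h0, add_zero, integral_mul_const, integral_rho, one_mul]

private theorem step_h27 {n : ℕ} {C3 s N δ ε K K' c0 : ℝ} (hC3 : 0 ≤ C3)
    (hmq : ∀ (A : Lin n) (N t m : ℝ) (w : V n → ℝ), A.det ≠ 0 → 0 < N → (∀ v, ‖v‖ ≤ N * ‖A v‖) →
    0 < t → Measurable w → (∀ η : V n, ‖η‖ ≤ 2 → |w (((t : ℂ) • A) η)| ≤ m) →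
    ∃ (a : ℝ) (b : V n →L[ℝ] ℝ) (c : V n →L[ℝ] V n →L[ℝ] ℝ), (∀ v v', c v v' = c v' v) ∧
      ∀ v : V n, N * ‖v‖ ≤ t → |M ((t : ℂ) • A) w v - (a + b v + c v v)| ≤ C3 * m * (N * ‖v‖ / t) ^ 3)
    (hs : 0 < s) (hN : 1 ≤ N) (hε : ε = 1 / (2 * N))
    (hδ0 : 0 < δ) (hδ : δ ≤ 1 / (2 * N ^ 2)) (hδ3 : C3 * (N / ε) ^ 3 * δ ^ (3 : ℕ) ≤ 1 / 2 * δ ^ (2 + s))
    (hK : 0 ≤ K) (hKK : K = K' * δ ^ (2 + s) / 2)
    (A : Lin n) (w : V n → ℝ) (hA : A.det ≠ 0) (hAN : ‖A‖ ≤ N) (hAi : ∀ v, ‖v‖ ≤ N * ‖A v‖) (hw : Measurable w)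
    (hwK : ∀ x : V n, ‖x‖ ≤ 1 → |w x| ≤ K)
    (hM : ∀ t : ℝ, 0 < t → t ≤ 1 / (2 * N) → ∀ x : V n, ‖x‖ ≤ t → |M ((t : ℂ) • A) w x - w x - t ^ 2 * c0| ≤ K * t ^ (2 + s))
    (j : ℕ) (a : ℝ) (b : V n →L[ℝ] ℝ) (c : V n →L[ℝ] V n →L[ℝ] ℝ) (hc : ∀ v w, c v w = c w v)
    (hj : ∀ v : V n, ‖v‖ ≤ δ ^ j → |w v - (a + b v + c v v)| ≤ K' * (δ ^ j) ^ (2 + s)) :
    ∃ (a' : ℝ) (b' : V n →L[ℝ] ℝ) (c' : V n →L[ℝ] V n →L[ℝ] ℝ), (∀ v w, c' v w = c' w v) ∧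
      ∀ v : V n, ‖v‖ ≤ δ ^ (j + 1) → |w v - (a' + b' v + c' v v)| ≤ K' * (δ ^ (j + 1)) ^ (2 + s) := by
  have hN0 : 0 < N := by linarith
  have hε0 : 0 < ε := by rw [hε]; positivity
  have hεN : ε * N = 1 / 2 := by rw [hε]; field_simp
  have hδN : N * δ ≤ ε := by
    have h1 : N * δ ≤ N * (1 / (2 * N ^ 2)) := mul_le_mul_of_nonneg_left hδ hN0.le
    have h2 : N * (1 / (2 * N ^ 2)) = ε := by rw [hε]; field_simp
    linarith
  have hδε : δ ≤ ε := by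
    have h1 : 1 * δ ≤ N * δ := mul_le_mul_of_nonneg_right hN hδ0.le
    linarith
  have hε2 : ε ≤ 1 / 2 := by
    have h1 : ε * 1 ≤ ε * N := mul_le_mul_of_nonneg_left hN hε0.le
    linarith
  have hδ1 : δ ≤ 1 / 2 := by linarith
  obtain ⟨τ, hτ⟩ : ∃ τ : ℝ, τ = δ ^ j := ⟨_, rfl⟩
  have hτ0 : 0 < τ := by rw [hτ]; positivity
  have hτ1 : τ ≤ 1 := by rw [hτ]; exact pow_le_one₀ hδ0.le (by linarith)
  obtain ⟨t, ht⟩ : ∃ t : ℝ, t = ε * τ := ⟨_, rfl⟩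
  have ht0 : 0 < t := by rw [ht]; positivity
  have htε : t ≤ 1 / (2 * N) := by
    rw [← hε, ht]
    exact mul_le_of_le_one_right hε0.le hτ1
  have htτ : t ≤ τ := by
    rw [ht]
    exact mul_le_of_le_one_left hτ0.le (by linarith)
  obtain ⟨T, hT⟩ : ∃ T : Lin n, T = (t : ℂ) • A := ⟨_, rfl⟩
  have hTn : ∀ η : V n, ‖T η‖ ≤ τ / 2 * ‖η‖ := by
    intro η
    have h1 : T η = (t : ℂ) • A η := by rw [hT]; rfl
    rw [h1, norm_smul, Complex.norm_real, Real.norm_of_nonneg ht0.le]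
    have h2 : ‖A η‖ ≤ N * ‖η‖ := (A.le_opNorm η).trans (mul_le_mul_of_nonneg_right hAN (norm_nonneg _))
    calc t * ‖A η‖ ≤ t * (N * ‖η‖) := mul_le_mul_of_nonneg_left h2 ht0.le
      _ = (ε * N) * τ * ‖η‖ := by rw [ht]; ring
      _ = τ / 2 * ‖η‖ := by rw [hεN]; ring
  have hqc : Continuous fun x : V n => a + b x + c x x :=
    (continuous_const.add b.continuous).add (c.continuous.clm_apply continuous_id)
  have hm0 : 0 ≤ K' * τ ^ (2 + s) := by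
    have h1 := hj 0 (by rw [norm_zero]; positivity)
    rw [← hτ] at h1
    exact (abs_nonneg _).trans h1
  obtain ⟨a1, b1, c1, hc1, hq⟩ := hmq A N t (K' * τ ^ (2 + s)) (fun v => w v - (a + b v + c v v)) hA hN0 hAi ht0
    (hw.sub hqc.measurable) (fun η hη => by
      rw [← hT]
      have h1 := hj (T η) (by
        rw [← hτ]
        calc ‖T η‖ ≤ τ / 2 * ‖η‖ := hTn η
          _ ≤ τ / 2 * 2 := mul_le_mul_of_nonneg_left hη (by positivity)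
          _ = τ := by ring)
      rw [← hτ] at h1
      exact h1)
  rw [← hT] at hq
  obtain ⟨κ, hκ⟩ : ∃ κ : ℝ, κ = ∫ η : V n, rho η * c (T η) (T η) := ⟨_, rfl⟩
  refine ⟨a + a1 - (t ^ 2 * c0 - κ), b + b1, c + c1, fun v u => ?_, fun v hv => ?_⟩
  · simp only [add_apply]
    rw [hc v u, hc1 v u]
  have hv1 : ‖v‖ ≤ δ * τ := by
    rw [hτ, mul_comm]
    rw [pow_succ] at hv
    exact hv
  have hvt : ‖v‖ ≤ t := by
    rw [ht]
    exact hv1.trans (mul_le_mul_of_nonneg_right hδε hτ0.le)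
  have hNv : N * ‖v‖ ≤ N * δ * τ := by
    rw [mul_assoc]
    exact mul_le_mul_of_nonneg_left hv1 hN0.le
  have hNvt : N * ‖v‖ ≤ t := by
    rw [ht]
    exact hNv.trans (mul_le_mul_of_nonneg_right hδN hτ0.le)
  have e1 := hq v hNvt
  have e2 := hM t ht0 htε v hvt
  rw [← hT] at e2
  have e3 : M T (fun v => w v - (a + b v + c v v)) v = M T w v - ((a + b v + c v v) + κ) := by
    rw [hκ, ← M_quad_h27 T a b c hc v]
    unfold M
    rw [← integral_sub ?_ ?_]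
    · refine integral_congr_ae (Eventually.of_forall fun η => ?_)
      show rho η * (w (v + T η) - _) = _ - _
      ring
    · refine Integrable.mono' (rho_integrable.mul_const K)
        (rho_contDiff.continuous.aestronglyMeasurable.mul
          (hw.comp (measurable_const.add T.continuous.measurable)).aestronglyMeasurable)
        (Eventually.of_forall fun η => ?_)
      rw [norm_mul, Real.norm_of_nonneg (rho_nonneg η), Real.norm_eq_abs]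
      by_cases h : ‖η‖ ≤ 1
      · refine mul_le_mul_of_nonneg_left (hwK _ ?_) (rho_nonneg η)
        have h2 : τ / 2 * ‖η‖ ≤ τ / 2 * 1 := mul_le_mul_of_nonneg_left h (by positivity)
        have h3 : δ * τ ≤ 1 / 2 * τ := mul_le_mul_of_nonneg_right hδ1 hτ0.le
        have h4 := norm_add_le v (T η)
        have h5 := hTn η
        linarith
      · rw [rho_eq_zero (not_le.1 h).le, zero_mul, zero_mul]
    · exact int_h27 (hqc.comp (continuous_const.add T.continuous))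
  rw [e3] at e1
  have e4 : C3 * (K' * τ ^ (2 + s)) * (N * ‖v‖ / t) ^ 3 ≤ 1 / 2 * δ ^ (2 + s) * (K' * τ ^ (2 + s)) := by
    have h1 : N * ‖v‖ / t ≤ N / ε * δ := by
      rw [div_le_iff₀ ht0, ht]
      have h2 : N / ε * δ * (ε * τ) = N * δ * τ := by field_simp
      rw [h2]
      exact hNv
    have h2 : (N * ‖v‖ / t) ^ 3 ≤ (N / ε * δ) ^ 3 := pow_le_pow_left₀ (by positivity) h1 3
    calc C3 * (K' * τ ^ (2 + s)) * (N * ‖v‖ / t) ^ 3 ≤ C3 * (K' * τ ^ (2 + s)) * (N / ε * δ) ^ 3 :=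
          mul_le_mul_of_nonneg_left h2 (mul_nonneg hC3 hm0)
      _ = (C3 * (N / ε) ^ 3 * δ ^ (3 : ℕ)) * (K' * τ ^ (2 + s)) := by ring
      _ ≤ (1 / 2 * δ ^ (2 + s)) * (K' * τ ^ (2 + s)) := mul_le_mul_of_nonneg_right hδ3 hm0
  have e5 : K * t ^ (2 + s) ≤ 1 / 2 * δ ^ (2 + s) * (K' * τ ^ (2 + s)) := by
    calc K * t ^ (2 + s) ≤ K * τ ^ (2 + s) :=
          mul_le_mul_of_nonneg_left (Real.rpow_le_rpow ht0.le htτ (by linarith)) hK
      _ = 1 / 2 * δ ^ (2 + s) * (K' * τ ^ (2 + s)) := by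
          rw [hKK]
          ring
  have e6 : K' * (δ ^ (j + 1)) ^ (2 + s) = δ ^ (2 + s) * (K' * τ ^ (2 + s)) := by
    rw [pow_succ, ← hτ, Real.mul_rpow hτ0.le hδ0.le]
    ring
  rw [e6]
  have f1 := abs_le.1 e1
  have f2 := abs_le.1 e2
  simp only [add_apply]
  rw [abs_le]
  constructor <;> linarith [f1.1, f1.2, f2.1, f2.2]

theorem campanato_unit (n : ℕ) {s N : ℝ} (hs : 0 < s) (hs1 : s < 1) (hN : 1 ≤ N) : ∃ C : ℝ, 0 ≤ C ∧
    ∀ (A : Lin n) (w : V n → ℝ) (K c0 : ℝ), A.det ≠ 0 → ‖A‖ ≤ N → (∀ v, ‖v‖ ≤ N * ‖A v‖) → Measurable w →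
      (∀ x : V n, ‖x‖ ≤ 1 → |w x| ≤ K) →
      (∀ t : ℝ, 0 < t → t ≤ 1 / (2 * N) → ∀ x : V n, ‖x‖ ≤ t → |M ((t : ℂ) • A) w x - w x - t ^ 2 * c0| ≤ K * t ^ (2 + s)) →
      ∃ (a : ℝ) (b : V n →L[ℝ] ℝ) (c : V n →L[ℝ] V n →L[ℝ] ℝ), |a| ≤ C * K ∧ ‖b‖ ≤ C * K ∧ ‖c‖ ≤ C * K ∧
        (∀ v w, c v w = c w v) ∧ ∀ v : V n, ‖v‖ ≤ 1 → |w v - (a + b v + c v v)| ≤ C * K * ‖v‖ ^ (2 + s) := by
  obtain ⟨C3, hC3, hmq⟩ := mean_quad n
  have hN0 : 0 < N := by linarith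
  obtain ⟨ε, hε⟩ : ∃ ε : ℝ, ε = 1 / (2 * N) := ⟨_, rfl⟩
  have hε0 : 0 < ε := by rw [hε]; positivity
  obtain ⟨D, hD⟩ : ∃ D : ℝ, D = C3 * (N / ε) ^ 3 := ⟨_, rfl⟩
  have hD0 : 0 ≤ D := by rw [hD]; positivity
  obtain ⟨δ0, hδ0⟩ : ∃ δ0 : ℝ, δ0 = (1 / (2 * (D + 1))) ^ (1 / (1 - s)) := ⟨_, rfl⟩
  have hs2 : 0 < 1 - s := by linarith
  have hδ0p : 0 < δ0 := by rw [hδ0]; positivity
  have hδ0s : δ0 ^ (1 - s) = 1 / (2 * (D + 1)) := by
    rw [hδ0, ← Real.rpow_mul (by positivity), one_div_mul_cancel hs2.ne', Real.rpow_one]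
  obtain ⟨δ, hδ⟩ : ∃ δ : ℝ, δ = min δ0 (1 / (2 * N ^ 2)) := ⟨_, rfl⟩
  have hδp : 0 < δ := by rw [hδ]; exact lt_min hδ0p (by positivity)
  have hδN : δ ≤ 1 / (2 * N ^ 2) := by rw [hδ]; exact min_le_right _ _
  have hδl : δ ≤ δ0 := by rw [hδ]; exact min_le_left _ _
  have hδ1 : δ < 1 := by
    refine lt_of_le_of_lt hδN ?_
    rw [div_lt_one (by positivity)]
    nlinarith
  have hδs : D * δ ^ (1 - s) ≤ 1 / 2 := by
    have h1 : δ ^ (1 - s) ≤ δ0 ^ (1 - s) := Real.rpow_le_rpow hδp.le hδl hs2.le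
    rw [hδ0s] at h1
    calc D * δ ^ (1 - s) ≤ D * (1 / (2 * (D + 1))) := mul_le_mul_of_nonneg_left h1 hD0
      _ ≤ 1 / 2 := by
        rw [mul_one_div, div_le_div_iff₀ (by positivity) (by norm_num)]
        linarith
  have hδ3 : C3 * (N / ε) ^ 3 * δ ^ (3 : ℕ) ≤ 1 / 2 * δ ^ (2 + s) := by
    have h1 : δ ^ (3 : ℕ) = δ ^ (1 - s) * δ ^ (2 + s) := by
      rw [← Real.rpow_add hδp, ← Real.rpow_natCast]
      congr 1
      push_cast
      ring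
    rw [← hD, h1, ← mul_assoc]
    exact mul_le_mul_of_nonneg_right hδs (by positivity)
  obtain ⟨Cq, hCq, hlim⟩ := quad_limit (E := V n) hδp hδ1 hs
  obtain ⟨p, hp⟩ : ∃ p : ℝ, p = δ ^ (2 + s) := ⟨_, rfl⟩
  have hp0 : 0 < p := by rw [hp]; positivity
  have hp1 : p ≤ 1 := by rw [hp]; exact Real.rpow_le_one hδp.le hδ1.le (by linarith)
  refine ⟨Cq * (2 / p), by positivity, ?_⟩
  intro A w K c0 hA hAN hAi hw hwK hM
  have hK : 0 ≤ K := (abs_nonneg _).trans (hwK 0 (by rw [norm_zero]; norm_num))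
  obtain ⟨K', hK'⟩ : ∃ K' : ℝ, K' = 2 / p * K := ⟨_, rfl⟩
  have hK'0 : 0 ≤ K' := by rw [hK']; positivity
  have hKK : K = K' * δ ^ (2 + s) / 2 := by
    rw [← hp, hK']
    field_simp
  have hKle : K ≤ K' := by
    have h1 : 1 ≤ 2 / p := by
      rw [one_le_div hp0]
      linarith
    rw [hK']
    exact le_mul_of_one_le_left hK h1
  let Q : Type := ℝ × (V n →L[ℝ] ℝ) × (V n →L[ℝ] V n →L[ℝ] ℝ)
  let P : ℕ → Q → Prop := fun j q => (∀ v w, q.2.2 v w = q.2.2 w v) ∧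
    ∀ v : V n, ‖v‖ ≤ δ ^ j → |w v - (q.1 + q.2.1 v + q.2.2 v v)| ≤ K' * (δ ^ j) ^ (2 + s)
  have h0 : P 0 (0, 0, 0) := by
    refine ⟨fun v w => rfl, fun v hv => ?_⟩
    rw [pow_zero] at hv ⊢
    rw [Real.one_rpow, mul_one]
    have h1 : (0 : ℝ) + (0 : V n →L[ℝ] ℝ) v + (0 : V n →L[ℝ] V n →L[ℝ] ℝ) v v = 0 := by simp
    show |w v - ((0 : ℝ) + (0 : V n →L[ℝ] ℝ) v + (0 : V n →L[ℝ] V n →L[ℝ] ℝ) v v)| ≤ K'
    rw [h1, sub_zero]
    exact (hwK v hv).trans hKle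
  have hstep : ∀ j (q : Q), P j q → ∃ q' : Q, P (j + 1) q' := by
    intro j q hq
    obtain ⟨a', b', c', h1, h2⟩ := step_h27 hC3 hmq hs hN hε hδp hδN hδ3 hK hKK A w hA hAN hAi hw hwK hM j
      q.1 q.2.1 q.2.2 hq.1 hq.2
    exact ⟨(a', b', c'), h1, h2⟩
  choose g hg using hstep
  let f : ∀ j : ℕ, {q : Q // P j q} := fun j =>
    Nat.rec (motive := fun j => {q : Q // P j q}) ⟨(0, 0, 0), h0⟩ (fun j q => ⟨g j q.1 q.2, hg j q.1 q.2⟩) j
  obtain ⟨a', b', c', ha, hb, hc, hsym, hfin⟩ := hlim w K' (fun j => (f j).1.1) (fun j => (f j).1.2.1)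
    (fun j => (f j).1.2.2) hK'0 (fun j => (f j).2.1) rfl rfl rfl (fun j => (f j).2.2)
  have hCK : Cq * (2 / p) * K = Cq * K' := by rw [hK']; ring
  rw [hCK]
  exact ⟨a', b', c', ha, hb, hc, hsym, hfin⟩

end Pool.Agent.Helper87.RG
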