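import Pool.Agent.Helper87.RG.D5
import Pool.Agent.Helper87.RG.D6

/-!
# Project REG, block D7: local Schauder theorem in terms of means

`CR_two_of_mean`. PROOF. By `CR_two_of_quad`. Let `x0 ∈ U`, `r, C, N` as in the hypothesis; we may assume `N ≥ 1`, `C ≥ 0`. Choose `ρ ∈ (0, 1]` with `2ρ ≤ r` and `closedBall x0 (2ρ) ⊆ U`, and `m` a bound for `|w|` on this compact ball. Let `x1 ∈ ball x0 ρ`, `A, c0` as in the hypothesis, `w' y = w(x1 + ρ y)` for `‖y‖ ≤ 1` and `0` otherwise: measurable (`w` is continuous on the closed ball around `x1`), `|w'| ≤ m`.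
For `0 < t ≤ 1/(2N)`, `‖y‖ ≤ t`: `‖y + tAη‖ ≤ t + tN ≤ 1` for `‖η‖ ≤ 1`, so `M (tA) w' y = M ((ρt)A) w (x1 + ρ y)` (the integrands agree where `ρ(η) ≠ 0`; `x1 + ρ(y + tAη) = (x1 + ρ y) + (ρt)Aη`), so `|M (tA) w' y - w' y - t² (ρ² c0)| ≤ C (ρt)^(2+s) ≤ C t^(2+s)`. `campanato_unit` with `K = max m C` gives `a, b, c`; `b' = ρ⁻¹ b`, `c' = ρ⁻² c`: `|w(x1 + v) - (a + b' v + c' v v)| ≤ C1 K ρ^(-2-s) ‖v‖^(2+s)` for `‖v‖ ≤ ρ`. The constant does not depend on `x1`.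
-/

set_option autoImplicit false

namespace Pool.Agent.Helper87.RG

open MeasureTheory Set Filter Topology Metric
open Helper29.AM

/-- the rescaled function -/
private noncomputable def resc56 {n : ℕ} (w : V n → ℝ) (x1 : V n) (ρ : ℝ) : V n → ℝ :=
  (closedBall (0 : V n) 1).indicator (fun y => w (x1 + ρ • y))

private theorem resc56_eq {n : ℕ} (w : V n → ℝ) (x1 : V n) (ρ : ℝ) {y : V n} (hy : ‖y‖ ≤ 1) :
    resc56 w x1 ρ y = w (x1 + ρ • y) := by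
  unfold resc56
  rw [Set.indicator_of_mem]
  rwa [mem_closedBall_zero_iff]

private theorem resc56_meas {n : ℕ} {w : V n → ℝ} {x1 : V n} {ρ : ℝ}
    (h : ContinuousOn (fun y : V n => w (x1 + ρ • y)) (closedBall (0 : V n) 1)) :
    Measurable (resc56 w x1 ρ) := by
  classical
  unfold resc56
  rw [← Set.piecewise_eq_indicator]
  exact h.measurable_piecewise continuousOn_const isClosed_closedBall.measurableSet

private theorem smul56 {n : ℕ} (A : Lin n) (x1 y η : V n) (ρ t : ℝ) :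
    x1 + ρ • y + (((ρ * t : ℝ) : ℂ) • A) η = x1 + ρ • (y + ((t : ℂ) • A) η) := by
  ext i
  simp only [PiLp.add_apply, PiLp.smul_apply, ContinuousLinearMap.smul_apply, smul_eq_mul, Complex.real_smul,
    Complex.ofReal_mul]
  ring

private theorem M56 {n : ℕ} (A : Lin n) (w : V n → ℝ) (x1 y : V n) (ρ : ℝ) {t N : ℝ} (ht : 0 < t) (hN : 1 ≤ N)
    (htN : t ≤ 1 / (2 * N)) (hA : ‖A‖ ≤ N) (hy : ‖y‖ ≤ t) :
    M ((t : ℂ) • A) (resc56 w x1 ρ) y = M (((ρ * t : ℝ) : ℂ) • A) w (x1 + ρ • y) := by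
  unfold M
  refine integral_congr_ae (Filter.Eventually.of_forall fun η => ?_)
  show rho η * resc56 w x1 ρ (y + ((t : ℂ) • A) η) = rho η * w (x1 + ρ • y + (((ρ * t : ℝ) : ℂ) • A) η)
  by_cases hη : 1 ≤ ‖η‖
  · rw [rho_eq_zero hη, zero_mul, zero_mul]
  · push Not at hη
    have h1 : ‖((t : ℂ) • A) η‖ ≤ t * N := by
      rw [ContinuousLinearMap.smul_apply, norm_smul, Complex.norm_real, Real.norm_eq_abs, abs_of_pos ht]
      refine mul_le_mul_of_nonneg_left ?_ ht.le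
      calc ‖A η‖ ≤ ‖A‖ * ‖η‖ := A.le_opNorm η
        _ ≤ N * 1 := mul_le_mul hA hη.le (norm_nonneg _) (by linarith)
        _ = N := mul_one N
    have h2 : t * N ≤ 1 / 2 := by
      rw [le_div_iff₀ (by positivity)] at htN
      linarith
    have h3 : t ≤ t * N := le_mul_of_one_le_right ht.le hN
    have h4 : ‖y + ((t : ℂ) • A) η‖ ≤ 1 := by
      refine (norm_add_le _ _).trans ?_
      linarith
    rw [resc56_eq w x1 ρ h4, smul56]

private theorem scale56 {E : Type} [NormedAddCommGroup E] [NormedSpace ℝ E] (a : ℝ) (b : E →L[ℝ] ℝ)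
    (c : E →L[ℝ] E →L[ℝ] ℝ) (r : ℝ) (v : E) :
    a + (r • b) v + ((r * r) • c) v v = a + b (r • v) + c (r • v) (r • v) := by
  simp only [ContinuousLinearMap.smul_apply, map_smul, smul_eq_mul]
  ring

private theorem scale_norm56 {E : Type} [NormedAddCommGroup E] [NormedSpace ℝ E]
    (c : E →L[ℝ] E →L[ℝ] ℝ) {r : ℝ} (hr : 0 < r) : ‖(r * r) • c‖ ≤ r * r * ‖c‖ := by
  refine ContinuousLinearMap.opNorm_le_bound₂ _ (by positivity) fun x y => ?_
  simp only [ContinuousLinearMap.smul_apply, smul_eq_mul, norm_mul]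
  rw [Real.norm_eq_abs r, abs_of_pos hr]
  have h2 := c.le_opNorm₂ x y
  calc r * r * ‖c x y‖ ≤ r * r * (‖c‖ * ‖x‖ * ‖y‖) := mul_le_mul_of_nonneg_left h2 (by positivity)
    _ = r * r * ‖c‖ * ‖x‖ * ‖y‖ := by ring

private theorem scale_symm56 {E : Type} [NormedAddCommGroup E] [NormedSpace ℝ E]
    {c : E →L[ℝ] E →L[ℝ] ℝ} (h : ∀ v w, c v w = c w v) (r : ℝ) (v w : E) :
    ((r * r) • c) v w = ((r * r) • c) w v := by
  simp only [ContinuousLinearMap.smul_apply]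
  rw [h]

theorem CR_two_of_mean {n : ℕ} {s : ℝ} (hs : 0 < s) (hs1 : s < 1) {U : Set (V n)} (hU : IsOpen U) {w : V n → ℝ}
    (hw : ContinuousOn w U)
    (h : ∀ x0 ∈ U, ∃ r C N : ℝ, 0 < r ∧ ∀ x1 ∈ ball x0 r, ∃ (A : Lin n) (c0 : ℝ), A.det ≠ 0 ∧ ‖A‖ ≤ N ∧
      (∀ v, ‖v‖ ≤ N * ‖A v‖) ∧ ∀ t : ℝ, 0 < t → t ≤ r → ∀ x : V n, ‖x - x1‖ ≤ t →
        |M ((t : ℂ) • A) w x - w x - t ^ 2 * c0| ≤ C * t ^ (2 + s)) : CR s U 2 w := by
  refine CR_two_of_quad hs hU fun x0 hx0 => ?_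
  obtain ⟨r, C, N, hr, hx⟩ := h x0 hx0
  obtain ⟨ρ0, hρ0, hsub⟩ := Metric.isOpen_iff.mp hU x0 hx0
  obtain ⟨N', hN', hNN⟩ : ∃ N' : ℝ, 1 ≤ N' ∧ N ≤ N' := ⟨max N 1, le_max_right _ _, le_max_left _ _⟩
  obtain ⟨C', hC', hCC⟩ : ∃ C' : ℝ, 0 ≤ C' ∧ C ≤ C' := ⟨max C 0, le_max_right _ _, le_max_left _ _⟩
  obtain ⟨ρ, hρ, hρ1, hρr, hρU⟩ : ∃ ρ : ℝ, 0 < ρ ∧ ρ ≤ 1 ∧ ρ ≤ r ∧ 2 * ρ < ρ0 := by
    refine ⟨min (min 1 r) (ρ0 / 4), lt_min (lt_min one_pos hr) (by positivity),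
      (min_le_left _ _).trans (min_le_left _ _), (min_le_left _ _).trans (min_le_right _ _), ?_⟩
    have := min_le_right (min 1 r) (ρ0 / 4)
    linarith
  have hK : closedBall x0 (2 * ρ) ⊆ U := (closedBall_subset_ball hρU).trans hsub
  obtain ⟨m, hm⟩ := (isCompact_closedBall x0 (2 * ρ)).exists_bound_of_continuousOn (hw.mono hK)
  obtain ⟨C1, hC1, hcam⟩ := campanato_unit n hs hs1 hN'
  have hK0 : 0 ≤ max m C' := hC'.trans (le_max_right _ _)
  refine ⟨ρ, max (ρ⁻¹ * ρ⁻¹ * (C1 * max m C')) (C1 * max m C' * ρ⁻¹ ^ (2 + s)), hρ, fun x1 hx1 => ?_⟩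
  obtain ⟨A, c0, hdet, hA, hA', hM⟩ := hx x1 (ball_subset_ball hρr hx1)
  have hin : ∀ y : V n, ‖y‖ ≤ 1 → x1 + ρ • y ∈ closedBall x0 (2 * ρ) := by
    intro y hy
    rw [mem_closedBall]
    refine (dist_triangle _ x1 _).trans ?_
    have h1 : dist (x1 + ρ • y) x1 ≤ ρ := by
      rw [dist_eq_norm, add_sub_cancel_left, norm_smul, Real.norm_eq_abs, abs_of_pos hρ]
      exact mul_le_of_le_one_right hρ.le hy
    have h2 := mem_ball.mp hx1
    linarith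
  have hmeas : Measurable (resc56 w x1 ρ) := by
    refine resc56_meas ?_
    have hc1 : Continuous (fun y : V n => x1 + ρ • y) := continuous_const.add (continuous_id.const_smul ρ)
    exact (hw.mono hK).comp hc1.continuousOn (fun y hy => hin y (mem_closedBall_zero_iff.mp hy))
  obtain ⟨a, b, c, -, -, hc, hsym, hv⟩ := hcam A (resc56 w x1 ρ) (max m C') (ρ ^ 2 * c0) hdet (hA.trans hNN)
    (fun v => (hA' v).trans (mul_le_mul_of_nonneg_right hNN (norm_nonneg _))) hmeas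
    (fun y hy => by
      rw [resc56_eq w x1 ρ hy]
      exact (hm _ (hin y hy)).trans (le_max_left _ _))
    (fun t ht htN y hy => by
      have ht1 : t ≤ 1 := by
        refine htN.trans ?_
        rw [div_le_one (by positivity)]
        linarith
      rw [M56 A w x1 y ρ ht hN' htN (hA.trans hNN) hy, resc56_eq w x1 ρ (hy.trans ht1)]
      have h1 := hM (ρ * t) (mul_pos hρ ht) ((mul_le_of_le_one_right hρ.le ht1).trans hρr) (x1 + ρ • y) (by
        rw [add_sub_cancel_left, norm_smul, Real.norm_eq_abs, abs_of_pos hρ]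
        exact mul_le_mul_of_nonneg_left hy hρ.le)
      have h2 : (ρ * t) ^ 2 * c0 = t ^ 2 * (ρ ^ 2 * c0) := by ring
      rw [h2] at h1
      refine h1.trans ?_
      have h3 : (ρ * t) ^ (2 + s) ≤ t ^ (2 + s) :=
        Real.rpow_le_rpow (mul_pos hρ ht).le (mul_le_of_le_one_left ht.le hρ1) (by positivity)
      calc C * (ρ * t) ^ (2 + s) ≤ C' * (ρ * t) ^ (2 + s) :=
          mul_le_mul_of_nonneg_right hCC (Real.rpow_nonneg (mul_pos hρ ht).le _)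
        _ ≤ max m C' * t ^ (2 + s) :=
          mul_le_mul (le_max_right _ _) h3 (Real.rpow_nonneg (mul_pos hρ ht).le _) hK0)
  refine ⟨a, ρ⁻¹ • b, (ρ⁻¹ * ρ⁻¹) • c, ?_, ?_, ?_⟩
  · refine le_trans ?_ (le_max_left _ _)
    have h1 : ‖(ρ⁻¹ * ρ⁻¹) • c‖ ≤ ρ⁻¹ * ρ⁻¹ * ‖c‖ := scale_norm56 c (inv_pos.mpr hρ)
    exact h1.trans (mul_le_mul_of_nonneg_left hc (by positivity))
  · exact scale_symm56 hsym _
  · intro v hvρ
    have hu : ‖ρ⁻¹ • v‖ = ρ⁻¹ * ‖v‖ := by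
      rw [norm_smul, Real.norm_eq_abs, abs_of_pos (inv_pos.mpr hρ)]
    have hu1 : ‖ρ⁻¹ • v‖ ≤ 1 := by
      rw [hu, inv_mul_le_one₀ hρ]
      exact hvρ
    have h1 := hv (ρ⁻¹ • v) hu1
    rw [resc56_eq w x1 ρ hu1, smul_inv_smul₀ hρ.ne', hu, Real.mul_rpow (inv_pos.mpr hρ).le (norm_nonneg _)] at h1
    rw [scale56]
    refine h1.trans ?_
    rw [← mul_assoc]
    exact mul_le_mul_of_nonneg_right (le_max_right _ _) (Real.rpow_nonneg (norm_nonneg _) _)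

end Pool.Agent.Helper87.RG
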