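import Mathlib

/-!
# Project REG, block R10: the iteration lemma

`iter`. PROOF. Choose `α ∈ (0, 1)` with `4^(-α) > θ` (possible since `θ < 1`) and `D = max (W (r1/4)^(-α)) (C1 r1^(1-α)/(4^(-α) - θ))`, `C = D`. For `r ∈ (r1/4, r1]`: `ω r ≤ W ≤ D r^α`. If `ω r ≤ D r^α` and `r ≤ r1` then `ω (r/4) ≤ θ D r^α + C1 r ≤ (θ + C1 r1^(1-α)/D) D r^α ≤ 4^(-α) D r^α = D (r/4)^α`. Induction over `k` with `r ∈ (r1/4^(k+1), r1/4^k]`.
-/

set_option autoImplicit false

namespace Pool.Agent.Helper87.RG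

theorem iter {θ C1 W r1 : ℝ} (hθ : 0 ≤ θ) (hθ1 : θ < 1) (hC1 : 0 ≤ C1) (hW : 0 ≤ W) (hr1 : 0 < r1) :
    ∃ α C : ℝ, 0 < α ∧ α < 1 ∧ 0 < C ∧ ∀ ω : ℝ → ℝ, (∀ r, 0 < r → r ≤ r1 → ω r ≤ W) →
      (∀ r, 0 < r → r ≤ r1 → ω (r / 4) ≤ θ * ω r + C1 * r) → ∀ r, 0 < r → r ≤ r1 → ω r ≤ C * r ^ α := by
  obtain ⟨t, ht, ht1, ht4⟩ : ∃ t : ℝ, θ < t ∧ t < 1 ∧ 3 / 4 ≤ t := by
    refine ⟨(1 + max θ (1 / 2)) / 2, ?_, ?_, ?_⟩
    · have := le_max_left θ (1 / 2)
      have h2 : max θ (1 / 2 : ℝ) < 1 := max_lt hθ1 (by norm_num)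
      linarith
    · have h2 : max θ (1 / 2 : ℝ) < 1 := max_lt hθ1 (by norm_num)
      linarith
    · have := le_max_right θ (1 / 2)
      linarith
  have ht0 : 0 < t := by linarith
  have h4t : (4 : ℝ) ^ (-(-Real.logb 4 t)) = t := by
    rw [neg_neg, Real.rpow_logb (by norm_num) (by norm_num) ht0]
  have hα0 : 0 < -Real.logb 4 t := by
    rw [neg_pos]; exact Real.logb_neg (by norm_num) ht0 ht1
  have hα1 : -Real.logb 4 t < 1 := by
    rw [neg_lt, Real.lt_logb_iff_rpow_lt (by norm_num) ht0, Real.rpow_neg_one]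
    linarith
  generalize -Real.logb 4 t = α at h4t hα0 hα1
  obtain ⟨D, hDpos, hD1, hD2⟩ : ∃ D : ℝ, 0 < D ∧ W ≤ D * (r1 / 4) ^ α ∧
      C1 * r1 ^ (1 - α) ≤ D * (t - θ) := by
    have hp : 0 < (r1 / 4) ^ α := Real.rpow_pos_of_pos (by positivity) _
    have hq : 0 < t - θ := by linarith
    refine ⟨max 1 (max (W / (r1 / 4) ^ α) (C1 * r1 ^ (1 - α) / (t - θ))), by positivity, ?_, ?_⟩
    · rw [← div_le_iff₀ hp]
      exact (le_max_left _ _).trans (le_max_right _ _)
    · rw [← div_le_iff₀ hq]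
      exact (le_max_right _ _).trans (le_max_right _ _)
  refine ⟨α, D, hα0, hα1, hDpos, fun ω h1 h2 => ?_⟩
  have base : ∀ r, r1 / 4 < r → r ≤ r1 → ω r ≤ D * r ^ α := by
    intro r hr hr'
    refine (h1 r (by linarith) hr').trans (hD1.trans ?_)
    exact mul_le_mul_of_nonneg_left (Real.rpow_le_rpow (by positivity) hr.le hα0.le) hDpos.le
  have step : ∀ k : ℕ, ∀ r, r1 / 4 ^ (k + 1) < r → r ≤ r1 → ω r ≤ D * r ^ α := by
    intro k
    induction k with
    | zero => intro r hr hr'; exact base r (by simpa using hr) hr'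
    | succ k ih =>
      intro r hr hr'
      by_cases hr4 : r1 / 4 < r
      · exact base r hr4 hr'
      · push Not at hr4
        have hrpos : 0 < r := lt_trans (by positivity) hr
        have h5 : r1 / 4 ^ (k + 1) < 4 * r := by
          rw [div_lt_iff₀ (by positivity)] at hr ⊢
          rw [pow_succ (4 : ℝ) (k + 1)] at hr
          linarith
        have h6 : 4 * r ≤ r1 := by linarith
        have h7 := ih (4 * r) h5 h6
        have h8 := h2 (4 * r) (by positivity) h6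
        have h9 : 4 * r / 4 = r := by ring
        rw [h9] at h8
        have hsp : 0 < (4 * r) ^ α := Real.rpow_pos_of_pos (by positivity) _
        have h10 : C1 * (4 * r) ≤ D * (t - θ) * (4 * r) ^ α := by
          have h11 : 4 * r = (4 * r) ^ (1 - α) * (4 * r) ^ α := by
            rw [← Real.rpow_add (by positivity)]
            simp
          calc C1 * (4 * r) = C1 * (4 * r) ^ (1 - α) * (4 * r) ^ α := by
                rw [mul_assoc, ← h11]
            _ ≤ C1 * r1 ^ (1 - α) * (4 * r) ^ α := by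
                refine mul_le_mul_of_nonneg_right (mul_le_mul_of_nonneg_left ?_ hC1) hsp.le
                exact Real.rpow_le_rpow (by positivity) h6 (by linarith)
            _ ≤ D * (t - θ) * (4 * r) ^ α := mul_le_mul_of_nonneg_right hD2 hsp.le
        have h12 : r ^ α = t * (4 * r) ^ α := by
          rw [Real.mul_rpow (by norm_num) hrpos.le, ← mul_assoc]
          have h13 : t * 4 ^ α = 1 := by
            rw [← h4t, ← Real.rpow_add (by norm_num)]
            simp
          rw [h13, one_mul]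
        rw [h12]
        have h14 : θ * ω (4 * r) ≤ θ * (D * (4 * r) ^ α) := mul_le_mul_of_nonneg_left h7 hθ
        calc ω r ≤ θ * ω (4 * r) + C1 * (4 * r) := h8
          _ ≤ θ * (D * (4 * r) ^ α) + D * (t - θ) * (4 * r) ^ α := add_le_add h14 h10
          _ = D * (t * (4 * r) ^ α) := by ring
  intro r hr hr'
  obtain ⟨k, hk⟩ := exists_pow_lt_of_lt_one (show 0 < r / r1 by positivity)
    (show (1 / 4 : ℝ) < 1 by norm_num)
  refine step k r ?_ hr'
  have h15 : r1 / 4 ^ (k + 1) ≤ r1 * (1 / 4) ^ k := by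
    rw [one_div, inv_pow, ← div_eq_mul_inv]
    exact div_le_div_of_nonneg_left hr1.le (by positivity)
      (pow_le_pow_right₀ (by norm_num) (Nat.le_succ k))
  refine h15.trans_lt ?_
  rw [lt_div_iff₀ hr1] at hk
  linarith

end Pool.Agent.Helper87.RG
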