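import Pool.Agent.Helper87.RG.R9

/-!
# Project REG, block R11: the Hölder continuous representative of the Hessian

`hoelder_rep`. PROOF. By `decay` with centre `y` and `r = 2 ‖y - y'‖`: `nK (H y - H y') ≤ C (2 ‖y - y'‖)^α` for `y, y' ∈ ER H ∩ ball x0 (R/2)` with `0 < 2 ‖y - y'‖ ≤ R/4` (otherwise `nK ≤ 2 n² Λ ≤ C' ‖y - y'‖^α`; entries of `H` are bounded by the trace). `ER H` has full measure, so it is dense in the ball. Define `H'` on `ball x0 (R/2)` as the extension by uniform continuity from the dense subset (`Mat n` is complete) and `H' = H` elsewhere; `H' = H` on `ER H ∩ ball x0 (R/2)`, the Hölder inequality extends by continuity.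
The properties (`PosSemidef`, trace, determinant, equation everywhere) pass to the limit by density.
-/

set_option autoImplicit false

namespace Pool.Agent.Helper87.RG

open MeasureTheory Set Filter Topology Metric
open Helper29.AM
open scoped ComplexOrder

section Private_h54

variable {n : ℕ}

private theorem entry_h54 (K : Mat n) (j k : Fin n) : ‖K j k‖ ≤ nK K := by
  unfold nK
  calc ‖K j k‖ ≤ ∑ k, ‖K j k‖ :=
        Finset.single_le_sum (f := fun k => ‖K j k‖) (fun k _ => norm_nonneg _) (Finset.mem_univ k)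
    _ ≤ ∑ j, ∑ k, ‖K j k‖ :=
        Finset.single_le_sum (f := fun j => ∑ k, ‖K j k‖) (fun j _ => Finset.sum_nonneg fun k _ => norm_nonneg _)
          (Finset.mem_univ j)

private theorem nK_nonneg_h54 (K : Mat n) : 0 ≤ nK K :=
  Finset.sum_nonneg fun _ _ => Finset.sum_nonneg fun _ _ => norm_nonneg _

private theorem nK_tri_h54 (A B D : Mat n) : nK (A - B) ≤ nK (A - D) + nK (D - B) := by
  unfold nK
  rw [← Finset.sum_add_distrib]
  refine Finset.sum_le_sum fun j _ => ?_
  rw [← Finset.sum_add_distrib]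
  refine Finset.sum_le_sum fun k _ => ?_
  rw [Matrix.sub_apply, Matrix.sub_apply, Matrix.sub_apply]
  have h1 : A j k - B j k = (A j k - D j k) + (D j k - B j k) := by ring
  rw [h1]
  exact norm_add_le _ _

private theorem nK_comm_h54 (A B : Mat n) : nK (A - B) = nK (B - A) := by
  unfold nK
  refine Finset.sum_congr rfl fun j _ => Finset.sum_congr rfl fun k _ => ?_
  rw [Matrix.sub_apply, Matrix.sub_apply, norm_sub_rev]

private theorem nK_self_h54 (A : Mat n) : nK (A - A) = 0 := by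
  unfold nK
  rw [sub_self]
  simp

private theorem nK_tendsto_h54 {F : ℕ → Mat n} {K : Mat n} (h : ∀ i j, Tendsto (fun k => F k i j) atTop (𝓝 (K i j)))
    (A : Mat n) : Tendsto (fun k => nK (A - F k)) atTop (𝓝 (nK (A - K))) := by
  unfold nK
  refine tendsto_finsetSum _ fun i _ => tendsto_finsetSum _ fun j _ => ?_
  simp only [Matrix.sub_apply]
  exact ((tendsto_const_nhds).sub (h i j)).norm

private theorem det_tendsto_h54 {F : ℕ → Mat n} {K : Mat n} (h : ∀ i j, Tendsto (fun k => F k i j) atTop (𝓝 (K i j))) :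
    Tendsto (fun k => (F k).det) atTop (𝓝 K.det) := by
  simp only [Matrix.det_apply]
  refine tendsto_finsetSum _ fun σ _ => ?_
  refine Tendsto.const_smul ?_ _
  exact tendsto_finsetProd _ fun i _ => h _ _

private theorem lf_tendsto_h54 {F : ℕ → Mat n} {K : Mat n} (h : ∀ i j, Tendsto (fun k => F k i j) atTop (𝓝 (K i j)))
    (v : V n) : Tendsto (fun k => lf (F k) v) atTop (𝓝 (lf K v)) := by
  unfold lf
  refine (Complex.continuous_re.tendsto _).comp ?_
  refine tendsto_finsetSum _ fun i _ => tendsto_finsetSum _ fun j _ => ?_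
  exact ((h i j).mul tendsto_const_nhds).mul tendsto_const_nhds

/-- the limit of positive definite matrices with determinant bounded below -/
private theorem posDef_lim_h54 {F : ℕ → Mat n} {K : Mat n} (h : ∀ i j, Tendsto (fun k => F k i j) atTop (𝓝 (K i j)))
    (hF : ∀ k, (F k).PosDef) {c : ℝ} (hc : 0 < c) (hdet : c ≤ K.det.re) : K.PosDef := by
  have hher : K.IsHermitian := by
    ext i j
    rw [Matrix.conjTranspose_apply]
    have h1 : Tendsto (fun k => star (F k j i)) atTop (𝓝 (star (K j i))) :=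
      (continuous_star.tendsto _).comp (h j i)
    refine tendsto_nhds_unique h1 ?_
    refine (h i j).congr fun k => ?_
    exact ((hF k).isHermitian.apply i j).symm
  have hpsd : K.PosSemidef := by
    rw [posSemidef_iff_lf hher]
    intro v
    exact ge_of_tendsto' (lf_tendsto_h54 h v) fun k => (posSemidef_iff_lf (hF k).isHermitian).1 (hF k).posSemidef v
  refine hpsd.posDef_iff_isUnit.2 ?_
  rw [Matrix.isUnit_iff_isUnit_det, isUnit_iff_ne_zero]
  intro h0
  rw [h0, Complex.zero_re] at hdet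
  linarith

end Private_h54

theorem hoelder_rep {n : ℕ} {c Λ B R : ℝ} {x0 : V n} {u κ : V n → ℝ} {H : V n → Mat n} (hl : RegLoc x0 R u κ H c Λ B) :
    ∃ (α C : ℝ) (H' : V n → Mat n), 0 < α ∧ α < 1 ∧ 0 ≤ C ∧ (∀ᵐ z, z ∈ ball x0 (R / 2) → H' z = H z) ∧
      (∀ y ∈ ball x0 (R / 2), ∀ z ∈ ball x0 (R / 2), nK (H' y - H' z) ≤ C * ‖y - z‖ ^ α) ∧
      ∀ z ∈ ball x0 (R / 2), (H' z).PosDef ∧ (Matrix.trace (H' z)).re ≤ Λ ∧ c ≤ (H' z).det.re ∧ Real.log (H' z).det.re = κ z := by
  obtain ⟨α, C₀, hα, hα1, hC₀, hdec⟩ := decay (Λ := Λ) (B := B) hl.hn hl.hc hl.hR (n := n)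
  have hR := hl.hR
  set G : Set (V n) := ER H ∩ ball x0 (R / 2) with hG
  have hR2 : ball x0 (R / 2) ⊆ ball x0 R := ball_subset_ball (by linarith)
  have hnK : ∀ z, nK (H z) ≤ n * (n * Λ) := by
    intro z
    unfold nK
    calc ∑ j, ∑ k, ‖H z j k‖ ≤ ∑ _j : Fin n, ∑ _k : Fin n, Λ :=
          Finset.sum_le_sum fun j _ => Finset.sum_le_sum fun k _ =>
            (norm_entry_le (hl.pd z).posSemidef j k).trans (hl.tr z)
      _ = n * (n * Λ) := by simp
  have hΛ : 0 ≤ n * (n * Λ) := (nK_nonneg_h54 _).trans (hnK 0)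
  set C₁ : ℝ := C₀ * 2 ^ α + 2 * (n * (n * Λ)) * (8 / R) ^ α with hC₁
  have hC₁0 : 0 ≤ C₁ := by positivity
  have hol : ∀ y ∈ G, ∀ y' ∈ G, nK (H y - H y') ≤ C₁ * ‖y - y'‖ ^ α := by
    intro y hy y' hy'
    by_cases h0 : y = y'
    · rw [h0, nK_self_h54]
      positivity
    have hpos : 0 < ‖y - y'‖ := norm_pos_iff.2 (sub_ne_zero.2 h0)
    rcases le_or_gt (2 * ‖y - y'‖) (R / 4) with h1 | h1
    · have h2 := hdec x0 u κ H hl y hy.2 (2 * ‖y - y'‖) (by positivity) h1 y
        ⟨hy.1, mem_ball_self (by positivity)⟩ y' ⟨hy'.1, by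
          rw [mem_ball, dist_eq_norm, norm_sub_rev]
          linarith⟩
      rw [Real.mul_rpow (by norm_num) hpos.le, ← mul_assoc] at h2
      refine h2.trans (mul_le_mul_of_nonneg_right ?_ (by positivity))
      rw [hC₁]
      have : 0 ≤ 2 * (n * (n * Λ)) * (8 / R) ^ α := by positivity
      linarith
    · have h2 : nK (H y - H y') ≤ 2 * (n * (n * Λ)) := by
        have h3 := nK_tri_h54 (H y) (H y') 0
        rw [sub_zero, zero_sub] at h3
        have h4 : nK (-H y') = nK (H y') := by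
          unfold nK
          exact Finset.sum_congr rfl fun j _ => Finset.sum_congr rfl fun k _ => norm_neg _
        rw [h4] at h3
        linarith [hnK y, hnK y']
      have h5 : 1 ≤ (8 / R) ^ α * ‖y - y'‖ ^ α := by
        rw [← Real.mul_rpow (by positivity) hpos.le]
        refine Real.one_le_rpow ?_ hα.le
        rw [div_mul_eq_mul_div, one_le_div hR]
        linarith
      calc nK (H y - H y') ≤ 2 * (n * (n * Λ)) * 1 := by rw [mul_one]; exact h2
        _ ≤ 2 * (n * (n * Λ)) * ((8 / R) ^ α * ‖y - y'‖ ^ α) := by gcongr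
        _ ≤ C₁ * ‖y - y'‖ ^ α := by
          rw [← mul_assoc]
          refine mul_le_mul_of_nonneg_right ?_ (by positivity)
          rw [hC₁]
          have : 0 ≤ C₀ * 2 ^ α := by positivity
          linarith
  -- density
  have hdense : ∀ z ∈ ball x0 (R / 2), ∀ ρ : ℝ, 0 < ρ → ∃ y ∈ G, ‖y - z‖ < ρ := by
    intro z hz ρ hρ
    have hU : IsOpen (ball z ρ ∩ ball x0 (R / 2)) := isOpen_ball.inter isOpen_ball
    have hU0 : 0 < volume (ball z ρ ∩ ball x0 (R / 2)) :=
      hU.measure_pos volume ⟨z, mem_ball_self hρ, hz⟩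
    obtain ⟨y, hy1, hy2, hy3⟩ := ER_nonempty hl.bh.meas hU.measurableSet hU0
    exact ⟨y, ⟨hy1, hy3⟩, by rwa [mem_ball, dist_eq_norm] at hy2⟩
  have hseq : ∀ z ∈ ball x0 (R / 2), ∃ y : ℕ → V n, (∀ k, y k ∈ G) ∧ ∀ k, ‖y k - z‖ < 1 / ((k : ℝ) + 1) := by
    intro z hz
    have h1 : ∀ k : ℕ, ∃ y ∈ G, ‖y - z‖ < 1 / ((k : ℝ) + 1) := fun k => hdense z hz _ (by positivity)
    choose y hy1 hy2 using h1
    exact ⟨y, hy1, hy2⟩
  have hlim0 : Tendsto (fun k : ℕ => 1 / ((k : ℝ) + 1)) atTop (𝓝 0) := tendsto_one_div_add_atTop_nhds_zero_nat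
  have hytend : ∀ {z : V n} {y : ℕ → V n}, (∀ k, ‖y k - z‖ < 1 / ((k : ℝ) + 1)) → Tendsto y atTop (𝓝 z) := by
    intro z y hy
    rw [tendsto_iff_norm_sub_tendsto_zero]
    exact squeeze_zero (fun k => norm_nonneg _) (fun k => (hy k).le) hlim0
  have hex : ∀ z ∈ ball x0 (R / 2), ∃ K : Mat n, ∀ y ∈ G, nK (H y - K) ≤ C₁ * ‖y - z‖ ^ α := by
    intro z hz
    obtain ⟨y, hyG, hy⟩ := hseq z hz
    have hb0 : Tendsto (fun N : ℕ => C₁ * (2 * (1 / ((N : ℝ) + 1))) ^ α) atTop (𝓝 0) := by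
      have h1 : Tendsto (fun N : ℕ => 2 * (1 / ((N : ℝ) + 1))) atTop (𝓝 0) := by
        have := hlim0.const_mul 2
        rwa [mul_zero] at this
      have h2 := (h1.rpow_const (p := α) (Or.inr hα.le)).const_mul C₁
      rwa [Real.zero_rpow hα.ne', mul_zero] at h2
    have hcau : ∀ i j, CauchySeq fun k => H (y k) i j := by
      intro i j
      refine cauchySeq_of_le_tendsto_0 (fun N : ℕ => C₁ * (2 * (1 / ((N : ℝ) + 1))) ^ α) (fun k m N hk hm => ?_) hb0
      have h1 : ‖y k - y m‖ ≤ 2 * (1 / ((N : ℝ) + 1)) := by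
        have h2 : 1 / ((k : ℝ) + 1) ≤ 1 / ((N : ℝ) + 1) :=
          one_div_le_one_div_of_le (by positivity) (by exact_mod_cast Nat.succ_le_succ hk)
        have h3 : 1 / ((m : ℝ) + 1) ≤ 1 / ((N : ℝ) + 1) :=
          one_div_le_one_div_of_le (by positivity) (by exact_mod_cast Nat.succ_le_succ hm)
        have h4 : y k - y m = (y k - z) - (y m - z) := by abel
        rw [h4]
        refine (norm_sub_le _ _).trans ?_
        linarith [hy k, hy m]
      rw [dist_eq_norm, ← Matrix.sub_apply]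
      refine (entry_h54 _ i j).trans ((hol _ (hyG k) _ (hyG m)).trans ?_)
      gcongr
    have hK0 : ∀ i j, ∃ a : ℂ, Tendsto (fun k => H (y k) i j) atTop (𝓝 a) := fun i j =>
      cauchySeq_tendsto_of_complete (hcau i j)
    obtain ⟨K, hK⟩ : ∃ K : Mat n, ∀ i j, Tendsto (fun k => H (y k) i j) atTop (𝓝 (K i j)) :=
      ⟨fun i j => (hK0 i j).choose, fun i j => (hK0 i j).choose_spec⟩
    refine ⟨K, fun w hw => ?_⟩
    have h1 : Tendsto (fun k => nK (H w - H (y k))) atTop (𝓝 (nK (H w - K))) := nK_tendsto_h54 hK (H w)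
    have h2 : Tendsto (fun k => C₁ * ‖w - y k‖ ^ α) atTop (𝓝 (C₁ * ‖w - z‖ ^ α)) := by
      refine (Tendsto.rpow_const ?_ (Or.inr hα.le)).const_mul C₁
      exact (tendsto_const_nhds.sub (hytend hy)).norm
    exact le_of_tendsto_of_tendsto' h1 h2 fun k => hol w hw _ (hyG k)
  classical
  have hex' : ∀ z : V n, ∃ K : Mat n, z ∈ ball x0 (R / 2) → ∀ y ∈ G, nK (H y - K) ≤ C₁ * ‖y - z‖ ^ α := by
    intro z
    by_cases hz : z ∈ ball x0 (R / 2)
    · obtain ⟨K, hK⟩ := hex z hz
      exact ⟨K, fun _ => hK⟩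
    · exact ⟨0, fun h => absurd h hz⟩
  choose H' hH' using hex'
  refine ⟨α, 3 * C₁, H', hα, hα1, by positivity, ?_, ?_, ?_⟩
  · filter_upwards [ae_mem_ER hl.bh.meas] with z hz hzB
    have h1 := hH' z hzB z ⟨hz, hzB⟩
    rw [sub_self, norm_zero, Real.zero_rpow hα.ne', mul_zero] at h1
    ext i j
    have h2 := (entry_h54 _ i j).trans h1
    rw [Matrix.sub_apply] at h2
    exact (sub_eq_zero.1 (norm_le_zero_iff.1 h2)).symm
  · intro y hy z hz
    by_cases h0 : y = z
    · rw [h0, nK_self_h54]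
      positivity
    have hpos : 0 < ‖y - z‖ := norm_pos_iff.2 (sub_ne_zero.2 h0)
    obtain ⟨w, hwG, hw⟩ := hdense y hy _ hpos
    have h1 := hH' y hy w hwG
    have h2 := hH' z hz w hwG
    have h3 : ‖w - z‖ ≤ 2 * ‖y - z‖ := by
      have h4 : w - z = (w - y) + (y - z) := by abel
      rw [h4]
      refine (norm_add_le _ _).trans ?_
      linarith
    have h5 : ‖w - z‖ ^ α ≤ 2 * ‖y - z‖ ^ α := by
      calc ‖w - z‖ ^ α ≤ (2 * ‖y - z‖) ^ α := by gcongr
        _ = 2 ^ α * ‖y - z‖ ^ α := Real.mul_rpow (by norm_num) hpos.le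
        _ ≤ 2 * ‖y - z‖ ^ α := by
          gcongr
          calc (2 : ℝ) ^ α ≤ 2 ^ (1 : ℝ) := Real.rpow_le_rpow_of_exponent_le (by norm_num) hα1.le
            _ = 2 := Real.rpow_one 2
    have h6 : ‖w - y‖ ^ α ≤ ‖y - z‖ ^ α := by gcongr
    have h7 := nK_tri_h54 (H' y) (H' z) (H w)
    rw [nK_comm_h54 (H' y) (H w)] at h7
    have h8 : C₁ * ‖w - y‖ ^ α ≤ C₁ * ‖y - z‖ ^ α := by gcongr
    have h9 : C₁ * ‖w - z‖ ^ α ≤ C₁ * (2 * ‖y - z‖ ^ α) := by gcongr
    linarith
  · intro z hz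
    obtain ⟨y, hyG, hy⟩ := hseq z hz
    have hyz := hytend hy
    have hent : ∀ i j, Tendsto (fun k => H (y k) i j) atTop (𝓝 (H' z i j)) := by
      intro i j
      rw [tendsto_iff_norm_sub_tendsto_zero]
      have h1 : Tendsto (fun k => C₁ * ‖y k - z‖ ^ α) atTop (𝓝 0) := by
        have h2 : Tendsto (fun k => ‖y k - z‖) atTop (𝓝 0) := tendsto_iff_norm_sub_tendsto_zero.1 hyz
        have h3 := (h2.rpow_const (p := α) (Or.inr hα.le)).const_mul C₁
        rwa [Real.zero_rpow hα.ne', mul_zero] at h3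
      refine squeeze_zero (fun k => norm_nonneg _) (fun k => ?_) h1
      rw [← Matrix.sub_apply]
      exact (entry_h54 _ i j).trans (hH' z hz _ (hyG k))
    have hdet := det_tendsto_h54 hent
    have hdetre : Tendsto (fun k => (H (y k)).det.re) atTop (𝓝 (H' z).det.re) :=
      (Complex.continuous_re.tendsto _).comp hdet
    have hdc : c ≤ (H' z).det.re := ge_of_tendsto' hdetre fun k => hl.det _
    have htr : Tendsto (fun k => (Matrix.trace (H (y k))).re) atTop (𝓝 (Matrix.trace (H' z)).re) := by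
      refine (Complex.continuous_re.tendsto _).comp ?_
      unfold Matrix.trace
      exact tendsto_finsetSum _ fun i _ => hent i i
    refine ⟨posDef_lim_h54 hent (fun k => hl.pd _) hl.hc hdc, le_of_tendsto' htr fun k => hl.tr _, hdc, ?_⟩
    have h1 : Tendsto (fun k => Real.log (H (y k)).det.re) atTop (𝓝 (Real.log (H' z).det.re)) :=
      hdetre.log (by linarith [hl.hc] : (H' z).det.re ≠ 0)
    have h2 : Tendsto (fun k => κ (y k)) atTop (𝓝 (κ z)) := by
      have h3 : ContinuousAt κ z := (hl.cont z (hR2 hz)).continuousAt (isOpen_ball.mem_nhds (hR2 hz))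
      exact h3.tendsto.comp hyz
    refine tendsto_nhds_unique h1 (h2.congr fun k => ?_)
    exact (ER_eq hl (hyG k).1 (hR2 (hyG k).2)).symm

end Pool.Agent.Helper87.RG
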