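import Pool.Agent.Helper87.RG.R3
import Pool.Agent.Helper87.RG.R13

/-!
# Project REG, block R12: localisation

`exists_regLoc`. PROOF. Let `v` be the `C¹` representative (`exists_C1`; `BH.congr`: `BH O v H`). Choose `R > 0` with `closedBall x0 R ⊆ O`. On this compact ball `|H_jk| ≤ C`, `v` and `k` are bounded, so `tr H ≤ n C =: Λ0` and `exp (τ v + k) ≥ c0 > 0`. Let `Z = {z ∈ ball x0 R | (H z).det = exp (τ v z + k z)}` (measurable after intersecting with the open ball, where `v, k` are continuous), `H' = H` on `Z`, `H' = 1` (identity matrix) elsewhere: `H' = H` a.e. on the ball, `H'` is positive definite everywhere (positive semidefinite with positive determinant), `tr H' ≤ Λ := max Λ0 n`, `det H' ≥ c := min c0 1`.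
`κ = τ v + k`: Lipschitz on the ball (`C¹` on a neighbourhood of the compact convex closed ball). `mean`: `M (hA) v z - v z ≥ 0` by `mean_formula` (`sA A (H y) ≥ 0`, `ρ₁ ≥ 0`), `M (hA) k z - k z = ∫_0^h 2 r M1 (rA) (DA A k) z dr ≥ - h² · n ‖A‖² · sup |D² k|` (`hasDerivAt_M`, `|lev k y w| ≤ sup ‖D²k‖ ‖w‖²`). `τ ≥ 0`. `log det H' = κ` on `Z`.
Proved by helper74.
-/

set_option autoImplicit false

namespace Pool.Agent.Helper87.RG

open MeasureTheory Set Filter Topology Metric
open Helper29.AM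
open scoped ComplexOrder

private theorem sA_nonneg74 {n : ℕ} {K : Mat n} (hK : K.PosSemidef) (A : Lin n) : 0 ≤ sA A K :=
  Finset.sum_nonneg fun _ _ => (posSemidef_iff_lf hK.1).1 hK _

private theorem M1_ge74 {n : ℕ} (T : Lin n) {g : V n → ℝ} {z : V n} {m : ℝ} (hm : 0 ≤ m)
    (hg : ∀ η : V n, ‖η‖ < 1 → -m ≤ g (z + T η)) : -m ≤ M1 T g z := by
  unfold M1
  by_cases hi : Integrable fun η : V n => rho1 η * g (z + T η)
  · have h1 : ∫ η : V n, rho1 η * (-m) ≤ ∫ η : V n, rho1 η * g (z + T η) := by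
      refine integral_mono (rho1_integrable.mul_const _) hi fun η => ?_
      by_cases h : ‖η‖ < 1
      · exact mul_le_mul_of_nonneg_left (hg η h) (rho1_nonneg η)
      · simp only [rho1_eq_zero (not_lt.1 h), zero_mul]
        exact le_rfl
    rw [integral_mul_const] at h1
    have h2 : (∫ η : V n, rho1 η) ≤ 1 := aa_le_one
    have h3 : 0 ≤ ∫ η : V n, rho1 η := integral_nonneg fun η => rho1_nonneg η
    nlinarith
  · rw [integral_undef hi]
    linarith

private theorem D2_le74 {n : ℕ} {k : V n → ℝ} {y : V n} {D : ℝ} (hb : ‖fderiv ℝ (fderiv ℝ k) y‖ ≤ D) (w : V n) :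
    -(D * ‖w‖ ^ 2) ≤ D2 k y w w := by
  have h1 : ‖fderiv ℝ (fderiv ℝ k) y w w‖ ≤ ‖fderiv ℝ (fderiv ℝ k) y‖ * ‖w‖ * ‖w‖ :=
    ContinuousLinearMap.le_opNorm₂ _ _ _
  have h2 : ‖fderiv ℝ (fderiv ℝ k) y‖ * ‖w‖ * ‖w‖ ≤ D * ‖w‖ ^ 2 := by
    rw [pow_two, ← mul_assoc]
    gcongr
  have h3 := (abs_le.1 ((Real.norm_eq_abs _).symm.le.trans (h1.trans h2))).1
  exact h3

private theorem mean_k74 {n : ℕ} {Ω : Set (V n)} (hΩ : IsOpen Ω) {k : V n → ℝ} (hk : ContDiffOn ℝ 2 k Ω) {D : ℝ}
    (hD : 0 ≤ D) (hb : ∀ y ∈ Ω, ‖fderiv ℝ (fderiv ℝ k) y‖ ≤ D) (A : Lin n) {z : V n} {h : ℝ} (hh : 0 < h)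
    (hz : ellIn A h z Ω) : -(n * D * ‖A‖ ^ 2 * h ^ 2) ≤ M ((h : ℂ) • A) k z - k z := by
  have hs : ∀ s ∈ Icc (0 : ℝ) h, HasDerivAt (fun s : ℝ => M ((s : ℂ) • A) k z + n * D * ‖A‖ ^ 2 * s ^ 2)
      (2 * s * M1 ((s : ℂ) • A) (DA A k) z + n * D * ‖A‖ ^ 2 * (2 * s)) s := by
    intro s hs
    have h1 := hasDerivAt_M A hΩ hk (t := s) (ellIn_mono hz hs.1 hs.2)
    have h2 : HasDerivAt (fun s : ℝ => n * D * ‖A‖ ^ 2 * s ^ 2) (n * D * ‖A‖ ^ 2 * (2 * s)) s := by
      have h3 := (hasDerivAt_pow 2 s).const_mul (n * D * ‖A‖ ^ 2)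
      simpa using h3
    exact h1.add h2
  have hm : MonotoneOn (fun s : ℝ => M ((s : ℂ) • A) k z + n * D * ‖A‖ ^ 2 * s ^ 2) (Icc 0 h) := by
    refine monotoneOn_of_deriv_nonneg (convex_Icc _ _) (fun s hs' => (hs s hs').continuousAt.continuousWithinAt)
      (fun s hs' => ((hs s (interior_subset hs')).differentiableAt).differentiableWithinAt) fun s hs' => ?_
    have hs1 := interior_subset hs'
    rw [(hs s hs1).deriv]
    have h4 : -(n * D * ‖A‖ ^ 2) ≤ M1 ((s : ℂ) • A) (DA A k) z := by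
      refine M1_ge74 _ (by positivity) fun η hη => ?_
      have hy := ellIn_mono hz hs1.1 hs1.2 η hη.le
      have h5 : ∀ l : Fin n, -(D * ‖A‖ ^ 2) ≤ lev k (z + ((s : ℂ) • A) η) (A (e l)) := by
        intro l
        have h6 := D2_le74 (hb _ hy) (A (e l))
        have h7 := D2_le74 (hb _ hy) (Complex.I • A (e l))
        have h8 : ‖A (e l)‖ ≤ ‖A‖ := by
          refine (A.le_opNorm _).trans (le_of_eq ?_)
          have h11 : ‖(e l : V n)‖ = 1 := by simp [e]
          rw [h11, mul_one]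
        have h9 : D * ‖A (e l)‖ ^ 2 ≤ D * ‖A‖ ^ 2 := by gcongr
        have h10 : 0 ≤ D * ‖A‖ ^ 2 := by positivity
        rw [norm_smul, Complex.norm_I, one_mul] at h7
        unfold lev
        linarith
      calc -(n * D * ‖A‖ ^ 2) = ∑ _l : Fin n, -(D * ‖A‖ ^ 2) := by
            rw [Finset.sum_const, Finset.card_univ, Fintype.card_fin, nsmul_eq_mul]
            ring
        _ ≤ _ := Finset.sum_le_sum fun l _ => h5 l
    have h5 := mul_le_mul_of_nonneg_left h4 (by linarith [hs1.1] : 0 ≤ 2 * s)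
    linarith
  have h1 := hm (left_mem_Icc.2 hh.le) (right_mem_Icc.2 hh.le) hh.le
  have h2 : M (((0 : ℝ) : ℂ) • A) k z = k z := by
    have h0 : (((0 : ℝ) : ℂ) • A) = (0 : Lin n) := by rw [Complex.ofReal_zero]; exact zero_smul ℂ A
    have h00 : ∀ η : V n, rho η * k (z + (0 : Lin n) η) = rho η * k z := fun η => by
      have : (0 : Lin n) η = 0 := rfl
      rw [this, add_zero]
    rw [h0]
    unfold M
    rw [integral_congr_ae (Eventually.of_forall h00), integral_mul_const, integral_rho, one_mul]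
  simp only at h1
  rw [h2] at h1
  have h3 : n * D * ‖A‖ ^ 2 * (0 : ℝ) ^ 2 = 0 := by ring
  linarith

private theorem int74 {n : ℕ} {Ω : Set (V n)} {u : V n → ℝ} (hu : ContinuousOn u Ω) {T : Lin n} {z : V n}
    (hz : ∀ η : V n, ‖η‖ ≤ 1 → z + T η ∈ Ω) : Integrable fun η : V n => rho η * u (z + T η) := by
  have h1 : ContinuousOn (fun η : V n => rho η * u (z + T η)) (closedBall 0 1) :=
    rho_contDiff.continuous.continuousOn.mul
      (hu.comp (Continuous.continuousOn (by fun_prop)) fun η hη => hz η (mem_closedBall_zero_iff.1 hη))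
  have h2 := h1.integrableOn_compact (μ := volume) (isCompact_closedBall 0 1)
  refine (integrableOn_iff_integrable_of_support_subset ?_).1 h2
  intro η hη
  by_contra hc
  rw [mem_closedBall_zero_iff, not_le] at hc
  exact hη (by simp only [rho_eq_zero hc.le, zero_mul])

theorem exists_regLoc {n : ℕ} (hn : 0 < n) {O : Set (V n)} (hO : IsOpen O) {u v : V n → ℝ} {H : V n → Mat n} (h : BH O u H)
    (hv : ContDiffOn ℝ 1 v O) (huv : ∀ᵐ z, z ∈ O → u z = v z) {τ : ℝ} (hτ : 0 ≤ τ) {k : V n → ℝ}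
    (hk : ContDiffOn ℝ (⊤ : ℕ∞) k O) (heq : ∀ᵐ z, z ∈ O → (H z).det = (Real.exp (τ * u z + k z) : ℂ)) {x0 : V n} (hx : x0 ∈ O) :
    ∃ (R c Λ B : ℝ) (H' : V n → Mat n), 0 < R ∧ ball x0 R ⊆ O ∧ RegLoc x0 R v (fun z => τ * v z + k z) H' c Λ B ∧
      ∀ᵐ z, z ∈ ball x0 R → H' z = H z := by
  classical
  obtain ⟨R, hR, hK⟩ := nhds_basis_closedBall.mem_iff.1 (hO.mem_nhds hx)
  have hKc : IsCompact (closedBall x0 R) := isCompact_closedBall _ _
  have hbK : ball x0 R ⊆ closedBall x0 R := ball_subset_closedBall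
  have hbO : ball x0 R ⊆ O := hbK.trans hK
  have hk2 : ContDiffOn ℝ 2 k O := by exact_mod_cast contDiffOn_infty.1 hk 2
  have hk1 : ContDiffOn ℝ 1 k O := by exact_mod_cast contDiffOn_infty.1 hk 1
  have hκ : ContDiffOn ℝ 1 (fun z => τ * v z + k z) O := (contDiffOn_const.mul hv).add hk1
  obtain ⟨C, hC⟩ := h.bdd _ hK hKc
  obtain ⟨C1, hC1⟩ := hKc.exists_bound_of_continuousOn (hκ.continuousOn.mono hK)
  obtain ⟨C2, hC2⟩ := hKc.exists_bound_of_continuousOn ((hκ.continuousOn_fderiv_of_isOpen hO le_rfl).mono hK)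
  have hk' : ContDiffOn ℝ 1 (fderiv ℝ k) O := hk2.fderiv_of_isOpen hO (by norm_num)
  obtain ⟨D, hD⟩ := hKc.exists_bound_of_continuousOn ((hk'.continuousOn_fderiv_of_isOpen hO le_rfl).mono hK)
  have hx0 : x0 ∈ closedBall x0 R := mem_closedBall_self hR.le
  have hC20 : 0 ≤ C2 := (norm_nonneg _).trans (hC2 x0 hx0)
  have hD0 : 0 ≤ D := (norm_nonneg _).trans (hD x0 hx0)
  -- the good set
  have heq' : ∀ᵐ z, z ∈ O → (H z).det = (Real.exp (τ * v z + k z) : ℂ) := by
    filter_upwards [heq, huv] with z h1 h2 hz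
    rw [h1 hz, h2 hz]
  set N : Set (V n) := {z | ¬(z ∈ O → (H z).det = (Real.exp (τ * v z + k z) : ℂ))} with hN
  have hN0 : volume N = 0 := heq'
  set N' := toMeasurable volume N with hN'
  have hN'0 : volume N' = 0 := by rw [hN', measure_toMeasurable, hN0]
  set Z : Set (V n) := ball x0 R \ N' with hZ
  have hZm : MeasurableSet Z := measurableSet_ball.diff (measurableSet_toMeasurable _ _)
  have hZeq : ∀ z ∈ Z, (H z).det = (Real.exp (τ * v z + k z) : ℂ) := by
    intro z hz
    by_contra hc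
    refine hz.2 (subset_toMeasurable _ _ ?_)
    rw [hN]
    intro h1
    exact hc (h1 (hbO hz.1))
  have hae : ∀ᵐ z, z ∈ ball x0 R → z ∈ Z := by
    have h1 : ∀ᵐ z, z ∉ N' := measure_eq_zero_iff_ae_notMem.1 hN'0
    filter_upwards [h1] with z hz hzb
    exact ⟨hzb, hz⟩
  set H' : V n → Mat n := fun z => if z ∈ Z then H z else 1 with hH'
  have hH'1 : ∀ z ∈ Z, H' z = H z := fun z hz => if_pos hz
  have hH'2 : ∀ z, z ∉ Z → H' z = 1 := fun z hz => if_neg hz
  have hmeas : ∀ j k, Measurable fun z => H' z j k := by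
    intro j k
    have h1 : (fun z => H' z j k) = fun z => if z ∈ Z then H z j k else (1 : Mat n) j k := by
      funext z
      by_cases hz : z ∈ Z
      · rw [hH'1 z hz, if_pos hz]
      · rw [hH'2 z hz, if_neg hz]
    rw [h1]
    exact Measurable.ite hZm (h.meas j k) measurable_const
  have hpd : ∀ z, (H' z).PosDef := by
    intro z
    by_cases hz : z ∈ Z
    · rw [hH'1 z hz]
      have h1 : IsUnit (H z) := by
        rw [Matrix.isUnit_iff_isUnit_det, hZeq z hz, isUnit_iff_ne_zero]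
        exact_mod_cast (Real.exp_pos _).ne'
      exact (h.psd z).posDef_iff_isUnit.2 h1
    · rw [hH'2 z hz]
      exact Matrix.PosDef.one
  have hvH : BH O v H := h.congr hO huv
  refine ⟨R, min (Real.exp (-C1)) 1, max (n * C) n, C2 + n * D, H', hR, hbO, ?_, ?_⟩
  · refine ⟨hn, hR, lt_min (Real.exp_pos _) one_pos, by positivity, ?_, hv.mono hbO, hpd, ?_, ?_, ?_, ?_, ?_, ?_⟩
    · have h1 := hvH.mono isOpen_ball hbO
      refine ⟨h1.int, hmeas, fun z => (hpd z).posSemidef, fun K hKs hKcp => ⟨max C 1, fun z hz j k => ?_⟩, fun η hη j k => ?_⟩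
      · by_cases hzZ : z ∈ Z
        · rw [hH'1 z hzZ]
          exact (hC z (hbK (hKs hz)) j k).trans (le_max_left _ _)
        · rw [hH'2 z hzZ]
          refine le_trans ?_ (le_max_right _ _)
          by_cases hjk : j = k
          · rw [hjk, Matrix.one_apply_eq, norm_one]
          · rw [Matrix.one_apply_ne hjk, norm_zero]
            exact zero_le_one
      · rw [h1.weak η hη j k]
        refine integral_congr_ae ?_
        filter_upwards [hae] with z hz
        by_cases hzb : z ∈ ball x0 R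
        · rw [hH'1 z (hz hzb)]
        · have h3 : η z = 0 := image_eq_zero_of_notMem_tsupport fun hc => hzb (hη.sub hc)
          rw [h3, Complex.ofReal_zero, mul_zero, mul_zero]
    · intro z
      by_cases hz : z ∈ Z
      · rw [hH'1 z hz]
        refine le_trans ?_ (le_max_left _ _)
        rw [Matrix.trace, Complex.re_sum]
        calc ∑ j, ((H z).diag j).re ≤ ∑ _j : Fin n, C := Finset.sum_le_sum fun j _ =>
              (Complex.re_le_norm _).trans (hC z (hbK hz.1) j j)
          _ = n * C := by rw [Finset.sum_const, Finset.card_univ, Fintype.card_fin, nsmul_eq_mul]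
      · rw [hH'2 z hz, Matrix.trace_one, Fintype.card_fin, Complex.natCast_re]
        exact le_max_right _ _
    · intro z
      by_cases hz : z ∈ Z
      · rw [hH'1 z hz, hZeq z hz, Complex.ofReal_re]
        refine (min_le_left _ _).trans (Real.exp_le_exp.2 ?_)
        have h1 := hC1 z (hbK hz.1)
        rw [Real.norm_eq_abs] at h1
        exact (abs_le.1 h1).1
      · rw [hH'2 z hz, Matrix.det_one, Complex.one_re]
        exact min_le_right _ _
    · filter_upwards [hae] with z hz hzb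
      rw [hH'1 z (hz hzb), hZeq z (hz hzb), Complex.ofReal_re, Real.log_exp]
    · exact hκ.continuousOn.mono hbO
    · intro y hy z hz
      have h1 := Convex.norm_image_sub_le_of_norm_fderiv_le (𝕜 := ℝ) (f := fun z => τ * v z + k z) (s := ball x0 R)
        (C := C2) (fun x hx' => (hκ.differentiableOn (by norm_num)).differentiableAt (hO.mem_nhds (hbO hx')))
        (fun x hx' => hC2 x (hbK hx')) (convex_ball _ _) hz hy
      rw [Real.norm_eq_abs] at h1
      refine h1.trans (mul_le_mul_of_nonneg_right ?_ (norm_nonneg _))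
      have : 0 ≤ (n : ℝ) * D := by positivity
      linarith
    · intro A z t ht hA hz
      have h1 := mean_formula isOpen_ball (hvH.mono isOpen_ball hbO) (hv.continuousOn.mono hbO) hA ht.le hz
      have h2 : 0 ≤ M ((t : ℂ) • A) v z - v z := by
        rw [h1]
        refine intervalIntegral.integral_nonneg ht.le fun r hr => ?_
        refine mul_nonneg (by linarith [hr.1]) (integral_nonneg fun η => mul_nonneg (rho1_nonneg _) ?_)
        exact sA_nonneg74 (h.psd _) A
      have h3 := mean_k74 isOpen_ball (hk2.mono hbO) hD0 (fun y hy => hD y (hbK hy)) A ht hz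
      have h4 : M ((t : ℂ) • A) (fun z => τ * v z + k z) z = τ * M ((t : ℂ) • A) v z + M ((t : ℂ) • A) k z := by
        unfold M
        rw [← integral_const_mul, ← integral_add]
        · refine integral_congr_ae (Eventually.of_forall fun η => ?_)
          simp only
          ring
        · exact (int74 (hv.continuousOn.mono hbO) hz).const_mul τ
        · exact int74 (hk2.continuousOn.mono hbO) hz
      rw [h4]
      have h5 := mul_nonneg hτ h2
      have h6 : (n : ℝ) * D * ‖A‖ ^ 2 * t ^ 2 ≤ (C2 + n * D) * ‖A‖ ^ 2 * t ^ 2 := by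
        gcongr
        linarith
      linarith
  · filter_upwards [hae] with z hz hzb
    exact hH'1 z (hz hzb)

end Pool.Agent.Helper87.RG
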