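import Pool.Agent.Helper87.RG.R0

/-!
# Project REG, block R1a: the form `qf`

`dz` is additive and real homogeneous in `ξ`. `dz_normSq`: `‖ξ‖² = 4 ∑ |dz ξ j|²`: the vectors `e j`, `i e_j` are a real orthonormal basis of `ℂ^n`, so `‖ξ‖² = ∑ (ξ(e_j)² + ξ(i e_j)²)` (the dual norm in a real inner product space; `InnerProductSpace.toDual`, or both inequalities by hand: `|ξ v| ≤ (∑..)^(1/2) ‖v‖` by Cauchy - Schwarz, and `ξ v0 = ‖v0‖²` for `v0 = ∑ (ξ(e_j) + i ξ(i e_j)) e_j`).
`qf_add`, `qf_smul`, `qf_symm` (hermitian `C`: `conj (C_{kj} ξ_j conj η_k) = C_{jk} η_k conj ξ_j`), `qf_self`: `qf C ξ ξ = lf C v` with `v_j = conj (dz ξ j)`, `‖v‖² = ‖ξ‖²/4`.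
`measurable_qf`: measurability of `x ↦ qf (C x) (ξ x) (η x)`.
-/

set_option autoImplicit false

namespace Pool.Agent.Helper87.RG

open MeasureTheory Set Filter Topology Metric
open Helper29.AM
open scoped ComplexOrder

variable {n : ℕ}

theorem dz_add (ξ η : V n →L[ℝ] ℝ) (j : Fin n) : dz (ξ + η) j = dz ξ j + dz η j := by
  unfold dz
  rw [_root_.add_apply, _root_.add_apply]
  push_cast
  ring

theorem dz_smul (c : ℝ) (ξ : V n →L[ℝ] ℝ) (j : Fin n) : dz (c • ξ) j = (c : ℂ) * dz ξ j := by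
  unfold dz
  rw [_root_.smul_apply, _root_.smul_apply, smul_eq_mul, smul_eq_mul]
  push_cast
  ring

theorem dz_normSq (ξ : V n →L[ℝ] ℝ) : ‖ξ‖ ^ 2 = 4 * ∑ j, ‖dz ξ j‖ ^ 2 := by
  have hd : ∀ j, 4 * ‖dz ξ j‖ ^ 2 = ξ (e j) ^ 2 + ξ (Complex.I • e j) ^ 2 := by
    intro j
    rw [← Complex.normSq_eq_norm_sq, Complex.normSq_apply]
    have h1 : (dz ξ j).re = ξ (e j) / 2 := by
      unfold dz
      simp
    have h2 : (dz ξ j).im = -(ξ (Complex.I • e j)) / 2 := by
      unfold dz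
      simp
    rw [h1, h2]
    ring
  rw [Finset.mul_sum, Finset.sum_congr rfl fun j _ => hd j]
  set v0 : V n := WithLp.toLp 2 fun j => ((ξ (e j) : ℂ) + Complex.I * (ξ (Complex.I • e j) : ℂ)) with hv0
  have hv0j : ∀ j, v0 j = (ξ (e j) : ℂ) + Complex.I * (ξ (Complex.I • e j) : ℂ) := fun j => rfl
  have hre : ∀ j, (v0 j).re = ξ (e j) := by
    intro j
    rw [hv0j]
    simp
  have him : ∀ j, (v0 j).im = ξ (Complex.I • e j) := by
    intro j
    rw [hv0j]
    simp
  have hnorm : ‖v0‖ ^ 2 = ∑ j, (ξ (e j) ^ 2 + ξ (Complex.I • e j) ^ 2) := by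
    rw [EuclideanSpace.norm_sq_eq]
    refine Finset.sum_congr rfl fun j _ => ?_
    rw [← Complex.normSq_eq_norm_sq, Complex.normSq_apply, hre, him]
    ring
  have happ : ∀ v : V n, ξ v = (inner ℂ v0 v).re := by
    intro v
    have h1 : v = ∑ j, ((v j).re • e j + (v j).im • (Complex.I • e j)) := by
      ext k
      rw [WithLp.ofLp_sum, Finset.sum_apply, Finset.sum_eq_single k]
      · simp only [e, PiLp.add_apply, PiLp.smul_apply, PiLp.single_apply, if_true, Complex.real_smul,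
          smul_eq_mul, mul_one]
        exact (Complex.re_add_im (v k)).symm
      · intro j _ hj
        simp only [e, PiLp.add_apply, PiLp.smul_apply, PiLp.single_apply, if_neg (Ne.symm hj), smul_zero, add_zero]
      · intro h
        exact absurd (Finset.mem_univ k) h
    have h2 : ξ v = ∑ j, ((v j).re * ξ (e j) + (v j).im * ξ (Complex.I • e j)) := by
      conv_lhs => rw [h1]
      rw [map_sum]
      refine Finset.sum_congr rfl fun j _ => ?_
      rw [map_add, map_smul, map_smul, smul_eq_mul, smul_eq_mul]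
    rw [h2, PiLp.inner_apply, Complex.re_sum]
    refine Finset.sum_congr rfl fun j _ => ?_
    rw [RCLike.inner_apply, Complex.mul_re, Complex.conj_re, Complex.conj_im, hre, him]
    ring
  rw [← hnorm]
  have hle : ‖ξ‖ ≤ ‖v0‖ := by
    refine ContinuousLinearMap.opNorm_le_bound _ (norm_nonneg _) fun v => ?_
    rw [happ v, Real.norm_eq_abs]
    exact (Complex.abs_re_le_norm _).trans (norm_inner_le_norm _ _)
  have hge : ‖v0‖ ≤ ‖ξ‖ := by
    have h1 : ξ v0 = ‖v0‖ ^ 2 := by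
      rw [happ v0, inner_self_eq_norm_sq_to_K]
      norm_cast
    have h2 := ξ.le_opNorm v0
    rw [h1, Real.norm_eq_abs, abs_of_nonneg (by positivity), sq] at h2
    rcases (norm_nonneg v0).eq_or_lt with h3 | h3
    · rw [← h3]
      exact norm_nonneg _
    · exact le_of_mul_le_mul_right h2 h3
  rw [le_antisymm hle hge]

theorem qf_add (C : Mat n) (ξ ξ' η : V n →L[ℝ] ℝ) : qf C (ξ + ξ') η = qf C ξ η + qf C ξ' η := by
  unfold qf
  simp only [dz_add, mul_add, add_mul, Finset.sum_add_distrib, Complex.add_re]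

theorem qf_smul (C : Mat n) (c : ℝ) (ξ η : V n →L[ℝ] ℝ) : qf C (c • ξ) η = c * qf C ξ η := by
  unfold qf
  rw [← Complex.re_ofReal_mul, Finset.mul_sum]
  congr 1
  refine Finset.sum_congr rfl fun j _ => ?_
  rw [Finset.mul_sum]
  refine Finset.sum_congr rfl fun k _ => ?_
  rw [dz_smul]
  ring

theorem qf_symm {C : Mat n} (hC : C.IsHermitian) (ξ η : V n →L[ℝ] ℝ) : qf C ξ η = qf C η ξ := by
  unfold qf
  rw [← Complex.conj_re, map_sum, Finset.sum_congr rfl fun j _ => map_sum _ _ _, Finset.sum_comm]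
  congr 1
  refine Finset.sum_congr rfl fun k _ => ?_
  refine Finset.sum_congr rfl fun j _ => ?_
  rw [map_mul, map_mul, Complex.conj_conj]
  have h1 : (starRingEnd ℂ) (C k j) = C j k := hC.apply j k
  rw [h1]
  ring

theorem qf_self (C : Mat n) (ξ : V n →L[ℝ] ℝ) :
    ∃ v : V n, ‖v‖ ^ 2 = ‖ξ‖ ^ 2 / 4 ∧ qf C ξ ξ = lf C v := by
  refine ⟨WithLp.toLp 2 fun j => (starRingEnd ℂ) (dz ξ j), ?_, ?_⟩
  · rw [EuclideanSpace.norm_sq_eq, dz_normSq]
    simp only [RCLike.norm_conj]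
    ring
  · unfold qf lf
    rw [Finset.sum_comm]
    congr 1
    refine Finset.sum_congr rfl fun k _ => ?_
    refine Finset.sum_congr rfl fun j _ => ?_
    simp only [Complex.conj_conj]
    ring

theorem abs_qf_le (C : Mat n) (ξ η : V n →L[ℝ] ℝ) : |qf C ξ η| ≤ nK C * ‖ξ‖ * ‖η‖ := by
  have hdz : ∀ (ζ : V n →L[ℝ] ℝ) (j : Fin n), ‖dz ζ j‖ ≤ ‖ζ‖ := by
    intro ζ j
    have h1 := dz_normSq ζ
    have h2 : ‖dz ζ j‖ ^ 2 ≤ ∑ k, ‖dz ζ k‖ ^ 2 :=
      Finset.single_le_sum (f := fun k => ‖dz ζ k‖ ^ 2) (fun _ _ => by positivity) (Finset.mem_univ j)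
    refine abs_le_of_sq_le_sq' ?_ (norm_nonneg _) |>.2
    nlinarith [sq_nonneg ‖dz ζ j‖]
  unfold qf nK
  refine (Complex.abs_re_le_norm _).trans ?_
  rw [Finset.sum_comm, Finset.sum_mul, Finset.sum_mul]
  refine (norm_sum_le _ _).trans (Finset.sum_le_sum fun k _ => ?_)
  rw [Finset.sum_mul, Finset.sum_mul]
  refine (norm_sum_le _ _).trans (Finset.sum_le_sum fun j _ => ?_)
  rw [norm_mul, norm_mul, RCLike.norm_conj]
  have h1 := hdz ξ j
  have h2 := hdz η k
  gcongr

theorem measurable_qf {C : V n → Mat n} (hC : ∀ j k, Measurable fun z => C z j k)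
    {ξ η : V n → (V n →L[ℝ] ℝ)} (hξ : Measurable ξ) (hη : Measurable η) :
    Measurable fun z => qf (C z) (ξ z) (η z) := by
  have h1 : ∀ (ζ : V n → (V n →L[ℝ] ℝ)), Measurable ζ → ∀ j, Measurable fun z => dz (ζ z) j := by
    intro ζ hζ j
    unfold dz
    have h2 := hζ.apply_continuousLinearMap (e j)
    have h3 := hζ.apply_continuousLinearMap (Complex.I • e j)
    exact ((Complex.measurable_ofReal.comp h2).sub (measurable_const.mul (Complex.measurable_ofReal.comp h3))).div_const _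
  unfold qf
  refine Complex.measurable_re.comp ?_
  refine Finset.measurable_fun_sum _ fun j _ => ?_
  refine Finset.measurable_fun_sum _ fun k _ => ?_
  exact ((hC k j).mul (h1 ξ hξ j)).mul (Complex.continuous_conj.measurable.comp (h1 η hη k))

end Pool.Agent.Helper87.RG
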