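import Pool.Agent.Helper87.RG.R1a

/-!
# Project REG, block R1b: bounds for the adjugate; ellipticity

`adj_bounds`: `H` positive definite, `tr H ≤ Λ`, `det H ≥ c > 0`: all eigenvalues `λ_i` are in `(0, Λ]`; the adjugate `det(H) H⁻¹` is hermitian with eigenvalues `det(H)/λ_i ≥ c/Λ` and `= ∏_(j ≠ i) λ_j ≤ Λ^(n-1)`. (Diagonalise: `Matrix.IsHermitian.spectral_theorem`, `H.adjugate = H.det • H⁻¹`.)
`det_le`: `det H ≤ Λ^n`. `inv_bounds`: the same for `H⁻¹`: `1/Λ ≤ H⁻¹ ≤ Λ^(n-1)/c`.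
`ell_adj`: assembly with R1a: `fun z => qf (adjugate (H z))` is elliptic with the constants `c/(4 Λ)`, `Λ^(n-1)/4` (`qf_self`). `Mat`-valued measurability of the adjugate: polynomials in the entries (`Matrix.adjugate_apply`, `Matrix.det_apply`).
`pr_adj`: `pr (H.adjugate) K = det(H) pr (H⁻¹) K`.
-/

set_option autoImplicit false
set_option linter.unusedVariables false

namespace Pool.Agent.Helper87.RG

open MeasureTheory Set Filter Topology Metric
open Helper29.AM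
open scoped ComplexOrder

variable {n : ℕ}

open scoped Matrix

private theorem spec56 {H : Mat n} (hH : H.PosDef) : ∃ (U : Mat n) (l : Fin n → ℝ), U.conjTranspose * U = 1 ∧
    U * U.conjTranspose = 1 ∧ (∀ i, 0 < l i) ∧ (Matrix.trace H).re = ∑ i, l i ∧ H.det = ((∏ i, l i : ℝ) : ℂ) ∧
    H⁻¹ = U * Matrix.diagonal (fun i => (((l i)⁻¹ : ℝ) : ℂ)) * U.conjTranspose := by
  obtain ⟨U, hU⟩ : ∃ U : Mat n, U = (hH.1.eigenvectorUnitary : Mat n) := ⟨_, rfl⟩
  have h1 : U.conjTranspose * U = 1 := by rw [hU]; exact Unitary.coe_star_mul_self _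
  have h2 : U * U.conjTranspose = 1 := by rw [hU]; exact Unitary.coe_mul_star_self _
  obtain ⟨l, hl⟩ : ∃ l : Fin n → ℝ, l = hH.1.eigenvalues := ⟨_, rfl⟩
  have hpos : ∀ i, 0 < l i := fun i => hl ▸ hH.eigenvalues_pos i
  have h3 : H = U * Matrix.diagonal (fun i => ((l i : ℝ) : ℂ)) * U.conjTranspose := by
    rw [hU, hl]
    conv_lhs => rw [hH.1.spectral_theorem, Unitary.conjStarAlgAut_apply]
    rfl
  refine ⟨U, l, h1, h2, hpos, ?_, ?_, ?_⟩
  · rw [hH.1.trace_eq_sum_eigenvalues, Complex.re_sum, hl]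
    rfl
  · rw [hH.1.det_eq_prod_eigenvalues, hl]
    push_cast
    rfl
  · apply Matrix.inv_eq_right_inv
    have h5 : Matrix.diagonal (fun i => ((l i : ℝ) : ℂ)) *
        Matrix.diagonal (fun i => (((l i)⁻¹ : ℝ) : ℂ)) = (1 : Mat n) := by
      rw [Matrix.diagonal_mul_diagonal, ← Matrix.diagonal_one]
      congr 1
      funext i
      rw [← Complex.ofReal_mul, mul_inv_cancel₀ (hpos i).ne', Complex.ofReal_one]
    have h6 := congrArg (fun Y => Y *
      (U * Matrix.diagonal (fun i => (((l i)⁻¹ : ℝ) : ℂ)) * U.conjTranspose)) h3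
    refine h6.trans ?_
    calc U * Matrix.diagonal (fun i => ((l i : ℝ) : ℂ)) * U.conjTranspose *
          (U * Matrix.diagonal (fun i => (((l i)⁻¹ : ℝ) : ℂ)) * U.conjTranspose) =
        U * (Matrix.diagonal (fun i => ((l i : ℝ) : ℂ)) * ((U.conjTranspose * U) *
          Matrix.diagonal (fun i => (((l i)⁻¹ : ℝ) : ℂ)))) * U.conjTranspose := by
          simp only [mul_assoc]
      _ = 1 := by rw [h1, one_mul, h5, mul_one, h2]

private theorem adj_eq56 {H : Mat n} (hH : H.PosDef) : H.adjugate = H.det • H⁻¹ := by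
  have hu : IsUnit H.det := (Matrix.isUnit_iff_isUnit_det _).1 hH.isUnit
  calc H.adjugate = H.adjugate * (H * H⁻¹) := by rw [Matrix.mul_nonsing_inv _ hu, mul_one]
    _ = (H.adjugate * H) * H⁻¹ := by rw [mul_assoc]
    _ = H.det • H⁻¹ := by rw [Matrix.adjugate_mul, Matrix.smul_mul, one_mul]

private theorem adj_spec56 {H : Mat n} (hH : H.PosDef) : ∃ (U : Mat n) (l : Fin n → ℝ), U.conjTranspose * U = 1 ∧
    U * U.conjTranspose = 1 ∧ (∀ i, 0 < l i) ∧ (Matrix.trace H).re = ∑ i, l i ∧ H.det = ((∏ i, l i : ℝ) : ℂ) ∧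
    H⁻¹ = U * Matrix.diagonal (fun i => (((l i)⁻¹ : ℝ) : ℂ)) * U.conjTranspose ∧
    H.adjugate = U * Matrix.diagonal (fun i => (((∏ j, l j) * (l i)⁻¹ : ℝ) : ℂ)) * U.conjTranspose := by
  obtain ⟨U, l, h1, h2, h3, h4, h5, h6⟩ := spec56 hH
  refine ⟨U, l, h1, h2, h3, h4, h5, h6, ?_⟩
  rw [adj_eq56 hH, h6, h5]
  have h7 : Matrix.diagonal (fun i => (((∏ j, l j) * (l i)⁻¹ : ℝ) : ℂ)) =
      ((∏ i, l i : ℝ) : ℂ) • Matrix.diagonal (fun i => (((l i)⁻¹ : ℝ) : ℂ)) := by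
    rw [← Matrix.diagonal_smul]
    congr 1
    funext i
    rw [Pi.smul_apply, smul_eq_mul, Complex.ofReal_mul]
  rw [h7, Matrix.mul_smul, Matrix.smul_mul]

private theorem entry56 (U : Mat n) (f : Fin n → ℝ) (j k : Fin n) :
    (U * Matrix.diagonal (fun i => ((f i : ℝ) : ℂ)) * U.conjTranspose) j k = ∑ i, U j i * (f i : ℂ) * (starRingEnd ℂ) (U k i) := by
  rw [Matrix.mul_apply]
  refine Finset.sum_congr rfl fun i _ => ?_
  rw [Matrix.mul_diagonal, Matrix.conjTranspose_apply]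
  rfl

private theorem lf_spec56 (U : Mat n) (v : V n) (f : Fin n → ℝ) :
    lf (U * Matrix.diagonal (fun i => ((f i : ℝ) : ℂ)) * U.conjTranspose) v = ∑ i, f i * ‖∑ j, U j i * v j‖ ^ 2 := by
  unfold lf
  have h1 : (∑ j, ∑ k, (U * Matrix.diagonal (fun i => ((f i : ℝ) : ℂ)) * U.conjTranspose) j k * v j * (starRingEnd ℂ) (v k)) =
      ∑ i, ((f i : ℝ) : ℂ) * ((∑ j, U j i * v j) * (starRingEnd ℂ) (∑ k, U k i * v k)) := by
    have h2 : ∀ i, ((f i : ℝ) : ℂ) * ((∑ j, U j i * v j) * (starRingEnd ℂ) (∑ k, U k i * v k)) =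
        ∑ j, ∑ k, U j i * (f i : ℂ) * (starRingEnd ℂ) (U k i) * v j * (starRingEnd ℂ) (v k) := by
      intro i
      rw [map_sum, Finset.sum_mul_sum, Finset.mul_sum]
      refine Finset.sum_congr rfl fun j _ => ?_
      rw [Finset.mul_sum]
      refine Finset.sum_congr rfl fun k _ => ?_
      rw [map_mul]
      ring
    rw [Finset.sum_congr rfl fun i _ => h2 i]
    refine Eq.trans ?_ Finset.sum_comm
    refine Finset.sum_congr rfl fun j _ => ?_
    refine Eq.trans ?_ Finset.sum_comm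
    refine Finset.sum_congr rfl fun k _ => ?_
    rw [entry56, Finset.sum_mul, Finset.sum_mul]
  rw [h1, Complex.re_sum]
  refine Finset.sum_congr rfl fun i _ => ?_
  rw [Complex.mul_conj, ← Complex.ofReal_mul, Complex.ofReal_re, Complex.normSq_eq_norm_sq]

private theorem sum_sq56 {U : Mat n} (hU : U * U.conjTranspose = 1) (v : V n) : ∑ i, ‖∑ j, U j i * v j‖ ^ 2 = ‖v‖ ^ 2 := by
  have h1 := lf_spec56 U v fun _ => 1
  have h2 : Matrix.diagonal (fun _ : Fin n => (((1 : ℝ) : ℝ) : ℂ)) = (1 : Mat n) := by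
    rw [← Matrix.diagonal_one, Complex.ofReal_one]
  rw [h2, mul_one, hU, lf_one] at h1
  rw [h1]
  exact Finset.sum_congr rfl fun i _ => (one_mul _).symm

private theorem lf_bd56 {U : Mat n} (hU : U * U.conjTranspose = 1) (v : V n) {f : Fin n → ℝ} {a b : ℝ}
    (ha : ∀ i, a ≤ f i) (hb : ∀ i, f i ≤ b) :
    a * ‖v‖ ^ 2 ≤ lf (U * Matrix.diagonal (fun i => ((f i : ℝ) : ℂ)) * U.conjTranspose) v ∧
    lf (U * Matrix.diagonal (fun i => ((f i : ℝ) : ℂ)) * U.conjTranspose) v ≤ b * ‖v‖ ^ 2 := by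
  rw [lf_spec56, ← sum_sq56 hU v, Finset.mul_sum, Finset.mul_sum]
  exact ⟨Finset.sum_le_sum fun i _ => mul_le_mul_of_nonneg_right (ha i) (sq_nonneg _),
    Finset.sum_le_sum fun i _ => mul_le_mul_of_nonneg_right (hb i) (sq_nonneg _)⟩

private theorem prod_bd56 {l : Fin n → ℝ} (hl : ∀ i, 0 < l i) {Λ : ℝ} (h : ∑ i, l i ≤ Λ) (i : Fin n) :
    l i ≤ Λ ∧ 0 < (∏ j, l j) * (l i)⁻¹ ∧ (∏ j, l j) * (l i)⁻¹ ≤ Λ ^ (n - 1) := by
  have hle : ∀ i, l i ≤ Λ := fun i =>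
    (Finset.single_le_sum (f := l) (fun j _ => (hl j).le) (Finset.mem_univ i)).trans h
  have hprod : l i * ∏ j ∈ Finset.univ.erase i, l j = ∏ j, l j := Finset.mul_prod_erase _ _ (Finset.mem_univ i)
  have h1 : (∏ j, l j) * (l i)⁻¹ = ∏ j ∈ Finset.univ.erase i, l j := by
    rw [← hprod]
    field_simp [(hl i).ne']
  refine ⟨hle i, mul_pos (Finset.prod_pos fun j _ => hl j) (inv_pos.2 (hl i)), ?_⟩
  rw [h1]
  have h2 : ∏ j ∈ Finset.univ.erase i, l j ≤ ∏ _j ∈ Finset.univ.erase i, Λ :=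
    Finset.prod_le_prod (fun j _ => (hl j).le) fun j _ => hle j
  rwa [Finset.prod_const, Finset.card_erase_of_mem (Finset.mem_univ _), Finset.card_univ, Fintype.card_fin] at h2

private theorem herm56 (U : Mat n) (f : Fin n → ℝ) :
    (U * Matrix.diagonal (fun i => ((f i : ℝ) : ℂ)) * U.conjTranspose).IsHermitian := by
  ext j k
  rw [Matrix.conjTranspose_apply, entry56, entry56, star_sum]
  refine Finset.sum_congr rfl fun i _ => ?_
  rw [star_mul', star_mul']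
  change (starRingEnd ℂ) (U k i) * (starRingEnd ℂ) (f i : ℂ) * (starRingEnd ℂ) ((starRingEnd ℂ) (U j i)) = _
  rw [Complex.conj_ofReal, Complex.conj_conj]
  ring

theorem adj_bounds (hn : 0 < n) {H : Mat n} (hH : H.PosDef) {c Λ : ℝ} (hc : 0 < c) (htr : (Matrix.trace H).re ≤ Λ)
    (hdet : c ≤ H.det.re) : H.adjugate.PosDef ∧ (∀ v : V n, c / Λ * ‖v‖ ^ 2 ≤ lf H.adjugate v) ∧
      ∀ v : V n, lf H.adjugate v ≤ Λ ^ (n - 1) * ‖v‖ ^ 2 := by
  obtain ⟨U, l, h1, h2, h3, h4, h5, h6, h7⟩ := adj_spec56 hH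
  rw [h4] at htr
  rw [h5, Complex.ofReal_re] at hdet
  have hb := prod_bd56 h3 htr
  have hlow : ∀ i, c / Λ ≤ (∏ j, l j) * (l i)⁻¹ := fun i => by
    rw [← div_eq_mul_inv]
    exact div_le_div₀ (hc.le.trans hdet) hdet (h3 i) (hb i).1
  have key : ∀ v : V n, c / Λ * ‖v‖ ^ 2 ≤ lf H.adjugate v ∧ lf H.adjugate v ≤ Λ ^ (n - 1) * ‖v‖ ^ 2 := fun v => by
    rw [h7]
    exact lf_bd56 h2 v hlow fun i => (hb i).2.2
  refine ⟨?_, fun v => (key v).1, fun v => (key v).2⟩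
  have hinv := hH.inv
  rw [adj_eq56 hH, h5]
  have hpos : 0 < ∏ i, l i := Finset.prod_pos fun i _ => h3 i
  have h8 : (((∏ i, l i : ℝ) : ℂ) • H⁻¹) = (∏ i, l i : ℝ) • H⁻¹ := by
    ext j k
    rw [Matrix.smul_apply, Matrix.smul_apply, smul_eq_mul, Complex.real_smul]
  rw [h8]
  exact hinv.smul hpos

theorem det_le (hn : 0 < n) {H : Mat n} (hH : H.PosDef) {Λ : ℝ} (htr : (Matrix.trace H).re ≤ Λ) :
    0 < H.det.re ∧ H.det.re ≤ Λ ^ n ∧ H.det = (H.det.re : ℂ) := by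
  obtain ⟨U, l, h1, h2, h3, h4, h5, h6⟩ := spec56 hH
  rw [h4] at htr
  have hb := prod_bd56 h3 htr
  rw [h5, Complex.ofReal_re]
  refine ⟨Finset.prod_pos fun i _ => h3 i, ?_, rfl⟩
  have h7 : ∏ j, l j ≤ ∏ _j : Fin n, Λ := Finset.prod_le_prod (fun j _ => (h3 j).le) fun j _ => (hb j).1
  rwa [Finset.prod_const, Finset.card_univ, Fintype.card_fin] at h7

theorem inv_bounds (hn : 0 < n) {H : Mat n} (hH : H.PosDef) {c Λ : ℝ} (hc : 0 < c) (htr : (Matrix.trace H).re ≤ Λ)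
    (hdet : c ≤ H.det.re) : H⁻¹.PosDef ∧ (∀ v : V n, 1 / Λ * ‖v‖ ^ 2 ≤ lf H⁻¹ v) ∧
      ∀ v : V n, lf H⁻¹ v ≤ Λ ^ (n - 1) / c * ‖v‖ ^ 2 := by
  obtain ⟨U, l, h1, h2, h3, h4, h5, h6⟩ := spec56 hH
  rw [h4] at htr
  rw [h5, Complex.ofReal_re] at hdet
  have hb := prod_bd56 h3 htr
  have key : ∀ v : V n, 1 / Λ * ‖v‖ ^ 2 ≤ lf H⁻¹ v ∧ lf H⁻¹ v ≤ Λ ^ (n - 1) / c * ‖v‖ ^ 2 := fun v => by
    rw [h6]
    refine lf_bd56 h2 v (fun i => ?_) fun i => ?_
    · rw [← one_div]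
      exact one_div_le_one_div_of_le (h3 i) (hb i).1
    · rw [le_div_iff₀ hc]
      have h7 : (l i)⁻¹ * c ≤ (l i)⁻¹ * ∏ j, l j := mul_le_mul_of_nonneg_left hdet (inv_pos.2 (h3 i)).le
      have h8 := (hb i).2.2
      rw [mul_comm] at h8
      exact h7.trans h8
  exact ⟨hH.inv, fun v => (key v).1, fun v => (key v).2⟩

theorem pr_adj {H : Mat n} (hH : H.PosDef) (K : Mat n) : pr H.adjugate K = H.det.re * pr H⁻¹ K := by
  obtain ⟨U, l, h1, h2, h3, h4, h5, h6⟩ := spec56 hH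
  unfold pr
  rw [adj_eq56 hH, Matrix.smul_mul, Matrix.trace_smul, smul_eq_mul, h5, Complex.re_ofReal_mul, Complex.ofReal_re]

theorem measurable_adj {H : V n → Mat n} (hH : ∀ j k, Measurable fun z => H z j k) (j k : Fin n) :
    Measurable fun z => (H z).adjugate j k := by
  have h1 : (fun z => (H z).adjugate j k) = fun z => ∑ σ : Equiv.Perm (Fin n), ((Equiv.Perm.sign σ : ℤ) : ℂ) *
      ∏ i, ((H z).updateRow k (Pi.single j 1)) (σ i) i := by
    funext z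
    rw [Matrix.adjugate_apply, Matrix.det_apply']
  rw [h1]
  refine Finset.measurable_sum _ fun σ _ => measurable_const.mul (Finset.measurable_prod _ fun i _ => ?_)
  by_cases h : σ i = k
  · have h2 : (fun z => ((H z).updateRow k (Pi.single j 1)) (σ i) i) = fun _ => (Pi.single j 1 : Fin n → ℂ) i := by
      funext z
      rw [h, Matrix.updateRow_self]
    rw [h2]
    exact measurable_const
  · have h2 : (fun z => ((H z).updateRow k (Pi.single j 1)) (σ i) i) = fun z => H z (σ i) i := by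
      funext z
      rw [Matrix.updateRow_ne h]
    rw [h2]
    exact hH _ _

theorem nK_adj_le {H : Mat n} (hH : H.PosDef) {Λ : ℝ} (htr : (Matrix.trace H).re ≤ Λ) :
    nK H.adjugate ≤ n ^ 2 * Λ ^ (n - 1) := by
  obtain ⟨U, l, h1, h2, h3, h4, h5, h6, h7⟩ := adj_spec56 hH
  rw [h4] at htr
  have hb := prod_bd56 h3 htr
  have hrow : ∀ j, ∑ i, ‖U j i‖ ^ 2 = 1 := by
    intro j
    have h8 := congrArg (fun K : Mat n => K j j) h2
    simp only [Matrix.mul_apply, Matrix.conjTranspose_apply, Matrix.one_apply_eq] at h8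
    have h9 : ∑ i, U j i * star (U j i) = ((∑ i, ‖U j i‖ ^ 2 : ℝ) : ℂ) := by
      push_cast
      refine Finset.sum_congr rfl fun i _ => ?_
      change U j i * (starRingEnd ℂ) (U j i) = _
      rw [Complex.mul_conj, Complex.normSq_eq_norm_sq]
      push_cast
      rfl
    rw [h9] at h8
    exact_mod_cast h8
  have hent : ∀ j k, ‖H.adjugate j k‖ ≤ Λ ^ (n - 1) := by
    intro j k
    rw [h7, entry56]
    refine (norm_sum_le _ _).trans ?_
    have h10 : ∀ i ∈ (Finset.univ : Finset (Fin n)), ‖U j i * (((∏ j, l j) * (l i)⁻¹ : ℝ) : ℂ) * (starRingEnd ℂ) (U k i)‖ ≤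
        Λ ^ (n - 1) * ((‖U j i‖ ^ 2 + ‖U k i‖ ^ 2) / 2) := by
      intro i _
      rw [norm_mul, norm_mul, Complex.norm_real, Real.norm_of_nonneg (hb i).2.1.le, RCLike.norm_conj]
      have h11 : ‖U j i‖ * ‖U k i‖ ≤ (‖U j i‖ ^ 2 + ‖U k i‖ ^ 2) / 2 := by
        nlinarith [sq_nonneg (‖U j i‖ - ‖U k i‖)]
      calc ‖U j i‖ * ((∏ j, l j) * (l i)⁻¹) * ‖U k i‖ = ((∏ j, l j) * (l i)⁻¹) * (‖U j i‖ * ‖U k i‖) := by ring
        _ ≤ Λ ^ (n - 1) * ((‖U j i‖ ^ 2 + ‖U k i‖ ^ 2) / 2) :=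
          mul_le_mul (hb i).2.2 h11 (mul_nonneg (norm_nonneg _) (norm_nonneg _)) ((hb i).2.1.le.trans (hb i).2.2)
    refine (Finset.sum_le_sum h10).trans ?_
    rw [← Finset.mul_sum, ← Finset.sum_div, Finset.sum_add_distrib, hrow, hrow]
    norm_num
  unfold nK
  calc ∑ j, ∑ k, ‖H.adjugate j k‖ ≤ ∑ _j : Fin n, ∑ _k : Fin n, Λ ^ (n - 1) :=
        Finset.sum_le_sum fun j _ => Finset.sum_le_sum fun k _ => hent j k
    _ = n ^ 2 * Λ ^ (n - 1) := by
      simp only [Finset.sum_const, Finset.card_univ, Fintype.card_fin, nsmul_eq_mul]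
      ring

theorem ell_adj (hn : 0 < n) {H : V n → Mat n} (hm : ∀ j k, Measurable fun z => H z j k) (hpd : ∀ z, (H z).PosDef)
    {c Λ : ℝ} (hc : 0 < c) (htr : ∀ z, (Matrix.trace (H z)).re ≤ Λ) (hdet : ∀ z, c ≤ (H z).det.re) :
    Ell (fun z => qf (H z).adjugate) (c / (4 * Λ)) (Λ ^ (n - 1) / 4) where
  meas ξ η hξ hη := measurable_qf (fun j k => measurable_adj hm j k) hξ hη
  add x ξ ξ' η := qf_add _ _ _ _
  smul x c ξ η := qf_smul _ _ _ _
  symm x ξ η := qf_symm (adj_bounds hn (hpd x) hc (htr x) (hdet x)).1.1 _ _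
  lower x ξ := by
    obtain ⟨v, hv, hv'⟩ := qf_self (H x).adjugate ξ
    have h1 := (adj_bounds hn (hpd x) hc (htr x) (hdet x)).2.1 v
    rw [hv, ← hv'] at h1
    refine le_trans (le_of_eq ?_) h1
    rw [mul_comm (4 : ℝ) Λ, ← div_div]
    ring
  upper x ξ := by
    obtain ⟨v, hv, hv'⟩ := qf_self (H x).adjugate ξ
    have h1 := (adj_bounds hn (hpd x) hc (htr x) (hdet x)).2.2 v
    rw [hv, ← hv'] at h1
    refine h1.trans (le_of_eq ?_)
    ring

end Pool.Agent.Helper87.RG
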