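import Pool.Agent.Helper87.RG.R3

/-!
# Project REG, block R4: convergence of `vA` in `L¹`

`tendsto_vA`: for compact `K ⊆ Ω`: `∫_K |vA A h u - sA A ∘ H| → 0` as `h → 0+`. PROOF. Let `s = sA A ∘ H` on a compact neighbourhood of `K` in `Ω`, zero outside: bounded, measurable, compact support, so integrable. By `mean_formula`, `vA A h u z - s z = (a h²)⁻¹ ∫_0^h 2 r ∫ ρ₁(η) (s(z + r A η) - s z) dη dr`, so by Tonelli
`∫_K |vA A h u - s| ≤ (a h²)⁻¹ ∫_0^h 2 r ∫ ρ₁(η) T(r A η) dη dr ≤ sup_(‖y‖ ≤ h ‖A‖) T(y)`, `T(y) = ∫ |s(z + y) - s z| dz → 0` as `y → 0` (translation is continuous in `L¹`: approximate `s` by a continuous function with compact support, `MeasureTheory.Integrable.exists_hasCompactSupport_integral_sub_le`).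
-/

set_option autoImplicit false

namespace Pool.Agent.Helper87.RG

open MeasureTheory Set Filter Topology Metric
open Helper29.AM
open scoped ComplexOrder

variable {n : ℕ}

/-- continuity of translations in `L¹` -/
theorem tendsto_translate {s : V n → ℝ} (hs : Integrable s) :
    Tendsto (fun y => ∫ z, |s (z + y) - s z|) (𝓝 0) (𝓝 0) := by
  have hg : Continuous fun y : V n => (⟨fun z => z + y, by fun_prop⟩ : C(V n, V n)) :=
    ContinuousMap.continuous_of_continuous_uncurry _ (by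
      show Continuous fun p : V n × V n => p.2 + p.1
      fun_prop)
  have hmp : ∀ y : V n, MeasurePreserving (⟨fun z => z + y, by fun_prop⟩ : C(V n, V n))
      (volume : Measure (V n)) volume := fun y => measurePreserving_add_right volume y
  have h1 := (tendsto_const_nhds (x := hs.toL1 s) (f := 𝓝 (0 : V n))).compMeasurePreservingLp
    (hg.tendsto 0) hmp (hmp 0) ENNReal.one_ne_top
  have h2 := tendsto_iff_norm_sub_tendsto_zero.1 h1
  refine h2.congr fun y => ?_
  rw [L1.norm_eq_integral_norm]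
  refine integral_congr_ae ?_
  have e0 := Integrable.coeFn_toL1 hs
  have e1 := Lp.coeFn_compMeasurePreserving (hs.toL1 s) (hmp y)
  have e2 := Lp.coeFn_compMeasurePreserving (hs.toL1 s) (hmp 0)
  have e3 := Lp.coeFn_sub (Lp.compMeasurePreserving _ (hmp y) (hs.toL1 s))
    (Lp.compMeasurePreserving _ (hmp 0) (hs.toL1 s))
  have e4 := (hmp y).quasiMeasurePreserving.ae e0
  filter_upwards [e0, e1, e2, e3, e4] with z h0 h1 h2 h3 h4
  rw [h3, Pi.sub_apply, h1, h2, Real.norm_eq_abs]
  simp only [Function.comp_apply, ContinuousMap.coe_mk, add_zero] at h4 ⊢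
  rw [h4, h0]

/-- the difference as an average -/
private theorem diff41 {Ω : Set (V n)} (hΩ : IsOpen Ω) {u : V n → ℝ} {H : V n → Mat n} (hb : BH Ω u H)
    (hu : ContinuousOn u Ω) {A : Lin n} (hA : A.det ≠ 0) {z : V n} {h : ℝ} (hh : 0 < h) {K' : Set (V n)}
    (hK' : K' ⊆ Ω) (hK'c : IsCompact K') (hz : ellIn A h z K') {s : V n → ℝ} (hs : ∀ y ∈ K', s y = sA A (H y))
    (hzK : z ∈ K') :
    vA A h u z - sA A (H z) =
      ∫ r in (0 : ℝ)..h, 2 * r / (aa n * h ^ 2) * ∫ η : V n, rho1 η * (s (z + ((r : ℂ) • A) η) - s z) := by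
  have haa := aa_pos (n := n)
  obtain ⟨h1, h2⟩ := rhs41 hb A hh.le hK' hK'c hz
  have e1 : ∀ r ∈ Ioc (0 : ℝ) h, ∫ η : V n, rho1 η * (s (z + ((r : ℂ) • A) η) - s z) =
      M1 ((r : ℂ) • A) (fun y => sA A (H y)) z - aa n * s z := by
    intro r hr
    have e2 : ∀ η : V n, rho1 η * (s (z + ((r : ℂ) • A) η) - s z) =
        rho1 η * sA A (H (z + ((r : ℂ) • A) η)) - rho1 η * s z := by
      intro η
      rcases le_or_gt ‖η‖ 1 with h4 | h4
      · rw [hs _ (ellIn_mono hz hr.1.le hr.2 η h4)]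
        ring
      · rw [rho1_eq_zero h4.le]
        ring
    simp only [e2]
    rw [integral_sub (h1 r ⟨hr.1.le, hr.2⟩) (rho1_integrable.mul_const _), integral_mul_const]
    rfl
  have e3 : ∫ r in (0 : ℝ)..h, 2 * r / (aa n * h ^ 2) * ∫ η : V n, rho1 η * (s (z + ((r : ℂ) • A) η) - s z) =
      ∫ r in (0 : ℝ)..h, (2 * r * M1 ((r : ℂ) • A) (fun y => sA A (H y)) z - 2 * r * (aa n * s z)) /
        (aa n * h ^ 2) := by
    refine intervalIntegral.integral_congr_ae (Eventually.of_forall fun r hr => ?_)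
    rw [uIoc_of_le hh.le] at hr
    rw [e1 r hr]
    ring
  rw [e3, intervalIntegral.integral_div, intervalIntegral.integral_sub h2
    ((by fun_prop : Continuous fun r : ℝ => 2 * r * (aa n * s z)).intervalIntegrable _ _), int41,
    ← mean_formula hΩ hb hu hA hh.le (fun η hη => hK' (hz η hη)), vA, sub_div, ← hs z hzK]
  field_simp

private theorem point41 {Ω : Set (V n)} (hΩ : IsOpen Ω) {u : V n → ℝ} {H : V n → Mat n} (hb : BH Ω u H)
    (hu : ContinuousOn u Ω) {A : Lin n} (hA : A.det ≠ 0) {z : V n} {h : ℝ} (hh : 0 < h) {K' : Set (V n)}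
    (hK' : K' ⊆ Ω) (hK'c : IsCompact K') (hz : ellIn A h z K') {s : V n → ℝ} (hs : ∀ y ∈ K', s y = sA A (H y))
    (hsm : Measurable s) (hzK : z ∈ K') :
    ‖vA A h u z - sA A (H z)‖ₑ ≤ ∫⁻ p : ℝ × V n, ‖2 * p.1 / (aa n * h ^ 2)‖ₑ *
      (‖rho1 p.2‖ₑ * ‖s (z + ((p.1 : ℂ) • A) p.2) - s z‖ₑ) ∂((volume.restrict (Ioc 0 h)).prod volume) := by
  have hc : Continuous fun p : ℝ × V n => z + ((p.1 : ℂ) • A) p.2 := by
    have h2 : (fun p : ℝ × V n => z + ((p.1 : ℂ) • A) p.2) = fun p : ℝ × V n => z + (p.1 : ℂ) • A p.2 := rfl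
    rw [h2]
    fun_prop
  have hm : Measurable fun p : ℝ × V n => ‖2 * p.1 / (aa n * h ^ 2)‖ₑ *
      (‖rho1 p.2‖ₑ * ‖s (z + ((p.1 : ℂ) • A) p.2) - s z‖ₑ) := by
    have m1 : Measurable fun p : ℝ × V n => 2 * p.1 / (aa n * h ^ 2) := by fun_prop
    have m2 : Measurable fun p : ℝ × V n => rho1 p.2 := rho1_contDiff.continuous.measurable.comp measurable_snd
    have m3 : Measurable fun p : ℝ × V n => s (z + ((p.1 : ℂ) • A) p.2) - s z :=
      (hsm.comp hc.measurable).sub_const _
    exact m1.enorm.mul (m2.enorm.mul m3.enorm)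
  rw [lintegral_prod _ hm.aemeasurable, diff41 hΩ hb hu hA hh hK' hK'c hz hs hzK,
    intervalIntegral.integral_of_le hh.le]
  refine (enorm_integral_le_lintegral_enorm _).trans (lintegral_mono fun r => ?_)
  rw [enorm_mul]
  show _ ≤ ∫⁻ η : V n, ‖2 * r / (aa n * h ^ 2)‖ₑ * (‖rho1 η‖ₑ * ‖s (z + ((r : ℂ) • A) η) - s z‖ₑ)
  rw [lintegral_const_mul' _ _ enorm_ne_top]
  refine mul_le_mul_right ((enorm_integral_le_lintegral_enorm _).trans (lintegral_mono fun η => ?_)) _
  rw [enorm_mul]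

theorem tendsto_vA {Ω : Set (V n)} (hΩ : IsOpen Ω) {u : V n → ℝ} {H : V n → Mat n} (hb : BH Ω u H)
    (hu : ContinuousOn u Ω) {A : Lin n} (hA : A.det ≠ 0) {K : Set (V n)} (hK : IsCompact K) (hKΩ : K ⊆ Ω) :
    Tendsto (fun h => ∫ z in K, |vA A h u z - sA A (H z)|) (𝓝[>] 0) (𝓝 0) := by
  obtain ⟨δ, hδ, hδΩ⟩ := hK.exists_cthickening_subset_open hΩ hKΩ
  have hK'c : IsCompact (cthickening δ K) := hK.cthickening
  set K' : Set (V n) := cthickening δ K with hK'def
  obtain ⟨C, hC⟩ := hb.bdd _ hδΩ hK'c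
  obtain ⟨B, hB0, hB⟩ := sA_abs41 A
  have hm := sA_meas41 A hb.meas
  have haa := aa_pos (n := n)
  set s : V n → ℝ := K'.indicator (fun y => sA A (H y)) with hsdef
  have hsm : Measurable s := hm.indicator hK'c.measurableSet
  have hs : ∀ y ∈ K', s y = sA A (H y) := fun y hy => indicator_of_mem hy _
  have hsi : Integrable s := by
    rw [hsdef, integrable_indicator_iff hK'c.measurableSet]
    refine Measure.integrableOn_of_bounded (M := C * B) hK'c.measure_lt_top.ne hm.aestronglyMeasurable ?_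
    exact (ae_restrict_iff' hK'c.measurableSet).2 (Eventually.of_forall fun y hy => hB _ _ (hC y hy))
  have hT := tendsto_translate hsi
  rw [Metric.tendsto_nhds] at hT
  rw [Metric.tendsto_nhds]
  intro ε hε
  obtain ⟨r₀, hr₀, hT'⟩ := Metric.eventually_nhds_iff.1 (hT (ε / 4) (by positivity))
  have hTr : ∀ y : V n, ‖y‖ < r₀ → ∫⁻ z, ‖s (z + y) - s z‖ₑ ≤ ENNReal.ofReal (ε / 4) := by
    intro y hy
    have h1 := hT' (y := y) (by rwa [dist_zero_right])
    rw [Real.dist_0_eq_abs, abs_of_nonneg (integral_nonneg fun z => abs_nonneg _)] at h1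
    have h2 : Integrable fun z => s (z + y) - s z := (hsi.comp_add_right y).sub hsi
    have h3 := ofReal_integral_norm_eq_lintegral_enorm h2
    rw [← h3]
    exact ENNReal.ofReal_le_ofReal h1.le
  have hev : ∀ᶠ h in 𝓝[>] (0 : ℝ), h ∈ Ioo 0 (min δ r₀ / (‖A‖ + 1)) := Ioo_mem_nhdsGT (by positivity)
  filter_upwards [hev] with h hh
  have hA1 : (0 : ℝ) < ‖A‖ + 1 := by positivity
  have hhA : h * (‖A‖ + 1) < min δ r₀ := (lt_div_iff₀ hA1).1 hh.2
  have hrn : ∀ r ∈ Ioc (0 : ℝ) h, ∀ η : V n, ‖η‖ ≤ 1 → ‖((r : ℂ) • A) η‖ < min δ r₀ := by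
    intro r hr η hη
    show ‖(r : ℂ) • A η‖ < _
    rw [norm_smul, Complex.norm_real, Real.norm_of_nonneg hr.1.le]
    calc r * ‖A η‖ ≤ h * (‖A‖ * 1) := mul_le_mul hr.2 ((A.le_opNorm η).trans
            (mul_le_mul_of_nonneg_left hη (norm_nonneg _))) (norm_nonneg _) hh.1.le
      _ ≤ h * (‖A‖ + 1) := mul_le_mul_of_nonneg_left (by linarith) hh.1.le
      _ < _ := hhA
  have hell : ∀ z ∈ K, ellIn A h z K' := by
    intro z hz η hη
    refine closedBall_subset_cthickening hz δ ?_
    rw [mem_closedBall, dist_eq_norm, add_sub_cancel_left]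
    exact ((hrn h ⟨hh.1, le_rfl⟩ η hη).trans_le (min_le_left _ _)).le
  rw [Real.dist_0_eq_abs, abs_of_nonneg (integral_nonneg fun z => abs_nonneg _)]
  have key : ‖∫ z in K, |vA A h u z - sA A (H z)|‖ₑ ≤ ENNReal.ofReal (ε / 2) := by
    set F : V n → ℝ × V n → ENNReal := fun z p => ‖2 * p.1 / (aa n * h ^ 2)‖ₑ *
      (‖rho1 p.2‖ₑ * ‖s (z + ((p.1 : ℂ) • A) p.2) - s z‖ₑ) with hF
    have hFm : Measurable (Function.uncurry F) := by
      have hc : Continuous fun q : V n × (ℝ × V n) => q.1 + ((q.2.1 : ℂ) • A) q.2.2 := by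
        have h2 : (fun q : V n × (ℝ × V n) => q.1 + ((q.2.1 : ℂ) • A) q.2.2) =
          fun q : V n × (ℝ × V n) => q.1 + (q.2.1 : ℂ) • A q.2.2 := rfl
        rw [h2]
        fun_prop
      have m1 : Measurable fun q : V n × (ℝ × V n) => 2 * q.2.1 / (aa n * h ^ 2) := by fun_prop
      have m2 : Measurable fun q : V n × (ℝ × V n) => rho1 q.2.2 :=
        rho1_contDiff.continuous.measurable.comp (measurable_snd.comp measurable_snd)
      have m3 : Measurable fun q : V n × (ℝ × V n) => s (q.1 + ((q.2.1 : ℂ) • A) q.2.2) - s q.1 :=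
        (hsm.comp hc.measurable).sub (hsm.comp measurable_fst)
      exact m1.enorm.mul (m2.enorm.mul m3.enorm)
    calc ‖∫ z in K, |vA A h u z - sA A (H z)|‖ₑ
        ≤ ∫⁻ z in K, ‖|vA A h u z - sA A (H z)|‖ₑ := enorm_integral_le_lintegral_enorm _
      _ ≤ ∫⁻ z in K, ∫⁻ p, F z p ∂((volume.restrict (Ioc 0 h)).prod volume) := by
          refine setLIntegral_mono' hK.measurableSet fun z hz => ?_
          rw [Real.enorm_abs]
          exact point41 hΩ hb hu hA hh.1 hδΩ hK'c (hell z hz) hs hsm (self_subset_cthickening K hz)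
      _ ≤ ∫⁻ z, ∫⁻ p, F z p ∂((volume.restrict (Ioc 0 h)).prod volume) := setLIntegral_le_lintegral _ _
      _ = ∫⁻ p, (∫⁻ z, F z p) ∂((volume.restrict (Ioc 0 h)).prod volume) :=
          lintegral_lintegral_swap hFm.aemeasurable
      _ ≤ ∫⁻ p : ℝ × V n, ENNReal.ofReal (2 / (aa n * h)) * (‖rho1 p.2‖ₑ * ENNReal.ofReal (ε / 4))
            ∂((volume.restrict (Ioc 0 h)).prod volume) := by
          have hae : ∀ᵐ p ∂((volume.restrict (Ioc (0 : ℝ) h)).prod (volume : Measure (V n))), p.1 ∈ Ioc 0 h :=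
            Measure.quasiMeasurePreserving_fst.ae (ae_restrict_mem measurableSet_Ioc)
          refine lintegral_mono_ae ?_
          filter_upwards [hae] with p hp
          simp only [hF]
          rw [lintegral_const_mul' _ _ enorm_ne_top, lintegral_const_mul' _ _ enorm_ne_top]
          refine mul_le_mul' ?_ ?_
          · rw [Real.enorm_of_nonneg (by have := hp.1; positivity)]
            refine ENNReal.ofReal_le_ofReal ?_
            have h1 := hh.1
            rw [div_le_div_iff₀ (by positivity) (by positivity)]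
            nlinarith [mul_le_mul_of_nonneg_left hp.2 (by positivity : 0 ≤ 2 * aa n * h)]
          · rcases le_or_gt ‖p.2‖ 1 with h4 | h4
            · exact mul_le_mul_right (hTr _ ((hrn p.1 hp p.2 h4).trans_le (min_le_right _ _))) _
            · rw [rho1_eq_zero h4.le, enorm_zero, zero_mul, zero_mul]
      _ ≤ ENNReal.ofReal (ε / 2) := by
          have m2 : Measurable fun p : ℝ × V n => ENNReal.ofReal (2 / (aa n * h)) *
              (‖rho1 p.2‖ₑ * ENNReal.ofReal (ε / 4)) :=
            ((rho1_contDiff.continuous.measurable.comp measurable_snd).enorm.mul_const _).const_mul _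
          rw [lintegral_prod _ m2.aemeasurable]
          have h1 : ∫⁻ η : V n, ‖rho1 η‖ₑ = ENNReal.ofReal (aa n) := by
            rw [← ofReal_integral_norm_eq_lintegral_enorm rho1_integrable, aa]
            congr 1
            exact integral_congr_ae (Eventually.of_forall fun η => Real.norm_of_nonneg (rho1_nonneg η))
          have h2 : ∀ r : ℝ, ∫⁻ η : V n, ENNReal.ofReal (2 / (aa n * h)) *
              (‖rho1 η‖ₑ * ENNReal.ofReal (ε / 4)) =
              ENNReal.ofReal (2 / (aa n * h)) * (ENNReal.ofReal (aa n) * ENNReal.ofReal (ε / 4)) := by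
            intro r
            rw [lintegral_const_mul' _ _ ENNReal.ofReal_ne_top, lintegral_mul_const' _ _ ENNReal.ofReal_ne_top, h1]
          dsimp only
          rw [lintegral_const, Measure.restrict_apply MeasurableSet.univ, univ_inter, Real.volume_Ioc, sub_zero,
            h2 0, ← ENNReal.ofReal_mul haa.le, ← ENNReal.ofReal_mul (by have := hh.1; positivity),
            ← ENNReal.ofReal_mul (by have := hh.1; positivity)]
          refine ENNReal.ofReal_le_ofReal (le_of_eq ?_)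
          have h1 := hh.1.ne'
          field_simp
          ring
  rw [Real.enorm_of_nonneg (integral_nonneg fun z => abs_nonneg _),
    ENNReal.ofReal_le_ofReal_iff (by positivity)] at key
  linarith

end Pool.Agent.Helper87.RG
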