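import Pool.Agent.Helper87.RG.R5a

/-!
# Project REG, block R5b: `vA` is a weak subsolution ((7.4))

`weak_sub`. PROOF. By `weak_id` it is enough that `pr (adj (H z)) (MH (hA) H z - H z) ≥ - Λ^n B ‖A‖² h²` for a.e. `z` in `tsupport η` (then multiply by `η ≥ 0` and integrate).
`pr (adj (H z)) K = det(H z) pr (H z)⁻¹ K` (`pr_adj`), and `pr (H z)⁻¹ (MH (hA) H z - H z) = ∫ ρ(ζ) pr (H z)⁻¹ (H(z + hAζ) - H z) dζ ≥ ∫ ρ(ζ) (log det H(z + hAζ) - log det H z) dζ` (`log_det_le` with `K = H(z + hAζ)`). For a.e. `z`: `log det H z = κ z`; `log det H(z + hAζ) = κ(z + hAζ)` for a.e. `ζ` with `‖ζ‖ ≤ 1` (`ζ ↦ z + hAζ` preserves null sets, `det A ≠ 0`).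
So it is `≥ M (hA) κ z - κ z ≥ - B ‖A‖² h²` (`RegLoc.mean`), and `det(H z) ≤ Λ^n` (`det_le`). (`log det H` is bounded on account of `c ≤ det H ≤ Λ^n`, so everything is integrable.)
-/

set_option autoImplicit false

namespace Pool.Agent.Helper87.RG

open MeasureTheory Set Filter Topology Metric
open Helper29.AM
open scoped ComplexOrder

variable {n : ℕ}

private theorem pr_sub26 (P K L : Mat n) : pr P (K - L) = pr P K - pr P L := by
  unfold pr
  rw [mul_sub, Matrix.trace_sub, Complex.sub_re]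

private theorem pr_MH26 (P : Mat n) {T : Lin n} {H : V n → Mat n} {z : V n}
    (hint : ∀ j k, Integrable (fun ζ : V n => (rho ζ : ℂ) * H (z + T ζ) j k)) :
    Integrable (fun ζ => rho ζ * pr P (H (z + T ζ))) ∧
      pr P (MH T H z) = ∫ ζ, rho ζ * pr P (H (z + T ζ)) := by
  have hf : Integrable (fun ζ : V n => ∑ j, ∑ k, P j k * ((rho ζ : ℂ) * H (z + T ζ) k j)) :=
    integrable_finsetSum _ fun j _ => integrable_finsetSum _ fun k _ => (hint k j).const_mul _
  have hre : ∀ ζ : V n, (∑ j, ∑ k, P j k * ((rho ζ : ℂ) * H (z + T ζ) k j)).re =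
      rho ζ * pr P (H (z + T ζ)) := by
    intro ζ
    unfold pr
    rw [← Complex.re_ofReal_mul]
    congr 1
    rw [Matrix.trace, Finset.mul_sum]
    refine Finset.sum_congr rfl fun j _ => ?_
    rw [Matrix.diag_apply, Matrix.mul_apply, Finset.mul_sum]
    refine Finset.sum_congr rfl fun k _ => ?_
    ring
  have h1 : Integrable (fun ζ : V n => (∑ j, ∑ k, P j k * ((rho ζ : ℂ) * H (z + T ζ) k j)).re) := hf.re
  have h2 : ∫ ζ : V n, (∑ j, ∑ k, P j k * ((rho ζ : ℂ) * H (z + T ζ) k j)).re =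
      (∫ ζ : V n, ∑ j, ∑ k, P j k * ((rho ζ : ℂ) * H (z + T ζ) k j)).re := integral_re hf
  simp only [hre] at h1 h2
  refine ⟨h1, ?_⟩
  have h3 : ∫ ζ : V n, ∑ j, ∑ k, P j k * ((rho ζ : ℂ) * H (z + T ζ) k j) =
      ∑ j, ∑ k, P j k * MH T H z k j := by
    rw [integral_finsetSum Finset.univ (f := fun j (ζ : V n) => ∑ k, P j k * ((rho ζ : ℂ) * H (z + T ζ) k j))
      (fun j _ => integrable_finsetSum _ fun k _ => (hint k j).const_mul _)]
    refine Finset.sum_congr rfl fun j _ => ?_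
    rw [integral_finsetSum Finset.univ (f := fun k (ζ : V n) => P j k * ((rho ζ : ℂ) * H (z + T ζ) k j))
      (fun k _ => (hint k j).const_mul _)]
    refine Finset.sum_congr rfl fun k _ => ?_
    rw [integral_const_mul]
    rfl
  rw [h2, h3]
  unfold pr
  congr 1

private theorem pointwise26 {x0 : V n} {R : ℝ} {u κ : V n → ℝ} {H : V n → Mat n} {c Λ B : ℝ}
    (hl : RegLoc x0 R u κ H c Λ B) {A : Lin n} (hA : A.det ≠ 0) {h : ℝ} (hh : 0 < h) {z : V n}
    (hz : ellIn A h z (ball x0 R)) (hκ : z ∈ ball x0 R → Real.log (H z).det.re = κ z) :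
    -(Λ ^ n * (B * ‖A‖ ^ 2 * h ^ 2)) ≤ pr (H z).adjugate (MH ((h : ℂ) • A) H z - H z) := by
  set T : Lin n := (h : ℂ) • A with hT
  have hTd : T.det ≠ 0 := by
    rw [hT, ContinuousLinearMap.det]
    change LinearMap.det ((h : ℂ) • (A : V n →ₗ[ℂ] V n)) ≠ 0
    rw [LinearMap.det_smul]
    exact mul_ne_zero (pow_ne_zero _ (by exact_mod_cast hh.ne')) hA
  have hzb : z ∈ ball x0 R := by
    have h1 := hz 0 (by simp)
    rwa [map_zero, add_zero] at h1
  have hint : ∀ j k, Integrable (fun ζ : V n => (rho ζ : ℂ) * H (z + T ζ) j k) := by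
    intro j k
    refine Integrable.mono' (rho_integrable.const_mul Λ) ?_ ?_
    · refine Measurable.aestronglyMeasurable ?_
      exact (Complex.measurable_ofReal.comp rho_contDiff.continuous.measurable).mul
        ((hl.bh.meas j k).comp (by fun_prop))
    · refine Filter.Eventually.of_forall fun ζ => ?_
      rw [norm_mul, Complex.norm_real, Real.norm_eq_abs, abs_of_nonneg (rho_nonneg ζ), mul_comm]
      exact mul_le_mul_of_nonneg_right
        ((norm_entry_le (hl.pd (z + T ζ)).posSemidef j k).trans (hl.tr _)) (rho_nonneg ζ)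
  have hφ : LocallyIntegrableOn (fun y => Real.log (H y).det.re) (ball x0 R) volume := by
    rw [locallyIntegrableOn_iff isOpen_ball.isLocallyClosed]
    intro K hK hKc
    have h1 : IntegrableOn κ K := (hl.cont.mono hK).integrableOn_compact hKc
    refine h1.congr_fun_ae ?_
    rw [EventuallyEq, ae_restrict_iff' hKc.measurableSet]
    filter_upwards [hl.eq] with y hy hyK using (hy (hK hyK)).symm
  have hφi := (integrable_rho_mul hTd isOpen_ball hφ hz).1
  have hM : M T (fun y => Real.log (H y).det.re) z = M T κ z := M_congr_ae hTd isOpen_ball hl.eq hz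
  obtain ⟨hp1, hp2⟩ := pr_MH26 (H z)⁻¹ hint
  have hle : M T (fun y => Real.log (H y).det.re) z ≤
      (Real.log (H z).det.re - pr (H z)⁻¹ (H z)) + pr (H z)⁻¹ (MH T H z) := by
    have h1 : ∫ ζ : V n, (rho ζ * (Real.log (H z).det.re - pr (H z)⁻¹ (H z)) +
        rho ζ * pr (H z)⁻¹ (H (z + T ζ))) =
        (Real.log (H z).det.re - pr (H z)⁻¹ (H z)) + pr (H z)⁻¹ (MH T H z) := by
      rw [integral_add (rho_integrable.mul_const _) hp1, integral_mul_const, integral_rho, one_mul, hp2]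
    rw [← h1, M]
    refine integral_mono hφi ((rho_integrable.mul_const _).add hp1) fun ζ => ?_
    have h2 := log_det_le (hl.pd z) (hl.pd (z + T ζ))
    have h3 : (Matrix.trace ((H z)⁻¹ * (H (z + T ζ) - H z))).re =
        pr (H z)⁻¹ (H (z + T ζ)) - pr (H z)⁻¹ (H z) := pr_sub26 _ _ _
    rw [h3] at h2
    have h4 := mul_le_mul_of_nonneg_left h2 (rho_nonneg ζ)
    change rho ζ * Real.log (H (z + T ζ)).det.re ≤ rho ζ * (Real.log (H z).det.re - pr (H z)⁻¹ (H z)) +
      rho ζ * pr (H z)⁻¹ (H (z + T ζ))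
    linarith
  have hmean := hl.mean A z h hh hA hz
  rw [← hT] at hmean
  rw [hM, hκ hzb] at hle
  have hpr : -(B * ‖A‖ ^ 2 * h ^ 2) ≤ pr (H z)⁻¹ (MH T H z - H z) := by
    rw [pr_sub26]
    linarith
  have hdet := det_le hl.hn (hl.pd z) (hl.tr z)
  rw [pr_adj (hl.pd z)]
  have hB := hl.hB
  have hb0 : 0 ≤ B * ‖A‖ ^ 2 * h ^ 2 := by positivity
  have h1 := mul_le_mul_of_nonneg_left hpr hdet.1.le
  have h2 := mul_le_mul_of_nonneg_right hdet.2.1 hb0
  linarith

theorem weak_sub {x0 : V n} {R : ℝ} {u κ : V n → ℝ} {H : V n → Mat n} {c Λ B : ℝ} (hl : RegLoc x0 R u κ H c Λ B)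
    {A : Lin n} (hA : A.det ≠ 0) {h : ℝ} (hh : 0 < h) {η : V n → ℝ} (hη : ContDiff ℝ 1 η) (hηc : HasCompactSupport η)
    (hη0 : ∀ z, 0 ≤ η z) (hηs : ∀ z ∈ tsupport η, ellIn A h z (ball x0 R)) :
    ∫ z, qf (H z).adjugate (fderiv ℝ (vA A h u) z) (fderiv ℝ η z) ≤ (Λ ^ n * B * ‖A‖ ^ 2 / aa n) * ∫ z, η z := by
  have hn := hl.hn
  have ha : 0 < aa n := aa_pos
  have hΛ : 0 ≤ Λ ^ n := by
    have h1 := det_le hn (hl.pd x0) (hl.tr x0)
    linarith [h1.1, h1.2.1]
  have hB := hl.hB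
  have hC0 : 0 ≤ Λ ^ n * B * ‖A‖ ^ 2 / aa n := by positivity
  have hae : ∀ᵐ z, -(η z * (pr (H z).adjugate (MH ((h : ℂ) • A) H z - H z) / (aa n * h ^ 2))) ≤
      Λ ^ n * B * ‖A‖ ^ 2 / aa n * η z := by
    filter_upwards [hl.eq] with z hz
    by_cases hzs : z ∈ tsupport η
    · have h1 := pointwise26 hl hA hh (hηs z hzs) hz
      have h2 : -(pr (H z).adjugate (MH ((h : ℂ) • A) H z - H z) / (aa n * h ^ 2)) ≤
          Λ ^ n * B * ‖A‖ ^ 2 / aa n := by
        rw [← neg_div, div_le_div_iff₀ (by positivity) ha]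
        have h3 : Λ ^ n * B * ‖A‖ ^ 2 * (aa n * h ^ 2) = (Λ ^ n * (B * ‖A‖ ^ 2 * h ^ 2)) * aa n := by ring
        rw [h3]
        exact mul_le_mul_of_nonneg_right (by linarith) ha.le
      have h4 := mul_le_mul_of_nonneg_left h2 (hη0 z)
      calc _ = η z * -(pr (H z).adjugate (MH ((h : ℂ) • A) H z - H z) / (aa n * h ^ 2)) := by ring
        _ ≤ _ := h4
        _ = _ := by ring
    · rw [image_eq_zero_of_notMem_tsupport hzs, zero_mul, mul_zero, neg_zero]
  rw [weak_id hl hA hh hη hηc hηs]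
  have hηi : Integrable η := hη.continuous.integrable_of_hasCompactSupport hηc
  by_cases hint : Integrable (fun z => η z * (pr (H z).adjugate (MH ((h : ℂ) • A) H z - H z) / (aa n * h ^ 2)))
  · rw [← integral_neg, ← integral_const_mul]
    exact integral_mono_ae hint.neg (hηi.const_mul _) hae
  · rw [integral_undef hint, neg_zero]
    exact mul_nonneg hC0 (integral_nonneg hη0)

end Pool.Agent.Helper87.RG
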