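import Pool.Agent.Helper87.RG.R4
import Pool.Agent.Helper87.RG.R5b
import Pool.Agent.Helper87.RG.CD10

/-!
# Project REG, block R6: the critical density lemma for `sA A ∘ H` ((7.5))

`crit`. PROOF. `l = c/(4Λ)`, `L = Λ^(n-1)/4` (`ell_adj`; `l ≤ L` because of `Ell.lower`, `Ell.upper` at any `ξ ≠ 0`), `c1` the constant of `critical_density_scaled` for `E = V n` (`finrank ℝ (V n) = 2 n ≥ 2`) and `th/2`. Let `x, r` with `closedBall x (2 r) ⊆ ball x0 R`, `s = sA A ∘ H ≤ m` a.e. on `ball x (2 r)`.
Let `r' < r` be close to `r`. For `0 < h` with `h ‖A‖ < 2 (r - r')`, the function `v = vA A h u` is `C¹` on the open set `U = ball x (2 r' + small)` of points whose ellipsoid is in `ball x (2 r)`, and `v ≤ m` there (`vA_le`); it is a weak subsolution on `ball x (2 r')` with `K = Λ^n B ‖A‖²/a` (`weak_sub`).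
Measure: `|{s ≤ m - ε} ∩ ball x r'| ≥ th |ball x r| - |ball x r \ ball x r'| ≥ (3 th/4)|ball x r'|` for `r'` close to `r`; `∫_(closedBall x r') |v - s| → 0` as `h → 0` (`tendsto_vA`), so by Chebyshev `|{v > m - ε/2} ∩ {s ≤ m - ε} ∩ ball x r'| → 0`, hence `|{v ≤ m - ε/2} ∩ ball x r'| ≥ (th/2)|ball x r'|` for small `h`.
`critical_density_scaled`: `v ≤ m - c1 ε/2 + K r'²` on `ball x (r'/2)` for all small `h`; as `v → s` in `L¹` (`h → 0`), `s ≤ m - c1 ε/2 + K r²` a.e. on `ball x (r'/2)`; let `r' → r` along a sequence.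
-/

set_option autoImplicit false

namespace Pool.Agent.Helper87.RG

open MeasureTheory Set Filter Topology Metric
open Helper29.AM
open scoped ComplexOrder

private theorem meas_sA13 {n : ℕ} {H : V n → Mat n} (hm : ∀ j k, Measurable fun z => H z j k)
    (A : Lin n) : Measurable fun z => sA A (H z) := by
  unfold sA lf
  refine Finset.measurable_sum _ fun l _ => ?_
  refine Complex.measurable_re.comp ?_
  refine Finset.measurable_sum _ fun j _ => Finset.measurable_sum _ fun k _ => ?_
  exact ((hm j k).mul_const _).mul_const _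

private theorem bdd_sA13 {n : ℕ} {H : Mat n} {C : ℝ} (hC : ∀ j k, ‖H j k‖ ≤ C) (A : Lin n) :
    |sA A H| ≤ ∑ l, ∑ j, ∑ k, C * ‖A (e l) j‖ * ‖A (e l) k‖ := by
  unfold sA lf
  refine (Finset.abs_sum_le_sum_abs _ _).trans (Finset.sum_le_sum fun l _ => ?_)
  refine (Complex.abs_re_le_norm _).trans ?_
  refine (norm_sum_le _ _).trans (Finset.sum_le_sum fun j _ => ?_)
  refine (norm_sum_le _ _).trans (Finset.sum_le_sum fun k _ => ?_)
  rw [norm_mul, norm_mul, RCLike.norm_conj]
  gcongr
  exact hC j k

theorem crit {n : ℕ} (hn : 0 < n) {c Λ B th : ℝ} (hc : 0 < c) (hth : 0 < th) {A : Lin n} (hA : A.det ≠ 0) :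
    ∃ c1 C1 : ℝ, 0 < c1 ∧ 0 ≤ C1 ∧ ∀ (x0 : V n) (R : ℝ) (u κ : V n → ℝ) (H : V n → Mat n), RegLoc x0 R u κ H c Λ B →
      ∀ (x : V n) (r m ε : ℝ), 0 < r → closedBall x (2 * r) ⊆ ball x0 R → 0 < ε →
        (∀ᵐ y, y ∈ ball x (2 * r) → sA A (H y) ≤ m) →
        th * volume.real (ball x r) ≤ volume.real {y | y ∈ ball x r ∧ sA A (H y) ≤ m - ε} →
        ∀ᵐ y, y ∈ ball x (r / 2) → sA A (H y) ≤ m - c1 * ε + C1 * r ^ 2 := by
  by_cases hΛ : 0 < Λ
  swap
  · refine ⟨1, 0, one_pos, le_rfl, fun x0 R u κ H hl => ?_⟩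
    exfalso
    have : Nonempty (Fin n) := ⟨⟨0, hn⟩⟩
    have h1 := hl.tr 0
    have h2 := (Complex.lt_def.1 (hl.pd 0).trace_pos).1
    simp only [Complex.zero_re] at h2
    linarith
  by_cases hB : 0 ≤ B
  swap
  · exact ⟨1, 0, one_pos, le_rfl, fun x0 R u κ H hl => absurd hl.hB hB⟩
  have hd : 2 ≤ Module.finrank ℝ (V n) := by
    rw [finrank_real_of_complex, finrank_euclideanSpace_fin]
    omega
  set l : ℝ := c / (4 * Λ) with hldef
  have hl0 : 0 < l := by positivity
  set L : ℝ := max l (Λ ^ (n - 1) / 4) with hLdef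
  have hlL : l ≤ L := le_max_left _ _
  obtain ⟨c0, hc0, hc01, hcd⟩ := critical_density_scaled (E := V n) hd (l := l) (L := L)
    (th := th / 2) hl0 hlL (by positivity)
  have ha : 0 < aa n := aa_pos
  set K : ℝ := Λ ^ n * B * ‖A‖ ^ 2 / aa n with hKdef
  have hK : 0 ≤ K := by positivity
  refine ⟨c0 / 2, K, by positivity, hK, ?_⟩
  intro x0 R u κ H hl x r m ε hr hxr hε hm hden
  set s : V n → ℝ := fun y => sA A (H y) with hs
  have hsm : Measurable s := meas_sA13 hl.bh.meas A
  have huc : ContinuousOn u (ball x0 R) := hl.c1.continuousOn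
  -- volumes of balls
  set d := Module.finrank ℝ (V n) with hddef
  set V1 : ℝ := volume.real (ball (0 : V n) 1) with hV1
  have hV1pos : 0 < V1 := by
    rw [hV1, measureReal_def]
    exact ENNReal.toReal_pos (measure_ball_pos volume _ one_pos).ne' measure_ball_lt_top.ne
  have hvol : ∀ ρ : ℝ, 0 < ρ → volume.real (ball x ρ) = ρ ^ d * V1 := by
    intro ρ hρ
    rw [measureReal_def, Measure.addHaar_ball_of_pos volume x hρ, ENNReal.toReal_mul,
      ENNReal.toReal_ofReal (by positivity), hV1, measureReal_def]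
  set C : ℝ := m - c0 / 2 * ε + K * r ^ 2 with hCdef
  -- the main step
  have main : ∀ r' : ℝ, 0 < r' → r' < r → (1 - th / 4) * r ^ d ≤ r' ^ d →
      ∀ᵐ y, y ∈ ball x (r' / 2) → s y ≤ C := by
    intro r' hr' hr'r hvr
    have hKsub : closedBall x r' ⊆ ball x0 R :=
      (closedBall_subset_closedBall (by linarith)).trans hxr
    have hUsub2 : ball x (r + r') ⊆ ball x (2 * r) := ball_subset_ball (by linarith)
    have hUsub : ball x (r + r') ⊆ ball x0 R := hUsub2.trans (ball_subset_closedBall.trans hxr)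
    have hKU : closedBall x (2 * r') ⊆ ball x (r + r') := closedBall_subset_ball (by linarith)
    have hKU' : closedBall x r' ⊆ ball x (r + r') := closedBall_subset_ball (by linarith)
    have hVr' : 0 < volume.real (ball x r') := by rw [hvol r' hr']; positivity
    have htv := tendsto_vA isOpen_ball hl.bh huc hA (isCompact_closedBall x r') hKsub
    obtain ⟨Cs, hCs⟩ := hl.bh.bdd _ hKsub (isCompact_closedBall x r')
    have hsint : IntegrableOn s (closedBall x r') := by
      refine Measure.integrableOn_of_bounded (isCompact_closedBall x r').measure_lt_top.ne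
        hsm.aestronglyMeasurable
        (M := ∑ l, ∑ j, ∑ k, Cs * ‖A (e l) j‖ * ‖A (e l) k‖) ?_
      filter_upwards [ae_restrict_mem measurableSet_closedBall] with y hy
      exact bdd_sA13 (hCs y hy) A
    -- small h
    have hh0 : 0 < (r - r') / (‖A‖ + 1) := div_pos (by linarith) (by positivity)
    have hev : ∀ᶠ h in 𝓝[>] (0 : ℝ), 0 < h ∧ h < (r - r') / (‖A‖ + 1) :=
      Ioo_mem_nhdsGT hh0
    have hell : ∀ h : ℝ, 0 < h → h < (r - r') / (‖A‖ + 1) → ∀ z ∈ ball x (r + r'),
        ellIn A h z (ball x (2 * r)) := by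
      intro h hh1 hh2 z hz η hη
      rw [mem_ball, dist_eq_norm] at hz ⊢
      have h1 : ‖((h : ℂ) • A) η‖ ≤ r - r' := by
        have h2 : ((h : ℂ) • A) η = (h : ℂ) • A η := rfl
        rw [h2, norm_smul, Complex.norm_real, Real.norm_of_nonneg hh1.le]
        have h3 : ‖A η‖ ≤ ‖A‖ * 1 := (A.le_opNorm η).trans (by gcongr)
        have h4 : h * (‖A‖ + 1) < r - r' := by rwa [lt_div_iff₀ (by positivity)] at hh2
        nlinarith [norm_nonneg (A η), norm_nonneg A]
      calc ‖z + ((h : ℂ) • A) η - x‖ = ‖(z - x) + ((h : ℂ) • A) η‖ := by congr 1; abel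
        _ ≤ ‖z - x‖ + ‖((h : ℂ) • A) η‖ := norm_add_le _ _
        _ < 2 * r := by linarith
    have hellΩ : ∀ h : ℝ, 0 < h → h < (r - r') / (‖A‖ + 1) → ∀ z ∈ ball x (r + r'),
        ellIn A h z (ball x0 R) := fun h hh1 hh2 z hz η hη =>
      hxr (ball_subset_closedBall (hell h hh1 hh2 z hz η hη))
    have hvc : ∀ h : ℝ, 0 < h → h < (r - r') / (‖A‖ + 1) →
        ContDiffOn ℝ 1 (vA A h u) (ball x (r + r')) := fun h hh1 hh2 =>
      (contDiffOn_vA isOpen_ball hl.c1 A h).mono (hellΩ h hh1 hh2)
    have hint : ∀ h : ℝ, 0 < h → h < (r - r') / (‖A‖ + 1) →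
        IntegrableOn (fun z => |vA A h u z - s z|) (closedBall x r') := fun h hh1 hh2 =>
      ((((hvc h hh1 hh2).continuousOn.mono hKU').integrableOn_compact
        (isCompact_closedBall x r')).sub hsint).abs
    have hδ : 0 < ε / 2 * (th / 4 * volume.real (ball x r')) := by positivity
    have hev2 : ∀ᶠ h in 𝓝[>] (0 : ℝ), ∫ z in closedBall x r', |vA A h u z - s z| <
        ε / 2 * (th / 4 * volume.real (ball x r')) := htv.eventually (gt_mem_nhds hδ)
    -- the conclusion for the `v_h`
    have hconc : ∀ᶠ h in 𝓝[>] (0 : ℝ), ∀ y ∈ ball x (r' / 2), vA A h u y ≤ C := by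
      filter_upwards [hev, hev2] with h hh hh2
      have hc1 := hvc h hh.1 hh.2
      have hfin : ∀ S : Set (V n), S ⊆ closedBall x r' → volume S ≠ ⊤ := fun S hS =>
        ((measure_mono hS).trans_lt (isCompact_closedBall x r').measure_lt_top).ne
      -- Chebyshev
      have hE3 : ε / 2 * volume.real ({y | ε / 2 ≤ |vA A h u y - s y|} ∩ closedBall x r') ≤
          ∫ z in closedBall x r', |vA A h u z - s z| := by
        have h1 := mul_meas_ge_le_integral_of_nonneg (μ := volume.restrict (closedBall x r'))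
          (f := fun z => |vA A h u z - s z|) (Eventually.of_forall fun z => abs_nonneg _)
          (hint h hh.1 hh.2) (ε / 2)
        rwa [measureReal_restrict_apply' measurableSet_closedBall] at h1
      have hE3' : volume.real ({y | ε / 2 ≤ |vA A h u y - s y|} ∩ closedBall x r') ≤
          th / 4 * volume.real (ball x r') :=
        le_of_mul_le_mul_left (hE3.trans hh2.le) (by positivity)
      have hE1 : volume.real {y | y ∈ ball x r' ∧ s y ≤ m - ε} ≤
          volume.real ({y | vA A h u y ≤ m - ε / 2} ∩ ball x r') +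
            volume.real ({y | ε / 2 ≤ |vA A h u y - s y|} ∩ closedBall x r') := by
        refine (measureReal_mono ?_ ?_).trans (measureReal_union_le _ _)
        · intro y hy
          by_cases h1 : vA A h u y ≤ m - ε / 2
          · exact Or.inl ⟨h1, hy.1⟩
          · refine Or.inr ⟨?_, ball_subset_closedBall hy.1⟩
            have h2 := hy.2
            change ε / 2 ≤ |vA A h u y - s y|
            refine le_trans ?_ (le_abs_self _)
            linarith [not_le.1 h1]
        · refine hfin _ (union_subset (inter_subset_right.trans ball_subset_closedBall)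
            inter_subset_right)
      have hE0 : volume.real {y | y ∈ ball x r ∧ s y ≤ m - ε} ≤
          volume.real {y | y ∈ ball x r' ∧ s y ≤ m - ε} +
            (volume.real (ball x r) - volume.real (ball x r')) := by
        have h1 : volume.real (ball x r \ ball x r') =
            volume.real (ball x r) - volume.real (ball x r') :=
          measureReal_sdiff (ball_subset_ball hr'r.le) measurableSet_ball
        rw [← h1]
        refine (measureReal_mono ?_ ?_).trans (measureReal_union_le _ _)
        · intro y hy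
          by_cases h1 : y ∈ ball x r'
          · exact Or.inl ⟨h1, hy.2⟩
          · exact Or.inr ⟨hy.1, h1⟩
        · refine ((measure_mono (t := ball x r) ?_).trans_lt measure_ball_lt_top).ne
          rintro y (hy | hy)
          · exact ball_subset_ball hr'r.le hy.1
          · exact hy.1
      have hV : (1 - th / 4) * volume.real (ball x r) ≤ volume.real (ball x r') := by
        rw [hvol r hr, hvol r' hr', ← mul_assoc]
        gcongr
      have hV' : volume.real (ball x r') ≤ volume.real (ball x r) :=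
        measureReal_mono (ball_subset_ball hr'r.le) measure_ball_lt_top.ne
      have hE2 : th / 2 * volume.real (ball x r') ≤
          volume.real ({y | vA A h u y ≤ m - ε / 2} ∩ ball x r') := by
        have h1 : th * volume.real (ball x r) ≤
          volume.real {y | y ∈ ball x r ∧ s y ≤ m - ε} := hden
        nlinarith
      have hmain := hcd (fun z => qf (H z).adjugate) (vA A h u) x r' K m (ε / 2) (ball x (r + r'))
        ?_ hr' hK (by positivity) isOpen_ball hKU hc1 ?_ ?_ hE2
      · intro y hy
        refine (hmain y hy).trans ?_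
        rw [hCdef]
        have h1 : K * r' ^ 2 ≤ K * r ^ 2 := by gcongr
        linarith
      · have h1 := ell_adj hn hl.bh.meas hl.pd hc hl.tr hl.det
        exact { meas := h1.meas, add := h1.add, smul := h1.smul, symm := h1.symm
                lower := h1.lower
                upper := fun z ξ => (h1.upper z ξ).trans
                  (mul_le_mul_of_nonneg_right (le_max_right _ _) (by positivity)) }
      · intro z hz
        exact vA_le isOpen_ball hl.bh huc hA hh.1 (hellΩ h hh.1 hh.2 z hz) (hell h hh.1 hh.2 z hz) hm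
      · intro η hη1 hη2 hη3 hη4
        exact weak_sub hl hA hh.1 hη1 hη2 hη4 fun z hz =>
          hellΩ h hh.1 hh.2 z (hKU (ball_subset_closedBall (hη3 hz)))
    -- the limit
    have hB' : ball x (r' / 2) ⊆ closedBall x r' :=
      (ball_subset_ball (by linarith)).trans ball_subset_closedBall
    have hsint' : IntegrableOn (fun y => max (s y - C) 0) (ball x (r' / 2)) := by
      have h1 : IntegrableOn (fun y => s y - C) (ball x (r' / 2)) :=
        (hsint.mono_set hB').sub (integrableOn_const measure_ball_lt_top.ne)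
      exact h1.pos_part
    have hJ0 : ∫ y in ball x (r' / 2), max (s y - C) 0 ≤ 0 := by
      refine ge_of_tendsto htv ?_
      filter_upwards [hev, hconc] with h hh hh3
      calc ∫ y in ball x (r' / 2), max (s y - C) 0
          ≤ ∫ y in ball x (r' / 2), |vA A h u y - s y| := by
            refine setIntegral_mono_on hsint' ((hint h hh.1 hh.2).mono_set hB') measurableSet_ball
              fun y hy => ?_
            refine max_le ?_ (abs_nonneg _)
            have h1 := hh3 y hy
            have h2 := neg_abs_le (vA A h u y - s y)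
            linarith
        _ ≤ ∫ y in closedBall x r', |vA A h u y - s y| :=
            setIntegral_mono_set (hint h hh.1 hh.2) (Eventually.of_forall fun y => abs_nonneg _)
              (LE.le.eventuallyLE hB')
    have hJ1 : ∫ y in ball x (r' / 2), max (s y - C) 0 = 0 :=
      le_antisymm hJ0 (integral_nonneg fun y => le_max_right _ _)
    have h1 := (integral_eq_zero_iff_of_nonneg (fun y => le_max_right _ _) hsint').1 hJ1
    rw [Filter.EventuallyEq, ae_restrict_iff' measurableSet_ball] at h1
    filter_upwards [h1] with y hy hyb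
    have h2 : max (s y - C) 0 = 0 := hy hyb
    have h3 : s y - C ≤ max (s y - C) 0 := le_max_left _ _
    rw [h2] at h3
    linarith
  -- a sequence of radii
  obtain ⟨ρ, hρ⟩ := exists_seq_tendsto (𝓝[<] r)
  have hρ1 : ∀ᶠ k in atTop, ρ k < r := hρ.eventually self_mem_nhdsWithin
  have hρ2 : Tendsto ρ atTop (𝓝 r) := tendsto_nhds_of_tendsto_nhdsWithin hρ
  have hρ3 : ∀ᶠ k in atTop, 0 < ρ k := hρ2.eventually (lt_mem_nhds hr)
  have hρ4 : ∀ᶠ k in atTop, (1 - th / 4) * r ^ d ≤ ρ k ^ d := by
    have h1 : Tendsto (fun k => ρ k ^ d) atTop (𝓝 (r ^ d)) := hρ2.pow d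
    have h2 : (1 - th / 4) * r ^ d < r ^ d := by
      have : 0 < r ^ d := by positivity
      nlinarith
    exact (h1.eventually (lt_mem_nhds h2)).mono fun k hk => hk.le
  have hall : ∀ᵐ y, ∀ k, 0 < ρ k → ρ k < r → (1 - th / 4) * r ^ d ≤ ρ k ^ d →
      y ∈ ball x (ρ k / 2) → s y ≤ C := by
    rw [ae_all_iff]
    intro k
    by_cases h : 0 < ρ k ∧ ρ k < r ∧ (1 - th / 4) * r ^ d ≤ ρ k ^ d
    · filter_upwards [main (ρ k) h.1 h.2.1 h.2.2] with y hy _ _ _
      exact hy
    · exact Eventually.of_forall fun y h1 h2 h3 => absurd ⟨h1, h2, h3⟩ h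
  filter_upwards [hall] with y hy hyb
  rw [mem_ball] at hyb
  have hρ5 : ∀ᶠ k in atTop, 2 * dist y x < ρ k := hρ2.eventually (lt_mem_nhds (by linarith))
  obtain ⟨k, h1, h2, h3, h4⟩ := (hρ1.and (hρ3.and (hρ4.and hρ5))).exists
  exact hy k h2 h1 h3 (by rw [mem_ball]; linarith)

end Pool.Agent.Helper87.RG
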