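import Pool.Agent.Helper87.RG.R1b
import Pool.Agent.Helper29.AM.LA1

/-!
# Project REG, block R7: a finite set of frames which controls hermitian matrices ((7.6), linear algebra)

`frames`. PROOF. Let `s = min (1/(2Λ)) (Λ^(n-1)/c)` (`Λ > 0`, otherwise there is no such matrix) and `𝒫` the set of the hermitian `P` with `1/(2Λ) ≤ P ≤ 2 Λ^(n-1)/c` (as forms `lf P`): compact. `r0 = s/(2 n²)`. There are finitely many `P_i ∈ 𝒫` such that every `P ∈ 𝒫` is within `nK (P - P_i) ≤ r0` of one of them. `exists_frame`: frames `A_i` with `sA A_i K = pr P_i K` for all `K`, `|det A_i|² = det P_i > 0`. `S` = the set of the `A_i`.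
Let `K = H1 - H0` (hermitian), `sA A K = sA A H1 - sA A H0 ≤ ε` for `A ∈ S`. For `P ∈ 𝒫`: `pr P K ≤ pr P_i K + nK (P - P_i) · max |K_jk| ≤ ε + r0 nK K`. `P0 = H0⁻¹` satisfies `1/Λ ≤ P0 ≤ Λ^(n-1)/c` (`inv_bounds`), and `pr P0 K ≥ log det H1 - log det H0 ≥ -δ` (`log_det_le`).
For a unit vector `v` let `Rv` be the rank one matrix `(Rv)_{kj} = v_j conj(v_k)`: hermitian, `0 ≤ lf Rv w ≤ ‖w‖²`, `pr Rv K = lf K v`. `P0 ± s Rv ∈ 𝒫`, so `± s lf K v ≤ ε + r0 nK K - pr P0 K ≤ ε + δ + r0 nK K`. For hermitian `K` all entries are bounded by `sup_v |lf K v|` (largest eigenvalue in absolute value), so `nK K ≤ n² (ε + δ + r0 nK K)/s = (n²/s)(ε + δ) + nK K/2`. So `C = 2 n²/s`.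
-/

set_option autoImplicit false

namespace Pool.Agent.Helper87.RG

open MeasureTheory Set Filter Topology Metric
open Helper29.AM
open scoped ComplexOrder

private theorem lf_sub67 {n : ℕ} (H K : Mat n) (v : V n) : lf (H - K) v = lf H v - lf K v := by
  have h := lf_add (H - K) K v
  rw [sub_add_cancel] at h
  linarith

private theorem abs_lf_le67 {n : ℕ} (K : Mat n) (v : V n) : |lf K v| ≤ nK K * ‖v‖ ^ 2 := by
  unfold lf nK
  refine (Complex.abs_re_le_norm _).trans ?_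
  rw [Finset.sum_mul]
  refine norm_sum_le_of_le _ fun j _ => ?_
  rw [Finset.sum_mul]
  refine norm_sum_le_of_le _ fun k _ => ?_
  rw [norm_mul, norm_mul, RCLike.norm_conj, mul_assoc]
  have h1 : ‖v j‖ ≤ ‖v‖ := PiLp.norm_apply_le v j
  have h2 : ‖v k‖ ≤ ‖v‖ := PiLp.norm_apply_le v k
  refine mul_le_mul_of_nonneg_left ?_ (norm_nonneg _)
  rw [sq]
  exact mul_le_mul h1 h2 (norm_nonneg _) (norm_nonneg _)

private theorem nK_nonneg67 {n : ℕ} (K : Mat n) : 0 ≤ nK K :=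
  Finset.sum_nonneg fun _ _ => Finset.sum_nonneg fun _ _ => norm_nonneg _

private theorem ent_le67 {n : ℕ} (K : Mat n) (j k : Fin n) : ‖K j k‖ ≤ nK K := by
  unfold nK
  refine (Finset.single_le_sum (f := fun k => ‖K j k‖) (fun _ _ => norm_nonneg _)
    (Finset.mem_univ k)).trans ?_
  exact Finset.single_le_sum (f := fun j => ∑ k, ‖K j k‖)
    (fun _ _ => Finset.sum_nonneg fun _ _ => norm_nonneg _) (Finset.mem_univ j)

private theorem pr_add67 {n : ℕ} (P Q K : Mat n) : pr (P + Q) K = pr P K + pr Q K := by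
  unfold pr
  rw [add_mul, Matrix.trace_add, Complex.add_re]

private theorem pr_smul67 {n : ℕ} (r : ℝ) (P K : Mat n) : pr ((r : ℂ) • P) K = r * pr P K := by
  unfold pr
  rw [Matrix.smul_mul, Matrix.trace_smul, smul_eq_mul, Complex.re_ofReal_mul]

private theorem abs_pr_le67 {n : ℕ} (D K : Mat n) : |pr D K| ≤ nK D * nK K := by
  unfold pr
  refine (Complex.abs_re_le_norm _).trans ?_
  simp only [Matrix.trace, Matrix.diag, Matrix.mul_apply]
  conv_rhs => rw [nK]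
  rw [Finset.sum_mul]
  refine norm_sum_le_of_le _ fun j _ => ?_
  rw [Finset.sum_mul]
  refine norm_sum_le_of_le _ fun k _ => ?_
  rw [norm_mul]
  exact mul_le_mul_of_nonneg_left (ent_le67 K k j) (norm_nonneg _)

private theorem pr_self67 {n : ℕ} {K : Mat n} (hK : K.IsHermitian) :
    nK K ^ 2 ≤ (n : ℝ) ^ 2 * pr K K := by
  have h1 : pr K K = ∑ p : Fin n × Fin n, ‖K p.1 p.2‖ ^ 2 := by
    unfold pr
    simp only [Matrix.trace, Matrix.diag, Matrix.mul_apply]
    rw [Fintype.sum_prod_type, Complex.re_sum]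
    refine Finset.sum_congr rfl fun j _ => ?_
    rw [Complex.re_sum]
    refine Finset.sum_congr rfl fun k _ => ?_
    have h2 : K k j = (starRingEnd ℂ) (K j k) := (hK.apply k j).symm
    rw [h2, Complex.mul_conj, Complex.ofReal_re, Complex.normSq_eq_norm_sq]
  have h3 : nK K = ∑ p : Fin n × Fin n, ‖K p.1 p.2‖ := by
    unfold nK
    rw [Fintype.sum_prod_type]
  rw [h1, h3]
  have h4 := sq_sum_le_card_mul_sum_sq (s := (Finset.univ : Finset (Fin n × Fin n)))
    (f := fun p => ‖K p.1 p.2‖)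
  rw [Finset.card_univ, Fintype.card_prod, Fintype.card_fin] at h4
  push_cast at h4
  rw [sq (n : ℝ)]
  exact h4

private theorem sA_sub67 {n : ℕ} (A : Lin n) (H K : Mat n) : sA A H - sA A K = sA A (H - K) := by
  unfold sA
  rw [← Finset.sum_sub_distrib]
  exact Finset.sum_congr rfl fun l _ => (lf_sub67 H K _).symm

private theorem lf_cont67 {n : ℕ} (v : V n) : Continuous fun P : Mat n => lf P v := by
  unfold lf
  fun_prop

private theorem nK_cont67 {n : ℕ} (Q : Mat n) : Continuous fun P : Mat n => nK (P - Q) := by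
  unfold nK
  simp only [Matrix.sub_apply]
  fun_prop

/-- the compact set of matrices -/
private def PS67 (n : ℕ) (a b : ℝ) : Set (Mat n) :=
  {P | P.IsHermitian ∧ ∀ v : V n, a * ‖v‖ ^ 2 ≤ lf P v ∧ lf P v ≤ b * ‖v‖ ^ 2}

private theorem psd67 {n : ℕ} {a b : ℝ} (ha : 0 < a) {P : Mat n} (hP : P ∈ PS67 n a b) :
    P.PosSemidef :=
  (posSemidef_iff_lf hP.1).2 fun v => (by positivity : (0 : ℝ) ≤ a * ‖v‖ ^ 2).trans (hP.2 v).1

private theorem isCompact67 {n : ℕ} {a b : ℝ} (ha : 0 < a) : IsCompact (PS67 n a b) := by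
  have hcl : IsClosed (PS67 n a b) := by
    have h1 : IsClosed {P : Mat n | P.IsHermitian} :=
      isClosed_eq (continuous_id.matrix_conjTranspose) continuous_id
    have h2 : IsClosed (⋂ v : V n, {P : Mat n | a * ‖v‖ ^ 2 ≤ lf P v ∧ lf P v ≤ b * ‖v‖ ^ 2}) :=
      isClosed_iInter fun v => (isClosed_le continuous_const (lf_cont67 v)).inter
        (isClosed_le (lf_cont67 v) continuous_const)
    have h3 : PS67 n a b = {P : Mat n | P.IsHermitian} ∩
        ⋂ v : V n, {P : Mat n | a * ‖v‖ ^ 2 ≤ lf P v ∧ lf P v ≤ b * ‖v‖ ^ 2} := by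
      ext P
      simp only [PS67, mem_inter_iff, mem_iInter, Set.mem_ofPred_eq]
    rw [h3]
    exact h1.inter h2
  have hK : IsCompact (Set.pi univ (fun _ : Fin n => Set.pi univ fun _ : Fin n =>
      closedBall (0 : ℂ) (n * b)) : Set (Fin n → Fin n → ℂ)) :=
    isCompact_univ_pi fun _ => isCompact_univ_pi fun _ => isCompact_closedBall _ _
  refine IsCompact.of_isClosed_subset (hK : IsCompact (X := Mat n) _) hcl ?_
  intro P hP j _ k _
  rw [mem_closedBall_zero_iff]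
  refine (norm_entry_le (psd67 ha hP) j k).trans ?_
  rw [← sA_one]
  unfold sA
  have h4 : ∀ l : Fin n, lf P ((1 : Lin n) (e l)) ≤ b := by
    intro l
    have h5 := (hP.2 ((1 : Lin n) (e l))).2
    have h6 : ‖(1 : Lin n) (e l)‖ = 1 := by
      change ‖(e l : V n)‖ = 1
      simp [e]
    rw [h6] at h5
    linarith
  calc ∑ l, lf P ((1 : Lin n) (e l)) ≤ ∑ _l : Fin n, b := Finset.sum_le_sum fun l _ => h4 l
    _ = n * b := by simp

private theorem det_ne67 {n : ℕ} {a b : ℝ} (ha : 0 < a) {P : Mat n} (hP : P ∈ PS67 n a b) :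
    P.det.re ≠ 0 := by
  have h2 : (a • (1 : Mat n)).PosDef := (Matrix.PosDef.one (n := Fin n) (R := ℂ)).smul ha
  have h3 : a • (1 : Mat n) = (a : ℂ) • (1 : Mat n) := by
    ext j k
    rw [Matrix.smul_apply, Matrix.smul_apply, smul_eq_mul, Complex.real_smul]
  have h4 : (P - a • (1 : Mat n)).PosSemidef := by
    refine (posSemidef_iff_lf (hP.1.sub h2.1)).2 fun v => ?_
    rw [lf_sub67, h3, lf_smul, lf_one]
    linarith [(hP.2 v).1]
  have h5 : P.PosDef := by
    have h6 := Matrix.PosDef.posSemidef_add h4 h2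
    rwa [sub_add_cancel] at h6
  have h7 := h5.det_pos
  exact (Complex.pos_iff.1 h7).1.ne'

theorem frames {n : ℕ} (hn : 0 < n) {c Λ : ℝ} (hc : 0 < c) : ∃ (S : Finset (Lin n)) (C : ℝ), 0 < C ∧ S.Nonempty ∧ (∀ A ∈ S, A.det ≠ 0) ∧
    ∀ H0 H1 : Mat n, H0.PosDef → H1.PosDef → (Matrix.trace H0).re ≤ Λ → (Matrix.trace H1).re ≤ Λ → c ≤ H0.det.re → c ≤ H1.det.re →
      ∀ ε δ : ℝ, 0 ≤ ε → 0 ≤ δ → (∀ A ∈ S, sA A H1 ≤ sA A H0 + ε) → Real.log H0.det.re - δ ≤ Real.log H1.det.re →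
        nK (H1 - H0) ≤ C * (ε + δ) := by
  classical
  obtain ⟨L, hL⟩ : ∃ L : ℝ, L = max Λ 1 := ⟨_, rfl⟩
  have hΛL : Λ ≤ L := hL ▸ le_max_left _ _
  have hL0 : 0 < L := hL ▸ lt_of_lt_of_le one_pos (le_max_right _ _)
  obtain ⟨B, hBd⟩ : ∃ B : ℝ, B = L ^ (n - 1) / c := ⟨_, rfl⟩
  have hB : 0 < B := by rw [hBd]; positivity
  obtain ⟨s, hsd⟩ : ∃ s : ℝ, s = min (1 / (2 * L)) B := ⟨_, rfl⟩
  have hs : 0 < s := by rw [hsd]; exact lt_min (by positivity) hB
  have hs1 : s ≤ 1 / (2 * L) := hsd ▸ min_le_left _ _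
  have hs2 : s ≤ B := hsd ▸ min_le_right _ _
  have hn' : (0 : ℝ) < n := by exact_mod_cast hn
  have hr0 : 0 < s / (2 * (n : ℝ) ^ 2) := by positivity
  have ha : 0 < 1 / (2 * L) := by positivity
  have hfr : ∀ P : Mat n, ∃ A : Lin n, P ∈ PS67 n (1 / (2 * L)) (2 * B) →
      A.det ≠ 0 ∧ ∀ K : Mat n, sA A K = pr P K := by
    intro P
    by_cases hP : P ∈ PS67 n (1 / (2 * L)) (2 * B)
    · obtain ⟨A, hA1, -, hA3⟩ := exists_frame (psd67 ha hP)
      refine ⟨A, fun _ => ⟨fun h0 => det_ne67 ha hP ?_, hA1⟩⟩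
      rw [← hA3, h0, norm_zero]
      norm_num
    · exact ⟨1, fun h => absurd h hP⟩
  choose fr hfr using hfr
  obtain ⟨t, ht1, ht2⟩ := (isCompact67 (n := n) (b := 2 * B) ha).elim_nhds_subcover
    (fun Q => {P | nK (P - Q) < s / (2 * (n : ℝ) ^ 2)}) (fun Q _ => by
      refine ((nK_cont67 Q).continuousAt (x := Q)).eventually_lt_const ?_
      have : nK (Q - Q) = 0 := by simp [nK]
      change nK (Q - Q) < _
      rw [this]
      exact hr0)
  refine ⟨insert 1 (t.image fr), 2 * (n : ℝ) ^ 2 / s, by positivity, ⟨1, by simp⟩, ?_, ?_⟩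
  · intro A hA
    rw [Finset.mem_insert, Finset.mem_image] at hA
    rcases hA with rfl | ⟨P, hP, rfl⟩
    · change LinearMap.det ((1 : Lin n) : V n →ₗ[ℂ] V n) ≠ 0
      have h1 : ((1 : Lin n) : V n →ₗ[ℂ] V n) = LinearMap.id := rfl
      rw [h1, LinearMap.det_id]
      exact one_ne_zero
    · exact (hfr P (ht1 P hP)).1
  · intro H0 H1 hH0 hH1 htr0 htr1 hd0 hd1 ε δ hε hδ hS hlog
    obtain ⟨K, hKd⟩ : ∃ K : Mat n, K = H1 - H0 := ⟨_, rfl⟩
    rw [← hKd]
    have hKh : K.IsHermitian := hKd ▸ hH1.1.sub hH0.1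
    have hK0 := nK_nonneg67 K
    have hup : ∀ P ∈ PS67 n (1 / (2 * L)) (2 * B), pr P K ≤ ε + s / (2 * (n : ℝ) ^ 2) * nK K := by
      intro P hP
      obtain ⟨Q, hQt, hQ⟩ := mem_iUnion₂.1 (ht2 hP)
      have h1 : pr P K = pr Q K + pr (P - Q) K := by
        rw [← pr_add67, add_sub_cancel]
      have h2 := (hfr Q (ht1 Q hQt)).2
      have h3 := hS (fr Q) (Finset.mem_insert_of_mem (Finset.mem_image_of_mem _ hQt))
      have h4 : pr Q K ≤ ε := by
        rw [← h2, hKd, ← sA_sub67]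
        linarith
      have h5 : pr (P - Q) K ≤ s / (2 * (n : ℝ) ^ 2) * nK K :=
        (le_abs_self _).trans ((abs_pr_le67 _ _).trans
          (mul_le_mul_of_nonneg_right (le_of_lt hQ) hK0))
      linarith
    rcases hK0.eq_or_lt with h0 | h0
    · rw [← h0]
      positivity
    obtain ⟨hi1, hi2, hi3⟩ := inv_bounds hn hH0 hc (htr0.trans hΛL) hd0
    have hlow : -δ ≤ pr H0⁻¹ K := by
      have h1 := log_det_le hH0 hH1
      rw [← hKd] at h1
      unfold pr
      linarith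
    have hP : H0⁻¹ + ((s / nK K : ℝ) : ℂ) • K ∈ PS67 n (1 / (2 * L)) (2 * B) := by
      refine ⟨hi1.1.add ?_, fun v => ?_⟩
      · ext j k
        rw [Matrix.conjTranspose_apply, Matrix.smul_apply, Matrix.smul_apply, smul_eq_mul,
          smul_eq_mul, star_mul', hKh.apply]
        congr 1
        exact Complex.conj_ofReal _
      · rw [lf_add, lf_smul]
        have h1 := abs_le.1 (abs_lf_le67 K v)
        have h2 : |s / nK K * lf K v| ≤ s * ‖v‖ ^ 2 := by
          rw [abs_mul, abs_of_pos (div_pos hs h0)]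
          calc s / nK K * |lf K v| ≤ s / nK K * (nK K * ‖v‖ ^ 2) :=
                mul_le_mul_of_nonneg_left (abs_lf_le67 K v) (div_pos hs h0).le
            _ = s * ‖v‖ ^ 2 := by field_simp
        have h3 := abs_le.1 h2
        have h4 := hi2 v
        have h5 := hi3 v
        rw [← hBd] at h5
        have h6 : s * ‖v‖ ^ 2 ≤ 1 / (2 * L) * ‖v‖ ^ 2 :=
          mul_le_mul_of_nonneg_right hs1 (sq_nonneg _)
        have h7 : s * ‖v‖ ^ 2 ≤ B * ‖v‖ ^ 2 := mul_le_mul_of_nonneg_right hs2 (sq_nonneg _)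
        have h8 : 1 / L * ‖v‖ ^ 2 = 1 / (2 * L) * ‖v‖ ^ 2 + 1 / (2 * L) * ‖v‖ ^ 2 := by
          field_simp
          ring
        constructor
        · linarith [h3.1]
        · linarith [h3.2]
    have h1 := hup _ hP
    rw [pr_add67, pr_smul67] at h1
    have h2 := pr_self67 hKh
    have h3 : nK K / (n : ℝ) ^ 2 ≤ pr K K / nK K := by
      rw [div_le_div_iff₀ (by positivity) h0]
      nlinarith
    have h4 : s / nK K * pr K K = s * (pr K K / nK K) := by ring
    have h5 : s * (nK K / (n : ℝ) ^ 2) ≤ s * (pr K K / nK K) := mul_le_mul_of_nonneg_left h3 hs.le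
    have h6 : s / (2 * (n : ℝ) ^ 2) * nK K = s * (nK K / (n : ℝ) ^ 2) / 2 := by ring
    rw [h4, h6] at h1
    have h7 : s * (nK K / (n : ℝ) ^ 2) ≤ 2 * (ε + δ) := by linarith
    have h8 : nK K = (n : ℝ) ^ 2 / s * (s * (nK K / (n : ℝ) ^ 2)) := by
      field_simp
    rw [h8]
    calc (n : ℝ) ^ 2 / s * (s * (nK K / (n : ℝ) ^ 2)) ≤ (n : ℝ) ^ 2 / s * (2 * (ε + δ)) :=
          mul_le_mul_of_nonneg_left h7 (by positivity)
      _ = 2 * (n : ℝ) ^ 2 / s * (ε + δ) := by ring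

/-- `sA A` is Lipschitz -/
theorem abs_sA_sub_le {n : ℕ} (A : Lin n) (H K : Mat n) : |sA A H - sA A K| ≤ n * ‖A‖ ^ 2 * nK (H - K) := by
  rw [sA_sub67]
  unfold sA
  refine (Finset.abs_sum_le_sum_abs _ _).trans ?_
  have h1 : ∀ l : Fin n, |lf (H - K) (A (e l))| ≤ ‖A‖ ^ 2 * nK (H - K) := by
    intro l
    refine (abs_lf_le67 _ _).trans ?_
    have h2 : ‖A (e l)‖ ≤ ‖A‖ := by
      have h3 := A.le_opNorm (e l)
      have h4 : ‖(e l : V n)‖ = 1 := by simp [e]
      rwa [h4, mul_one] at h3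
    rw [mul_comm]
    exact mul_le_mul_of_nonneg_right (pow_le_pow_left₀ (norm_nonneg _) h2 2) (nK_nonneg67 _)
  refine (Finset.sum_le_sum fun l _ => h1 l).trans (le_of_eq ?_)
  rw [Finset.sum_const, Finset.card_univ, Fintype.card_fin, nsmul_eq_mul]
  ring

end Pool.Agent.Helper87.RG
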