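import Pool.Agent.Helper87.RG.R0

/-!
# Project REG, block R8: essential values

`ae_mem_ER`: almost every point is in `ER H`. PROOF. `Mat n` (identified with `Fin n → Fin n → ℂ`) and `V n` have countable dense sets. If `z ∉ ER H` there are rational `ε, r > 0` with `|{y ∈ ball z (2r) : nK (H y - H z) < 2ε}| = 0`; choose a dense point `p` with `z ∈ ball p r` and a matrix `Q` of the countable dense set with `nK (H z - Q) < ε`: `z` lies in `{y ∈ ball p r : nK (H y - Q) < ε} ⊆ {y ∈ ball z (2r) : nK (H y - H z) < 2ε}`, a null set of a countable family.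
`ER_le`: for `f : Mat n → ℝ` continuous at `H z` in the sense of `nK`. PROOF. If `f (H z) > m`, then `f > m` on `{K : nK (K - H z) < ε}`, and the set of `y ∈ ball z r` with `H y` in there has positive measure, contradiction.
`ER_eq`: the equation holds on `ER H`. PROOF. For `z ∈ ER H ∩ ball x0 R` and small `r`: `|log det H y - κ z| ≤ B r` for a.e. `y ∈ ball z r`, so `|log det H z - κ z| ≤ B r` (`ER_le`; `log det` is continuous at positive definite matrices), `r → 0`.
`ER_dense`: `ER H ∩ ball x r` has positive measure, in particular it is not empty.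
-/

set_option autoImplicit false

namespace Pool.Agent.Helper87.RG

open MeasureTheory Set Filter Topology Metric
open Helper29.AM
open scoped ComplexOrder

variable {n : ℕ} {H : V n → Mat n}

private theorem nK_nonneg_r8 (K : Mat n) : 0 ≤ nK K :=
  Finset.sum_nonneg fun _ _ => Finset.sum_nonneg fun _ _ => norm_nonneg _

private theorem entry_le_nK_r8 (K : Mat n) (j k : Fin n) : ‖K j k‖ ≤ nK K := by
  unfold nK
  refine le_trans ?_ (Finset.single_le_sum (f := fun j => ∑ k, ‖K j k‖)
    (fun _ _ => Finset.sum_nonneg fun _ _ => norm_nonneg _) (Finset.mem_univ j))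
  exact Finset.single_le_sum (f := fun k => ‖K j k‖) (fun _ _ => norm_nonneg _)
    (Finset.mem_univ k)

private theorem nK_tri_r8 (A B C : Mat n) : nK (A - C) ≤ nK (A - B) + nK (B - C) := by
  unfold nK
  rw [← Finset.sum_add_distrib]
  refine Finset.sum_le_sum fun j _ => ?_
  rw [← Finset.sum_add_distrib]
  refine Finset.sum_le_sum fun k _ => ?_
  simp only [Matrix.sub_apply]
  calc ‖A j k - C j k‖ = ‖(A j k - B j k) + (B j k - C j k)‖ := by congr 1; ring
    _ ≤ _ := norm_add_le _ _

private theorem nK_symm_r8 (A B : Mat n) : nK (A - B) = nK (B - A) := by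
  unfold nK
  refine Finset.sum_congr rfl fun j _ => Finset.sum_congr rfl fun k _ => ?_
  simp only [Matrix.sub_apply]
  exact norm_sub_rev _ _

private noncomputable def dq_r8 (n : ℕ) (q : ℕ) : Mat n :=
  Matrix.of (TopologicalSpace.denseSeq (Fin n → Fin n → ℂ) q)

private theorem nK_dense_r8 (K : Mat n) {ε : ℝ} (hε : 0 < ε) :
    ∃ q : ℕ, nK (K - dq_r8 n q) < ε := by
  have hc : Continuous fun Q : Fin n → Fin n → ℂ => nK (K - Matrix.of Q) := by
    unfold nK
    refine continuous_finsetSum _ fun j _ => continuous_finsetSum _ fun k _ => ?_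
    have h1 : Continuous fun Q : Fin n → Fin n → ℂ => K j k - Q j k :=
      continuous_const.sub ((continuous_apply k).comp (continuous_apply j))
    exact h1.norm
  have ho : IsOpen {Q : Fin n → Fin n → ℂ | nK (K - Matrix.of Q) < ε} :=
    isOpen_lt hc continuous_const
  have hne : {Q : Fin n → Fin n → ℂ | nK (K - Matrix.of Q) < ε}.Nonempty := by
    refine ⟨fun j k => K j k, ?_⟩
    have : nK (K - K) = 0 := by
      rw [sub_self]
      simp [nK]
    exact lt_of_eq_of_lt this hε
  obtain ⟨q, hq⟩ := (TopologicalSpace.denseRange_denseSeq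
    (Fin n → Fin n → ℂ)).exists_mem_open ho hne
  exact ⟨q, hq⟩

private theorem nK_cont_r8 {f : Mat n → ℝ} {K0 : Mat n} (hf : ContinuousAt f K0) :
    ∀ δ > 0, ∃ ε > 0, ∀ K : Mat n, nK (K - K0) < ε → |f K - f K0| < δ := by
  intro δ hδ
  have hf' : ContinuousAt (fun K : Fin n → Fin n → ℂ => f (Matrix.of K)) (fun j k => K0 j k) := hf
  obtain ⟨ε, hε, h⟩ := Metric.continuousAt_iff.1 hf' δ hδ
  refine ⟨ε, hε, fun K hK => ?_⟩
  have h2 : dist (fun j k => K j k : Fin n → Fin n → ℂ) (fun j k => K0 j k) < ε := by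
    rw [dist_pi_lt_iff hε]
    intro j
    rw [dist_pi_lt_iff hε]
    intro k
    rw [dist_eq_norm]
    exact lt_of_le_of_lt (entry_le_nK_r8 (K - K0) j k) hK
  have h3 := h h2
  rwa [Real.dist_eq] at h3

theorem measurableSet_ER_aux (hm : ∀ j k, Measurable fun z => H z j k) (Q : Mat n) (ε : ℝ) :
    MeasurableSet {y | nK (H y - Q) < ε} := by
  refine measurableSet_lt ?_ measurable_const
  unfold nK
  refine Finset.measurable_sum _ fun j _ => Finset.measurable_sum _ fun k _ => ?_
  exact ((hm j k).sub_const _).norm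

theorem ae_mem_ER (hm : ∀ j k, Measurable fun z => H z j k) : ∀ᵐ z, z ∈ ER H := by
  have hd := TopologicalSpace.denseRange_denseSeq (V n)
  set N : ℕ × ℕ × ℕ × ℕ → Set (V n) := fun i =>
    {y | y ∈ ball (TopologicalSpace.denseSeq (V n) i.1) (1 / ((i.2.2.2 : ℝ) + 1)) ∧
      nK (H y - dq_r8 n i.2.1)
        < 1 / ((i.2.2.1 : ℝ) + 1)} with hN
  classical
  set S : ℕ × ℕ × ℕ × ℕ → Set (V n) := fun i => if volume (N i) = 0 then N i else ∅ with hS
  have hS0 : ∀ i, volume (S i) = 0 := by
    intro i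
    simp only [hS]
    split_ifs with h
    · exact h
    · exact measure_empty
  have hU : volume (⋃ i, S i) = 0 := measure_iUnion_null hS0
  rw [ae_iff]
  refine measure_mono_null ?_ hU
  intro z hz
  simp only [ER, mem_setOf_eq, not_forall, not_lt, nonpos_iff_eq_zero] at hz
  obtain ⟨ε, hε, r, hr, hv⟩ := hz
  obtain ⟨a, ha⟩ := exists_nat_one_div_lt (half_pos hε)
  obtain ⟨b, hb⟩ := exists_nat_one_div_lt (half_pos hr)
  have ha0 : (0 : ℝ) < 1 / ((a : ℝ) + 1) := by positivity
  have hb0 : (0 : ℝ) < 1 / ((b : ℝ) + 1) := by positivity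
  obtain ⟨p, hp⟩ := hd.exists_dist_lt z hb0
  obtain ⟨q, hq⟩ := nK_dense_r8 (H z) ha0
  have hzN : z ∈ N (p, q, a, b) := ⟨by rw [mem_ball]; exact hp, hq⟩
  have hsub : N (p, q, a, b) ⊆ {y | y ∈ ball z r ∧ nK (H y - H z) < ε} := by
    rintro y ⟨hy1, hy2⟩
    constructor
    · rw [mem_ball] at hy1 ⊢
      have h1 := dist_triangle y (TopologicalSpace.denseSeq (V n) p) z
      rw [dist_comm] at hp
      simp only at hy1
      linarith
    · have h1 := nK_tri_r8 (H y) (dq_r8 n q) (H z)
      rw [nK_symm_r8 (dq_r8 n q) (H z)] at h1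
      simp only at hy2
      linarith
  have hN0 : volume (N (p, q, a, b)) = 0 := measure_mono_null hsub hv
  refine mem_iUnion.2 ⟨(p, q, a, b), ?_⟩
  simp only [hS]
  rw [if_pos hN0]
  exact hzN

theorem ER_le {z : V n} (hz : z ∈ ER H) {r : ℝ} (hr : 0 < r) {f : Mat n → ℝ} {m : ℝ}
    (hf : ∀ δ > 0, ∃ ε > 0, ∀ K : Mat n, nK (K - H z) < ε → |f K - f (H z)| < δ)
    (h : ∀ᵐ y, y ∈ ball z r → f (H y) ≤ m) : f (H z) ≤ m := by
  by_contra hlt
  push Not at hlt
  obtain ⟨ε, hε, hK⟩ := hf (f (H z) - m) (by linarith)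
  have h1 := hz ε hε r hr
  have h2 : volume {y | y ∈ ball z r ∧ nK (H y - H z) < ε} = 0 := by
    rw [ae_iff] at h
    refine measure_mono_null ?_ h
    rintro y ⟨hy1, hy2⟩
    simp only [mem_setOf_eq, Classical.not_imp, not_le]
    refine ⟨hy1, ?_⟩
    have h3 := abs_lt.1 (hK (H y) hy2)
    linarith [h3.1]
  rw [h2] at h1
  exact lt_irrefl _ h1

theorem ER_sA_le {z : V n} (hz : z ∈ ER H) {A : Lin n} {U : Set (V n)} (hU : IsOpen U) (hzU : z ∈ U) {m : ℝ}
    (h : ∀ᵐ y, y ∈ U → sA A (H y) ≤ m) : sA A (H z) ≤ m := by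
  obtain ⟨r, hr, hrU⟩ := Metric.isOpen_iff.1 hU z hzU
  refine ER_le hz hr (f := sA A) (nK_cont_r8 ?_) ?_
  · have hc : Continuous fun K : Mat n => sA A K := by
      unfold sA lf
      refine continuous_finsetSum _ fun l _ => Complex.continuous_re.comp ?_
      refine continuous_finsetSum _ fun j _ => continuous_finsetSum _ fun k _ => ?_
      exact ((continuous_id.matrix_elem j k).mul continuous_const).mul continuous_const
    exact hc.continuousAt
  · filter_upwards [h] with y hy hyr
    exact hy (hrU hyr)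

theorem ER_eq {x0 : V n} {R : ℝ} {u κ : V n → ℝ} {c Λ B : ℝ} (hl : RegLoc x0 R u κ H c Λ B) {z : V n} (hz : z ∈ ER H)
    (hzB : z ∈ ball x0 R) : Real.log (H z).det.re = κ z := by
  obtain ⟨r0, hr0, hrU⟩ := Metric.isOpen_iff.1 isOpen_ball z hzB
  have hdet : 0 < (H z).det.re := lt_of_lt_of_le hl.hc (hl.det z)
  have hcont : ContinuousAt (fun K : Mat n => Real.log K.det.re) (H z) := by
    have h1 : Continuous fun K : Mat n => K.det.re :=
      Complex.continuous_re.comp (continuous_id.matrix_det)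
    exact (h1.continuousAt).log hdet.ne'
  have key : ∀ r, 0 < r → r ≤ r0 → |Real.log (H z).det.re - κ z| ≤ B * r := by
    intro r hr hr1
    have hae : ∀ᵐ y, y ∈ ball z r → |Real.log (H y).det.re - κ z| ≤ B * r := by
      filter_upwards [hl.eq] with y hy hyr
      have hyB : y ∈ ball x0 R := hrU (ball_subset_ball hr1 hyr)
      rw [hy hyB]
      refine (hl.lip y hyB z hzB).trans ?_
      refine mul_le_mul_of_nonneg_left ?_ hl.hB
      rw [mem_ball, dist_eq_norm] at hyr
      exact hyr.le
    have h1 : Real.log (H z).det.re ≤ κ z + B * r := by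
      refine ER_le hz hr (f := fun K : Mat n => Real.log K.det.re) (nK_cont_r8 hcont) ?_
      filter_upwards [hae] with y hy hyr
      have := abs_le.1 (hy hyr)
      linarith [this.2]
    have h2 : -Real.log (H z).det.re ≤ -κ z + B * r := by
      refine ER_le hz hr (f := fun K : Mat n => -Real.log K.det.re) (nK_cont_r8 hcont.neg) ?_
      filter_upwards [hae] with y hy hyr
      have := abs_le.1 (hy hyr)
      linarith [this.1]
    rw [abs_le]
    constructor <;> linarith
  by_contra hne
  have hpos : 0 < |Real.log (H z).det.re - κ z| := abs_pos.2 (sub_ne_zero.2 hne)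
  set d := |Real.log (H z).det.re - κ z| with hd
  have hB1 : 0 < B + 1 := by linarith [hl.hB]
  have hr2 : 0 < min r0 (d / (2 * (B + 1))) := lt_min hr0 (by positivity)
  have h3 := key _ hr2 (min_le_left _ _)
  have h4 : B * min r0 (d / (2 * (B + 1))) ≤ B * (d / (2 * (B + 1))) :=
    mul_le_mul_of_nonneg_left (min_le_right _ _) hl.hB
  have h5 : B * (d / (2 * (B + 1))) ≤ d / 2 := by
    rw [mul_div_assoc', div_le_div_iff₀ (by positivity) (by norm_num)]
    nlinarith [hl.hB]
  linarith

theorem ER_nonempty (hm : ∀ j k, Measurable fun z => H z j k) {U : Set (V n)} (hU : MeasurableSet U) (hU0 : 0 < volume U) :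
    (ER H ∩ U).Nonempty := by
  by_contra hne
  rw [not_nonempty_iff_eq_empty] at hne
  have h1 := ae_mem_ER hm
  rw [ae_iff] at h1
  have h2 : volume U = 0 := by
    refine measure_mono_null ?_ h1
    intro y hy
    simp only [mem_setOf_eq]
    intro hyE
    have : y ∈ ER H ∩ U := ⟨hyE, hy⟩
    rw [hne] at this
    exact this
  exact hU0.ne' h2

end Pool.Agent.Helper87.RG
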