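import Pool.Agent.Helper87.RG.R6
import Pool.Agent.Helper87.RG.R7
import Pool.Agent.Helper87.RG.R8
import Pool.Agent.Helper87.RG.R10

/-!
# Project REG, block R9: decay of the oscillation of the Hessian ((7.6))

`decay`. PROOF. Let `S, C` be as in `frames`, `th = 1/(2 #S)`, `c1, C1` the minimum/maximum of the constants of `crit` for `A ∈ S`. Fix `x ∈ ball x0 (R/2)`; for `0 < r ≤ R/4` (so `closedBall x r ⊆ ball x0 R`) let `G_r = ER H ∩ ball x r` (not empty), `m_A(r) = sup_(G_r) sA A ∘ H` (bounded: `|sA A (H y)| ≤ n ‖A‖² Λ`-type), `V(r) = ∑_(A ∈ S) m_A(r)`, `osc(r) = sup_(y, y' ∈ G_r) nK (H y - H y')`.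
CLAIM (`step`): `V(r/4) ≤ V(r) - c2 osc(r) + C2 r`. Let `ε = osc(r)/(8C)`; if `osc(r) = 0` it is trivial. (a) If for some `A ∈ S`: `|{y ∈ ball x (r/2) : sA A (H y) ≤ m_A(r) - ε}| ≥ th |ball x (r/2)|`: `crit` with the radius `r/2` (`m_A(r)` is an a.e. upper bound on `ball x r` since a.e. point is in `ER H`) gives `sA A ∘ H ≤ m_A(r) - c1 ε + C1 r²/4` a.e. on `ball x (r/4)`, hence on `G_(r/4)` (`ER_sA_le`), so `V(r/4) ≤ V(r) - c1 ε + C1 r² `.
(b) Otherwise the union over `A ∈ S` of these sets has measure `< |ball x (r/2)|/2`, so there is `y ∈ ER H ∩ ball x (r/2)` with `sA A (H y) > m_A(r) - ε` for all `A ∈ S`. For every `x' ∈ G_r`: `sA A (H x') ≤ m_A(r) ≤ sA A (H y) + ε` and `log det H x' ≥ log det H y - 2 B r` (`ER_eq`, `lip`), so `nK (H x' - H y) ≤ C (ε + 2 B r)` by `frames`. So `osc(r) ≤ 2 C ε + 4 C B r = osc(r)/4 + 4 C B r`, `osc(r) ≤ 6 C B r`, and `V(r/4) ≤ V(r) ≤ V(r) - osc(r) + 6 C B r`.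
Let `V0 = inf_r V(r)`, `ω(r) = V(r) - V0 ≥ 0`. For `r' < r`: `V(r) - V(r') ≤ C3 osc(r)` (`abs_sA_sub_le`), so `ω(r) ≤ C3 osc(r)`, `ω(r/4) ≤ (1 - c2/C3) ω(r) + C2 r` (`C3 ≥ c2` may be assumed): `iter` gives `ω(r) ≤ C r^α`, and `c2 osc(r) ≤ V(r) - V(r/4) + C2 r ≤ ω(r) + C2 r ≤ C r^α`. All constants depend only on `n, c, Λ, B, R` (the bound `W` for `ω` by `Λ`).
-/

set_option autoImplicit false

namespace Pool.Agent.Helper87.RG

open MeasureTheory Set Filter Topology Metric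
open Helper29.AM
open scoped ComplexOrder

private theorem nK_nonneg76 {n : ℕ} (K : Mat n) : 0 ≤ nK K :=
  Finset.sum_nonneg fun _ _ => Finset.sum_nonneg fun _ _ => norm_nonneg _

private theorem nK_tri76 {n : ℕ} (P Q K : Mat n) : nK (P - Q) ≤ nK (P - K) + nK (Q - K) := by
  unfold nK
  rw [← Finset.sum_add_distrib]
  refine Finset.sum_le_sum fun j _ => ?_
  rw [← Finset.sum_add_distrib]
  refine Finset.sum_le_sum fun k _ => ?_
  have h : (P - Q) j k = (P - K) j k - (Q - K) j k := by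
    simp only [Matrix.sub_apply]
    ring
  rw [h]
  exact norm_sub_le _ _

private theorem nK_le76 {n : ℕ} {P Q : Mat n} (hP : P.PosDef) (hQ : Q.PosDef) {Λ : ℝ}
    (h1 : (Matrix.trace P).re ≤ Λ) (h2 : (Matrix.trace Q).re ≤ Λ) :
    nK (P - Q) ≤ (n : ℝ) * (n * (2 * Λ)) := by
  unfold nK
  have h3 : ∀ j k : Fin n, ‖(P - Q) j k‖ ≤ 2 * Λ := fun j k => by
    rw [Matrix.sub_apply]
    refine (norm_sub_le _ _).trans ?_
    have h4 := (norm_entry_le hP.posSemidef j k).trans h1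
    have h5 := (norm_entry_le hQ.posSemidef j k).trans h2
    linarith
  calc ∑ j, ∑ k, ‖(P - Q) j k‖ ≤ ∑ _j : Fin n, ∑ _k : Fin n, 2 * Λ :=
        Finset.sum_le_sum fun j _ => Finset.sum_le_sum fun k _ => h3 j k
    _ = (n : ℝ) * (n * (2 * Λ)) := by
        simp [Finset.sum_const, nsmul_eq_mul]

private theorem meas_sA76 {n : ℕ} {H : V n → Mat n} (hm : ∀ j k, Measurable fun z => H z j k)
    (A : Lin n) : Measurable fun z => sA A (H z) := by
  unfold sA lf
  refine Finset.measurable_sum _ fun l _ => Complex.measurable_re.comp ?_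
  refine Finset.measurable_sum _ fun j _ => Finset.measurable_sum _ fun k _ => ?_
  exact ((hm j k).mul_const _).mul_const _

/-- uniform constants in the critical density lemma -/
private theorem crit_unif76 {n : ℕ} (hn : 0 < n) {c Λ B th : ℝ} (hc : 0 < c) (hth : 0 < th)
    {S : Finset (Lin n)} (hS : S.Nonempty) (hdet : ∀ A ∈ S, A.det ≠ 0) :
    ∃ c1 C1 : ℝ, 0 < c1 ∧ 0 ≤ C1 ∧ ∀ A ∈ S, ∀ (x0 : V n) (R : ℝ) (u κ : V n → ℝ) (H : V n → Mat n),
      RegLoc x0 R u κ H c Λ B →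
      ∀ (x : V n) (r m ε : ℝ), 0 < r → closedBall x (2 * r) ⊆ ball x0 R → 0 < ε →
        (∀ᵐ y, y ∈ ball x (2 * r) → sA A (H y) ≤ m) →
        th * volume.real (ball x r) ≤ volume.real {y | y ∈ ball x r ∧ sA A (H y) ≤ m - ε} →
        ∀ᵐ y, y ∈ ball x (r / 2) → sA A (H y) ≤ m - c1 * ε + C1 * r ^ 2 := by
  have h0 : ∀ A : Lin n, ∃ c1 C1 : ℝ, A ∈ S → (0 < c1 ∧ 0 ≤ C1 ∧ ∀ (x0 : V n) (R : ℝ)
      (u κ : V n → ℝ) (H : V n → Mat n), RegLoc x0 R u κ H c Λ B →
      ∀ (x : V n) (r m ε : ℝ), 0 < r → closedBall x (2 * r) ⊆ ball x0 R → 0 < ε →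
        (∀ᵐ y, y ∈ ball x (2 * r) → sA A (H y) ≤ m) →
        th * volume.real (ball x r) ≤ volume.real {y | y ∈ ball x r ∧ sA A (H y) ≤ m - ε} →
        ∀ᵐ y, y ∈ ball x (r / 2) → sA A (H y) ≤ m - c1 * ε + C1 * r ^ 2) := by
    intro A
    by_cases hA : A ∈ S
    · obtain ⟨c1, C1, h1, h2, h3⟩ := crit hn (c := c) (Λ := Λ) (B := B) (th := th) hc hth (hdet A hA)
      exact ⟨c1, C1, fun _ => ⟨h1, h2, h3⟩⟩
    · exact ⟨0, 0, fun h => absurd h hA⟩
  choose c1 C1 h1 using h0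
  obtain ⟨A0, hA0, hmin⟩ := S.exists_min_image c1 hS
  refine ⟨c1 A0, ∑ A ∈ S, C1 A, (h1 A0 hA0).1, Finset.sum_nonneg fun A hA => (h1 A hA).2.1, ?_⟩
  intro A hA x0 R u κ H hl x r m ε hr hsub hε hm hvol
  filter_upwards [(h1 A hA).2.2 x0 R u κ H hl x r m ε hr hsub hε hm hvol] with y hy hyb
  have h2 := hy hyb
  have h3 : C1 A ≤ ∑ A ∈ S, C1 A := Finset.single_le_sum (fun A hA => (h1 A hA).2.1) hA
  have h4 : c1 A0 * ε ≤ c1 A * ε := mul_le_mul_of_nonneg_right (hmin A hA) hε.le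
  have h5 : C1 A * r ^ 2 ≤ (∑ A ∈ S, C1 A) * r ^ 2 := mul_le_mul_of_nonneg_right h3 (sq_nonneg r)
  linarith

/-- the set `G_r` -/
private def Gs76 {n : ℕ} (H : V n → Mat n) (x : V n) (r : ℝ) : Set (V n) := ER H ∩ ball x r

/-- the supremum of `sA A ∘ H` on `G_r` -/
private noncomputable def mA76 {n : ℕ} (H : V n → Mat n) (x : V n) (A : Lin n) (r : ℝ) : ℝ :=
  sSup ((fun y => sA A (H y)) '' Gs76 H x r)

private theorem exists_point76 {n : ℕ} {H : V n → Mat n} (hm : ∀ j k, Measurable fun z => H z j k)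
    {x : V n} {r : ℝ} (hr : 0 < r) {S : Finset (Lin n)} (hS : S.Nonempty) {q : Lin n → ℝ}
    (h : ∀ A ∈ S, volume.real {y | y ∈ ball x r ∧ sA A (H y) ≤ q A} <
      (1 / (2 * (S.card : ℝ))) * volume.real (ball x r)) :
    ∃ y, y ∈ ER H ∧ y ∈ ball x r ∧ ∀ A ∈ S, q A < sA A (H y) := by
  classical
  set Z : Lin n → Set (V n) := fun A => {y | y ∈ ball x r ∧ sA A (H y) ≤ q A} with hZ
  have hZm : ∀ A, MeasurableSet (Z A) := fun A =>
    measurableSet_ball.inter (measurableSet_le (meas_sA76 hm A) measurable_const)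
  have hfin : volume (ball x r) ≠ ⊤ := measure_ball_lt_top.ne
  have hpos : 0 < volume.real (ball x r) :=
    ENNReal.toReal_pos (measure_ball_pos volume x hr).ne' hfin
  have hU : volume.real (⋃ A ∈ S, Z A) < volume.real (ball x r) := by
    have h1 : volume.real (⋃ A ∈ S, Z A) ≤ ∑ A ∈ S, volume.real (Z A) :=
      measureReal_biUnion_finset_le _ _
    have h2 : ∑ A ∈ S, volume.real (Z A) <
        ∑ _A ∈ S, (1 / (2 * (S.card : ℝ))) * volume.real (ball x r) :=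
      Finset.sum_lt_sum_of_nonempty hS h
    have h3 : ∑ _A ∈ S, (1 / (2 * (S.card : ℝ))) * volume.real (ball x r) =
        (1 / 2) * volume.real (ball x r) := by
      rw [Finset.sum_const, nsmul_eq_mul]
      have h4 : (S.card : ℝ) ≠ 0 := by
        exact_mod_cast hS.card_pos.ne'
      field_simp
    rw [h3] at h2
    linarith
  have hne : (ER H ∩ (ball x r \ ⋃ A ∈ S, Z A)).Nonempty := by
    have hUm : MeasurableSet (⋃ A ∈ S, Z A) := S.measurableSet_biUnion fun A _ => hZm A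
    refine ER_nonempty hm (measurableSet_ball.diff hUm) ?_
    rw [pos_iff_ne_zero]
    intro h0
    have h1 : volume (ball x r) ≤ volume (⋃ A ∈ S, Z A) := by
      calc volume (ball x r) ≤ volume ((ball x r \ ⋃ A ∈ S, Z A) ∪ ⋃ A ∈ S, Z A) :=
            measure_mono (by
              intro z hz
              by_cases hz' : z ∈ ⋃ A ∈ S, Z A
              · exact Or.inr hz'
              · exact Or.inl ⟨hz, hz'⟩)
        _ ≤ volume (ball x r \ ⋃ A ∈ S, Z A) + volume (⋃ A ∈ S, Z A) := measure_union_le _ _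
        _ = volume (⋃ A ∈ S, Z A) := by rw [h0, zero_add]
    have h2 : volume (⋃ A ∈ S, Z A) ≠ ⊤ := by
      refine ne_top_of_le_ne_top hfin (measure_mono ?_)
      intro z hz
      simp only [mem_iUnion] at hz
      obtain ⟨A, _, hz⟩ := hz
      exact hz.1
    have h3 : volume.real (ball x r) ≤ volume.real (⋃ A ∈ S, Z A) := ENNReal.toReal_mono h2 h1
    linarith
  obtain ⟨y, hy1, hy2, hy3⟩ := hne
  refine ⟨y, hy1, hy2, fun A hA => ?_⟩
  by_contra hcon
  exact hy3 (mem_biUnion hA ⟨hy2, not_lt.1 hcon⟩)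

/-- decay of the oscillation, with all the constants -/
private theorem osc_step76 {n : ℕ} {c Λ B R : ℝ} {S : Finset (Lin n)} (hS : S.Nonempty)
    {C0 c1 C1 : ℝ} (hC0 : 0 < C0) (hc1 : 0 < c1) (hC1 : 0 ≤ C1)
    (hfr : ∀ H0 H1 : Mat n, H0.PosDef → H1.PosDef → (Matrix.trace H0).re ≤ Λ →
      (Matrix.trace H1).re ≤ Λ → c ≤ H0.det.re → c ≤ H1.det.re →
      ∀ ε δ : ℝ, 0 ≤ ε → 0 ≤ δ → (∀ A ∈ S, sA A H1 ≤ sA A H0 + ε) →
        Real.log H0.det.re - δ ≤ Real.log H1.det.re → nK (H1 - H0) ≤ C0 * (ε + δ))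
    (hcr : ∀ A ∈ S, ∀ (x0 : V n) (R : ℝ) (u κ : V n → ℝ) (H : V n → Mat n),
      RegLoc x0 R u κ H c Λ B →
      ∀ (x : V n) (r m ε : ℝ), 0 < r → closedBall x (2 * r) ⊆ ball x0 R → 0 < ε →
        (∀ᵐ y, y ∈ ball x (2 * r) → sA A (H y) ≤ m) →
        (1 / (2 * (S.card : ℝ))) * volume.real (ball x r) ≤
          volume.real {y | y ∈ ball x r ∧ sA A (H y) ≤ m - ε} →
        ∀ᵐ y, y ∈ ball x (r / 2) → sA A (H y) ≤ m - c1 * ε + C1 * r ^ 2)
    {x0 : V n} {u κ : V n → ℝ} {H : V n → Mat n} (hl : RegLoc x0 R u κ H c Λ B)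
    {x : V n} {r : ℝ} (hr : 0 < r) (hsub : closedBall x r ⊆ ball x0 R) (hrR : r ≤ R / 4)
    {y y' : V n} (hy : y ∈ Gs76 H x r) (hy' : y' ∈ Gs76 H x r)
    (hbd : ∀ A, BddAbove ((fun y => sA A (H y)) '' Gs76 H x r))
    (hne : (Gs76 H x (r / 4)).Nonempty) :
    min (c1 / (8 * C0)) 1 * nK (H y - H y') ≤
      ∑ A ∈ S, mA76 H x A r - ∑ A ∈ S, mA76 H x A (r / 4) + (C1 * R + 6 * C0 * B) * r := by
  have hB := hl.hB
  have hR := hl.hR
  have hG4 : Gs76 H x (r / 4) ⊆ Gs76 H x r :=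
    inter_subset_inter_right _ (ball_subset_ball (by linarith))
  have hmono : ∀ A, mA76 H x A (r / 4) ≤ mA76 H x A r := fun A =>
    csSup_le_csSup (hbd A) (hne.image _) (image_mono hG4)
  have hle : ∀ A, ∀ z ∈ Gs76 H x r, sA A (H z) ≤ mA76 H x A r := fun A z hz =>
    le_csSup (hbd A) ⟨z, hz, rfl⟩
  have hsum : ∑ A ∈ S, mA76 H x A (r / 4) ≤ ∑ A ∈ S, mA76 H x A r :=
    Finset.sum_le_sum fun A _ => hmono A
  set t := nK (H y - H y') with ht
  have ht0 : 0 ≤ t := nK_nonneg76 _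
  have hC1r : 0 ≤ C1 * R * r := by positivity
  have hCBr : 0 ≤ 6 * C0 * B * r := by positivity
  rcases ht0.eq_or_lt with h0 | h0
  · rw [← h0, mul_zero]
    have : (C1 * R + 6 * C0 * B) * r = C1 * R * r + 6 * C0 * B * r := by ring
    linarith
  set ε := t / (8 * C0) with hε
  have hε0 : 0 < ε := by positivity
  have hεt : 8 * C0 * ε = t := by
    rw [hε]
    field_simp
  by_cases hcase : ∃ A ∈ S, (1 / (2 * (S.card : ℝ))) * volume.real (ball x (r / 2)) ≤
      volume.real {y | y ∈ ball x (r / 2) ∧ sA A (H y) ≤ mA76 H x A r - ε}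
  · obtain ⟨A, hA, hvol⟩ := hcase
    have h2r : 2 * (r / 2) = r := by ring
    have h1 := hcr A hA x0 R u κ H hl x (r / 2) (mA76 H x A r) ε (by positivity)
      (by rw [h2r]; exact hsub) hε0 (by
        rw [h2r]
        filter_upwards [ae_mem_ER hl.bh.meas] with z hz hzb
        exact hle A z ⟨hz, hzb⟩) hvol
    have hr4 : r / 2 / 2 = r / 4 := by ring
    rw [hr4] at h1
    have h2 : mA76 H x A (r / 4) ≤ mA76 H x A r - c1 * ε + C1 * (r / 2) ^ 2 := by
      refine csSup_le (hne.image _) ?_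
      rintro _ ⟨z, hz, rfl⟩
      exact ER_sA_le hz.1 isOpen_ball hz.2 h1
    have h3 : ∑ A ∈ S, mA76 H x A (r / 4) ≤
        ∑ A ∈ S, mA76 H x A r - c1 * ε + C1 * (r / 2) ^ 2 := by
      classical
      rw [← Finset.add_sum_erase S _ hA, ← Finset.add_sum_erase S (fun A => mA76 H x A r) hA]
      have h4 : ∑ A ∈ S.erase A, mA76 H x A (r / 4) ≤ ∑ A ∈ S.erase A, mA76 H x A r :=
        Finset.sum_le_sum fun A _ => hmono A
      linarith
    have h4 : C1 * (r / 2) ^ 2 ≤ C1 * R * r := by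
      have : (r / 2) ^ 2 ≤ R * r := by nlinarith
      calc C1 * (r / 2) ^ 2 ≤ C1 * (R * r) := mul_le_mul_of_nonneg_left this hC1
        _ = C1 * R * r := by ring
    have h5 : min (c1 / (8 * C0)) 1 * t ≤ c1 * ε := by
      have h6 : c1 / (8 * C0) * t = c1 * ε := by
        rw [hε]
        ring
      rw [← h6]
      exact mul_le_mul_of_nonneg_right (min_le_left _ _) h0.le
    have h6 : (C1 * R + 6 * C0 * B) * r = C1 * R * r + 6 * C0 * B * r := by ring
    linarith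
  · push Not at hcase
    obtain ⟨y0, hy0, hy0b, hy0A⟩ := exists_point76 hl.bh.meas (by positivity : 0 < r / 2) hS
      (q := fun A => mA76 H x A r - ε) hcase
    have hy0r : y0 ∈ ball x r := ball_subset_ball (by linarith) hy0b
    have hin : ∀ z ∈ ball x r, z ∈ ball x0 R := fun z hz => hsub (ball_subset_closedBall hz)
    have hkey : ∀ z ∈ Gs76 H x r, nK (H z - H y0) ≤ C0 * (ε + 2 * B * r) := by
      intro z hz
      refine hfr (H y0) (H z) (hl.pd _) (hl.pd _) (hl.tr _) (hl.tr _) (hl.det _) (hl.det _) ε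
        (2 * B * r) hε0.le (by positivity) ?_ ?_
      · intro A hA
        have h1 := hle A z hz
        have h2 := hy0A A hA
        linarith
      · rw [ER_eq hl hy0 (hin _ hy0r), ER_eq hl hz.1 (hin _ hz.2)]
        have h1 := hl.lip y0 (hin _ hy0r) z (hin _ hz.2)
        have h2 : ‖y0 - z‖ ≤ 2 * r := by
          have h3 := mem_ball.1 hy0r
          have h4 := mem_ball.1 hz.2
          have h5 := dist_triangle_right y0 z x
          rw [← dist_eq_norm]
          linarith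
        have h3 : B * ‖y0 - z‖ ≤ 2 * B * r := by
          calc B * ‖y0 - z‖ ≤ B * (2 * r) := mul_le_mul_of_nonneg_left h2 hB
            _ = 2 * B * r := by ring
        have h4 := (abs_le.1 h1).2
        linarith
    have h1 := hkey y hy
    have h2 := hkey y' hy'
    have h3 := nK_tri76 (H y) (H y') (H y0)
    have h4 : t ≤ 6 * C0 * B * r := by
      have h5 : t ≤ 2 * (C0 * (ε + 2 * B * r)) := by linarith
      have h6 : 2 * (C0 * (ε + 2 * B * r)) = t / 4 + 4 * C0 * B * r := by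
        rw [← hεt]
        ring
      have h7 : 0 ≤ C0 * B * r := by positivity
      have h8 : 6 * C0 * B * r = 6 * (C0 * B * r) := by ring
      have h9 : 4 * C0 * B * r = 4 * (C0 * B * r) := by ring
      rw [h6, h9] at h5
      rw [h8]
      linarith
    have h5 : min (c1 / (8 * C0)) 1 * t ≤ t := by
      calc min (c1 / (8 * C0)) 1 * t ≤ 1 * t := mul_le_mul_of_nonneg_right (min_le_right _ _) h0.le
        _ = t := one_mul t
    have h6 : (C1 * R + 6 * C0 * B) * r = C1 * R * r + 6 * C0 * B * r := by ring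
    linarith

theorem decay {n : ℕ} (hn : 0 < n) {c Λ B R : ℝ} (hc : 0 < c) (hR : 0 < R) : ∃ α C : ℝ, 0 < α ∧ α < 1 ∧ 0 < C ∧
    ∀ (x0 : V n) (u κ : V n → ℝ) (H : V n → Mat n), RegLoc x0 R u κ H c Λ B → ∀ x ∈ ball x0 (R / 2), ∀ r : ℝ, 0 < r → r ≤ R / 4 →
      ∀ y ∈ ER H ∩ ball x r, ∀ y' ∈ ER H ∩ ball x r, nK (H y - H y') ≤ C * r ^ α := by
  obtain ⟨S, C0, hC0, hS, hdet, hfr⟩ := frames hn (c := c) (Λ := Λ) hc
  have hcard : (0 : ℝ) < S.card := by exact_mod_cast hS.card_pos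
  obtain ⟨c1, C1, hc1, hC1, hcr⟩ := crit_unif76 hn (c := c) (Λ := Λ) (B := B)
    (th := 1 / (2 * (S.card : ℝ))) hc (by positivity) hS hdet
  set c2 := min (c1 / (8 * C0)) 1 with hc2
  have hc2pos : 0 < c2 := lt_min (by positivity) one_pos
  set C2 := C1 * R + 6 * C0 * |B| with hC2
  have hC2n : 0 ≤ C2 := by positivity
  set L := ∑ A ∈ S, (n : ℝ) * ‖A‖ ^ 2 with hL
  have hLn : 0 ≤ L := Finset.sum_nonneg fun A _ => by positivity
  set C3 := L + c2 with hC3
  have hC3pos : 0 < C3 := by positivity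
  set D := (n : ℝ) * (n * (2 * |Λ|)) with hD
  have hDn : 0 ≤ D := by positivity
  have hθ0 : 0 ≤ 1 - c2 / C3 := by
    have : c2 / C3 ≤ 1 := by
      rw [div_le_one hC3pos]
      linarith
    linarith
  have hθ1 : 1 - c2 / C3 < 1 := by
    have : 0 < c2 / C3 := by positivity
    linarith
  obtain ⟨α, C, hα, hα1, hC, hit⟩ := iter (θ := 1 - c2 / C3) (C1 := C2) (W := 2 * L * D)
    (r1 := R / 4) hθ0 hθ1 hC2n (by positivity) (by positivity)
  refine ⟨α, (C + C2 * (R / 4) ^ (1 - α)) / c2, hα, hα1, by positivity, ?_⟩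
  intro x0 u κ H hl x hx r hr hrR y hy y' hy'
  have hB : |B| = B := abs_of_nonneg hl.hB
  have hm := hl.bh.meas
  -- bounds
  have hosc : ∀ z z' : V n, nK (H z - H z') ≤ D := fun z z' =>
    nK_le76 (hl.pd z) (hl.pd z') ((hl.tr z).trans (le_abs_self Λ))
      ((hl.tr z').trans (le_abs_self Λ))
  have hsA : ∀ (A : Lin n) (z z' : V n), sA A (H z) ≤ sA A (H z') + n * ‖A‖ ^ 2 * nK (H z - H z') :=
    fun A z z' => by
      have := (abs_le.1 (abs_sA_sub_le A (H z) (H z'))).2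
      linarith
  have hsA2 : ∀ (A : Lin n) (z z' : V n), sA A (H z) ≤ sA A (H z') + n * ‖A‖ ^ 2 * D :=
    fun A z z' => (hsA A z z').trans (by
      have := mul_le_mul_of_nonneg_left (hosc z z') (by positivity : 0 ≤ (n : ℝ) * ‖A‖ ^ 2)
      linarith)
  have hbd : ∀ (s : ℝ) (A : Lin n), BddAbove ((fun y => sA A (H y)) '' Gs76 H x s) := by
    intro s A
    refine ⟨sA A (H x) + n * ‖A‖ ^ 2 * D, ?_⟩
    rintro _ ⟨z, _, rfl⟩
    exact hsA2 A z x
  have hne : ∀ s : ℝ, 0 < s → (Gs76 H x s).Nonempty := fun s hs =>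
    ER_nonempty hm measurableSet_ball (measure_ball_pos volume x hs)
  have hle : ∀ (s : ℝ) (A : Lin n), ∀ z ∈ Gs76 H x s, sA A (H z) ≤ mA76 H x A s :=
    fun s A z hz => le_csSup (hbd s A) ⟨z, hz, rfl⟩
  have hmono : ∀ (A : Lin n) (s s' : ℝ), 0 < s → s ≤ s' → mA76 H x A s ≤ mA76 H x A s' :=
    fun A s s' hs hss => csSup_le_csSup (hbd s' A) ((hne s hs).image _)
      (image_mono (inter_subset_inter_right _ (ball_subset_ball hss)))
  set Vf : ℝ → ℝ := fun s => ∑ A ∈ S, mA76 H x A s with hVf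
  have hVmono : ∀ s s' : ℝ, 0 < s → s ≤ s' → Vf s ≤ Vf s' := fun s s' hs hss =>
    Finset.sum_le_sum fun A _ => hmono A s s' hs hss
  -- upper and lower bounds of V
  set Vx := ∑ A ∈ S, sA A (H x) with hVx
  have hVup : ∀ s : ℝ, 0 < s → Vf s ≤ Vx + L * D := by
    intro s hs
    rw [hL, Finset.sum_mul, hVx, ← Finset.sum_add_distrib]
    refine Finset.sum_le_sum fun A _ => csSup_le ((hne s hs).image _) ?_
    rintro _ ⟨z, _, rfl⟩
    exact hsA2 A z x
  have hVlow : ∀ s : ℝ, 0 < s → Vx - L * D ≤ Vf s := by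
    intro s hs
    rw [hL, Finset.sum_mul, hVx, ← Finset.sum_sub_distrib]
    refine Finset.sum_le_sum fun A _ => ?_
    obtain ⟨z, hz⟩ := hne s hs
    have h1 := hle s A z hz
    have h2 := hsA2 A x z
    linarith
  set I : Set ℝ := Ioc 0 (R / 4) with hI
  have hIne : (Vf '' I).Nonempty := ⟨_, R / 4, ⟨by positivity, le_rfl⟩, rfl⟩
  have hIbd : BddBelow (Vf '' I) := ⟨Vx - L * D, by
    rintro _ ⟨s, hs, rfl⟩
    exact hVlow s hs.1⟩
  set V0 := sInf (Vf '' I) with hV0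
  have hV0le : ∀ s, 0 < s → s ≤ R / 4 → V0 ≤ Vf s := fun s hs hs' => csInf_le hIbd ⟨s, ⟨hs, hs'⟩, rfl⟩
  have hV0ge : Vx - L * D ≤ V0 := le_csInf hIne (by
    rintro _ ⟨s, hs, rfl⟩
    exact hVlow s hs.1)
  have hsub : ∀ s : ℝ, s ≤ R / 4 → closedBall x s ⊆ ball x0 R := by
    intro s hs z hz
    rw [mem_closedBall] at hz
    rw [mem_ball] at hx ⊢
    have := dist_triangle z x x0
    linarith
  -- the step
  have hstep : ∀ s : ℝ, 0 < s → s ≤ R / 4 → ∀ z ∈ Gs76 H x s, ∀ z' ∈ Gs76 H x s,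
      c2 * nK (H z - H z') ≤ Vf s - Vf (s / 4) + C2 * s := by
    intro s hs hs' z hz z' hz'
    have h1 := osc_step76 hS hC0 hc1 hC1 hfr hcr hl hs (hsub s hs') hs' hz hz' (hbd s)
      (hne (s / 4) (by positivity))
    rw [hC2, hB]
    exact h1
  have hω : ∀ s : ℝ, 0 < s → s ≤ R / 4 →
      Vf (s / 4) - V0 ≤ (1 - c2 / C3) * (Vf s - V0) + C2 * s := by
    intro s hs hs'
    set Q := Vf s - Vf (s / 4) + C2 * s with hQ
    have hQ0 : 0 ≤ Q := by
      have := hVmono (s / 4) s (by positivity) (by linarith)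
      have h2 : 0 ≤ C2 * s := by positivity
      rw [hQ]
      linarith
    have hosc' : ∀ z ∈ Gs76 H x s, ∀ z' ∈ Gs76 H x s, nK (H z - H z') ≤ Q / c2 := by
      intro z hz z' hz'
      rw [le_div_iff₀ hc2pos, mul_comm]
      exact hstep s hs hs' z hz z' hz'
    have h1 : ∀ s' : ℝ, 0 < s' → Vf s ≤ Vf s' + L * (Q / c2) := by
      intro s' hs1
      rcases le_total s s' with h | h
      · have h2 := hVmono s s' hs h
        have h3 : 0 ≤ L * (Q / c2) := by positivity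
        linarith
      · rw [hL, Finset.sum_mul, hVf]
        simp only
        rw [← Finset.sum_add_distrib]
        refine Finset.sum_le_sum fun A _ => csSup_le ((hne s hs).image _) ?_
        rintro _ ⟨z, hz, rfl⟩
        obtain ⟨z', hz'⟩ := hne s' hs1
        have hz'' : z' ∈ Gs76 H x s := inter_subset_inter_right _ (ball_subset_ball h) hz'
        have h2 := hsA A z z'
        have h3 := hle s' A z' hz'
        have h4 := mul_le_mul_of_nonneg_left (hosc' z hz z' hz'')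
          (by positivity : 0 ≤ (n : ℝ) * ‖A‖ ^ 2)
        simp only
        linarith
    have h2 : Vf s - L * (Q / c2) ≤ V0 := le_csInf hIne (by
      rintro _ ⟨s', hs', rfl⟩
      have := h1 s' hs'.1
      linarith)
    have h3 : Vf s - V0 ≤ C3 * (Q / c2) := by
      have h4 : L * (Q / c2) ≤ C3 * (Q / c2) :=
        mul_le_mul_of_nonneg_right (by rw [hC3]; linarith) (by positivity)
      linarith
    have h4 : c2 / C3 * (Vf s - V0) ≤ Q := by
      have h5 := mul_le_mul_of_nonneg_left h3 (by positivity : 0 ≤ c2 / C3)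
      have h6 : c2 / C3 * (C3 * (Q / c2)) = Q := by
        field_simp
      linarith
    rw [hQ] at h4
    have h5 : (1 - c2 / C3) * (Vf s - V0) = (Vf s - V0) - c2 / C3 * (Vf s - V0) := by ring
    rw [h5]
    linarith
  have hfinal := hit (fun s => Vf s - V0) (by
    intro s hs hs'
    have h1 := hVup s hs
    have h2 : 2 * L * D = L * D + L * D := by ring
    rw [h2]
    linarith) hω r hr hrR
  have h1 := hstep r hr hrR y hy y' hy'
  have h2 := hV0le (r / 4) (by positivity) (by linarith)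
  have h3 : C2 * r ≤ C2 * (R / 4) ^ (1 - α) * r ^ α := by
    have h4 : r = r ^ (1 - α) * r ^ α := by
      rw [← Real.rpow_add hr]
      simp
    have h5 : r ^ (1 - α) ≤ (R / 4) ^ (1 - α) := Real.rpow_le_rpow hr.le hrR (by linarith)
    calc C2 * r = C2 * (r ^ (1 - α) * r ^ α) := by rw [← h4]
      _ ≤ C2 * ((R / 4) ^ (1 - α) * r ^ α) :=
        mul_le_mul_of_nonneg_left (mul_le_mul_of_nonneg_right h5 (Real.rpow_nonneg hr.le _)) hC2n
      _ = C2 * (R / 4) ^ (1 - α) * r ^ α := by ring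
  have h4 : nK (H y - H y') * c2 ≤ (C + C2 * (R / 4) ^ (1 - α)) * r ^ α := by
    have h5 : (C + C2 * (R / 4) ^ (1 - α)) * r ^ α = C * r ^ α + C2 * (R / 4) ^ (1 - α) * r ^ α := by
      ring
    rw [h5, mul_comm]
    linarith
  rw [div_mul_eq_mul_div, le_div_iff₀ hc2pos]
  exact h4

end Pool.Agent.Helper87.RG
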